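import Pool.Agent.KQ.StStr

/-!
# KQ: rows and columns: strong maps of bisimplicial sets
-/

set_option autoImplicit false

namespace Pool.Agent.KQ

open CategoryTheory Function

universe u v w

theorem sr_weq_inv {G H : SGp.{u}} (f : G ⟶ H) (g : H ⟶ G) (h1 : f ≫ g = 𝟙 G)
    (h2 : g ≫ f = 𝟙 H) : SGp.Weq f := by
  intro j
  refine bijective_iff_has_inverse.2 ⟨SGp.PiMap g j, fun x => ?_, fun x => ?_⟩
  · rw [← SGp.PiMap_comp, h1, SGp.PiMap_id]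
  · rw [← SGp.PiMap_comp, h2, SGp.PiMap_id]

theorem sr_weq_comp {G H K : SGp.{u}} (f : G ⟶ H) (g : H ⟶ K) (hf : SGp.Weq f)
    (hg : SGp.Weq g) : SGp.Weq (f ≫ g) := by
  intro j
  have : (SGp.PiMap (f ≫ g) j : G.Pi j → K.Pi j) = SGp.PiMap g j ∘ SGp.PiMap f j :=
    funext fun x => SGp.PiMap_comp f g j x
  rw [this]
  exact (hg j).comp (hf j)

/-- the functor of the diagonal is the diagonal of the functor -/
def sr_e (Φ : FGr.{u}) (X : SOb SSt.{u}) :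
    Φ.ap.obj (SSt.diag X) ⟶ SGp.diag ((SOb.mapF Φ.ap).obj X) :=
  ⟨fun n => MonoidHom.id (Φ.obj ((X.obj n).obj n)), fun {m n} θ x =>
    Φ.map_comp ((X.map θ).app n) ((X.obj m).map θ) x⟩

/-- the inverse -/
def sr_e' (Φ : FGr.{u}) (X : SOb SSt.{u}) :
    SGp.diag ((SOb.mapF Φ.ap).obj X) ⟶ Φ.ap.obj (SSt.diag X) :=
  ⟨fun n => MonoidHom.id (Φ.obj ((X.obj n).obj n)), fun {m n} θ x =>
    (Φ.map_comp ((X.map θ).app n) ((X.obj m).map θ) x).symm⟩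

theorem sr_ee (Φ : FGr.{u}) (X : SOb SSt.{u}) : sr_e Φ X ≫ sr_e' Φ X = 𝟙 _ :=
  SGp.hom_ext fun _ _ => rfl

theorem sr_ee' (Φ : FGr.{u}) (X : SOb SSt.{u}) : sr_e' Φ X ≫ sr_e Φ X = 𝟙 _ :=
  SGp.hom_ext fun _ _ => rfl

theorem sr_sq (Φ : FGr.{u}) {X Y : SOb SSt.{u}} (f : X ⟶ Y) :
    Φ.ap.map (SSt.diagF.map f) =
      (sr_e Φ X ≫ SGp.diagF.map ((SOb.mapF Φ.ap).map f)) ≫ sr_e' Φ Y :=
  SGp.hom_ext fun _ _ => rfl

theorem thm_StrRow (h : St_RealW.{u}) : St_StrRow.{u} := by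
  intro X Y f hf Φ
  have h1 : SGp.Weq (SGp.diagF.map ((SOb.mapF Φ.ap).map f)) := h _ fun m => hf m Φ
  have h2 : SGp.Weq (sr_e Φ X) := sr_weq_inv _ (sr_e' Φ X) (sr_ee Φ X) (sr_ee' Φ X)
  have h3 : SGp.Weq (sr_e' Φ Y) := sr_weq_inv _ (sr_e Φ Y) (sr_ee' Φ Y) (sr_ee Φ Y)
  rw [sr_sq]
  exact sr_weq_comp _ _ (sr_weq_comp _ _ h2 h1) h3

/-- the transposed bisimplicial set -/
def sr_T (X : SOb SSt.{u}) : SOb SSt.{u} where
  obj n := SSt.col X n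
  map θ := ⟨fun p => (X.obj p).map θ, fun η x => ((X.map η).nat θ x).symm⟩
  map_id n := SSt.hom_ext fun p x => (X.obj p).map_id n x
  map_comp f g := SSt.hom_ext fun p x => (X.obj p).map_comp f g x

/-- the transposed map -/
def sr_Tmap {X Y : SOb SSt.{u}} (f : X ⟶ Y) : sr_T X ⟶ sr_T Y :=
  ⟨fun n => SSt.colMap f n, fun θ => SSt.hom_ext fun p x => (f.app p).nat θ x⟩

/-- the diagonal of the transposed bisimplicial set -/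
def sr_d (X : SOb SSt.{u}) : SSt.diag X ⟶ SSt.diag (sr_T X) :=
  ⟨fun _ x => x, fun {_ _} θ x => ((X.map θ).nat θ x).symm⟩

/-- the inverse -/
def sr_d' (X : SOb SSt.{u}) : SSt.diag (sr_T X) ⟶ SSt.diag X :=
  ⟨fun _ x => x, fun {_ _} θ x => (X.map θ).nat θ x⟩

theorem sr_strong_comp {X Y Z : SSt.{u}} (f : X ⟶ Y) (g : Y ⟶ Z) (hf : SSt.Strong f)
    (hg : SSt.Strong g) : SSt.Strong (f ≫ g) := by
  intro Φ
  rw [Φ.ap.map_comp]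
  exact sr_weq_comp _ _ (hf Φ) (hg Φ)

theorem sr_strong_inv {X Y : SSt.{u}} (f : X ⟶ Y) (g : Y ⟶ X) (h1 : f ≫ g = 𝟙 X)
    (h2 : g ≫ f = 𝟙 Y) : SSt.Strong f := by
  intro Φ
  refine sr_weq_inv _ (Φ.ap.map g) ?_ ?_
  · rw [← Φ.ap.map_comp, h1, Φ.ap.map_id]
  · rw [← Φ.ap.map_comp, h2, Φ.ap.map_id]

theorem sr_sqT {X Y : SOb SSt.{u}} (f : X ⟶ Y) :
    SSt.diagF.map f = (sr_d X ≫ SSt.diagF.map (sr_Tmap f)) ≫ sr_d' Y :=
  SSt.hom_ext fun _ _ => rfl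

theorem thm_StrCol (h : St_RealW.{u}) : St_StrCol.{u} := by
  intro X Y f hf
  have h1 : SSt.Strong (SSt.diagF.map (sr_Tmap f)) := thm_StrRow h (sr_Tmap f) hf
  have h2 : SSt.Strong (sr_d X) := sr_strong_inv _ (sr_d' X) rfl rfl
  have h3 : SSt.Strong (sr_d' Y) := sr_strong_inv _ (sr_d Y) rfl rfl
  rw [sr_sqT]
  exact sr_strong_comp _ _ (sr_strong_comp _ _ h2 h1) h3

end Pool.Agent.KQ
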