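import Pool.Agent.KQ.StStr

/-!
# KQ: sums of strong maps, fibrewise strong maps
-/

set_option autoImplicit false

namespace Pool.Agent.KQ

open CategoryTheory Function

universe u v w

/-! ### isomorphisms -/

/-- the inverse of a bijective map -/
noncomputable def SS_inv {X Y : SSt.{u}} (f : X ⟶ Y) (h : ∀ n, Bijective (f.app n)) : Y ⟶ X :=
  ⟨fun n => (Equiv.ofBijective (f.app n) (h n)).symm, fun {m n} θ y => by
    apply (h m).1
    rw [f.nat]
    change (Equiv.ofBijective (f.app m) (h m)) ((Equiv.ofBijective (f.app m) (h m)).symm _) =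
      Y.map θ ((Equiv.ofBijective (f.app n) (h n)) ((Equiv.ofBijective (f.app n) (h n)).symm y))
    rw [Equiv.apply_symm_apply, Equiv.apply_symm_apply]⟩

theorem SS_comp_inv {X Y : SSt.{u}} (f : X ⟶ Y) (h : ∀ n, Bijective (f.app n)) :
    f ≫ SS_inv f h = 𝟙 X :=
  SSt.hom_ext fun n x => (Equiv.ofBijective (f.app n) (h n)).symm_apply_apply x

theorem SS_inv_comp {X Y : SSt.{u}} (f : X ⟶ Y) (h : ∀ n, Bijective (f.app n)) :
    SS_inv f h ≫ f = 𝟙 Y :=
  SSt.hom_ext fun n x => (Equiv.ofBijective (f.app n) (h n)).apply_symm_apply x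

/-- bijective maps are strong -/
theorem SS_bij {X Y : SSt.{u}} (f : X ⟶ Y) (h : ∀ n, Bijective (f.app n)) : SSt.Strong f := by
  intro Φ n
  have h1 : ∀ x, SGp.PiMap (Φ.ap.map (SS_inv f h)) n (SGp.PiMap (Φ.ap.map f) n x) = x := by
    intro x
    rw [← SGp.PiMap_comp, ← Φ.ap.map_comp, SS_comp_inv, Φ.ap.map_id, SGp.PiMap_id]
  have h2 : ∀ x, SGp.PiMap (Φ.ap.map f) n (SGp.PiMap (Φ.ap.map (SS_inv f h)) n x) = x := by
    intro x
    rw [← SGp.PiMap_comp, ← Φ.ap.map_comp, SS_inv_comp, Φ.ap.map_id, SGp.PiMap_id]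
  exact ⟨LeftInverse.injective h1, RightInverse.surjective h2⟩

/-- strong maps and squares with bijective vertical maps -/
theorem SS_square (h23 : St_Str23.{u}) {X Y X' Y' : SSt.{u}} (f : X ⟶ Y) (f' : X' ⟶ Y')
    (r : X' ⟶ X) (s : Y' ⟶ Y) (hr : ∀ n, Bijective (r.app n)) (hs : ∀ n, Bijective (s.app n))
    (h : r ≫ f = f' ≫ s) (hf : SSt.Strong f') : SSt.Strong f :=
  h23.2.1 r f (SS_bij r hr) (h ▸ h23.1 f' s hf (SS_bij s hs))

/-! ### binary sums -/

/-- the binary sum -/
def SS_plus (X W : SSt.{u}) : SSt.{u} where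
  obj n := X.obj n ⊕ W.obj n
  map f := Sum.map (X.map f) (W.map f)
  map_id n x := by
    rcases x with x | x
    · exact congrArg Sum.inl (X.map_id n x)
    · exact congrArg Sum.inr (W.map_id n x)
  map_comp f g x := by
    rcases x with x | x
    · exact congrArg Sum.inl (X.map_comp f g x)
    · exact congrArg Sum.inr (W.map_comp f g x)

/-- the binary sum of maps -/
def SS_plusMap {X Y X' Y' : SSt.{u}} (f : X ⟶ X') (g : Y ⟶ Y') : SS_plus X Y ⟶ SS_plus X' Y' :=
  ⟨fun n => Sum.map (f.app n) (g.app n), fun θ x => by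
    rcases x with x | x
    · exact congrArg Sum.inl (f.nat θ x)
    · exact congrArg Sum.inr (g.nat θ x)⟩

/-- maps of constant simplicial sets -/
def SS_cm {A B : Type u} (f : A → B) : SSt.const A ⟶ SSt.const B := ⟨fun _ => f, fun _ _ => rfl⟩

/-- the functor `Φ (- + A)` -/
def SS_shift (Φ : FGr.{u}) (A : Type u) : FGr.{u} where
  obj T := Φ.obj (T ⊕ A)
  map f := Φ.map (Sum.map f fun a => a)
  map_id {X} x := by
    have h : (Sum.map (fun a : X => a) fun a : A => a) = fun a : X ⊕ A => a := by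
      funext z
      rcases z with z | z <;> rfl
    rw [h, Φ.map_id]
  map_comp {X Y Z} f g x := by
    rw [← Φ.map_comp]
    have h : (Sum.map (fun a => g (f a)) fun a : A => a) =
        fun z : X ⊕ A => Sum.map g (fun a : A => a) (Sum.map f (fun a : A => a) z) := by
      funext z
      rcases z with z | z <;> rfl
    rw [h]
  fin {X} x := by
    obtain ⟨S, hS, y, hy⟩ := Φ.fin x
    refine ⟨Sum.inl ⁻¹' S, hS.preimage Sum.inl_injective.injOn, ?_⟩
    let e : S → (Sum.inl ⁻¹' S : Set X) ⊕ A := fun s => match s with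
      | ⟨Sum.inl t, ht⟩ => Sum.inl ⟨t, ht⟩
      | ⟨Sum.inr a, _⟩ => Sum.inr a
    refine ⟨Φ.map e y, ?_⟩
    rw [← Φ.map_comp, ← hy]
    have h : (fun a => Sum.map Subtype.val (fun a : A => a) (e a)) = Subtype.val := by
      funext s
      obtain ⟨s | s, hs⟩ := s <;> rfl
    rw [h]

/-- sums with a constant simplicial set -/
theorem SS_const {X Y : SSt.{u}} (f : X ⟶ Y) (hf : SSt.Strong f) (A : Type u) :
    SSt.Strong (SS_plusMap f (𝟙 (SSt.const A))) :=
  fun Φ => hf (SS_shift Φ A)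

/-- the bisimplicial set `(q, p) ↦ X_p + W_q` -/
def SS_bi (X W : SSt.{u}) : SOb SSt.{u} where
  obj q := SS_plus X (SSt.const (W.obj q))
  map θ := SS_plusMap (𝟙 X) (SS_cm (W.map θ))
  map_id n := SSt.hom_ext fun p x => by
    rcases x with x | x
    · rfl
    · exact congrArg Sum.inr (W.map_id n x)
  map_comp f g := SSt.hom_ext fun p x => by
    rcases x with x | x
    · rfl
    · exact congrArg Sum.inr (W.map_comp f g x)

/-- the map of these bisimplicial sets -/
def SS_biMap {X Y : SSt.{u}} (f : X ⟶ Y) (W : SSt.{u}) : SS_bi X W ⟶ SS_bi Y W :=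
  ⟨fun q => SS_plusMap f (𝟙 (SSt.const (W.obj q))), fun θ => SSt.hom_ext fun p x => by
    rcases x with x | x <;> rfl⟩

/-- the diagonal is the sum -/
def SS_diag (X W : SSt.{u}) : SSt.diagF.obj (SS_bi X W) ⟶ SS_plus X W :=
  ⟨fun _ x => x, fun θ x => by
    rcases x with x | x <;> rfl⟩

theorem SS_plusR (hRow : St_StrRow.{u}) (h23 : St_Str23.{u}) {X Y : SSt.{u}} (f : X ⟶ Y)
    (hf : SSt.Strong f) (W : SSt.{u}) : SSt.Strong (SS_plusMap f (𝟙 W)) := by
  refine SS_square h23 (SS_plusMap f (𝟙 W)) (SSt.diagF.map (SS_biMap f W)) (SS_diag X W)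
    (SS_diag Y W) (fun _ => bijective_id) (fun _ => bijective_id) ?_
    (hRow (SS_biMap f W) fun q => SS_const f hf (W.obj q))
  exact SSt.hom_ext fun n x => rfl

/-- the exchange of the summands -/
def SS_swap (X W : SSt.{u}) : SS_plus X W ⟶ SS_plus W X :=
  ⟨fun _ => Sum.swap, fun θ x => by
    rcases x with x | x <;> rfl⟩

theorem SS_plusL (hRow : St_StrRow.{u}) (h23 : St_Str23.{u}) {X Y : SSt.{u}} (f : X ⟶ Y)
    (hf : SSt.Strong f) (W : SSt.{u}) : SSt.Strong (SS_plusMap (𝟙 W) f) := by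
  refine SS_square h23 (SS_plusMap (𝟙 W) f) (SS_plusMap f (𝟙 W)) (SS_swap X W)
    (SS_swap Y W) (fun _ => (Equiv.sumComm _ _).bijective) (fun _ => (Equiv.sumComm _ _).bijective)
    ?_ (SS_plusR hRow h23 f hf W)
  refine SSt.hom_ext fun n x => ?_
  rcases x with x | x <;> rfl

theorem SS_plusS (hRow : St_StrRow.{u}) (h23 : St_Str23.{u}) {X Y X' Y' : SSt.{u}} (f : X ⟶ X')
    (g : Y ⟶ Y') (hf : SSt.Strong f) (hg : SSt.Strong g) : SSt.Strong (SS_plusMap f g) := by
  have h : SS_plusMap f g = SS_plusMap f (𝟙 Y) ≫ SS_plusMap (𝟙 X') g := by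
    refine SSt.hom_ext fun n x => ?_
    rcases x with x | x <;> rfl
  rw [h]
  exact h23.1 _ _ (SS_plusR hRow h23 f hf Y) (SS_plusL hRow h23 g hg X')

/-! ### sums -/

section sum

variable {J : Type u}

/-- the sum over a finite subset -/
def SS_A (X : J → SSt.{u}) (S : Finset J) : SubS (SSt.sum X) where
  s n := {x | x.1 ∈ S}
  map_mem θ x h := h

variable {X Y : J → SSt.{u}}

theorem SS_fin (hRow : St_StrRow.{u}) (h23 : St_Str23.{u}) (f : ∀ j, X j ⟶ Y j)
    (hf : ∀ j, SSt.Strong (f j)) (S : Finset J) :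
    SSt.Strong (SubS.mapS (SSt.sumMap f) (SS_A X S) (SS_A Y S) fun n x hx => hx) := by
  classical
  induction S using Finset.induction_on with
  | empty =>
    refine SS_bij _ fun n => ⟨fun x => ?_, fun y => ?_⟩
    · exact absurd x.2 (Finset.notMem_empty _)
    · exact absurd y.2 (Finset.notMem_empty _)
  | insert a S ha ih =>
    have hr : ∀ (Z : J → SSt.{u}), ∃ r : SS_plus (Z a) (SS_A Z S).S ⟶ (SS_A Z (insert a S)).S,
        (∀ n x, (r.app n (Sum.inl x)).1 = ⟨a, x⟩) ∧ (∀ n x, (r.app n (Sum.inr x)).1 = x.1) ∧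
        ∀ n, Bijective (r.app n) := by
      intro Z
      refine ⟨⟨fun n x => match x with
        | Sum.inl x => ⟨⟨a, x⟩, Finset.mem_insert_self a S⟩
        | Sum.inr z => ⟨z.1, Finset.mem_insert_of_mem z.2⟩, fun θ x => by
          rcases x with x | x <;> rfl⟩, fun _ _ => rfl, fun _ _ => rfl, fun n => ⟨?_, ?_⟩⟩
      · rintro (x | ⟨⟨i, x⟩, hx⟩) (y | ⟨⟨j, y⟩, hy⟩) h
        · have h1 := congrArg Subtype.val h
          change (⟨a, x⟩ : Σ j, (Z j).obj n) = ⟨a, y⟩ at h1
          rw [Sigma.mk.inj_iff] at h1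
          rw [eq_of_heq h1.2]
        · have h1 := congrArg Subtype.val h
          change (⟨a, x⟩ : Σ j, (Z j).obj n) = ⟨j, y⟩ at h1
          have h2 := congrArg Sigma.fst h1
          change a = j at h2
          subst h2
          exact absurd hy ha
        · have h1 := congrArg Subtype.val h
          change (⟨i, x⟩ : Σ j, (Z j).obj n) = ⟨a, y⟩ at h1
          have h2 := congrArg Sigma.fst h1
          change i = a at h2
          subst h2
          exact absurd hx ha
        · have h1 := congrArg Subtype.val h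
          change (⟨i, x⟩ : Σ j, (Z j).obj n) = ⟨j, y⟩ at h1
          exact congrArg Sum.inr (Subtype.ext h1)
      · rintro ⟨⟨j, x⟩, hj⟩
        have hj' : j ∈ insert a S := hj
        rcases Finset.mem_insert.1 hj' with h | h
        · subst h
          exact ⟨Sum.inl x, rfl⟩
        · exact ⟨Sum.inr ⟨⟨j, x⟩, h⟩, rfl⟩
    obtain ⟨r, r1, r2, r3⟩ := hr X
    obtain ⟨s, s1, s2, s3⟩ := hr Y
    refine SS_square h23 _ (SS_plusMap (f a) (SubS.mapS (SSt.sumMap f) (SS_A X S) (SS_A Y S)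
      fun n x hx => hx)) r s r3 s3 ?_ (SS_plusS hRow h23 _ _ (hf a) ih)
    refine SSt.hom_ext fun n x => Subtype.ext ?_
    rcases x with x | x
    · change (SSt.sumMap f).app n (r.app n (Sum.inl x)).1 = (s.app n (Sum.inl ((f a).app n x))).1
      rw [r1, s1]
      rfl
    · change (SSt.sumMap f).app n (r.app n (Sum.inr x)).1 =
        (s.app n (Sum.inr ((SubS.mapS (SSt.sumMap f) (SS_A X S) (SS_A Y S)
          fun n x hx => hx).app n x))).1
      rw [r2, s2]
      rfl

end sum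

/-- Sums of strong maps.  Hypotheses: `St_StrRow`, `St_Str23`, `St_StrUnion`. -/
theorem thm_StrSum (hRow : St_StrRow.{u}) (h23 : St_Str23.{u}) (hUnion : St_StrUnion.{u}) :
    St_StrSum.{u} := by
  classical
  intro J X Y f hf
  refine hUnion.2 (J := Finset J) (SS_A X) (SS_A Y) (SSt.sumMap f) (fun S n x hx => hx)
    (fun S T => ⟨S ∪ T, ?_, ?_⟩) (fun n x => ⟨{x.1}, Finset.mem_singleton_self x.1⟩)
    (fun n x => ⟨{x.1}, Finset.mem_singleton_self x.1⟩) (SS_fin hRow h23 f hf)
  · rintro n x (h | h)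
    · exact Finset.mem_union_left T h
    · exact Finset.mem_union_right S h
  · rintro n x (h | h)
    · exact Finset.mem_union_left T h
    · exact Finset.mem_union_right S h

/-! ### fibrewise strong maps -/

/-- the sum of the fibres -/
def SS_r {X : SSt.{u}} {J : Type u} (p : X ⟶ SSt.const J) :
    SSt.sum (fun j => (SSt.fib p j).S) ⟶ X :=
  ⟨fun _ x => x.2.1, fun _ _ => rfl⟩

theorem SS_r_bij {X : SSt.{u}} {J : Type u} (p : X ⟶ SSt.const J) (n : ℕ) :
    Bijective ((SS_r p).app n) := by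
  constructor
  · rintro ⟨i, x, hx⟩ ⟨j, y, hy⟩ h
    have h1 : x = y := h
    subst h1
    have h2 : p.app n x = i := hx
    have h3 : p.app n x = j := hy
    have h4 : i = j := h2.symm.trans h3
    subst h4
    rfl
  · intro x
    exact ⟨⟨p.app n x, x, rfl⟩, rfl⟩

/-- Fibrewise strong maps.  Hypotheses: `St_StrSum`, `St_Str23`. -/
theorem thm_StrFib (hSum : St_StrSum.{u}) (h23 : St_Str23.{u}) : St_StrFib.{u} := by
  have main : ∀ {X Y : SSt.{u}} {J : Type u} (f : X ⟶ Y) (p : X ⟶ SSt.const J)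
      (q : Y ⟶ SSt.const J) (h : ∀ j n x, x ∈ (SSt.fib p j).s n → f.app n x ∈ (SSt.fib q j).s n),
      (∀ j, SSt.Strong (SubS.mapS f (SSt.fib p j) (SSt.fib q j) (h j))) → SSt.Strong f := by
    intro X Y J f p q h hs
    exact SS_square h23 f (SSt.sumMap fun j => SubS.mapS f (SSt.fib p j) (SSt.fib q j) (h j))
      (SS_r p) (SS_r q) (SS_r_bij p) (SS_r_bij q) (SSt.hom_ext fun n x => rfl) (hSum _ hs)
  refine ⟨fun {X Y J} f p q h hs => ?_, fun {X J} p hp => ?_⟩
  · exact main f p q (fun j n x hx => by subst h; exact hx) hs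
  · refine main p p (𝟙 (SSt.const J)) (fun j n x hx => hx) fun j => ?_
    refine h23.2.2.1 _ (SSt.toPt _) ?_ (hp j)
    refine SS_bij _ fun n => ⟨fun x y _ => ?_, fun y => ⟨⟨j, rfl⟩, rfl⟩⟩
    have hx : x.1 = j := x.2
    have hy : y.1 = j := y.2
    exact Subtype.ext (hx.trans hy.symm)

end Pool.Agent.KQ
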