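import Pool.Agent.KQ.StSG

/-!
# KQ [BD]: the long exact sequence of a surjection of simplicial groups
-/

set_option autoImplicit false

namespace Pool.Agent.KQ

open CategoryTheory Function

universe u

/-! ### simplicial identities -/

theorem BD_e_of_ne {n : ℕ} (j : Fin (n + 1)) {k : Fin (n + 2)} (h : k ≠ j.succ) :
    dl j.succ (sg j k) = k := Fin.succ_succAbove_predAbove h

theorem BD_e_self {n : ℕ} (j : Fin (n + 1)) : dl j.succ (sg j j.succ) = j.castSucc := by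
  change j.succ.succAbove (j.predAbove j.succ) = _
  rw [Fin.predAbove_succ_self, Fin.succAbove_of_castSucc_lt]
  exact Fin.castSucc_lt_succ

/-- a simplex operator which avoids `i + 1` factors through the face -/
theorem BD_fac {m n : ℕ} (θ : Mo m (n + 1)) (i : Fin (n + 1)) (h : ∀ k, θ k ≠ i.succ) :
    (dl i.succ).comp ((sg i).comp θ) = θ := by
  ext k
  exact congrArg Fin.val (BD_e_of_ne i (h k))

theorem BD_one (G : SGp.{u}) {m n : ℕ} (θ : Mo m (n + 1)) (i : Fin (n + 1))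
    (h : ∀ k, θ k ≠ i.succ) {x : G.obj (n + 1)} (hx : G.map (dl i.succ) x = 1) :
    G.map θ x = 1 := by
  rw [← BD_fac θ i h, G.map_comp, hx, map_one]

theorem BD_dd {n : ℕ} (i : Fin (n + 2)) :
    (dl (0 : Fin (n + 3))).comp (dl i) = (dl i.succ).comp (dl (0 : Fin (n + 2))) := by
  ext k
  change ((0 : Fin (n + 3)).succAbove (i.succAbove k)).val =
    (i.succ.succAbove ((0 : Fin (n + 2)).succAbove k)).val
  rw [Fin.succAbove_zero, Fin.succAbove_zero, Fin.succ_succAbove_succ]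

section

variable {G H : SGp.{u}}

theorem BD_Z_le_N {n : ℕ} {x : G.obj n} (hx : x ∈ G.Z n) : x ∈ G.N n := by
  cases n with
  | zero => trivial
  | succ n =>
    rw [SGp.mem_Z_succ] at hx
    rw [SGp.mem_N_succ]
    exact fun i => hx _

/-- the boundary of an element of the Moore complex is a cycle -/
theorem BD_d0 {n : ℕ} {x : G.obj (n + 1)} (hx : x ∈ G.N (n + 1)) : G.map (dl 0) x ∈ G.Z n := by
  cases n with
  | zero => trivial
  | succ n =>
    rw [SGp.mem_N_succ] at hx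
    rw [SGp.mem_Z_succ]
    intro i
    rw [← G.map_comp, BD_dd, G.map_comp, hx, map_one]

theorem BD_Z_of {n : ℕ} {x : G.obj (n + 1)} (hx : x ∈ G.N (n + 1)) (h0 : G.map (dl 0) x = 1) :
    x ∈ G.Z (n + 1) := by
  rw [SGp.mem_N_succ] at hx
  rw [SGp.mem_Z_succ]
  intro i
  refine Fin.cases h0 (fun i => hx i) i

theorem BD_B_of {n : ℕ} {x : G.obj (n + 1)} (hx : x ∈ G.N (n + 1)) : G.map (dl 0) x ∈ G.B n :=
  ⟨x, hx, rfl⟩

theorem BD_memZ (f : G ⟶ H) {n : ℕ} (w : (SGp.ker f).obj n) :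
    w ∈ (SGp.ker f).Z n ↔ (w.1 : G.obj n) ∈ G.Z n := by
  cases n with
  | zero => exact ⟨fun _ => trivial, fun _ => trivial⟩
  | succ n =>
    rw [SGp.mem_Z_succ, SGp.mem_Z_succ]
    exact forall_congr' fun i => ⟨fun h => congrArg Subtype.val h, fun h => Subtype.ext h⟩

theorem BD_memN (f : G ⟶ H) {n : ℕ} (w : (SGp.ker f).obj n) :
    w ∈ (SGp.ker f).N n ↔ (w.1 : G.obj n) ∈ G.N n := by
  cases n with
  | zero => exact ⟨fun _ => trivial, fun _ => trivial⟩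
  | succ n =>
    rw [SGp.mem_N_succ, SGp.mem_N_succ]
    exact forall_congr' fun i => ⟨fun h => congrArg Subtype.val h, fun h => Subtype.ext h⟩

/-- a surjection is surjective on the Moore complexes -/
theorem BD_lift (f : G ⟶ H) (hf : ∀ n, Surjective (f.app n)) (n : ℕ) {y : H.obj n}
    (hy : y ∈ H.N n) : ∃ x ∈ G.N n, f.app n x = y := by
  cases n with
  | zero =>
    obtain ⟨x, hx⟩ := hf 0 y
    exact ⟨x, trivial, hx⟩
  | succ n =>
    rw [SGp.mem_N_succ] at hy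
    have key : ∀ k ≤ n + 1, ∃ x : G.obj (n + 1), f.app (n + 1) x = y ∧
        ∀ i : Fin (n + 1), n + 1 - k ≤ (i : ℕ) → G.map (dl i.succ) x = 1 := by
      intro k
      induction k with
      | zero =>
        intro _
        obtain ⟨x, hx⟩ := hf (n + 1) y
        exact ⟨x, hx, fun i hi => absurd i.2 (by omega)⟩
      | succ k ih =>
        intro hk
        obtain ⟨x, hx, hd⟩ := ih (by omega)
        obtain ⟨j, hj⟩ : ∃ j : Fin (n + 1), (j : ℕ) = n - k := ⟨⟨n - k, by omega⟩, rfl⟩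
        refine ⟨x * (G.map (sg j) (G.map (dl j.succ) x))⁻¹, ?_, fun i hi => ?_⟩
        · rw [map_mul, map_inv, f.nat, f.nat, hx, hy, map_one, inv_one, mul_one]
        · rw [map_mul, map_inv, ← G.map_comp, ← G.map_comp]
          rcases eq_or_ne i j with rfl | hij
          · have h1 : (dl i.succ).comp ((sg i).comp (dl i.succ)) = dl i.succ :=
              BD_fac _ i fun k => Fin.succAbove_ne _ _
            rw [h1, mul_inv_cancel]
          · have hlt : (j : ℕ) < i := by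
              have h2 : (i : ℕ) ≠ j := fun h => hij (Fin.ext h)
              omega
            rw [hd i (by omega), one_mul, inv_eq_one]
            refine BD_one G _ i (fun k => ?_) (hd i (by omega))
            change dl j.succ (sg j (dl i.succ k)) ≠ i.succ
            rcases eq_or_ne (dl i.succ k) j.succ with h2 | h2
            · rw [h2, BD_e_self]
              intro h3
              have h4 := congrArg Fin.val h3
              rw [Fin.val_castSucc, Fin.val_succ] at h4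
              omega
            · rw [BD_e_of_ne j h2]
              exact Fin.succAbove_ne _ _
    obtain ⟨x, hx, hd⟩ := key (n + 1) le_rfl
    exact ⟨x, SGp.mem_N_succ _ |>.2 fun i => hd i (by omega), hx⟩

theorem BD_cls_eq {n : ℕ} {x y : G.Z n} (h : (x.1⁻¹ * y.1 : G.obj n) ∈ G.B n) :
    G.cls n x = G.cls n y := by
  have h1 : G.cls n (x⁻¹ * y) = 1 := SGp.cls_eq_one G |>.2 h
  rw [map_mul, map_inv, inv_mul_eq_one] at h1
  exact h1

/-- the boundary class does not depend on the choices -/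
theorem BD_wd (f : G ⟶ H) (hf : ∀ n, Surjective (f.app n)) (n : ℕ) {x x' : G.obj (n + 1)}
    (hx : x ∈ G.N (n + 1)) (hx' : x' ∈ G.N (n + 1)) {z z' : (SGp.ker f).Z n}
    (hz : G.map (dl 0) x = z.1.1) (hz' : G.map (dl 0) x' = z'.1.1)
    (hb : (f.app (n + 1) x)⁻¹ * f.app (n + 1) x' ∈ H.B (n + 1)) :
    (SGp.ker f).cls n z = (SGp.ker f).cls n z' := by
  obtain ⟨c, hc, hcb⟩ := hb
  obtain ⟨c', hc', hfc⟩ := BD_lift f hf (n + 2) hc
  have hcZ : G.map (dl 0) c' ∈ G.Z (n + 1) := BD_d0 hc'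
  have hcN : G.map (dl 0) c' ∈ G.N (n + 1) := BD_Z_le_N hcZ
  rw [SGp.mem_Z_succ] at hcZ
  have hk : (G.map (dl 0) c')⁻¹ * (x⁻¹ * x') ∈ G.N (n + 1) :=
    mul_mem (inv_mem hcN) (mul_mem (inv_mem hx) hx')
  have hkf : f.app (n + 1) ((G.map (dl 0) c')⁻¹ * (x⁻¹ * x')) = 1 := by
    rw [map_mul, map_inv, map_mul, map_inv, f.nat, hfc, inv_mul_eq_one]
    exact hcb
  refine BD_cls_eq ?_
  let k : (SGp.ker f).obj (n + 1) := ⟨(G.map (dl 0) c')⁻¹ * (x⁻¹ * x'), hkf⟩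
  refine ⟨k, (BD_memN f k).2 hk, Subtype.ext ?_⟩
  change G.map (dl 0) ((G.map (dl 0) c')⁻¹ * (x⁻¹ * x')) = (z.1.1)⁻¹ * z'.1.1
  rw [map_mul, map_inv, hcZ, inv_one, one_mul, map_mul, map_inv, hz, hz']

theorem BD_ex (f : G ⟶ H) (hf : ∀ n, Surjective (f.app n)) (n : ℕ) (y : H.Z (n + 1)) :
    ∃ (x : G.obj (n + 1)) (z : (SGp.ker f).Z n), x ∈ G.N (n + 1) ∧ f.app (n + 1) x = y.1 ∧
      G.map (dl 0) x = z.1.1 := by
  obtain ⟨x, hx, hxy⟩ := BD_lift f hf (n + 1) (BD_Z_le_N y.2)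
  have h1 : f.app n (G.map (dl 0) x) = 1 := by
    rw [f.nat, hxy]
    exact (SGp.mem_Z_succ _).1 y.2 0
  exact ⟨x, ⟨⟨G.map (dl 0) x, h1⟩, (BD_memZ f _).2 (BD_d0 hx)⟩, hx, hxy, rfl⟩

end

theorem thm_Bd : St_Bd.{u} := by
  intro G H f hf n
  choose X Y hX hXf hXY using BD_ex f hf n
  let δ₀ : H.Z (n + 1) →* (SGp.ker f).Pi n := MonoidHom.mk' (fun y => (SGp.ker f).cls n (Y y))
    (fun y y' => by
      rw [← map_mul]
      refine BD_wd f hf n (hX (y * y')) (mul_mem (hX y) (hX y')) (hXY _) ?_ ?_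
      · rw [map_mul, hXY, hXY]
        rfl
      · rw [map_mul, hXf, hXf, hXf]
        have h1 : ((y * y' : H.Z (n + 1)) : H.obj (n + 1))⁻¹ * (y.1 * y'.1) = 1 :=
          inv_mul_cancel (y.1 * y'.1)
        rw [h1]
        exact one_mem _)
  have h₀ : ∀ y ∈ (H.B (n + 1)).subgroupOf (H.Z (n + 1)), δ₀ y = 1 := by
    intro y hy
    rw [← map_one ((SGp.ker f).cls n)]
    refine (BD_wd f hf n (one_mem _) (hX y) ?_ (hXY y) ?_).symm
    · rw [map_one]
      rfl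
    · rw [map_one, inv_one, one_mul, hXf]
      exact hy
  let δ : H.Pi (n + 1) →* (SGp.ker f).Pi n :=
    QuotientGroup.lift ((H.B (n + 1)).subgroupOf (H.Z (n + 1))) δ₀ h₀
  have hδ : ∀ y, δ (H.cls (n + 1) y) = (SGp.ker f).cls n (Y y) := fun y => rfl
  have hbd : SGp.IsBd f n δ := by
    intro x hx y z hxy hz
    rw [hδ]
    refine BD_wd f hf n (hX y) hx (hXY y) hz ?_
    rw [hXf, hxy, inv_mul_cancel]
    exact one_mem _
  refine ⟨δ, hbd, fun y => ?_, fun z => ?_⟩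
  · constructor
    · intro h
      obtain ⟨y, rfl⟩ := H.cls_surj _ y
      rw [hδ, SGp.cls_eq_one] at h
      obtain ⟨k, hk, hkz⟩ := h
      have hk' : (k.1 : G.obj (n + 1)) ∈ G.N (n + 1) := (BD_memN f k).1 hk
      have hk0 : G.map (dl 0) k.1 = G.map (dl 0) (X y) := by
        rw [hXY, ← hkz]
        rfl
      have hx : X y * (k.1)⁻¹ ∈ G.Z (n + 1) := by
        refine BD_Z_of (mul_mem (hX y) (inv_mem hk')) ?_
        rw [map_mul, map_inv, hk0, mul_inv_cancel]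
      refine ⟨G.cls _ ⟨_, hx⟩, ?_⟩
      rw [SGp.PiMap_cls]
      congr 1
      refine Subtype.ext ?_
      change f.app (n + 1) (X y * (k.1)⁻¹) = y.1
      rw [map_mul, map_inv, hXf, show f.app (n + 1) k.1 = 1 from k.2, inv_one, mul_one]
    · rintro ⟨x, rfl⟩
      obtain ⟨x, rfl⟩ := G.cls_surj _ x
      rw [SGp.PiMap_cls, hbd x.1 (BD_Z_le_N x.2) (SGp.Zmap f (n + 1) x) 1 rfl, map_one]
      exact (SGp.mem_Z_succ _).1 x.2 0
  · constructor
    · intro h
      obtain ⟨z, rfl⟩ := (SGp.ker f).cls_surj _ z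
      rw [SGp.PiMap_cls, SGp.cls_eq_one] at h
      obtain ⟨x, hx, hxz⟩ := h
      have hxz' : G.map (dl 0) x = z.1.1 := hxz
      have hy : f.app (n + 1) x ∈ H.Z (n + 1) := by
        refine BD_Z_of (SGp.app_mem_N f hx) ?_
        rw [← f.nat, hxz']
        exact z.1.2
      exact ⟨H.cls _ ⟨_, hy⟩, hbd x hx ⟨_, hy⟩ z rfl hxz'⟩
    · rintro ⟨y, rfl⟩
      obtain ⟨y, rfl⟩ := H.cls_surj _ y
      rw [hδ, SGp.PiMap_cls, SGp.cls_eq_one]
      have h1 : ((SGp.Zmap (SGp.kerι f) n (Y y) : G.Z n) : G.obj n) = G.map (dl 0) (X y) :=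
        (hXY y).symm
      rw [h1]
      exact BD_B_of (hX y)

theorem thm_Bd0 : St_Bd0.{u} := by
  intro G H f hf
  refine ⟨fun n x => ⟨fun h => ?_, ?_⟩, fun y => ?_⟩
  · obtain ⟨x, rfl⟩ := G.cls_surj _ x
    rw [SGp.PiMap_cls, SGp.cls_eq_one] at h
    obtain ⟨y, hy, hyx⟩ := h
    obtain ⟨y', hy', hyf⟩ := BD_lift f hf (n + 1) hy
    have h1 : f.app n (x.1 * (G.map (dl 0) y')⁻¹) = 1 := by
      rw [map_mul, map_inv, f.nat, hyf, hyx]
      exact mul_inv_cancel _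
    have h2 : x.1 * (G.map (dl 0) y')⁻¹ ∈ G.Z n := mul_mem x.2 (inv_mem (BD_d0 hy'))
    refine ⟨(SGp.ker f).cls n ⟨⟨_, h1⟩, (BD_memZ f _).2 h2⟩, ?_⟩
    rw [SGp.PiMap_cls]
    refine BD_cls_eq ?_
    change (x.1 * (G.map (dl 0) y')⁻¹)⁻¹ * x.1 ∈ G.B n
    rw [mul_inv_rev, inv_inv, inv_mul_cancel_right]
    exact BD_B_of hy'
  · rintro ⟨z, rfl⟩
    obtain ⟨z, rfl⟩ := (SGp.ker f).cls_surj _ z
    rw [SGp.PiMap_cls, SGp.PiMap_cls, SGp.cls_eq_one]
    have h1 : ((SGp.Zmap f n (SGp.Zmap (SGp.kerι f) n z) : H.Z n) : H.obj n) = 1 := z.1.2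
    rw [h1]
    exact one_mem _
  · obtain ⟨y, rfl⟩ := H.cls_surj _ y
    obtain ⟨x, hx⟩ := hf 0 y.1
    refine ⟨G.cls 0 ⟨x, trivial⟩, ?_⟩
    rw [SGp.PiMap_cls]
    congr 1
    exact Subtype.ext hx

theorem thm_BdNat : St_BdNat.{u} := by
  intro G H G' H' f f' a b h n δ δ' hf hδ hδ' y
  obtain ⟨y, rfl⟩ := H.cls_surj _ y
  obtain ⟨x, z, hx, hxy, hxz⟩ := BD_ex f hf n y
  rw [hδ x hx y z hxy hxz, SGp.PiMap_cls, SGp.PiMap_cls]
  refine hδ' (a.app (n + 1) x) (SGp.app_mem_N a hx) _ _ ?_ ?_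
  · change f'.app (n + 1) (a.app (n + 1) x) = b.app (n + 1) y.1
    rw [← hxy]
    exact (congrArg (fun e : G ⟶ H' => e.app (n + 1) x) h).symm
  · change G'.map (dl 0) (a.app (n + 1) x) = a.app n z.1.1
    rw [← hxz, a.nat]

theorem thm_Split : St_Split.{u} := by
  intro G H f s hs n
  have hsf : ∀ (n : ℕ) (y : H.obj n), f.app n (s.app n y) = y := fun n y =>
    congrArg (fun e : H ⟶ H => e.app n y) hs
  have hf : ∀ n, Surjective (f.app n) := fun n y => ⟨s.app n y, hsf n y⟩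
  refine ⟨?_, fun x => (thm_Bd0 f hf).1 n x⟩
  obtain ⟨δ, -, h1, h2⟩ := thm_Bd f hf n
  rw [injective_iff_map_eq_one]
  intro z hz
  obtain ⟨y, rfl⟩ := (h2 z).1 hz
  refine (h1 y).2 ⟨SGp.PiMap s (n + 1) y, ?_⟩
  rw [← SGp.PiMap_comp, hs, SGp.PiMap_id]

end Pool.Agent.KQ
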