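import Pool.Agent.KQ.StSG

/-!
# KQ: the homotopy groups of a simplicial group in positive degrees are commutative
-/

set_option autoImplicit false

namespace Pool.Agent.KQ

open CategoryTheory Function
open scoped commutatorElement

universe u

theorem CM_miss {G : SGp.{u}} {m n : ℕ} (f : Mo m (n + 1)) (r : Fin (n + 2)) (hr : ∀ i, f i ≠ r)
    {x : G.obj (n + 1)} (hx : x ∈ G.Z (n + 1)) : G.map f x = 1 := by
  choose g hg using fun i => Fin.exists_succAbove_eq (hr i)
  have hmono : Monotone g := by
    intro i j hij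
    have h := f.monotone hij
    rw [← hg i, ← hg j] at h
    exact (Fin.strictMono_succAbove r).le_iff_le.1 h
  have e : f = (dl r).comp (⟨g, hmono⟩ : Mo m n) := by
    ext i
    exact congrArg Fin.val (hg i).symm
  rw [e, G.map_comp, (SGp.mem_Z_succ G).1 hx r, map_one]

theorem CM_face {G : SGp.{u}} {n : ℕ} (j : Fin (n + 2)) (i : Fin (n + 3)) (h1 : i ≠ j.castSucc)
    (h2 : i ≠ j.succ) {x : G.obj (n + 1)} (hx : x ∈ G.Z (n + 1)) :
    G.map (dl i) (G.map (sg j) x) = 1 := by
  rw [← G.map_comp]
  refine CM_miss _ (j.predAbove i) (fun t => ?_) hx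
  change j.predAbove (i.succAbove t) ≠ j.predAbove i
  intro h
  have h3 : i.succAbove t ≠ i := Fin.succAbove_ne i t
  rw [Ne, Fin.ext_iff] at h1 h2 h3
  rw [Fin.ext_iff] at h
  simp only [Fin.val_castSucc, Fin.val_succ] at h1 h2
  have key : ∀ a : Fin (n + 3), ((j.predAbove a : Fin (n + 2)) : ℕ) =
      if (j : ℕ) < a then (a : ℕ) - 1 else a := by
    intro a
    by_cases ha : (j : ℕ) < a
    · rw [if_pos ha, Fin.predAbove_of_castSucc_lt _ _ (by
        rw [Fin.lt_def, Fin.val_castSucc]
        exact ha)]
      rfl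
    · rw [if_neg ha, Fin.predAbove_of_le_castSucc _ _ (by
        rw [Fin.le_def, Fin.val_castSucc]
        omega)]
      rfl
  rw [key, key] at h
  split_ifs at h <;> omega

theorem CM_face0 {G : SGp.{u}} {n : ℕ} (j : Fin (n + 2)) (x : G.obj (n + 1)) :
    G.map (dl j.castSucc) (G.map (sg j) x) = x := by
  rw [← G.map_comp]
  have e : (sg j).comp (dl j.castSucc) = OrderHom.id := by
    ext t
    exact congrArg Fin.val (Fin.predAbove_succAbove j t)
  rw [e, G.map_id]

theorem CM_face1 {G : SGp.{u}} {n : ℕ} (j : Fin (n + 2)) (x : G.obj (n + 1)) :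
    G.map (dl j.succ) (G.map (sg j) x) = x := by
  rw [← G.map_comp]
  have e : (sg j).comp (dl j.succ) = OrderHom.id := by
    ext t
    exact congrArg Fin.val (Fin.succAbove_right_injective
      (Fin.succ_succAbove_predAbove (Fin.succAbove_ne j.succ t)))
  rw [e, G.map_id]

theorem thm_Comm : St_Comm.{u} := by
  intro G n x y
  obtain ⟨x, rfl⟩ := G.cls_surj (n + 1) x
  obtain ⟨y, rfl⟩ := G.cls_surj (n + 1) y
  have hB : ⁅(x : G.obj (n + 1)), (y : G.obj (n + 1))⁻¹⁆ ∈ G.B (n + 1) := by
    rw [SGp.mem_B]
    refine ⟨⁅G.map (sg 0) x.1, G.map (sg 1) y.1 * (G.map (sg 0) y.1)⁻¹⁆, fun i => ?_, ?_⟩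
    · rw [map_commutatorElement]
      refine Fin.cases ?_ (fun i => ?_) i
      · have e1 : G.map (dl (Fin.succ 0)) (G.map (sg 1) y.1 * (G.map (sg 0) y.1)⁻¹) = 1 := by
          rw [map_mul, map_inv, CM_face1 0 y.1]
          have h := CM_face0 (1 : Fin (n + 2)) y.1
          have e : (Fin.castSucc (1 : Fin (n + 2))) = Fin.succ 0 := rfl
          rw [e] at h
          rw [h, mul_inv_cancel]
        rw [e1, commutatorElement_one_right]
      · have e1 : G.map (dl i.succ.succ) (G.map (sg 0) x.1) = 1 := by
          refine CM_face 0 _ ?_ ?_ x.2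
          · intro h
            have := congrArg Fin.val h
            simp at this
          · intro h
            have := congrArg Fin.val h
            simp at this
        rw [e1, commutatorElement_one_left]
    · rw [map_commutatorElement, map_mul, map_inv]
      have e0 : ∀ z : G.obj (n + 1), G.map (dl 0) (G.map (sg 0) z) = z := fun z =>
        CM_face0 (0 : Fin (n + 2)) z
      have e1 : G.map (dl 0) (G.map (sg 1) y.1) = 1 := by
        refine CM_face 1 _ ?_ ?_ y.2
        · intro h
          have := congrArg Fin.val h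
          simp at this
        · intro h
          have := congrArg Fin.val h
          simp at this
          rw [Nat.mod_eq_of_lt (by omega)] at this
          omega
      rw [e0, e0, e1, one_mul]
  have h1 : G.cls (n + 1) ⁅x, y⁻¹⁆ = 1 := by
    rw [SGp.cls_eq_one]
    exact hB
  rw [map_commutatorElement, commutatorElement_eq_one_iff_mul_comm, map_inv] at h1
  have h2 : Commute (G.cls (n + 1) x) (G.cls (n + 1) y)⁻¹ := h1
  exact (Commute.inv_right_iff.1 h2)

end Pool.Agent.KQ
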