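import Pool.Agent.KQ.StSG

/-!
# KQ CR: cross effects

`St_Cross` from `St_Up`: the diagonal of `n ↦ Θ (S_n E, S_n E')` is the diagonal of a trisimplicial
group, taken in two steps.
-/

set_option autoImplicit false

namespace Pool.Agent.KQ

open CategoryTheory Function

universe u v w

section

variable {C : Type w} [Category.{v} C]

/-- the simplicial object `q ↦ Θ (E, Y_q)` -/
private def CR_in (Θ : C × C ⥤ SGp.{u}) (E : C) (Y : SOb C) : SOb SGp.{u} where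
  obj q := Θ.obj (E, Y.obj q)
  map {m n} θ := Θ.map (X := (E, Y.obj n)) (Y := (E, Y.obj m)) (𝟙 E, Y.map θ)
  map_id n := by
    rw [Y.map_id]
    exact Θ.map_id (E, Y.obj n)
  map_comp {l m n} f g := by
    rw [Y.map_comp, ← Θ.map_comp]
    congr 1
    exact Prod.ext (Category.comp_id _).symm rfl

/-- its functoriality in `E` -/
private def CR_inMap (Θ : C × C ⥤ SGp.{u}) {E E' : C} (f : E ⟶ E') (Y : SOb C) :
    CR_in Θ E Y ⟶ CR_in Θ E' Y :=
  ⟨fun q => Θ.map (X := (E, Y.obj q)) (Y := (E', Y.obj q)) (f, 𝟙 (Y.obj q)), fun {m n} θ => by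
    change Θ.map _ ≫ Θ.map _ = Θ.map _ ≫ Θ.map _
    rw [← Θ.map_comp, ← Θ.map_comp]
    congr 1
    exact Prod.ext ((Category.id_comp _).trans (Category.comp_id _).symm)
      ((Category.comp_id _).trans (Category.id_comp _).symm)⟩

private theorem CR_comp (Θ : C × C ⥤ SGp.{u}) {A B D : C × C} (f : A ⟶ B) (g : B ⟶ D)
    (h : A ⟶ D) (e : h = f ≫ g) (n : ℕ) (x : (Θ.obj A).obj n) :
    (Θ.map h).app n x = (Θ.map g).app n ((Θ.map f).app n x) := by
  subst e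
  rw [Θ.map_comp]
  rfl

/-- the simplicial object `p ↦ diag (q ↦ Θ (X_p, Y_q))` -/
private def CR_out (Θ : C × C ⥤ SGp.{u}) (X Y : SOb C) : SOb SGp.{u} where
  obj p := SGp.diag (CR_in Θ (X.obj p) Y)
  map θ := SGp.diagF.map (CR_inMap Θ (X.map θ) Y)
  map_id n := by
    rw [X.map_id]
    refine SGp.hom_ext fun q x => ?_
    change (Θ.map (X := (X.obj n, Y.obj q)) (Y := (X.obj n, Y.obj q))
      (𝟙 (X.obj n, Y.obj q))).app q x = x
    rw [Θ.map_id]
    rfl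
  map_comp {l m n} f g := by
    rw [X.map_comp]
    refine SGp.hom_ext fun q x => ?_
    exact CR_comp Θ (A := (X.obj n, Y.obj q)) (B := (X.obj m, Y.obj q)) (D := (X.obj l, Y.obj q))
      (X.map g, 𝟙 _) (X.map f, 𝟙 _) (X.map g ≫ X.map f, 𝟙 _)
      (Prod.ext rfl (Category.comp_id _).symm) q x

/-- the operators of the iterated diagonal are the operators of the diagonal -/
private theorem CR_op (Θ : C × C ⥤ SGp.{u}) (X Y : SOb C) {m n : ℕ} (θ : Mo m n)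
    (x : (Θ.obj (X.obj n, Y.obj n)).obj n) :
    (SGp.diag (CR_out Θ X Y)).map θ x = (Θ.obj (X.obj m, Y.obj m)).map θ
      ((Θ.map (X := (X.obj n, Y.obj n)) (Y := (X.obj m, Y.obj m)) (X.map θ, Y.map θ)).app n x) := by
  change (Θ.obj (X.obj m, Y.obj m)).map θ ((Θ.map (X := (X.obj m, Y.obj n))
    (Y := (X.obj m, Y.obj m)) (𝟙 _, Y.map θ)).app n ((Θ.map (X := (X.obj n, Y.obj n))
    (Y := (X.obj m, Y.obj n)) (X.map θ, 𝟙 _)).app n x)) = _
  exact congrArg _ (CR_comp Θ (A := (X.obj n, Y.obj n)) (B := (X.obj m, Y.obj n))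
    (D := (X.obj m, Y.obj m)) (X.map θ, 𝟙 _) (𝟙 _, Y.map θ) (X.map θ, Y.map θ)
    (Prod.ext (Category.comp_id _).symm (Category.id_comp _).symm) n x).symm

/-- `Triv` is invariant under retracts -/
private theorem CR_triv {c : ℕ} {A B : SGp.{u}} (f : A ⟶ B) (g : B ⟶ A)
    (h : ∀ n x, f.app n (g.app n x) = x) (hA : SGp.Triv c A) : SGp.Triv c B := by
  intro j hj x
  have h1 : g ≫ f = 𝟙 B := SGp.hom_ext fun n x => h n x
  rw [← SGp.PiMap_id B j x, ← h1, SGp.PiMap_comp, hA j hj (SGp.PiMap g j x), map_one]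

/-- the case of one step -/
private theorem CR_step (hUp : St_Up.{u}) (S : C ⥤ SOb C) (Zc : C → Prop) (hZ : ZClass S Zc)
    (Θ : C × C ⥤ SGp.{u}) (c : ℕ)
    (h0 : ∀ E E', Zc E ∨ Zc E' → ∀ n (x : (Θ.obj (E, E')).obj n), x = 1)
    (h1 : ∀ E E', SGp.Triv c (Θ.obj (E, E'))) (E E' : C) :
    SGp.Triv (c + 2) ((dS (S2 S) Θ).obj (E, E')) := by
  have hin : ∀ E, SGp.Triv (c + 1) (SGp.diag (CR_in Θ E (S.obj E'))) := by
    intro E
    exact hUp c (CR_in Θ E (S.obj E')) (fun n x => h0 _ _ (Or.inr (hZ.zero E')) n x)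
      (fun m => h1 _ _)
  have hout : SGp.Triv (c + 1 + 1) (SGp.diag (CR_out Θ (S.obj E) (S.obj E'))) :=
    hUp (c + 1) (CR_out Θ (S.obj E) (S.obj E'))
      (fun n x => h0 _ _ (Or.inl (hZ.zero E)) n x) (fun m => hin _)
  refine CR_triv (A := SGp.diag (CR_out Θ (S.obj E) (S.obj E'))) ⟨fun n => MonoidHom.id _, ?_⟩
    ⟨fun n => MonoidHom.id _, ?_⟩ (fun n x => rfl) hout
  · intro m n θ x
    exact CR_op Θ (S.obj E) (S.obj E') θ x
  · intro m n θ x
    exact (CR_op Θ (S.obj E) (S.obj E') θ x).symm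

private theorem CR_main (hUp : St_Up.{u}) (S : C ⥤ SOb C) (Zc : C → Prop) (hZ : ZClass S Zc)
    (Ψ : C × C ⥤ SGp.{u})
    (h0 : ∀ E E', Zc E ∨ Zc E' → ∀ n (x : (Ψ.obj (E, E')).obj n), x = 1) (k : ℕ) :
    (∀ E E', Zc E ∨ Zc E' → ∀ n (x : ((dSk (S2 S) Ψ k).obj (E, E')).obj n), x = 1) ∧
      ∀ E E', SGp.Triv (2 * k) ((dSk (S2 S) Ψ k).obj (E, E')) := by
  induction k with
  | zero =>
    refine ⟨h0, fun E E' j hj => ?_⟩
    exact absurd hj (by omega)
  | succ k ih =>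
    refine ⟨fun E E' h n x => ?_, fun E E' => ?_⟩
    · exact ih.1 ((S.obj E).obj n) ((S.obj E').obj n)
        (h.imp (hZ.stab E n) (hZ.stab E' n)) n x
    · exact CR_step hUp S Zc hZ (dSk (S2 S) Ψ k) (2 * k) ih.1 ih.2 E E'

end

/-- Cross effects die. -/
theorem thm_Cross (hUp : St_Up.{u}) : St_Cross.{u, v, w} := by
  intro C _ S Zc hZ Ψ h0 k E E'
  exact (CR_main hUp S Zc hZ Ψ h0 k).2 E E'

end Pool.Agent.KQ
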