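import Pool.Agent.KQ.StSG

/-!
# KQ DC: the decalage of a bisimplicial group is contractible onto row 0
-/

set_option autoImplicit false

namespace Pool.Agent.KQ

open CategoryTheory Function

universe u

/-- the constant map `[n] → [0]` -/
def DC_c (n : ℕ) : Mo n 0 := ⟨fun _ => 0, fun _ _ _ => le_rfl⟩

/-- the contraction: the vertex `i + 1` stays if `α i`, otherwise it goes to `0` -/
def DC_k {n : ℕ} (α : Fin (n + 1) →o Bool) : Mo (n + 1) (n + 1) where
  toFun := Fin.cases 0 fun i => if α i then i.succ else 0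
  monotone' := by
    intro i j
    refine Fin.cases ?_ (fun i => ?_) i
    · intro _
      simp
    · refine Fin.cases ?_ (fun j => ?_) j
      · intro h
        exact absurd h (by simp)
      · intro h
        have h' : i ≤ j := Fin.succ_le_succ_iff.1 h
        have hα := α.monotone h'
        simp only [Fin.cases_succ]
        by_cases hi : α i = true
        · have hj : α j = true := by
            rw [hi] at hα
            exact eq_true_of_ne_false (fun hf => by rw [hf] at hα; exact absurd hα (by decide))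
          rw [if_pos hi, if_pos hj]
          exact h
        · rw [if_neg hi]
          exact Fin.zero_le _

@[simp] theorem DC_k_zero {n : ℕ} (α : Fin (n + 1) →o Bool) : DC_k α 0 = 0 := rfl

@[simp] theorem DC_k_succ {n : ℕ} (α : Fin (n + 1) →o Bool) (i : Fin (n + 1)) :
    DC_k α i.succ = if α i then i.succ else 0 := rfl

theorem DC_bot_zero {m n : ℕ} (θ : Mo m n) : θ.bot 0 = 0 := rfl

theorem DC_bot_succ {m n : ℕ} (θ : Mo m n) (i : Fin (m + 1)) : θ.bot i.succ = (θ i).succ := rfl

theorem DC_k_nat {m n : ℕ} (θ : Mo m n) (α : Fin (n + 1) →o Bool) :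
    θ.bot.comp (DC_k (α.comp θ)) = (DC_k α).comp θ.bot := by
  refine OrderHom.ext _ _ (funext fun i => ?_)
  refine Fin.cases ?_ (fun i => ?_) i
  · rfl
  · change θ.bot (DC_k (α.comp θ) i.succ) = DC_k α (θ.bot i.succ)
    rw [DC_k_succ, DC_bot_succ, DC_k_succ]
    change θ.bot (if α (θ i) then i.succ else 0) = _
    by_cases h : α (θ i) = true
    · rw [if_pos h, if_pos h, DC_bot_succ]
    · rw [if_neg h, if_neg h, DC_bot_zero]

/-- the section of the augmentation -/
def DC_s (G : SOb SGp.{u}) : G.obj 0 ⟶ SGp.diag G.dec where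
  app n := (G.map (DC_c (n + 1))).app n
  nat {m n} θ x := by
    change (G.map (DC_c (m + 1))).app m ((G.obj 0).map θ x) =
      (G.obj (m + 1)).map θ ((G.map θ.bot).app n ((G.map (DC_c (n + 1))).app n x))
    rw [(G.map (DC_c (m + 1))).nat]
    congr 1
    rw [← SGp.comp_app, ← G.map_comp]
    rfl

theorem DC_s_aug (G : SOb SGp.{u}) : DC_s G ≫ decAug G = 𝟙 (G.obj 0) := by
  refine SGp.hom_ext fun n x => ?_
  change (G.map (v0 (n + 1))).app n ((G.map (DC_c (n + 1))).app n x) = x
  rw [← SGp.comp_app, ← G.map_comp]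
  have : (DC_c (n + 1)).comp (v0 (n + 1)) = (OrderHom.id : Mo 0 0) := by
    refine OrderHom.ext _ _ (funext fun i => ?_)
    change (0 : Fin 1) = i
    exact (Fin.eq_zero i).symm
  rw [this, G.map_id]
  rfl

theorem DC_h_nat (G : SOb SGp.{u}) {m n : ℕ} (θ : Mo m n) (α : Fin (n + 1) →o Bool)
    (x : (G.obj (n + 1)).obj n) :
    (G.map (DC_k (α.comp θ))).app m ((G.obj (m + 1)).map θ ((G.map θ.bot).app n x)) =
      (G.obj (m + 1)).map θ ((G.map θ.bot).app n ((G.map (DC_k α)).app n x)) := by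
  rw [(G.map (DC_k (α.comp θ))).nat]
  congr 1
  rw [← SGp.comp_app, ← SGp.comp_app, ← G.map_comp, ← G.map_comp, DC_k_nat]

theorem DC_h_zero (G : SOb SGp.{u}) (n : ℕ) (α : Fin (n + 1) →o Bool)
    (x : (G.obj (n + 1)).obj n) (hα : ∀ i, α i = false) :
    (G.map (DC_k α)).app n x =
      (G.map (DC_c (n + 1))).app n ((G.map (v0 (n + 1))).app n x) := by
  have : DC_k α = (v0 (n + 1)).comp (DC_c (n + 1)) := by
    refine OrderHom.ext _ _ (funext fun i => ?_)
    refine Fin.cases ?_ (fun i => ?_) i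
    · rfl
    · rw [DC_k_succ, hα]
      rfl
  rw [← SGp.comp_app, ← G.map_comp, this]

theorem DC_h_one (G : SOb SGp.{u}) (n : ℕ) (α : Fin (n + 1) →o Bool)
    (x : (G.obj (n + 1)).obj n) (hα : ∀ i, α i = true) :
    (G.map (DC_k α)).app n x = x := by
  have : DC_k α = (OrderHom.id : Mo (n + 1) (n + 1)) := by
    refine OrderHom.ext _ _ (funext fun i => ?_)
    refine Fin.cases ?_ (fun i => ?_) i
    · rfl
    · rw [DC_k_succ, hα]
      rfl
  rw [this, G.map_id]
  rfl

/-- the contraction of the decalage -/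
def DC_h (G : SOb SGp.{u}) : SGp.Htpy (decAug G ≫ DC_s G) (𝟙 (SGp.diag G.dec)) where
  h n α := (G.map (DC_k α)).app n
  nat θ α x := DC_h_nat G θ α x
  h0 n α x hα := DC_h_zero G n α x hα
  h1 n α x hα := DC_h_one G n α x hα

/-- the decalage is contractible onto the row `0` -/
theorem thm_Dec (h : St_Htpy.{u}) : St_Dec.{u} := by
  intro G j
  have h1 : ∀ x, SGp.PiMap (DC_s G) j (SGp.PiMap (decAug G) j x) = x := fun x => by
    rw [← SGp.PiMap_comp, h _ _ ⟨DC_h G⟩ j, SGp.PiMap_id]
  have h2 : ∀ x, SGp.PiMap (decAug G) j (SGp.PiMap (DC_s G) j x) = x := fun x => by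
    rw [← SGp.PiMap_comp, DC_s_aug, SGp.PiMap_id]
  exact ⟨fun x y hxy => by rw [← h1 x, ← h1 y, hxy], fun y => ⟨_, h2 y⟩⟩

end Pool.Agent.KQ
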