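import Pool.Agent.KQ.StSG

/-!
# KQ: homotopic homomorphisms are equal on the homotopy groups
-/

set_option autoImplicit false

namespace Pool.Agent.KQ

open CategoryTheory Function

universe u v w

/-- monotone maps which are not surjective factor through a face -/
theorem HT_factor {m n : ℕ} (θ : Mo m (n + 1)) (v : Fin (n + 2)) (hv : ∀ i, θ i ≠ v) :
    ∃ θ' : Mo m n, θ = (dl v).comp θ' := by
  have h1 : ∀ i, ∃ z, v.succAbove z = θ i := fun i => Fin.exists_succAbove_eq (hv i)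
  choose t ht using h1
  refine ⟨⟨t, fun i j hij => ?_⟩, ?_⟩
  · rw [← (Fin.strictMono_succAbove v).le_iff_le, ht, ht]
    exact θ.monotone hij
  · ext i
    change ((θ i : Fin (n + 2)) : ℕ) = ((v.succAbove (t i) : Fin (n + 2)) : ℕ)
    rw [ht]

/-- cycles are trivial along maps which are not surjective -/
theorem HT_Z {G : SGp.{u}} {m n : ℕ} {x : G.obj n} (hx : x ∈ G.Z n) (θ : Mo m n)
    (hθ : ¬ Surjective θ) : G.map θ x = 1 := by
  cases n with
  | zero =>
    exfalso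
    apply hθ
    intro b
    refine ⟨0, Fin.ext ?_⟩
    omega
  | succ n =>
    have h1 : ∃ v, ∀ i, θ i ≠ v := by
      by_contra hc
      push Not at hc
      exact hθ hc
    obtain ⟨v, hv⟩ := h1
    obtain ⟨θ', rfl⟩ := HT_factor θ v hv
    rw [G.map_comp, (SGp.mem_Z_succ G).1 hx, map_one]

theorem HT_dl_val {n : ℕ} (i : Fin (n + 2)) (k : Fin (n + 1)) :
    ((dl i k : Fin (n + 2)) : ℕ) = if (k : ℕ) < i then (k : ℕ) else k + 1 := by
  change ((i.succAbove k : Fin (n + 2)) : ℕ) = _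
  unfold Fin.succAbove
  by_cases h : (k : ℕ) < i
  · rw [if_pos h, if_pos (by rw [Fin.lt_def]; exact h)]
    rfl
  · rw [if_neg h, if_neg (by rw [Fin.lt_def]; exact h)]
    rfl

theorem HT_sg_val {n : ℕ} (i : Fin (n + 1)) (k : Fin (n + 2)) :
    ((sg i k : Fin (n + 1)) : ℕ) = if (i : ℕ) < k then (k : ℕ) - 1 else k := by
  change ((i.predAbove k : Fin (n + 1)) : ℕ) = _
  unfold Fin.predAbove
  by_cases h : (i : ℕ) < k
  · rw [if_pos h, dif_pos (by rw [Fin.lt_def]; exact h)]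
    rfl
  · rw [if_neg h, dif_neg (by rw [Fin.lt_def]; exact h)]
    rfl

theorem HT_id1 {n : ℕ} (i : Fin (n + 1)) : (sg i).comp (dl i.castSucc) = OrderHom.id := by
  ext k
  change ((sg i (dl i.castSucc k) : Fin (n + 1)) : ℕ) = (k : ℕ)
  rw [HT_sg_val, HT_dl_val, Fin.val_castSucc]
  split_ifs <;> omega

theorem HT_id2 {n : ℕ} (i : Fin (n + 1)) : (sg i).comp (dl i.succ) = OrderHom.id := by
  ext k
  change ((sg i (dl i.succ k) : Fin (n + 1)) : ℕ) = (k : ℕ)
  rw [HT_sg_val, HT_dl_val, Fin.val_succ]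
  split_ifs <;> omega

theorem HT_ns {n : ℕ} (i : Fin (n + 1)) (j : Fin (n + 2)) (h1 : j ≠ i.castSucc) (h2 : j ≠ i.succ) :
    ¬ Surjective ((sg i).comp (dl j)) := by
  intro hs
  have h1' : (j : ℕ) ≠ i := fun h => h1 (Fin.ext h)
  have h2' : (j : ℕ) ≠ i + 1 := fun h => h2 (Fin.ext h)
  have hj := j.2
  have hi := i.2
  rcases lt_or_gt_of_ne h1' with h | h
  · obtain ⟨k, hk⟩ := hs ⟨j, by omega⟩
    have h3 : ((sg i (dl j k) : Fin (n + 1)) : ℕ) = j := congrArg Fin.val hk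
    rw [HT_sg_val, HT_dl_val] at h3
    split_ifs at h3 <;> omega
  · obtain ⟨k, hk⟩ := hs ⟨j - 1, by omega⟩
    have h3 : ((sg i (dl j k) : Fin (n + 1)) : ℕ) = j - 1 := congrArg Fin.val hk
    rw [HT_sg_val, HT_dl_val] at h3
    split_ifs at h3 <;> omega

theorem HT_face1 {G : SGp.{u}} {n : ℕ} (i : Fin (n + 1)) (x : G.obj n) :
    G.map (dl i.castSucc) (G.map (sg i) x) = x := by
  rw [← G.map_comp, HT_id1, G.map_id]

theorem HT_face2 {G : SGp.{u}} {n : ℕ} (i : Fin (n + 1)) (x : G.obj n) :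
    G.map (dl i.succ) (G.map (sg i) x) = x := by
  rw [← G.map_comp, HT_id2, G.map_id]

theorem HT_face3 {G : SGp.{u}} {n : ℕ} {x : G.obj n} (hx : x ∈ G.Z n) (i : Fin (n + 1))
    (j : Fin (n + 2)) (h1 : j ≠ i.castSucc) (h2 : j ≠ i.succ) :
    G.map (dl j) (G.map (sg i) x) = 1 := by
  rw [← G.map_comp]
  exact HT_Z hx _ (HT_ns i j h1 h2)

/-- a cycle which is the only nontrivial face of an element is a boundary -/
theorem HT_bd {G : SGp.{u}} {n : ℕ} (i : Fin (n + 2)) : ∀ (c : G.obj n) (z : G.obj (n + 1)),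
    c ∈ G.Z n → G.map (dl i) z = c → (∀ j, j ≠ i → G.map (dl j) z = 1) → c ∈ G.B n := by
  induction i using Fin.induction with
  | zero =>
    intro c z _ hz h
    rw [SGp.mem_B]
    exact ⟨z, fun i => h _ (Fin.succ_ne_zero i), hz⟩
  | succ i ih =>
    intro c z hc hz h
    have h1 : c⁻¹ ∈ G.B n := by
      refine ih c⁻¹ (z * (G.map (sg i) c)⁻¹) (inv_mem hc) ?_ fun j hj => ?_
      · rw [map_mul, map_inv, HT_face1, h _ (Fin.castSucc_lt_succ).ne, one_mul]
      · rw [map_mul, map_inv]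
        by_cases h2 : j = i.succ
        · subst h2
          rw [HT_face2, hz, mul_inv_cancel]
        · rw [HT_face3 hc i j hj h2, h j h2, inv_one, mul_one]
    exact (inv_mem_iff (H := G.B n)).1 h1

/-- the vertices `≥ k` -/
def HT_b (n k : ℕ) : Fin (n + 1) →o Bool :=
  ⟨fun j => decide (k ≤ (j : ℕ)), fun i j hij => by
    have h1 : (i : ℕ) ≤ j := hij
    by_cases h : k ≤ (i : ℕ)
    · have h2 : k ≤ (j : ℕ) := h.trans h1
      simp [h, h2]
    · simp [h]⟩

theorem thm_Htpy : St_Htpy.{u} := by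
  rintro X Y f g ⟨H⟩ n
  refine MonoidHom.ext fun ξ => ?_
  obtain ⟨x, rfl⟩ := X.cls_surj n ξ
  obtain ⟨x, hx⟩ := x
  set a : ℕ → Y.obj n := fun k => H.h n (HT_b n k) x with ha
  have haZ : ∀ k, a k ∈ Y.Z n := by
    intro k
    cases n with
    | zero => trivial
    | succ n =>
      rw [SGp.mem_Z_succ]
      intro j
      simp only [ha]
      rw [← H.nat, (SGp.mem_Z_succ X).1 hx, map_one]
  have hstep : ∀ k, k < n + 1 → a k * (a (k + 1))⁻¹ ∈ Y.B n := by
    intro k hk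
    set i : Fin (n + 1) := ⟨k, hk⟩ with hi
    set z : Y.obj (n + 1) := H.h (n + 1) (HT_b (n + 1) (k + 1)) (X.map (sg i) x) with hz
    have e1 : (HT_b (n + 1) (k + 1)).comp (dl i.castSucc) = HT_b n k := by
      ext j
      change (HT_b (n + 1) (k + 1)) (dl i.castSucc j) = (HT_b n k) j
      change decide (k + 1 ≤ ((dl i.castSucc j : Fin (n + 2)) : ℕ)) = decide (k ≤ (j : ℕ))
      rw [HT_dl_val, Fin.val_castSucc, decide_eq_decide]
      split_ifs with h <;> simp only [hi] at h ⊢ <;> omega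
    have e2 : (HT_b (n + 1) (k + 1)).comp (dl i.succ) = HT_b n (k + 1) := by
      ext j
      change decide (k + 1 ≤ ((dl i.succ j : Fin (n + 2)) : ℕ)) = decide (k + 1 ≤ (j : ℕ))
      rw [HT_dl_val, Fin.val_succ, decide_eq_decide]
      split_ifs with h <;> simp only [hi] at h ⊢ <;> omega
    have z1 : Y.map (dl i.castSucc) z = a k := by
      rw [hz, ← H.nat, e1, HT_face1]
    have z2 : Y.map (dl i.succ) z = a (k + 1) := by
      rw [hz, ← H.nat, e2, HT_face2]
    have z3 : ∀ j, j ≠ i.castSucc → j ≠ i.succ → Y.map (dl j) z = 1 := by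
      intro j h1 h2
      rw [hz, ← H.nat, HT_face3 hx i j h1 h2, map_one]
    refine HT_bd i.castSucc _ (z * (Y.map (sg i) (a (k + 1)))⁻¹)
      (mul_mem (haZ k) (inv_mem (haZ (k + 1)))) ?_ fun j hj => ?_
    · rw [map_mul, map_inv, HT_face1, z1]
    · rw [map_mul, map_inv]
      by_cases h2 : j = i.succ
      · subst h2
        rw [HT_face2, z2, mul_inv_cancel]
      · rw [HT_face3 (haZ (k + 1)) i j hj h2, z3 j hj h2, inv_one, mul_one]
  have hall : ∀ k, k ≤ n + 1 → a 0 * (a k)⁻¹ ∈ Y.B n := by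
    intro k
    induction k with
    | zero =>
      intro _
      rw [mul_inv_cancel]
      exact one_mem _
    | succ k ih =>
      intro hk
      have h1 := mul_mem (ih (by omega)) (hstep k (by omega))
      have h2 : a 0 * (a k)⁻¹ * (a k * (a (k + 1))⁻¹) = a 0 * (a (k + 1))⁻¹ := by group
      rwa [h2] at h1
  have h0 : a 0 = g.app n x := H.h1 n _ x fun i => by
    change decide (0 ≤ (i : ℕ)) = true
    simp
  have h1 : a (n + 1) = f.app n x := H.h0 n _ x fun i => by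
    change decide (n + 1 ≤ (i : ℕ)) = false
    have := i.2
    simp only [decide_eq_false_iff_not]
    omega
  have h2 := hall (n + 1) le_rfl
  rw [h0, h1] at h2
  rw [SGp.PiMap_cls, SGp.PiMap_cls]
  have h3 : Y.cls n (SGp.Zmap g n ⟨x, hx⟩ * (SGp.Zmap f n ⟨x, hx⟩)⁻¹) = 1 :=
    (SGp.cls_eq_one Y).2 h2
  rw [map_mul, map_inv, mul_inv_eq_one] at h3
  exact h3.symm

end Pool.Agent.KQ
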