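import Pool.Agent.KQ.StSG

/-!
# KQ: low homotopy groups (proof of `St_Low`)
-/

set_option autoImplicit false

namespace Pool.Agent.KQ

open CategoryTheory Function

universe u v w

/-- `k` steps keep the triviality on zero objects -/
theorem LW_zero {C : Type w} [Category.{v} C] (S : C ⥤ SOb C) (Zc : C → Prop)
    (hZ : ZClass S Zc) (Ψ : C ⥤ SGp.{u})
    (hΨ : ∀ E, Zc E → ∀ n (x : (Ψ.obj E).obj n), x = 1) :
    ∀ (k : ℕ) (E : C), Zc E → ∀ n (x : ((dSk S Ψ k).obj E).obj n), x = 1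
  | 0 => hΨ
  | k + 1 => fun E hE n x => LW_zero S Zc hZ Ψ hΨ k ((S.obj E).obj n) (hZ.stab E n hE) n x

/-- `k` steps make the homotopy groups below `k` trivial -/
theorem LW_triv (hUp : St_Up.{u}) {C : Type w} [Category.{v} C] (S : C ⥤ SOb C) (Zc : C → Prop)
    (hZ : ZClass S Zc) (Ψ : C ⥤ SGp.{u})
    (hΨ : ∀ E, Zc E → ∀ n (x : (Ψ.obj E).obj n), x = 1) :
    ∀ (k : ℕ) (E : C), SGp.Triv k ((dSk S Ψ k).obj E)
  | 0 => fun _ j hj => absurd hj (Nat.not_lt_zero j)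
  | k + 1 => fun E =>
    hUp k ((SOb.mapF (dSk S Ψ k)).obj (S.obj E))
      (fun n x => LW_zero S Zc hZ Ψ hΨ k ((S.obj E).obj 0) (hZ.zero E) n x)
      (fun m => LW_triv hUp S Zc hZ Ψ hΨ k ((S.obj E).obj m))

/-- Low homotopy groups. -/
theorem thm_Low (hUp : St_Up.{u}) : St_Low.{u, v, w} := by
  intro C _ S Zc hZ Ψ hΨ k E
  exact ⟨LW_zero S Zc hZ Ψ hΨ k E, LW_triv hUp S Zc hZ Ψ hΨ k E⟩

end Pool.Agent.KQ
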