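import Pool.Agent.KQ.StSG

/-!
# KQ: iterated diagonals

`itS S k : C ⥤ SOb C`, level `n` is `Sₙᵏ E`; `dSk S (P ⋙ cF) k` is the free simplicial group on the
simplicial pointed set `n ↦ P (Sₙᵏ E)`.
-/

set_option autoImplicit false

namespace Pool.Agent.KQ

open CategoryTheory Function

universe u v w v' w'

section

variable {C : Type w} [Category.{v} C]

/-- the diagonal of a bisimplicial object -/
def SOb.diag (X : SOb (SOb C)) : SOb C where
  obj n := (X.obj n).obj n
  map {m n} f := (X.map f).app n ≫ (X.obj m).map f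
  map_id n := by rw [X.map_id, (X.obj n).map_id, SOb.id_app, Category.comp_id]
  map_comp {l m n} f g := by
    rw [X.map_comp, (X.obj l).map_comp, SOb.comp_app, Category.assoc, Category.assoc,
      ← Category.assoc ((X.map f).app n), ← (X.map f).nat g, Category.assoc]

/-- the diagonal of bisimplicial objects, as a functor -/
def SOb.diagF : SOb (SOb C) ⥤ SOb C where
  obj := SOb.diag
  map {X Y} f := ⟨fun n => (f.app n).app n, fun {m n} θ => by
    change ((X.map θ).app n ≫ (X.obj m).map θ) ≫ (f.app m).app m =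
      (f.app n).app n ≫ (Y.map θ).app n ≫ (Y.obj m).map θ
    rw [Category.assoc, (f.app m).nat, ← Category.assoc, ← Category.assoc, ← SOb.comp_app,
      ← SOb.comp_app, f.nat]⟩

/-- the iterates: level `n` of `(itS S k).obj E` is `Sₙᵏ E` -/
def itS (S : C ⥤ SOb C) : ℕ → (C ⥤ SOb C)
  | 0 => SOb.constF
  | k + 1 => S ⋙ SOb.mapF (itS S k) ⋙ SOb.diagF

/-- the simplicial pointed set `n ↦ P (Sₙᵏ E)` -/
def itP (S : C ⥤ SOb C) (P : C ⥤ Pointed.{u}) (k : ℕ) : C ⥤ SOb Pointed.{u} :=
  itS S k ⋙ SOb.mapF P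

/-- an isomorphism of simplicial groups from isomorphisms of the levels -/
def SGp.isoMk {G H : SGp.{u}} (e : ∀ n, G.obj n ≃* H.obj n)
    (h : ∀ {m n : ℕ} (f : Mo m n) (x : G.obj n), e m (G.map f x) = H.map f (e n x)) : G ≅ H where
  hom := ⟨fun n => (e n).toMonoidHom, fun f x => h f x⟩
  inv := ⟨fun n => (e n).symm.toMonoidHom, fun {m n} f x => by
    change (e m).symm (H.map f x) = G.map f ((e n).symm x)
    rw [MulEquiv.symm_apply_eq, h, MulEquiv.apply_symm_apply]⟩
  hom_inv_id := SGp.hom_ext fun n x => (e n).symm_apply_apply x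
  inv_hom_id := SGp.hom_ext fun n x => (e n).apply_symm_apply x

/-- the comparison for `k = 0` -/
def dIso0 (S : C ⥤ SOb C) (P : C ⥤ Pointed.{u}) : P ⋙ cF ≅ itP S P 0 ⋙ frF :=
  NatIso.ofComponents (fun E => SGp.isoMk (fun _ => MulEquiv.refl _) fun {m n} f x => by
    change x = Fr.map (P.map (𝟙 E)) x
    rw [P.map_id, Fr.map_id]
    rfl) fun {X Y} f => SGp.hom_ext fun n x => rfl

/-- the comparison of the diagonals -/
def dIsoD (P : C ⥤ Pointed.{u}) :
    SOb.mapF (SOb.mapF P ⋙ frF) ⋙ SGp.diagF ≅ SOb.diagF ⋙ SOb.mapF P ⋙ frF :=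
  NatIso.ofComponents (fun E => SGp.isoMk (fun _ => MulEquiv.refl _) fun {m n} f x => by
    change Fr.map (P.map ((E.obj m).map f)) (Fr.map (P.map ((E.map f).app n)) x) =
      Fr.map (P.map ((E.map f).app n ≫ (E.obj m).map f)) x
    rw [P.map_comp, Fr.map_comp]
    rfl) fun {X Y} f => SGp.hom_ext fun n x => rfl

/-- a natural isomorphism, applied to simplicial objects -/
def SOb.mapIso {D : Type w'} [Category.{v'} D] {F G : C ⥤ D} (e : F ≅ G) :
    SOb.mapF F ≅ SOb.mapF G :=
  NatIso.ofComponents (fun X =>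
    { hom := ⟨fun n => e.hom.app (X.obj n), fun f => e.hom.naturality (X.map f)⟩
      inv := ⟨fun n => e.inv.app (X.obj n), fun f => e.inv.naturality (X.map f)⟩
      hom_inv_id := SOb.hom_ext fun n => e.hom_inv_id_app (X.obj n)
      inv_hom_id := SOb.hom_ext fun n => e.inv_hom_id_app (X.obj n) })
    fun {X Y} f => SOb.hom_ext fun n => e.hom.naturality (f.app n)

/-- `D_k(E)` is the free simplicial group on the simplicial pointed set `n ↦ P (Sₙᵏ E)`. -/
def dIso (S : C ⥤ SOb C) (P : C ⥤ Pointed.{u}) :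
    ∀ k, dSk S (P ⋙ cF) k ≅ itP S P k ⋙ frF
  | 0 => dIso0 S P
  | k + 1 =>
    Functor.isoWhiskerLeft S (Functor.isoWhiskerRight (SOb.mapIso (dIso S P k)) SGp.diagF) ≪≫
      Functor.isoWhiskerLeft (S ⋙ SOb.mapF (itS S k)) (dIsoD P)

/-- the comparison of `itS (S2 S) k` with the pairs of `itS S k`, for `k = 0` -/
def itIso0 (S : C ⥤ SOb C) : itS (S2 S) 0 ≅ S2 (itS S 0) :=
  NatIso.ofComponents (fun E =>
    { hom := ⟨fun n => 𝟙 _, fun f => by
        refine (Category.comp_id _).trans (Eq.trans ?_ (Category.id_comp _).symm)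
        rfl⟩
      inv := ⟨fun n => 𝟙 _, fun f => by
        refine (Category.comp_id _).trans (Eq.trans ?_ (Category.id_comp _).symm)
        rfl⟩
      hom_inv_id := SOb.hom_ext fun n => Category.id_comp _
      inv_hom_id := SOb.hom_ext fun n => Category.id_comp _ })
    fun {X Y} f => SOb.hom_ext fun n => by
      refine (Category.comp_id _).trans (Eq.trans ?_ (Category.id_comp _).symm)
      rfl

/-- the comparison of the diagonals of pairs -/
def itIsoD (S T : C ⥤ SOb C) :
    S2 S ⋙ SOb.mapF (S2 T) ⋙ SOb.diagF ≅ S2 (S ⋙ SOb.mapF T ⋙ SOb.diagF) :=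
  NatIso.ofComponents (fun E =>
    { hom := ⟨fun n => 𝟙 _, fun {m n} f => by
        refine (Category.comp_id _).trans (Eq.trans ?_ (Category.id_comp _).symm)
        rfl⟩
      inv := ⟨fun n => 𝟙 _, fun {m n} f => by
        refine (Category.comp_id _).trans (Eq.trans ?_ (Category.id_comp _).symm)
        rfl⟩
      hom_inv_id := SOb.hom_ext fun n => Category.id_comp _
      inv_hom_id := SOb.hom_ext fun n => Category.id_comp _ })
    fun {X Y} f => SOb.hom_ext fun n => by
      refine (Category.comp_id _).trans (Eq.trans ?_ (Category.id_comp _).symm)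
      rfl

/-- level `n` of `itS (S2 S) k` at `(E, E')` is `(Sₙᵏ E, Sₙᵏ E')` -/
def itIso (S : C ⥤ SOb C) : ∀ k, itS (S2 S) k ≅ S2 (itS S k)
  | 0 => itIso0 S
  | k + 1 =>
    Functor.isoWhiskerLeft (S2 S) (Functor.isoWhiskerRight (SOb.mapIso (itIso S k)) SOb.diagF) ≪≫
      itIsoD S (itS S k)

/-- the product of two simplicial pointed sets -/
def prodPt (X Y : SOb Pointed.{u}) : SOb Pointed.{u} where
  obj n := pProd (X.obj n) (Y.obj n)
  map f := ⟨fun x => ((X.map f).toFun x.1, (Y.map f).toFun x.2),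
    Prod.ext (X.map f).map_point (Y.map f).map_point⟩
  map_id n := Pointed.Hom.ext (funext fun x => by
    rw [X.map_id, Y.map_id]
    rfl)
  map_comp f g := Pointed.Hom.ext (funext fun x => by
    rw [X.map_comp, Y.map_comp]
    rfl)

/-- the projections of the product of two simplicial pointed sets -/
def prodPt.fst (X Y : SOb Pointed.{u}) : prodPt X Y ⟶ X := ⟨fun _ => ⟨fun x => x.1, rfl⟩, fun _ => rfl⟩

/-- the projections of the product of two simplicial pointed sets -/
def prodPt.snd (X Y : SOb Pointed.{u}) : prodPt X Y ⟶ Y := ⟨fun _ => ⟨fun x => x.2, rfl⟩, fun _ => rfl⟩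

/-- a pair of maps -/
def prodPt.lift {W X Y : SOb Pointed.{u}} (f : W ⟶ X) (g : W ⟶ Y) : W ⟶ prodPt X Y :=
  ⟨fun n => ⟨fun x => ((f.app n).toFun x, (g.app n).toFun x),
    Prod.ext (f.app n).map_point (g.app n).map_point⟩, fun {m n} θ =>
      Pointed.Hom.ext (funext fun x => Prod.ext
        (congrArg (fun e : W.obj n ⟶ X.obj m => e.toFun x) (f.nat θ))
        (congrArg (fun e : W.obj n ⟶ Y.obj m => e.toFun x) (g.nat θ)))⟩

/-- The two-variable `F`-model is the free simplicial group on the product of the simplicial pointed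
sets `n ↦ P (Sₙᵏ E)` and `n ↦ P (Sₙᵏ E')`. -/
def dIso2 (S : C ⥤ SOb C) (P : C ⥤ Pointed.{u}) (k : ℕ) (E E' : C) :
    (dSk (S2 S) (P2 P ⋙ cF) k).obj (E, E') ≅
      frF.obj (prodPt ((itP S P k).obj E) ((itP S P k).obj E')) :=
  (dIso (S2 S) (P2 P) k).app (E, E') ≪≫
    frF.mapIso ((SOb.mapF (P2 P)).mapIso ((itIso S k).app (E, E')))

/-- compatibility with the first projection -/
theorem dIso2_fst (S : C ⥤ SOb C) (P : C ⥤ Pointed.{u}) (k : ℕ) (E E' : C) :
    (dIso2 S P k E E').hom ≫ frF.map (prodPt.fst _ _) =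
      (dSkFst S (P2fst P) k).app (E, E') ≫ (dIso S P k).hom.app E := by
  induction k generalizing E E' with
  | zero =>
    refine SGp.hom_ext fun n x => ?_
    change Fr.map _ (Fr.map _ x) = Fr.map _ x
    rw [← MonoidHom.comp_apply, ← Fr.map_comp]
    congr 2
    refine Pointed.Hom.ext (funext fun y => ?_)
    exact congrArg (fun e : P.obj E ⟶ P.obj E => e.toFun y.1) (P.map_id E)
  | succ k ih =>
    refine SGp.hom_ext fun n x => ?_
    have h := congrArg (fun e : (dSk (S2 S) (P2 P ⋙ cF) k).obj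
      ((S.obj E).obj n, (S.obj E').obj n) ⟶ frF.obj ((itP S P k).obj ((S.obj E).obj n)) =>
      e.app n x) (ih ((S.obj E).obj n) ((S.obj E').obj n))
    refine Eq.trans ?_ h
    change Fr.map _ (Fr.map _ (((dIso (S2 S) (P2 P) (k + 1)).hom.app (E, E')).app n x)) =
      Fr.map _ (Fr.map _ (((dIso (S2 S) (P2 P) k).hom.app (_, _)).app n x))
    rw [← MonoidHom.comp_apply, ← Fr.map_comp, ← MonoidHom.comp_apply, ← Fr.map_comp]
    have e1 : ((dIso (S2 S) (P2 P) (k + 1)).hom.app (E, E')).app n x =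
      ((dIso (S2 S) (P2 P) k).hom.app ((S.obj E).obj n, (S.obj E').obj n)).app n x := rfl
    have e2 : ((itIso S (k + 1)).app (E, E')).hom.app n =
      ((itIso S k).app ((S.obj E).obj n, (S.obj E').obj n)).hom.app n := Category.comp_id _
    have e3 : ((SOb.mapF (P2 P)).mapIso ((itIso S (k + 1)).app (E, E'))).hom.app n =
      ((SOb.mapF (P2 P)).mapIso
        ((itIso S k).app ((S.obj E).obj n, (S.obj E').obj n))).hom.app n :=
      congrArg (fun e => (P2 P).map e) e2
    rw [e1, e3]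
    rfl

/-- compatibility with the second projection -/
theorem dIso2_snd (S : C ⥤ SOb C) (P : C ⥤ Pointed.{u}) (k : ℕ) (E E' : C) :
    (dIso2 S P k E E').hom ≫ frF.map (prodPt.snd _ _) =
      (dSkSnd S (P2snd P) k).app (E, E') ≫ (dIso S P k).hom.app E' := by
  induction k generalizing E E' with
  | zero =>
    refine SGp.hom_ext fun n x => ?_
    change Fr.map _ (Fr.map _ x) = Fr.map _ x
    rw [← MonoidHom.comp_apply, ← Fr.map_comp]
    congr 2
    refine Pointed.Hom.ext (funext fun y => ?_)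
    exact congrArg (fun e : P.obj E' ⟶ P.obj E' => e.toFun y.2) (P.map_id E')
  | succ k ih =>
    refine SGp.hom_ext fun n x => ?_
    have h := congrArg (fun e : (dSk (S2 S) (P2 P ⋙ cF) k).obj
      ((S.obj E).obj n, (S.obj E').obj n) ⟶ frF.obj ((itP S P k).obj ((S.obj E').obj n)) =>
      e.app n x) (ih ((S.obj E).obj n) ((S.obj E').obj n))
    refine Eq.trans ?_ h
    change Fr.map _ (Fr.map _ (((dIso (S2 S) (P2 P) (k + 1)).hom.app (E, E')).app n x)) =
      Fr.map _ (Fr.map _ (((dIso (S2 S) (P2 P) k).hom.app (_, _)).app n x))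
    rw [← MonoidHom.comp_apply, ← Fr.map_comp, ← MonoidHom.comp_apply, ← Fr.map_comp]
    have e1 : ((dIso (S2 S) (P2 P) (k + 1)).hom.app (E, E')).app n x =
      ((dIso (S2 S) (P2 P) k).hom.app ((S.obj E).obj n, (S.obj E').obj n)).app n x := rfl
    have e2 : ((itIso S (k + 1)).app (E, E')).hom.app n =
      ((itIso S k).app ((S.obj E).obj n, (S.obj E').obj n)).hom.app n := Category.comp_id _
    have e3 : ((SOb.mapF (P2 P)).mapIso ((itIso S (k + 1)).app (E, E'))).hom.app n =
      ((SOb.mapF (P2 P)).mapIso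
        ((itIso S k).app ((S.obj E).obj n, (S.obj E').obj n))).hom.app n :=
      congrArg (fun e => (P2 P).map e) e2
    rw [e1, e3]
    rfl

/-- the comparison of `F(X × Y)` with `F(X) × F(Y)` -/
def frCmp (X Y : SOb Pointed.{u}) : frF.obj (prodPt X Y) ⟶ (frF.obj X).prod (frF.obj Y) :=
  SGp.lift (frF.map (prodPt.fst X Y)) (frF.map (prodPt.snd X Y))

/-- `prodCmp` in terms of simplicial pointed sets -/
theorem prodCmp_app (S : C ⥤ SOb C) (P : C ⥤ Pointed.{u}) (k : ℕ) (E E' : C) (n : ℕ)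
    (x : ((dSk (S2 S) (P2 P ⋙ cF) k).obj (E, E')).obj n) :
    (frCmp _ _).app n ((dIso2 S P k E E').hom.app n x) =
      (((dIso S P k).hom.app E).app n ((prodCmp S P k E E').app n x).1,
        ((dIso S P k).hom.app E').app n ((prodCmp S P k E E').app n x).2) :=
  Prod.ext (congrArg (fun e : (dSk (S2 S) (P2 P ⋙ cF) k).obj (E, E') ⟶
      frF.obj ((itP S P k).obj E) => e.app n x) (dIso2_fst S P k E E'))
    (congrArg (fun e : (dSk (S2 S) (P2 P ⋙ cF) k).obj (E, E') ⟶
      frF.obj ((itP S P k).obj E') => e.app n x) (dIso2_snd S P k E E'))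

end

end Pool.Agent.KQ
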