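import Pool.Agent.KQ.FB
import Pool.Agent.KQ.IT

/-!
# KQ: the product formula for simplicial pointed sets `n ↦ P (Sₙᵏ E)`
-/

set_option autoImplicit false

namespace Pool.Agent.KQ

open CategoryTheory Function

universe u v w

section

variable {C : Type w} [Category.{v} C]

theorem SGp.prodMapE {A B A' B' : SGp.{u}} (e : A ≅ A') (e' : B ≅ B') (n : ℕ) :
    Bijective (fun x : A.obj n × B.obj n => (e.hom.app n x.1, e'.hom.app n x.2)) := by
  have h : ∀ {A A' : SGp.{u}} (e : A ≅ A'), Bijective (e.hom.app n) := fun {A A'} e =>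
    bijective_iff_has_inverse.2 ⟨e.inv.app n,
      fun x => congrArg (fun f : A ⟶ A => f.app n x) e.hom_inv_id,
      fun x => congrArg (fun f : A' ⟶ A' => f.app n x) e.inv_hom_id⟩
  exact (h e).prodMap (h e')

/-- the product of two isomorphisms -/
def SGp.prodIso {A B A' B' : SGp.{u}} (e : A ≅ A') (e' : B ≅ B') : A.prod B ≅ A'.prod B' where
  hom := ⟨fun n => (e.hom.app n).prodMap (e'.hom.app n), fun θ x =>
    Prod.ext (e.hom.nat θ x.1) (e'.hom.nat θ x.2)⟩
  inv := ⟨fun n => (e.inv.app n).prodMap (e'.inv.app n), fun θ x =>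
    Prod.ext (e.inv.nat θ x.1) (e'.inv.nat θ x.2)⟩
  hom_inv_id := SGp.hom_ext fun n x => Prod.ext
    (congrArg (fun f : A ⟶ A => f.app n x.1) e.hom_inv_id)
    (congrArg (fun f : B ⟶ B => f.app n x.2) e'.hom_inv_id)
  inv_hom_id := SGp.hom_ext fun n x => Prod.ext
    (congrArg (fun f : A' ⟶ A' => f.app n x.1) e.inv_hom_id)
    (congrArg (fun f : B' ⟶ B' => f.app n x.2) e'.inv_hom_id)

/-- `F(X × Y) → F(X) × F(Y)` is `2k`-connected for `X = (n ↦ P (Sₙᵏ E))`,
`Y = (n ↦ P (Sₙᵏ E'))`. -/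
theorem frCmp_conn (hP : St_Prod.{u, v, w}) (S : C ⥤ SOb C) (Zc : C → Prop) (hZ : ZClass S Zc)
    (P : C ⥤ Pointed.{u}) (hPZ : ∀ E, Zc E → Subsingleton (P.obj E).X) (k : ℕ) (E E' : C) :
    SGp.Conn (2 * k) (frCmp ((itP S P k).obj E) ((itP S P k).obj E')) := by
  have h1 := (hP S Zc hZ P hPZ k E E').2
  have h2 : (dIso2 S P k E E').inv ≫ prodCmp S P k E E' ≫
      (SGp.prodIso ((dIso S P k).app E) ((dIso S P k).app E')).hom =
      frCmp ((itP S P k).obj E) ((itP S P k).obj E') := by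
    rw [Iso.inv_comp_eq]
    exact SGp.hom_ext fun n x => (prodCmp_app S P k E E' n x).symm
  rw [← h2]
  exact ((SGp.weq_of_iso (dIso2 S P k E E').symm).conn _).comp
    (h1.comp ((SGp.weq_of_iso _).conn _))

end

end Pool.Agent.KQ
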