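import Pool.Agent.KQ.DSG

/-!
# KQ: simplicial groups: statements

Notation in the comments: `d_i = map (dl i)`, `s_i = map (sg i)`, `[x]` the class in `Pi`.
-/

set_option autoImplicit false

namespace Pool.Agent.KQ

open CategoryTheory Function

universe u v w

/-! ### the long exact sequence of a surjection -/

/-- The boundary map and the exact sequence of a surjection `f : G ⟶ H` with kernel `K`.

Proof. (0) `N_n(G) → N_n(H)` is onto if `G_n → H_n` is: for `x ∈ G_n` put, for `i = n, n-1, .., 1`,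
`x := x * (s_{i-1} d_i x)⁻¹`; then `d_i x = 1` (as `d_i s_{i-1} = 1`), and `d_j x = 1` for `j > i`
is kept, as `d_j s_{i-1} d_i x = s_{i-1} d_{j-1} d_i x = s_{i-1} d_i d_j x = 1`. The resulting map
`ρ : G_n → N_n(G)` (of sets) is natural and is the identity on `N_n(G)`.
(1) For `y ∈ Z_{n+1}(H)` choose `x ∈ N_{n+1}(G)` over `y`; `d_0 x` is in the kernel and in
`Z_n(K)` (`d_i d_0 x = d_0 d_{i+1} x = 1`). Another lift `x' = x k`, `k = x⁻¹ x' ∈ N_{n+1}(K)` (all of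
`x`, `x'` in `N`), so `d_0 x' = d_0 x * d_0 k`, the same class. If `y = d_0 y'` with
`y' ∈ N_{n+2}(H)`, lift `y'` to `x' ∈ N_{n+2}(G)` and take `x = d_0 x'`, `d_0 x = d_0 d_1 x' = 1`. It is a
homomorphism as lifts can be multiplied.
(2) exactness: direct. At `G`: `x ∈ Z_n(G)`, `f x = d_0 y`, `y ∈ N_{n+1}(H)`, lift `y` to
`y' ∈ N_{n+1}(G)`; `x (d_0 y')⁻¹ ∈ Z_n(K)`. At `K`: `z ∈ Z_n(K)`, `z = d_0 x`, `x ∈ N_{n+1}(G)`: then
`f x ∈ Z_{n+1}(H)` and `δ [f x] = [z]`. At `H`: `δ [y] = 1`: `x ∈ N_{n+1}(G)` over `y` with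
`d_0 x = d_0 k`, `k ∈ N_{n+1}(K)`: `x k⁻¹ ∈ Z_{n+1}(G)` is over `y`. -/
def St_Bd : Prop := ∀ {G H : SGp.{u}} (f : G ⟶ H), (∀ n, Surjective (f.app n)) → ∀ n : ℕ,
  ∃ δ : H.Pi (n + 1) →* (SGp.ker f).Pi n, SGp.IsBd f n δ ∧
    (∀ y, δ y = 1 ↔ ∃ x, SGp.PiMap f (n + 1) x = y) ∧
    (∀ z, SGp.PiMap (SGp.kerι f) n z = 1 ↔ ∃ y, δ y = z)

/-- The same, exactness at `G` and at the end. -/
def St_Bd0 : Prop := ∀ {G H : SGp.{u}} (f : G ⟶ H), (∀ n, Surjective (f.app n)) →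
  (∀ (n : ℕ) (x : G.Pi n), SGp.PiMap f n x = 1 ↔ ∃ z, SGp.PiMap (SGp.kerι f) n z = x) ∧
    Surjective (SGp.PiMap f 0)

/-- Naturality of the boundary map.

Proof. `δ [y] = [d_0 x]` for a lift `x ∈ N_{n+1}(G)` of `y` (it exists, see `St_Bd` (0)); `a x` is a
lift of `b y`. -/
def St_BdNat : Prop := ∀ {G H G' H' : SGp.{u}} {f : G ⟶ H} {f' : G' ⟶ H'} (a : G ⟶ G')
  (b : H ⟶ H') (h : f ≫ b = a ≫ f') (n : ℕ) (δ : H.Pi (n + 1) →* (SGp.ker f).Pi n)
  (δ' : H'.Pi (n + 1) →* (SGp.ker f').Pi n), (∀ n, Surjective (f.app n)) → SGp.IsBd f n δ →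
  SGp.IsBd f' n δ' → ∀ y, δ' (SGp.PiMap b (n + 1) y) = SGp.PiMap (SGp.kerMap a b h) n (δ y)

/-- The kernel of a split surjection: `π_n(K) = ker (π_n(G) → π_n(H))`.

Proof. `St_Bd`, `St_Bd0`: `π_{n+1}(f)` is onto because of `s`, so `δ = 1` and `π_n(K) → π_n(G)` is
injective. -/
def St_Split : Prop := ∀ {G H : SGp.{u}} (f : G ⟶ H) (s : H ⟶ G), s ≫ f = 𝟙 H → ∀ n : ℕ,
  Injective (SGp.PiMap (SGp.kerι f) n) ∧
    ∀ x : G.Pi n, SGp.PiMap f n x = 1 ↔ ∃ z, SGp.PiMap (SGp.kerι f) n z = x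

/-! ### homotopies, commutativity -/

/-- Homotopic homomorphisms are equal on the homotopy groups.

Proof. For `x ∈ Z_n(X)` and `0 ≤ i ≤ n + 1` let `β_i : [n] → Bool`, `β_i j = true` iff `j ≥ i`, and
`a_i = h n β_i x ∈ Y_n`; `a_0 = g x`, `a_{n+1} = f x`, and `a_i ∈ Z_n(Y)` by naturality. For `i ≤ n` let
`z_i = h (n+1) α_i (s_i x)`, `α_i j = true` iff `j > i`. Its faces are
`d_j z_i = h n (α_i ∘ dl j) (d_j s_i x)`: this is `1` for `j ≠ i, i + 1` (then `d_j s_i x` is a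
degeneracy of a face of `x`), and `d_i z_i = a_i`, `d_{i+1} z_i = a_{i+1}`. So `[a_i] = [a_{i+1}]` by
the following lemma.
LEMMA. If `z ∈ Y_{n+1}` has `d_j z = 1` for `j ≠ i, i + 1`, and `a = d_i z`, `b = d_{i+1} z` are in
`Z_n`, then `[a] = [b]`. Proof: `z' = z * (s_i b)⁻¹` has the faces `d_i z' = a b⁻¹ =: c`, all
others `1` (for `j < i`: `d_j s_i b = s_{i-1} d_j b = 1`; `j > i+1` similarly). Now `c ∈ B_n` by
induction on `i`: for `i = 0` this is the definition; for `i > 0` `z'' = z' * (s_{i-1} c)⁻¹` has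
`d_{i-1} z'' = c⁻¹` as its only nontrivial face, so `c⁻¹ ∈ B_n`. -/
def St_Htpy : Prop := ∀ {X Y : SGp.{u}} (f g : X ⟶ Y), Nonempty (SGp.Htpy f g) →
  ∀ n : ℕ, SGp.PiMap f n = SGp.PiMap g n

/-- The homotopy groups in positive degrees are commutative.

Proof. For `x, y ∈ Z_{n+1}` let `w = ⁅s_0 x, s_1 y * (s_0 y)⁻¹⁆ ∈ G_{n+2}`. Faces: `s_0 x` has
`d_0 = d_1 = x`, the others `1`; `s_1 y * (s_0 y)⁻¹` has `d_0 = y⁻¹`, `d_1 = 1`, `d_2 = y`, the others `1`.
So `w ∈ N_{n+2}` and `d_0 w = ⁅x, y⁻¹⁆`. -/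
def St_Comm : Prop := ∀ (G : SGp.{u}) (n : ℕ) (x y : G.Pi (n + 1)), x * y = y * x

/-! ### bisimplicial groups -/

/-- the kernel of a map of bisimplicial groups -/
def kerB {G H : SOb SGp.{u}} (f : G ⟶ H) : SOb SGp.{u} where
  obj m := SGp.ker (f.app m)
  map θ := SGp.kerMap (G.map θ) (H.map θ) (f.nat θ).symm
  map_id m := SGp.hom_ext fun n x => Subtype.ext (by
    change (G.map _).app n x.1 = x.1
    rw [G.map_id]
    rfl)
  map_comp θ η := SGp.hom_ext fun n x => Subtype.ext (by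
    change (G.map _).app n x.1 = (G.map θ).app n ((G.map η).app n x.1)
    rw [G.map_comp]
    rfl)

/-- the identification of the diagonal of the kernel with the kernel of the diagonal -/
def kerDiag {G H : SOb SGp.{u}} (f : G ⟶ H) : SGp.diag (kerB f) ⟶ SGp.ker (SGp.diagF.map f) :=
  ⟨fun n => MonoidHom.id _, fun _ _ => rfl⟩

/-- the vertex `0` of `[n]` -/
def v0 (n : ℕ) : Mo 0 n := ⟨fun _ => 0, fun _ _ _ => le_rfl⟩

/-- the augmentation of the decalage -/
def decAug (G : SOb SGp.{u}) : SGp.diag G.dec ⟶ G.obj 0 where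
  app n := (G.map (v0 (n + 1))).app n
  nat {m n} θ x := by
    change (G.map (v0 (m + 1))).app m ((G.obj (m + 1)).map θ ((G.map θ.bot).app n x)) =
      (G.obj 0).map θ ((G.map (v0 (n + 1))).app n x)
    rw [(G.map (v0 (m + 1))).nat]
    congr 1
    rw [← SGp.comp_app, ← G.map_comp]
    rfl

/-- The decalage is contractible onto the row `0`.

Proof. The section `G_0 → diag (Dec G)`, given by `G.map` of the constant map `[n+1] → [0]`. The
homotopy `h n α = (G.map c_α).app n`, `c_α : Mo (n+1) (n+1)`, `c_α 0 = 0`, `c_α (i+1) = i+1` if `α i`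
and `0` otherwise: `θ.bot ∘ c_{αθ} = c_α ∘ θ.bot`. Use `St_Htpy`. -/
def St_Dec : Prop := ∀ G : SOb SGp.{u}, SGp.Weq (decAug G)

/-- THE REALISATION LEMMA: a map of bisimplicial groups which is `c`-connected on all rows is
`c`-connected on the diagonals.

Proof (helper83). For every `G` let `E = G.dec`, `p = G.decπ : E ⟶ G`, `Ω = kerB p`. All
`(p.app m).app n` are onto (split by `G.map (sg 0)`, a map of rows), so `diagF.map p` is onto with
kernel `diag Ω` (`kerDiag`, an isomorphism), and `π_j(Ω_m) = ker (π_j(G_{m+1}) → π_j(G_m))`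
(`St_Split`). Let `f : G ⟶ H` be `c`-connected on rows. Then `Ω(f)` is `c`-connected on rows: for
`j < c` injectivity and surjectivity by the description, for `j = c`: `y ∈ π_c(Ω'_m)`, lift
`x ∈ π_c(G_{m+1})` of `y`, then `x * s_0 d_0 x⁻¹` is in `π_c(Ω_m)` and lies over `y * s_0 d_0 y⁻¹ = y`.
`π_j(diag E) = π_j(G_0)` by `St_Dec`, naturally. Prove by induction on `j`, for ALL `f` which are
`c`-connected on rows: (S_j), `j ≤ c`: `π_j(diag f)` is onto: `j = 0`: `π_0(diag E) → π_0(diag G)` is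
onto (`St_Bd0`). `j > 0`: four lemma in `π_j E → π_j G → π_{j-1} Ω → π_{j-1} E`: given `y ∈ π_j(diag H)`,
`δ y` comes from `z ∈ π_{j-1}(diag Ω)` by (S_{j-1}) for `Ω(f)`; the image of `z` in
`π_{j-1}(diag E) = π_{j-1}(G_0)` is trivial, because its image in `π_{j-1}(H_0)` is and `j - 1 < c`;
so `z = δ x`, and `y` and `f x` differ by an element of the image of `π_j(H_0)`, which comes from
`π_j(G_0)` as `j ≤ c`.
(I_j), `j < c`: `π_j(diag f)` is injective: `x ↦ 1`; for `j > 0` `δ x ↦ 1`, so `δ x = 1` by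
(I_{j-1}) for `Ω(f)`; so (also for `j = 0`) `x` is the image of `e ∈ π_j(diag E_G) = π_j(G_0)`; the
image of `e` in `π_j(diag E_H)` comes from `π_j(diag Ω_H)`, and this element comes from
`π_j(diag Ω_G)` by (S_j) for `Ω(f)`; changing `e` by it, `e ↦ 1` in `π_j(H_0)`, so `e = 1`. -/
def St_Real : Prop := ∀ (c : ℕ) {G H : SOb SGp.{u}} (f : G ⟶ H),
  (∀ m, SGp.Conn c (f.app m)) → SGp.Conn c (SGp.diagF.map f)

/-- The realisation lemma for isomorphisms.

Proof. `Weq f` iff `Conn c f` for all `c`; use `St_Real`. -/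
def St_RealW : Prop := ∀ {G H : SOb SGp.{u}} (f : G ⟶ H),
  (∀ m, SGp.Weq (f.app m)) → SGp.Weq (SGp.diagF.map f)

/-- A bisimplicial group with trivial row `0` and `π_j = 0`, `j < c`, for all rows: `π_j = 0`,
`j < c + 1`, for the diagonal.

Proof. `Ω` as in `St_Real`: its rows have `π_j = 0` for `j < c` (`St_Split`), so `diag Ω` too
(`St_Real` for `Ω → 1`, the constant simplicial object on the trivial group, which is `c`-connected
on rows). `π_j(diag E) = π_j(G_0) = 1`. Exact sequence: `π_{j}(diag G) → π_{j-1}(diag Ω)` is injective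
for `j ≥ 1`, and `π_0(diag E) → π_0(diag G)` is onto. -/
def St_Up : Prop := ∀ (c : ℕ) (G : SOb SGp.{u}), (∀ (n : ℕ) (x : (G.obj 0).obj n), x = 1) →
  (∀ m, SGp.Triv c (G.obj m)) → SGp.Triv (c + 1) (SGp.diag G)

/-! ### products in the stable range -/

section

variable {C : Type w} [Category.{v} C]

/-- the operator `S` on pairs -/
def S2 (S : C ⥤ SOb C) : C × C ⥤ SOb (C × C) where
  obj E := ⟨fun n => ((S.obj E.1).obj n, (S.obj E.2).obj n),
    fun f => ((S.obj E.1).map f, (S.obj E.2).map f),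
    fun n => by rw [(S.obj E.1).map_id, (S.obj E.2).map_id]; rfl,
    fun f g => by rw [(S.obj E.1).map_comp, (S.obj E.2).map_comp]; rfl⟩
  map {E E'} φ := ⟨fun n => ((S.map φ.1).app n, (S.map φ.2).app n),
    fun θ => Prod.ext ((S.map φ.1).nat θ) ((S.map φ.2).nat θ)⟩
  map_id E := SOb.hom_ext fun n => Prod.ext
    (congrArg (fun e : S.obj E.1 ⟶ S.obj E.1 => e.app n) (S.map_id E.1))
    (congrArg (fun e : S.obj E.2 ⟶ S.obj E.2 => e.app n) (S.map_id E.2))
  map_comp {E E' E''} φ ψ := SOb.hom_ext fun n => Prod.ext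
    (congrArg (fun e : S.obj E.1 ⟶ S.obj E''.1 => e.app n) (S.map_comp φ.1 ψ.1))
    (congrArg (fun e : S.obj E.2 ⟶ S.obj E''.2 => e.app n) (S.map_comp φ.2 ψ.2))

/-- a natural transformation, extended to simplicial objects -/
def extMap {Ψ Ψ' : C ⥤ SGp.{u}} (τ : Ψ ⟶ Ψ') : ext Ψ ⟶ ext Ψ' where
  app X := SGp.diagF.map ⟨fun n => τ.app (X.obj n), fun θ => τ.naturality (X.map θ)⟩
  naturality X Y f := by
    change SGp.diagF.map _ ≫ SGp.diagF.map _ = SGp.diagF.map _ ≫ SGp.diagF.map _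
    rw [← SGp.diagF.map_comp, ← SGp.diagF.map_comp]
    congr 1
    exact SOb.hom_ext fun n => τ.naturality (f.app n)

/-- natural transformations and the operators `dSk` -/
def dSkMap (S : C ⥤ SOb C) {Ψ Ψ' : C ⥤ SGp.{u}} (τ : Ψ ⟶ Ψ') : ∀ k, dSk S Ψ k ⟶ dSk S Ψ' k
  | 0 => τ
  | k + 1 => Functor.whiskerLeft S (extMap (dSkMap S τ k))

/-- the first projection, for the operators `dSk` -/
def dSkFst (S : C ⥤ SOb C) {Ψ : C × C ⥤ SGp.{u}} {Ψ' : C ⥤ SGp.{u}}
    (τ : Ψ ⟶ CategoryTheory.Prod.fst C C ⋙ Ψ') :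
    ∀ k, dSk (S2 S) Ψ k ⟶ CategoryTheory.Prod.fst C C ⋙ dSk S Ψ' k
  | 0 => τ
  | k + 1 =>
    { app := fun E => SGp.diagF.map ⟨fun n => (dSkFst S τ k).app (((S2 S).obj E).obj n),
        fun θ => (dSkFst S τ k).naturality (((S2 S).obj E).map θ)⟩
      naturality := fun X Y f => by
        change SGp.diagF.map _ ≫ SGp.diagF.map _ = SGp.diagF.map _ ≫ SGp.diagF.map _
        rw [← SGp.diagF.map_comp, ← SGp.diagF.map_comp]
        congr 1
        exact SOb.hom_ext fun n => (dSkFst S τ k).naturality (((S2 S).map f).app n) }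

/-- the second projection, for the operators `dSk` -/
def dSkSnd (S : C ⥤ SOb C) {Ψ : C × C ⥤ SGp.{u}} {Ψ' : C ⥤ SGp.{u}}
    (τ : Ψ ⟶ CategoryTheory.Prod.snd C C ⋙ Ψ') :
    ∀ k, dSk (S2 S) Ψ k ⟶ CategoryTheory.Prod.snd C C ⋙ dSk S Ψ' k
  | 0 => τ
  | k + 1 =>
    { app := fun E => SGp.diagF.map ⟨fun n => (dSkSnd S τ k).app (((S2 S).obj E).obj n),
        fun θ => (dSkSnd S τ k).naturality (((S2 S).obj E).map θ)⟩
      naturality := fun X Y f => by
        change SGp.diagF.map _ ≫ SGp.diagF.map _ = SGp.diagF.map _ ≫ SGp.diagF.map _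
        rw [← SGp.diagF.map_comp, ← SGp.diagF.map_comp]
        congr 1
        exact SOb.hom_ext fun n => (dSkSnd S τ k).naturality (((S2 S).map f).app n) }

/-- the product of the pointed sets `P E` and `P E'` -/
def P2 (P : C ⥤ Pointed.{u}) : C × C ⥤ Pointed.{u} where
  obj E := pProd (P.obj E.1) (P.obj E.2)
  map {E E'} φ := ⟨fun x => ((P.map φ.1).toFun x.1, (P.map φ.2).toFun x.2),
    Prod.ext (P.map φ.1).map_point (P.map φ.2).map_point⟩
  map_id E := Pointed.Hom.ext (funext fun x => Prod.ext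
    (congrArg (fun e : P.obj E.1 ⟶ P.obj E.1 => e.toFun x.1) (P.map_id E.1))
    (congrArg (fun e : P.obj E.2 ⟶ P.obj E.2 => e.toFun x.2) (P.map_id E.2)))
  map_comp {E E' E''} φ ψ := Pointed.Hom.ext (funext fun x => Prod.ext
    (congrArg (fun e : P.obj E.1 ⟶ P.obj E''.1 => e.toFun x.1) (P.map_comp φ.1 ψ.1))
    (congrArg (fun e : P.obj E.2 ⟶ P.obj E''.2 => e.toFun x.2) (P.map_comp φ.2 ψ.2)))

/-- the first projection of `P2` -/
def P2fst (P : C ⥤ Pointed.{u}) : P2 P ⋙ cF ⟶ CategoryTheory.Prod.fst C C ⋙ (P ⋙ cF) where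
  app E := cF.map (X := pProd (P.obj E.1) (P.obj E.2)) (Y := P.obj E.1) ⟨fun x => x.1, rfl⟩
  naturality E E' φ := by
    change cF.map _ ≫ cF.map _ = cF.map _ ≫ cF.map _
    rw [← cF.map_comp, ← cF.map_comp]
    rfl

/-- the second projection of `P2` -/
def P2snd (P : C ⥤ Pointed.{u}) : P2 P ⋙ cF ⟶ CategoryTheory.Prod.snd C C ⋙ (P ⋙ cF) where
  app E := cF.map (X := pProd (P.obj E.1) (P.obj E.2)) (Y := P.obj E.2) ⟨fun x => x.2, rfl⟩
  naturality E E' φ := by
    change cF.map _ ≫ cF.map _ = cF.map _ ≫ cF.map _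
    rw [← cF.map_comp, ← cF.map_comp]
    rfl

/-- The comparison of the free group of a product with the product of the free groups, in the
`F`-model: level `n` is `F(P(Sₙᵏ E) × P(Sₙᵏ E')) → F(P(Sₙᵏ E)) × F(P(Sₙᵏ E'))`. -/
def prodCmp (S : C ⥤ SOb C) (P : C ⥤ Pointed.{u}) (k : ℕ) (E E' : C) :
    (dSk (S2 S) (P2 P ⋙ cF) k).obj (E, E') ⟶
      ((dSk S (P ⋙ cF) k).obj E).prod ((dSk S (P ⋙ cF) k).obj E') :=
  SGp.lift ((dSkFst S (P2fst P) k).app (E, E')) ((dSkSnd S (P2snd P) k).app (E, E'))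

/-- the class `Zc` of zero objects: contains the `S_0 E` and is stable under all `S_n` -/
structure ZClass (S : C ⥤ SOb C) (Zc : C → Prop) : Prop where
  zero : ∀ E, Zc ((S.obj E).obj 0)
  stab : ∀ E n, Zc E → Zc ((S.obj E).obj n)

end

/-- Low homotopy groups.

Proof. Induction on `k`, for all `E`: the bisimplicial group `n ↦ (dSk S Ψ k).obj (S_n E)` has
trivial row `0` (by `ZClass`: `(dSk S Ψ k).obj E'` is trivial for `Zc E'`, induction on `k`);
`St_Up`. -/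
def St_Low : Prop := ∀ {C : Type w} [Category.{v} C] (S : C ⥤ SOb C) (Zc : C → Prop),
  ZClass S Zc → ∀ Ψ : C ⥤ SGp.{u}, (∀ E, Zc E → ∀ n (x : (Ψ.obj E).obj n), x = 1) →
    ∀ (k : ℕ) (E : C), (Zc E → ∀ n (x : ((dSk S Ψ k).obj E).obj n), x = 1) ∧
      SGp.Triv k ((dSk S Ψ k).obj E)

/-- Cross effects: a functor `Ψ` of two variables which is trivial if one variable is a zero object;
then `k` steps make it `2k`-trivial.

Proof. Induction on `k`, for all `(E, E')`, together with: `(dSk (S2 S) Ψ k).obj (E, E')` is trivial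
if `Zc E` or `Zc E'`. Step: let `Θ = dSk (S2 S) Ψ k`. For fixed `p` the bisimplicial group
`q ↦ Θ (S_p E, S_q E')` (operators `Θ.map (𝟙, map θ)`) has trivial row `0` and rows with `π_j = 0` for
`j < 2k`, so its diagonal `G_p` has `π_j = 0` for `j < 2k + 1` (`St_Up`); `p ↦ G_p` is a bisimplicial
group with trivial row `0`; its diagonal has `π_j = 0` for `j < 2k + 2` and is isomorphic to
`(dSk (S2 S) Ψ (k + 1)).obj (E, E')` (levels `Θ (S_n E, S_n E')_n`, the same operators, by functoriality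
of `Θ`). -/
def St_Cross : Prop := ∀ {C : Type w} [Category.{v} C] (S : C ⥤ SOb C) (Zc : C → Prop),
  ZClass S Zc → ∀ Ψ : C × C ⥤ SGp.{u},
    (∀ E E', Zc E ∨ Zc E' → ∀ n (x : (Ψ.obj (E, E')).obj n), x = 1) →
    ∀ (k : ℕ) (E E' : C), SGp.Triv (2 * k) ((dSk (S2 S) Ψ k).obj (E, E'))

/-- THE PRODUCT FORMULA in the stable range.

Proof. `prodCmp` is onto in every degree: the generators `(x, *)` and `(*, y)` map to `(x, 1)` and
`(1, y)`; by induction on `k` or directly: all functors are built from `Fr` by evaluation. Its kernel is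
`dSk (S2 S) Ψ k` for `Ψ (E, E') = ker (F(P E × P E') → F(P E) × F(P E'))` (prove by induction on `k`
that `dSk (S2 S) Ψ k → dSk (S2 S) (P2 P ⋙ cF) k` is in each degree injective with image the kernel),
which is trivial if `P E` or `P E'` is a point. By `St_Cross` `π_j = 0` for `j < 2k`; exact sequence
`St_Bd`, `St_Bd0`. -/
def St_Prod : Prop := ∀ {C : Type w} [Category.{v} C] (S : C ⥤ SOb C) (Zc : C → Prop),
  ZClass S Zc → ∀ P : C ⥤ Pointed.{u}, (∀ E, Zc E → Subsingleton (P.obj E).X) →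
    ∀ (k : ℕ) (E E' : C), (∀ n, Surjective ((prodCmp S P k E E').app n)) ∧
      SGp.Conn (2 * k) (prodCmp S P k E E')

end Pool.Agent.KQ
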