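import Mathlib
import Pool.Agent.KQ.StSG

/-!
# KQ PR: the product formula in the stable range
-/

set_option autoImplicit false

namespace Pool.Agent.KQ

open CategoryTheory Function

universe u v w

section

variable {C : Type w} [Category.{v} C]

private theorem pr_nat_fst {Φ : C × C ⥤ SGp.{u}} {Ψ : C ⥤ SGp.{u}}
    (τ : Φ ⟶ CategoryTheory.Prod.fst C C ⋙ Ψ) {E E' : C × C} (φ : E ⟶ E') (n : ℕ)
    (x : (Φ.obj E).obj n) :
    (τ.app E').app n ((Φ.map φ).app n x) = (Ψ.map φ.1).app n ((τ.app E).app n x) :=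
  congrArg (fun e : Φ.obj E ⟶ Ψ.obj E'.1 => e.app n x) (τ.naturality φ)

private theorem pr_nat_snd {Φ : C × C ⥤ SGp.{u}} {Ψ : C ⥤ SGp.{u}}
    (τ : Φ ⟶ CategoryTheory.Prod.snd C C ⋙ Ψ) {E E' : C × C} (φ : E ⟶ E') (n : ℕ)
    (x : (Φ.obj E).obj n) :
    (τ.app E').app n ((Φ.map φ).app n x) = (Ψ.map φ.2).app n ((τ.app E).app n x) :=
  congrArg (fun e : Φ.obj E ⟶ Ψ.obj E'.2 => e.app n x) (τ.naturality φ)

/-- the common kernel of two natural transformations -/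
private def prK {Φ : C × C ⥤ SGp.{u}} {Ψ Ψ' : C ⥤ SGp.{u}}
    (τ : Φ ⟶ CategoryTheory.Prod.fst C C ⋙ Ψ) (τ' : Φ ⟶ CategoryTheory.Prod.snd C C ⋙ Ψ') :
    C × C ⥤ SGp.{u} where
  obj E := SGp.ker (SGp.lift (X := Ψ.obj E.1) (Y := Ψ'.obj E.2) (τ.app E) (τ'.app E))
  map {E E'} φ := ⟨fun n => (((Φ.map φ).app n).comp (Subgroup.subtype _)).codRestrict _ fun x => by
      have h1 : (τ.app E).app n x.1 = 1 := congrArg Prod.fst x.2
      have h2 : (τ'.app E).app n x.1 = 1 := congrArg Prod.snd x.2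
      change ((τ.app E').app n ((Φ.map φ).app n x.1), (τ'.app E').app n ((Φ.map φ).app n x.1)) = 1
      rw [pr_nat_fst, pr_nat_snd, h1, h2, map_one, map_one]
      rfl, fun θ x => Subtype.ext ((Φ.map φ).nat θ x.1)⟩
  map_id E := SGp.hom_ext fun n x => Subtype.ext (by
    change (Φ.map (𝟙 E)).app n x.1 = x.1
    rw [Φ.map_id]
    rfl)
  map_comp φ ψ := SGp.hom_ext fun n x => Subtype.ext (by
    change (Φ.map (φ ≫ ψ)).app n x.1 = (Φ.map ψ).app n ((Φ.map φ).app n x.1)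
    rw [Φ.map_comp]
    rfl)

/-- its inclusion -/
private def prι {Φ : C × C ⥤ SGp.{u}} {Ψ Ψ' : C ⥤ SGp.{u}}
    (τ : Φ ⟶ CategoryTheory.Prod.fst C C ⋙ Ψ) (τ' : Φ ⟶ CategoryTheory.Prod.snd C C ⋙ Ψ') :
    prK τ τ' ⟶ Φ where
  app _ := SGp.kerι _
  naturality _ _ _ := rfl

private theorem pr_levels (S : C ⥤ SOb C) {Φ : C × C ⥤ SGp.{u}} {Ψ Ψ' : C ⥤ SGp.{u}}
    (τ : Φ ⟶ CategoryTheory.Prod.fst C C ⋙ Ψ) (τ' : Φ ⟶ CategoryTheory.Prod.snd C C ⋙ Ψ')
    (hs : ∀ (E : C × C) (n : ℕ), Surjective ((SGp.lift (X := Ψ.obj E.1) (Y := Ψ'.obj E.2)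
      (τ.app E) (τ'.app E)).app n)) (k : ℕ) :
    ∀ (E : C × C) (n : ℕ),
      Surjective ((SGp.lift (X := (dSk S Ψ k).obj E.1) (Y := (dSk S Ψ' k).obj E.2)
        ((dSkFst S τ k).app E) ((dSkSnd S τ' k).app E)).app n) ∧
      Injective (((dSkMap (S2 S) (prι τ τ') k).app E).app n) ∧
      ∀ x : ((dSk (S2 S) Φ k).obj E).obj n,
        (SGp.lift (X := (dSk S Ψ k).obj E.1) (Y := (dSk S Ψ' k).obj E.2)
          ((dSkFst S τ k).app E) ((dSkSnd S τ' k).app E)).app n x = 1 ↔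
        ∃ y, ((dSkMap (S2 S) (prι τ τ') k).app E).app n y = x := by
  induction k with
  | zero =>
    intro E n
    refine ⟨hs E n, fun x y h => Subtype.ext h, fun x => ⟨fun h => ⟨⟨x, h⟩, rfl⟩, ?_⟩⟩
    rintro ⟨y, rfl⟩
    exact y.2
  | succ k ih =>
    intro E n
    exact ih (((S2 S).obj E).obj n) n

end

/-- a levelwise bijective map is bijective on the homotopy groups -/
private theorem pr_triv {G H : SGp.{u}} (f : G ⟶ H) (hf : ∀ n, Bijective (f.app n)) (c : ℕ)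
    (hG : SGp.Triv c G) : SGp.Triv c H := by
  intro j hj x
  have hZ : ∀ z : H.Z j, ∃ y : G.Z j, SGp.Zmap f j y = z := by
    intro z
    obtain ⟨y, hy⟩ := (hf j).2 z.1
    refine ⟨⟨y, ?_⟩, Subtype.ext hy⟩
    have hz := z.2
    cases j with
    | zero => trivial
    | succ j =>
      rw [SGp.mem_Z_succ] at hz ⊢
      intro i
      refine (hf j).1 ?_
      rw [map_one, f.nat, hy, hz]
  obtain ⟨z, rfl⟩ := H.cls_surj j x
  obtain ⟨y, rfl⟩ := hZ z
  rw [← SGp.PiMap_cls, hG j hj (G.cls j y), map_one]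

private theorem pr_Fr_gen {X : Pointed.{u}} (S : Subgroup (Fr X)) (h : ∀ x, Fr.of X x ∈ S)
    (x : Fr X) : x ∈ S := by
  obtain ⟨y, rfl⟩ := QuotientGroup.mk_surjective x
  induction y using FreeGroup.induction_on with
  | C1 => exact S.one_mem
  | of a => exact h a
  | inv_of a _ => exact S.inv_mem (h a)
  | mul a b ha hb => exact S.mul_mem ha hb

private theorem pr_surj (X Y : Pointed.{u}) :
    Surjective ((Fr.map (X := pProd X Y) (Y := X) ⟨fun x => x.1, rfl⟩).prod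
      (Fr.map (X := pProd X Y) (Y := Y) ⟨fun x => x.2, rfl⟩)) := by
  let R : Subgroup (Fr X × Fr Y) := MonoidHom.range
    ((Fr.map (X := pProd X Y) (Y := X) ⟨fun x => x.1, rfl⟩).prod
      (Fr.map (X := pProd X Y) (Y := Y) ⟨fun x => x.2, rfl⟩))
  have h1 : ∀ a : Fr X, a ∈ R.comap (MonoidHom.inl (Fr X) (Fr Y)) := by
    refine pr_Fr_gen _ fun x => ?_
    refine ⟨Fr.of (pProd X Y) (x, Y.point), Prod.ext ?_ ?_⟩
    · exact Fr.map_of (X := pProd X Y) (Y := X) _ (x, Y.point)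
    · exact (Fr.map_of (X := pProd X Y) (Y := Y) _ (x, Y.point)).trans (Fr.of_point Y)
  have h2 : ∀ b : Fr Y, b ∈ R.comap (MonoidHom.inr (Fr X) (Fr Y)) := by
    refine pr_Fr_gen _ fun y => ?_
    refine ⟨Fr.of (pProd X Y) (X.point, y), Prod.ext ?_ ?_⟩
    · exact (Fr.map_of (X := pProd X Y) (Y := X) _ (X.point, y)).trans (Fr.of_point X)
    · exact Fr.map_of (X := pProd X Y) (Y := Y) _ (X.point, y)
  rintro ⟨a, b⟩
  have h3 : MonoidHom.inl (Fr X) (Fr Y) a * MonoidHom.inr (Fr X) (Fr Y) b ∈ R :=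
    Subgroup.mul_mem _ (h1 a) (h2 b)
  rw [MonoidHom.inl_apply, MonoidHom.inr_apply, Prod.mk_mul_mk, mul_one, one_mul] at h3
  exact h3

/-- a map of pointed sets with an inverse -/
private theorem pr_inj {X Y : Pointed.{u}} (f : X ⟶ Y) (g : Y ⟶ X)
    (h : ∀ x, g.toFun (f.toFun x) = x) (x : Fr X) (hx : Fr.map f x = 1) : x = 1 := by
  have h1 : (Fr.map g).comp (Fr.map f) = MonoidHom.id _ := Fr.hom_ext fun x => by
    rw [MonoidHom.comp_apply, Fr.map_of, Fr.map_of, h]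
    rfl
  have h2 := DFunLike.congr_fun h1 x
  rw [MonoidHom.comp_apply, hx, map_one] at h2
  exact h2.symm

theorem thm_Prod (hBd : St_Bd.{u}) (hBd0 : St_Bd0.{u}) (hCross : St_Cross.{u, v, w}) :
    St_Prod.{u, v, w} := by
  intro C _ S Zc hZ P hP k E E'
  have hs : ∀ (E : C × C) (n : ℕ), Surjective ((SGp.lift (X := (P ⋙ cF).obj E.1)
      (Y := (P ⋙ cF).obj E.2) ((P2fst P).app E) ((P2snd P).app E)).app n) := by
    intro E n
    exact pr_surj (P.obj E.1) (P.obj E.2)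
  have hK : ∀ E E' : C, Zc E ∨ Zc E' → ∀ (n : ℕ)
      (x : ((prK (P2fst P) (P2snd P)).obj (E, E')).obj n), x = 1 := by
    intro E E' h n x
    refine Subtype.ext ?_
    have h1 : Fr.map (X := pProd (P.obj E) (P.obj E')) (Y := P.obj E) ⟨fun x => x.1, rfl⟩ x.1 = 1 :=
      congrArg Prod.fst x.2
    have h2 : Fr.map (X := pProd (P.obj E) (P.obj E')) (Y := P.obj E') ⟨fun x => x.2, rfl⟩ x.1 = 1 :=
      congrArg Prod.snd x.2
    rcases h with h | h
    · have := hP E h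
      exact pr_inj _ (⟨fun y => ((P.obj E).point, y), rfl⟩ :
        P.obj E' ⟶ pProd (P.obj E) (P.obj E')) (fun y => Prod.ext (Subsingleton.elim _ _) rfl) _ h2
    · have := hP E' h
      exact pr_inj _ (⟨fun y => (y, (P.obj E').point), rfl⟩ :
        P.obj E ⟶ pProd (P.obj E) (P.obj E')) (fun y => Prod.ext rfl (Subsingleton.elim _ _)) _ h1
  have hl := pr_levels S (P2fst P) (P2snd P) hs k (E, E')
  have hsurj : ∀ n, Surjective ((prodCmp S P k E E').app n) := fun n => (hl n).1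
  have hT : SGp.Triv (2 * k) (SGp.ker (prodCmp S P k E E')) := by
    refine pr_triv (G := (dSk (S2 S) (prK (P2fst P) (P2snd P)) k).obj (E, E'))
      ⟨fun n => (((dSkMap (S2 S) (prι (P2fst P) (P2snd P)) k).app (E, E')).app n).codRestrict _
        fun x => ((hl n).2.2 _).2 ⟨x, rfl⟩, fun θ x => Subtype.ext
          (((dSkMap (S2 S) (prι (P2fst P) (P2snd P)) k).app (E, E')).nat θ x)⟩
      (fun n => ⟨fun x y h => (hl n).2.1 (congrArg Subtype.val h), fun x => ?_⟩) _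
      (hCross S Zc hZ _ hK k E E')
    obtain ⟨y, hy⟩ := ((hl n).2.2 x.1).1 x.2
    exact ⟨y, Subtype.ext hy⟩
  have h0 := hBd0 (prodCmp S P k E E') hsurj
  have hS : ∀ j, j ≤ 2 * k → Surjective (SGp.PiMap (prodCmp S P k E E') j) := by
    intro j hj
    cases j with
    | zero => exact h0.2
    | succ j =>
      obtain ⟨δ, -, h1, -⟩ := hBd (prodCmp S P k E E') hsurj j
      exact fun y => (h1 y).1 (hT j (by omega) _)
  refine ⟨hsurj, fun j hj => ⟨?_, hS j (by omega)⟩, hS _ le_rfl⟩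
  rw [injective_iff_map_eq_one]
  intro x hx
  obtain ⟨z, rfl⟩ := (h0.1 j x).1 hx
  rw [hT j hj z, map_one]

end Pool.Agent.KQ
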