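import Pool.Agent.KQ.StSG

/-!
# KQ: the realisation lemma
-/

set_option autoImplicit false

namespace Pool.Agent.KQ

open CategoryTheory Function

universe u

/-! ### exact sequences -/

section four

variable {A B A' B' : SGp.{u}} {F : A ⟶ B} {F' : A' ⟶ B'} (a : A ⟶ A') (b : B ⟶ B')
  (h : F ≫ b = a ≫ F')

include h in
theorem RL_sq (j : ℕ) (x : A.Pi j) :
    SGp.PiMap b j (SGp.PiMap F j x) = SGp.PiMap F' j (SGp.PiMap a j x) := by
  rw [← SGp.PiMap_comp, ← SGp.PiMap_comp, h]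

theorem RL_ksq (j : ℕ) (z : (SGp.ker F).Pi j) :
    SGp.PiMap (SGp.kerι F') j (SGp.PiMap (SGp.kerMap a b h) j z) =
      SGp.PiMap a j (SGp.PiMap (SGp.kerι F) j z) := by
  rw [← SGp.PiMap_comp, ← SGp.PiMap_comp]
  rfl

include h in
/-- surjectivity in degree `0` -/
theorem RL_S0 (hBd0 : St_Bd0.{u}) (hF' : ∀ n, Surjective (F'.app n))
    (ha : Surjective (SGp.PiMap a 0)) : Surjective (SGp.PiMap b 0) := by
  intro y
  obtain ⟨e', rfl⟩ := (hBd0 F' hF').2 y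
  obtain ⟨e, rfl⟩ := ha e'
  exact ⟨SGp.PiMap F 0 e, RL_sq a b h 0 e⟩

/-- surjectivity -/
theorem RL_S (hBd : St_Bd.{u}) (hNat : St_BdNat.{u}) (hF : ∀ n, Surjective (F.app n))
    (hF' : ∀ n, Surjective (F'.app n)) (j : ℕ) (ha : Surjective (SGp.PiMap a (j + 1)))
    (ha' : Injective (SGp.PiMap a j)) (hk : Surjective (SGp.PiMap (SGp.kerMap a b h) j)) :
    Surjective (SGp.PiMap b (j + 1)) := by
  obtain ⟨δ, d1, d2, d3⟩ := hBd F hF j
  obtain ⟨δ', d1', d2', d3'⟩ := hBd F' hF' j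
  intro y
  obtain ⟨z, hz⟩ := hk (δ' y)
  have h1 : SGp.PiMap (SGp.kerι F) j z = 1 := by
    apply ha'
    rw [← RL_ksq a b h, hz, map_one]
    exact (d3' _).2 ⟨y, rfl⟩
  obtain ⟨x, hx⟩ := (d3 z).1 h1
  have h2 : δ' ((SGp.PiMap b (j + 1) x)⁻¹ * y) = 1 := by
    rw [map_mul, map_inv, hNat a b h j δ δ' hF d1 d1', hx, hz, inv_mul_cancel]
  obtain ⟨e', he'⟩ := (d2' _).1 h2
  obtain ⟨e, rfl⟩ := ha e'
  refine ⟨x * SGp.PiMap F (j + 1) e, ?_⟩
  rw [map_mul, RL_sq a b h, he', mul_inv_cancel_left]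

/-- injectivity, the last part -/
theorem RL_I' (hBd0 : St_Bd0.{u}) (hF : ∀ n, Surjective (F.app n))
    (hF' : ∀ n, Surjective (F'.app n)) (j : ℕ) (ha' : Injective (SGp.PiMap a j))
    (hk : Surjective (SGp.PiMap (SGp.kerMap a b h) j)) (e : A.Pi j)
    (he : SGp.PiMap b j (SGp.PiMap F j e) = 1) : SGp.PiMap F j e = 1 := by
  rw [RL_sq a b h] at he
  obtain ⟨w', hw'⟩ := ((hBd0 F' hF').1 j _).1 he
  obtain ⟨w, rfl⟩ := hk w'
  rw [RL_ksq] at hw'
  have h1 := ha' hw'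
  rw [← h1]
  exact ((hBd0 F hF).1 j _).2 ⟨w, rfl⟩

/-- injectivity in degree `0` -/
theorem RL_I0 (hBd0 : St_Bd0.{u}) (hF : ∀ n, Surjective (F.app n))
    (hF' : ∀ n, Surjective (F'.app n)) (ha' : Injective (SGp.PiMap a 0))
    (hk : Surjective (SGp.PiMap (SGp.kerMap a b h) 0)) : Injective (SGp.PiMap b 0) := by
  rw [injective_iff_map_eq_one]
  intro x hx
  obtain ⟨e, rfl⟩ := (hBd0 F hF).2 x
  exact RL_I' a b h hBd0 hF hF' 0 ha' hk e hx

/-- injectivity -/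
theorem RL_I (hBd : St_Bd.{u}) (hBd0 : St_Bd0.{u}) (hNat : St_BdNat.{u})
    (hF : ∀ n, Surjective (F.app n))
    (hF' : ∀ n, Surjective (F'.app n)) (j : ℕ) (ha' : Injective (SGp.PiMap a (j + 1)))
    (hk : Surjective (SGp.PiMap (SGp.kerMap a b h) (j + 1)))
    (hk' : Injective (SGp.PiMap (SGp.kerMap a b h) j)) : Injective (SGp.PiMap b (j + 1)) := by
  obtain ⟨δ, d1, d2, d3⟩ := hBd F hF j
  obtain ⟨δ', d1', d2', d3'⟩ := hBd F' hF' j
  rw [injective_iff_map_eq_one]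
  intro x hx
  have h1 : δ x = 1 := by
    apply hk'
    rw [← hNat a b h j δ δ' hF d1 d1', hx, map_one, map_one]
  obtain ⟨e, rfl⟩ := (d2 x).1 h1
  exact RL_I' a b h hBd0 hF hF' (j + 1) ha' hk e hx

end four

/-! ### the decalage -/

section dec

/-- a map of bisimplicial groups, on the decalage -/
def RL_dec {G H : SOb SGp.{u}} (f : G ⟶ H) : G.dec ⟶ H.dec :=
  ⟨fun n => f.app (n + 1), fun θ => f.nat θ.bot⟩

/-- the kernel of the projection of the decalage -/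
def RL_om (G : SOb SGp.{u}) : SOb SGp.{u} := kerB G.decπ

theorem RL_natk {G H : SOb SGp.{u}} (f : G ⟶ H) {m n : ℕ} (θ : Mo m n) (k : ℕ)
    (y : (G.obj n).obj k) :
    (f.app m).app k ((G.map θ).app k y) = (H.map θ).app k ((f.app n).app k y) :=
  congrArg (fun e : G.obj n ⟶ H.obj m => SGp.Hom.app e k y) (f.nat θ)

/-- the map of the kernels -/
def RL_omM {G H : SOb SGp.{u}} (f : G ⟶ H) : RL_om G ⟶ RL_om H :=
  ⟨fun m => SGp.kerMap (f := (G.decπ).app m) (f' := (H.decπ).app m) (f.app (m + 1)) (f.app m)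
    (f.nat (dl 0)), fun θ => SGp.hom_ext fun k x => Subtype.ext (RL_natk f θ.bot k x.1)⟩

theorem RL_square {G H : SOb SGp.{u}} (f : G ⟶ H) :
    SGp.diagF.map G.decπ ≫ SGp.diagF.map f = SGp.diagF.map (RL_dec f) ≫ SGp.diagF.map H.decπ := by
  rw [← SGp.diagF.map_comp, ← SGp.diagF.map_comp]
  congr 1
  exact SOb.hom_ext fun n => f.nat (dl 0)

theorem RL_sec (G : SOb SGp.{u}) (m : ℕ) : G.map (sg (0 : Fin (m + 1))) ≫ G.map (dl 0) = 𝟙 _ := by
  rw [← G.map_comp, dl_zero_comp_sg_zero, G.map_id]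

theorem RL_secx (G : SOb SGp.{u}) (m k : ℕ) (x : (G.obj m).obj k) :
    (G.map (dl 0)).app k ((G.map (sg (0 : Fin (m + 1)))).app k x) = x :=
  congrArg (fun e : G.obj m ⟶ G.obj m => SGp.Hom.app e k x) (RL_sec G m)

theorem RL_surj (G : SOb SGp.{u}) (n : ℕ) :
    Surjective ((SGp.diagF.map G.decπ).app n) := by
  intro x
  exact ⟨(G.map (sg (0 : Fin (n + 1)))).app n x, RL_secx G n n x⟩

theorem RL_diag_om (G : SOb SGp.{u}) :
    SGp.diag (RL_om G) = SGp.ker (SGp.diagF.map G.decπ) := rfl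

/-- surjectivity in the range of a `c`-connected map -/
theorem RL_conn_surj {c : ℕ} {G H : SGp.{u}} {f : G ⟶ H} (hf : SGp.Conn c f) {j : ℕ}
    (hj : j ≤ c) : Surjective (SGp.PiMap f j) := by
  rcases hj.lt_or_eq with h | rfl
  · exact (hf.1 j h).2
  · exact hf.2

/-- the kernels are `c`-connected on the rows -/
theorem RL_omConn (hS : St_Split.{u}) {c : ℕ} {G H : SOb SGp.{u}} (f : G ⟶ H)
    (hf : ∀ m, SGp.Conn c (f.app m)) (m : ℕ) : SGp.Conn c ((RL_omM f).app m) := by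
  have hG := hS (G.map (dl 0) : G.obj (m + 1) ⟶ G.obj m) (G.map (sg 0)) (RL_sec G m)
  have hH := hS (H.map (dl 0) : H.obj (m + 1) ⟶ H.obj m) (H.map (sg 0)) (RL_sec H m)
  have hsq := fun j z => RL_ksq (F := (G.map (dl 0) : G.obj (m + 1) ⟶ G.obj m))
    (F' := (H.map (dl 0) : H.obj (m + 1) ⟶ H.obj m)) (f.app (m + 1)) (f.app m)
    (f.nat (dl 0)) j z
  have hinj : ∀ j < c, Injective (SGp.PiMap ((RL_omM f).app m) j) := by
    intro j hj z z' hz
    apply (hG j).1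
    apply ((hf (m + 1)).1 j hj).1
    exact (hsq j z).symm.trans ((congrArg _ hz).trans (hsq j z'))
  have hsurj : ∀ j ≤ c, Surjective (SGp.PiMap ((RL_omM f).app m) j) := by
    intro j hj y
    obtain ⟨x, hx⟩ := RL_conn_surj (hf (m + 1)) hj (SGp.PiMap (SGp.kerι (H.map (dl 0))) j y)
    have hp : SGp.PiMap (H.map (dl 0)) j (SGp.PiMap (SGp.kerι (H.map (dl 0))) j y) = 1 :=
      ((hH j).2 _).2 ⟨y, rfl⟩
    have hs : ∀ w : (G.obj m).Pi j,
        SGp.PiMap (G.map (dl 0)) j (SGp.PiMap (G.map (sg (0 : Fin (m + 1)))) j w) = w := by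
      intro w
      rw [← SGp.PiMap_comp, RL_sec, SGp.PiMap_id]
    have h1 : SGp.PiMap (G.map (dl 0)) j
        (x * (SGp.PiMap (G.map (sg 0)) j (SGp.PiMap (G.map (dl 0)) j x))⁻¹) = 1 := by
      rw [map_mul, map_inv, hs, mul_inv_cancel]
    obtain ⟨z, hz⟩ := ((hG j).2 _).1 h1
    refine ⟨z, ?_⟩
    apply (hH j).1
    refine (hsq j z).trans ?_
    rw [hz, map_mul, map_inv, hx]
    have h2 : SGp.PiMap (f.app (m + 1)) j
        (SGp.PiMap (G.map (sg 0)) j (SGp.PiMap (G.map (dl 0)) j x)) = 1 := by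
      rw [← SGp.PiMap_comp, f.nat, SGp.PiMap_comp, ← SGp.PiMap_comp (G.map (dl 0)), f.nat,
        SGp.PiMap_comp, hx, hp, map_one]
    rw [h2, inv_one, mul_one]
  exact ⟨fun j hj => ⟨hinj j hj, hsurj j hj.le⟩, hsurj c le_rfl⟩

/-- the decalage is `c`-connected on the diagonal -/
theorem RL_decConn (hD : St_Dec.{u}) {c : ℕ} {G H : SOb SGp.{u}} (f : G ⟶ H)
    (hf : ∀ m, SGp.Conn c (f.app m)) : SGp.Conn c (SGp.diagF.map (RL_dec f)) := by
  have hsq : decAug G ≫ f.app 0 = SGp.diagF.map (RL_dec f) ≫ decAug H :=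
    SGp.hom_ext fun n x => RL_natk f (v0 (n + 1)) n x
  have h1 : ∀ j, Bijective (SGp.PiMap (decAug G) j) := hD G
  have h2 : ∀ j, Bijective (SGp.PiMap (decAug H) j) := hD H
  have hs := fun j x => RL_sq (SGp.diagF.map (RL_dec f)) (f.app 0) hsq j x
  have hinj : ∀ j < c, Injective (SGp.PiMap (SGp.diagF.map (RL_dec f)) j) := by
    intro j hj x x' hx
    apply (h1 j).1
    apply ((hf 0).1 j hj).1
    exact (hs j x).trans ((congrArg _ hx).trans (hs j x').symm)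
  have hsurj : ∀ j ≤ c, Surjective (SGp.PiMap (SGp.diagF.map (RL_dec f)) j) := by
    intro j hj y
    obtain ⟨w, hw⟩ := RL_conn_surj (hf 0) hj (SGp.PiMap (decAug H) j y)
    obtain ⟨x, rfl⟩ := (h1 j).2 w
    exact ⟨x, (h2 j).1 ((hs j x).symm.trans hw)⟩
  exact ⟨fun j hj => ⟨hinj j hj, hsurj j hj.le⟩, hsurj c le_rfl⟩

end dec

/-- THE REALISATION LEMMA -/
theorem thm_Real (hBd : St_Bd.{u}) (hBd0 : St_Bd0.{u}) (hNat : St_BdNat.{u})
    (hS : St_Split.{u}) (hD : St_Dec.{u}) : St_Real.{u} := by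
  intro c
  have key : ∀ j : ℕ, (j ≤ c → ∀ {G H : SOb SGp.{u}} (f : G ⟶ H),
      (∀ m, SGp.Conn c (f.app m)) → Surjective (SGp.PiMap (SGp.diagF.map f) j)) ∧
      (j < c → ∀ {G H : SOb SGp.{u}} (f : G ⟶ H),
      (∀ m, SGp.Conn c (f.app m)) → Injective (SGp.PiMap (SGp.diagF.map f) j)) := by
    intro j
    induction j with
    | zero =>
      have hS0 : ∀ {G H : SOb SGp.{u}} (f : G ⟶ H),
          (∀ m, SGp.Conn c (f.app m)) → Surjective (SGp.PiMap (SGp.diagF.map f) 0) := by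
        intro G H f hf
        exact RL_S0 (SGp.diagF.map (RL_dec f)) (SGp.diagF.map f) (RL_square f) hBd0 (RL_surj H)
          (RL_conn_surj (RL_decConn hD f hf) (Nat.zero_le c))
      refine ⟨fun _ => hS0, fun hj => ?_⟩
      intro G H f hf
      have hk : Surjective (SGp.PiMap (SGp.kerMap (SGp.diagF.map (RL_dec f)) (SGp.diagF.map f)
          (RL_square f)) 0) := hS0 (RL_omM f) (RL_omConn hS f hf)
      exact RL_I0 (SGp.diagF.map (RL_dec f)) (SGp.diagF.map f) (RL_square f) hBd0 (RL_surj G)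
        (RL_surj H) ((RL_decConn hD f hf).1 0 hj).1 hk
    | succ j ih =>
      have hS1 : j + 1 ≤ c → ∀ {G H : SOb SGp.{u}} (f : G ⟶ H),
          (∀ m, SGp.Conn c (f.app m)) → Surjective (SGp.PiMap (SGp.diagF.map f) (j + 1)) := by
        intro hj G H f hf
        have hk : Surjective (SGp.PiMap (SGp.kerMap (SGp.diagF.map (RL_dec f)) (SGp.diagF.map f)
            (RL_square f)) j) := ih.1 (by omega) (RL_omM f) (RL_omConn hS f hf)
        exact RL_S (SGp.diagF.map (RL_dec f)) (SGp.diagF.map f) (RL_square f) hBd hNat (RL_surj G)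
          (RL_surj H) j (RL_conn_surj (RL_decConn hD f hf) hj)
          ((RL_decConn hD f hf).1 j (by omega)).1 hk
      refine ⟨hS1, fun hj => ?_⟩
      intro G H f hf
      have hk : Surjective (SGp.PiMap (SGp.kerMap (SGp.diagF.map (RL_dec f)) (SGp.diagF.map f)
          (RL_square f)) (j + 1)) := hS1 hj.le (RL_omM f) (RL_omConn hS f hf)
      have hk' : Injective (SGp.PiMap (SGp.kerMap (SGp.diagF.map (RL_dec f)) (SGp.diagF.map f)
          (RL_square f)) j) := ih.2 (by omega) (RL_omM f) (RL_omConn hS f hf)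
      exact RL_I (SGp.diagF.map (RL_dec f)) (SGp.diagF.map f) (RL_square f) hBd hBd0 hNat
        (RL_surj G) (RL_surj H) j ((RL_decConn hD f hf).1 (j + 1) hj).1 hk hk'
  intro G H f hf
  exact ⟨fun j hj => ⟨(key j).2 hj f hf, (key j).1 hj.le f hf⟩, (key c).1 le_rfl f hf⟩

/-- The realisation lemma for isomorphisms -/
theorem thm_RealW (hBd : St_Bd.{u}) (hBd0 : St_Bd0.{u}) (hNat : St_BdNat.{u})
    (hS : St_Split.{u}) (hD : St_Dec.{u}) : St_RealW.{u} := by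
  intro G H f hf j
  exact (thm_Real hBd hBd0 hNat hS hD (j + 1) f fun m =>
    ⟨fun i _ => hf m i, (hf m (j + 1)).2⟩).1 j (Nat.lt_succ_self j)

end Pool.Agent.KQ
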