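import Pool.Agent.KQ.StStr

/-!
# KQ, module SF: free groups of pointed simplicial sets as retracts of free groups
-/

set_option autoImplicit false

namespace Pool.Agent.KQ

open CategoryTheory Function

universe u

theorem SF_fin {X : Type u} (x : FreeGroup X) :
    ∃ S : Set X, S.Finite ∧ ∃ y : FreeGroup S, FreeGroup.map Subtype.val y = x := by
  induction x using FreeGroup.induction_on with
  | C1 => exact ⟨∅, Set.finite_empty, 1, map_one _⟩
  | of a => exact ⟨{a}, Set.finite_singleton a, FreeGroup.of ⟨a, rfl⟩, FreeGroup.map.of⟩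
  | inv_of a h =>
    obtain ⟨S, hS, y, hy⟩ := h
    exact ⟨S, hS, y⁻¹, by rw [map_inv, hy]⟩
  | mul a b ha hb =>
    obtain ⟨S, hS, y, rfl⟩ := ha
    obtain ⟨T, hT, z, rfl⟩ := hb
    refine ⟨S ∪ T, hS.union hT, FreeGroup.map (Set.inclusion Set.subset_union_left) y *
      FreeGroup.map (Set.inclusion Set.subset_union_right) z, ?_⟩
    rw [map_mul, FreeGroup.map.comp, FreeGroup.map.comp]
    rfl

/-- the free group, as a functor from sets to groups -/
def SF_fg : FGr.{u} where
  obj X := FreeGroup X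
  map f := FreeGroup.map f
  map_id x := FreeGroup.map.id' x
  map_comp f g x := (FreeGroup.map.comp f g x).symm
  fin x := SF_fin x

/-- the projection from the free group to the free group of a pointed set -/
def SF_r (X : Pointed.{u}) : FreeGroup X.X →* Fr X := QuotientGroup.mk' _

theorem SF_r_of (X : Pointed.{u}) (x : X.X) : SF_r X (FreeGroup.of x) = Fr.of X x := rfl

/-- the inclusion of the free group of a pointed set -/
def SF_i (X : Pointed.{u}) : Fr X →* FreeGroup X.X :=
  QuotientGroup.lift _ (FreeGroup.lift fun x => FreeGroup.of x * (FreeGroup.of X.point)⁻¹)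
    fun w hw => by
      have h1 : Subgroup.normalClosure {FreeGroup.of X.point} ≤
          (FreeGroup.lift fun x : X.X => FreeGroup.of x * (FreeGroup.of X.point)⁻¹).ker := by
        refine Subgroup.normalClosure_le_normal ?_
        rintro _ rfl
        change FreeGroup.lift _ (FreeGroup.of X.point) = 1
        rw [FreeGroup.lift_apply_of, mul_inv_cancel]
      exact h1 hw

theorem SF_i_of (X : Pointed.{u}) (x : X.X) :
    SF_i X (Fr.of X x) = FreeGroup.of x * (FreeGroup.of X.point)⁻¹ := by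
  change FreeGroup.lift (fun y : X.X => FreeGroup.of y * (FreeGroup.of X.point)⁻¹)
    (FreeGroup.of x) = _
  rw [FreeGroup.lift_apply_of]

theorem SF_ri (X : Pointed.{u}) (x : Fr X) : SF_r X (SF_i X x) = x := by
  have h : (SF_r X).comp (SF_i X) = MonoidHom.id (Fr X) := by
    refine Fr.hom_ext fun x => ?_
    change SF_r X (SF_i X (Fr.of X x)) = Fr.of X x
    rw [SF_i_of, map_mul, map_inv, SF_r_of, SF_r_of, Fr.of_point]
    simp
  exact DFunLike.congr_fun h x

theorem SF_r_nat {X Y : Pointed.{u}} (f : X ⟶ Y) (x : FreeGroup X.X) :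
    SF_r Y (FreeGroup.map f.toFun x) = Fr.map f (SF_r X x) := by
  have h : (SF_r Y).comp (FreeGroup.map f.toFun) = (Fr.map f).comp (SF_r X) :=
    FreeGroup.ext_hom _ _ fun x => by
      rw [MonoidHom.comp_apply, MonoidHom.comp_apply, FreeGroup.map.of, SF_r_of, SF_r_of, Fr.map_of]
  exact DFunLike.congr_fun h x

theorem SF_i_nat {X Y : Pointed.{u}} (f : X ⟶ Y) (x : Fr X) :
    SF_i Y (Fr.map f x) = FreeGroup.map f.toFun (SF_i X x) := by
  have h : (SF_i Y).comp (Fr.map f) = (FreeGroup.map f.toFun).comp (SF_i X) :=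
    Fr.hom_ext fun x => by
      rw [MonoidHom.comp_apply, MonoidHom.comp_apply, Fr.map_of, SF_i_of, SF_i_of, map_mul, map_inv,
        FreeGroup.map.of, FreeGroup.map.of, f.map_point]
  exact DFunLike.congr_fun h x

/-- the projection, for simplicial pointed sets -/
def SF_R (X : SOb Pointed.{u}) : SF_fg.ap.obj (undF.obj X) ⟶ frF.obj X :=
  ⟨fun n => SF_r (X.obj n), fun θ x => SF_r_nat (X.map θ) x⟩

/-- the inclusion, for simplicial pointed sets -/
def SF_I (X : SOb Pointed.{u}) : frF.obj X ⟶ SF_fg.ap.obj (undF.obj X) :=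
  ⟨fun n => SF_i (X.obj n), fun θ x => SF_i_nat (X.map θ) x⟩

theorem SF_IR (X : SOb Pointed.{u}) : SF_I X ≫ SF_R X = 𝟙 (frF.obj X) :=
  SGp.hom_ext fun n x => SF_ri (X.obj n) x

theorem SF_R_nat {X Y : SOb Pointed.{u}} (f : X ⟶ Y) :
    SF_R X ≫ frF.map f = SF_fg.ap.map (undF.map f) ≫ SF_R Y :=
  SGp.hom_ext fun n x => (SF_r_nat (f.app n) x).symm

theorem SF_I_nat {X Y : SOb Pointed.{u}} (f : X ⟶ Y) :
    frF.map f ≫ SF_I Y = SF_I X ≫ SF_fg.ap.map (undF.map f) :=
  SGp.hom_ext fun n x => SF_i_nat (f.app n) x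

/-- Strong maps of simplicial pointed sets give isomorphisms for the free groups. -/
theorem thm_StrFr : St_StrFr.{u} := by
  intro X Y f hf j
  have h := hf SF_fg j
  have hIR : ∀ (Z : SOb Pointed.{u}) (a : (frF.obj Z).Pi j),
      SGp.PiMap (SF_R Z) j (SGp.PiMap (SF_I Z) j a) = a := by
    intro Z a
    rw [← SGp.PiMap_comp, SF_IR, SGp.PiMap_id]
  have hI : ∀ a : (frF.obj X).Pi j, SGp.PiMap (SF_I Y) j (SGp.PiMap (frF.map f) j a) =
      SGp.PiMap (SF_fg.ap.map (undF.map f)) j (SGp.PiMap (SF_I X) j a) := by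
    intro a
    rw [← SGp.PiMap_comp, ← SGp.PiMap_comp, SF_I_nat]
  have hR : ∀ a : (SF_fg.ap.obj (undF.obj X)).Pi j,
      SGp.PiMap (SF_R Y) j (SGp.PiMap (SF_fg.ap.map (undF.map f)) j a) =
      SGp.PiMap (frF.map f) j (SGp.PiMap (SF_R X) j a) := by
    intro a
    rw [← SGp.PiMap_comp, ← SGp.PiMap_comp, SF_R_nat]
  constructor
  · intro a b hab
    rw [← hIR X a, ← hIR X b]
    congr 1
    apply h.1
    rw [← hI, ← hI, hab]
  · intro c
    obtain ⟨d, hd⟩ := h.2 (SGp.PiMap (SF_I Y) j c)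
    exact ⟨SGp.PiMap (SF_R X) j d, by rw [← hR, hd, hIR]⟩

end Pool.Agent.KQ
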