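import Pool.Agent.KQ.StStr

/-!
# KQ SH: formal properties of strong maps
-/

set_option autoImplicit false

namespace Pool.Agent.KQ

open CategoryTheory Function

universe u v w

/-- homotopy groups of a composition -/
theorem sh_comp (Φ : FGr.{u}) {X Y Z : SSt.{u}} (f : X ⟶ Y) (g : Y ⟶ Z) (n : ℕ)
    (x : (Φ.ap.obj X).Pi n) :
    SGp.PiMap (Φ.ap.map (f ≫ g)) n x = SGp.PiMap (Φ.ap.map g) n (SGp.PiMap (Φ.ap.map f) n x) := by
  rw [Functor.map_comp, SGp.PiMap_comp]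

/-- homotopy groups of the identity -/
theorem sh_id (Φ : FGr.{u}) (X : SSt.{u}) (n : ℕ) (x : (Φ.ap.obj X).Pi n) :
    SGp.PiMap (Φ.ap.map (𝟙 X)) n x = x := by
  rw [CategoryTheory.Functor.map_id, SGp.PiMap_id]

/-- a functor to groups applied to a homotopy -/
def sh_ht (Φ : FGr.{u}) {X Y : SSt.{u}} {f g : X ⟶ Y} (H : SSt.Htpy f g) :
    SGp.Htpy (Φ.ap.map f) (Φ.ap.map g) where
  h n α := Φ.map (H.h n α)
  nat {m n} θ α x := by
    exact (Φ.map_comp (X.map θ) (H.h m (α.comp θ)) x).symm.trans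
      ((DFunLike.congr_fun (congrArg Φ.map (funext (H.nat θ α))) x).trans
        (Φ.map_comp (H.h n α) (Y.map θ) x))
  h0 n α x hα := by
    change Φ.map (H.h n α) x = Φ.map (f.app n) x
    rw [show H.h n α = f.app n from funext fun y => H.h0 n α y hα]
  h1 n α x hα := by
    change Φ.map (H.h n α) x = Φ.map (g.app n) x
    rw [show H.h n α = g.app n from funext fun y => H.h1 n α y hα]

theorem sh_inv {X Y : SSt.{u}} (f : X ⟶ Y) (g : Y ⟶ X) (h1 : SSt.StrEq (f ≫ g) (𝟙 X))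
    (h2 : SSt.StrEq (g ≫ f) (𝟙 Y)) : SSt.Strong f := by
  intro Φ j
  refine Function.bijective_iff_has_inverse.2 ⟨SGp.PiMap (Φ.ap.map g) j, fun x => ?_, fun x => ?_⟩
  · rw [← sh_comp, h1 Φ j, sh_id]
  · rw [← sh_comp, h2 Φ j, sh_id]

theorem thm_StrHt (hHt : St_Htpy.{u}) : St_StrHt.{u} := by
  refine ⟨fun f g h Φ n => ?_, fun f g h1 h2 => sh_inv f g h1 h2, fun X x h => ?_⟩
  · obtain ⟨H⟩ := h
    exact hHt _ _ ⟨sh_ht Φ H⟩ n
  · refine sh_inv X.toPt x h fun Φ n => ?_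
    rw [show x ≫ X.toPt = 𝟙 (SSt.const PUnit.{u + 1}) from SSt.hom_ext fun n y => rfl]

theorem thm_Str23 : St_Str23.{u} := by
  refine ⟨fun f g hf hg Φ j => ?_, fun f g hf hfg Φ j => ?_, fun f g hg hfg Φ j => ?_,
    fun {X Y X' Y'} f f' i r jj s h1 h2 h3 h4 h5 Φ k => ?_, fun f g h hf Φ j => ?_⟩
  · rw [show (SGp.PiMap (Φ.ap.map (f ≫ g)) j : _ → _) =
      SGp.PiMap (Φ.ap.map g) j ∘ SGp.PiMap (Φ.ap.map f) j from funext fun x => sh_comp Φ f g j x]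
    exact (hg Φ j).comp (hf Φ j)
  · have h := hfg Φ j
    rw [show (SGp.PiMap (Φ.ap.map (f ≫ g)) j : _ → _) =
      SGp.PiMap (Φ.ap.map g) j ∘ SGp.PiMap (Φ.ap.map f) j from funext fun x => sh_comp Φ f g j x]
      at h
    exact (Function.Bijective.of_comp_iff _ (hf Φ j)).1 h
  · have h := hfg Φ j
    rw [show (SGp.PiMap (Φ.ap.map (f ≫ g)) j : _ → _) =
      SGp.PiMap (Φ.ap.map g) j ∘ SGp.PiMap (Φ.ap.map f) j from funext fun x => sh_comp Φ f g j x]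
      at h
    exact (Function.Bijective.of_comp_iff' (hg Φ j) _).1 h
  · have e1 : ∀ x, SGp.PiMap (Φ.ap.map r) k (SGp.PiMap (Φ.ap.map i) k x) = x := fun x => by
      rw [← sh_comp, h1 Φ k, sh_id]
    have e2 : ∀ y, SGp.PiMap (Φ.ap.map s) k (SGp.PiMap (Φ.ap.map jj) k y) = y := fun y => by
      rw [← sh_comp, h2 Φ k, sh_id]
    have e3 : ∀ x, SGp.PiMap (Φ.ap.map f') k (SGp.PiMap (Φ.ap.map i) k x) =
        SGp.PiMap (Φ.ap.map jj) k (SGp.PiMap (Φ.ap.map f) k x) := fun x => by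
      rw [← sh_comp, h3 Φ k, sh_comp]
    have e4 : ∀ x, SGp.PiMap (Φ.ap.map f) k (SGp.PiMap (Φ.ap.map r) k x) =
        SGp.PiMap (Φ.ap.map s) k (SGp.PiMap (Φ.ap.map f') k x) := fun x => by
      rw [← sh_comp, h4 Φ k, sh_comp]
    refine ⟨fun x x' h => ?_, fun y => ?_⟩
    · have h6 : SGp.PiMap (Φ.ap.map f') k (SGp.PiMap (Φ.ap.map i) k x) =
          SGp.PiMap (Φ.ap.map f') k (SGp.PiMap (Φ.ap.map i) k x') := by
        rw [e3, e3, h]
      rw [← e1 x, ← e1 x', (h5 Φ k).1 h6]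
    · obtain ⟨x', hx'⟩ := (h5 Φ k).2 (SGp.PiMap (Φ.ap.map jj) k y)
      exact ⟨SGp.PiMap (Φ.ap.map r) k x', by rw [e4, hx', e2]⟩
  · rw [← h Φ j]
    exact hf Φ j

end Pool.Agent.KQ
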