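import Pool.Agent.KQ.StStr

/-!
# KQ: products of strong maps
-/

set_option autoImplicit false

namespace Pool.Agent.KQ

open CategoryTheory Function

universe u v w

/-! ### isomorphisms -/

/-- the inverse of a bijective map -/
noncomputable def SP_inv {X Y : SSt.{u}} (f : X ⟶ Y) (h : ∀ n, Bijective (f.app n)) : Y ⟶ X :=
  ⟨fun n => (Equiv.ofBijective (f.app n) (h n)).symm, fun {m n} θ y => by
    apply (h m).1
    rw [f.nat]
    change (Equiv.ofBijective (f.app m) (h m)) ((Equiv.ofBijective (f.app m) (h m)).symm _) =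
      Y.map θ ((Equiv.ofBijective (f.app n) (h n)) ((Equiv.ofBijective (f.app n) (h n)).symm y))
    rw [Equiv.apply_symm_apply, Equiv.apply_symm_apply]⟩

/-- bijective maps are strong -/
theorem SP_bij {X Y : SSt.{u}} (f : X ⟶ Y) (h : ∀ n, Bijective (f.app n)) : SSt.Strong f := by
  intro Φ n
  have e1 : f ≫ SP_inv f h = 𝟙 X :=
    SSt.hom_ext fun n x => (Equiv.ofBijective (f.app n) (h n)).symm_apply_apply x
  have e2 : SP_inv f h ≫ f = 𝟙 Y :=
    SSt.hom_ext fun n x => (Equiv.ofBijective (f.app n) (h n)).apply_symm_apply x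
  have h1 : ∀ x, SGp.PiMap (Φ.ap.map (SP_inv f h)) n (SGp.PiMap (Φ.ap.map f) n x) = x := by
    intro x
    rw [← SGp.PiMap_comp, ← Φ.ap.map_comp, e1, Φ.ap.map_id, SGp.PiMap_id]
  have h2 : ∀ x, SGp.PiMap (Φ.ap.map f) n (SGp.PiMap (Φ.ap.map (SP_inv f h)) n x) = x := by
    intro x
    rw [← SGp.PiMap_comp, ← Φ.ap.map_comp, e2, Φ.ap.map_id, SGp.PiMap_id]
  exact ⟨LeftInverse.injective h1, RightInverse.surjective h2⟩

/-- strong maps and squares with bijective vertical maps -/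
theorem SP_square (h23 : St_Str23.{u}) {X Y X' Y' : SSt.{u}} (f : X ⟶ Y) (f' : X' ⟶ Y')
    (r : X' ⟶ X) (s : Y' ⟶ Y) (hr : ∀ n, Bijective (r.app n)) (hs : ∀ n, Bijective (s.app n))
    (h : r ≫ f = f' ≫ s) (hf : SSt.Strong f') : SSt.Strong f :=
  h23.2.1 r f (SP_bij r hr) (h ▸ h23.1 f' s hf (SP_bij s hs))

/-! ### products with a set -/

/-- maps of constant simplicial sets -/
def SP_cm {A B : Type u} (f : A → B) : SSt.const A ⟶ SSt.const B := ⟨fun _ => f, fun _ _ => rfl⟩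

/-- the functor `Φ (- × A)` -/
def SP_times (Φ : FGr.{u}) (A : Type u) : FGr.{u} where
  obj T := Φ.obj (T × A)
  map f := Φ.map (Prod.map f fun a => a)
  map_id {X} x := by
    have h : (Prod.map (fun a : X => a) fun a : A => a) = fun a : X × A => a := rfl
    rw [h, Φ.map_id]
  map_comp {X Y Z} f g x := by
    rw [← Φ.map_comp]
    rfl
  fin {X} x := by
    obtain ⟨S, hS, y, hy⟩ := Φ.fin x
    refine ⟨Prod.fst '' S, hS.image _, ?_⟩
    let e : S → (Prod.fst '' S : Set X) × A := fun s => (⟨s.1.1, s.1, s.2, rfl⟩, s.1.2)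
    refine ⟨Φ.map e y, ?_⟩
    rw [← Φ.map_comp, ← hy]
    rfl

/-- products with a constant simplicial set -/
theorem SP_const {X Y : SSt.{u}} (f : X ⟶ Y) (hf : SSt.Strong f) (A : Type u) :
    SSt.Strong (SSt.prodMap f (𝟙 (SSt.const A))) :=
  fun Φ => hf (SP_times Φ A)

/-- the bisimplicial set `(q, p) ↦ X_p × W_q` -/
def SP_bi (X W : SSt.{u}) : SOb SSt.{u} where
  obj q := X.prod (SSt.const (W.obj q))
  map θ := SSt.prodMap (𝟙 X) (SP_cm (W.map θ))
  map_id n := SSt.hom_ext fun p x => Prod.ext rfl (W.map_id n x.2)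
  map_comp f g := SSt.hom_ext fun p x => Prod.ext rfl (W.map_comp f g x.2)

/-- the map of these bisimplicial sets -/
def SP_biMap {X Y : SSt.{u}} (f : X ⟶ Y) (W : SSt.{u}) : SP_bi X W ⟶ SP_bi Y W :=
  ⟨fun q => SSt.prodMap f (𝟙 (SSt.const (W.obj q))), fun θ => SSt.hom_ext fun p x => rfl⟩

/-- the diagonal is the product -/
def SP_diag (X W : SSt.{u}) : SSt.diagF.obj (SP_bi X W) ⟶ X.prod W :=
  ⟨fun _ x => x, fun _ _ => rfl⟩

theorem SP_R (hRow : St_StrRow.{u}) (h23 : St_Str23.{u}) {X Y : SSt.{u}} (f : X ⟶ Y)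
    (hf : SSt.Strong f) (W : SSt.{u}) : SSt.Strong (SSt.prodMap f (𝟙 W)) := by
  refine SP_square h23 (SSt.prodMap f (𝟙 W)) (SSt.diagF.map (SP_biMap f W)) (SP_diag X W)
    (SP_diag Y W) (fun _ => bijective_id) (fun _ => bijective_id) ?_
    (hRow (SP_biMap f W) fun q => SP_const f hf (W.obj q))
  exact SSt.hom_ext fun n x => rfl

/-- the exchange of the factors -/
def SP_swap (X W : SSt.{u}) : X.prod W ⟶ W.prod X := ⟨fun _ x => (x.2, x.1), fun _ _ => rfl⟩

theorem SP_swap_bij (X W : SSt.{u}) (n : ℕ) : Bijective ((SP_swap X W).app n) :=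
  (Equiv.prodComm (X.obj n) (W.obj n)).bijective

theorem SP_L (hRow : St_StrRow.{u}) (h23 : St_Str23.{u}) {X Y : SSt.{u}} (f : X ⟶ Y)
    (hf : SSt.Strong f) (W : SSt.{u}) : SSt.Strong (SSt.prodMap (𝟙 W) f) := by
  refine SP_square h23 (SSt.prodMap (𝟙 W) f) (SSt.prodMap f (𝟙 W)) (SP_swap X W)
    (SP_swap Y W) (SP_swap_bij X W) (SP_swap_bij Y W) ?_ (SP_R hRow h23 f hf W)
  exact SSt.hom_ext fun n x => rfl

/-- **Products of strong maps** -/
theorem thm_StrProd (hRow : St_StrRow.{u}) (h23 : St_Str23.{u}) : St_StrProd.{u} := by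
  intro X Y X' Y' f f' hf hf'
  have h : SSt.prodMap f f' = SSt.prodMap f (𝟙 X') ≫ SSt.prodMap (𝟙 Y) f' :=
    SSt.hom_ext fun n x => rfl
  rw [h]
  exact h23.1 _ _ (SP_R hRow h23 f hf X') (SP_L hRow h23 f' hf' Y)

end Pool.Agent.KQ
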