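import Pool.Agent.KQ.StStr

/-!
# KQ: collapsing a contractible simplicial subset
-/

set_option autoImplicit false

namespace Pool.Agent.KQ

open CategoryTheory Function

universe u

section SQ

variable {X : SSt.{u}}

/-! ### nonempty -/

/-- the functor which is a fixed group on nonempty sets and trivial on the empty set -/
def SQ_Phi : FGr.{u} where
  obj X := ({ carrier := {g | g = 1 ∨ Nonempty X}
              one_mem' := Or.inl rfl
              mul_mem' := by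
                rintro a b (rfl | h) (rfl | h')
                · left; simp
                · exact Or.inr h'
                · exact Or.inr h
                · exact Or.inr h
              inv_mem' := by
                rintro a (rfl | h)
                · left; simp
                · exact Or.inr h } : Subgroup (ULift.{u} (Multiplicative ℤ)))
  map {X Y} f := Subgroup.inclusion (by
    rintro a (rfl | h)
    · left; rfl
    · exact Or.inr (h.map f))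
  map_id x := Subtype.ext rfl
  map_comp f g x := Subtype.ext rfl
  fin {X} x := by
    rcases x.2 with h | h
    · exact ⟨∅, Set.finite_empty, ⟨x.1, Or.inl h⟩, Subtype.ext rfl⟩
    · obtain ⟨a⟩ := h
      exact ⟨{a}, Set.finite_singleton a, ⟨x.1, Or.inr ⟨⟨a, rfl⟩⟩⟩, Subtype.ext rfl⟩

theorem SQ_nonempty (Y : SSt.{u}) (hY : SSt.Contr Y) : Nonempty (Y.obj 0) := by
  by_contra hne
  obtain ⟨-, hs⟩ := hY SQ_Phi 0
  let g : ULift.{u} (Multiplicative ℤ) := ⟨Multiplicative.ofAdd 1⟩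
  have hg : g ≠ 1 := by
    intro h
    have h2 : Multiplicative.ofAdd (1 : ℤ) = 1 := congrArg ULift.down h
    rw [ofAdd_eq_one] at h2
    exact one_ne_zero h2
  let x : (SQ_Phi.ap.obj (SSt.const PUnit.{u + 1})).Z 0 := ⟨⟨g, Or.inr ⟨PUnit.unit⟩⟩, trivial⟩
  obtain ⟨z, hz⟩ := hs (SGp.cls _ 0 x)
  obtain ⟨y, rfl⟩ := SGp.cls_surj _ 0 z
  have hy : y = 1 := by
    apply Subtype.ext
    apply Subtype.ext
    exact y.1.2.resolve_right hne
  rw [hy, map_one, map_one] at hz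
  have hx := (SGp.cls_eq_one _).1 hz.symm
  rw [SGp.mem_B] at hx
  obtain ⟨b, hb, hb'⟩ := hx
  have h1 : b.1 = 1 := congrArg Subtype.val (hb 0)
  have h2 : b.1 = g := congrArg Subtype.val hb'
  exact hg (h2.symm.trans h1)

/-! ### the pieces -/

/-- simplices of `X`, defined if `P` holds, in `A` if moreover `Q` holds -/
def SQ_F (A : SubS X) (P Q : Prop) : SSt.{u} where
  obj n := {v : P → X.obj n // Q → ∀ h, v h ∈ A.s n}
  map θ v := ⟨fun h => X.map θ (v.1 h), fun q h => A.map_mem θ _ (v.2 q h)⟩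
  map_id n v := Subtype.ext (funext fun h => X.map_id n (v.1 h))
  map_comp f g v := Subtype.ext (funext fun h => X.map_comp f g (v.1 h))

/-- the inclusion -/
def SQ_Fι {A B : SubS X} (hAB : ∀ n x, x ∈ A.s n → x ∈ B.s n) (P Q : Prop) :
    SQ_F A P Q ⟶ SQ_F B P Q :=
  ⟨fun n v => ⟨v.1, fun q h => hAB n _ (v.2 q h)⟩, fun _ _ => rfl⟩

/-- the mapping cone -/
def SQ_W (A : SubS X) : SOb SSt.{u} where
  obj p := SSt.sum fun α : ULift.{u} (Fin (p + 1) →o Bool) =>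
    SQ_F A (∃ i, α.down i = false) (∃ i, α.down i = true)
  map θ :=
    ⟨fun _ w => ⟨⟨w.1.down.comp θ⟩, ⟨fun h => w.2.1 (Exists.elim h fun i hi => ⟨θ i, hi⟩),
      fun k _ => w.2.2 (Exists.elim k fun i hi => ⟨θ i, hi⟩) _⟩⟩, fun _ _ => rfl⟩
  map_id _ := SSt.hom_ext fun _ _ => rfl
  map_comp _ _ := SSt.hom_ext fun _ _ => rfl

/-- the map of mapping cones -/
def SQ_Wι {A B : SubS X} (hAB : ∀ n x, x ∈ A.s n → x ∈ B.s n) : SQ_W A ⟶ SQ_W B :=
  ⟨fun _ => SSt.sumMap fun _ => SQ_Fι hAB _ _, fun _ => SSt.hom_ext fun _ _ => rfl⟩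

/-- the simplices of the mapping cone -/
structure SQ_T (A : SubS X) (p n : ℕ) where
  al : Fin (p + 1) →o Bool
  v : (∃ i, al i = false) → X.obj n
  mem : (∃ i, al i = true) → ∀ h, v h ∈ A.s n

theorem SQ_ext {A : SubS X} {p n : ℕ} {w w' : SQ_T A p n}
    (h : ∀ i, w.al i = w'.al i) (h' : ∀ k k', w.v k = w'.v k') : w = w' := by
  obtain ⟨α, v, hv⟩ := w
  obtain ⟨α', v', hv'⟩ := w'
  obtain rfl : α = α' := OrderHom.ext _ _ (funext h)
  obtain rfl : v = v' := funext fun k => h' k k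
  rfl

/-- operators in the first direction -/
def SQ_res {A : SubS X} {p q n : ℕ} (θ : Mo p q) (w : SQ_T A q n) : SQ_T A p n where
  al := w.al.comp θ
  v h := w.v (Exists.elim h fun i hi => ⟨θ i, hi⟩)
  mem k _ := w.mem (Exists.elim k fun i hi => ⟨θ i, hi⟩) _

/-- operators in the second direction -/
def SQ_map {A : SubS X} {p m n : ℕ} (θ : Mo m n) (w : SQ_T A p n) : SQ_T A p m where
  al := w.al
  v h := X.map θ (w.v h)
  mem k _ := A.map_mem θ _ (w.mem k _)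

/-- simplices -/
def SQ_to {A : SubS X} {p n : ℕ} (w : ((SQ_W A).obj p).obj n) : SQ_T A p n :=
  ⟨w.1.down, w.2.1, w.2.2⟩

/-- simplices -/
def SQ_fr {A : SubS X} {p n : ℕ} (w : SQ_T A p n) : ((SQ_W A).obj p).obj n :=
  ⟨⟨w.al⟩, ⟨w.v, w.mem⟩⟩

theorem SQ_fr_inj {A : SubS X} {p n : ℕ} {w w' : ((SQ_W A).obj p).obj n}
    (h : SQ_to w = SQ_to w') : w = w' := congrArg SQ_fr h

/-! ### the projection to the quotient -/

/-- the operator to the vertex -/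
def SQ_c (n : ℕ) : Mo n 0 := ⟨fun _ => 0, fun _ _ _ => le_rfl⟩

/-- the degeneracies of a vertex -/
def SQ_a (x : X.obj 0) (n : ℕ) : X.obj n := X.map (SQ_c n) x

theorem SQ_map_a (x : X.obj 0) {m n : ℕ} (θ : Mo m n) : X.map θ (SQ_a x n) = SQ_a x m :=
  (X.map_comp θ (SQ_c n) x).symm

/-- the class -/
def SQ_q (A : SubS X) {n : ℕ} (x : X.obj n) : A.quot.obj n := Quot.mk _ x

theorem SQ_q_sound (A : SubS X) {n : ℕ} {x y : X.obj n} (hx : x ∈ A.s n) (hy : y ∈ A.s n) :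
    SQ_q A x = SQ_q A y := Quot.sound ⟨hx, hy⟩

theorem SQ_q_ind (A : SubS X) {n : ℕ} (x : A.quot.obj n) : ∃ y, x = SQ_q A y := by
  obtain ⟨y, hy⟩ := Quot.exists_rep x
  exact ⟨y, hy.symm⟩

theorem SQ_q_map (A : SubS X) {m n : ℕ} (θ : Mo m n) (x : X.obj n) :
    A.quot.map θ (SQ_q A x) = SQ_q A (X.map θ x) := rfl

open Classical in
/-- the projection, for one simplex -/
noncomputable def SQ_k (A : SubS X) (x : X.obj 0) {p n : ℕ} (w : SQ_T A p n) :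
    A.quot.obj n :=
  if h : ∃ i, w.al i = false then SQ_q A (w.v h) else SQ_q A (SQ_a x n)

theorem SQ_k_pos (A : SubS X) (x : X.obj 0) {p n : ℕ} (w : SQ_T A p n)
    (h : ∃ i, w.al i = false) : SQ_k A x w = SQ_q A (w.v h) := dif_pos h

theorem SQ_k_neg (A : SubS X) (x : X.obj 0) {p n : ℕ} (w : SQ_T A p n)
    (h : ¬ ∃ i, w.al i = false) : SQ_k A x w = SQ_q A (SQ_a x n) := dif_neg h

theorem SQ_k_map (A : SubS X) (x : X.obj 0) {p m n : ℕ} (θ : Mo m n)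
    (w : SQ_T A p n) : SQ_k A x (SQ_map θ w) = A.quot.map θ (SQ_k A x w) := by
  by_cases h : ∃ i, w.al i = false
  · rw [SQ_k_pos A x w h, SQ_k_pos A x (SQ_map θ w) h]
    rfl
  · rw [SQ_k_neg A x w h, SQ_k_neg A x (SQ_map θ w) h, SQ_q_map, SQ_map_a]

theorem SQ_k_res (A : SubS X) (x : X.obj 0) (hx : x ∈ A.s 0) {p q n : ℕ} (θ : Mo p q)
    (w : SQ_T A q n) : SQ_k A x (SQ_res θ w) = SQ_k A x w := by
  by_cases h : ∃ i, w.al (θ i) = false
  · rw [SQ_k_pos A x (SQ_res θ w) h, SQ_k_pos A x w (Exists.elim h fun i hi => ⟨θ i, hi⟩)]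
    rfl
  · rw [SQ_k_neg A x (SQ_res θ w) h]
    by_cases h2 : ∃ i, w.al i = false
    · rw [SQ_k_pos A x w h2]
      refine SQ_q_sound A (A.map_mem _ _ hx) (w.mem ⟨θ 0, ?_⟩ h2)
      by_contra h3
      exact h ⟨0, by simpa using h3⟩
    · rw [SQ_k_neg A x w h2]

/-- the projection -/
noncomputable def SQ_K (A : SubS X) (x : X.obj 0) (hx : x ∈ A.s 0) :
    SQ_W A ⟶ SOb.const A.quot :=
  ⟨fun _ => ⟨fun _ w => SQ_k A x (SQ_to w), fun θ w => SQ_k_map A x θ (SQ_to w)⟩,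
    fun θ => SSt.hom_ext fun _ w => SQ_k_res A x hx θ (SQ_to w)⟩

/-- the cone point -/
def SQ_pt (A : SubS X) (p n : ℕ) : SQ_T A p n where
  al := ⟨fun _ => true, fun _ _ _ => le_rfl⟩
  v h := absurd h (by rintro ⟨i, hi⟩; exact Bool.noConfusion hi)
  mem _ h := absurd h (by rintro ⟨i, hi⟩; exact Bool.noConfusion hi)

theorem SQ_pt_al (A : SubS X) (p n : ℕ) (i : Fin (p + 1)) : (SQ_pt A p n).al i = true := rfl

theorem SQ_pt_ne (A : SubS X) (p n : ℕ) : ¬ ∃ i, (SQ_pt A p n).al i = false := by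
  rintro ⟨i, hi⟩
  rw [SQ_pt_al] at hi
  exact Bool.noConfusion hi

/-- the simplices of `X` -/
def SQ_in (A : SubS X) (p : ℕ) {n : ℕ} (x : X.obj n) : SQ_T A p n where
  al := ⟨fun _ => false, fun _ _ _ => le_rfl⟩
  v _ := x
  mem h := absurd h (by rintro ⟨i, hi⟩; exact Bool.noConfusion hi)

theorem SQ_in_al (A : SubS X) (p : ℕ) {n : ℕ} (x : X.obj n) (i : Fin (p + 1)) :
    (SQ_in A p x).al i = false := rfl

theorem SQ_in_v (A : SubS X) (p : ℕ) {n : ℕ} (x : X.obj n) (h) :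
    (SQ_in A p x).v h = x := rfl

open Classical in
/-- the section, for one simplex -/
noncomputable def SQ_s (A : SubS X) (p n : ℕ) : A.quot.obj n → SQ_T A p n :=
  Quot.lift (fun x => if x ∈ A.s n then SQ_pt A p n else SQ_in A p x)
    fun _ _ h => (if_pos h.1).trans (if_pos h.2).symm

theorem SQ_s_pos (A : SubS X) (p n : ℕ) (x : X.obj n) (h : x ∈ A.s n) :
    SQ_s A p n (SQ_q A x) = SQ_pt A p n := if_pos h

theorem SQ_s_neg (A : SubS X) (p n : ℕ) (x : X.obj n) (h : x ∉ A.s n) :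
    SQ_s A p n (SQ_q A x) = SQ_in A p x := if_neg h

theorem SQ_s_res (A : SubS X) {p q n : ℕ} (θ : Mo p q) (y : A.quot.obj n) :
    SQ_s A p n y = SQ_res θ (SQ_s A q n y) := by
  obtain ⟨x, rfl⟩ := SQ_q_ind A y
  by_cases h : x ∈ A.s n
  · rw [SQ_s_pos A p n x h, SQ_s_pos A q n x h]
    exact SQ_ext (fun i => rfl) fun k k' => absurd k (SQ_pt_ne A p n)
  · rw [SQ_s_neg A p n x h, SQ_s_neg A q n x h]
    rfl

/-- the section on a column -/
noncomputable def SQ_S (A : SubS X) (n : ℕ) :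
    SSt.col (SOb.const A.quot) n ⟶ SSt.col (SQ_W A) n :=
  ⟨fun p x => SQ_fr (SQ_s A p n x), fun θ x => congrArg SQ_fr (SQ_s_res A θ x)⟩

theorem SQ_ks (A : SubS X) (x : X.obj 0) (hx : x ∈ A.s 0) (p n : ℕ) (y : A.quot.obj n) :
    SQ_k A x (SQ_s A p n y) = y := by
  obtain ⟨z, rfl⟩ := SQ_q_ind A y
  by_cases h : z ∈ A.s n
  · rw [SQ_s_pos A p n z h, SQ_k_neg A x _ (SQ_pt_ne A p n)]
    exact SQ_q_sound A (A.map_mem _ _ hx) h
  · rw [SQ_s_neg A p n z h, SQ_k_pos A x _ ⟨0, SQ_in_al A p z 0⟩]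
    rfl

theorem SQ_SK (A : SubS X) (x : X.obj 0) (hx : x ∈ A.s 0) (n : ℕ) :
    SQ_S A n ≫ SSt.colMap (SQ_K A x hx) n = 𝟙 _ :=
  SSt.hom_ext fun p y => SQ_ks A x hx p n y

/-- the disjunction -/
def SQ_or {p : ℕ} (α β : Fin (p + 1) →o Bool) : Fin (p + 1) →o Bool :=
  ⟨fun i => α i ⊔ β i, fun _ _ hij => sup_le_sup (α.monotone hij) (β.monotone hij)⟩

theorem SQ_or_app {p : ℕ} (α β : Fin (p + 1) →o Bool) (i : Fin (p + 1)) :
    SQ_or α β i = (α i || β i) := rfl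

theorem SQ_or_left {p : ℕ} (α β : Fin (p + 1) →o Bool) (h : ∃ i, SQ_or α β i = false) :
    ∃ i, α i = false := by
  obtain ⟨i, hi⟩ := h
  rw [SQ_or_app, Bool.or_eq_false_iff] at hi
  exact ⟨i, hi.1⟩

/-- the homotopy, for a simplex of `A` -/
def SQ_g {A : SubS X} {p n : ℕ} (β : Fin (p + 1) →o Bool) (w : SQ_T A p n)
    (c : ∀ h, w.v h ∈ A.s n) : SQ_T A p n where
  al := SQ_or w.al β
  v h := w.v (SQ_or_left _ _ h)
  mem _ _ := c _

open Classical in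
/-- the homotopy, for one simplex -/
noncomputable def SQ_h {A : SubS X} {p n : ℕ} (β : Fin (p + 1) →o Bool)
    (w : SQ_T A p n) : SQ_T A p n :=
  if c : ∀ h, w.v h ∈ A.s n then SQ_g β w c else w

theorem SQ_h_pos {A : SubS X} {p n : ℕ} (β : Fin (p + 1) →o Bool)
    (w : SQ_T A p n) (c : ∀ h, w.v h ∈ A.s n) : SQ_h β w = SQ_g β w c :=
  dif_pos c

theorem SQ_h_neg {A : SubS X} {p n : ℕ} (β : Fin (p + 1) →o Bool)
    (w : SQ_T A p n) (c : ¬ ∀ h, w.v h ∈ A.s n) : SQ_h β w = w :=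
  dif_neg c

theorem SQ_false {A : SubS X} {p n : ℕ} (w : SQ_T A p n)
    (c : ¬ ∀ h, w.v h ∈ A.s n) (i : Fin (p + 1)) : w.al i = false := by
  by_contra hi
  exact c (w.mem ⟨i, by simpa using hi⟩)

theorem SQ_h_nat {A : SubS X} {p q n : ℕ} (θ : Mo p q) (β : Fin (q + 1) →o Bool)
    (w : SQ_T A q n) :
    SQ_h (β.comp θ) (SQ_res θ w) = SQ_res θ (SQ_h β w) := by
  by_cases c : ∀ h, w.v h ∈ A.s n
  · rw [SQ_h_pos β w c, SQ_h_pos (β.comp θ) (SQ_res θ w) fun h => c _]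
    rfl
  · have hf := SQ_false w c
    have c' : ¬ ∀ h, (SQ_res θ w).v h ∈ A.s n := by
      intro c'
      apply c
      intro h
      exact c' ⟨0, hf _⟩
    rw [SQ_h_neg β w c, SQ_h_neg _ _ c']

theorem SQ_h_zero {A : SubS X} {p n : ℕ} (β : Fin (p + 1) →o Bool) (w : SQ_T A p n)
    (hβ : ∀ i, β i = false) : SQ_h β w = w := by
  by_cases c : ∀ h, w.v h ∈ A.s n
  · rw [SQ_h_pos β w c]
    refine SQ_ext (fun i => ?_) fun k k' => rfl
    change (w.al i || β i) = w.al i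
    rw [hβ, Bool.or_false]
  · exact SQ_h_neg β w c

theorem SQ_h_one {A : SubS X} (x : X.obj 0) (hx : x ∈ A.s 0) {p n : ℕ}
    (β : Fin (p + 1) →o Bool) (w : SQ_T A p n) (hβ : ∀ i, β i = true) :
    SQ_h β w = SQ_s A p n (SQ_k A x w) := by
  by_cases c : ∀ h, w.v h ∈ A.s n
  · have e : ∃ y, y ∈ A.s n ∧ SQ_k A x w = SQ_q A y := by
      by_cases h : ∃ i, w.al i = false
      · exact ⟨w.v h, c h, SQ_k_pos A x w h⟩
      · exact ⟨SQ_a x n, A.map_mem _ _ hx, SQ_k_neg A x w h⟩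
    obtain ⟨y, hy, e⟩ := e
    rw [e, SQ_s_pos A p n y hy, SQ_h_pos β w c]
    refine SQ_ext (fun i => ?_) fun k k' => absurd k' (SQ_pt_ne A p n)
    change (w.al i || β i) = true
    rw [hβ, Bool.or_true]
  · have hf := SQ_false w c
    have h : ∃ i, w.al i = false := ⟨0, hf 0⟩
    have hy : w.v h ∉ A.s n := fun hh => c fun _ => hh
    rw [SQ_h_neg β w c, SQ_k_pos A x w h, SQ_s_neg A p n _ hy]
    exact SQ_ext (fun i => hf i) fun k k' => rfl

/-- the homotopy on a column -/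
noncomputable def SQ_H (A : SubS X) (x : X.obj 0) (hx : x ∈ A.s 0) (n : ℕ) :
    SSt.Htpy (𝟙 (SSt.col (SQ_W A) n)) (SSt.colMap (SQ_K A x hx) n ≫ SQ_S A n) where
  h _ β w := SQ_fr (SQ_h β (SQ_to w))
  nat θ β w := congrArg SQ_fr (SQ_h_nat θ β (SQ_to w))
  h0 _ β w hβ := congrArg SQ_fr (SQ_h_zero β (SQ_to w) hβ)
  h1 _ β w hβ := congrArg SQ_fr (SQ_h_one x hx β (SQ_to w) hβ)

/-! ### the theorem -/

/-- isomorphisms are strong -/
theorem SQ_iso (hHt : St_StrHt.{u}) {X Y : SSt.{u}} (f : X ⟶ Y) (g : Y ⟶ X) (h : f ≫ g = 𝟙 X)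
    (h' : g ≫ f = 𝟙 Y) : SSt.Strong f :=
  hHt.2.1 f g (fun Φ n => by rw [h]) fun Φ n => by rw [h']

/-- the degeneracies of a vertex, as a simplicial subset -/
def SQ_P (x : X.obj 0) : SubS X where
  s n := {SQ_a x n}
  map_mem {m n} θ y hy := by
    rw [Set.mem_singleton_iff] at hy ⊢
    rw [hy, SQ_map_a]

/-- the mapping cone of a simplicial subset: the map to the quotient -/
noncomputable def SQ_D (A : SubS X) (x : X.obj 0) (hx : x ∈ A.s 0) :
    SSt.diag (SQ_W A) ⟶ A.quot := SSt.diagF.map (SQ_K A x hx)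

theorem SQ_diag (hCol : St_StrCol.{u}) (hHt : St_StrHt.{u}) (A : SubS X) (x : X.obj 0)
    (hx : x ∈ A.s 0) : SSt.Strong (SQ_D A x hx) := by
  refine hCol (SQ_K A x hx) fun n => ?_
  refine hHt.2.1 _ (SQ_S A n) (fun Φ m => ?_) fun Φ m => ?_
  · exact (hHt.1 _ _ ⟨SQ_H A x hx n⟩ Φ m).symm
  · rw [SQ_SK]

/-- the pieces are contractible -/
theorem SQ_F_contr (h23 : St_Str23.{u}) (hHt : St_StrHt.{u}) (A : SubS X) (hA : SSt.Contr A.S)
    (P Q : Prop) (h : P → Q) : SSt.Contr (SQ_F A P Q) := by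
  by_cases hP : P
  · have hQ := h hP
    let f : SQ_F A P Q ⟶ A.S := ⟨fun n v => ⟨v.1 hP, v.2 hQ hP⟩, fun _ _ => rfl⟩
    let g : A.S ⟶ SQ_F A P Q := ⟨fun n v => ⟨fun _ => v.1, fun _ _ => v.2⟩, fun _ _ => rfl⟩
    exact h23.1 f A.S.toPt (SQ_iso hHt f g rfl rfl) hA
  · let g : SSt.const PUnit.{u + 1} ⟶ SQ_F A P Q :=
      ⟨fun n _ => ⟨fun k => absurd k hP, fun _ k => absurd k hP⟩, fun _ _ =>
        Subtype.ext (funext fun k => absurd k hP)⟩
    exact SQ_iso hHt _ g (SSt.hom_ext fun n v => Subtype.ext (funext fun k => absurd k hP)) rfl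

/-- the maps of the pieces are strong -/
theorem SQ_piece (h23 : St_Str23.{u}) (hHt : St_StrHt.{u}) {A B : SubS X}
    (hAB : ∀ n x, x ∈ A.s n → x ∈ B.s n) (hA : SSt.Contr A.S) (hB : SSt.Contr B.S)
    (P Q : Prop) : SSt.Strong (SQ_Fι hAB P Q) := by
  by_cases h : P → Q
  · exact h23.2.2.1 (SQ_Fι hAB P Q) (SSt.toPt _) (SQ_F_contr h23 hHt B hB P Q h)
      (SQ_F_contr h23 hHt A hA P Q h)
  · have hQ : ¬ Q := fun k => h fun _ => k
    let g : SQ_F B P Q ⟶ SQ_F A P Q := ⟨fun n v => ⟨v.1, fun q => absurd q hQ⟩, fun _ _ => rfl⟩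
    exact SQ_iso hHt _ g rfl rfl

/-- the map of diagonals -/
def SQ_E {A B : SubS X} (hAB : ∀ n x, x ∈ A.s n → x ∈ B.s n) :
    SSt.diag (SQ_W A) ⟶ SSt.diag (SQ_W B) := SSt.diagF.map (SQ_Wι hAB)

theorem SQ_row (hSum : St_StrSum.{u}) (h23 : St_Str23.{u})
    (hHt : St_StrHt.{u}) {A B : SubS X} (hAB : ∀ n x, x ∈ A.s n → x ∈ B.s n)
    (hA : SSt.Contr A.S) (hB : SSt.Contr B.S) (p : ℕ) : SSt.Strong ((SQ_Wι hAB).app p) := by
  have h := hSum (fun α : ULift.{u} (Fin (p + 1) →o Bool) =>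
    SQ_Fι hAB (∃ i, α.down i = false) (∃ i, α.down i = true))
    fun α => SQ_piece h23 hHt hAB hA hB _ _
  exact h

theorem SQ_rows (hRow : St_StrRow.{u}) (hSum : St_StrSum.{u}) (h23 : St_Str23.{u})
    (hHt : St_StrHt.{u}) {A B : SubS X} (hAB : ∀ n x, x ∈ A.s n → x ∈ B.s n)
    (hA : SSt.Contr A.S) (hB : SSt.Contr B.S) : SSt.Strong (SQ_E hAB) :=
  hRow (SQ_Wι hAB) (SQ_row hSum h23 hHt hAB hA hB)

theorem SQ_a_zero (x : X.obj 0) : SQ_a x 0 = x := by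
  have h : SQ_c 0 = (OrderHom.id : Mo 0 0) := by
    refine OrderHom.ext _ _ (funext fun i => ?_)
    apply Fin.ext
    change 0 = i.1
    omega
  rw [SQ_a, h, X.map_id]

/-- the map of quotients -/
def SQ_quot {A B : SubS X} (hAB : ∀ n x, x ∈ A.s n → x ∈ B.s n) : A.quot ⟶ B.quot :=
  ⟨fun n => Quot.map (fun y => y) fun y z h => ⟨hAB n y h.1, hAB n z h.2⟩, fun θ y => by
    induction y using Quot.ind
    rfl⟩

theorem SQ_quot_q {A B : SubS X} (hAB : ∀ n x, x ∈ A.s n → x ∈ B.s n) {n : ℕ} (x : X.obj n) :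
    (SQ_quot hAB).app n (SQ_q A x) = SQ_q B x := rfl

theorem SQ_k_quot {A B : SubS X} (hAB : ∀ n x, x ∈ A.s n → x ∈ B.s n) (x : X.obj 0) {n : ℕ}
    (w : ((SQ_W A).obj n).obj n) :
    SQ_k B x (SQ_to (((SQ_Wι hAB).app n).app n w)) = (SQ_quot hAB).app n (SQ_k A x (SQ_to w)) := by
  by_cases h : ∃ i, (SQ_to w).al i = false
  · rw [SQ_k_pos A x _ h, SQ_quot_q]
    exact SQ_k_pos B x _ h
  · rw [SQ_k_neg A x _ h, SQ_quot_q]
    exact SQ_k_neg B x _ h

theorem thm_StrPair (hRow : St_StrRow.{u}) (hCol : St_StrCol.{u}) (hSum : St_StrSum.{u})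
    (h23 : St_Str23.{u}) (hHt : St_StrHt.{u}) : St_StrPair.{u} := by
  intro X A hA
  obtain ⟨x, hx⟩ := SQ_nonempty A.S hA
  have hPA : ∀ n y, y ∈ (SQ_P x).s n → y ∈ A.s n := by
    intro n y hy
    obtain rfl : y = SQ_a x n := hy
    exact A.map_mem _ _ hx
  have hxP : x ∈ (SQ_P x).s 0 := (SQ_a_zero x).symm
  have hP : SSt.Contr (SQ_P x).S := by
    let g : SSt.const PUnit.{u + 1} ⟶ (SQ_P x).S :=
      ⟨fun n _ => ⟨SQ_a x n, rfl⟩, fun {m n} θ _ => Subtype.ext (SQ_map_a x θ).symm⟩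
    exact SQ_iso hHt _ g (SSt.hom_ext fun n y => Subtype.ext y.2.symm) rfl
  have e : SQ_E hPA ≫ SQ_D A x hx = SQ_D (SQ_P x) x hxP ≫ SQ_quot hPA :=
    SSt.hom_ext fun n w => SQ_k_quot hPA x w
  have hq : SSt.Strong (SQ_quot hPA) := by
    refine h23.2.1 (SQ_D (SQ_P x) x hxP) (SQ_quot hPA) (SQ_diag hCol hHt (SQ_P x) x hxP) ?_
    rw [← e]
    exact h23.1 _ _ (SQ_rows hRow hSum h23 hHt hPA hP hA) (SQ_diag hCol hHt A x hx)
  let r : (SQ_P x).quot ⟶ X :=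
    ⟨fun n => Quot.lift (fun y => y) fun y z h => h.1.trans h.2.symm, fun θ y => by
      induction y using Quot.ind
      rfl⟩
  have hπ : SSt.Strong (SQ_P x).π := SQ_iso hHt _ r rfl (SSt.hom_ext fun n y => by
    induction y using Quot.ind
    rfl)
  exact h23.1 (SQ_P x).π (SQ_quot hPA) hπ hq

end SQ

end Pool.Agent.KQ
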