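import Pool.Agent.KQ.StStr

/-!
# KQ: strong maps and directed unions
-/

set_option autoImplicit false

namespace Pool.Agent.KQ

open CategoryTheory Function

universe u v w

/-- functors to groups are injective on maps with a left inverse -/
theorem SU_inj (Φ : FGr.{u}) {P Q : Type u} (f : P → Q) (r : Q → P) (h : ∀ p, r (f p) = p) :
    Injective (Φ.map f) := by
  have key : ∀ x : Φ.obj P, Φ.map r (Φ.map f x) = x := by
    intro x
    rw [← Φ.map_comp, show (fun a => r (f a)) = fun a => a from funext h, Φ.map_id]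
  intro x y hxy
  rw [← key x, hxy, key y]

/-- nonempty in all degrees in which `X` is not empty -/
def SU_Good {X : SSt.{u}} (A : SubS X) : Prop := ∀ n, (A.s n).Nonempty ∨ IsEmpty (X.obj n)

theorem SU_ret {X : SSt.{u}} {A : SubS X} (hA : SU_Good A) (n : ℕ) :
    ∃ r : X.obj n → A.S.obj n, ∀ p : A.S.obj n, r (A.ι.app n p) = p := by
  classical
  rcases hA n with ⟨s0, hs0⟩ | hE
  · refine ⟨fun x => if h : x ∈ A.s n then ⟨x, h⟩ else ⟨s0, hs0⟩, fun p => ?_⟩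
    exact dif_pos p.2
  · exact ⟨fun x => (hE.false x).elim, fun p => (hE.false p.1).elim⟩

/-- the element comes from the simplicial subset -/
def SU_Lf (Φ : FGr.{u}) {X : SSt.{u}} (A : SubS X) (n : ℕ) (z : Φ.obj (X.obj n)) : Prop :=
  ∃ y : Φ.obj (A.S.obj n), Φ.map (A.ι.app n) y = z

theorem SU_up (Φ : FGr.{u}) {X : SSt.{u}} {A A' : SubS X} {n : ℕ}
    (h : ∀ x, x ∈ A.s n → x ∈ A'.s n) {z : Φ.obj (X.obj n)} (hz : SU_Lf Φ A n z) :
    SU_Lf Φ A' n z := by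
  obtain ⟨y, rfl⟩ := hz
  refine ⟨Φ.map (fun p : A.S.obj n => (⟨p.1, h _ p.2⟩ : A'.s n)) y, ?_⟩
  exact (Φ.map_comp _ _ _).symm

theorem SU_fin {X : SSt.{u}} {J : Type u} (le : J → J → Prop)
    (htr : ∀ a b c, le a b → le b c → le a c) (hdir : ∀ i j, ∃ k, le i k ∧ le j k)
    (A : J → SubS X) (hmono : ∀ i k, le i k → ∀ n x, x ∈ (A i).s n → x ∈ (A k).s n)
    (hcov : ∀ n x, ∃ j, x ∈ (A j).s n) (n : ℕ) (S : Set (X.obj n)) (hS : S.Finite) (j0 : J) :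
    ∃ k, le j0 k ∧ ∀ x ∈ S, x ∈ (A k).s n := by
  induction S, hS using Set.Finite.induction_on with
  | empty =>
    obtain ⟨k, h, -⟩ := hdir j0 j0
    exact ⟨k, h, fun x hx => absurd hx (Set.notMem_empty x)⟩
  | @insert a S ha hS ih =>
    obtain ⟨k1, h1, h2⟩ := ih
    obtain ⟨j, hj⟩ := hcov n a
    obtain ⟨k, h3, h4⟩ := hdir k1 j
    refine ⟨k, htr _ _ _ h1 h3, fun x hx => ?_⟩
    rcases hx with rfl | hx
    · exact hmono _ _ h4 n _ hj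
    · exact hmono _ _ h3 n _ (h2 x hx)

theorem SU_lift (Φ : FGr.{u}) {X : SSt.{u}} {J : Type u} (le : J → J → Prop)
    (htr : ∀ a b c, le a b → le b c → le a c) (hdir : ∀ i j, ∃ k, le i k ∧ le j k)
    (A : J → SubS X) (hmono : ∀ i k, le i k → ∀ n x, x ∈ (A i).s n → x ∈ (A k).s n)
    (hcov : ∀ n x, ∃ j, x ∈ (A j).s n) (n : ℕ) (z : Φ.obj (X.obj n)) (j0 : J) :
    ∃ k, le j0 k ∧ SU_Lf Φ (A k) n z := by
  obtain ⟨S, hS, y, rfl⟩ := Φ.fin z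
  obtain ⟨k, hk, h⟩ := SU_fin le htr hdir A hmono hcov n S hS j0
  refine ⟨k, hk, Φ.map (fun s : S => (⟨s.1, h _ s.2⟩ : (A k).s n)) y, ?_⟩
  exact (Φ.map_comp _ _ _).symm

/-- the constant operator -/
def SU_c (n : ℕ) : Mo n 0 := ⟨fun _ => 0, fun _ _ _ => le_rfl⟩

theorem SU_good {X : SSt.{u}} {J : Type u} [Nonempty J] (A : J → SubS X)
    (hcov : ∀ n x, ∃ j, x ∈ (A j).s n) :
    ∃ j0, ∀ k, (∀ n x, x ∈ (A j0).s n → x ∈ (A k).s n) → SU_Good (A k) := by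
  by_cases h : Nonempty (X.obj 0)
  · obtain ⟨x0⟩ := h
    obtain ⟨j0, hj⟩ := hcov 0 x0
    exact ⟨j0, fun k hk n => Or.inl ⟨X.map (SU_c n) x0, (A k).map_mem _ _ (hk 0 x0 hj)⟩⟩
  · exact ⟨Classical.arbitrary J, fun k _ n => Or.inr ⟨fun x => h ⟨X.map (v0 n) x⟩⟩⟩

/-- elements which become cycles are cycles -/
theorem SU_Z (Φ : FGr.{u}) {X : SSt.{u}} {A : SubS X} (hA : SU_Good A) {n : ℕ}
    {y : (Φ.ap.obj A.S).obj n} (h : (Φ.ap.map A.ι).app n y ∈ (Φ.ap.obj X).Z n) :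
    y ∈ (Φ.ap.obj A.S).Z n := by
  cases n with
  | zero => trivial
  | succ n =>
    rw [SGp.mem_Z_succ] at h ⊢
    intro i
    obtain ⟨r, hr⟩ := SU_ret hA n
    refine SU_inj Φ (A.ι.app n) r hr ?_
    have h1 := h i
    rw [← (Φ.ap.map A.ι).nat] at h1
    exact h1.trans (map_one _).symm

/-- cycles which come from a good simplicial subset: homotopy classes -/
theorem SU_cls (Φ : FGr.{u}) {X : SSt.{u}} {A : SubS X} (hA : SU_Good A) {n : ℕ}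
    (z : (Φ.ap.obj X).Z n) (h : SU_Lf Φ A n z.1) :
    ∃ y : (Φ.ap.obj A.S).Z n, SGp.Zmap (Φ.ap.map A.ι) n y = z := by
  obtain ⟨y, hy⟩ := h
  have h1 : (Φ.ap.map A.ι).app n y = z.1 := hy
  exact ⟨⟨y, SU_Z Φ hA (by rw [h1]; exact z.2)⟩, Subtype.ext h1⟩

theorem SU_first {X Y : SSt.{u}} {J : Type u} [Nonempty J] (A : J → SubS X)
    (hdir : ∀ i j, ∃ k, (∀ n x, x ∈ (A i).s n ∨ x ∈ (A j).s n → x ∈ (A k).s n))
    (hcov : ∀ n x, ∃ j, x ∈ (A j).s n) (e e' : X ⟶ Y)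
    (h : ∀ j, SSt.StrEq ((A j).ι ≫ e) ((A j).ι ≫ e')) : SSt.StrEq e e' := by
  intro Φ n
  refine MonoidHom.ext fun x => ?_
  obtain ⟨z, rfl⟩ := SGp.cls_surj _ n x
  let le : J → J → Prop := fun i k => ∀ n x, x ∈ (A i).s n → x ∈ (A k).s n
  have htr : ∀ a b c, le a b → le b c → le a c := fun a b c h1 h2 n x hx => h2 n x (h1 n x hx)
  have hd : ∀ i j, ∃ k, le i k ∧ le j k := fun i j => by
    obtain ⟨k, hk⟩ := hdir i j
    exact ⟨k, fun n x hx => hk n x (Or.inl hx), fun n x hx => hk n x (Or.inr hx)⟩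
  obtain ⟨j0, hj0⟩ := SU_good A hcov
  obtain ⟨k, hk, hL⟩ := SU_lift Φ le htr hd A (fun i k h => h) hcov n z.1 j0
  obtain ⟨y, hy⟩ := SU_cls Φ (hj0 k hk) z hL
  have h1 : ∀ g : X ⟶ Y, SGp.PiMap (Φ.ap.map g) n ((Φ.ap.obj X).cls n z) =
      SGp.PiMap (Φ.ap.map ((A k).ι ≫ g)) n ((Φ.ap.obj (A k).S).cls n y) := by
    intro g
    rw [Φ.ap.map_comp, SGp.PiMap_comp, SGp.PiMap_cls (Φ.ap.map (A k).ι), hy]
  rw [h1, h1, h k Φ n]

theorem thm_StrUnion : St_StrUnion.{u} := by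
  refine ⟨fun A hdir hcov e e' h => SU_first A hdir hcov e e' h, ?_⟩
  intro X Y J _ A B f h hdir hA hB hs Φ n
  let le : J → J → Prop := fun i k => (∀ n x, x ∈ (A i).s n → x ∈ (A k).s n) ∧
    ∀ n x, x ∈ (B i).s n → x ∈ (B k).s n
  have htr : ∀ a b c, le a b → le b c → le a c := fun a b c h1 h2 =>
    ⟨fun n x hx => h2.1 n x (h1.1 n x hx), fun n x hx => h2.2 n x (h1.2 n x hx)⟩
  have hd : ∀ i j, ∃ k, le i k ∧ le j k := fun i j => by
    obtain ⟨k, hk, hk'⟩ := hdir i j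
    exact ⟨k, ⟨fun n x hx => hk n x (Or.inl hx), fun n x hx => hk' n x (Or.inl hx)⟩,
      ⟨fun n x hx => hk n x (Or.inr hx), fun n x hx => hk' n x (Or.inr hx)⟩⟩
  obtain ⟨jA, hjA⟩ := SU_good A hA
  obtain ⟨jB, hjB⟩ := SU_good B hB
  obtain ⟨j0, h0A, h0B⟩ := hd jA jB
  have hgA : ∀ k, le j0 k → SU_Good (A k) := fun k hk => hjA k (htr _ _ _ h0A hk).1
  have hgB : ∀ k, le j0 k → SU_Good (B k) := fun k hk => hjB k (htr _ _ _ h0B hk).2
  have hsq : ∀ k, (A k).ι ≫ f = SubS.mapS f (A k) (B k) (h k) ≫ (B k).ι := fun k => rfl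
  have hsq' : ∀ k (y : (Φ.ap.obj (A k).S).Pi n),
      SGp.PiMap (Φ.ap.map f) n (SGp.PiMap (Φ.ap.map (A k).ι) n y) =
        SGp.PiMap (Φ.ap.map (B k).ι) n
          (SGp.PiMap (Φ.ap.map (SubS.mapS f (A k) (B k) (h k))) n y) := fun k y => by
    rw [← SGp.PiMap_comp, ← SGp.PiMap_comp, ← Φ.ap.map_comp, ← Φ.ap.map_comp, hsq]
  constructor
  · rw [injective_iff_map_eq_one]
    intro x hx
    obtain ⟨z, rfl⟩ := SGp.cls_surj _ n x
    rw [SGp.PiMap_cls, SGp.cls_eq_one, SGp.mem_B] at hx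
    obtain ⟨w, hw, hw0⟩ := hx
    obtain ⟨k1, hk1, hL1⟩ := SU_lift Φ le htr hd A (fun i k h => h.1) hA n z.1 j0
    obtain ⟨k, hk, hL2⟩ := SU_lift Φ le htr hd B (fun i k h => h.2) hB (n + 1) w k1
    have hk0 := htr _ _ _ hk1 hk
    obtain ⟨y, hy⟩ := SU_cls Φ (hgA k hk0) z (SU_up Φ (hk.1 n) hL1)
    obtain ⟨v, hv⟩ := hL2
    have hv' : (Φ.ap.map (B k).ι).app (n + 1) v = w := hv
    obtain ⟨r, hr⟩ := SU_ret (hgB k hk0) n
    have hinj : Injective ((Φ.ap.map (B k).ι).app n) := SU_inj Φ ((B k).ι.app n) r hr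
    have h1 : (Φ.ap.obj (A k).S).cls n y = 1 := by
      refine (injective_iff_map_eq_one _).1 (hs k Φ n).1 _ ?_
      rw [SGp.PiMap_cls, SGp.cls_eq_one, SGp.mem_B]
      refine ⟨v, fun i => hinj ?_, hinj ?_⟩
      · have h2 := (Φ.ap.map (B k).ι).nat (dl i.succ) v
        rw [h2, hv', hw i, map_one]
      · have h2 := (Φ.ap.map (B k).ι).nat (dl 0) v
        rw [h2, hv', hw0, ← hy]
        change (Φ.ap.map f).app n ((Φ.ap.map (A k).ι).app n y.1) =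
          (Φ.ap.map (B k).ι).app n ((Φ.ap.map (SubS.mapS f (A k) (B k) (h k))).app n y.1)
        rw [← SGp.comp_app, ← SGp.comp_app, ← Φ.ap.map_comp, ← Φ.ap.map_comp, hsq]
    rw [← hy, ← SGp.PiMap_cls, h1, map_one]
  · intro x
    obtain ⟨z, rfl⟩ := SGp.cls_surj _ n x
    obtain ⟨k, hk, hL⟩ := SU_lift Φ le htr hd B (fun i k h => h.2) hB n z.1 j0
    obtain ⟨y, hy⟩ := SU_cls Φ (hgB k hk) z hL
    obtain ⟨x', hx'⟩ := (hs k Φ n).2 ((Φ.ap.obj (B k).S).cls n y)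
    refine ⟨SGp.PiMap (Φ.ap.map (A k).ι) n x', ?_⟩
    rw [hsq', hx', SGp.PiMap_cls, hy]

end Pool.Agent.KQ
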