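import Pool.Agent.KQ.StSG

/-!
# KQ, module UP: connectivity of the diagonal goes up by one

`thm_Up (hBd : St_Bd) (hBd0 : St_Bd0) (hS : St_Split) (hD : St_Dec) (hReal : St_Real) : St_Up`.
-/

set_option autoImplicit false

namespace Pool.Agent.KQ

open CategoryTheory Function

universe u

/-- the homotopy groups of a trivial simplicial group are trivial -/
theorem up_triv {G : SGp.{u}} (h : ∀ n (x : G.obj n), x = 1) (j : ℕ) (x : G.Pi j) : x = 1 := by
  obtain ⟨x, rfl⟩ := G.cls_surj j x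
  have : x = 1 := Subtype.ext (h j x.1)
  rw [this, map_one]

/-- an injective map to a trivial group -/
theorem up_inj {G H : SGp.{u}} (f : G ⟶ H) {j : ℕ} (hf : Injective (SGp.PiMap f j))
    (h : ∀ y : H.Pi j, y = 1) (x : G.Pi j) : x = 1 := by
  refine hf ?_
  rw [map_one]
  exact h _

/-- the section of the projection of the decalage, on a row -/
theorem up_split (G : SOb SGp.{u}) (m : ℕ) :
    G.map (sg (0 : Fin (m + 1))) ≫ G.decπ.app m = 𝟙 (G.obj m) := by
  change G.map (sg (0 : Fin (m + 1))) ≫ G.map (dl 0) = _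
  rw [← G.map_comp, dl_zero_comp_sg_zero, G.map_id]

/-- the map of a bisimplicial group to the trivial one -/
def upMap (G : SOb SGp.{u}) : G ⟶ SOb.const (SGp.const PUnit.{u + 1}) where
  app _ := ⟨fun _ => 1, fun _ _ => rfl⟩
  nat _ := rfl

theorem up_diag {c : ℕ} (hReal : St_Real.{u}) (G : SOb SGp.{u}) (h : ∀ m, SGp.Triv c (G.obj m)) :
    SGp.Triv c (SGp.diag G) := by
  have h1 : SGp.Conn c (SGp.diagF.map (upMap G)) := by
    refine hReal c (upMap G) fun m => ⟨fun j hj => ⟨fun x y _ => ?_, fun y => ⟨1, ?_⟩⟩,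
      fun y => ⟨1, ?_⟩⟩
    · rw [h m j hj x, h m j hj y]
    · rw [map_one]
      exact (up_triv (G := SGp.const PUnit.{u + 1}) (fun _ _ => rfl) j y).symm
    · rw [map_one]
      exact (up_triv (G := SGp.const PUnit.{u + 1}) (fun _ _ => rfl) c y).symm
  exact fun j hj x => up_inj (SGp.diagF.map (upMap G)) (h1.1 j hj).1
    (up_triv (G := SGp.diag (SOb.const (SGp.const PUnit.{u + 1}))) (fun _ _ => rfl) j) x

/-- the inverse of `kerDiag` -/
def upKer {G H : SOb SGp.{u}} (f : G ⟶ H) : SGp.ker (SGp.diagF.map f) ⟶ SGp.diag (kerB f) :=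
  ⟨fun _ => MonoidHom.id _, fun _ _ => rfl⟩

theorem up_ker {G H : SOb SGp.{u}} (f : G ⟶ H) : upKer f ≫ kerDiag f = 𝟙 _ := rfl

/-- Connectivity goes up by one. -/
theorem thm_Up (hBd : St_Bd.{u}) (hBd0 : St_Bd0.{u}) (hS : St_Split.{u}) (hD : St_Dec.{u})
    (hReal : St_Real.{u}) : St_Up.{u} := by
  intro c G h0 hG
  have hsurj : ∀ n, Surjective ((SGp.diagF.map G.decπ).app n) := by
    intro n x
    refine ⟨(G.map (sg (0 : Fin (n + 1)))).app n x, ?_⟩
    have h1 := congrArg (fun e : G.obj n ⟶ G.obj n => e.app n x) (up_split G n)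
    exact h1
  have hΩ : ∀ m, SGp.Triv c ((kerB G.decπ).obj m) := fun m j hj x =>
    up_inj (SGp.kerι (G.decπ.app m))
      (hS (G.decπ.app m) (G.map (sg (0 : Fin (m + 1)))) (up_split G m) j).1
      (hG (m + 1) j hj) x
  have hker : SGp.Triv c (SGp.ker (SGp.diagF.map G.decπ)) := by
    intro j hj x
    have h1 := SGp.PiMap_comp (upKer G.decπ) (kerDiag G.decπ) j x
    rw [up_ker, SGp.PiMap_id, up_diag hReal _ hΩ j hj (SGp.PiMap (upKer G.decπ) j x),
      map_one] at h1
    exact h1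
  have hE : ∀ j (e : (SGp.diagF.obj G.dec).Pi j), e = 1 := fun j e =>
    up_inj (decAug G) (hD G j).1 (up_triv h0 j) e
  intro j hj x
  cases j with
  | zero =>
    obtain ⟨e, rfl⟩ := (hBd0 (SGp.diagF.map G.decπ) hsurj).2 x
    rw [hE 0 e, map_one]
    rfl
  | succ j =>
    obtain ⟨δ, -, h1, -⟩ := hBd (SGp.diagF.map G.decπ) hsurj j
    obtain ⟨e, he⟩ := (h1 x).1 (hker j (by omega) _)
    rw [hE (j + 1) e, map_one] at he
    exact he.symm

end Pool.Agent.KQ
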