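import Pool.Agent.KQ.FB
import Pool.Agent.KQ.PF
import Pool.Agent.KQ.BD
import Pool.Agent.KQ.HT
import Pool.Agent.KQ.CM
import Pool.Agent.KQ.DC
import Pool.Agent.KQ.RL
import Pool.Agent.KQ.UP
import Pool.Agent.KQ.LW
import Pool.Agent.KQ.CR
import Pool.Agent.KQ.PR
import Pool.Agent.KQ.SH
import Pool.Agent.KQ.SR
import Pool.Agent.KQ.SU
import Pool.Agent.KQ.SS
import Pool.Agent.KQ.SF
import Pool.Agent.KQ.SQ
import Pool.Agent.KQ.SP

/-!
# KQ: the theorems on simplicial groups and strong maps, without hypotheses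
-/

set_option autoImplicit false

namespace Pool.Agent.KQ

open CategoryTheory Function

universe u v w

theorem all_Dec : St_Dec.{u} := thm_Dec thm_Htpy

theorem all_Real : St_Real.{u} := thm_Real thm_Bd thm_Bd0 thm_BdNat thm_Split all_Dec

theorem all_RealW : St_RealW.{u} := thm_RealW thm_Bd thm_Bd0 thm_BdNat thm_Split all_Dec

theorem all_Up : St_Up.{u} := thm_Up thm_Bd thm_Bd0 thm_Split all_Dec all_Real

theorem all_Low : St_Low.{u, v, w} := thm_Low all_Up

theorem all_Cross : St_Cross.{u, v, w} := thm_Cross all_Up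

theorem all_Prod : St_Prod.{u, v, w} := thm_Prod thm_Bd thm_Bd0 all_Cross

theorem all_StrHt : St_StrHt.{u} := thm_StrHt thm_Htpy

theorem all_StrRow : St_StrRow.{u} := thm_StrRow all_RealW

theorem all_StrCol : St_StrCol.{u} := thm_StrCol all_RealW

theorem all_StrSum : St_StrSum.{u} := thm_StrSum all_StrRow thm_Str23 thm_StrUnion

theorem all_StrFib : St_StrFib.{u} := thm_StrFib all_StrSum thm_Str23

theorem all_StrProd : St_StrProd.{u} := thm_StrProd all_StrRow thm_Str23

theorem all_StrPair : St_StrPair.{u} :=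
  thm_StrPair all_StrRow all_StrCol all_StrSum thm_Str23 all_StrHt

/-- rows ⇒ diagonal for fibration sequences -/
theorem SGp.Fib.diagF {c : ℕ} {A G H : SOb SGp.{u}} (j : A ⟶ G) (f : G ⟶ H)
    (h : ∀ m, SGp.Fib c (j.app m) (f.app m)) :
    SGp.Fib c (SGp.diagF.map j) (SGp.diagF.map f) := SGp.Fib.diag all_Real j f h

end Pool.Agent.KQ
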