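import Pool.Agent.KQ.StEx
import Pool.Agent.KQ.Core

/-!
# KQ: SPREAD for pairs of exact functors and the product formula (helper22)
-/

set_option autoImplicit false
set_option linter.unusedVariables false

noncomputable section

namespace Pool.Agent.KQ

open CategoryTheory CategoryTheory.Limits Function

universe u

namespace SPR2

/-! ### zero categories -/

theorem zc : ZClass Sd.{u} ZcE where
  zero E X := (isZero_functor _).2 fun x => by
    obtain ⟨⟨i, j⟩, h⟩ := x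
    have hi : i = 0 := Fin.ext (Nat.lt_one_iff.1 i.2)
    have hj : j = 0 := Fin.ext (Nat.lt_one_iff.1 j.2)
    subst hi
    subst hj
    exact X.property.2.1 0
  stab E n h X := (isZero_functor _).2 fun x => h ⟨X.obj.obj x, X.property.1 x⟩

theorem sub (E : ExCat.{u}) (h : ZcE E) : Subsingleton (obF.obj E).X := by
  refine ⟨fun x y => ?_⟩
  change E.ob at x
  change E.ob at y
  induction x using Quot.ind
  induction y using Quot.ind
  exact Quot.sound ⟨h _, h _⟩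

/-! ### powers -/

theorem pow_strong {X Y : SSt.{u}} (f : X ⟶ Y) (hf : SSt.Strong f) :
    ∀ p : ℕ, SSt.Strong (SSt.powMap f p)
  | 0 => SP_bij _ fun n => by
    refine ⟨fun a b _ => funext fun i => i.elim0, fun b => ⟨fun i => i.elim0, ?_⟩⟩
    exact funext fun i => i.elim0
  | p + 1 => by
    let a : ∀ Z : SSt.{u}, Z.pow (p + 1) ⟶ Z.prod (Z.pow p) := fun Z =>
      ⟨fun n x => (x 0, fun i => x i.succ), fun _ _ => rfl⟩
    have ha : ∀ Z, SSt.Strong (a Z) := fun Z => SP_bij _ fun n => by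
      refine ⟨fun x y h => ?_, fun y => ⟨Fin.cons y.1 y.2, ?_⟩⟩
      · funext i
        refine Fin.cases ?_ (fun i => ?_) i
        · exact congrArg Prod.fst h
        · exact congrFun (congrArg Prod.snd h) i
      · rfl
    have h1 : SSt.Strong (a X ≫ SSt.prodMap f (SSt.powMap f p)) :=
      thm_Str23.1 _ _ (ha X) (all_StrProd _ _ hf (pow_strong f hf p))
    have h2 : SSt.powMap f (p + 1) ≫ a Y = a X ≫ SSt.prodMap f (SSt.powMap f p) := rfl
    rw [← h2] at h1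
    exact thm_Str23.2.2.1 _ _ (ha Y) h1

/-- the pair map of powers -/
def powPair {A X Y : SSt.{u}} (h : A ⟶ X.prod Y) (p : ℕ) : A.pow p ⟶ (X.pow p).prod (Y.pow p) :=
  ⟨fun n x => (fun i => (h.app n (x i)).1, fun i => (h.app n (x i)).2), fun {m n} θ x =>
    Prod.ext (funext fun i => congrArg Prod.fst (h.nat θ (x i)))
      (funext fun i => congrArg Prod.snd (h.nat θ (x i)))⟩

theorem powPair_strong {A X Y : SSt.{u}} (h : A ⟶ X.prod Y) (hh : SSt.Strong h) (p : ℕ) :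
    SSt.Strong (powPair h p) := by
  let c : (X.prod Y).pow p ⟶ (X.pow p).prod (Y.pow p) :=
    ⟨fun n x => (fun i => (x i).1, fun i => (x i).2), fun _ _ => rfl⟩
  have hc : SSt.Strong c := SP_bij _ fun n => by
    refine ⟨fun x y e => ?_, fun y => ⟨fun i => (y.1 i, y.2 i), rfl⟩⟩
    funext i
    exact Prod.ext (congrFun (congrArg Prod.fst e) i) (congrFun (congrArg Prod.snd e) i)
  exact thm_Str23.1 (SSt.powMap h p) c (pow_strong h hh p) hc

/-- the pair of `S_p f` and `S_p g` -/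
theorem pair_S (hSp : St_Spine.{u}) {E E₁ E₂ : ExCat.{u}} (f : ExFun E E₁) (g : ExFun E E₂)
    (h : SSt.Strong (pairS f g)) (p : ℕ) :
    SSt.Strong (pairS (f.S (Fin (p + 1))) (g.S (Fin (p + 1)))) := by
  have h1 : SSt.Strong (spine E p ≫ powPair (pairS f g) p) :=
    thm_Str23.1 _ _ (hSp E p) (powPair_strong _ h p)
  have h2 : pairS (f.S (Fin (p + 1))) (g.S (Fin (p + 1))) ≫
      SSt.prodMap (spine E₁ p) (spine E₂ p) = spine E p ≫ powPair (pairS f g) p := rfl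
  rw [← h2] at h1
  exact thm_Str23.2.2.1 _ _ (all_StrProd _ _ (hSp E₁ p) (hSp E₂ p)) h1

/-! ### the simplicial sets `n ↦ P (Sₙᵏ E)` -/

/-- the simplicial set `n ↦ P (Sₙᵏ E)` -/
def Ps (k : ℕ) : ExCat.{u} ⥤ SSt.{u + 1} := itP Sd obF k ⋙ undF

/-- a pair of maps of simplicial sets -/
def liftS {X A B : SSt.{u}} (f : X ⟶ A) (g : X ⟶ B) : X ⟶ A.prod B :=
  ⟨fun n x => (f.app n x, g.app n x), fun θ x => Prod.ext (f.nat θ x) (g.nat θ x)⟩

/-- the product of two bisimplicial sets -/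
def prodB (A B : SOb SSt.{u}) : SOb SSt.{u} where
  obj n := (A.obj n).prod (B.obj n)
  map f := SSt.prodMap (A.map f) (B.map f)
  map_id n := by
    rw [A.map_id, B.map_id]
    rfl
  map_comp f g := by
    rw [A.map_comp, B.map_comp]
    rfl

/-- a pair of maps of bisimplicial sets -/
def liftB {X A B : SOb SSt.{u}} (f : X ⟶ A) (g : X ⟶ B) : X ⟶ prodB A B :=
  ⟨fun n => liftS (f.app n) (g.app n), fun {m n} θ => SSt.hom_ext fun l x => Prod.ext
    (congrArg (fun e : X.obj n ⟶ A.obj m => e.app l x) (f.nat θ))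
    (congrArg (fun e : X.obj n ⟶ B.obj m => e.app l x) (g.nat θ))⟩

/-- the bisimplicial set with the rows `Ps k (S_m E)` -/
def Rw (k : ℕ) : ExCat.{u} ⥤ SOb SSt.{u + 1} := Sd ⋙ SOb.mapF (Ps k)

theorem Ps_map (k : ℕ) (E : ExCat.{u}) {m n : ℕ} (θ : Mo m n)
    (x : (SSt.diag ((Rw k).obj E)).obj n) :
    ((Ps (k + 1)).obj E).map θ x = (SSt.diag ((Rw k).obj E)).map θ x :=
  congrArg (fun e => Pointed.Hom.toFun e x) (obF.map_comp
    (((itS Sd k).map (E.Smap θ)).app n) (((itS Sd k).obj (E.S (Fin (m + 1)))).map θ))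

/-- the comparison with the diagonal -/
def Ps_diag (k : ℕ) (E : ExCat.{u}) : SSt.diag ((Rw k).obj E) ⟶ (Ps (k + 1)).obj E :=
  ⟨fun n x => x, fun θ x => (Ps_map k E θ x).symm⟩

theorem Ps_diag_strong (k : ℕ) (E : ExCat.{u}) : SSt.Strong (Ps_diag k E) :=
  SP_bij _ fun n => ⟨fun _ _ h => h, fun x => ⟨x, rfl⟩⟩

/-- the pair map -/
def Up (k : ℕ) {E E₁ E₂ : ExCat.{u}} (f : ExFun E E₁) (g : ExFun E E₂) :
    (Ps k).obj E ⟶ ((Ps k).obj E₁).prod ((Ps k).obj E₂) :=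
  liftS ((Ps k).map (X := E) (Y := E₁) f) ((Ps k).map (X := E) (Y := E₂) g)

/-- the passage to pointed sets -/
def zqE (E : ExCat.{u}) : E.oS ⟶ (Ps 1).obj E :=
  ⟨fun n x => Quot.mk _ x, fun _ _ => rfl⟩

theorem zqE_strong (hZ : St_ZQ.{u}) (E : ExCat.{u}) : SSt.Strong (zqE E) :=
  hZ (SOb.const E)

theorem Up_one (hZ : St_ZQ.{u}) {E E₁ E₂ : ExCat.{u}} (f : ExFun E E₁) (g : ExFun E E₂)
    (h : SSt.Strong (pairS f g)) : SSt.Strong (Up 1 f g) := by
  have h1 : SSt.Strong (pairS f g ≫ SSt.prodMap (zqE E₁) (zqE E₂)) :=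
    thm_Str23.1 _ _ h (all_StrProd _ _ (zqE_strong hZ E₁) (zqE_strong hZ E₂))
  have h2 : zqE E ≫ Up 1 f g = pairS f g ≫ SSt.prodMap (zqE E₁) (zqE E₂) := rfl
  rw [← h2] at h1
  exact thm_Str23.2.1 _ _ (zqE_strong hZ E) h1

theorem Up_succ (hZ : St_ZQ.{u}) (hSp : St_Spine.{u}) (k : ℕ) : ∀ {E E₁ E₂ : ExCat.{u}}
    (f : ExFun E E₁) (g : ExFun E E₂), SSt.Strong (pairS f g) → SSt.Strong (Up (k + 1) f g) := by
  induction k with
  | zero => exact fun f g h => Up_one hZ f g h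
  | succ k ih =>
    intro E E₁ E₂ f g h
    let F : (Rw (k + 1)).obj E ⟶ prodB ((Rw (k + 1)).obj E₁) ((Rw (k + 1)).obj E₂) :=
      liftB ((Rw (k + 1)).map (X := E) (Y := E₁) f) ((Rw (k + 1)).map (X := E) (Y := E₂) g)
    have h1 : SSt.Strong (SSt.diagF.map F) :=
      all_StrRow F fun m => ih _ _ (pair_S hSp f g h m)
    have h2 : SSt.Strong (SSt.diagF.map F ≫
        SSt.prodMap (Ps_diag (k + 1) E₁) (Ps_diag (k + 1) E₂)) :=
      thm_Str23.1 _ _ h1 (all_StrProd _ _ (Ps_diag_strong _ _) (Ps_diag_strong _ _))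
    have h3 : Ps_diag (k + 1) E ≫ Up (k + 1 + 1) f g = SSt.diagF.map F ≫
        SSt.prodMap (Ps_diag (k + 1) E₁) (Ps_diag (k + 1) E₂) := rfl
    rw [← h3] at h2
    exact thm_Str23.2.1 _ _ (Ps_diag_strong _ _) h2

end SPR2

open SPR2 in
/-- SPREAD for a pair of exact functors, and the product formula. -/
theorem thm_SPR2 (hZ : St_ZQ.{u}) (hSp : St_Spine.{u}) : St_SPR2.{u} := by
  intro E E₁ E₂ f g h k hk
  obtain ⟨k, rfl⟩ : ∃ k', k = k' + 1 := ⟨k - 1, by omega⟩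
  let a := (itP Sd obF (k + 1)).map (X := E) (Y := E₁) f
  let b := (itP Sd obF (k + 1)).map (X := E) (Y := E₂) g
  have h1 : SGp.Weq (frF.map (prodPt.lift a b)) :=
    thm_StrFr (prodPt.lift a b) (Up_succ hZ hSp k f g h)
  have h2 : SGp.Conn (2 * (k + 1)) (frCmp ((itP Sd obF (k + 1)).obj E₁)
      ((itP Sd obF (k + 1)).obj E₂)) := frCmp_conn all_Prod Sd ZcE zc obF sub (k + 1) E₁ E₂
  let e := (dIso Sd obF (k + 1)).app E
  let e₁ := (dIso Sd obF (k + 1)).app E₁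
  let e₂ := (dIso Sd obF (k + 1)).app E₂
  have n1 : (DK (k + 1)).map (X := E) (Y := E₁) f ≫ e₁.hom = e.hom ≫ frF.map a :=
    (dIso Sd obF (k + 1)).hom.naturality (X := E) (Y := E₁) f
  have n2 : (DK (k + 1)).map (X := E) (Y := E₂) g ≫ e₂.hom = e.hom ≫ frF.map b :=
    (dIso Sd obF (k + 1)).hom.naturality (X := E) (Y := E₂) g
  have m1 : frF.map (prodPt.lift a b) ≫ frF.map (prodPt.fst _ _) = frF.map a :=
    (frF.map_comp _ _).symm
  have m2 : frF.map (prodPt.lift a b) ≫ frF.map (prodPt.snd _ _) = frF.map b :=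
    (frF.map_comp _ _).symm
  have h3 : pairD (k + 1) f g ≫ (SGp.prodIso e₁ e₂).hom =
      e.hom ≫ frF.map (prodPt.lift a b) ≫ frCmp _ _ := by
    refine SGp.hom_ext fun n x => Prod.ext ?_ ?_
    · exact congrArg (fun q : (DK (k + 1)).obj E ⟶
        frF.obj ((itP Sd obF (k + 1)).obj E₁) => q.app n x)
        (n1.trans (congrArg (fun q => e.hom ≫ q) m1.symm))
    · exact congrArg (fun q : (DK (k + 1)).obj E ⟶
        frF.obj ((itP Sd obF (k + 1)).obj E₂) => q.app n x)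
        (n2.trans (congrArg (fun q => e.hom ≫ q) m2.symm))
  have h4 : pairD (k + 1) f g = e.hom ≫ (frF.map (prodPt.lift a b) ≫ frCmp _ _) ≫
      (SGp.prodIso e₁ e₂).inv := by
    exact ((Iso.eq_comp_inv (SGp.prodIso e₁ e₂)).2 h3).trans (Category.assoc _ _ _)
  rw [h4]
  exact ((SGp.weq_of_iso e).conn _).comp (((h1.conn _).comp h2).comp
    ((SGp.weq_of_iso (SGp.prodIso e₁ e₂).symm).conn _))

end Pool.Agent.KQ
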