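import Mathlib

/-!
# KQ: simplicial sets and simplicial groups: definitions

Real `K'_n` in Lean (MP_e17fa799_al). A simplicial object is a family indexed by `ℕ` with a
contravariant action of the monotone maps `Fin (m + 1) →o Fin (n + 1)`.
-/

set_option autoImplicit false

namespace Pool.Agent.KQ

open CategoryTheory Function

universe u v w u' v'

/-! ### monotone maps -/

/-- simplicial operators: monotone maps `[m] → [n]` -/
abbrev Mo (m n : ℕ) : Type := Fin (m + 1) →o Fin (n + 1)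

/-- the face `[n] → [n + 1]` omitting `i` -/
def dl {n : ℕ} (i : Fin (n + 2)) : Mo n (n + 1) :=
  ⟨i.succAbove, (Fin.strictMono_succAbove i).monotone⟩

/-- the degeneracy `[n + 1] → [n]` taking the value `i` twice -/
def sg {n : ℕ} (i : Fin (n + 1)) : Mo (n + 1) n :=
  ⟨i.predAbove, Fin.predAbove_right_monotone i⟩

/-- `f` extended by `0 ↦ 0` (the remaining vertices shifted by one) -/
def Mo.bot {m n : ℕ} (f : Mo m n) : Mo (m + 1) (n + 1) where
  toFun := Fin.cases 0 fun i => (f i).succ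
  monotone' := by
    intro i j
    refine Fin.cases ?_ (fun i => ?_) i
    · intro _
      simp
    · refine Fin.cases ?_ (fun j => ?_) j
      · intro h
        exact absurd h (by simp)
      · intro h
        simpa using f.monotone (Fin.succ_le_succ_iff.1 h)

/-! ### simplicial objects of a category -/

/-- simplicial objects of a category -/
structure SOb (C : Type u) [Category.{v} C] where
  obj : ℕ → C
  map : ∀ {m n : ℕ}, Mo m n → (obj n ⟶ obj m)
  map_id : ∀ n : ℕ, map (OrderHom.id : Mo n n) = 𝟙 (obj n)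
  map_comp : ∀ {l m n : ℕ} (f : Mo l m) (g : Mo m n), map (g.comp f) = map g ≫ map f

section SOb

variable {C : Type u} [Category.{v} C] {D : Type u} [Category.{v} D]

/-- morphisms of simplicial objects -/
@[ext]
structure SOb.Hom (X Y : SOb C) where
  app : ∀ n : ℕ, X.obj n ⟶ Y.obj n
  nat : ∀ {m n : ℕ} (f : Mo m n), X.map f ≫ app m = app n ≫ Y.map f

instance : Category (SOb C) where
  Hom := SOb.Hom
  id X := ⟨fun n => 𝟙 _, fun f => by simp⟩
  comp f g := ⟨fun n => f.app n ≫ g.app n, fun θ => by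
    rw [← Category.assoc, f.nat, Category.assoc, g.nat, Category.assoc]⟩
  id_comp f := by ext n; simp
  comp_id f := by ext n; simp
  assoc f g h := by ext n; simp

@[ext]
theorem SOb.hom_ext {X Y : SOb C} {f g : X ⟶ Y} (h : ∀ n, f.app n = g.app n) : f = g :=
  SOb.Hom.ext (funext h)

@[simp] theorem SOb.id_app (X : SOb C) (n : ℕ) : SOb.Hom.app (𝟙 X) n = 𝟙 (X.obj n) := rfl

@[simp] theorem SOb.comp_app {X Y Z : SOb C} (f : X ⟶ Y) (g : Y ⟶ Z) (n : ℕ) :
    (f ≫ g).app n = f.app n ≫ g.app n := rfl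

/-- the constant simplicial object -/
def SOb.const (c : C) : SOb C := ⟨fun _ => c, fun _ => 𝟙 c, fun _ => rfl, fun _ _ => by simp⟩

/-- the constant simplicial objects, as a functor -/
def SOb.constF : C ⥤ SOb C where
  obj := SOb.const
  map f := ⟨fun _ => f, fun _ => by simp [SOb.const]⟩

end SOb

/-- a functor applied to simplicial objects -/
def SOb.mapF {C : Type u} [Category.{v} C] {D : Type u'} [Category.{v'} D] (F : C ⥤ D) :
    SOb C ⥤ SOb D where
  obj X := ⟨fun n => F.obj (X.obj n), fun f => F.map (X.map f), fun n => by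
    rw [X.map_id, F.map_id], fun f g => by rw [X.map_comp, F.map_comp]⟩
  map f := ⟨fun n => F.map (f.app n), fun θ => by
    change F.map _ ≫ F.map _ = F.map _ ≫ F.map _
    rw [← F.map_comp, f.nat, F.map_comp]⟩
  map_id X := by ext n; exact F.map_id _
  map_comp f g := by ext n; exact F.map_comp _ _

/-- the decalage: `(Dec X) n = X (n + 1)`, the operators fix the vertex `0` -/
def SOb.dec {C : Type u} [Category.{v} C] (X : SOb C) : SOb C where
  obj n := X.obj (n + 1)
  map f := X.map f.bot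
  map_id n := by
    rw [← X.map_id]
    congr 1
    ext i
    refine Fin.cases ?_ (fun i => ?_) i <;> rfl
  map_comp f g := by
    rw [← X.map_comp]
    congr 1
    ext i
    refine Fin.cases ?_ (fun i => ?_) i <;> rfl

/-- the projection `Dec X → X`, which omits the vertex `0` -/
def SOb.decπ {C : Type u} [Category.{v} C] (X : SOb C) : X.dec ⟶ X where
  app n := X.map (dl 0)
  nat f := by
    change X.map f.bot ≫ X.map (dl 0) = X.map (dl 0) ≫ X.map f
    rw [← X.map_comp, ← X.map_comp]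
    congr 1

/-! ### simplicial sets -/

/-- simplicial sets -/
structure SSt where
  obj : ℕ → Type u
  map : ∀ {m n : ℕ}, Mo m n → obj n → obj m
  map_id : ∀ (n : ℕ) (x : obj n), map (OrderHom.id : Mo n n) x = x
  map_comp : ∀ {l m n : ℕ} (f : Mo l m) (g : Mo m n) (x : obj n),
    map (g.comp f) x = map f (map g x)

/-- maps of simplicial sets -/
@[ext]
structure SSt.Hom (X Y : SSt.{u}) where
  app : ∀ n : ℕ, X.obj n → Y.obj n
  nat : ∀ {m n : ℕ} (f : Mo m n) (x : X.obj n), app m (X.map f x) = Y.map f (app n x)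

instance : Category SSt.{u} where
  Hom := SSt.Hom
  id X := ⟨fun _ x => x, fun _ _ => rfl⟩
  comp f g := ⟨fun n x => g.app n (f.app n x), fun θ x => by rw [f.nat, g.nat]⟩

@[ext]
theorem SSt.hom_ext {X Y : SSt.{u}} {f g : X ⟶ Y} (h : ∀ n x, f.app n x = g.app n x) : f = g :=
  SSt.Hom.ext (funext fun n => funext (h n))

@[simp] theorem SSt.id_app (X : SSt.{u}) (n : ℕ) (x : X.obj n) : SSt.Hom.app (𝟙 X) n x = x := rfl

@[simp] theorem SSt.comp_app {X Y Z : SSt.{u}} (f : X ⟶ Y) (g : Y ⟶ Z) (n : ℕ) (x : X.obj n) :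
    (f ≫ g).app n x = g.app n (f.app n x) := rfl

/-- homotopies of maps of simplicial sets: natural families indexed by the monotone maps
`[n] → {false < true}` -/
structure SSt.Htpy {X Y : SSt.{u}} (f g : X ⟶ Y) where
  h : ∀ n : ℕ, (Fin (n + 1) →o Bool) → X.obj n → Y.obj n
  nat : ∀ {m n : ℕ} (θ : Mo m n) (α : Fin (n + 1) →o Bool) (x : X.obj n),
    h m (α.comp θ) (X.map θ x) = Y.map θ (h n α x)
  h0 : ∀ (n : ℕ) (α : Fin (n + 1) →o Bool) (x : X.obj n), (∀ i, α i = false) → h n α x = f.app n x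
  h1 : ∀ (n : ℕ) (α : Fin (n + 1) →o Bool) (x : X.obj n), (∀ i, α i = true) → h n α x = g.app n x

/-- the constant simplicial set -/
def SSt.const (A : Type u) : SSt.{u} := ⟨fun _ => A, fun _ => id, fun _ _ => rfl, fun _ _ _ => rfl⟩

/-- the product of two simplicial sets -/
def SSt.prod (X Y : SSt.{u}) : SSt.{u} where
  obj n := X.obj n × Y.obj n
  map f x := (X.map f x.1, Y.map f x.2)
  map_id n x := by rw [X.map_id, Y.map_id]
  map_comp f g x := by rw [X.map_comp, Y.map_comp]

/-- the product of two maps -/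
def SSt.prodMap {X Y X' Y' : SSt.{u}} (f : X ⟶ X') (g : Y ⟶ Y') : X.prod Y ⟶ X'.prod Y' :=
  ⟨fun n x => (f.app n x.1, g.app n x.2), fun θ x => by
    change (_, _) = (_, _)
    rw [← f.nat, ← g.nat]
    rfl⟩

/-- the sum of a family of simplicial sets -/
def SSt.sum {J : Type u} (X : J → SSt.{u}) : SSt.{u} where
  obj n := Σ j, (X j).obj n
  map f x := ⟨x.1, (X x.1).map f x.2⟩
  map_id n x := by rw [(X x.1).map_id]
  map_comp f g x := by rw [(X x.1).map_comp]

/-- the sum of a family of maps -/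
def SSt.sumMap {J : Type u} {X Y : J → SSt.{u}} (f : ∀ j, X j ⟶ Y j) :
    SSt.sum X ⟶ SSt.sum Y :=
  ⟨fun n x => ⟨x.1, (f x.1).app n x.2⟩, fun θ x => by
    change (⟨x.1, _⟩ : Σ j, (Y j).obj _) = ⟨x.1, _⟩
    rw [← (f x.1).nat]
    rfl⟩

/-- the diagonal of a bisimplicial set -/
def SSt.diag (X : SOb SSt.{u}) : SSt.{u} where
  obj n := (X.obj n).obj n
  map {m n} f x := (X.obj m).map f ((X.map f).app n x)
  map_id n x := by rw [X.map_id, (X.obj n).map_id]; rfl
  map_comp f g x := by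
    rw [X.map_comp, (X.obj _).map_comp]
    congr 1
    exact ((X.map f).nat g _).symm

/-- the diagonal, as a functor -/
def SSt.diagF : SOb SSt.{u} ⥤ SSt.{u} where
  obj := SSt.diag
  map {X Y} f := ⟨fun n x => (f.app n).app n x, fun {m n} θ x => by
    change (f.app m).app m ((X.obj m).map θ ((X.map θ).app n x)) =
      (Y.obj m).map θ ((Y.map θ).app n ((f.app n).app n x))
    rw [(f.app m).nat, ← SSt.comp_app, ← SSt.comp_app, f.nat]⟩

/-! ### simplicial groups -/

/-- simplicial groups -/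
structure SGp where
  obj : ℕ → Type u
  [grp : ∀ n, Group (obj n)]
  map : ∀ {m n : ℕ}, Mo m n → obj n →* obj m
  map_id : ∀ (n : ℕ) (x : obj n), map (OrderHom.id : Mo n n) x = x
  map_comp : ∀ {l m n : ℕ} (f : Mo l m) (g : Mo m n) (x : obj n),
    map (g.comp f) x = map f (map g x)

attribute [instance] SGp.grp

/-- homomorphisms of simplicial groups -/
@[ext]
structure SGp.Hom (X Y : SGp.{u}) where
  app : ∀ n : ℕ, X.obj n →* Y.obj n
  nat : ∀ {m n : ℕ} (f : Mo m n) (x : X.obj n), app m (X.map f x) = Y.map f (app n x)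

instance : Category SGp.{u} where
  Hom := SGp.Hom
  id X := ⟨fun _ => MonoidHom.id _, fun _ _ => rfl⟩
  comp f g := ⟨fun n => (g.app n).comp (f.app n), fun θ x => by
    change g.app _ (f.app _ _) = _
    rw [f.nat, g.nat]
    rfl⟩

@[ext]
theorem SGp.hom_ext {X Y : SGp.{u}} {f g : X ⟶ Y} (h : ∀ n x, f.app n x = g.app n x) : f = g :=
  SGp.Hom.ext (funext fun n => MonoidHom.ext (h n))

@[simp] theorem SGp.id_app (X : SGp.{u}) (n : ℕ) (x : X.obj n) : SGp.Hom.app (𝟙 X) n x = x := rfl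

@[simp] theorem SGp.comp_app {X Y Z : SGp.{u}} (f : X ⟶ Y) (g : Y ⟶ Z) (n : ℕ) (x : X.obj n) :
    (f ≫ g).app n x = g.app n (f.app n x) := rfl

/-- homotopies of homomorphisms of simplicial groups (through homomorphisms) -/
structure SGp.Htpy {X Y : SGp.{u}} (f g : X ⟶ Y) where
  h : ∀ n : ℕ, (Fin (n + 1) →o Bool) → X.obj n →* Y.obj n
  nat : ∀ {m n : ℕ} (θ : Mo m n) (α : Fin (n + 1) →o Bool) (x : X.obj n),
    h m (α.comp θ) (X.map θ x) = Y.map θ (h n α x)
  h0 : ∀ (n : ℕ) (α : Fin (n + 1) →o Bool) (x : X.obj n), (∀ i, α i = false) → h n α x = f.app n x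
  h1 : ∀ (n : ℕ) (α : Fin (n + 1) →o Bool) (x : X.obj n), (∀ i, α i = true) → h n α x = g.app n x

/-- the constant simplicial group -/
def SGp.const (A : Type u) [Group A] : SGp.{u} :=
  ⟨fun _ => A, fun _ => MonoidHom.id A, fun _ _ => rfl, fun _ _ _ => rfl⟩

/-- the constant simplicial groups: homomorphisms -/
def SGp.constMap {A B : Type u} [Group A] [Group B] (f : A →* B) : SGp.const A ⟶ SGp.const B :=
  ⟨fun _ => f, fun _ _ => rfl⟩

/-- the product of two simplicial groups -/
def SGp.prod (X Y : SGp.{u}) : SGp.{u} where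
  obj n := X.obj n × Y.obj n
  map f := (X.map f).prodMap (Y.map f)
  map_id n x := by
    change (X.map _ x.1, Y.map _ x.2) = x
    rw [X.map_id, Y.map_id]
  map_comp f g x := by
    change (X.map _ x.1, Y.map _ x.2) = (X.map _ (X.map _ x.1), Y.map _ (Y.map _ x.2))
    rw [X.map_comp, Y.map_comp]

/-- a pair of homomorphisms, as a homomorphism to the product -/
def SGp.lift {G X Y : SGp.{u}} (f : G ⟶ X) (g : G ⟶ Y) : G ⟶ X.prod Y :=
  ⟨fun n => (f.app n).prod (g.app n), fun θ x => by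
    change (f.app _ _, g.app _ _) = (X.map _ (f.app _ x), Y.map _ (g.app _ x))
    rw [f.nat, g.nat]⟩

/-- the kernel of a homomorphism -/
def SGp.ker {G H : SGp.{u}} (f : G ⟶ H) : SGp.{u} where
  obj n := (f.app n).ker
  map {m n} θ := ((G.map θ).comp (f.app n).ker.subtype).codRestrict _ fun x => by
    change f.app m (G.map θ x.1) = 1
    rw [f.nat, show f.app n x.1 = 1 from x.2, map_one]
  map_id n x := Subtype.ext (G.map_id n x.1)
  map_comp θ η x := Subtype.ext (G.map_comp θ η x.1)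

/-- the inclusion of the kernel -/
def SGp.kerι {G H : SGp.{u}} (f : G ⟶ H) : SGp.ker f ⟶ G :=
  ⟨fun n => (f.app n).ker.subtype, fun _ _ => rfl⟩

/-- the homomorphism of kernels of a commutative square -/
def SGp.kerMap {G H G' H' : SGp.{u}} {f : G ⟶ H} {f' : G' ⟶ H'} (a : G ⟶ G') (b : H ⟶ H')
    (h : f ≫ b = a ≫ f') : SGp.ker f ⟶ SGp.ker f' :=
  ⟨fun n => ((a.app n).comp (f.app n).ker.subtype).codRestrict _ fun x => by
    change f'.app n (a.app n x.1) = 1
    have := congrArg (fun e : G ⟶ H' => e.app n x.1) h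
    change b.app n (f.app n x.1) = f'.app n (a.app n x.1) at this
    rw [← this, show f.app n x.1 = 1 from x.2, map_one], fun θ x => Subtype.ext (a.nat θ x.1)⟩

/-- the diagonal of a bisimplicial group -/
def SGp.diag (X : SOb SGp.{u}) : SGp.{u} where
  obj n := (X.obj n).obj n
  map {m n} f := ((X.obj m).map f).comp ((X.map f).app n)
  map_id n x := by
    change (X.obj n).map _ ((X.map _).app n x) = x
    rw [X.map_id, (X.obj n).map_id]; rfl
  map_comp {l m n} f g x := by
    change (X.obj l).map _ ((X.map _).app n x) =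
      (X.obj l).map f ((X.map f).app m ((X.obj m).map g ((X.map g).app n x)))
    rw [X.map_comp, (X.obj _).map_comp, (X.map f).nat]
    rfl

/-- the diagonal, as a functor -/
def SGp.diagF : SOb SGp.{u} ⥤ SGp.{u} where
  obj := SGp.diag
  map {X Y} f := ⟨fun n => (f.app n).app n, fun {m n} θ x => by
    change (f.app m).app m ((X.obj m).map θ ((X.map θ).app n x)) =
      (Y.obj m).map θ ((Y.map θ).app n ((f.app n).app n x))
    rw [(f.app m).nat, ← SGp.comp_app, ← SGp.comp_app, f.nat]⟩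

/-! ### homotopy groups -/

section Pi

variable (G : SGp.{u})

/-- the elements all of whose faces are trivial -/
def SGp.Z : ∀ n : ℕ, Subgroup (G.obj n)
  | 0 => ⊤
  | _ + 1 => ⨅ i, (G.map (dl i)).ker

/-- the Moore complex: the elements all of whose faces `dᵢ`, `i > 0`, are trivial -/
def SGp.N : ∀ n : ℕ, Subgroup (G.obj n)
  | 0 => ⊤
  | n + 1 => ⨅ i : Fin (n + 1), (G.map (dl i.succ)).ker

/-- the boundaries -/
def SGp.B (n : ℕ) : Subgroup (G.obj n) := (G.N (n + 1)).map (G.map (dl 0))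

theorem SGp.mem_Z_succ {n : ℕ} {x : G.obj (n + 1)} : x ∈ G.Z (n + 1) ↔ ∀ i, G.map (dl i) x = 1 := by
  simp [SGp.Z, MonoidHom.mem_ker]

theorem SGp.mem_N_succ {n : ℕ} {x : G.obj (n + 1)} :
    x ∈ G.N (n + 1) ↔ ∀ i : Fin (n + 1), G.map (dl i.succ) x = 1 := by
  simp [SGp.N, MonoidHom.mem_ker]

theorem SGp.mem_B {n : ℕ} {x : G.obj n} : x ∈ G.B n ↔
    ∃ y : G.obj (n + 1), (∀ i : Fin (n + 1), G.map (dl i.succ) y = 1) ∧ G.map (dl 0) y = x := by
  simp [SGp.B, SGp.mem_N_succ]

theorem dl_zero_comp_sg_zero (n : ℕ) : (sg (0 : Fin (n + 1))).comp (dl 0) = OrderHom.id := by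
  ext i
  simp [sg, dl]

theorem dl_one_comp_sg_zero (n : ℕ) : (sg (0 : Fin (n + 1))).comp (dl (1 : Fin (n + 2))) =
    OrderHom.id := by
  ext i
  refine Fin.cases ?_ (fun i => ?_) i
  · simp [sg, dl]
  · simp [sg, dl, Fin.succAbove]

instance SGp.B_normal (n : ℕ) : (G.B n).Normal where
  conj_mem x hx g := by
    rw [SGp.mem_B] at hx ⊢
    obtain ⟨y, hy, rfl⟩ := hx
    refine ⟨G.map (sg 0) g * y * (G.map (sg 0) g)⁻¹, fun i => ?_, ?_⟩
    · rw [map_mul, map_mul, hy, mul_one, ← map_mul, mul_inv_cancel, map_one]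
    · rw [map_mul, map_mul, map_inv, ← G.map_comp, dl_zero_comp_sg_zero, G.map_id]

/-- the homotopy groups -/
def SGp.Pi (n : ℕ) : Type u := G.Z n ⧸ (G.B n).subgroupOf (G.Z n)

instance (n : ℕ) : Group (G.Pi n) :=
  inferInstanceAs (Group (G.Z n ⧸ (G.B n).subgroupOf (G.Z n)))

/-- the class of a cycle -/
def SGp.cls (n : ℕ) : G.Z n →* G.Pi n := QuotientGroup.mk' _

theorem SGp.cls_surj (n : ℕ) : Surjective (G.cls n) := QuotientGroup.mk'_surjective _

theorem SGp.cls_eq_one {n : ℕ} {x : G.Z n} : G.cls n x = 1 ↔ (x : G.obj n) ∈ G.B n := by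
  change ((x : G.Z n) : G.Z n ⧸ (G.B n).subgroupOf (G.Z n)) = 1 ↔ _
  rw [QuotientGroup.eq_one_iff]
  exact Iff.rfl

end Pi

theorem SGp.app_mem_Z {G H : SGp.{u}} (f : G ⟶ H) {n : ℕ} {x : G.obj n} (hx : x ∈ G.Z n) :
    f.app n x ∈ H.Z n := by
  cases n with
  | zero => trivial
  | succ n =>
    rw [SGp.mem_Z_succ] at hx ⊢
    intro i
    rw [← f.nat, hx, map_one]

theorem SGp.app_mem_N {G H : SGp.{u}} (f : G ⟶ H) {n : ℕ} {x : G.obj n} (hx : x ∈ G.N n) :
    f.app n x ∈ H.N n := by
  cases n with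
  | zero => trivial
  | succ n =>
    rw [SGp.mem_N_succ] at hx ⊢
    intro i
    rw [← f.nat, hx, map_one]

theorem SGp.app_mem_B {G H : SGp.{u}} (f : G ⟶ H) {n : ℕ} {x : G.obj n} (hx : x ∈ G.B n) :
    f.app n x ∈ H.B n := by
  obtain ⟨y, hy, rfl⟩ := hx
  exact ⟨f.app _ y, SGp.app_mem_N f hy, (f.nat _ _).symm⟩

/-- the homomorphism of cycles -/
def SGp.Zmap {G H : SGp.{u}} (f : G ⟶ H) (n : ℕ) : G.Z n →* H.Z n :=
  ((f.app n).comp (G.Z n).subtype).codRestrict _ fun x => SGp.app_mem_Z f x.2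

/-- the induced homomorphism of homotopy groups -/
def SGp.PiMap {G H : SGp.{u}} (f : G ⟶ H) (n : ℕ) : G.Pi n →* H.Pi n :=
  QuotientGroup.map _ _ (SGp.Zmap f n) fun _ hx => SGp.app_mem_B f hx

theorem SGp.PiMap_cls {G H : SGp.{u}} (f : G ⟶ H) (n : ℕ) (x : G.Z n) :
    SGp.PiMap f n (G.cls n x) = H.cls n (SGp.Zmap f n x) := rfl

theorem SGp.PiMap_id (G : SGp.{u}) (n : ℕ) (x : G.Pi n) : SGp.PiMap (𝟙 G) n x = x := by
  obtain ⟨x, rfl⟩ := G.cls_surj n x
  rfl

theorem SGp.PiMap_comp {G H K : SGp.{u}} (f : G ⟶ H) (g : H ⟶ K) (n : ℕ) (x : G.Pi n) :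
    SGp.PiMap (f ≫ g) n x = SGp.PiMap g n (SGp.PiMap f n x) := by
  obtain ⟨x, rfl⟩ := G.cls_surj n x
  rfl

/-- `f` is `c`-connected: bijective on `π_j` for `j < c`, surjective on `π_c` -/
def SGp.Conn (c : ℕ) {G H : SGp.{u}} (f : G ⟶ H) : Prop :=
  (∀ j < c, Bijective (SGp.PiMap f j)) ∧ Surjective (SGp.PiMap f c)

/-- `f` is bijective on all homotopy groups -/
def SGp.Weq {G H : SGp.{u}} (f : G ⟶ H) : Prop := ∀ j, Bijective (SGp.PiMap f j)

/-- the homotopy groups `π_j`, `j < c`, are trivial -/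
def SGp.Triv (c : ℕ) (G : SGp.{u}) : Prop := ∀ j < c, ∀ x : G.Pi j, x = 1

/-- `δ` is the boundary homomorphism of the surjection `f`: `δ [f x] = [d₀ x]` for `x` in the Moore
complex -/
def SGp.IsBd {G H : SGp.{u}} (f : G ⟶ H) (n : ℕ) (δ : H.Pi (n + 1) →* (SGp.ker f).Pi n) : Prop :=
  ∀ (x : G.obj (n + 1)) (_ : x ∈ G.N (n + 1)) (y : H.Z (n + 1)) (z : (SGp.ker f).Z n),
    f.app (n + 1) x = y.1 → G.map (dl 0) x = z.1.1 → δ (H.cls _ y) = (SGp.ker f).cls n z

/-! ### functors from sets to groups, strong maps -/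

/-- functors from sets to groups such that every element comes from a finite subset -/
structure FGr where
  obj : Type u → Type u
  [grp : ∀ X, Group (obj X)]
  map : ∀ {X Y : Type u}, (X → Y) → obj X →* obj Y
  map_id : ∀ {X : Type u} (x : obj X), map (fun a : X => a) x = x
  map_comp : ∀ {X Y Z : Type u} (f : X → Y) (g : Y → Z) (x : obj X),
    map (fun a => g (f a)) x = map g (map f x)
  fin : ∀ {X : Type u} (x : obj X), ∃ S : Set X, S.Finite ∧ ∃ y : obj S, map Subtype.val y = x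

attribute [instance] FGr.grp

/-- such a functor applied to simplicial sets -/
def FGr.ap (Φ : FGr.{u}) : SSt.{u} ⥤ SGp.{u} where
  obj X :=
    { obj := fun n => Φ.obj (X.obj n)
      map := fun f => Φ.map (X.map f)
      map_id := fun n x => by
        rw [show X.map (OrderHom.id : Mo n n) = fun a => a from funext (X.map_id n), Φ.map_id]
      map_comp := fun f g x => by
        rw [← Φ.map_comp]
        congr 1
        congr 1
        exact funext (X.map_comp f g) }
  map {X Y} f := ⟨fun n => Φ.map (f.app n), fun θ x => by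
    change Φ.map _ (Φ.map _ x) = Φ.map _ (Φ.map _ x)
    rw [← Φ.map_comp, ← Φ.map_comp]
    congr 1
    congr 1
    exact funext (f.nat θ)⟩
  map_id X := SGp.hom_ext fun n x => Φ.map_id x
  map_comp f g := SGp.hom_ext fun n x => Φ.map_comp (f.app n) (g.app n) x

/-- strong maps of simplicial sets: every functor to groups makes them isomorphisms of homotopy
groups -/
def SSt.Strong {X Y : SSt.{u}} (f : X ⟶ Y) : Prop := ∀ Φ : FGr.{u}, SGp.Weq (Φ.ap.map f)

/-- the map to the point -/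
def SSt.toPt (X : SSt.{u}) : X ⟶ SSt.const PUnit.{u + 1} := ⟨fun _ _ => PUnit.unit, fun _ _ => rfl⟩

/-- strongly contractible simplicial sets -/
def SSt.Contr (X : SSt.{u}) : Prop := SSt.Strong X.toPt

/-! ### pointed sets and their free groups -/

/-- the free group of a pointed set (the base point becomes trivial) -/
def Fr (X : Pointed.{u}) : Type u := FreeGroup X.X ⧸ Subgroup.normalClosure {FreeGroup.of X.point}

instance (X : Pointed.{u}) : Group (Fr X) :=
  inferInstanceAs (Group (FreeGroup X.X ⧸ Subgroup.normalClosure {FreeGroup.of X.point}))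

/-- the generators -/
def Fr.of (X : Pointed.{u}) (x : X.X) : Fr X := QuotientGroup.mk (FreeGroup.of x)

theorem Fr.of_point (X : Pointed.{u}) : Fr.of X X.point = 1 :=
  (QuotientGroup.eq_one_iff _).2 (Subgroup.subset_normalClosure rfl)

/-- the homomorphism of free groups -/
def Fr.map {X Y : Pointed.{u}} (f : X ⟶ Y) : Fr X →* Fr Y :=
  QuotientGroup.lift _ (FreeGroup.lift fun x => Fr.of Y (f.toFun x)) fun w hw => by
    have : Subgroup.normalClosure {FreeGroup.of X.point} ≤
        (FreeGroup.lift fun x => Fr.of Y (f.toFun x)).ker := by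
      refine Subgroup.normalClosure_le_normal ?_
      rintro _ rfl
      change FreeGroup.lift _ (FreeGroup.of X.point) = 1
      rw [FreeGroup.lift_apply_of, f.map_point, Fr.of_point]
    exact this hw

@[simp] theorem Fr.map_of {X Y : Pointed.{u}} (f : X ⟶ Y) (x : X.X) :
    Fr.map f (Fr.of X x) = Fr.of Y (f.toFun x) := by
  change FreeGroup.lift (fun x => Fr.of Y (f.toFun x)) (FreeGroup.of x) = _
  rw [FreeGroup.lift_apply_of]

theorem Fr.hom_ext {X : Pointed.{u}} {M : Type w} [Monoid M] {f g : Fr X →* M}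
    (h : ∀ x, f (Fr.of X x) = g (Fr.of X x)) : f = g := by
  exact QuotientGroup.monoidHom_ext _ (FreeGroup.ext_hom _ _ fun x => h x)

theorem Fr.map_id (X : Pointed.{u}) : Fr.map (𝟙 X) = MonoidHom.id _ :=
  Fr.hom_ext fun x => by rw [Fr.map_of]; rfl

theorem Fr.map_comp {X Y Z : Pointed.{u}} (f : X ⟶ Y) (g : Y ⟶ Z) :
    Fr.map (f ≫ g) = (Fr.map g).comp (Fr.map f) :=
  Fr.hom_ext fun x => by
    rw [Fr.map_of, MonoidHom.comp_apply, Fr.map_of, Fr.map_of]
    rfl

/-- the constant simplicial group on the free group, as a functor of the pointed set -/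
def cF : Pointed.{u} ⥤ SGp.{u} where
  obj X := SGp.const (Fr X)
  map f := SGp.constMap (Fr.map f)
  map_id X := SGp.hom_ext fun _ x => DFunLike.congr_fun (Fr.map_id X) x
  map_comp {X Y Z} f g := SGp.hom_ext fun _ x => DFunLike.congr_fun (Fr.map_comp f g) x

/-- the free simplicial group of a simplicial pointed set -/
def frS (X : SOb Pointed.{u}) : SGp.{u} where
  obj n := Fr (X.obj n)
  map f := Fr.map (X.map f)
  map_id n x := by rw [X.map_id, Fr.map_id]; rfl
  map_comp f g x := by rw [X.map_comp, Fr.map_comp]; rfl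

/-- the free simplicial group, as a functor -/
def frF : SOb Pointed.{u} ⥤ SGp.{u} where
  obj := frS
  map {X Y} f := ⟨fun n => Fr.map (f.app n), fun {m n} θ x => by
    change Fr.map _ (Fr.map _ x) = Fr.map _ (Fr.map _ x)
    rw [← MonoidHom.comp_apply, ← MonoidHom.comp_apply, ← Fr.map_comp, ← Fr.map_comp, f.nat]⟩
  map_id X := SGp.hom_ext fun n x => DFunLike.congr_fun (Fr.map_id (X.obj n)) x
  map_comp {X Y Z} f g := SGp.hom_ext fun n x =>
    DFunLike.congr_fun (Fr.map_comp (f.app n) (g.app n)) x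

/-- the underlying simplicial set of a simplicial pointed set -/
def undS (X : SOb Pointed.{u}) : SSt.{u} where
  obj n := (X.obj n).X
  map f := (X.map f).toFun
  map_id n x := by rw [X.map_id]; rfl
  map_comp f g x := by rw [X.map_comp]; rfl

/-- the underlying simplicial set, as a functor -/
def undF : SOb Pointed.{u} ⥤ SSt.{u} where
  obj := undS
  map {X Y} f := ⟨fun n => (f.app n).toFun, fun {m n} θ x =>
    congrArg (fun e : X.obj n ⟶ Y.obj m => e.toFun x) (f.nat θ)⟩

/-- the product of pointed sets -/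
def pProd (X Y : Pointed.{u}) : Pointed.{u} := ⟨X.X × Y.X, (X.point, Y.point)⟩

/-! ### the stable F-model -/

section Dk

variable {C : Type w} [Category.{v} C]

/-- a functor with values in simplicial groups, extended to simplicial objects -/
def ext (Ψ : C ⥤ SGp.{u}) : SOb C ⥤ SGp.{u} := SOb.mapF Ψ ⋙ SGp.diagF

/-- the functor `E ↦ diag (n ↦ Ψ (S_n E))` -/
def dS (S : C ⥤ SOb C) (Ψ : C ⥤ SGp.{u}) : C ⥤ SGp.{u} := S ⋙ ext Ψ

/-- its iterates -/
def dSk (S : C ⥤ SOb C) (Ψ : C ⥤ SGp.{u}) : ℕ → (C ⥤ SGp.{u})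
  | 0 => Ψ
  | k + 1 => dS S (dSk S Ψ k)

end Dk

end Pool.Agent.KQ
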