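import Pool.Agent.KQ.DEx
import Pool.Agent.KQ.DSG

/-!
# KQ: exact categories, more definitions

Relative S-constructions `relS` (index set `WithBot I`), `relT` (index set `WithTop I`), the category
`EE A R B` of conflations, chains `mono`, `epi`, simplicial exact categories `SEx`, equivalences
`ExEquiv`, the flip `S_I S_J E ≅ S_J S_I E`.
-/

set_option autoImplicit false
set_option linter.unusedVariables false

noncomputable section

namespace Pool.Agent.KQ

open CategoryTheory CategoryTheory.Limits
open scoped ZeroObject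

universe u

instance : Category ExCat.{u} where
  Hom := ExFun
  id := ExFun.id
  comp := ExFun.comp

/-! ### Natural isomorphisms, equivalences -/

/-- An equivalence of exact categories. -/
structure ExEquiv (E E' : ExCat.{u}) where
  /-- the functor -/
  fwd : ExFun E E'
  /-- the inverse functor -/
  bwd : ExFun E' E
  /-- unit -/
  unit : (𝟭 E.Ob) ≅ fwd.F ⋙ bwd.F
  /-- counit -/
  counit : bwd.F ⋙ fwd.F ≅ 𝟭 E'.Ob

/-! ### Simplicial exact categories -/

/-- the S-construction over `I`, as a functor -/
def SF (I : Type) [Preorder I] : ExCat.{u} ⥤ ExCat.{u} where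
  obj E := E.S I
  map F := F.S I

/-- the S-construction as a simplicial exact category, `S_m E = E.S (Fin (m + 1))` -/
def sdot (E : ExCat.{u}) : SOb ExCat.{u} :=
  ⟨fun m => E.S (Fin (m + 1)), fun f => E.Smap f, fun _ => rfl, fun _ _ => rfl⟩

/-- the S-construction as a functor to simplicial exact categories -/
def Sd : ExCat.{u} ⥤ SOb ExCat.{u} where
  obj := sdot
  map F := ⟨fun m => F.S (Fin (m + 1)), fun _ => rfl⟩

/-- the diagonal of a bisimplicial object of a category -/
def SOb.dg {C : Type*} [Category C] (X : SOb (SOb C)) : SOb C where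
  obj n := (X.obj n).obj n
  map {m n} f := (X.map f).app n ≫ (X.obj m).map f
  map_id n := by
    rw [X.map_id, (X.obj n).map_id]
    exact Category.id_comp _
  map_comp {l m n} f g := by
    rw [X.map_comp, (X.obj l).map_comp, SOb.comp_app, Category.assoc, Category.assoc]
    congr 1
    rw [← Category.assoc, ← Category.assoc]
    congr 1
    exact ((X.map f).nat g).symm

/-- the diagonal, as a functor -/
def SOb.dgF {C : Type*} [Category C] : SOb (SOb C) ⥤ SOb C where
  obj := SOb.dg
  map {X Y} f := ⟨fun n => (f.app n).app n, fun {m n} θ => by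
    change ((X.map θ).app n ≫ (X.obj m).map θ) ≫ (f.app m).app m =
      (f.app n).app n ≫ (Y.map θ).app n ≫ (Y.obj m).map θ
    rw [Category.assoc, (f.app m).nat, ← Category.assoc, ← Category.assoc, ← SOb.comp_app,
      ← SOb.comp_app, f.nat]⟩

/-- the simplicial exact category `n ↦ S_n X_n` -/
def SD : SOb ExCat.{u} ⥤ SOb ExCat.{u} := SOb.mapF Sd ⋙ SOb.dgF

/-- the simplicial set of objects of a simplicial exact category -/
def obS : SOb ExCat.{u} ⥤ SSt.{u + 1} where
  obj X := ⟨fun n => (X.obj n).Ob, fun f => (X.map f).F.obj, fun n x => by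
    rw [X.map_id]
    rfl, fun f g x => by
    rw [X.map_comp]
    rfl⟩
  map {X Y} F := ⟨fun n => (F.app n).F.obj, fun {m n} f x => by
    have h := congrArg (fun G : X.obj n ⟶ Y.obj m => G.F.obj x) (F.nat f)
    exact h⟩

/-- natural homotopies of maps of simplicial objects of a category -/
structure SOb.Htpy {C : Type*} [Category C] {X Y : SOb C} (f g : X ⟶ Y) where
  /-- the homotopy -/
  h : ∀ n : ℕ, (Fin (n + 1) →o Bool) → (X.obj n ⟶ Y.obj n)
  nat : ∀ {m n : ℕ} (θ : Mo m n) (α : Fin (n + 1) →o Bool),
    X.map θ ≫ h m (α.comp θ) = h n α ≫ Y.map θ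
  h0 : ∀ (n : ℕ) (α : Fin (n + 1) →o Bool), (∀ i, α i = false) → h n α = f.app n
  h1 : ∀ (n : ℕ) (α : Fin (n + 1) →o Bool), (∀ i, α i = true) → h n α = g.app n

/-! ### Relative S-constructions -/

/-- no condition on `D(⊥, j)`, and `D(i, j)` in `A` for `i ≠ ⊥` -/
def condS {E : ExCat.{u}} (A : SubP E) (I : Type) [Preorder I] (x : Ar (WithBot I)) : SubP E :=
  match x.1.1 with
  | none => SubP.top E
  | some _ => A

/-- no condition on `D(i, ⊤)`, and `D(i, j)` in `A` for `j ≠ ⊤` -/
def condT {E : ExCat.{u}} (A : SubP E) (I : Type) [Preorder I] (x : Ar (WithTop I)) : SubP E :=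
  match x.1.2 with
  | none => SubP.top E
  | some _ => A

/-- `relS E A I`: the S-diagrams over `⊥ ∪ I` in `E` with `D(i, j)` in `A` for `i, j ∈ I`: sequences
`D(⊥, i)` of objects of `E` and monomorphisms with cokernels in `A` (with chosen quotients) -/
def ExCat.relS (E : ExCat.{u}) (A : SubP E) (I : Type) [Preorder I] : ExCat.{u} :=
  E.SX (WithBot I) (condS A I)

/-- `relT E A I`: the S-diagrams over `I ∪ ⊤` in `E` with `D(i, j)` in `A` for `i, j ∈ I`: sequences
`D(i, ⊤)` of objects of `E` and epimorphisms with kernels in `A` (with chosen kernels) -/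
def ExCat.relT (E : ExCat.{u}) (A : SubP E) (I : Type) [Preorder I] : ExCat.{u} :=
  E.SX (WithTop I) (condT A I)

/-- the map of `WithBot` -/
def wb {I J : Type} [Preorder I] [Preorder J] (f : I →o J) : WithBot I →o WithBot J :=
  ⟨WithBot.map f, f.monotone.withBot_map⟩

/-- the map of `WithTop` -/
def wt {I J : Type} [Preorder I] [Preorder J] (f : I →o J) : WithTop I →o WithTop J :=
  ⟨WithTop.map f, f.monotone.withTop_map⟩

theorem condS_map {E : ExCat.{u}} (A : SubP E) {I J : Type} [Preorder I] [Preorder J]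
    (f : I →o J) (x : Ar (WithBot I)) : condS A J (Ar.map (wb f) x) = condS A I x := by
  obtain ⟨⟨i, j⟩, h⟩ := x
  cases i <;> rfl

theorem condT_map {E : ExCat.{u}} (A : SubP E) {I J : Type} [Preorder I] [Preorder J]
    (f : I →o J) (x : Ar (WithTop I)) : condT A J (Ar.map (wt f) x) = condT A I x := by
  obtain ⟨⟨i, j⟩, h⟩ := x
  cases j <;> rfl

/-- operators -/
def ExCat.relSmap (E : ExCat.{u}) (A : SubP E) {I J : Type} [Preorder I] [Preorder J]
    (f : I →o J) : ExFun (E.relS A J) (E.relS A I) :=
  E.SXmap (condS A I) (condS A J) (wb f) fun x X h => by rw [condS_map] at h; exact h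

/-- operators -/
def ExCat.relTmap (E : ExCat.{u}) (A : SubP E) {I J : Type} [Preorder I] [Preorder J]
    (f : I →o J) : ExFun (E.relT A J) (E.relT A I) :=
  E.SXmap (condT A I) (condT A J) (wt f) fun x X h => by rw [condT_map] at h; exact h

theorem wb_id (I : Type) [Preorder I] : wb (OrderHom.id : I →o I) = OrderHom.id := by
  apply OrderHom.ext
  funext x
  cases x <;> rfl

theorem wb_comp {I J K : Type} [Preorder I] [Preorder J] [Preorder K] (f : I →o J) (g : J →o K) :
    wb (g.comp f) = (wb g).comp (wb f) := by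
  apply OrderHom.ext
  funext x
  cases x <;> rfl

theorem wt_id (I : Type) [Preorder I] : wt (OrderHom.id : I →o I) = OrderHom.id := by
  apply OrderHom.ext
  funext x
  cases x <;> rfl

theorem wt_comp {I J K : Type} [Preorder I] [Preorder J] [Preorder K] (f : I →o J) (g : J →o K) :
    wt (g.comp f) = (wt g).comp (wt f) := by
  apply OrderHom.ext
  funext x
  cases x <;> rfl

theorem ExCat.SXmap_congr (E : ExCat.{u}) {I J : Type} [Preorder I] [Preorder J]
    (A : Ar I → SubP E) (B : Ar J → SubP E) {f g : I →o J} (hfg : f = g)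
    (h : ∀ x X, (B (Ar.map f x)).P X → (A x).P X) (h' : ∀ x X, (B (Ar.map g x)).P X → (A x).P X) :
    E.SXmap A B f h = E.SXmap A B g h' := by
  subst hfg
  rfl

theorem ExCat.relSmap_id (E : ExCat.{u}) (A : SubP E) (I : Type) [Preorder I] :
    E.relSmap A (OrderHom.id : I →o I) = ExFun.id _ :=
  (E.SXmap_congr (condS A I) (condS A I) (wb_id I) _ (fun x X h => h)).trans rfl

theorem ExCat.relSmap_comp (E : ExCat.{u}) (A : SubP E) {I J K : Type} [Preorder I] [Preorder J]
    [Preorder K] (f : I →o J) (g : J →o K) :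
    E.relSmap A (g.comp f) = (E.relSmap A g).comp (E.relSmap A f) :=
  (E.SXmap_congr (condS A I) (condS A K) (wb_comp f g) _ (fun x X h => by
    have h1 : condS A K (Ar.map ((wb g).comp (wb f)) x) = condS A I x := by
      rw [← wb_comp, condS_map]
    rw [h1] at h
    exact h)).trans rfl

theorem ExCat.relTmap_id (E : ExCat.{u}) (A : SubP E) (I : Type) [Preorder I] :
    E.relTmap A (OrderHom.id : I →o I) = ExFun.id _ :=
  (E.SXmap_congr (condT A I) (condT A I) (wt_id I) _ (fun x X h => h)).trans rfl

theorem ExCat.relTmap_comp (E : ExCat.{u}) (A : SubP E) {I J K : Type} [Preorder I] [Preorder J]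
    [Preorder K] (f : I →o J) (g : J →o K) :
    E.relTmap A (g.comp f) = (E.relTmap A g).comp (E.relTmap A f) :=
  (E.SXmap_congr (condT A I) (condT A K) (wt_comp f g) _ (fun x X h => by
    have h1 : condT A K (Ar.map ((wt g).comp (wt f)) x) = condT A I x := by
      rw [← wt_comp, condT_map]
    rw [h1] at h
    exact h)).trans rfl

/-- the relative S-construction (monomorphisms with cokernel in `A`) -/
def relS (E : ExCat.{u}) (A : SubP E) : SOb ExCat.{u} where
  obj := fun m => E.relS A (Fin (m + 1))
  map := fun f => E.relSmap A f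
  map_id := fun m => E.relSmap_id A _
  map_comp := fun f g => E.relSmap_comp A f g

/-- the relative S-construction (epimorphisms with kernel in `A`) -/
def relT (E : ExCat.{u}) (A : SubP E) : SOb ExCat.{u} where
  obj := fun m => E.relT A (Fin (m + 1))
  map := fun f => E.relTmap A f
  map_id := fun m => E.relTmap_id A _
  map_comp := fun f g => E.relTmap_comp A f g

/-- the inclusion of `I` in `⊥ ∪ I` -/
def coeB (I : Type) [Preorder I] : I →o WithBot I := ⟨fun i => (i : WithBot I), fun _ _ h =>
  WithBot.coe_le_coe.2 h⟩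

/-- the inclusion of `I` in `I ∪ ⊤` -/
def coeT (I : Type) [Preorder I] : I →o WithTop I := ⟨fun i => (i : WithTop I), fun _ _ h =>
  WithTop.coe_le_coe.2 h⟩

/-- the restriction `relS ⟶ S A` -/
def ExCat.relSr (E : ExCat.{u}) (A : SubP E) (I : Type) [Preorder I] :
    ExFun (E.relS A I) ((E.sub A).S I) :=
  E.SXtoS A (condS A I) (coeB I) fun _ _ h => h

/-- the restriction `relT ⟶ S A` -/
def ExCat.relTr (E : ExCat.{u}) (A : SubP E) (I : Type) [Preorder I] :
    ExFun (E.relT A I) ((E.sub A).S I) :=
  E.SXtoS A (condT A I) (coeT I) fun _ _ h => h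

/-- the restriction as a map of simplicial exact categories -/
def relSr (E : ExCat.{u}) (A : SubP E) : relS E A ⟶ sdot (E.sub A) :=
  ⟨fun m => E.relSr A (Fin (m + 1)), fun _ => rfl⟩

/-- the restriction as a map of simplicial exact categories -/
def relTr (E : ExCat.{u}) (A : SubP E) : relT E A ⟶ sdot (E.sub A) :=
  ⟨fun m => E.relTr A (Fin (m + 1)), fun _ => rfl⟩

end Pool.Agent.KQ
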