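import Pool.Agent.KQ.DEx3

/-!
# KQ: the exact category of conflations

`E.EE A B`: the conflations `a → e → b` in `E` with `a` in `A` and `b` in `B`; the ambient abelian
category is the category of short complexes.
-/

set_option autoImplicit false
set_option linter.unusedVariables false

noncomputable section

namespace Pool.Agent.KQ

open CategoryTheory CategoryTheory.Limits
open scoped ZeroObject

universe u

section sc

variable {C : Type*} [Category C] [Abelian C]

theorem ses_sc {X Y Z : ShortComplex C} (f : X ⟶ Y) (g : Y ⟶ Z) :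
    SES f g ↔ SES f.τ₁ g.τ₁ ∧ SES f.τ₂ g.τ₂ ∧ SES f.τ₃ g.τ₃ := by
  constructor
  · intro h
    exact ⟨⟨congrArg ShortComplex.Hom.τ₁ h.1, h.2.map_of_exact ShortComplex.π₁⟩,
      ⟨congrArg ShortComplex.Hom.τ₂ h.1, h.2.map_of_exact ShortComplex.π₂⟩,
      ⟨congrArg ShortComplex.Hom.τ₃ h.1, h.2.map_of_exact ShortComplex.π₃⟩⟩
  · rintro ⟨h1, h2, h3⟩
    have := h1.mono
    have := h2.mono
    have := h3.mono
    have := h1.epi
    have := h2.epi
    have := h3.epi
    rw [ses_iff]
    refine ⟨ShortComplex.hom_ext _ _ h1.w h2.w h3.w, ⟨fun a b hab => ?_⟩, ⟨fun a b hab => ?_⟩,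
      fun A y hy => ?_⟩
    · apply ShortComplex.hom_ext
      · rw [← cancel_mono f.τ₁]
        exact congrArg ShortComplex.Hom.τ₁ hab
      · rw [← cancel_mono f.τ₂]
        exact congrArg ShortComplex.Hom.τ₂ hab
      · rw [← cancel_mono f.τ₃]
        exact congrArg ShortComplex.Hom.τ₃ hab
    · apply ShortComplex.hom_ext
      · rw [← cancel_epi g.τ₁]
        exact congrArg ShortComplex.Hom.τ₁ hab
      · rw [← cancel_epi g.τ₂]
        exact congrArg ShortComplex.Hom.τ₂ hab
      · rw [← cancel_epi g.τ₃]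
        exact congrArg ShortComplex.Hom.τ₃ hab
    · obtain ⟨x1, e1⟩ := h1.lift y.τ₁ (congrArg ShortComplex.Hom.τ₁ hy)
      obtain ⟨x2, e2⟩ := h2.lift y.τ₂ (congrArg ShortComplex.Hom.τ₂ hy)
      obtain ⟨x3, e3⟩ := h3.lift y.τ₃ (congrArg ShortComplex.Hom.τ₃ hy)
      refine ⟨⟨x1, x2, x3, ?_, ?_⟩, ShortComplex.hom_ext _ _ e1 e2 e3⟩
      · rw [← cancel_mono f.τ₂, Category.assoc, Category.assoc, e2, ← f.comm₁₂, ← Category.assoc,
          e1, y.comm₁₂]
      · rw [← cancel_mono f.τ₃, Category.assoc, Category.assoc, e3, ← f.comm₂₃, ← Category.assoc,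
          e2, y.comm₂₃]
end sc

/-- the exact category of the conflations `a → e → b` with `a` in `A` and `b` in `B` -/
def ExCat.EE (E : ExCat.{u}) (A B : SubP E) : ExCat.{u} where
  C := ShortComplex E.C
  cat := inferInstance
  ab := inferInstance
  P := fun S => A.P S.X₁ ∧ E.P S.X₂ ∧ B.P S.X₃ ∧ SES S.f S.g
  iso := fun {S S'} e h => ⟨A.iso (ShortComplex.π₁.mapIso e) h.1,
    E.iso (ShortComplex.π₂.mapIso e) h.2.1, B.iso (ShortComplex.π₃.mapIso e) h.2.2.1,
    ses_of_iso h.2.2.2 (ShortComplex.π₁.mapIso e) (ShortComplex.π₂.mapIso e)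
      (ShortComplex.π₃.mapIso e) e.hom.comm₁₂ e.hom.comm₂₃⟩
  zero := fun S h => by
    have h1 : IsZero S.X₁ := ShortComplex.π₁.map_isZero h
    have h2 : IsZero S.X₂ := ShortComplex.π₂.map_isZero h
    have h3 : IsZero S.X₃ := ShortComplex.π₃.map_isZero h
    exact ⟨A.zero _ h1, E.zero _ h2, B.zero _ h3, ses_of_isZero _ _ h1 h2 h3⟩
  ext := fun {X Y Z} f g h hX hZ => by
    obtain ⟨h1, h2, h3⟩ := (ses_sc f g).1 h
    exact ⟨A.ext _ _ h1 hX.1 hZ.1, E.ext _ _ h2 hX.2.1 hZ.2.1, B.ext _ _ h3 hX.2.2.1 hZ.2.2.1,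
      nine_mid h1 h2 h3 hX.2.2.2 hZ.2.2.2 Y.zero f.comm₁₂.symm f.comm₂₃.symm g.comm₁₂.symm
        g.comm₂₃.symm⟩

/-- `a` -/
def ExCat.EEa (E : ExCat.{u}) (A B : SubP E) : ExFun (E.EE A B) (E.sub A) where
  F :=
    { obj := fun S => ⟨S.obj.X₁, S.property.1⟩
      map := fun f => ObjectProperty.homMk f.hom.τ₁
      map_id := fun _ => rfl
      map_comp := fun _ _ => rfl }
  add _ _ := rfl
  exact f g h := ((ses_sc f.hom g.hom).1 h).1

/-- `e` -/
def ExCat.EEe (E : ExCat.{u}) (A B : SubP E) : ExFun (E.EE A B) E where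
  F :=
    { obj := fun S => ⟨S.obj.X₂, S.property.2.1⟩
      map := fun f => ObjectProperty.homMk f.hom.τ₂
      map_id := fun _ => rfl
      map_comp := fun _ _ => rfl }
  add _ _ := rfl
  exact f g h := ((ses_sc f.hom g.hom).1 h).2.1

/-- `b` -/
def ExCat.EEb (E : ExCat.{u}) (A B : SubP E) : ExFun (E.EE A B) (E.sub B) where
  F :=
    { obj := fun S => ⟨S.obj.X₃, S.property.2.2.1⟩
      map := fun f => ObjectProperty.homMk f.hom.τ₃
      map_id := fun _ => rfl
      map_comp := fun _ _ => rfl }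
  add _ _ := rfl
  exact f g h := ((ses_sc f.hom g.hom).1 h).2.2

/-- a conflation `F' → F → F''` of exact functors -/
structure ExFun.Conf3 {E E' : ExCat.{u}} (F' F F'' : ExFun E E') where
  /-- the inflation -/
  α : F'.F ⟶ F.F
  /-- the deflation -/
  β : F.F ⟶ F''.F
  ses : ∀ X, E'.Conf (α.app X) (β.app X)

/-- the functor to the category of conflations given by a conflation of functors -/
def ExFun.Conf3.toEE {E E' : ExCat.{u}} {F' F F'' : ExFun E E'} (c : ExFun.Conf3 F' F F'')
    (A B : SubP E') (hA : ∀ X, A.P (F'.F.obj X).obj) (hB : ∀ X, B.P (F''.F.obj X).obj) :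
    ExFun E (E'.EE A B) where
  F :=
    { obj := fun X => ⟨ShortComplex.mk (c.α.app X).hom (c.β.app X).hom (c.ses X).w,
        hA X, (F.F.obj X).property, hB X, c.ses X⟩
      map := fun {X Y} f => ObjectProperty.homMk ⟨(F'.F.map f).hom, (F.F.map f).hom, (F''.F.map f).hom,
        congrArg InducedCategory.Hom.hom (c.α.naturality f),
        congrArg InducedCategory.Hom.hom (c.β.naturality f)⟩
      map_id := fun X => by
        apply ObjectProperty.hom_ext
        have h1 := congrArg InducedCategory.Hom.hom (F'.F.map_id X)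
        have h2 := congrArg InducedCategory.Hom.hom (F.F.map_id X)
        have h3 := congrArg InducedCategory.Hom.hom (F''.F.map_id X)
        exact ShortComplex.hom_ext _ _ h1 h2 h3
      map_comp := fun f g => by
        apply ObjectProperty.hom_ext
        have h1 := congrArg InducedCategory.Hom.hom (F'.F.map_comp f g)
        have h2 := congrArg InducedCategory.Hom.hom (F.F.map_comp f g)
        have h3 := congrArg InducedCategory.Hom.hom (F''.F.map_comp f g)
        exact ShortComplex.hom_ext _ _ h1 h2 h3 }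
  add f g := by
    apply ObjectProperty.hom_ext
    have h1 := congrArg InducedCategory.Hom.hom (F'.add f g)
    have h2 := congrArg InducedCategory.Hom.hom (F.add f g)
    have h3 := congrArg InducedCategory.Hom.hom (F''.add f g)
    exact ShortComplex.hom_ext _ _ h1 h2 h3
  exact f g h := (ses_sc _ _).2 ⟨F'.exact f g h, F.exact f g h, F''.exact f g h⟩

end Pool.Agent.KQ
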