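import Pool.Agent.KQ.StSG

/-!
# KQ: strong maps of simplicial sets: statements
-/

set_option autoImplicit false

namespace Pool.Agent.KQ

open CategoryTheory Function

universe u v w

/-! ### definitions -/

/-- two maps which are equal on all homotopy groups of all functors to groups -/
def SSt.StrEq {X Y : SSt.{u}} (f g : X ⟶ Y) : Prop :=
  ∀ (Φ : FGr.{u}) (n : ℕ), SGp.PiMap (Φ.ap.map f) n = SGp.PiMap (Φ.ap.map g) n

/-- the column `n` of a bisimplicial set: `m ↦ X_m n` -/
def SSt.col (X : SOb SSt.{u}) (n : ℕ) : SSt.{u} where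
  obj m := (X.obj m).obj n
  map θ := (X.map θ).app n
  map_id m x := by rw [X.map_id]; rfl
  map_comp f g x := by rw [X.map_comp]; rfl

/-- the map of columns -/
def SSt.colMap {X Y : SOb SSt.{u}} (f : X ⟶ Y) (n : ℕ) : SSt.col X n ⟶ SSt.col Y n :=
  ⟨fun m => (f.app m).app n, fun {m m'} θ x =>
    congrArg (fun e : X.obj m' ⟶ Y.obj m => e.app n x) (f.nat θ)⟩

/-- simplicial subsets -/
structure SubS (X : SSt.{u}) where
  s : ∀ n, Set (X.obj n)
  map_mem : ∀ {m n : ℕ} (θ : Mo m n) (x : X.obj n), x ∈ s n → X.map θ x ∈ s m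

/-- a simplicial subset as a simplicial set -/
def SubS.S {X : SSt.{u}} (A : SubS X) : SSt.{u} where
  obj n := A.s n
  map θ x := ⟨X.map θ x.1, A.map_mem θ x.1 x.2⟩
  map_id n x := Subtype.ext (X.map_id n x.1)
  map_comp f g x := Subtype.ext (X.map_comp f g x.1)

/-- the inclusion of a simplicial subset -/
def SubS.ι {X : SSt.{u}} (A : SubS X) : A.S ⟶ X := ⟨fun _ x => x.1, fun _ _ => rfl⟩

/-- the restriction of a map to simplicial subsets -/
def SubS.mapS {X Y : SSt.{u}} (f : X ⟶ Y) (A : SubS X) (B : SubS Y)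
    (h : ∀ n x, x ∈ A.s n → f.app n x ∈ B.s n) : A.S ⟶ B.S :=
  ⟨fun n x => ⟨f.app n x.1, h n x.1 x.2⟩, fun θ x => Subtype.ext (f.nat θ x.1)⟩

/-- the quotient in which a simplicial subset is collapsed to a point -/
def SubS.quot {X : SSt.{u}} (A : SubS X) : SSt.{u} where
  obj n := Quot fun x y : X.obj n => x ∈ A.s n ∧ y ∈ A.s n
  map θ := Quot.map (X.map θ) fun x y h => ⟨A.map_mem θ x h.1, A.map_mem θ y h.2⟩
  map_id n x := by
    induction x using Quot.ind
    exact congrArg _ (X.map_id n _)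
  map_comp f g x := by
    induction x using Quot.ind
    exact congrArg _ (X.map_comp f g _)

/-- the projection to the quotient -/
def SubS.π {X : SSt.{u}} (A : SubS X) : X ⟶ A.quot := ⟨fun _ x => Quot.mk _ x, fun _ _ => rfl⟩

/-- the fibre over `j` of a map to a constant simplicial set -/
def SSt.fib {X : SSt.{u}} {J : Type u} (p : X ⟶ SSt.const J) (j : J) : SubS X where
  s n := {x | p.app n x = j}
  map_mem θ x h := (p.nat θ x).trans h

/-! ### formal properties -/

/-- Homotopic maps are equal on homotopy groups; homotopy equivalences are strong; contractions.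

Proof. `Φ.map (h n α)` is a homotopy of homomorphisms; `St_Htpy`. -/
def St_StrHt : Prop := (∀ {X Y : SSt.{u}} (f g : X ⟶ Y), Nonempty (SSt.Htpy f g) →
    SSt.StrEq f g) ∧
  (∀ {X Y : SSt.{u}} (f : X ⟶ Y) (g : Y ⟶ X), SSt.StrEq (f ≫ g) (𝟙 X) →
    SSt.StrEq (g ≫ f) (𝟙 Y) → SSt.Strong f) ∧
  (∀ (X : SSt.{u}) (x : SSt.const PUnit.{u + 1} ⟶ X), SSt.StrEq (X.toPt ≫ x) (𝟙 X) →
    SSt.Contr X)

/-- Composition, two out of three, retracts, maps equal on homotopy groups. -/
def St_Str23 : Prop :=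
  (∀ {X Y Z : SSt.{u}} (f : X ⟶ Y) (g : Y ⟶ Z), SSt.Strong f → SSt.Strong g →
    SSt.Strong (f ≫ g)) ∧
  (∀ {X Y Z : SSt.{u}} (f : X ⟶ Y) (g : Y ⟶ Z), SSt.Strong f → SSt.Strong (f ≫ g) →
    SSt.Strong g) ∧
  (∀ {X Y Z : SSt.{u}} (f : X ⟶ Y) (g : Y ⟶ Z), SSt.Strong g → SSt.Strong (f ≫ g) →
    SSt.Strong f) ∧
  (∀ {X Y X' Y' : SSt.{u}} (f : X ⟶ Y) (f' : X' ⟶ Y') (i : X ⟶ X') (r : X' ⟶ X) (j : Y ⟶ Y')
    (s : Y' ⟶ Y), SSt.StrEq (i ≫ r) (𝟙 X) → SSt.StrEq (j ≫ s) (𝟙 Y) →
    SSt.StrEq (i ≫ f') (f ≫ j) → SSt.StrEq (r ≫ f) (f' ≫ s) → SSt.Strong f' → SSt.Strong f) ∧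
  (∀ {X Y : SSt.{u}} (f g : X ⟶ Y), SSt.StrEq f g → SSt.Strong f → SSt.Strong g)

/-! ### bisimplicial sets -/

/-- Rows strong ⇒ diagonal strong.

Proof. `Φ` of the diagonal is the diagonal of the bisimplicial group `m ↦ Φ(X_m)`; `St_RealW`. -/
def St_StrRow : Prop := ∀ {X Y : SOb SSt.{u}} (f : X ⟶ Y), (∀ m, SSt.Strong (f.app m)) →
  SSt.Strong (SSt.diagF.map f)

/-- Columns strong ⇒ diagonal strong.

Proof. The transposed bisimplicial set (rows `SSt.col X n`) has the same diagonal (the operators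
`m`- and `n`-wise commute by naturality of `X.map θ`); `St_StrRow`. -/
def St_StrCol : Prop := ∀ {X Y : SOb SSt.{u}} (f : X ⟶ Y), (∀ n, SSt.Strong (SSt.colMap f n)) →
  SSt.Strong (SSt.diagF.map f)

/-! ### products, sums, unions -/

/-- Products of strong maps.

Proof. `f × W → f' × W` first, `W` a simplicial set: bisimplicial set `(q, p) ↦ X_p × W_q`; the row
`q` is `X × W_q`, and `Φ (- × W_q)` is an `FGr` (an element of `Φ (A × W)` comes from a finite subset of
`A × W`, so from `S × W` with `S ⊆ A` finite). `St_StrRow`. Then compose. -/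
def St_StrProd : Prop := ∀ {X Y X' Y' : SSt.{u}} (f : X ⟶ Y) (f' : X' ⟶ Y'), SSt.Strong f →
  SSt.Strong f' → SSt.Strong (SSt.prodMap f f')

/-- Directed unions.

Proof. Let `Φ : FGr`. If `A ⊆ B` are sets and `A` is nonempty, `Φ(A) → Φ(B)` is injective (a
retraction). If the union is empty, everything is trivial. Otherwise we may restrict to the cofinal
set of `j` with `A_j` nonempty (nonempty in degree `0` and hence, by degeneracies, in all degrees; a
simplicial set with a simplex in some degree has one in degree `0`). An element of `Φ(X_n)` comes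
from a finite subset, so from `Φ((A j).s n)` for some `j`. First part: `x ∈ Z_n(Φ X)` comes from
`y ∈ Φ(A_j)`, the faces of `y` are trivial by injectivity, so `[x]` is the image of `[y] ∈ π_n(Φ A_j)`.
Second part: surjectivity on `π_n`: a cycle of `Φ(Y)` comes from `Φ(B_j)` (`B_j` nonempty), use that
`A_j → B_j` is strong. Injectivity: `x ∈ Z_n(Φ X)`, `f x = d_0 y`, `y ∈ N_{n+1}(Φ Y)`: choose `j` such
that `x` and `y` come from `Φ(A_j)`, `Φ(B_j)`, `A_j` nonempty; the equations hold there. (If `X` is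
empty, then so is `Y`: take `Φ` = free group on `Y`, `π_0`; then nothing to prove.) -/
def St_StrUnion : Prop :=
  (∀ {X Y : SSt.{u}} {J : Type u} [Nonempty J] (A : J → SubS X),
    (∀ i j, ∃ k, (∀ n x, x ∈ (A i).s n ∨ x ∈ (A j).s n → x ∈ (A k).s n)) →
    (∀ n x, ∃ j, x ∈ (A j).s n) → ∀ e e' : X ⟶ Y,
    (∀ j, SSt.StrEq ((A j).ι ≫ e) ((A j).ι ≫ e')) → SSt.StrEq e e') ∧
  (∀ {X Y : SSt.{u}} {J : Type u} [Nonempty J] (A : J → SubS X) (B : J → SubS Y)
    (f : X ⟶ Y) (h : ∀ j n x, x ∈ (A j).s n → f.app n x ∈ (B j).s n),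
    (∀ i j, ∃ k, (∀ n x, x ∈ (A i).s n ∨ x ∈ (A j).s n → x ∈ (A k).s n) ∧
      ∀ n x, x ∈ (B i).s n ∨ x ∈ (B j).s n → x ∈ (B k).s n) →
    (∀ n x, ∃ j, x ∈ (A j).s n) → (∀ n x, ∃ j, x ∈ (B j).s n) →
    (∀ j, SSt.Strong (SubS.mapS f (A j) (B j) (h j))) → SSt.Strong f)

/-- Sums of strong maps.

Proof. (1) `f + W → f' + W` for one simplicial set `W`: bisimplicial set `(q, p) ↦ X_p + W_q`,
`Φ (- + W_q)` is an `FGr`; `St_StrRow`. (2) Finite sums by induction. (3) `St_StrUnion` for the
finite subsets of `J` (the sum over a finite subset as simplicial subset). -/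
def St_StrSum : Prop := ∀ {J : Type u} {X Y : J → SSt.{u}} (f : ∀ j, X j ⟶ Y j),
  (∀ j, SSt.Strong (f j)) → SSt.Strong (SSt.sumMap f)

/-- Fibrewise strong maps: `X → Y` over a constant simplicial set, strong on all fibres; in
particular maps to a constant simplicial set with contractible fibres.

Proof. `X` is isomorphic to the sum of its fibres; `St_StrSum`. -/
def St_StrFib : Prop :=
  (∀ {X Y : SSt.{u}} {J : Type u} (f : X ⟶ Y) (p : X ⟶ SSt.const J) (q : Y ⟶ SSt.const J)
    (h : f ≫ q = p), (∀ j, SSt.Strong (SubS.mapS f (SSt.fib p j) (SSt.fib q j) fun n x hx => by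
      subst h; exact hx)) → SSt.Strong f) ∧
  (∀ {X : SSt.{u}} {J : Type u} (p : X ⟶ SSt.const J), (∀ j, SSt.Contr (SSt.fib p j).S) →
    SSt.Strong p)

/-! ### pointed simplicial sets -/

/-- Strong maps of simplicial pointed sets give isomorphisms for the free groups.

Proof. `Fr X` is naturally a retract of `FreeGroup X` (an `FGr`): `[x] ↦ x * x₀⁻¹` and `x ↦ [x]`,
`x₀` the base point; both are natural for maps of pointed sets. A retract of a bijection is a
bijection. -/
def St_StrFr : Prop := ∀ {X Y : SOb Pointed.{u}} (f : X ⟶ Y), SSt.Strong (undF.map f) →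
  SGp.Weq (frF.map f)

/-- Collapsing a contractible simplicial subset is strong.

Proof. For a simplicial subset `A` of `X` let `W(A)` be the bisimplicial set
`W_{p,n} = X_n + {(a, α) : a ∈ A_n, α : [p] → Bool monotone, not constant} + pt`; the operator
`θ` in the direction `p` takes `(a, α)` to `(a, α θ)` if this is not constant, to `a ∈ X_n` if `α θ` is
constantly `false`, to `pt` if it is constantly `true`; in the direction `n` clear. (So `(a, false) = a`,
`(a, true) = pt`: the mapping cone.)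
(i) `W → A.quot` (`x ↦ [x]`, the rest to the point `[A]`; constant in `p`) is strong on the columns
(`n` fixed), hence on the diagonal, if `A_n` is nonempty: section: `[x] ↦ x` for `x ∉ A_n`,
`[A] ↦ pt`; homotopy `H_β`: `x ↦ x` for `x ∉ A_n`, `(a, α) ↦ (a, α ∨ β)` for `a ∈ A_n` (also for constant
`α`), `pt ↦ pt`.
(ii) `A` is nonempty (`Φ` = free group, `π_0`), take a vertex `a_0` of `A` and let `P ⊆ A` consist of
its degeneracies. `W(P) → W(A)` is strong on the rows (`p` fixed): it is the sum of the identities of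
`X` and `pt` and of finitely many copies of `P → A`, which is strong because `A → pt` and `P → pt`
are (`St_StrSum`).
(iii) `W(P) → P.quot → A.quot` is `W(P) → W(A) → A.quot`, so `P.quot → A.quot` is strong, and
`X → P.quot` is an isomorphism. -/
def St_StrPair : Prop := ∀ {X : SSt.{u}} (A : SubS X), SSt.Contr A.S → SSt.Strong A.π

end Pool.Agent.KQ
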