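import Pool.Agent.KQ.AddB
import Pool.Agent.KQ.DEx2
import Pool.Agent.KQ.StStr

/-!
# KQ: naturally isomorphic exact functors are homotopic (architect helper83)

* `SOb.Htpy.ext`: functors with values in simplicial groups preserve homotopies.
* `ExFun.mix e I α : ExFun (E.S I) (E'.S I)` for `e : F.F ≅ G.F`, `α : I →o Bool`: it is `F` on the
  entries `(i, j)` with `α j = false` and `G` on the others.
* `natHtpy e : SOb.Htpy (Sd.map F) (Sd.map G)`.
-/

set_option autoImplicit false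
set_option linter.unusedVariables false

noncomputable section

namespace Pool.Agent.KQ

open CategoryTheory CategoryTheory.Limits

universe u v w

/-! ### homotopies of simplicial objects -/

/-- functors with values in simplicial groups preserve homotopies -/
def SOb.Htpy.ext {C : Type u} [Category.{v} C] {X Y : SOb C} {f g : X ⟶ Y}
    (H : SOb.Htpy f g) (Ψ : C ⥤ SGp.{w}) :
    SGp.Htpy ((Pool.Agent.KQ.ext Ψ).map f) ((Pool.Agent.KQ.ext Ψ).map g) where
  h n α := (Ψ.map (H.h n α)).app n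
  nat {m n} θ α x := by
    change (Ψ.map (H.h m (α.comp θ))).app m
        ((Ψ.obj (X.obj m)).map θ ((Ψ.map (X.map θ)).app n x)) =
      (Ψ.obj (Y.obj m)).map θ ((Ψ.map (Y.map θ)).app n ((Ψ.map (H.h n α)).app n x))
    rw [(Ψ.map (H.h m (α.comp θ))).nat, ← SGp.comp_app, ← SGp.comp_app, ← Ψ.map_comp,
      ← Ψ.map_comp, H.nat]
  h0 n α x hα := by
    change (Ψ.map (H.h n α)).app n x = (Ψ.map (f.app n)).app n x
    rw [H.h0 n α hα]
  h1 n α x hα := by
    change (Ψ.map (H.h n α)).app n x = (Ψ.map (g.app n)).app n x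
    rw [H.h1 n α hα]

/-! ### the S-construction as a functor -/

/-- the map on objects of S-constructions -/
def ExFun.oS {E E' : ExCat.{u}} (F : ExFun E E') : E.oS ⟶ E'.oS :=
  ⟨fun n X => (F.S (Fin (n + 1))).F.obj X, fun _ _ => rfl⟩

theorem ExFun.oS_id (E : ExCat.{u}) : (ExFun.id E).oS = 𝟙 _ := rfl

theorem ExFun.oS_comp {E E' E'' : ExCat.{u}} (F : ExFun E E') (G : ExFun E' E'') :
    (F.comp G).oS = F.oS ≫ G.oS := rfl

/-! ### mixing -/

theorem nt_heq {K : Type} [Preorder K] {C : Type (u + 1)} [Category.{u} C] {D D' G G' : K ⥤ C}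
    (h : D = D') (h' : G = G') (f : D ⟶ G) (g : D' ⟶ G') (hh : ∀ q, HEq (f.app q) (g.app q)) :
    HEq f g := by
  subst h h'
  exact heq_of_eq (NatTrans.ext (funext fun q => eq_of_heq (hh q)))

theorem full_heq {C : Type (u + 1)} [Category.{u} C] {P : ObjectProperty C}
    {X X' Y Y' : P.FullSubcategory} (h : X = X') (h' : Y = Y') (f : X ⟶ Y) (g : X' ⟶ Y')
    (hh : HEq f.hom g.hom) : HEq f g := by
  subst h h'
  exact heq_of_eq (ObjectProperty.hom_ext _ (eq_of_heq hh))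

section

variable {E E' : ExCat.{u}} {F G : ExFun E E'} (e : F.F ≅ G.F) {I : Type} [Preorder I]

/-- the isomorphism of diagrams -/
def natD {K : Type} [Preorder K] (D : K ⥤ E.C) (h : ∀ q, E.P (D.obj q)) :
    F.onD D h ≅ G.onD D h :=
  Functor.isoWhiskerLeft (E.lift D h) (Functor.isoWhiskerRight e E'.P.ι)

/-- the mixed diagram -/
def mixObj (α : I →o Bool) (D : (E.S I).Ob) : (E'.S I).Ob :=
  ⟨MixD (K := Ar I) (F.onD D.obj ((E.SP I).pt _ D.property))
      (G.onD D.obj ((E.SP I).pt _ D.property)).obj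
      (fun q => (natD e D.obj ((E.SP I).pt _ D.property)).app q) (fun q => α q.1.2),
    SP_iso (MixI (K := Ar I) (F.onD D.obj ((E.SP I).pt _ D.property))
      (G.onD D.obj ((E.SP I).pt _ D.property)).obj
      (fun q => (natD e D.obj ((E.SP I).pt _ D.property)).app q) (fun q => α q.1.2))
      ((F.S I).F.obj D).property⟩

/-- it is isomorphic to `F` -/
def mixObjI (α : I →o Bool) (D : (E.S I).Ob) : (F.S I).F.obj D ≅ mixObj e α D :=
  ObjectProperty.isoMk _ (MixI (K := Ar I) (F.onD D.obj ((E.SP I).pt _ D.property))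
      (G.onD D.obj ((E.SP I).pt _ D.property)).obj
      (fun q => (natD e D.obj ((E.SP I).pt _ D.property)).app q) (fun q => α q.1.2))

/-- the mixed functor -/
def ExFun.mix (I : Type) [Preorder I] (α : I →o Bool) : ExFun (E.S I) (E'.S I) where
  F := (F.S I).F.copyObj (mixObj e α) (mixObjI e α)
  add {X Y} f g := by
    change (mixObjI e α X).inv ≫ (F.S I).F.map (f + g) ≫ (mixObjI e α Y).hom =
      (mixObjI e α X).inv ≫ (F.S I).F.map f ≫ (mixObjI e α Y).hom +
        (mixObjI e α X).inv ≫ (F.S I).F.map g ≫ (mixObjI e α Y).hom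
    rw [(F.S I).add, Preadditive.add_comp, Preadditive.comp_add]
  exact {X Y Z} f g h := by
    have h1 := (F.S I).exact f g h
    refine ses_of_iso h1 ((E'.S I).P.ι.mapIso (mixObjI e α X)) ((E'.S I).P.ι.mapIso (mixObjI e α Y))
      ((E'.S I).P.ι.mapIso (mixObjI e α Z)) ?_ ?_
    · change ((mixObjI e α X).hom ≫ (mixObjI e α X).inv ≫ (F.S I).F.map f ≫
        (mixObjI e α Y).hom).hom = ((F.S I).F.map f ≫ (mixObjI e α Y).hom).hom
      rw [Iso.hom_inv_id_assoc]
    · change ((mixObjI e α Y).hom ≫ (mixObjI e α Y).inv ≫ (F.S I).F.map g ≫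
        (mixObjI e α Z).hom).hom = ((F.S I).F.map g ≫ (mixObjI e α Z).hom).hom
      rw [Iso.hom_inv_id_assoc]

theorem ExFun.mix_nat {J : Type} [Preorder J] (θ : J →o I) (α : I →o Bool) :
    (E.Smap θ).comp (ExFun.mix e J (α.comp θ)) = (ExFun.mix e I α).comp (E'.Smap θ) := rfl

theorem mixObj_false (α : I →o Bool) (hα : ∀ i, α i = false) (D : (E.S I).Ob) :
    mixObj e α D = (F.S I).F.obj D := by
  obtain rfl : α = ⟨fun _ => false, fun _ _ _ => le_rfl⟩ := OrderHom.ext _ _ (funext hα)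
  apply ObjectProperty.FullSubcategory.ext
  exact MixD_false (K := Ar I) _ _ _

theorem mixObj_true (α : I →o Bool) (hα : ∀ i, α i = true) (D : (E.S I).Ob) :
    mixObj e α D = (G.S I).F.obj D := by
  obtain rfl : α = ⟨fun _ => true, fun _ _ _ => le_rfl⟩ := OrderHom.ext _ _ (funext hα)
  apply ObjectProperty.FullSubcategory.ext
  exact MixD_true (K := Ar I) _ _ _

theorem ExFun.mix_false (α : I →o Bool) (hα : ∀ i, α i = false) : ExFun.mix e I α = F.S I := by
  have h0 := mixObj_false e α hα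
  obtain rfl : α = ⟨fun _ => false, fun _ _ _ => le_rfl⟩ := OrderHom.ext _ _ (funext hα)
  apply ExFun.ext'
  refine CategoryTheory.Functor.hext (fun D => h0 D) fun D D' f => ?_
  refine full_heq (h0 D) (h0 D') _ _ ?_
  refine nt_heq (congrArg ObjectProperty.FullSubcategory.obj (h0 D))
    (congrArg ObjectProperty.FullSubcategory.obj (h0 D')) _ _ fun q => heq_of_eq ?_
  change 𝟙 _ ≫ ((F.S I).F.map f).hom.app q ≫ 𝟙 _ = ((F.S I).F.map f).hom.app q
  rw [Category.id_comp, Category.comp_id]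

theorem ExFun.mix_true (α : I →o Bool) (hα : ∀ i, α i = true) : ExFun.mix e I α = G.S I := by
  have h0 := mixObj_true e α hα
  obtain rfl : α = ⟨fun _ => true, fun _ _ _ => le_rfl⟩ := OrderHom.ext _ _ (funext hα)
  apply ExFun.ext'
  refine CategoryTheory.Functor.hext (fun D => h0 D) fun D D' f => ?_
  refine full_heq (h0 D) (h0 D') _ _ ?_
  refine nt_heq (congrArg ObjectProperty.FullSubcategory.obj (h0 D))
    (congrArg ObjectProperty.FullSubcategory.obj (h0 D')) _ _ fun q => heq_of_eq ?_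
  have h1 := e.hom.naturality (X := (E.lift D.obj ((E.SP I).pt _ D.property)).obj q)
    (Y := (E.lift D'.obj ((E.SP I).pt _ D'.property)).obj q)
    (ObjectProperty.homMk (f.hom.app q))
  change (e.inv.app _ ≫ F.F.map _ ≫ e.hom.app _).hom = (G.F.map _).hom
  rw [h1, Iso.inv_hom_id_app_assoc]

end

/-- NATURALLY ISOMORPHIC FUNCTORS ARE HOMOTOPIC -/
def natHtpy {E E' : ExCat.{u}} {F G : E ⟶ E'} (e : ExFun.F F ≅ ExFun.F G) :
    SOb.Htpy (Sd.map F) (Sd.map G) where
  h n α := ExFun.mix e (Fin (n + 1)) α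
  nat θ α := ExFun.mix_nat e θ α
  h0 n α hα := ExFun.mix_false e α hα
  h1 n α hα := ExFun.mix_true e α hα

/-- the homotopy on objects -/
def natHtpyS {E E' : ExCat.{u}} {F G : ExFun E E'} (e : F.F ≅ G.F) : SSt.Htpy F.oS G.oS where
  h n α X := (ExFun.mix e (Fin (n + 1)) α).F.obj X
  nat θ α X := rfl
  h0 n α X hα := by rw [ExFun.mix_false e α hα]; rfl
  h1 n α X hα := by rw [ExFun.mix_true e α hα]; rfl

theorem natStrEq (h1 : St_StrHt.{u + 1}) {E E' : ExCat.{u}} {F G : ExFun E E'} (e : F.F ≅ G.F) :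
    SSt.StrEq F.oS G.oS := h1.1 _ _ ⟨natHtpyS e⟩

/-- equivalences are strong -/
theorem equivStrong (h1 : St_StrHt.{u + 1}) {E E' : ExCat.{u}} (W : ExEquiv E E') :
    SSt.Strong W.fwd.oS := by
  refine h1.2.1 W.fwd.oS W.bwd.oS ?_ ?_
  · exact h1.1 _ _ ⟨natHtpyS (F := W.fwd.comp W.bwd) (G := ExFun.id E) W.unit.symm⟩
  · exact h1.1 _ _ ⟨natHtpyS (F := W.bwd.comp W.fwd) (G := ExFun.id E') W.counit⟩

/-- naturally isomorphic functors induce the same homomorphisms of homotopy groups -/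
theorem natPi (h1 : St_Htpy.{w}) {E E' : ExCat.{u}} {F G : E ⟶ E'}
    (e : ExFun.F F ≅ ExFun.F G) (Ψ : ExCat.{u} ⥤ SGp.{w}) (n : ℕ) :
    SGp.PiMap ((dS Sd Ψ).map F) n = SGp.PiMap ((dS Sd Ψ).map G) n :=
  h1 _ _ ⟨(natHtpy e).ext Ψ⟩ n

/-- equivalences induce isomorphisms of homotopy groups -/
theorem equivWeq (h1 : St_Htpy.{w}) {E E' : ExCat.{u}} (W : ExEquiv E E')
    (Ψ : ExCat.{u} ⥤ SGp.{w}) :
    SGp.Weq ((dS Sd Ψ).map (X := E) (Y := E') W.fwd) := by
  intro n
  have h2 := natPi h1 (F := (W.fwd.comp W.bwd : E ⟶ E)) (G := 𝟙 E) W.unit.symm Ψ n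
  have h3 := natPi h1 (F := (W.bwd.comp W.fwd : E' ⟶ E')) (G := 𝟙 E') W.counit Ψ n
  have h4 : (W.fwd.comp W.bwd : E ⟶ E) = (show E ⟶ E' from W.fwd) ≫ (show E' ⟶ E from W.bwd) :=
    rfl
  have h5 : (W.bwd.comp W.fwd : E' ⟶ E') = (show E' ⟶ E from W.bwd) ≫ (show E ⟶ E' from W.fwd) :=
    rfl
  rw [h4, (dS Sd Ψ).map_comp, (dS Sd Ψ).map_id] at h2
  rw [h5, (dS Sd Ψ).map_comp, (dS Sd Ψ).map_id] at h3
  refine Function.bijective_iff_has_inverse.2
    ⟨SGp.PiMap ((dS Sd Ψ).map (X := E') (Y := E) W.bwd) n, fun x => ?_, fun x => ?_⟩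
  · have h6 := DFunLike.congr_fun h2 x
    rw [SGp.PiMap_comp, SGp.PiMap_id] at h6
    exact h6
  · have h6 := DFunLike.congr_fun h3 x
    rw [SGp.PiMap_comp, SGp.PiMap_id] at h6
    exact h6

end Pool.Agent.KQ
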