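import Pool.Agent.KQ.AddC
import Pool.Agent.KQ.DEx4
import Pool.Agent.KQ.NatIso

/-!
# KQ: strong additivity for the exact category of conflations
-/

set_option autoImplicit false
set_option linter.unusedVariables false

noncomputable section

namespace Pool.Agent.KQ

open CategoryTheory CategoryTheory.Limits

universe u

variable (E : ExCat.{u}) (A B : SubP E)

/-- the S-diagrams of conflations as conflations of S-diagrams -/
def EE.toExt (I : Type) [Preorder I] (D : ((E.EE A B).S I).Ob) : Ext E A B I where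
  a := ((E.EEa A B).S I).F.obj D
  e := ((E.EEe A B).S I).F.obj D
  b := ((E.EEb A B).S I).F.obj D
  α :=
    { app := fun q => ((show Ar I ⥤ ShortComplex E.C from D.obj).obj q).f
      naturality := fun q q' f => ((show Ar I ⥤ ShortComplex E.C from D.obj).map f).comm₁₂ }
  β :=
    { app := fun q => ((show Ar I ⥤ ShortComplex E.C from D.obj).obj q).g
      naturality := fun q q' f => ((show Ar I ⥤ ShortComplex E.C from D.obj).map f).comm₂₃ }
  ses q := (D.property.1 q).2.2.2

/-- conflations of S-diagrams as S-diagrams of conflations -/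
def EE.ofExt (I : Type) [Preorder I] (t : Ext E A B I) : ((E.EE A B).S I).Ob where
  obj :=
    { obj := fun q => ShortComplex.mk (t.α.app q) (t.β.app q) (t.ses q).w
      map := fun {q q'} f => ⟨(show Ar I ⥤ E.C from t.a.obj).map f,
        (show Ar I ⥤ E.C from t.e.obj).map f, (show Ar I ⥤ E.C from t.b.obj).map f,
        t.α.naturality f, t.β.naturality f⟩
      map_id := fun q => by
        apply ShortComplex.hom_ext
        · exact (show Ar I ⥤ E.C from t.a.obj).map_id q
        · exact (show Ar I ⥤ E.C from t.e.obj).map_id q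
        · exact (show Ar I ⥤ E.C from t.b.obj).map_id q
      map_comp := fun f g => by
        apply ShortComplex.hom_ext
        · exact (show Ar I ⥤ E.C from t.a.obj).map_comp f g
        · exact (show Ar I ⥤ E.C from t.e.obj).map_comp f g
        · exact (show Ar I ⥤ E.C from t.b.obj).map_comp f g }
  property := by
    refine ⟨fun q => ⟨t.a.property.1 q, t.e.property.1 q, t.b.property.1 q, t.ses q⟩, fun i => ?_,
      fun i j k hij hjk => ?_⟩
    · rw [IsZero.iff_id_eq_zero]
      exact ShortComplex.hom_ext _ _ ((t.a.property.2.1 i).eq_of_src _ _)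
        ((t.e.property.2.1 i).eq_of_src _ _) ((t.b.property.2.1 i).eq_of_src _ _)
    · exact (ses_sc _ _).2 ⟨t.a.property.2.2 i j k hij hjk, t.e.property.2.2 i j k hij hjk,
        t.b.property.2.2 i j k hij hjk⟩

theorem EE.toExt_ofExt (I : Type) [Preorder I] (t : Ext E A B I) :
    EE.toExt E A B I (EE.ofExt E A B I t) = t := rfl

theorem EE.ofExt_toExt (I : Type) [Preorder I] (D : ((E.EE A B).S I).Ob) :
    EE.ofExt E A B I (EE.toExt E A B I D) = D := rfl

/-- `(EE A B).oS ⟶ ExtS` -/
def EE.toS : (E.EE A B).oS ⟶ ExtS E A B := ⟨fun n D => EE.toExt E A B (Fin (n + 1)) D, fun _ _ => rfl⟩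

/-- `ExtS ⟶ (EE A B).oS` -/
def EE.ofS : ExtS E A B ⟶ (E.EE A B).oS := ⟨fun n D => EE.ofExt E A B (Fin (n + 1)) D, fun _ _ => rfl⟩

/-- the outer terms -/
def EE.ab : (E.EE A B).oS ⟶ (E.sub A).oS.prod (E.sub B).oS :=
  ⟨fun n D => ((E.EEa A B).oS.app n D, (E.EEb A B).oS.app n D), fun _ _ => rfl⟩

/-- STRONG ADDITIVITY for the exact category of conflations -/
theorem EE_strong (h1 : St_StrHt.{u + 1}) (h2 : St_Str23.{u + 1}) (h3 : St_StrRow.{u + 1})
    (h4 : St_StrCol.{u + 1}) : SSt.Strong (EE.ab E A B) := by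
  have h5 : SSt.Strong (EE.toS E A B) := by
    refine h1.2.1 (EE.toS E A B) (EE.ofS E A B) ?_ ?_
    · intro Φ n
      rfl
    · intro Φ n
      rfl
  have h6 : EE.ab E A B = EE.toS E A B ≫ extAB E A B := rfl
  rw [h6]
  exact h2.1 _ _ h5 (extAB_strong E A B h1 h2 h3 h4)

end Pool.Agent.KQ
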