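import Pool.Agent.KQ.DSG

/-!
# KQ: powers of simplicial sets
-/

set_option autoImplicit false

namespace Pool.Agent.KQ

open CategoryTheory Function

universe u

/-- powers of simplicial sets -/
def SSt.pow (X : SSt.{u}) (p : ℕ) : SSt.{u} where
  obj n := Fin p → X.obj n
  map f x := fun i => X.map f (x i)
  map_id n x := funext fun i => X.map_id n (x i)
  map_comp f g x := funext fun i => X.map_comp f g (x i)

/-- the power of a map -/
def SSt.powMap {X Y : SSt.{u}} (f : X ⟶ Y) (p : ℕ) : X.pow p ⟶ Y.pow p :=
  ⟨fun n x i => f.app n (x i), fun θ x => funext fun i => f.nat θ (x i)⟩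

end Pool.Agent.KQ
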