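import Pool.Agent.KQ.DKn
import Pool.Agent.KQ.StStr
import Pool.Agent.KQ.AddE
import Pool.Agent.KQ.Pow

/-!
# KQ: exact categories: definitions and statements (architect helper33)

`E.oS = obS.obj (Sd.obj E)` is the simplicial set `n ↦ ob S_n E`; `obS.obj (SD.obj X)` is
`n ↦ ob S_n X_n`. All these sets are unpointed; `zq` is the passage to the pointed sets in which all
zero objects are identified.
-/

set_option autoImplicit false
set_option linter.unusedVariables false

noncomputable section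

namespace Pool.Agent.KQ

open CategoryTheory CategoryTheory.Limits Function

universe u

/-! ### definitions -/

/-- the map of the simplicial sets of objects given by a pair of exact functors -/
def pairS {E E₁ E₂ : ExCat.{u}} (f : ExFun E E₁) (g : ExFun E E₂) : E.oS ⟶ E₁.oS.prod E₂.oS :=
  ⟨fun n x => ((f.S (Fin (n + 1))).F.obj x, (g.S (Fin (n + 1))).F.obj x), fun _ _ => rfl⟩

/-- the homomorphism of simplicial groups given by a pair of exact functors -/
def pairD (k : ℕ) {E E₁ E₂ : ExCat.{u}} (f : ExFun E E₁) (g : ExFun E E₂) :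
    (DK k).obj E ⟶ ((DK k).obj E₁).prod ((DK k).obj E₂) :=
  SGp.lift ((DK k).map f) ((DK k).map g)

/-- identify all zero objects -/
def zq (X : SOb ExCat.{u}) : obS.obj X ⟶ undF.obj ((SOb.mapF obF).obj X) :=
  ⟨fun n x => Quot.mk _ x, fun _ _ => rfl⟩

/-- evaluation of S-diagrams -/
def ExCat.ev (E : ExCat.{u}) {I : Type} [Preorder I] (x : Ar I) : ExFun (E.S I) E where
  F :=
    { obj := fun D => ⟨D.obj.obj x, D.property.1 x⟩
      map := fun f => ObjectProperty.homMk (f.hom.app x)
      map_id := fun _ => rfl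
      map_comp := fun _ _ => rfl }
  add _ _ := rfl
  exact f g h := (ses_functor f.hom g.hom).1 h x

/-- `x ↦ (x(0,1), x(1,2), …, x(p-1,p))` -/
def spine (E : ExCat.{u}) (p : ℕ) : (E.S (Fin (p + 1))).oS ⟶ E.oS.pow p :=
  ⟨fun n x i => ((E.ev (ar i.castSucc i.succ (Fin.castSucc_le_succ i))).S
    (Fin (n + 1))).F.obj x, fun _ _ => rfl⟩

/-- `I` is cut at `c`: `L` is (isomorphic to) the part below `c`, `U` the part above `c` -/
structure Cut (I L U : Type) [PartialOrder I] [Preorder L] [Preorder U] where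
  /-- inclusion of the lower part -/
  l : L →o I
  /-- projection to the lower part -/
  l' : I →o L
  /-- inclusion of the upper part -/
  u : U →o I
  /-- projection to the upper part -/
  u' : I →o U
  /-- the cut -/
  c : I
  ll : ∀ a, l' (l a) = a
  uu : ∀ a, u' (u a) = a
  low : ∀ i, l (l' i) ≤ i
  high : ∀ i, i ≤ u (u' i)
  cut : ∀ i, (l (l' i) = i ∧ u (u' i) = c) ∨ (l (l' i) = c ∧ u (u' i) = i)

/-- `0 ↦ ⊥`, `1 ↦ 0` -/
def lB (p : ℕ) : Fin 2 →o WithBot (Fin (p + 1)) where
  toFun := ![⊥, (0 : Fin (p + 1))]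
  monotone' := by
    intro a b h
    fin_cases a <;> fin_cases b
    · exact le_rfl
    · exact bot_le
    · exact absurd h (by decide)
    · exact le_rfl

/-- `0 ↦ p`, `1 ↦ ⊤` -/
def uT (p : ℕ) : Fin 2 →o WithTop (Fin (p + 1)) where
  toFun := ![(Fin.last p : Fin (p + 1)), ⊤]
  monotone' := by
    intro a b h
    fin_cases a <;> fin_cases b
    · exact le_rfl
    · exact le_top
    · exact absurd h (by decide)
    · exact le_rfl

/-- `x ↦ x(⊥, 0)` (as an object of `S_1 E`) -/
def tS (E : ExCat.{u}) (A : SubP E) (p : ℕ) : ExFun (E.relS A (Fin (p + 1))) (E.S (Fin 2)) :=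
  E.SXtoS (SubP.top E) (condS A (Fin (p + 1))) (lB p) fun _ _ h => (condS A _ _).le _ h

/-- `x ↦ x(p, ⊤)` (as an object of `S_1 E`) -/
def tT (E : ExCat.{u}) (A : SubP E) (p : ℕ) : ExFun (E.relT A (Fin (p + 1))) (E.S (Fin 2)) :=
  E.SXtoS (SubP.top E) (condT A (Fin (p + 1))) (uT p) fun _ _ h => (condT A _ _).le _ h

/-- an exact functor with values in a subcategory -/
def ExFun.toSub {E E' : ExCat.{u}} (F : ExFun E E') (A : SubP E')
    (h : ∀ X, A.P (F.F.obj X).obj) : ExFun E (E'.sub A) where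
  F :=
    { obj := fun X => ⟨(F.F.obj X).obj, h X⟩
      map := fun f => ObjectProperty.homMk (F.F.map f).hom
      map_id := fun X => by
        apply ObjectProperty.hom_ext
        have h1 := congrArg InducedCategory.Hom.hom (F.F.map_id X)
        exact h1
      map_comp := fun f g => by
        apply ObjectProperty.hom_ext
        have h1 := congrArg InducedCategory.Hom.hom (F.F.map_comp f g)
        exact h1 }
  add f g := by
    apply ObjectProperty.hom_ext
    have h1 := congrArg InducedCategory.Hom.hom (F.add f g)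
    exact h1
  exact f g h := F.exact f g h

/-- all values of `F` are zero objects -/
def ExFun.IsZ {E E' : ExCat.{u}} (F : ExFun E E') : Prop := ∀ X, IsZero (F.F.obj X).obj

/-! ### statements -/

/-- Strong additivity for `EE` (helper83, proved in KQ/AddF). -/
def St_EEs : Prop := ∀ (E : ExCat.{u}) (A B : SubP E), SSt.Strong (pairS (E.EEa A B) (E.EEb A B))

/-- Equivalences are strong (helper83, proved in KQ/AddF). -/
def St_EqvS : Prop := ∀ {E E' : ExCat.{u}} (e : ExEquiv E E'),
  SSt.Strong (obS.map (Sd.map (X := E) (Y := E') e.fwd))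

/-- The set of the diagrams of zero objects is contractible, hence `zq` is strong.

Proof. `SubS` `Z` of `obS.obj (SD.obj X)`, `Z_n` = zero objects of `S_n X_n` (all entries are zero
objects of `X_n`); `undF.obj ..` is `Z.quot` (`Quot (x ∈ Z ∧ y ∈ Z)`, `ExCat.isZero_iff`,
`isZero_functor`), `zq = Z.π`: `St_StrPair`. `Z` is contractible (`St_StrHt`, third part, and first
part): let `0_n` be the image of a fixed zero object `0_0` of `X_0` under the operator `[n] → [0]`, a
zero object of `X_n` (`ExFun.isZero`), `X.map θ 0_n = 0_m`. Homotopy: `h n α z` is the diagram with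
entries `z(i,j)` if `α j = false`, `0_n` if `α j = true`, all morphisms `0` (all objects are zero
objects, so this is a functor: identities are `0`). Naturality: `Functor.ext` (or `Functor.hext`) with
equal objects, the morphisms agree since they are morphisms between zero objects. `α = false`: the
diagram with objects `z(i,j)` and morphisms `0`, equal to `z`. -/
def St_ZQ : Prop := ∀ X : SOb ExCat.{u}, SSt.Strong (zq (SD.obj X))

/-- `S_1 E` is equivalent to `E`.

Proof. Inverse: `V ↦` the diagram `(0,0) ↦ 0`, `(0,1) ↦ V`, `(1,1) ↦ 0` on `Ar (Fin 2)`. -/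
def St_Ev : Prop := ∀ E : ExCat.{u}, ∃ e : ExEquiv (E.S (Fin 2)) E,
  e.fwd = E.ev (ar (0 : Fin 2) 1 (by decide))

/-- A decomposition `φ → id → ψ` of the identity of `R` with `φ = 0` on `B`, `ψ = 0` on `A`.

Proof. Let `T : R → R.EE A B` be `c.toEE`, `T ≫ EEe = id`. `EEe ≫ T ≅ id`: let `a → e → b` be in `EE`.
`φ a → a` is an isomorphism (`ψ a = 0`), `φ a → φ e` is one too (`φ` is exact, `φ b = 0`), so
`a ≅ φ e`, compatibly with the maps to `e`; similarly `b ≅ ψ b ≅ ψ e`. All is natural in `a → e → b`.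
So `T.oS` is strong (`natStrEq` and `St_StrHt`, as in `equivStrong`), and `pairS (φ, ψ)` is `T.oS`
followed by `EE.ab`, `EE_strong`; `St_Str23`. -/
def St_Spl : Prop := ∀ (R : ExCat.{u}) (φ ψ : ExFun R R), ExFun.Conf3 φ (ExFun.id R) ψ →
  ∀ (A B : SubP R) (hA : ∀ X, A.P (φ.F.obj X).obj) (hB : ∀ X, B.P (ψ.F.obj X).obj),
  (∀ X : R.Ob, A.P X.obj → IsZero (ψ.F.obj X).obj) →
  (∀ X : R.Ob, B.P X.obj → IsZero (φ.F.obj X).obj) →
    SSt.Strong (pairS (φ.toSub A hA) (ψ.toSub B hB))

/-- CUT. Additivity for S-diagrams with conditions over a cut index set.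

Proof. Let `φ = l l'`, `ψ = u u'`, `φ ≤ id ≤ ψ`, `R = E.SX I A`. `φ^*` and `ψ^*` are exact functors
`R → R` (`h1`, `h1'`: the entry `D(φ p)` is in `A p`: it is `D(l (l' p))`, in `A (l (l' p))`, hence in
`A₁`, hence in `A p`, or a zero object). For `D` in `R` the sequence `φ^* D → D → ψ^* D` (given by
`φ ≤ id ≤ ψ`) is a conflation: at `i ≤ j`, if both are below `c` (`φ = id`, `ψ = c`): `D(i,j) = D(i,j)`
and `D(c,c) = 0`; `i` below, `j` above: `D(i,c) → D(i,j) → D(c,j)`; both above: `D(c,c) = 0`; `i`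
above, `j` below: then `c ≤ i ≤ j ≤ c`. This is a `Conf3 φ^* id ψ^*`. Let `A'` be the `SubP R` of the
`D` with `D(ψ p)` zero for all `p`, `B'` the same with `φ`; (`φ ψ = c = ψ φ`). `St_Spl`. Then
`l^* : R.sub A' → (E.sub A₁).S L` is an equivalence with inverse `l'^*` (`l' l = id`;
`l'^* l^* = φ^* ≅ id` on `A'`), the same for `u`. `equivStrong`, `St_StrProd`, `St_Str23`; the
composite is `pairS (l^* φ^*) (u^* ψ^*) = pairS l^* u^*` (`φ l = l`). needs: `St_Spl` -/
def St_Cut : Prop := ∀ (E : ExCat.{u}) {I L U : Type} [PartialOrder I] [Preorder L] [Preorder U]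
  (c : Cut I L U) (A : Ar I → SubP E) (A₁ A₂ : SubP E)
  (h1 : ∀ p X, (A (Ar.map c.l p)).P X → A₁.P X) (h2 : ∀ p X, (A (Ar.map c.u p)).P X → A₂.P X),
  (∀ p : Ar I, c.l' p.1.1 = c.l' p.1.2 ∨ ∀ X, A₁.P X → (A p).P X) →
  (∀ p : Ar I, c.u' p.1.1 = c.u' p.1.2 ∨ ∀ X, A₂.P X → (A p).P X) →
  SSt.Strong (pairS (E.SXtoS A₁ A c.l h1) (E.SXtoS A₂ A c.u h2))

/-- `ob S.(S_p E) → (ob S. E)^p` is strong.

Proof. Induction on `p`. `p = 0`: all objects of `E.S (Fin 1)` are zero objects; for an exact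
category `E₀` with this property `E₀.oS` is contractible (`E₀` is equivalent to the zero category
`E₀.sub`.. or use the contraction of `St_ZQ`), and `X.pow 0` is a point. `p + 1`: `St_Cut` for
`I = Fin (p + 2)`, `c = p`, `L = Fin (p + 1)`, `U = Fin 2` (`u : 0 ↦ p, 1 ↦ p + 1`), all conditions
`SubP.top E` (`E.SX I ⊤` and `E.S I` have the same objects; `E.sub (SubP.top E)` is `E` by
definition); then `St_StrProd` for the induction hypothesis and `St_Ev` with `equivStrong`;
`X.pow p × X ≅ X.pow (p + 1)` (`Fin.snoc`). needs: `St_Cut`, `St_Ev` -/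
def St_Spine : Prop := ∀ (E : ExCat.{u}) (p : ℕ), SSt.Strong (spine E p)

/-- SPREAD. If `ob S_n X_n → ob S_n Y_n` is strong, then all `D_k` (`k ≥ 1`), hence all `K_n`, agree.

Proof. Induction on `k`, for all `f`. `k = 1`: `(DKs 1).obj X` is `frF.obj ((SOb.mapF obF).obj
(SD.obj X))` (the same groups in each degree, operators agree by `Fr.map_comp`), and
`undF.map ((SOb.mapF obF).map (SD.map f))` is strong by `St_ZQ` and `St_Str23`; `St_StrFr`.
`k → k + 1`: `(DKs (k + 1)).obj X` is the diagonal of the bisimplicial group `p ↦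
(DKs k).obj (S_p X)`, `S_p X = (SOb.mapF (SF (Fin (p + 1)))).obj X`: level `n` is
`(DK k (S_n X_n))_n`. By `St_RealW` it is enough that `(DKs k).map (S_p f)` is `Weq`; by induction it is
enough that `obS.map (SD.map (S_p f))` is strong: `n ↦ ob S_n S_p X_n → (ob S_n X_n)^p` is strong (on
the rows of the bisimplicial set `(m, n) ↦ ob S_n S_p X_m` by `St_Spine`, `St_StrRow`), powers of
strong maps are strong (`St_StrProd`), `St_Str23`. needs: `St_ZQ`, `St_Spine` -/
def St_SPR : Prop := ∀ {X Y : SOb ExCat.{u}} (f : X ⟶ Y), SSt.Strong (obS.map (SD.map f)) →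
  ∀ k, 1 ≤ k → SGp.Weq ((DKs k).map f)

/-- SPREAD for a pair of functors, and the product formula.

Proof. Let `Δ : E ↦ (E, E)`, `D2 k = dSk (S2 Sd) (P2 obF ⋙ cF) k`. There is a natural transformation
`δ_k : DK k ⟶ Δ ⋙ D2 k`, by recursion from the diagonal `X → X × X` of pointed sets (as `dSkFst`),
and `pairD k f g` is `δ_k`, then `(D2 k).map (f, g)`, then `prodCmp Sd obF k E₁ E₂`, which is
`2k`-connected by `St_Prod` (`Zc = ZcE`). The composite of the first two is `Weq` for `k ≥ 1`, by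
induction on `k` for all `(f, g)` with `pairS f g` strong: `k = 1`: it is `frF.map` of the map
`n ↦ (P(S_n E) → P(S_n E₁) × P(S_n E₂))`, `P = obF`, and this is strong as a map of simplicial sets by
`St_ZQ` for constant `X` (`SD.obj (SOb.const E)` is `Sd.obj E`), `St_StrProd`, `St_Str23`;
`St_StrFr`. `k → k + 1`: diagonal of the bisimplicial groups `p ↦ (DK k).obj (S_p E)`, `St_RealW`;
`pairS (S_p f) (S_p g)` is strong by `St_Spine`, `St_StrProd`. needs: `St_ZQ`, `St_Spine` -/
def St_SPR2 : Prop := ∀ {E E₁ E₂ : ExCat.{u}} (f : ExFun E E₁) (g : ExFun E E₂),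
  SSt.Strong (pairS f g) → ∀ k, 1 ≤ k → SGp.Conn (2 * k) (pairD k f g)

/-- The cut of `relS` and `relT`.

Proof. `St_Cut` for `I = WithBot (Fin (p + 1))`, `c = 0`, `L = Fin 2`, `U = Fin (p + 1)`,
`A₁ = SubP.top E`, `A₂ = A` (`l = lB p`, `l' : ⊥ ↦ 0, i ↦ 1`; `u = coeB`, `u' : ⊥ ↦ 0, i ↦ i`), resp.
`I = WithTop (Fin (p + 1))`, `c = p`, `L = Fin (p + 1)`, `U = Fin 2`, `A₁ = A`, `A₂ = SubP.top E`;
`St_SPR2`. (For `relT` exchange the factors of the product.) needs: `St_Cut`, `St_SPR2` -/
def St_CutK : Prop := ∀ (E : ExCat.{u}) (A : SubP E) (k p : ℕ), 1 ≤ k →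
  SGp.Conn (2 * k) (pairD k (tS E A p) (E.relSr A (Fin (p + 1)))) ∧
  SGp.Conn (2 * k) (pairD k (tT E A p) (E.relTr A (Fin (p + 1))))

/-- Functors with zero values.

Proof. Induction on `k`: `k = 0`: generators go to the class of zero objects, the base point. `k + 1`:
`F.S I` has zero values. -/
def St_Zero : Prop := ∀ (k : ℕ) {E E' : ExCat.{u}} (F : E ⟶ E'), ExFun.IsZ F →
  ∀ n (x : ((DK k).obj E).obj n), ((DK k).map F).app n x = 1

/-- `relS E E` and `relT E E` are contractible.

Proof. `relS`: `h n α` is the precomposition with `c_α : ⊥ ↦ ⊥, j ↦ j` if `α j = true`, `⊥` if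
`α j = false` (monotone), `c_α ∘ wb θ = wb θ ∘ c_{α θ}`; all conditions are `SubP.top E`. `relT`:
`c_α : ⊤ ↦ ⊤, j ↦ j` if `α j = false`, `⊤` if `α j = true`. -/
def St_Con : Prop := ∀ E : ExCat.{u},
  (∃ g : relS E (SubP.top E) ⟶ relS E (SubP.top E), (∀ n, ExFun.IsZ (g.app n)) ∧
    Nonempty (SOb.Htpy g (𝟙 _))) ∧
  ∃ g : relT E (SubP.top E) ⟶ relT E (SubP.top E), (∀ n, ExFun.IsZ (g.app n)) ∧
    Nonempty (SOb.Htpy (𝟙 _) g)

/-- A fully faithful, essentially surjective exact functor which reflects conflations is an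
equivalence.

Proof. The inverse functor of the equivalence of categories is additive and exact. -/
def St_Equi : Prop := ∀ {E E' : ExCat.{u}} (F : ExFun E E'),
  (∀ X Y : E.Ob, Bijective fun f : X ⟶ Y => F.F.map f) →
  (∀ Y : E'.Ob, ∃ X : E.Ob, Nonempty (F.F.obj X ≅ Y)) →
  (∀ {X Y Z : E.Ob} (f : X ⟶ Y) (g : Y ⟶ Z), E'.Conf (F.F.map f) (F.F.map g) → E.Conf f g) →
  ∃ e : ExEquiv E E', e.fwd = F

/-- Chosen quotients: `relS → mono` and `relT → epi` are equivalences in every degree.

Proof (needs: `St_Equi`). Let `V : I ⥤ E.C` be a chain of monomorphisms, extend it by `V⊥ = 0` to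
`V⁺ : WithBot I ⥤ E.C`, and put `D(x, y) = coker (V⁺ x → V⁺ y)`, functorial in `(x, y)`. It is an
S-diagram (third isomorphism theorem: `coker (V x → V y) → coker (V x → V z) → coker (V y → V z)` for
monomorphisms), the entries are in `A`, and `D(⊥, y) ≅ V y`. Fully faithful: a morphism of `D → D'` is
determined by its components at `(⊥, j)` since `D(⊥, j) → D(i, j)` is epi, and components at `(⊥, j)`
extend (cokernels). Conflations: `nine_bot`. Dually for `relT` (`V⊤ = 0`, kernels). -/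
def St_RelM : Prop := ∀ (E : ExCat.{u}) (A : SubP E) (I : Type) [PartialOrder I],
  (∃ e : ExEquiv (E.relS A I) (E.mono A I), e.fwd = E.relSm A I) ∧
  ∃ e : ExEquiv (E.relT A I) (E.epi A I), e.fwd = E.relTe A I

/-- The constant chains: `E → mono E 0` and `E → epi E 0` are equivalences in every degree.

Proof. The chains are chains of isomorphisms; inverse: evaluation at the first element. -/
def St_Iso : Prop := ∀ (E : ExCat.{u}) (m : ℕ),
  (∃ e : ExEquiv E (E.mono (SubP.bot E) (Fin (m + 1))), e.fwd = E.cstM (SubP.bot E) _) ∧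
  ∃ e : ExEquiv E (E.epi (SubP.bot E) (Fin (m + 1))), e.fwd = E.cstE (SubP.bot E) _

/-- ADDITIVITY.

Proof. `F` factors as `T : E → E'.EE ⊤ ⊤` (`Conf3.toEE`), then `EEe`; `T ≫ EEa = F'`, `T ≫ EEb = F''` (`E'.sub ⊤` is `E'`). For `z` in
`K_n(E'.EE ⊤ ⊤)`: let `i₁ : x ↦ (x → x → 0)`, `i₂ : x ↦ (0 → x → x)`. `w = z - i₁ a z - i₂ b z` has
`a w = 0 = b w` (`b i₁` and `a i₂` have zero values: `St_Zero`), so `w = 0` as
`pairD (n+3) EEa EEb` is `2(n+3)`-connected (`EE_strong`, `St_SPR2`; the homotopy groups of a product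
are products) and `2n + 3 < 2 (n + 3)`. So `e z = e i₁ a z + e i₂ b z = a z + b z`.
needs: `St_SPR2`, `St_Zero` -/
def St_ADD : Prop := ∀ {E E' : ExCat.{u}} (F' F F'' : ExFun E E'), ExFun.Conf3 F' F F'' →
  ∀ (n : ℕ) (z : Kn n E), Kmap n (E := E) (E' := E') F z = Kmap n (E := E) (E' := E') F' z +
    Kmap n (E := E) (E' := E') F'' z

end Pool.Agent.KQ
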