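import Pool.Agent.KQ.Core
import Pool.Agent.KQ.StEx

/-!
# KQ: additivity for the K-groups
-/

set_option autoImplicit false

noncomputable section

namespace Pool.Agent.KQ

open CategoryTheory CategoryTheory.Limits Function

universe u

/-- the homotopy groups of a product -/
private theorem ADD_pi_ext {X Y G : SGp.{u}} (f : G ⟶ X) (g : G ⟶ Y) (n : ℕ)
    (x : G.Pi n) (h1 : SGp.PiMap f n x = 1) (h2 : SGp.PiMap g n x = 1) :
    SGp.PiMap (SGp.lift f g) n x = 1 := by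
  obtain ⟨x, rfl⟩ := G.cls_surj n x
  rw [SGp.PiMap_cls, SGp.cls_eq_one, SGp.mem_B] at h1 h2
  rw [SGp.PiMap_cls, SGp.cls_eq_one, SGp.mem_B]
  obtain ⟨a, ha, ha'⟩ := h1
  obtain ⟨b, hb, hb'⟩ := h2
  exact ⟨(a, b), fun i => Prod.ext (ha i) (hb i), Prod.ext ha' hb'⟩

private theorem ADD_one {G H : SGp.{u}} (f : G ⟶ H) (h : ∀ n x, f.app n x = 1) (n : ℕ)
    (x : G.Pi n) : SGp.PiMap f n x = 1 := by
  obtain ⟨x, rfl⟩ := G.cls_surj n x
  rw [SGp.PiMap_cls, SGp.cls_eq_one]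
  change f.app n x.1 ∈ _
  rw [h]
  exact one_mem _

variable (E : ExCat.{u})

theorem ADD_zo : IsZero E.zo.obj := isZero_zero _

theorem ADD_zo' : IsZero E.zo := (E.isZero_iff _).2 (ADD_zo E)

/-- the zero functor -/
def ADD_Z : ExFun E E where
  F := (Functor.const E.Ob).obj E.zo
  add _ _ := (ADD_zo' E).eq_of_src _ _
  exact _ _ _ := ses_of_isZero _ _ (ADD_zo E) (ADD_zo E) (ADD_zo E)

/-- `x → x → 0` -/
def ADD_c1 : ExFun.Conf3 (ExFun.id E) (ExFun.id E) (ADD_Z E) where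
  α := 𝟙 _
  β :=
    { app := fun X => (0 : X ⟶ E.zo)
      naturality := fun _ _ _ => (ADD_zo' E).eq_of_tgt _ _ }
  ses X := ses_id_left (𝟙 X.obj) (ADD_zo E) _

/-- `0 → x → x` -/
def ADD_c2 : ExFun.Conf3 (ADD_Z E) (ExFun.id E) (ExFun.id E) where
  α :=
    { app := fun X => (0 : E.zo ⟶ X)
      naturality := fun _ _ _ => (ADD_zo' E).eq_of_src _ _ }
  β := 𝟙 _
  ses X := ses_id_right (𝟙 X.obj) (ADD_zo E) _

/-- the category of all conflations -/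
abbrev ADD_EE : ExCat.{u} := E.EE (SubP.top E) (SubP.top E)

/-- `a` -/
def ADD_a : ADD_EE E ⟶ E := E.EEa (SubP.top E) (SubP.top E)

/-- `b` -/
def ADD_b : ADD_EE E ⟶ E := E.EEb (SubP.top E) (SubP.top E)

/-- `e` -/
def ADD_e : ADD_EE E ⟶ E := E.EEe (SubP.top E) (SubP.top E)

variable {E} in
/-- a conflation of functors as a functor -/
def ADD_T {E₀ : ExCat.{u}} {F' F F'' : ExFun E₀ E} (c : ExFun.Conf3 F' F F'') :
    E₀ ⟶ ADD_EE E :=
  c.toEE (SubP.top E) (SubP.top E) (fun X => (F'.F.obj X).property)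
    (fun X => (F''.F.obj X).property)

/-- `x ↦ (x → x → 0)` -/
def ADD_i : E ⟶ ADD_EE E := ADD_T (ADD_c1 E)

/-- `x ↦ (0 → x → x)` -/
def ADD_j : E ⟶ ADD_EE E := ADD_T (ADD_c2 E)

theorem ADD_ia : ADD_i E ≫ ADD_a E = 𝟙 E := rfl

theorem ADD_ie : ADD_i E ≫ ADD_e E = 𝟙 E := rfl

theorem ADD_jb : ADD_j E ≫ ADD_b E = 𝟙 E := rfl

theorem ADD_je : ADD_j E ≫ ADD_e E = 𝟙 E := rfl

theorem ADD_ib : ExFun.IsZ (ADD_i E ≫ ADD_b E : E ⟶ E) := fun _ => ADD_zo E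

theorem ADD_ja : ExFun.IsZ (ADD_j E ≫ ADD_a E : E ⟶ E) := fun _ => ADD_zo E

theorem ADD_Kz (h2 : St_Zero.{u}) (n : ℕ) {E E' : ExCat.{u}} (F : E ⟶ E') (h : ExFun.IsZ F)
    (z : Kn n E) : Kmap n F z = 0 :=
  ADD_one ((DK (n + 3)).map F) (h2 (n + 3) F h) (2 * n + 2 + 1) z

theorem ADD_inj (h1 : St_SPR2.{u}) (n : ℕ) (w : Kn n (ADD_EE E)) (ha : Kmap n (ADD_a E) w = 0)
    (hb : Kmap n (ADD_b E) w = 0) : w = 0 := by
  have hs : SSt.Strong (pairS (E.EEa (SubP.top E) (SubP.top E))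
      (E.EEb (SubP.top E) (SubP.top E))) :=
    EE_strong E (SubP.top E) (SubP.top E) all_StrHt thm_Str23 all_StrRow all_StrCol
  have hc := ((h1 _ _ hs (n + 3) (by omega)).1 (2 * n + 2 + 1) (by omega)).1
  have h3 : SGp.PiMap (SGp.lift ((DK (n + 3)).map (ADD_a E)) ((DK (n + 3)).map (ADD_b E)))
      (2 * n + 2 + 1) w = 1 := ADD_pi_ext _ _ _ w ha hb
  exact hc (h3.trans (map_one _).symm)

theorem ADD_univ (h1 : St_SPR2.{u}) (h2 : St_Zero.{u}) (n : ℕ) (z : Kn n (ADD_EE E)) :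
    Kmap n (ADD_e E) z = Kmap n (ADD_a E) z + Kmap n (ADD_b E) z := by
  have e0 : z - Kmap n (ADD_i E) (Kmap n (ADD_a E) z) - Kmap n (ADD_j E) (Kmap n (ADD_b E) z) =
      0 := by
    refine ADD_inj E h1 n _ ?_ ?_
    · rw [map_sub, map_sub, ← Kmap_comp n (ADD_i E), ← Kmap_comp n (ADD_j E), ADD_ia, Kmap_id,
        ADD_Kz h2 n _ (ADD_ja E), sub_self, sub_zero]
    · rw [map_sub, map_sub, ← Kmap_comp n (ADD_i E), ← Kmap_comp n (ADD_j E), ADD_jb, Kmap_id,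
        ADD_Kz h2 n _ (ADD_ib E), sub_zero, sub_self]
  have e1 := congrArg (Kmap n (ADD_e E)) e0
  rw [map_sub, map_sub, ← Kmap_comp n (ADD_i E), ← Kmap_comp n (ADD_j E), ADD_ie, ADD_je, Kmap_id,
    Kmap_id, map_zero, sub_sub, sub_eq_zero] at e1
  exact e1

theorem thm_ADD (h1 : St_SPR2.{u}) (h2 : St_Zero.{u}) : St_ADD.{u} := by
  intro E E' F' F F'' c n z
  have h3 := ADD_univ E' h1 h2 n (Kmap n (ADD_T c) z)
  rw [← Kmap_comp, ← Kmap_comp, ← Kmap_comp] at h3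
  exact h3

end Pool.Agent.KQ
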