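import Pool.Agent.KQ.StEx

/-!
# KQ RelM: chosen quotients
-/

set_option autoImplicit false
set_option linter.unusedVariables false

noncomputable section

namespace Pool.Agent.KQ

open CategoryTheory CategoryTheory.Limits Function
open scoped ZeroObject

universe u

section gen

variable {C : Type*} [Category C] [Abelian C]

/-! ### cokernels, kernels -/

theorem RelM_third {X Y Z : C} (f : X ⟶ Y) (g : Y ⟶ Z) (h : X ⟶ Z) (e : f ≫ g = h) (hf : Mono f)
    (hg : Mono g) (hh : Mono h) (p : cokernel f ⟶ cokernel h) (q : cokernel h ⟶ cokernel g)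
    (hp : cokernel.π f ≫ p = g ≫ cokernel.π h) (hq : cokernel.π h ≫ q = cokernel.π g) :
    SES p q := by
  refine nine_bot (u₁ := 𝟙 X) (v₁ := (0 : X ⟶ 0)) (u₂ := g) (v₂ := cokernel.π g)
    (c := (0 : (0 : C) ⟶ cokernel g)) (c' := 𝟙 _)
    (ses_id_left _ (isZero_zero C) _) (ses_cokernel g) (ses_cokernel f) (ses_cokernel h)
    (ses_id_right _ (isZero_zero C) _) ?_ hp ?_ ?_
  · rw [Category.id_comp, e]
  · rw [← e, Category.assoc, cokernel.condition, comp_zero, comp_zero]
  · rw [Category.comp_id, hq]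

theorem RelM_third' {X Y Z : C} (f : X ⟶ Y) (g : Y ⟶ Z) (h : X ⟶ Z) (e : f ≫ g = h) (hf : Epi f)
    (hg : Epi g) (hh : Epi h) (p : kernel f ⟶ kernel h) (q : kernel h ⟶ kernel g)
    (hp : p ≫ kernel.ι h = kernel.ι f) (hq : q ≫ kernel.ι g = kernel.ι h ≫ f) :
    SES p q := by
  refine nine_top (a := 𝟙 (kernel f)) (a' := (0 : kernel f ⟶ (0 : C))) (u₂ := kernel.ι f)
    (v₂ := f) (u₃ := (0 : (0 : C) ⟶ Z)) (v₃ := 𝟙 Z) (ses_kernel f)
    (ses_id_right _ (isZero_zero C) _) (ses_id_left _ (isZero_zero C) _) (ses_kernel h)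
    (ses_kernel g) ?_ ?_ hq.symm ?_
  · rw [Category.id_comp, hp]
  · rw [← e, kernel.condition_assoc, zero_comp, zero_comp]
  · rw [Category.comp_id, e]

theorem RelM_pi {X Y : C} (f : X ⟶ Y) (hX : IsZero X) : IsIso (cokernel.π f) := by
  have hm : Mono f := ⟨fun _ _ _ => hX.eq_of_tgt _ _⟩
  have s := ses_cokernel f
  have h1 : Mono (cokernel.π f) := by
    apply mono_of_zero
    intro A y hy
    obtain ⟨x, rfl⟩ := s.lift y hy
    rw [hX.eq_of_src f 0, comp_zero]
  exact isIso_of_mono_of_epi _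

theorem RelM_iota {X Y : C} (f : X ⟶ Y) (hY : IsZero Y) : IsIso (kernel.ι f) := by
  have hm : Epi f := ⟨fun _ _ _ => hY.eq_of_src _ _⟩
  have s := ses_kernel f
  have h1 : Epi (kernel.ι f) := by
    apply epi_of_zero
    intro A y hy
    obtain ⟨x, rfl⟩ := s.desc y hy
    rw [hY.eq_of_tgt f 0, zero_comp]
  exact isIso_of_mono_of_epi _

/-! ### diagrams of cokernels, kernels -/

section diag

variable {J : Type} [Preorder J]

/-- cokernels of a chain -/
def RelM_cok (W : J ⥤ C) : Ar J ⥤ C where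
  obj x := cokernel (W.map (homOfLE x.2))
  map {x y} f := cokernel.map _ _ (W.map (homOfLE f.le.1)) (W.map (homOfLE f.le.2)) (by
    rw [← W.map_comp, ← W.map_comp]
    rfl)
  map_id x := by
    rw [← cancel_epi (cokernel.π (W.map (homOfLE x.2)))]
    rw [cokernel.π_desc, Category.comp_id]
    change W.map (𝟙 _) ≫ _ = _
    rw [W.map_id, Category.id_comp]
  map_comp {x y z} f g := by
    rw [← cancel_epi (cokernel.π (W.map (homOfLE x.2)))]
    rw [cokernel.π_desc, cokernel.π_desc_assoc, Category.assoc, cokernel.π_desc,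
      ← Category.assoc, ← W.map_comp]
    rfl

theorem RelM_cok_pi (W : J ⥤ C) {x y : Ar J} (f : x ⟶ y) :
    cokernel.π (W.map (homOfLE x.2)) ≫ (RelM_cok W).map f =
      W.map (homOfLE f.le.2) ≫ cokernel.π (W.map (homOfLE y.2)) := cokernel.π_desc _ _ _

/-- kernels of a chain -/
def RelM_ker (W : J ⥤ C) : Ar J ⥤ C where
  obj x := kernel (W.map (homOfLE x.2))
  map {x y} f := kernel.map _ _ (W.map (homOfLE f.le.1)) (W.map (homOfLE f.le.2)) (by
    rw [← W.map_comp, ← W.map_comp]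
    rfl)
  map_id x := by
    rw [← cancel_mono (kernel.ι (W.map (homOfLE x.2)))]
    rw [kernel.lift_ι, Category.id_comp]
    change _ ≫ W.map (𝟙 _) = _
    rw [W.map_id, Category.comp_id]
  map_comp {x y z} f g := by
    rw [← cancel_mono (kernel.ι (W.map (homOfLE z.2)))]
    rw [kernel.lift_ι, Category.assoc, kernel.lift_ι, kernel.lift_ι_assoc, Category.assoc,
      ← W.map_comp]
    rfl

theorem RelM_ker_iota (W : J ⥤ C) {x y : Ar J} (f : x ⟶ y) :
    (RelM_ker W).map f ≫ kernel.ι (W.map (homOfLE y.2)) =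
      kernel.ι (W.map (homOfLE x.2)) ≫ W.map (homOfLE f.le.1) := kernel.lift_ι _ _ _

theorem RelM_cok_zero (W : J ⥤ C) (i : J) : IsZero ((RelM_cok W).obj (ar i i le_rfl)) := by
  have h : W.map (homOfLE (le_refl i)) = 𝟙 _ := W.map_id i
  have h1 : Epi (W.map (homOfLE (le_refl i))) := ⟨fun a b hab => by
    rwa [h, Category.id_comp, Category.id_comp] at hab⟩
  exact @isZero_cokernel_of_epi _ _ _ _ _ (W.map (homOfLE (le_refl i))) h1 _

theorem RelM_ker_zero (W : J ⥤ C) (i : J) : IsZero ((RelM_ker W).obj (ar i i le_rfl)) := by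
  have h : W.map (homOfLE (le_refl i)) = 𝟙 _ := W.map_id i
  have h1 : Mono (W.map (homOfLE (le_refl i))) := ⟨fun a b hab => by
    rwa [h, Category.comp_id, Category.comp_id] at hab⟩
  exact @isZero_kernel_of_mono _ _ _ _ _ (W.map (homOfLE (le_refl i))) h1 _

theorem RelM_cok_ses (W : J ⥤ C) (hW : ∀ (i j : J) (h : i ≤ j), Mono (W.map (homOfLE h)))
    (i j k : J) (hij : i ≤ j) (hjk : j ≤ k) :
    SES ((RelM_cok W).map (arHom hij (hij.trans hjk) le_rfl hjk))
      ((RelM_cok W).map (arHom (hij.trans hjk) hjk hij le_rfl)) := by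
  refine RelM_third (W.map (homOfLE hij)) (W.map (homOfLE hjk)) (W.map (homOfLE (hij.trans hjk)))
    ?_ (hW _ _ _) (hW _ _ _) (hW _ _ _) _ _
    (RelM_cok_pi W (arHom hij (hij.trans hjk) le_rfl hjk)) ?_
  · rw [← W.map_comp]
    rfl
  · refine (RelM_cok_pi W (arHom (hij.trans hjk) hjk hij le_rfl)).trans ?_
    exact (congrArg (fun t => t ≫ cokernel.π (W.map (homOfLE hjk))) (W.map_id k)).trans
      (Category.id_comp _)

theorem RelM_ker_ses (W : J ⥤ C) (hW : ∀ (i j : J) (h : i ≤ j), Epi (W.map (homOfLE h)))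
    (i j k : J) (hij : i ≤ j) (hjk : j ≤ k) :
    SES ((RelM_ker W).map (arHom hij (hij.trans hjk) le_rfl hjk))
      ((RelM_ker W).map (arHom (hij.trans hjk) hjk hij le_rfl)) := by
  refine RelM_third' (W.map (homOfLE hij)) (W.map (homOfLE hjk)) (W.map (homOfLE (hij.trans hjk)))
    ?_ (hW _ _ _) (hW _ _ _) (hW _ _ _) _ _ ?_
    (RelM_ker_iota W (arHom (hij.trans hjk) hjk hij le_rfl))
  · rw [← W.map_comp]
    rfl
  · refine (RelM_ker_iota W (arHom hij (hij.trans hjk) le_rfl hjk)).trans ?_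
    exact (congrArg (fun t => kernel.ι (W.map (homOfLE hij)) ≫ t) (W.map_id i)).trans
      (Category.comp_id _)

end diag

/-! ### diagrams over a set with a least element -/

section bot

variable {J : Type} [Preorder J] [OrderBot J]

/-- `D(⊥, j) ⟶ D(i, j)` -/
def RelM_e (D : Ar J ⥤ C) (i j : J) (h : i ≤ j) :
    D.obj (ar ⊥ j bot_le) ⟶ D.obj (ar i j h) := D.map (arHom bot_le h bot_le le_rfl)

/-- `D(⊥, i) ⟶ D(⊥, j)` -/
def RelM_m (D : Ar J ⥤ C) (i j : J) (h : i ≤ j) :
    D.obj (ar ⊥ i bot_le) ⟶ D.obj (ar ⊥ j bot_le) := D.map (arHom bot_le bot_le le_rfl h)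

theorem RelM_e_comm (D : Ar J ⥤ C) (i j i' j' : J) (h : i ≤ j) (h' : i' ≤ j') (hi : i ≤ i')
    (hj : j ≤ j') : RelM_e D i j h ≫ D.map (arHom h h' hi hj) =
      RelM_m D j j' hj ≫ RelM_e D i' j' h' := by
  have h1 := D.map_comp (arHom bot_le h bot_le le_rfl : ar ⊥ j bot_le ⟶ ar i j h)
    (arHom h h' hi hj)
  have h2 := D.map_comp (arHom bot_le bot_le le_rfl hj : ar ⊥ j bot_le ⟶
    ar ⊥ j' bot_le) (arHom bot_le h' bot_le le_rfl : ar ⊥ j' bot_le ⟶ ar i' j' h')
  exact h1.symm.trans h2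

theorem RelM_e_bot (D : Ar J ⥤ C) (j : J) : RelM_e D ⊥ j bot_le = 𝟙 _ := D.map_id _

/-- the short exact sequences -/
def RelM_B (D : Ar J ⥤ C) : Prop := ∀ (i j : J) (h : i ≤ j), SES (RelM_m D i j h) (RelM_e D i j h)

theorem RelM_ext_bot (D D' : Ar J ⥤ C) (hD : RelM_B D) (hD' : RelM_B D')
    (t : ∀ j, D.obj (ar ⊥ j bot_le) ⟶ D'.obj (ar ⊥ j bot_le))
    (ht : ∀ i j h, RelM_m D i j h ≫ t j = t i ≫ RelM_m D' i j h) :
    ∃ σ : D ⟶ D', ∀ j, σ.app (ar ⊥ j bot_le) = t j := by
  choose s hs using fun (i j : J) (h : i ≤ j) => (hD i j h).desc (t j ≫ RelM_e D' i j h) (by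
    rw [← Category.assoc, ht, Category.assoc, (hD' i j h).w, comp_zero])
  have key : ∀ (i j i' j' : J) (h : i ≤ j) (h' : i' ≤ j') (hi : i ≤ i') (hj : j ≤ j'),
      D.map (arHom h h' hi hj) ≫ s i' j' h' = s i j h ≫ D'.map (arHom h h' hi hj) := by
    intro i j i' j' h h' hi hj
    have he := (hD i j h).epi
    have e1 : RelM_e D i j h ≫ D.map (arHom h h' hi hj) ≫ s i' j' h' =
        t j ≫ RelM_e D' i j h ≫ D'.map (arHom h h' hi hj) := by
      rw [← Category.assoc, RelM_e_comm, Category.assoc, hs, ← Category.assoc, ht, Category.assoc,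
        RelM_e_comm]
    have e2 : RelM_e D i j h ≫ s i j h ≫ D'.map (arHom h h' hi hj) =
        t j ≫ RelM_e D' i j h ≫ D'.map (arHom h h' hi hj) := by
      rw [← Category.assoc, hs, Category.assoc]
    exact (cancel_epi (RelM_e D i j h)).1 (e1.trans e2.symm)
  refine ⟨⟨fun x => s x.1.1 x.1.2 x.2, fun {x y} f => ?_⟩, fun j => ?_⟩
  · exact key x.1.1 x.1.2 y.1.1 y.1.2 x.2 y.2 f.le.1 f.le.2
  · have h1 := hs ⊥ j bot_le
    rw [RelM_e_bot, RelM_e_bot, Category.id_comp, Category.comp_id] at h1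
    exact h1

theorem RelM_inj_bot (D D' : Ar J ⥤ C) (hD : RelM_B D) (f g : D ⟶ D')
    (h : ∀ j, f.app (ar ⊥ j bot_le) = g.app (ar ⊥ j bot_le)) : f = g := by
  apply NatTrans.ext
  funext x
  have he := (hD x.1.1 x.1.2 x.2).epi
  refine (cancel_epi (RelM_e D x.1.1 x.1.2 x.2)).1 ?_
  have e1 := f.naturality (arHom bot_le x.2 bot_le le_rfl : ar ⊥ x.1.2 bot_le ⟶ x)
  have e2 := g.naturality (arHom bot_le x.2 bot_le le_rfl : ar ⊥ x.1.2 bot_le ⟶ x)
  refine e1.trans (Eq.trans ?_ e2.symm)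
  rw [h]

theorem RelM_conf_bot (X Y Z : Ar J ⥤ C) (hX : RelM_B X) (hY : RelM_B Y) (hZ : RelM_B Z)
    (f : X ⟶ Y) (g : Y ⟶ Z)
    (h : ∀ j, SES (f.app (ar ⊥ j bot_le)) (g.app (ar ⊥ j bot_le))) (x : Ar J) :
    SES (f.app x) (g.app x) :=
  nine_bot (h x.1.1) (h x.1.2) (hX x.1.1 x.1.2 x.2) (hY x.1.1 x.1.2 x.2) (hZ x.1.1 x.1.2 x.2)
    (f.naturality _) (f.naturality _) (g.naturality _) (g.naturality _)

end bot

/-! ### diagrams over a set with a largest element -/

section top

variable {J : Type} [Preorder J] [OrderTop J]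

/-- `D(i, j) ⟶ D(i, ⊤)` -/
def RelM_k (D : Ar J ⥤ C) (i j : J) (h : i ≤ j) :
    D.obj (ar i j h) ⟶ D.obj (ar i ⊤ le_top) := D.map (arHom h le_top le_rfl le_top)

/-- `D(i, ⊤) ⟶ D(j, ⊤)` -/
def RelM_n (D : Ar J ⥤ C) (i j : J) (h : i ≤ j) :
    D.obj (ar i ⊤ le_top) ⟶ D.obj (ar j ⊤ le_top) := D.map (arHom le_top le_top h le_rfl)

theorem RelM_k_comm (D : Ar J ⥤ C) (i j i' j' : J) (h : i ≤ j) (h' : i' ≤ j') (hi : i ≤ i')
    (hj : j ≤ j') : D.map (arHom h h' hi hj) ≫ RelM_k D i' j' h' =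
      RelM_k D i j h ≫ RelM_n D i i' hi := by
  have h1 := D.map_comp (arHom h h' hi hj) (arHom h' le_top le_rfl le_top : ar i' j' h' ⟶
    ar i' ⊤ le_top)
  have h2 := D.map_comp (arHom h le_top le_rfl le_top : ar i j h ⟶ ar i ⊤ le_top)
    (arHom le_top le_top hi le_rfl : ar i ⊤ le_top ⟶ ar i' ⊤ le_top)
  exact h1.symm.trans h2

theorem RelM_k_top (D : Ar J ⥤ C) (i : J) : RelM_k D i ⊤ le_top = 𝟙 _ := D.map_id _

/-- the short exact sequences -/
def RelM_T (D : Ar J ⥤ C) : Prop := ∀ (i j : J) (h : i ≤ j), SES (RelM_k D i j h) (RelM_n D i j h)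

theorem RelM_ext_top (D D' : Ar J ⥤ C) (hD : RelM_T D) (hD' : RelM_T D')
    (t : ∀ i, D.obj (ar i ⊤ le_top) ⟶ D'.obj (ar i ⊤ le_top))
    (ht : ∀ i j h, RelM_n D i j h ≫ t j = t i ≫ RelM_n D' i j h) :
    ∃ σ : D ⟶ D', ∀ i, σ.app (ar i ⊤ le_top) = t i := by
  choose s hs using fun (i j : J) (h : i ≤ j) => (hD' i j h).lift (RelM_k D i j h ≫ t i) (by
    rw [Category.assoc, ← ht, ← Category.assoc, (hD i j h).w, zero_comp])
  have key : ∀ (i j i' j' : J) (h : i ≤ j) (h' : i' ≤ j') (hi : i ≤ i') (hj : j ≤ j'),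
      D.map (arHom h h' hi hj) ≫ s i' j' h' = s i j h ≫ D'.map (arHom h h' hi hj) := by
    intro i j i' j' h h' hi hj
    have he := (hD' i' j' h').mono
    have e1 : (D.map (arHom h h' hi hj) ≫ s i' j' h') ≫ RelM_k D' i' j' h' =
        (D.map (arHom h h' hi hj) ≫ RelM_k D i' j' h') ≫ t i' := by
      rw [Category.assoc, hs, Category.assoc]
    have e2 : (s i j h ≫ D'.map (arHom h h' hi hj)) ≫ RelM_k D' i' j' h' =
        (D.map (arHom h h' hi hj) ≫ RelM_k D i' j' h') ≫ t i' := by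
      rw [Category.assoc, RelM_k_comm, ← Category.assoc, hs, Category.assoc, ← ht,
        ← Category.assoc, ← RelM_k_comm]
    exact (cancel_mono (RelM_k D' i' j' h')).1 (e1.trans e2.symm)
  refine ⟨⟨fun x => s x.1.1 x.1.2 x.2, fun {x y} f => ?_⟩, fun i => ?_⟩
  · exact key x.1.1 x.1.2 y.1.1 y.1.2 x.2 y.2 f.le.1 f.le.2
  · have h1 := hs i ⊤ le_top
    rw [RelM_k_top, RelM_k_top, Category.id_comp, Category.comp_id] at h1
    exact h1

theorem RelM_inj_top (D D' : Ar J ⥤ C) (hD' : RelM_T D') (f g : D ⟶ D')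
    (h : ∀ i, f.app (ar i ⊤ le_top) = g.app (ar i ⊤ le_top)) : f = g := by
  apply NatTrans.ext
  funext x
  have he := (hD' x.1.1 x.1.2 x.2).mono
  refine (cancel_mono (RelM_k D' x.1.1 x.1.2 x.2)).1 ?_
  have e1 := f.naturality (arHom x.2 le_top le_rfl le_top : x ⟶ ar x.1.1 ⊤ le_top)
  have e2 := g.naturality (arHom x.2 le_top le_rfl le_top : x ⟶ ar x.1.1 ⊤ le_top)
  refine e1.symm.trans (Eq.trans ?_ e2)
  rw [h]

theorem RelM_conf_top (X Y Z : Ar J ⥤ C) (hX : RelM_T X) (hY : RelM_T Y) (hZ : RelM_T Z)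
    (f : X ⟶ Y) (g : Y ⟶ Z)
    (h : ∀ i, SES (f.app (ar i ⊤ le_top)) (g.app (ar i ⊤ le_top))) (x : Ar J) :
    SES (f.app x) (g.app x) :=
  nine_top (h x.1.1) (h x.1.2) (hX x.1.1 x.1.2 x.2) (hY x.1.1 x.1.2 x.2) (hZ x.1.1 x.1.2 x.2)
    (f.naturality _) (f.naturality _) (g.naturality _) (g.naturality _)

end top

/-! ### extended chains -/

section ext

variable {I : Type} [PartialOrder I]

/-- a chain extended by `0` at `⊥` -/
def RelM_botF (V : I ⥤ C) : WithBot I ⥤ C where
  obj x := match x with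
    | none => 0
    | some i => V.obj i
  map {x y} f := match x, y, f with
    | none, _, _ => 0
    | some _, none, _ => 0
    | some i, some j, f => V.map (homOfLE (WithBot.coe_le_coe.1 f.le))
  map_id x := by
    cases x with
    | bot => exact (isZero_zero C).eq_of_src _ _
    | coe i => exact V.map_id i
  map_comp {x y z} f g := by
    cases x with
    | bot => exact (isZero_zero C).eq_of_src _ _
    | coe i =>
      cases y with
      | bot => exact absurd f.le (WithBot.not_coe_le_bot i)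
      | coe j =>
        cases z with
        | bot => exact absurd g.le (WithBot.not_coe_le_bot j)
        | coe k => exact V.map_comp (homOfLE _) (homOfLE _)

/-- a chain extended by `0` at `⊤` -/
def RelM_topF (V : I ⥤ C) : WithTop I ⥤ C where
  obj x := match x with
    | none => 0
    | some i => V.obj i
  map {x y} f := match x, y, f with
    | none, _, _ => 0
    | some _, none, _ => 0
    | some i, some j, f => V.map (homOfLE (WithTop.coe_le_coe.1 f.le))
  map_id x := by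
    cases x with
    | top => exact (isZero_zero C).eq_of_src _ _
    | coe i => exact V.map_id i
  map_comp {x y z} f g := by
    cases x with
    | top => exact (isZero_zero C).eq_of_src _ _
    | coe i =>
      cases z with
      | top => exact (isZero_zero C).eq_of_tgt _ _
      | coe k =>
        cases y with
        | top => exact absurd g.le (WithTop.not_top_le_coe k)
        | coe j => exact V.map_comp (homOfLE _) (homOfLE _)

theorem RelM_botF_mono (V : I ⥤ C) (h : ∀ (i j : I) (h : i ≤ j), Mono (V.map (homOfLE h)))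
    (x y : WithBot I) (hxy : x ≤ y) : Mono ((RelM_botF V).map (homOfLE hxy)) := by
  cases x with
  | bot => exact ⟨fun _ _ _ => (isZero_zero C).eq_of_tgt _ _⟩
  | coe i =>
    cases y with
    | bot => exact absurd hxy (WithBot.not_coe_le_bot i)
    | coe j => exact h i j _

theorem RelM_topF_epi (V : I ⥤ C) (h : ∀ (i j : I) (h : i ≤ j), Epi (V.map (homOfLE h)))
    (x y : WithTop I) (hxy : x ≤ y) : Epi ((RelM_topF V).map (homOfLE hxy)) := by
  cases y with
  | top => exact ⟨fun _ _ _ => (isZero_zero C).eq_of_src _ _⟩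
  | coe j =>
    cases x with
    | top => exact absurd hxy (WithTop.not_top_le_coe j)
    | coe i => exact h i j _

end ext

end gen

theorem RelM_coker {C : Type*} [Category C] [Abelian C] {X Y Z : C} {f : X ⟶ Y} {g : Y ⟶ Z}
    (h : SES f g) : Nonempty (Z ≅ cokernel f) := by
  obtain ⟨b, hb⟩ := h.desc (cokernel.π f) (cokernel.condition f)
  have he := h.epi
  refine ⟨⟨b, cokernel.desc f g h.w, ?_, ?_⟩⟩
  · rw [← cancel_epi g, reassoc_of% hb, cokernel.π_desc, Category.comp_id]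
  · rw [← cancel_epi (cokernel.π f), cokernel.π_desc_assoc, hb, Category.comp_id]

theorem RelM_kernel {C : Type*} [Category C] [Abelian C] {X Y Z : C} {f : X ⟶ Y} {g : Y ⟶ Z}
    (h : SES f g) : Nonempty (X ≅ kernel g) := by
  obtain ⟨b, hb⟩ := h.lift (kernel.ι g) (kernel.condition g)
  have he := h.mono
  refine ⟨⟨kernel.lift g f h.w, b, ?_, ?_⟩⟩
  · rw [← cancel_mono f, Category.assoc, hb, kernel.lift_ι, Category.id_comp]
  · rw [← cancel_mono (kernel.ι g), Category.assoc, kernel.lift_ι, hb, Category.id_comp]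

section S

variable (E : ExCat.{u}) (A : SubP E) (I : Type) [PartialOrder I]

theorem RelM_sesS (D : (E.relS A I).Ob) : RelM_B (C := E.C) (J := WithBot I) D.obj :=
  fun i j h => D.property.1.2.2 ⊥ i j bot_le h

theorem RelM_zeroS (D : (E.relS A I).Ob) :
    IsZero ((show Ar (WithBot I) ⥤ E.C from D.obj).obj (ar ⊥ ⊥ bot_le)) := D.property.1.2.1 ⊥

theorem RelM_ffS (D D' : (E.relS A I).Ob) :
    Bijective fun f : D ⟶ D' => (E.relSm A I).F.map f := by
  constructor
  · intro f g h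
    apply ObjectProperty.hom_ext
    refine RelM_inj_bot (C := E.C) (J := WithBot I) D.obj D'.obj (RelM_sesS E A I D) f.hom g.hom
      fun j => ?_
    cases j with
    | bot => exact (RelM_zeroS E A I D).eq_of_src _ _
    | coe j =>
      have h1 := congrArg (fun t : (E.relSm A I).F.obj D ⟶ (E.relSm A I).F.obj D' =>
        (show (show I ⥤ E.C from ((E.relSm A I).F.obj D).obj) ⟶
          (show I ⥤ E.C from ((E.relSm A I).F.obj D').obj) from t.hom).app j) h
      exact h1
  · intro τ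
    let t0 : (arB I).monotone.functor ⋙ (show Ar (WithBot I) ⥤ E.C from D.obj) ⟶
      (arB I).monotone.functor ⋙ (show Ar (WithBot I) ⥤ E.C from D'.obj) := τ.hom
    let t : ∀ j : WithBot I, (show Ar (WithBot I) ⥤ E.C from D.obj).obj (ar ⊥ j bot_le) ⟶
        (show Ar (WithBot I) ⥤ E.C from D'.obj).obj (ar ⊥ j bot_le) := fun j =>
      match j with
      | none => 0
      | some j => t0.app j
    obtain ⟨σ, hσ⟩ := RelM_ext_bot (C := E.C) (J := WithBot I) D.obj D'.obj (RelM_sesS E A I D)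
      (RelM_sesS E A I D') t fun i j h => by
        cases i with
        | bot => exact (RelM_zeroS E A I D).eq_of_src _ _
        | coe i =>
          cases j with
          | bot => exact absurd h (WithBot.not_coe_le_bot i)
          | coe j => exact t0.naturality (homOfLE (WithBot.coe_le_coe.1 h))
    refine ⟨ObjectProperty.homMk σ, ?_⟩
    apply ObjectProperty.hom_ext
    apply NatTrans.ext
    funext j
    exact hσ (j : WithBot I)

theorem RelM_esS (V : (E.mono A I).Ob) :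
    ∃ D : (E.relS A I).Ob, Nonempty ((E.relSm A I).F.obj D ≅ V) := by
  let W : WithBot I ⥤ E.C := RelM_botF (show I ⥤ E.C from V.obj)
  have hW : ∀ (x y : WithBot I) (h : x ≤ y), Mono (W.map (homOfLE h)) :=
    RelM_botF_mono _ fun i j h => by
      obtain ⟨Z, g, hZ, hg⟩ := V.property.2 i j h
      exact hg.mono
  have hpi : ∀ j : WithBot I, IsIso (cokernel.π (W.map (homOfLE (bot_le : ⊥ ≤ j)))) := fun j =>
    RelM_pi _ (isZero_zero E.C)
  have hA : ∀ x : Ar (WithBot I), (condS A I x).P ((RelM_cok W).obj x) := by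
    rintro ⟨⟨i, j⟩, h⟩
    cases i with
    | bot =>
      cases j with
      | bot => exact E.zero _ (RelM_cok_zero W ⊥)
      | coe j =>
        exact E.iso (@asIso _ _ _ _ (cokernel.π (W.map (homOfLE (bot_le : ⊥ ≤ (j : WithBot I)))))
          (hpi (j : WithBot I))) (V.property.1 j)
    | coe i =>
      cases j with
      | bot => exact absurd h (WithBot.not_coe_le_bot i)
      | coe j =>
        obtain ⟨Z, g, hZ, hg⟩ := V.property.2 i j (WithBot.coe_le_coe.1 h)
        obtain ⟨e⟩ := RelM_coker hg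
        exact A.iso e hZ
  refine ⟨⟨RelM_cok W, ⟨⟨fun x => (condS A I x).le _ (hA x), RelM_cok_zero W,
    RelM_cok_ses W hW⟩, hA⟩⟩, ⟨Iso.symm (ObjectProperty.isoMk _ ?_)⟩⟩
  refine NatIso.ofComponents (fun i : I => @asIso _ _ _ _
    (cokernel.π (W.map (homOfLE (bot_le : ⊥ ≤ (i : WithBot I))))) (hpi i)) fun {i j} f => ?_
  exact (RelM_cok_pi W (arHom bot_le bot_le le_rfl (WithBot.coe_le_coe.2 f.le) :
    ar ⊥ (i : WithBot I) bot_le ⟶ ar ⊥ (j : WithBot I) bot_le)).symm

theorem RelM_rcS {X Y Z : (E.relS A I).Ob} (f : X ⟶ Y) (g : Y ⟶ Z)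
    (h : (E.mono A I).Conf ((E.relSm A I).F.map f) ((E.relSm A I).F.map g)) :
    (E.relS A I).Conf f g := by
  refine (ses_functor _ _).2 (RelM_conf_bot (C := E.C) (J := WithBot I) X.obj Y.obj Z.obj
    (RelM_sesS E A I X) (RelM_sesS E A I Y) (RelM_sesS E A I Z) f.hom g.hom fun j => ?_)
  cases j with
  | bot => exact ses_of_isZero _ _ (RelM_zeroS E A I X) (RelM_zeroS E A I Y) (RelM_zeroS E A I Z)
  | coe j => exact (ses_functor _ _).1 h j

end S

section T

variable (E : ExCat.{u}) (A : SubP E) (I : Type) [PartialOrder I]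

theorem RelM_sesT (D : (E.relT A I).Ob) : RelM_T (C := E.C) (J := WithTop I) D.obj :=
  fun i j h => D.property.1.2.2 i j ⊤ h le_top

theorem RelM_zeroT (D : (E.relT A I).Ob) :
    IsZero ((show Ar (WithTop I) ⥤ E.C from D.obj).obj (ar ⊤ ⊤ le_top)) := D.property.1.2.1 ⊤

theorem RelM_ffT (D D' : (E.relT A I).Ob) :
    Bijective fun f : D ⟶ D' => (E.relTe A I).F.map f := by
  constructor
  · intro f g h
    apply ObjectProperty.hom_ext
    refine RelM_inj_top (C := E.C) (J := WithTop I) D.obj D'.obj (RelM_sesT E A I D') f.hom g.hom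
      fun j => ?_
    cases j with
    | top => exact (RelM_zeroT E A I D).eq_of_src _ _
    | coe j =>
      have h1 := congrArg (fun t : (E.relTe A I).F.obj D ⟶ (E.relTe A I).F.obj D' =>
        (show (show I ⥤ E.C from ((E.relTe A I).F.obj D).obj) ⟶
          (show I ⥤ E.C from ((E.relTe A I).F.obj D').obj) from t.hom).app j) h
      exact h1
  · intro τ
    let t0 : (arT I).monotone.functor ⋙ (show Ar (WithTop I) ⥤ E.C from D.obj) ⟶
      (arT I).monotone.functor ⋙ (show Ar (WithTop I) ⥤ E.C from D'.obj) := τ.hom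
    let t : ∀ j : WithTop I, (show Ar (WithTop I) ⥤ E.C from D.obj).obj (ar j ⊤ le_top) ⟶
        (show Ar (WithTop I) ⥤ E.C from D'.obj).obj (ar j ⊤ le_top) := fun j =>
      match j with
      | none => 0
      | some j => t0.app j
    obtain ⟨σ, hσ⟩ := RelM_ext_top (C := E.C) (J := WithTop I) D.obj D'.obj (RelM_sesT E A I D)
      (RelM_sesT E A I D') t fun i j h => by
        cases j with
        | top => exact (RelM_zeroT E A I D').eq_of_tgt _ _
        | coe j =>
          cases i with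
          | top => exact absurd h (WithTop.not_top_le_coe j)
          | coe i => exact t0.naturality (homOfLE (WithTop.coe_le_coe.1 h))
    refine ⟨ObjectProperty.homMk σ, ?_⟩
    apply ObjectProperty.hom_ext
    apply NatTrans.ext
    funext j
    exact hσ (j : WithTop I)

theorem RelM_esT (V : (E.epi A I).Ob) :
    ∃ D : (E.relT A I).Ob, Nonempty ((E.relTe A I).F.obj D ≅ V) := by
  let W : WithTop I ⥤ E.C := RelM_topF (show I ⥤ E.C from V.obj)
  have hW : ∀ (x y : WithTop I) (h : x ≤ y), Epi (W.map (homOfLE h)) :=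
    RelM_topF_epi _ fun i j h => by
      obtain ⟨Z, g, hZ, hg⟩ := V.property.2 i j h
      exact hg.epi
  have hio : ∀ j : WithTop I, IsIso (kernel.ι (W.map (homOfLE (le_top : j ≤ ⊤)))) := fun j =>
    RelM_iota _ (isZero_zero E.C)
  have hA : ∀ x : Ar (WithTop I), (condT A I x).P ((RelM_ker W).obj x) := by
    rintro ⟨⟨i, j⟩, h⟩
    cases j with
    | top =>
      cases i with
      | top => exact E.zero _ (RelM_ker_zero W ⊤)
      | coe i =>
        exact E.iso (@asIso _ _ _ _ (kernel.ι (W.map (homOfLE (le_top : (i : WithTop I) ≤ ⊤))))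
          (hio (i : WithTop I))).symm (V.property.1 i)
    | coe j =>
      cases i with
      | top => exact absurd h (WithTop.not_top_le_coe j)
      | coe i =>
        obtain ⟨Z, g, hZ, hg⟩ := V.property.2 i j (WithTop.coe_le_coe.1 h)
        obtain ⟨e⟩ := RelM_kernel hg
        exact A.iso e hZ
  refine ⟨⟨RelM_ker W, ⟨⟨fun x => (condT A I x).le _ (hA x), RelM_ker_zero W,
    RelM_ker_ses W hW⟩, hA⟩⟩, ⟨ObjectProperty.isoMk _ ?_⟩⟩
  refine NatIso.ofComponents (fun i : I => @asIso _ _ _ _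
    (kernel.ι (W.map (homOfLE (le_top : (i : WithTop I) ≤ ⊤)))) (hio i)) fun {i j} f => ?_
  exact RelM_ker_iota W (arHom le_top le_top (WithTop.coe_le_coe.2 f.le) le_rfl :
    ar (i : WithTop I) ⊤ le_top ⟶ ar (j : WithTop I) ⊤ le_top)

theorem RelM_rcT {X Y Z : (E.relT A I).Ob} (f : X ⟶ Y) (g : Y ⟶ Z)
    (h : (E.epi A I).Conf ((E.relTe A I).F.map f) ((E.relTe A I).F.map g)) :
    (E.relT A I).Conf f g := by
  refine (ses_functor _ _).2 (RelM_conf_top (C := E.C) (J := WithTop I) X.obj Y.obj Z.obj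
    (RelM_sesT E A I X) (RelM_sesT E A I Y) (RelM_sesT E A I Z) f.hom g.hom fun j => ?_)
  cases j with
  | top => exact ses_of_isZero _ _ (RelM_zeroT E A I X) (RelM_zeroT E A I Y) (RelM_zeroT E A I Z)
  | coe j => exact (ses_functor _ _).1 h j

end T

/-- chosen quotients -/
theorem thm_RelM (hE : St_Equi.{u}) : St_RelM.{u} := fun E A I _ =>
  ⟨hE (E.relSm A I) (fun X Y => RelM_ffS E A I X Y) (RelM_esS E A I)
    (fun f g h => RelM_rcS E A I f g h),
   hE (E.relTe A I) (fun X Y => RelM_ffT E A I X Y) (RelM_esT E A I)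
    (fun f g h => RelM_rcT E A I f g h)⟩

end Pool.Agent.KQ
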