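import Pool.Agent.KQ.ExAll
import Pool.Agent.KQ.RelM
import Pool.Agent.KQ.ADD

/-!
# KQ: exact categories: the long exact sequences and additivity without hypotheses
(architect helper33)
-/

set_option autoImplicit false

namespace Pool.Agent.KQ

open CategoryTheory CategoryTheory.Limits Function

universe u

theorem all_RelM : St_RelM.{u} := thm_RelM thm_Equi

/-- **LES** for chains of monomorphisms with cokernel in a subcategory -/
theorem all_LESM : St_LESM.{u} := thm_LESM thm_Zero thm_Ev all_CutK thm_Con all_RelM

/-- **LES** for chains of epimorphisms with kernel in a subcategory -/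
theorem all_LESE : St_LESE.{u} := thm_LESE thm_Zero thm_Ev all_CutK thm_Con all_RelM

/-- **ADD** -/
theorem all_ADD : St_ADD.{u} := thm_ADD all_SPR2 thm_Zero

end Pool.Agent.KQ
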