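import Pool.Agent.KQ.StSA

/-!
# KQ: localization in terms of strong maps of bisimplicial sets

Assembly: `D.toW` by the rows (resolution for chains), `D.toIso` by the columns, `cstI` by the rows.
-/

set_option autoImplicit false

noncomputable section

namespace Pool.Agent.KQ

open CategoryTheory CategoryTheory.Limits Function
open scoped ZeroObject

universe u

namespace Lc

variable {EB EC : ExCat.{u}}

/-- the row `m` of `D.toW` is the inclusion of the chains of monomorphisms -/
theorem row_toW (D : LocD EB EC) (m : ℕ) :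
    (biS.map D.toW).app m =
      SdS.incl (fun X h => D.mono_le (J := Fin (m + 1)) X h) := rfl

/-- the row `m` of `cstI` -/
theorem row_cstI (E : ExCat.{u}) (m : ℕ) :
    (biS.map (cstI E)).app m = (E.cstI (Fin (m + 1))).obS := rfl

end Lc

theorem thm_Lc (hLcV : St_LcV.{u}) (hRes : St_Res.{u + 1, u}) (hLcW : St_LcW.{u})
    (hLcI : St_LcI.{u}) (hRow : St_StrRow.{u + 1}) (hCol : St_StrCol.{u + 1}) : St_Lc.{u} := by
  intro EB EC D
  refine ⟨hRow _ fun m => ?_, hCol _ fun m => hLcW D m, hRow _ fun m => ?_⟩
  · rw [Lc.row_toW]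
    exact hRes _ _ (hLcV D m)
  · rw [Lc.row_cstI]
    exact hLcI EC m

end Pool.Agent.KQ
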