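import Pool.Agent.KQ.Ses

/-!
# KQ: more on short exact sequences: the other nine lemmas, cokernels, pushouts
-/

set_option autoImplicit false

namespace Pool.Agent.KQ

open CategoryTheory CategoryTheory.Limits

section nine

variable {C : Type*} [Category C] [Abelian C]

theorem mono_of_zero {X Y : C} (f : X ⟶ Y) (h : ∀ (A : C) (y : A ⟶ X), y ≫ f = 0 → y = 0) :
    Mono f := ⟨fun y y' e => by
  have := h _ (y - y') (by rw [Preadditive.sub_comp, e, sub_self])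
  exact sub_eq_zero.1 this⟩

theorem epi_of_zero {X Y : C} (f : X ⟶ Y) (h : ∀ (A : C) (y : Y ⟶ A), f ≫ y = 0 → y = 0) :
    Epi f := ⟨fun y y' e => by
  have := h _ (y - y') (by rw [Preadditive.comp_sub, e, sub_self])
  exact sub_eq_zero.1 this⟩

theorem ses_cokernel {X Y : C} (f : X ⟶ Y) [Mono f] : SES f (cokernel.π f) := by
  rw [ses_iff]
  refine ⟨cokernel.condition f, inferInstance, inferInstance, fun A y hy => ?_⟩
  have h := Abelian.monoLift f y hy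
  exact ⟨Abelian.monoLift f y hy, Abelian.monoLift_comp f y hy⟩

theorem ses_kernel {X Y : C} (f : X ⟶ Y) [Epi f] : SES (kernel.ι f) f := by
  rw [ses_iff]
  exact ⟨kernel.condition f, inferInstance, inferInstance, fun A y hy =>
    ⟨kernel.lift f y hy, kernel.lift_ι f y hy⟩⟩

/-- a morphism of short exact sequences with outer monomorphisms -/
theorem mono_mid {X₁ X₂ Y₁ Y₂ Z₁ Z₂ : C} {u₁ : X₁ ⟶ Y₁} {v₁ : Y₁ ⟶ Z₁} {u₂ : X₂ ⟶ Y₂}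
    {v₂ : Y₂ ⟶ Z₂} (s₁ : SES u₁ v₁) (s₂ : SES u₂ v₂) (a : X₁ ⟶ X₂) (b : Y₁ ⟶ Y₂) (c : Z₁ ⟶ Z₂)
    [Mono a] [Mono c] (h1 : u₁ ≫ b = a ≫ u₂) (h2 : v₁ ≫ c = b ≫ v₂) : Mono b := by
  have := s₂.mono
  apply mono_of_zero
  intro A y hy
  have e1 : y ≫ v₁ = 0 := by
    rw [← cancel_mono c, Category.assoc, h2, reassoc_of% hy, zero_comp, zero_comp]
  obtain ⟨x, hx⟩ := s₁.lift y e1
  have e2 : x = 0 := by
    rw [← cancel_mono a, ← cancel_mono u₂, Category.assoc, ← h1, reassoc_of% hx, hy, zero_comp,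
      zero_comp]
  rw [← hx, e2, zero_comp]

/-- a morphism of short exact sequences with outer epimorphisms -/
theorem epi_mid {X₁ X₂ Y₁ Y₂ Z₁ Z₂ : C} {u₁ : X₁ ⟶ Y₁} {v₁ : Y₁ ⟶ Z₁} {u₂ : X₂ ⟶ Y₂}
    {v₂ : Y₂ ⟶ Z₂} (s₁ : SES u₁ v₁) (s₂ : SES u₂ v₂) (a : X₁ ⟶ X₂) (b : Y₁ ⟶ Y₂) (c : Z₁ ⟶ Z₂)
    [Epi a] [Epi c] (h1 : u₁ ≫ b = a ≫ u₂) (h2 : v₁ ≫ c = b ≫ v₂) : Epi b := by
  have := s₁.epi
  apply epi_of_zero
  intro A y hy
  have e1 : u₂ ≫ y = 0 := by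
    rw [← cancel_epi a, ← reassoc_of% h1, hy, comp_zero, comp_zero]
  obtain ⟨x, hx⟩ := s₂.desc y e1
  have e2 : x = 0 := by
    rw [← cancel_epi c, ← cancel_epi v₁]
    have : v₁ ≫ c ≫ x = b ≫ y := by rw [reassoc_of% h2, hx]
    rw [this, hy, comp_zero, comp_zero]
  rw [← hx, e2, comp_zero]

/-- **Nine lemma** (last row): columns short exact, first two rows short exact. -/
theorem nine_bot {X₁ X₂ X₃ Y₁ Y₂ Y₃ Z₁ Z₂ Z₃ : C} {a : X₁ ⟶ X₂} {a' : X₂ ⟶ X₃} {b : Y₁ ⟶ Y₂}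
    {b' : Y₂ ⟶ Y₃} {c : Z₁ ⟶ Z₂} {c' : Z₂ ⟶ Z₃} {u₁ : X₁ ⟶ Y₁} {v₁ : Y₁ ⟶ Z₁} {u₂ : X₂ ⟶ Y₂}
    {v₂ : Y₂ ⟶ Z₂} {u₃ : X₃ ⟶ Y₃} {v₃ : Y₃ ⟶ Z₃} (s₁ : SES u₁ v₁) (s₂ : SES u₂ v₂)
    (ra : SES a a') (rb : SES b b') (rc : SES c c') (h1 : a ≫ u₂ = u₁ ≫ b)
    (h2 : a' ≫ u₃ = u₂ ≫ b') (h3 : b ≫ v₂ = v₁ ≫ c) (h4 : b' ≫ v₃ = v₂ ≫ c') : SES u₃ v₃ := by
  have := s₁.mono
  have := s₂.mono
  have := s₁.epi
  have := s₂.epi
  have := ra.mono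
  have := ra.epi
  have := rb.mono
  have := rb.epi
  have := rc.mono
  have := rc.epi
  have w : u₃ ≫ v₃ = 0 := by
    rw [← cancel_epi a', reassoc_of% h2, h4, reassoc_of% s₂.w, zero_comp, comp_zero]
  have hm : Mono u₃ := by
    apply mono_of_zero
    intro A x hx
    obtain ⟨A', π, hπ, x₂, hx₂⟩ := surjective_up_to_refinements_of_epi a' x
    have e1 : (x₂ ≫ u₂) ≫ b' = 0 := by
      rw [Category.assoc, ← h2, ← reassoc_of% hx₂, hx, comp_zero]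
    obtain ⟨y₁, hy₁⟩ := rb.lift _ e1
    have e2 : y₁ ≫ v₁ = 0 := by
      rw [← cancel_mono c, Category.assoc, ← h3, reassoc_of% hy₁, s₂.w, comp_zero, zero_comp]
    obtain ⟨x₁, hx₁⟩ := s₁.lift y₁ e2
    have e3 : x₁ ≫ a = x₂ := by
      rw [← cancel_mono u₂, Category.assoc, h1, reassoc_of% hx₁, hy₁]
    rw [← cancel_epi π, hx₂, ← e3, Category.assoc, ra.w, comp_zero, comp_zero]
  have he : Epi v₃ := by
    have : Epi (b' ≫ v₃) := by rw [h4]; infer_instance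
    exact epi_of_epi b' v₃
  refine ⟨w, ShortComplex.ShortExact.mk' ?_ hm he⟩
  rw [ShortComplex.exact_iff_exact_up_to_refinements]
  intro A y hy
  change y ≫ v₃ = 0 at hy
  obtain ⟨A', π, hπ, y₂, hy₂⟩ := surjective_up_to_refinements_of_epi b' y
  obtain ⟨z₁, hz₁⟩ := rc.lift (y₂ ≫ v₂) (by
    rw [Category.assoc, ← h4, ← reassoc_of% hy₂, hy, comp_zero])
  obtain ⟨A'', π', hπ', y₁, hy₁⟩ := surjective_up_to_refinements_of_epi v₁ z₁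
  obtain ⟨x₂, hx₂⟩ := s₂.lift (π' ≫ y₂ - y₁ ≫ b) (by
    rw [Preadditive.sub_comp, Category.assoc, Category.assoc, h3, ← reassoc_of% hy₁, hz₁, sub_self])
  refine ⟨A'', π' ≫ π, inferInstance, x₂ ≫ a', ?_⟩
  change (π' ≫ π) ≫ y = (x₂ ≫ a') ≫ u₃
  rw [Category.assoc, Category.assoc, hy₂, h2, reassoc_of% hx₂, Preadditive.sub_comp,
    Category.assoc, Category.assoc, rb.w, comp_zero, sub_zero]

/-- **Nine lemma** (first row): columns short exact, last two rows short exact. -/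
theorem nine_top {X₁ X₂ X₃ Y₁ Y₂ Y₃ Z₁ Z₂ Z₃ : C} {a : X₁ ⟶ X₂} {a' : X₂ ⟶ X₃} {b : Y₁ ⟶ Y₂}
    {b' : Y₂ ⟶ Y₃} {c : Z₁ ⟶ Z₂} {c' : Z₂ ⟶ Z₃} {u₁ : X₁ ⟶ Y₁} {v₁ : Y₁ ⟶ Z₁} {u₂ : X₂ ⟶ Y₂}
    {v₂ : Y₂ ⟶ Z₂} {u₃ : X₃ ⟶ Y₃} {v₃ : Y₃ ⟶ Z₃} (s₂ : SES u₂ v₂) (s₃ : SES u₃ v₃)
    (ra : SES a a') (rb : SES b b') (rc : SES c c') (h1 : a ≫ u₂ = u₁ ≫ b)
    (h2 : a' ≫ u₃ = u₂ ≫ b') (h3 : b ≫ v₂ = v₁ ≫ c) (h4 : b' ≫ v₃ = v₂ ≫ c') : SES u₁ v₁ := by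
  have := s₂.mono
  have := s₃.mono
  have := s₂.epi
  have := s₃.epi
  have := ra.mono
  have := ra.epi
  have := rb.mono
  have := rb.epi
  have := rc.mono
  have := rc.epi
  have w : u₁ ≫ v₁ = 0 := by
    rw [← cancel_mono c, Category.assoc, ← h3, ← reassoc_of% h1, s₂.w, comp_zero, zero_comp]
  have hm : Mono u₁ := by
    have : Mono (u₁ ≫ b) := by rw [← h1]; infer_instance
    exact mono_of_mono u₁ b
  have he : Epi v₁ := by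
    rw [epi_iff_surjective_up_to_refinements]
    intro A z
    obtain ⟨A', π, hπ, y₂, hy₂⟩ := surjective_up_to_refinements_of_epi v₂ (z ≫ c)
    have e1 : (y₂ ≫ b') ≫ v₃ = 0 := by
      rw [Category.assoc, h4, ← reassoc_of% hy₂, rc.w, comp_zero, comp_zero]
    obtain ⟨x₃, hx₃⟩ := s₃.lift _ e1
    obtain ⟨A'', π', hπ', x₂, hx₂⟩ := surjective_up_to_refinements_of_epi a' x₃
    obtain ⟨y₁, hy₁⟩ := rb.lift (π' ≫ y₂ - x₂ ≫ u₂) (by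
      rw [Preadditive.sub_comp, Category.assoc, Category.assoc, ← h2, ← reassoc_of% hx₂, hx₃,
        sub_self])
    refine ⟨A'', π' ≫ π, inferInstance, y₁, ?_⟩
    rw [← cancel_mono c, Category.assoc, Category.assoc, hy₂, Category.assoc, ← h3,
      reassoc_of% hy₁, Preadditive.sub_comp, Category.assoc, Category.assoc, s₂.w, comp_zero,
      sub_zero]
  refine ⟨w, ShortComplex.ShortExact.mk' ?_ hm he⟩
  rw [ShortComplex.exact_iff_exact_up_to_refinements]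
  intro A y hy
  change y ≫ v₁ = 0 at hy
  obtain ⟨x₂, hx₂⟩ := s₂.lift (y ≫ b) (by rw [Category.assoc, h3, reassoc_of% hy, zero_comp])
  obtain ⟨x₁, hx₁⟩ := ra.lift x₂ (by
    rw [← cancel_mono u₃, Category.assoc, h2, reassoc_of% hx₂, rb.w, comp_zero, zero_comp])
  refine ⟨A, 𝟙 A, inferInstance, x₁, ?_⟩
  change 𝟙 A ≫ y = x₁ ≫ u₁
  rw [Category.id_comp, ← cancel_mono b, Category.assoc, ← h1, reassoc_of% hx₁, hx₂]

end nine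

end Pool.Agent.KQ
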