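import Pool.Agent.KQ.StSA
import Pool.Agent.KQ.Ses2

/-!
# KQ: the comma categories for localization are contractible

For an S-diagram `c` in `EC.P` let `E = R (c (0, last))`. `Lat D c`: the subobjects `Λ` of `E` in `EB.P` with
`L Λ ⟶ L E` an isomorphism; a nonempty directed thin category. `flag`: the functor from `Lat D c` to the comma
category, `flag Λ (i, j)` is the image of the fibre product of `Λ` and `R c(0, j)` in `R c(i, j)`. `img`: the
functor in the other direction, the image of `b (0, last) ⟶ E`.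
-/

set_option autoImplicit false

noncomputable section

namespace Pool.Agent.KQ

open CategoryTheory CategoryTheory.Limits
open scoped ZeroObject

universe u

namespace LcC

/-! ### lifting along a monomorphism -/

theorem lft {C : Type*} [Category C] [Abelian C] {T' T F Y : C} (π : T' ⟶ T) (hπ : Epi π)
    (i : F ⟶ Y) (hi : Mono i) (y : T ⟶ Y) (v : T' ⟶ F) (h : v ≫ i = π ≫ y) :
    ∃ l : T ⟶ F, l ≫ i = y := by
  refine (ses_cokernel i).lift y ?_
  rw [← cancel_epi π, ← Category.assoc, ← h, Category.assoc, cokernel.condition, comp_zero,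
    comp_zero]

/-! ### the flag, abstractly -/

/-- the image in `Y` of the fibre product of `X` and `Z` over `E` -/
structure Fl {C : Type*} [Category C] [Abelian C] {X E Z Y : C} (ι : X ⟶ E) (s : Z ⟶ E)
    (x : Z ⟶ Y) where
  F : C
  N : C
  i : F ⟶ Y
  e : N ⟶ F
  a : N ⟶ X
  w : N ⟶ Z
  mono : Mono i
  epi : Epi e
  pb : IsPullback a w ι s
  fac : w ≫ x = e ≫ i

section

variable {C : Type*} [Category C] [Abelian C] {X E Z Y : C} {ι : X ⟶ E} {s : Z ⟶ E} {x : Z ⟶ Y}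

theorem Fl.nonempty (ι : X ⟶ E) (s : Z ⟶ E) (x : Z ⟶ Y) : Nonempty (Fl ι s x) :=
  ⟨{ F := image (pullback.snd ι s ≫ x)
     N := pullback ι s
     i := image.ι _
     e := factorThruImage _
     a := pullback.fst _ _
     w := pullback.snd _ _
     mono := inferInstance
     epi := inferInstance
     pb := IsPullback.of_hasPullback _ _
     fac := (image.fac _).symm }⟩

theorem Fl.lift (φ : Fl ι s x) {T T' : C} (π : T' ⟶ T) (hπ : Epi π) (y : T ⟶ Y) (a' : T' ⟶ X)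
    (w' : T' ⟶ Z) (h : a' ≫ ι = w' ≫ s) (h' : w' ≫ x = π ≫ y) : ∃ l : T ⟶ φ.F, l ≫ φ.i = y := by
  refine lft π hπ φ.i φ.mono y (φ.pb.lift a' w' h ≫ φ.e) ?_
  rw [Category.assoc, ← φ.fac, IsPullback.lift_snd_assoc, h']

theorem Fl.map_ex {X' Z' Y' : C} {ι' : X' ⟶ E} {s' : Z' ⟶ E} {x' : Z' ⟶ Y'} (φ : Fl ι s x)
    (φ' : Fl ι' s' x') (g : X ⟶ X') (hg : g ≫ ι' = ι) (r : Z ⟶ Z') (hr : r ≫ s' = s) (p : Y ⟶ Y')
    (hp : x ≫ p = r ≫ x') : ∃ l : φ.F ⟶ φ'.F, l ≫ φ'.i = φ.i ≫ p := by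
  refine φ'.lift φ.e φ.epi _ (φ.a ≫ g) (φ.w ≫ r) ?_ ?_
  · rw [Category.assoc, hg, φ.pb.w, Category.assoc, hr]
  · rw [Category.assoc, ← hp, ← Category.assoc, φ.fac, Category.assoc]

theorem Fl.prop (φ : Fl ι s x) {P : ObjectProperty C} (hs : SubC P) (hq : QuoC P) (h : Mono s)
    (hX : P X) : P φ.F := by
  have h1 := φ.epi
  have h3 : Mono φ.a := ⟨fun y y' h => by
    refine φ.pb.hom_ext h ?_
    rw [← cancel_mono s, Category.assoc, Category.assoc, ← φ.pb.w, ← Category.assoc,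
      ← Category.assoc, h]⟩
  exact hq φ.e (hs φ.a hX)

theorem Fl.ses {Z₁ Y₁ Z₂ Y₂ Y₃ : C} {s₁ : Z₁ ⟶ E} {s₂ : Z₂ ⟶ E} {x₁ : Z₁ ⟶ Y₁} {x₂ : Z₂ ⟶ Y₂}
    {x₃ : Z₂ ⟶ Y₃} (φ₁ : Fl ι s₁ x₁) (φ₂ : Fl ι s₂ x₂) (φ₃ : Fl ι s₂ x₃) (p : Y₁ ⟶ Y₂)
    (q : Y₂ ⟶ Y₃) (r : Z₁ ⟶ Z₂) (hr : r ≫ s₂ = s₁) (h1 : x₁ ≫ p = r ≫ x₂) (h2 : x₂ ≫ q = x₃)
    (hp : Mono p) (hpq : p ≫ q = 0)
    (hl : ∀ (T : C) (y : T ⟶ Y₂), y ≫ q = 0 → ∃ v : T ⟶ Y₁, v ≫ p = y)
    (hl' : ∀ (T : C) (y : T ⟶ Z₂), y ≫ x₃ = 0 → ∃ v : T ⟶ Z₁, v ≫ r = y)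
    (l : φ₁.F ⟶ φ₂.F) (l' : φ₂.F ⟶ φ₃.F) (e : l ≫ φ₂.i = φ₁.i ≫ p) (e' : l' ≫ φ₃.i = φ₂.i ≫ q) :
    SES l l' := by
  have m1 := φ₁.mono
  have m2 := φ₂.mono
  have m3 := φ₃.mono
  rw [ses_iff]
  refine ⟨?_, ?_, ?_, ?_⟩
  · rw [← cancel_mono φ₃.i, Category.assoc, e', ← Category.assoc, e, Category.assoc, hpq, comp_zero,
      zero_comp]
  · have h3 : Mono (l ≫ φ₂.i) := by
      rw [e]
      infer_instance
    exact mono_of_mono l φ₂.i
  · have h3 : (φ₂.pb.lift φ₃.a φ₃.w φ₃.pb.w ≫ φ₂.e) ≫ l' = φ₃.e := by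
      rw [← cancel_mono φ₃.i, Category.assoc, e', Category.assoc, ← Category.assoc φ₂.e, ← φ₂.fac,
        Category.assoc, IsPullback.lift_snd_assoc, h2, φ₃.fac]
    have h4 : Epi ((φ₂.pb.lift φ₃.a φ₃.w φ₃.pb.w ≫ φ₂.e) ≫ l') := by
      rw [h3]
      exact φ₃.epi
    exact epi_of_epi (φ₂.pb.lift φ₃.a φ₃.w φ₃.pb.w ≫ φ₂.e) l'
  · intro A y hy
    have e1 := φ₂.epi
    obtain ⟨A', π, hπ, n, hn⟩ := surjective_up_to_refinements_of_epi φ₂.e y
    have h3 : (y ≫ φ₂.i) ≫ q = 0 := by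
      rw [Category.assoc, ← e', ← Category.assoc, hy, zero_comp]
    have h4 : n ≫ φ₂.w ≫ x₂ = π ≫ y ≫ φ₂.i := by
      rw [φ₂.fac, ← Category.assoc, ← hn, Category.assoc]
    have h5 : (n ≫ φ₂.w) ≫ x₃ = 0 := by
      rw [← h2, Category.assoc, ← Category.assoc φ₂.w, ← Category.assoc n, h4, Category.assoc, h3,
        comp_zero]
    obtain ⟨w', hw⟩ := hl' A' (n ≫ φ₂.w) h5
    obtain ⟨v, hv⟩ := hl A (y ≫ φ₂.i) h3
    obtain ⟨t, ht⟩ := φ₁.lift π hπ v (n ≫ φ₂.a) w' (by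
        rw [Category.assoc, φ₂.pb.w, ← Category.assoc, ← hw, Category.assoc, hr]) (by
        rw [← cancel_mono p, Category.assoc, Category.assoc, hv, h1, ← Category.assoc, hw,
          Category.assoc, h4])
    refine ⟨t, ?_⟩
    rw [← cancel_mono φ₂.i, Category.assoc, e, ← Category.assoc, ht, hv]

end

section

variable {EB EC : ExCat.{u}} (D : LocD EB EC)

/-! ### properties of `L` and `R` -/

theorem R_mono {X Y : EC.C} (f : X ⟶ Y) (h : Mono f) : Mono (D.R.map f) := by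
  have h1 : D.R.PreservesMonomorphisms := Functor.preservesMonomorphisms_of_adjunction D.adj
  exact h1.preserves f

theorem R_hom_zero {X Y : EC.C} (f : X ⟶ Y) (h : f = 0) : D.R.map f = 0 := by
  have h1 : D.R.Additive := D.adj.right_adjoint_additive
  rw [h, D.R.map_zero]

theorem R_isZero {X : EC.C} (h : IsZero X) : IsZero (D.R.obj X) := by
  rw [IsZero.iff_id_eq_zero]
  exact (D.adj.homEquiv _ _).symm.injective (h.eq_of_tgt _ _)

theorem R_lift {X Y Z : EC.C} {f : X ⟶ Y} {g : Y ⟶ Z} (h : SES f g) {T : EB.C}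
    (y : T ⟶ D.R.obj Y) (hy : y ≫ D.R.map g = 0) : ∃ x : T ⟶ D.R.obj X, x ≫ D.R.map f = y := by
  have h1 : (D.adj.homEquiv T Y).symm y ≫ g = 0 := by
    rw [← Adjunction.homEquiv_naturality_right_symm, hy]
    change D.L.map 0 ≫ D.adj.counit.app Z = 0
    rw [D.L.map_zero, zero_comp]
  obtain ⟨x, hx⟩ := h.lift _ h1
  refine ⟨D.adj.homEquiv T X x, ?_⟩
  rw [← Adjunction.homEquiv_naturality_right, hx, Equiv.apply_symm_apply]

theorem L_mono {X Y : EB.C} (f : X ⟶ Y) (h : Mono f) : Mono (D.L.map f) := inferInstance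

theorem LR_epi {X Y : EC.C} (f : X ⟶ Y) (h : Epi f) : Epi (D.L.map (D.R.map f)) := by
  have h1 : D.L.map (D.R.map f) ≫ D.adj.counit.app Y = D.adj.counit.app X ≫ f :=
    D.adj.counit.naturality f
  have h2 : D.L.map (D.R.map f) = D.adj.counit.app X ≫ f ≫ inv (D.adj.counit.app Y) := by
    rw [← Category.assoc, ← h1, Category.assoc, IsIso.hom_inv_id, Category.comp_id]
  rw [h2]
  infer_instance

theorem counit_iso (X : EC.C) : IsIso (D.adj.counit.app X) := inferInstance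

theorem iso_of_fac {X Y Z : EB.C} (a : X ⟶ Y) (i : Y ⟶ Z) (hi : Mono i)
    (h : IsIso (D.L.map (a ≫ i))) : IsIso (D.L.map i) := by
  rw [D.L.map_comp] at h
  have h1 : Mono (D.L.map i) := L_mono D i hi
  have h2 : Epi (D.L.map i) := epi_of_epi (D.L.map a) (D.L.map i)
  exact isIso_of_mono_of_epi (D.L.map i)

theorem iso_left {X Y Z : EB.C} (a : X ⟶ Y) (i : Y ⟶ Z) (hi : IsIso (D.L.map i))
    (h : IsIso (D.L.map (a ≫ i))) : IsIso (D.L.map a) := by
  rw [D.L.map_comp] at h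
  exact IsIso.of_isIso_comp_right (D.L.map a) (D.L.map i)

variable {D}

/-! ### the lattices -/

/-- the last pair -/
abbrev top (m : ℕ) : Ar (Fin (m + 1)) := ar 0 (Fin.last m) (Fin.zero_le _)

/-- the pair `(0, j)` -/
abbrev zz {m : ℕ} (j : Fin (m + 1)) : Ar (Fin (m + 1)) := ar 0 j (Fin.zero_le _)

/-- `(0, j) ⟶ (0, last)` -/
abbrev zt {m : ℕ} (j : Fin (m + 1)) : zz j ⟶ top m :=
  arHom (Fin.zero_le _) (Fin.zero_le _) le_rfl (Fin.le_last _)

/-- `(0, j) ⟶ (i, j)` -/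
abbrev zx {m : ℕ} (x : Ar (Fin (m + 1))) : zz x.1.2 ⟶ x :=
  arHom (Fin.zero_le _) x.2 (Fin.zero_le _) le_rfl

/-- `(0, j) ⟶ (0, k)` -/
abbrev zj {m : ℕ} {j k : Fin (m + 1)} (h : j ≤ k) : zz j ⟶ zz k :=
  arHom (Fin.zero_le _) (Fin.zero_le _) le_rfl h

variable (D) {m : ℕ} (c : XC EC (Fin (m + 1)))

/-- the diagram `R c` -/
def G : Ar (Fin (m + 1)) ⥤ EB.C := c.obj ⋙ D.R

theorem G_sq {x y y' z : Ar (Fin (m + 1))} (f : x ⟶ y) (g : y ⟶ z) (f' : x ⟶ y') (g' : y' ⟶ z) :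
    (G D c).map f ≫ (G D c).map g = (G D c).map f' ≫ (G D c).map g' := by
  rw [← (G D c).map_comp, ← (G D c).map_comp]
  rfl

theorem G_mono {i j k : Fin (m + 1)} (hij : i ≤ j) (hjk : j ≤ k) :
    Mono ((G D c).map (arHom hij (hij.trans hjk) le_rfl hjk)) :=
  R_mono D _ (c.property.2.2 i j k hij hjk).mono

/-- the subobjects `Λ` of `E = R (c (0, last))` in `EB.P` with `L Λ ⟶ L E` an isomorphism -/
structure Lat where
  X : EB.C
  ι : X ⟶ (G D c).obj (top m)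
  mono : Mono ι
  P : EB.P X
  iso : IsIso (D.L.map ι)

instance : Category.{u} (Lat D c) where
  Hom Λ Λ' := {f : Λ.X ⟶ Λ'.X // f ≫ Λ'.ι = Λ.ι}
  id Λ := ⟨𝟙 _, Category.id_comp _⟩
  comp f g := ⟨f.1 ≫ g.1, by rw [Category.assoc, g.2, f.2]⟩

theorem Lat.thin (Λ Λ' : Lat D c) : Subsingleton (Λ ⟶ Λ') := ⟨fun f g => by
  have h := Λ'.mono
  apply Subtype.ext
  rw [← cancel_mono Λ'.ι, f.2, g.2]⟩

theorem Lat.nonempty : Nonempty (Lat D c) := by
  obtain ⟨b, ι, h1, h2, h3⟩ := D.lift (c.obj.obj (top m)) (c.property.1 _)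
  exact ⟨⟨b, ι, h1, h2, IsIso.of_isIso_comp_right (D.L.map ι) (D.adj.counit.app _)⟩⟩

theorem P_biprod {X Y : EB.C} (hX : EB.P X) (hY : EB.P Y) : EB.P (X ⊞ Y) := by
  refine EB.ext (biprod.inl : X ⟶ X ⊞ Y) (biprod.snd : X ⊞ Y ⟶ Y) ?_ hX hY
  rw [ses_iff]
  refine ⟨biprod.inl_snd, inferInstance, inferInstance, fun A y hy => ⟨y ≫ biprod.fst, ?_⟩⟩
  apply biprod.hom_ext
  · simp
  · simp [hy]

theorem Lat.directed (Λ Λ' : Lat D c) : ∃ Λ'' : Lat D c, Nonempty (Λ ⟶ Λ'') ∧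
    Nonempty (Λ' ⟶ Λ'') := by
  have h1 : biprod.inl ≫ factorThruImage (biprod.desc Λ.ι Λ'.ι) ≫
      image.ι (biprod.desc Λ.ι Λ'.ι) = Λ.ι := by
    rw [image.fac, biprod.inl_desc]
  have h2 : biprod.inr ≫ factorThruImage (biprod.desc Λ.ι Λ'.ι) ≫
      image.ι (biprod.desc Λ.ι Λ'.ι) = Λ'.ι := by
    rw [image.fac, biprod.inr_desc]
  refine ⟨⟨image (biprod.desc Λ.ι Λ'.ι), image.ι _, inferInstance,
    D.quoB (factorThruImage (biprod.desc Λ.ι Λ'.ι)) (P_biprod Λ.P Λ'.P), ?_⟩,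
    ⟨⟨biprod.inl ≫ factorThruImage _, ?_⟩⟩, ⟨⟨biprod.inr ≫ factorThruImage _, ?_⟩⟩⟩
  · refine iso_of_fac D (biprod.inl ≫ factorThruImage _) _ inferInstance ?_
    rw [Category.assoc, h1]
    exact Λ.iso
  · rw [Category.assoc]
    exact h1
  · rw [Category.assoc]
    exact h2

/-! ### the flag -/

/-- the data for `flag Λ x` -/
abbrev FL (Λ : Lat D c) (x : Ar (Fin (m + 1))) : Type (u + 1) :=
  Fl Λ.ι ((G D c).map (zt x.1.2)) ((G D c).map (zx x))

/-- a choice -/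
def fl (Λ : Lat D c) (x : Ar (Fin (m + 1))) : FL D c Λ x := Classical.choice (Fl.nonempty _ _ _)

variable {D c}

theorem fl_map_ex {Λ Λ' : Lat D c} (g : Λ ⟶ Λ') {x x' : Ar (Fin (m + 1))} (f : x ⟶ x') :
    ∃ l : (fl D c Λ x).F ⟶ (fl D c Λ' x').F, l ≫ (fl D c Λ' x').i = (fl D c Λ x).i ≫ (G D c).map f :=
  Fl.map_ex (fl D c Λ x) (fl D c Λ' x') g.1 g.2 ((G D c).map (zj (leOfHom f).2))
    ((G D c).map_comp _ _).symm ((G D c).map f) (G_sq D c _ _ _ _)

/-- the maps of the flags -/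
def flm {Λ Λ' : Lat D c} (g : Λ ⟶ Λ') {x x' : Ar (Fin (m + 1))} (f : x ⟶ x') :
    (fl D c Λ x).F ⟶ (fl D c Λ' x').F :=
  Classical.choose (fl_map_ex g f)

theorem flm_i {Λ Λ' : Lat D c} (g : Λ ⟶ Λ') {x x' : Ar (Fin (m + 1))} (f : x ⟶ x') :
    flm g f ≫ (fl D c Λ' x').i = (fl D c Λ x).i ≫ (G D c).map f :=
  Classical.choose_spec (fl_map_ex g f)

theorem fl_ext {Λ : Lat D c} {x : Ar (Fin (m + 1))} {T : EB.C} (l l' : T ⟶ (fl D c Λ x).F)
    (h : l ≫ (fl D c Λ x).i = l' ≫ (fl D c Λ x).i) : l = l' := by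
  have h1 := (fl D c Λ x).mono
  exact (cancel_mono (fl D c Λ x).i).1 h

/-- the flag of `Λ` -/
def flO (Λ : Lat D c) : Ar (Fin (m + 1)) ⥤ EB.C where
  obj x := (fl D c Λ x).F
  map f := flm (𝟙 Λ) f
  map_id x := by
    apply fl_ext
    rw [flm_i, (G D c).map_id, Category.comp_id, Category.id_comp]
  map_comp f g := by
    apply fl_ext
    rw [flm_i, (G D c).map_comp, Category.assoc, flm_i, ← Category.assoc,
      ← Category.assoc (flm (𝟙 Λ) f), flm_i]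

/-- the flags are functorial in `Λ` -/
def flM {Λ Λ' : Lat D c} (g : Λ ⟶ Λ') : flO Λ ⟶ flO Λ' where
  app x := flm g (𝟙 x)
  naturality x x' f := by
    apply fl_ext
    change (flm (𝟙 Λ) f ≫ flm g (𝟙 x')) ≫ (fl D c Λ' x').i =
      (flm g (𝟙 x) ≫ flm (𝟙 Λ') f) ≫ (fl D c Λ' x').i
    rw [Category.assoc, Category.assoc, flm_i, flm_i, ← Category.assoc, ← Category.assoc, flm_i,
      flm_i, (G D c).map_id, (G D c).map_id, Category.comp_id, Category.comp_id]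

theorem flO_P (Λ : Lat D c) (x : Ar (Fin (m + 1))) : EB.P ((flO Λ).obj x) :=
  (fl D c Λ x).prop D.subB D.quoB (G_mono D c (Fin.zero_le _) (Fin.le_last _)) Λ.P

theorem flO_zero (Λ : Lat D c) (i : Fin (m + 1)) : IsZero ((flO Λ).obj (ar i i le_rfl)) := by
  change IsZero (fl D c Λ (ar i i le_rfl)).F
  have h1 := (fl D c Λ (ar i i le_rfl)).mono
  exact IsZero.of_mono (fl D c Λ (ar i i le_rfl)).i (R_isZero D (c.property.2.1 i))

theorem flO_ses (Λ : Lat D c) (i j k : Fin (m + 1)) (hij : i ≤ j) (hjk : j ≤ k) :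
    SES ((flO Λ).map (arHom hij (hij.trans hjk) le_rfl hjk))
      ((flO Λ).map (arHom (hij.trans hjk) hjk hij le_rfl)) := by
  have hG := c.property.2.2 i j k hij hjk
  have hG0 := c.property.2.2 0 j k (Fin.zero_le _) hjk
  have h1 : (G D c).map (arHom hij (hij.trans hjk) le_rfl hjk) ≫
      (G D c).map (arHom (hij.trans hjk) hjk hij le_rfl) = 0 := by
    rw [← (G D c).map_comp]
    refine R_hom_zero D _ ?_
    rw [c.obj.map_comp]
    exact hG.w
  exact Fl.ses (fl D c Λ (ar i j hij)) (fl D c Λ (ar i k (hij.trans hjk))) (fl D c Λ (ar j k hjk))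
    ((G D c).map (arHom hij (hij.trans hjk) le_rfl hjk))
    ((G D c).map (arHom (hij.trans hjk) hjk hij le_rfl)) ((G D c).map (zj hjk))
    ((G D c).map_comp _ _).symm (G_sq D c _ _ _ _) ((G D c).map_comp _ _).symm
    (G_mono D c hij hjk) h1 (fun T y hy => R_lift D hG y hy) (fun T y hy => R_lift D hG0 y hy)
    (flm (𝟙 Λ) _) (flm (𝟙 Λ) _) (flm_i _ _) (flm_i _ _)

theorem flO_SQ (Λ : Lat D c) : SQ EB.P (Fin (m + 1)) (flO Λ) :=
  ⟨flO_P Λ, flO_zero Λ, flO_ses Λ⟩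

theorem fl_iso (Λ : Lat D c) (x : Ar (Fin (m + 1))) : IsIso (D.L.map (fl D c Λ x).i) := by
  have h1 : Mono (D.L.map (fl D c Λ x).i) := L_mono D _ (fl D c Λ x).mono
  have h2 : IsPullback (D.L.map (fl D c Λ x).a) (D.L.map (fl D c Λ x).w) (D.L.map Λ.ι)
    (D.L.map ((G D c).map (zt x.1.2))) := (fl D c Λ x).pb.map D.L
  have h3 := Λ.iso
  have h4 : Epi (D.L.map (fl D c Λ x).w) := by
    have h5 : h2.lift (D.L.map ((G D c).map (zt x.1.2)) ≫ inv (D.L.map Λ.ι)) (𝟙 _) (by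
        rw [Category.assoc, IsIso.inv_hom_id, Category.comp_id, Category.id_comp]) ≫
        D.L.map (fl D c Λ x).w = 𝟙 _ := h2.lift_snd _ _ _
    have h6 : Epi (𝟙 (D.L.obj ((G D c).obj (zz x.1.2)))) := inferInstance
    rw [← h5] at h6
    exact @epi_of_epi _ _ _ _ _ _ _ h6
  have h7 : Epi (D.L.map ((G D c).map (zx x))) :=
    LR_epi D _ (c.property.2.2 0 x.1.1 x.1.2 (Fin.zero_le _) x.2).epi
  have h8 : Epi (D.L.map (fl D c Λ x).e ≫ D.L.map (fl D c Λ x).i) := by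
    rw [← D.L.map_comp, ← (fl D c Λ x).fac, D.L.map_comp]
    infer_instance
  have h9 : Epi (D.L.map (fl D c Λ x).i) := epi_of_epi (D.L.map (fl D c Λ x).e) _
  exact isIso_of_mono_of_epi _

/-- the map from `L` of the flag to `c` -/
def flH (Λ : Lat D c) : flO Λ ⋙ D.L ⟶ c.obj where
  app x := D.L.map (fl D c Λ x).i ≫ D.adj.counit.app (c.obj.obj x)
  naturality x x' f := by
    change D.L.map (flm (𝟙 Λ) f) ≫ D.L.map (fl D c Λ x').i ≫ D.adj.counit.app (c.obj.obj x') =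
      (D.L.map (fl D c Λ x).i ≫ D.adj.counit.app (c.obj.obj x)) ≫ c.obj.map f
    have h1 : D.L.map ((G D c).map f) ≫ D.adj.counit.app (c.obj.obj x') =
      D.adj.counit.app (c.obj.obj x) ≫ c.obj.map f := D.adj.counit.naturality (c.obj.map f)
    rw [← Category.assoc, ← D.L.map_comp, flm_i, D.L.map_comp, Category.assoc, h1, Category.assoc]
    rfl

theorem flH_iso (Λ : Lat D c) (x : Ar (Fin (m + 1))) : IsIso ((flH Λ).app x) := by
  exact @IsIso.comp_isIso _ _ _ _ _ _ _ (fl_iso Λ x) (counit_iso D (c.obj.obj x))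

theorem flM_iso {Λ Λ' : Lat D c} (g : Λ ⟶ Λ') (x : Ar (Fin (m + 1))) :
    IsIso (D.L.map ((flM g).app x)) := by
  refine iso_left D _ (fl D c Λ' x).i (fl_iso Λ' x) ?_
  change IsIso (D.L.map (flm g (𝟙 x) ≫ (fl D c Λ' x).i))
  rw [flm_i, (G D c).map_id, Category.comp_id]
  exact fl_iso Λ x

/-- the comma category -/
abbrev K (D : LocD EB EC) (c : XC EC (Fin (m + 1))) : Type (u + 1) :=
  CostructuredArrow (D.LS (Fin (m + 1))) c

/-- an object of the comma category -/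
def mkK {b : D.XB (Fin (m + 1))} (h : b.obj ⋙ D.L ⟶ c.obj) (hh : ∀ x, IsIso (h.app x)) : K D c :=
  CostructuredArrow.mk (Y := b) (⟨h, hh⟩ : (D.LS (Fin (m + 1))).obj b ⟶ c)

/-- a morphism of the comma category -/
def homK {A A' : K D c} (f : A.left.obj ⟶ A'.left.obj) (hf : ∀ x, IsIso (D.L.map (f.app x)))
    (h : ∀ x, D.L.map (f.app x) ≫ A'.hom.1.app x = A.hom.1.app x) : A ⟶ A' :=
  CostructuredArrow.homMk (⟨f, hf⟩ : A.left ⟶ A'.left) (by
    apply Subtype.ext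
    apply NatTrans.ext
    funext x
    exact h x)

theorem homK_ext {A A' : K D c} (f g : A ⟶ A') (h : ∀ x, f.left.1.app x = g.left.1.app x) :
    f = g := by
  apply CostructuredArrow.hom_ext
  apply Subtype.ext
  apply NatTrans.ext
  funext x
  exact h x

/-- the functor `flag` -/
def flag : Lat D c ⥤ K D c where
  obj Λ := mkK (b := ⟨flO Λ, flO_SQ Λ⟩) (flH Λ) (flH_iso Λ)
  map {Λ Λ'} g := homK (A := mkK (b := ⟨flO Λ, flO_SQ Λ⟩) (flH Λ) (flH_iso Λ))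
    (A' := mkK (b := ⟨flO Λ', flO_SQ Λ'⟩) (flH Λ') (flH_iso Λ')) (flM g) (flM_iso g) fun x => by
      change D.L.map (flm g (𝟙 x)) ≫ D.L.map (fl D c Λ' x).i ≫ D.adj.counit.app (c.obj.obj x) =
        D.L.map (fl D c Λ x).i ≫ D.adj.counit.app (c.obj.obj x)
      rw [← Category.assoc, ← D.L.map_comp, flm_i, (G D c).map_id, Category.comp_id]
  map_id Λ := homK_ext _ _ fun x => by
    change flm (𝟙 Λ) (𝟙 x) = 𝟙 (fl D c Λ x).F
    apply fl_ext
    rw [flm_i, (G D c).map_id, Category.comp_id, Category.id_comp]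
  map_comp {Λ Λ' Λ''} g g' := homK_ext _ _ fun x => by
    change flm (g ≫ g') (𝟙 x) = flm g (𝟙 x) ≫ flm g' (𝟙 x)
    apply fl_ext
    rw [flm_i, Category.assoc, flm_i, ← Category.assoc, flm_i, Category.assoc, (G D c).map_id,
      Category.comp_id, Category.comp_id, Category.comp_id]

/-! ### the image -/

/-- the adjoint of the structure map -/
def gg (A : K D c) (x : Ar (Fin (m + 1))) : A.left.obj.obj x ⟶ (G D c).obj x :=
  D.adj.homEquiv (A.left.obj.obj x) (c.obj.obj x) (A.hom.1.app x)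

theorem gg_nat (A : K D c) {x x' : Ar (Fin (m + 1))} (f : x ⟶ x') :
    A.left.obj.map f ≫ gg A x' = gg A x ≫ (G D c).map f := by
  refine D.adj.homEquiv_naturality_left_square _ _ _ _ ?_
  exact A.hom.1.naturality f

theorem gg_hom {A A' : K D c} (k : A ⟶ A') (x : Ar (Fin (m + 1))) :
    k.left.1.app x ≫ gg A' x = gg A x := by
  have h1 : (D.L.map (k.left.1.app x)) ≫ A'.hom.1.app x = A.hom.1.app x := by
    have h2 := congrArg (fun τ => τ.1.app x) (CostructuredArrow.w k)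
    exact h2
  change k.left.1.app x ≫ D.adj.homEquiv _ _ (A'.hom.1.app x) = D.adj.homEquiv _ _ (A.hom.1.app x)
  rw [← Adjunction.homEquiv_naturality_left, h1]

theorem gg_L (A : K D c) (x : Ar (Fin (m + 1))) :
    D.L.map (gg A x) ≫ D.adj.counit.app (c.obj.obj x) = A.hom.1.app x :=
  (D.adj.homEquiv _ _).symm_apply_apply (A.hom.1.app x)

theorem gg_iso (A : K D c) (x : Ar (Fin (m + 1))) : IsIso (D.L.map (gg A x)) := by
  have h1 : IsIso (D.L.map (gg A x) ≫ D.adj.counit.app (c.obj.obj x)) := by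
    rw [gg_L]
    exact A.hom.2 x
  exact @IsIso.of_isIso_comp_right _ _ _ _ _ _ _ (counit_iso D (c.obj.obj x)) h1

/-- the image of `b (0, last)` -/
def imO (A : K D c) : Lat D c where
  X := image (gg A (top m))
  ι := image.ι _
  mono := inferInstance
  P := D.quoB (factorThruImage (gg A (top m))) (A.left.property.1 _)
  iso := iso_of_fac D (factorThruImage (gg A (top m))) _ inferInstance (by
    rw [image.fac]
    exact gg_iso A _)

theorem imM_ex {A A' : K D c} (k : A ⟶ A') :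
    ∃ l : (imO A).X ⟶ (imO A').X, l ≫ (imO A').ι = (imO A).ι := by
  refine lft (factorThruImage (gg A (top m))) inferInstance (imO A').ι (imO A').mono _
    (k.left.1.app (top m) ≫ factorThruImage (gg A' (top m))) ?_
  change (k.left.1.app (top m) ≫ factorThruImage (gg A' (top m))) ≫ image.ι (gg A' (top m)) =
    factorThruImage (gg A (top m)) ≫ image.ι (gg A (top m))
  rw [Category.assoc, image.fac, image.fac, gg_hom]

/-- the functor `img` -/
def img : K D c ⥤ Lat D c where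
  obj A := imO A
  map k := ⟨Classical.choose (imM_ex k), Classical.choose_spec (imM_ex k)⟩
  map_id _ := (Lat.thin D c _ _).elim _ _
  map_comp _ _ := (Lat.thin D c _ _).elim _ _

/-! ### the natural transformations -/

theorem rho_ex (A : K D c) (x : Ar (Fin (m + 1))) :
    ∃ l : A.left.obj.obj x ⟶ (fl D c (imO A) x).F, l ≫ (fl D c (imO A) x).i = gg A x := by
  refine (fl D c (imO A) x).lift (A.left.obj.map (zx x))
    (A.left.property.2.2 0 x.1.1 x.1.2 (Fin.zero_le _) x.2).epi _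
    (A.left.obj.map (zt x.1.2) ≫ factorThruImage (gg A (top m))) (gg A (zz x.1.2)) ?_ ?_
  · change (A.left.obj.map (zt x.1.2) ≫ factorThruImage (gg A (top m))) ≫
      image.ι (gg A (top m)) = _
    rw [Category.assoc, image.fac, gg_nat]
  · rw [gg_nat]

/-- the map from `b` to the flag -/
def rho (A : K D c) (x : Ar (Fin (m + 1))) : A.left.obj.obj x ⟶ (fl D c (imO A) x).F :=
  Classical.choose (rho_ex A x)

theorem rho_i (A : K D c) (x : Ar (Fin (m + 1))) : rho A x ≫ (fl D c (imO A) x).i = gg A x :=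
  Classical.choose_spec (rho_ex A x)

/-- the map from `b` to the flag, natural -/
def rhoN (A : K D c) : A.left.obj ⟶ flO (imO A) where
  app x := rho A x
  naturality x x' f := by
    apply fl_ext
    change (A.left.obj.map f ≫ rho A x') ≫ (fl D c (imO A) x').i =
      (rho A x ≫ flm (𝟙 (imO A)) f) ≫ (fl D c (imO A) x').i
    rw [Category.assoc, rho_i, Category.assoc, flm_i, ← Category.assoc, rho_i, gg_nat]

theorem rho_iso (A : K D c) (x : Ar (Fin (m + 1))) : IsIso (D.L.map (rho A x)) := by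
  refine iso_left D _ (fl D c (imO A) x).i (fl_iso _ x) ?_
  rw [rho_i]
  exact gg_iso A x

/-- the natural transformation `𝟭 ⟶ img ⋙ flag` -/
def eta : 𝟭 (K D c) ⟶ img ⋙ flag where
  app A := homK (A := A) (A' := flag.obj (imO A)) (rhoN A) (rho_iso A) fun x => by
    change D.L.map (rho A x) ≫ D.L.map (fl D c (imO A) x).i ≫ D.adj.counit.app (c.obj.obj x) =
      A.hom.1.app x
    rw [← Category.assoc, ← D.L.map_comp, rho_i, gg_L]
  naturality A A' k := homK_ext _ _ fun x => by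
    have key : ∀ g : imO A ⟶ imO A', k.left.1.app x ≫ rho A' x = rho A x ≫ flm g (𝟙 x) := by
      intro g
      apply fl_ext
      rw [Category.assoc, rho_i, gg_hom, Category.assoc, flm_i, (G D c).map_id, Category.comp_id,
        rho_i]
    exact key (img.map k)

theorem gg_flag (Λ : Lat D c) (x : Ar (Fin (m + 1))) : gg (flag.obj Λ) x = (fl D c Λ x).i := by
  change D.adj.homEquiv _ _ ((D.adj.homEquiv _ _).symm (fl D c Λ x).i) = _
  exact Equiv.apply_symm_apply _ _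

theorem top_ex (Λ : Lat D c) : ∃ l : Λ.X ⟶ (fl D c Λ (top m)).F,
    l ≫ (fl D c Λ (top m)).i = Λ.ι := by
  refine (fl D c Λ (top m)).lift (𝟙 Λ.X) inferInstance Λ.ι (𝟙 Λ.X) Λ.ι ?_ ?_
  · exact (Category.id_comp Λ.ι).trans ((Category.comp_id Λ.ι).symm.trans
      (congrArg (fun t => Λ.ι ≫ t) ((G D c).map_id (top m)).symm))
  · exact ((congrArg (fun t => Λ.ι ≫ t) ((G D c).map_id (top m))).trans
      (Category.comp_id Λ.ι)).trans (Category.id_comp Λ.ι).symm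

theorem eps_ex (Λ : Lat D c) : ∃ l : Λ.X ⟶ (imO (flag.obj Λ)).X, l ≫ (imO (flag.obj Λ)).ι = Λ.ι := by
  obtain ⟨l, hl⟩ := top_ex Λ
  refine ⟨l ≫ factorThruImage (gg (flag.obj Λ) (top m)), ?_⟩
  refine (Category.assoc _ _ _).trans ?_
  refine (congrArg (fun t => l ≫ t) (image.fac (gg (flag.obj Λ) (top m)))).trans ?_
  exact (congrArg (fun t => l ≫ t) (gg_flag Λ (top m))).trans hl

/-- the natural transformation `𝟭 ⟶ flag ⋙ img` -/
def eps : 𝟭 (Lat D c) ⟶ flag ⋙ img where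
  app Λ := ⟨Classical.choose (eps_ex Λ), Classical.choose_spec (eps_ex Λ)⟩
  naturality _ _ _ := (Lat.thin D c _ _).elim _ _

end

end LcC

theorem thm_LcC (hB : St_CtB.{u + 1, u}) (h23 : St_Str23.{u + 1}) : St_LcC.{u} := by
  intro EB EC D m c
  have h1 : SSt.Strong (Nv.mapF (LcC.img : LcC.K D c ⥤ LcC.Lat D c)) :=
    hB.1 LcC.img LcC.flag (Or.inl ⟨LcC.eta⟩) (Or.inl ⟨LcC.eps⟩)
  have h2 : Nonempty (LcC.Lat D c) := LcC.Lat.nonempty D c
  have h3 : SSt.Contr (Nv (LcC.Lat D c)) :=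
    hB.2.2.2.2 (LcC.Lat.thin D c) (LcC.Lat.directed D c)
  exact h23.1 (Nv.mapF (LcC.img : LcC.K D c ⥤ LcC.Lat D c)) (Nv (LcC.Lat D c)).toPt h1 h3

end Pool.Agent.KQ
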