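import Pool.Agent.KQ.StSA

/-!
# KQ: constant chains as chains of isomorphisms
-/

set_option autoImplicit false

noncomputable section

namespace Pool.Agent.KQ

open CategoryTheory CategoryTheory.Limits Function
open scoped ZeroObject

universe u v

namespace LcI

variable (E : ExCat.{u}) (l : ℕ)

/-- natural transformations of constant chains are constant -/
theorem app_eq {X Y : E.C} (g : (Functor.const (Fin (l + 1))).obj X ⟶ (Functor.const _).obj Y)
    (j : Fin (l + 1)) : g.app j = g.app 0 := by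
  have h := g.naturality (homOfLE (Fin.zero_le j))
  exact ((Category.id_comp (g.app j)).symm.trans h).trans (Category.comp_id (g.app 0))

theorem full {X Y : E.Ob} (g : (E.cstI (Fin (l + 1))).F.obj X ⟶ (E.cstI (Fin (l + 1))).F.obj Y) :
    ∃ f : X ⟶ Y, (E.cstI (Fin (l + 1))).F.map f = g := by
  let τ : (Functor.const (Fin (l + 1))).obj X.obj ⟶ (Functor.const _).obj Y.obj := g.hom
  refine ⟨ObjectProperty.homMk (τ.app 0), ?_⟩
  apply ObjectProperty.hom_ext
  change (Functor.const (Fin (l + 1))).map (τ.app 0) = τ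
  apply NatTrans.ext
  funext j
  exact (app_eq E l τ j).symm

theorem faithful {X Y : E.Ob} (f f' : X ⟶ Y)
    (h : (E.cstI (Fin (l + 1))).F.map f = (E.cstI (Fin (l + 1))).F.map f') : f = f' := by
  apply ObjectProperty.hom_ext
  have h1 : (Functor.const (Fin (l + 1))).map f.hom = (Functor.const (Fin (l + 1))).map f'.hom :=
    congrArg (fun φ : (E.cstI (Fin (l + 1))).F.obj X ⟶ (E.cstI (Fin (l + 1))).F.obj Y =>
      φ.hom) h
  exact congrArg (fun τ => NatTrans.app τ 0) h1

theorem refl {X Y Z : E.Ob} (f : X ⟶ Y) (g : Y ⟶ Z)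
    (h : ((isoW E).ch (Fin (l + 1))).Conf ((E.cstI (Fin (l + 1))).F.map f)
      ((E.cstI (Fin (l + 1))).F.map g)) : E.Conf f g := by
  have h1 : SES ((Functor.const (Fin (l + 1))).map f.hom)
      ((Functor.const (Fin (l + 1))).map g.hom) := h
  exact (ses_functor _ _).1 h1 0

/-- a chain of isomorphisms is isomorphic to a constant chain -/
def isoC (X : Fin (l + 1) ⥤ E.C) (h : ∀ {i j : Fin (l + 1)} (f : i ⟶ j), IsIso (X.map f)) :
    (Functor.const (Fin (l + 1))).obj (X.obj 0) ≅ X :=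
  NatIso.ofComponents (fun j =>
    haveI := h (homOfLE (Fin.zero_le j))
    asIso (X.map (homOfLE (Fin.zero_le j)))) (by
    intro i j f
    change 𝟙 _ ≫ X.map _ = X.map _ ≫ X.map f
    rw [Category.id_comp, ← X.map_comp]
    rfl)

theorem img (X : Fin (l + 1) ⥤ E.C) : ((isoW E).Q (Fin (l + 1))).Q X ↔
    ∃ Y : E.Ob, Nonempty (((E.cstI (Fin (l + 1))).F.obj Y).obj ≅ X) := by
  constructor
  · intro h
    exact ⟨⟨X.obj 0, h.1 0⟩, ⟨isoC E l X fun f => h.2 f⟩⟩
  · rintro ⟨Y, ⟨e⟩⟩
    exact ((isoW E).Q (Fin (l + 1))).iso e ((E.cstI (Fin (l + 1))).F.obj Y).property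

end LcI

/-- **LcI** -/
theorem thm_LcI (hE : St_Eqv.{u}) : St_LcI.{u} := by
  intro E l
  exact hE (E.cstI (Fin (l + 1))) (LcI.full E l) (LcI.faithful E l) (LcI.refl E l)
    ((isoW E).Q (Fin (l + 1))).Q (LcI.img E l)

end Pool.Agent.KQ
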