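import Pool.Agent.KQ.StSA

/-!
# KQ: from the chains inverted by `L` to the chains of isomorphisms, one column
-/

set_option autoImplicit false

noncomputable section

namespace Pool.Agent.KQ

open CategoryTheory CategoryTheory.Limits Function
open scoped ZeroObject

universe u v

namespace LcW

/-- an isomorphism of simplicial sets is strong -/
theorem strong_of_inv (hH : St_StrHt.{u}) {X Y : SSt.{u}} (f : X ⟶ Y) (g : Y ⟶ X)
    (h : f ≫ g = 𝟙 X) (h' : g ≫ f = 𝟙 Y) : SSt.Strong f :=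
  hH.2.1 f g (fun Φ n => by rw [h]) (fun Φ n => by rw [h'])

section

variable {E : ExCat.{u}} (W : ArP E) (m : ℕ)

/-- diagrams of chains as chains of diagrams -/
def toN : SSt.col (biS.obj W.sx) m ⟶
    NvP (Ar (Fin (m + 1)) ⥤ E.C) (SQ E.P (Fin (m + 1))) (pwW W.W (Ar (Fin (m + 1)))) where
  app _ X := ⟨Functor.flip X.obj, fun i => ⟨fun x => (X.property.1 x).1 i,
    fun j => (isZero_functor _).1 (X.property.2.1 j) i,
    fun j k n hjk hkn => (ses_functor _ _).1 (X.property.2.2 j k n hjk hkn) i⟩,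
    fun f x => (X.property.1 x).2 f⟩
  nat _ _ := rfl

/-- chains of diagrams as diagrams of chains -/
def ofN : NvP (Ar (Fin (m + 1)) ⥤ E.C) (SQ E.P (Fin (m + 1))) (pwW W.W (Ar (Fin (m + 1)))) ⟶
    SSt.col (biS.obj W.sx) m where
  app _ Y := ⟨Functor.flip Y.1, fun x => ⟨fun i => (Y.2.1 i).1 x, fun f => Y.2.2 f x⟩,
    fun j => (isZero_functor _).2 fun i => (Y.2.1 i).2.1 j,
    fun j k n hjk hkn => (ses_functor _ _).2 fun i => (Y.2.1 i).2.2 j k n hjk hkn⟩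
  nat _ _ := rfl

theorem toN_ofN : toN W m ≫ ofN W m = 𝟙 _ := rfl

theorem ofN_toN : ofN W m ≫ toN W m = 𝟙 _ := rfl

theorem strong_toN (hH : St_StrHt.{u + 1}) : SSt.Strong (toN W m) :=
  strong_of_inv hH _ _ (toN_ofN W m) (ofN_toN W m)

end

/-- the map of chains of diagrams given by `L` -/
def nvL {EB EC : ExCat.{u}} (D : LocD EB EC) (m : ℕ) :
    NvP (Ar (Fin (m + 1)) ⥤ EB.C) (SQ EB.P (Fin (m + 1))) (pwW (invW D.L) (Ar (Fin (m + 1)))) ⟶
    NvP (Ar (Fin (m + 1)) ⥤ EC.C) (SQ EC.P (Fin (m + 1)))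
      (pwW (invW (𝟭 EC.C)) (Ar (Fin (m + 1)))) :=
  NvP.mapF ((Functor.whiskeringRight _ _ _).obj D.L) (fun _ h => D.SQ_map h) fun _ _ _ h j => h j

theorem strong_nvL (hA : St_CtA.{u + 1, u}) (hP : St_CtP.{u + 1, u}) (hC : St_LcC.{u})
    {EB EC : ExCat.{u}} (D : LocD EB EC) (m : ℕ) : SSt.Strong (nvL D m) :=
  hP.2 _ _ _ _ _ _ _ (hA (D.LS (Fin (m + 1))) fun c => hC D m c)

theorem square {EB EC : ExCat.{u}} (D : LocD EB EC) (m : ℕ) :
    SSt.colMap (biS.map D.toIso) m ≫ toN (isoW EC) m = toN D.WW m ≫ nvL D m := rfl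

end LcW

/-- **LcW** -/
theorem thm_LcW (hA : St_CtA.{u + 1, u}) (hP : St_CtP.{u + 1, u}) (hC : St_LcC.{u})
    (h23 : St_Str23.{u + 1}) (hH : St_StrHt.{u + 1}) : St_LcW.{u} := by
  intro EB EC D m
  refine h23.2.2.1 _ (LcW.toN (isoW EC) m) (LcW.strong_toN _ _ hH) ?_
  rw [LcW.square]
  exact h23.1 _ _ (LcW.strong_toN _ _ hH) (LcW.strong_nvL hA hP hC D m)

end Pool.Agent.KQ
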