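import Pool.Agent.KQ.AllSK
import Pool.Agent.KQ.ExAll2
import Pool.Agent.KQ.LcC
import Pool.Agent.KQ.LcW
import Pool.Agent.KQ.LcI
import Pool.Agent.KQ.Lc

/-!
# KQ: localization for the K-groups, without hypotheses (helper94)
-/

set_option autoImplicit false

namespace Pool.Agent.KQ

universe u

theorem all_LcC : St_LcC.{u} := thm_LcC all_CtB thm_Str23

theorem all_LcW : St_LcW.{u} := thm_LcW all_CtA all_CtP all_LcC thm_Str23 all_StrHt

/-- LOCALIZATION -/
theorem all_Lc : St_Lc.{u} :=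
  thm_Lc thm_LcV all_Res all_LcW (thm_LcI all_Eqv) all_StrRow all_StrCol

theorem all_Lesm : St_Lesm.{u} := lesm_of all_LESM

/-- LOCALIZATION for `K_n` -/
theorem all_LocK : St_LocK.{u} := thm_LocK all_Spr thm_NI all_Lesm all_Lc

end Pool.Agent.KQ
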