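import Pool.Agent.KQ.StEx

/-!
# KQ: the zero diagrams are contractible
-/

set_option autoImplicit false

noncomputable section

namespace Pool.Agent.KQ

open CategoryTheory CategoryTheory.Limits Function
open scoped ZeroObject

universe u

theorem ZQ_ext {J : Type} [Preorder J] {C : Type (u + 1)} [Category.{u} C] [HasZeroMorphisms C]
    {D D' : J ⥤ C} (hz : ∀ j, IsZero (D.obj j)) (h : ∀ j, D.obj j = D'.obj j) : D = D' :=
  CategoryTheory.Functor.ext h fun i _ _ => (hz i).eq_of_src _ _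

/-- the diagram with given zero objects -/
def ZQ_D (E : ExCat.{u}) (I : Type) [Preorder I] (o : Ar I → E.C) (hz : ∀ x, IsZero (o x)) :
    (E.S I).Ob :=
  ⟨{ obj := o
     map := fun _ => 0
     map_id := fun x => (hz x).eq_of_src _ _
     map_comp := fun {x _ _} _ _ => (hz x).eq_of_src _ _ }, (E.SP I).zero _ hz⟩

theorem ZQ_cond {E E' : ExCat.{u}} (F : ExFun E E') (b : Bool) (A B : E.C) (hA : E.P A)
    (hB : E.P B) (h : E.P (cond b A B)) : (F.F.obj ⟨cond b A B, h⟩).obj =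
      cond b (F.F.obj ⟨A, hA⟩).obj (F.F.obj ⟨B, hB⟩).obj := by
  cases b <;> rfl

theorem ZQ_condZ {C : Type (u + 1)} [Category.{u} C] (b : Bool) (A B : C)
    (hA : IsZero A) (hB : IsZero B) : IsZero (cond b A B) := by
  cases b
  · exact hB
  · exact hA

/-- mixed diagrams of zero objects -/
def ZQ_mix (E : ExCat.{u}) {I : Type} [Preorder I] (α : I →o Bool) (D D' : (E.S I).Ob)
    (h : IsZero D.obj) (h' : IsZero D'.obj) : (E.S I).Ob :=
  ZQ_D E I (fun x => cond (α x.1.2) (D.obj.obj x) (D'.obj.obj x)) fun x =>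
    ZQ_condZ _ _ _ ((isZero_functor _).1 h x) ((isZero_functor _).1 h' x)

theorem ZQ_mix_zero (E : ExCat.{u}) {I : Type} [Preorder I] (α : I →o Bool) (D D' : (E.S I).Ob)
    (h : IsZero D.obj) (h' : IsZero D'.obj) : IsZero (ZQ_mix E α D D' h h').obj :=
  (isZero_functor _).2 fun x =>
    ZQ_condZ _ _ _ ((isZero_functor _).1 h x) ((isZero_functor _).1 h' x)

theorem ZQ_mix_false (E : ExCat.{u}) {I : Type} [Preorder I] (α : I →o Bool) (D D' : (E.S I).Ob)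
    (h : IsZero D.obj) (h' : IsZero D'.obj) (hα : ∀ i, α i = false) :
    ZQ_mix E α D D' h h' = D' := by
  apply ObjectProperty.FullSubcategory.ext
  refine (ZQ_ext ((isZero_functor _).1 h') fun x => ?_).symm
  change D'.obj.obj x = cond (α x.1.2) (D.obj.obj x) (D'.obj.obj x)
  rw [hα]
  rfl

theorem ZQ_mix_true (E : ExCat.{u}) {I : Type} [Preorder I] (α : I →o Bool) (D D' : (E.S I).Ob)
    (h : IsZero D.obj) (h' : IsZero D'.obj) (hα : ∀ i, α i = true) :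
    ZQ_mix E α D D' h h' = D := by
  apply ObjectProperty.FullSubcategory.ext
  refine (ZQ_ext ((isZero_functor _).1 h) fun x => ?_).symm
  change D.obj.obj x = cond (α x.1.2) (D.obj.obj x) (D'.obj.obj x)
  rw [hα]
  rfl

/-- an exact functor and an operator -/
def ZQ_op {E E' : ExCat.{u}} (F : ExFun E E') {I J : Type} [Preorder I] [Preorder J] (θ : J →o I) :
    ExFun (E.S I) (E'.S J) := (F.S I).comp (E'.Smap θ)

theorem ZQ_mix_op {E E' : ExCat.{u}} (F : ExFun E E') {I J : Type} [Preorder I] [Preorder J]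
    (θ : J →o I) (α : I →o Bool) (D D' : (E.S I).Ob) (h : IsZero D.obj) (h' : IsZero D'.obj)
    (k : IsZero ((ZQ_op F θ).F.obj D).obj) (k' : IsZero ((ZQ_op F θ).F.obj D').obj) :
    ZQ_mix E' (α.comp θ) ((ZQ_op F θ).F.obj D) ((ZQ_op F θ).F.obj D') k k' =
      (ZQ_op F θ).F.obj (ZQ_mix E α D D' h h') := by
  apply ObjectProperty.FullSubcategory.ext
  refine ZQ_ext ((isZero_functor _).1 (ZQ_mix_zero _ _ _ _ _ _)) fun x => ?_
  exact (ZQ_cond F (α (θ x.1.2)) (D.obj.obj (Ar.map θ x)) (D'.obj.obj (Ar.map θ x))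
    (D.property.1 _) (D'.property.1 _) _).symm

/-- the zero diagrams -/
def ZQ_Z (X : SOb ExCat.{u}) : SubS (obS.obj (SD.obj X)) where
  s n := {D : ((X.obj n).S (Fin (n + 1))).Ob | IsZero D.obj}
  map_mem θ _ h := (ZQ_op (X.map θ) θ).isZero h

/-- the vertex -/
def ZQ_v (X : SOb ExCat.{u}) : (ZQ_Z X).S.obj 0 :=
  ⟨ZQ_D (X.obj 0) (Fin 1) (fun _ => 0) fun _ => isZero_zero _, (isZero_functor _).2 fun _ =>
    isZero_zero _⟩

/-- the operator to the vertex -/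
def ZQ_c (n : ℕ) : Mo n 0 := ⟨fun _ => 0, fun _ _ _ => le_rfl⟩

/-- the point -/
def ZQ_x (X : SOb ExCat.{u}) : SSt.const PUnit.{u + 2} ⟶ (ZQ_Z X).S :=
  ⟨fun n _ => (ZQ_Z X).S.map (ZQ_c n) (ZQ_v X), fun {_ n} θ _ =>
    (ZQ_Z X).S.map_comp θ (ZQ_c n) (ZQ_v X)⟩

/-- the contraction -/
def ZQ_H (X : SOb ExCat.{u}) : SSt.Htpy ((ZQ_Z X).S.toPt ≫ ZQ_x X) (𝟙 _) where
  h n α z := ⟨ZQ_mix (X.obj n) α z.1 ((ZQ_x X).app n PUnit.unit).1 z.2
    ((ZQ_x X).app n PUnit.unit).2, ZQ_mix_zero _ _ _ _ _ _⟩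
  nat {m n} θ α z := by
    apply Subtype.ext
    have h1 : (ZQ_x X).app m PUnit.unit = (ZQ_Z X).S.map θ ((ZQ_x X).app n PUnit.unit) :=
      (ZQ_x X).nat θ PUnit.unit
    have h2 : ∀ w : (ZQ_Z X).S.obj m, w = (ZQ_Z X).S.map θ ((ZQ_x X).app n PUnit.unit) →
        ZQ_mix (X.obj m) (α.comp θ) ((ZQ_Z X).S.map θ z).1 w.1 ((ZQ_Z X).S.map θ z).2 w.2 =
          (ZQ_op (X.map θ) θ).F.obj (ZQ_mix (X.obj n) α z.1 ((ZQ_x X).app n PUnit.unit).1 z.2
            ((ZQ_x X).app n PUnit.unit).2) := by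
      rintro w rfl
      exact ZQ_mix_op (X.map θ) θ α z.1 ((ZQ_x X).app n PUnit.unit).1 z.2
        ((ZQ_x X).app n PUnit.unit).2 _ _
    exact h2 _ h1
  h0 n α z hα := Subtype.ext (ZQ_mix_false (X.obj n) α z.1 ((ZQ_x X).app n PUnit.unit).1 z.2
    ((ZQ_x X).app n PUnit.unit).2 hα)
  h1 n α z hα := Subtype.ext (ZQ_mix_true (X.obj n) α z.1 ((ZQ_x X).app n PUnit.unit).1 z.2
    ((ZQ_x X).app n PUnit.unit).2 hα)

theorem ZQ_contr (h : St_StrHt.{u + 1}) (X : SOb ExCat.{u}) : SSt.Contr (ZQ_Z X).S :=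
  h.2.2 _ (ZQ_x X) (h.1 _ _ ⟨ZQ_H X⟩)

theorem thm_ZQ (h : St_StrHt.{u + 1}) (h' : St_StrPair.{u + 1}) : St_ZQ.{u} := fun X =>
  h' (ZQ_Z X) (ZQ_contr h X)

end Pool.Agent.KQ
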