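import Pool.Agent.KQ.DEx4
import Pool.Agent.KQ.CM
import Pool.Agent.KQ.IT

/-!
# KQ: the K-groups of exact categories

`DK k : ExCat ⥤ SGp`: `DK 0 E` is the constant simplicial group on the free group of the pointed set
of objects, `(DK (k + 1) E)_n = (DK k (S_n E))_n`. `DKs k : SOb ExCat ⥤ SGp`: the same for simplicial
exact categories, `(DKs k X)_n = (DK k X_n)_n`. So level `m` of `DK k E` is the free group on the objects
of the `k`-fold S-construction `S_m ... S_m E` modulo the zero objects, and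
`Kn n E = π_(2n+3) (DK (n + 3) E)` is the stable value of `π_(n+k) (DK k E)`, `k ≥ n + 2`. By Milnor's
theorem `DK k E` is the loop group of the suspension of the `(k-1)`-connected space `|S^(k) E|`, and by
Freudenthal's theorem `π_(n+k) (DK k E) = π_(n+k) |S^(k) E|` for `k ≥ n + 2`, which is Waldhausen's
(Quillen's) `K_n(E)`.
-/

set_option autoImplicit false
set_option linter.unusedVariables false

noncomputable section

namespace Pool.Agent.KQ

open CategoryTheory CategoryTheory.Limits Function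

universe u

/-! ### the simplicial groups -/

/-- the pointed set of objects, as a functor -/
def obF : ExCat.{u} ⥤ Pointed.{u + 1} where
  obj E := E.obP
  map F := ExFun.obP F
  map_id E := ExFun.obP_id E
  map_comp F G := ExFun.obP_comp F G

/-- the `F`-model of the `k`-fold S-construction: level `m` is the free group on the objects of
`S_m ... S_m E` modulo the zero objects -/
def DK (k : ℕ) : ExCat.{u} ⥤ SGp.{u + 1} := dSk Sd (obF ⋙ cF) k

/-- the `F`-model of the `k`-fold S-construction of simplicial exact categories (diagonal) -/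
def DKs (k : ℕ) : SOb ExCat.{u} ⥤ SGp.{u + 1} := ext (DK k)

theorem DK_succ (k : ℕ) : DK.{u} (k + 1) = Sd ⋙ DKs k := rfl

/-! ### the K-groups -/

instance SGp.piComm (G : SGp.{u}) (n : ℕ) : CommGroup (G.Pi (n + 1)) :=
  { (inferInstance : Group (G.Pi (n + 1))) with mul_comm := thm_Comm G n }

/-- the K-groups of an exact category -/
def Kn (n : ℕ) (E : ExCat.{u}) : Type (u + 1) := Additive (((DK (n + 3)).obj E).Pi (2 * n + 2 + 1))

instance (n : ℕ) (E : ExCat.{u}) : AddCommGroup (Kn n E) :=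
  inferInstanceAs (AddCommGroup (Additive (((DK (n + 3)).obj E).Pi (2 * n + 2 + 1))))

/-- the homomorphism of K-groups given by an exact functor -/
def Kmap (n : ℕ) {E E' : ExCat.{u}} (F : E ⟶ E') : Kn n E →+ Kn n E' :=
  MonoidHom.toAdditive (SGp.PiMap ((DK (n + 3)).map F) (2 * n + 2 + 1))

/-- the K-groups of a simplicial exact category -/
def Ks (n : ℕ) (X : SOb ExCat.{u}) : Type (u + 1) :=
  Additive (((DKs (n + 3)).obj X).Pi (2 * n + 2 + 1))

instance (n : ℕ) (X : SOb ExCat.{u}) : AddCommGroup (Ks n X) :=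
  inferInstanceAs (AddCommGroup (Additive (((DKs (n + 3)).obj X).Pi (2 * n + 2 + 1))))

/-- the homomorphism of K-groups given by a map of simplicial exact categories -/
def Ksmap (n : ℕ) {X Y : SOb ExCat.{u}} (F : X ⟶ Y) : Ks n X →+ Ks n Y :=
  MonoidHom.toAdditive (SGp.PiMap ((DKs (n + 3)).map F) (2 * n + 2 + 1))

theorem Kmap_id (n : ℕ) (E : ExCat.{u}) (x : Kn n E) : Kmap n (𝟙 E) x = x := by
  change SGp.PiMap ((DK (n + 3)).map (𝟙 E)) (2 * n + 2 + 1) x = x
  rw [(DK (n + 3)).map_id]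
  exact SGp.PiMap_id _ _ _

theorem Kmap_comp (n : ℕ) {E E' E'' : ExCat.{u}} (F : E ⟶ E') (G : E' ⟶ E'') (x : Kn n E) :
    Kmap n (F ≫ G) x = Kmap n G (Kmap n F x) := by
  change SGp.PiMap ((DK (n + 3)).map (F ≫ G)) (2 * n + 2 + 1) x = _
  rw [(DK (n + 3)).map_comp]
  exact SGp.PiMap_comp _ _ _ _

theorem Ksmap_id (n : ℕ) (X : SOb ExCat.{u}) (x : Ks n X) : Ksmap n (𝟙 X) x = x := by
  change SGp.PiMap ((DKs (n + 3)).map (𝟙 X)) (2 * n + 2 + 1) x = x
  rw [(DKs (n + 3)).map_id]
  exact SGp.PiMap_id _ _ _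

theorem Ksmap_comp (n : ℕ) {X Y Z : SOb ExCat.{u}} (F : X ⟶ Y) (G : Y ⟶ Z) (x : Ks n X) :
    Ksmap n (F ≫ G) x = Ksmap n G (Ksmap n F x) := by
  change SGp.PiMap ((DKs (n + 3)).map (F ≫ G)) (2 * n + 2 + 1) x = _
  rw [(DKs (n + 3)).map_comp]
  exact SGp.PiMap_comp _ _ _ _

/-- the class of zero exact categories -/
def ZcE (E : ExCat.{u}) : Prop := ∀ X : E.Ob, IsZero X.obj

/-! ### constant simplicial objects -/

/-- a functor to simplicial groups on constant simplicial objects -/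
def extConst {C : Type*} [Category C] (Ψ : C ⥤ SGp.{u}) : Ψ ≅ SOb.constF ⋙ ext Ψ :=
  NatIso.ofComponents (fun E => SGp.isoMk (fun _ => MulEquiv.refl _) fun {m n} f x => by
    change (Ψ.obj E).map f x = (Ψ.obj E).map f ((Ψ.map (𝟙 E)).app n x)
    rw [Ψ.map_id]
    rfl) fun {X Y} f => SGp.hom_ext fun n x => rfl

/-- the comparison of an exact category with the constant simplicial exact category -/
def cstK (k : ℕ) (E : ExCat.{u}) : (DK k).obj E ≅ (DKs k).obj (SOb.const E) :=
  (extConst (DK k)).app E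

/-- isomorphisms of simplicial groups induce isomorphisms of homotopy groups -/
def SGp.PiEquiv {G H : SGp.{u}} (e : G ≅ H) (n : ℕ) : G.Pi n ≃* H.Pi n where
  toFun := SGp.PiMap e.hom n
  invFun := SGp.PiMap e.inv n
  left_inv x := by rw [← SGp.PiMap_comp, e.hom_inv_id, SGp.PiMap_id]
  right_inv x := by rw [← SGp.PiMap_comp, e.inv_hom_id, SGp.PiMap_id]
  map_mul' x y := map_mul _ x y

theorem SGp.PiEquiv_apply {G H : SGp.{u}} (e : G ≅ H) (n : ℕ) (x : G.Pi n) :
    SGp.PiEquiv e n x = SGp.PiMap e.hom n x := rfl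

theorem SGp.PiMap_sq {G H G' H' : SGp.{u}} {f : G ⟶ H} {g : H ⟶ H'} {f' : G ⟶ G'}
    {g' : G' ⟶ H'} (h : f ≫ g = f' ≫ g') (n : ℕ) (x : G.Pi n) :
    SGp.PiMap g n (SGp.PiMap f n x) = SGp.PiMap g' n (SGp.PiMap f' n x) := by
  rw [← SGp.PiMap_comp, ← SGp.PiMap_comp, h]

/-- the K-groups of constant simplicial exact categories -/
def KnEquiv (n : ℕ) (E : ExCat.{u}) : Kn n E ≃+ Ks n (SOb.const E) :=
  MulEquiv.toAdditive (SGp.PiEquiv (cstK (n + 3) E) (2 * n + 2 + 1))

theorem KnEquiv_nat (n : ℕ) {E E' : ExCat.{u}} (F : E ⟶ E') (x : Kn n E) :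
    KnEquiv n E' (Kmap n F x) = Ksmap n (SOb.constF.map F) (KnEquiv n E x) :=
  SGp.PiMap_sq ((extConst (DK (n + 3))).hom.naturality F) (2 * n + 2 + 1) x

/-- the comparison of the K-groups -/
def cstKn (n : ℕ) (E : ExCat.{u}) : Kn n E →+ Ks n (SOb.const E) := (KnEquiv n E).toAddMonoidHom

/-- the homomorphism `K_n(E) → K_n(X)` given by a map from the constant simplicial exact category -/
def Kc (n : ℕ) {E : ExCat.{u}} {X : SOb ExCat.{u}} (F : SOb.const E ⟶ X) : Kn n E →+ Ks n X :=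
  (Ksmap n F).comp (cstKn n E)

end Pool.Agent.KQ
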