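import Pool.Agent.KQ.StSA
import Pool.Agent.KQ.DK

/-!
# KQ: localization, devissage, resolution for the K-groups: statements

Architect helper94. `St_Spr`, `St_Lesm`, `St_NI` are the statements from the core (helper33, helper38,
helper83) which are used.
-/

set_option autoImplicit false

noncomputable section

namespace Pool.Agent.KQ

open CategoryTheory CategoryTheory.Limits Function
open scoped ZeroObject

universe u

/-- **Spr** (core: SPREAD). A map of simplicial exact categories which is strong on the simplicial sets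
`n ↦ ob S_n X_n` induces isomorphisms of K-groups. -/
def St_Spr : Prop := ∀ {X Y : SOb ExCat.{u}} (F : X ⟶ Y), SSt.Strong (obS.map (SD.map F)) →
  ∀ n, Bijective (Ksmap n F)

/-- **NI** (core: NATISO). Simplicially naturally isomorphic maps. -/
def St_NI : Prop := ∀ {X Y : SOb ExCat.{u}} {f g : X ⟶ Y}
  (e : ∀ m, ExFun.F (f.app m) ≅ ExFun.F (g.app m)),
  (∀ {m n : ℕ} (θ : Mo m n) (x : (X.obj n).Ob),
      HEq ((e m).hom.app ((ExFun.F (X.map θ)).obj x)) ((ExFun.F (Y.map θ)).map ((e n).hom.app x))) →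
  ∀ n, Ksmap n f = Ksmap n g

/-- the long exact sequence of a pair, with boundary maps `bd` -/
structure LesmH (bd : ∀ (n : ℕ) (E : ExCat.{u}) (A : SubP E),
    Ks (n + 1) (mono E A) →+ Kn n (E.sub A)) : Prop where
  exE : ∀ (n : ℕ) (E : ExCat.{u}) (A : SubP E) (x : Kn n E),
    Kc n (cstM E A) x = 0 ↔ ∃ a, Kmap n (E := E.sub A) (E' := E) (E.incl' A) a = x
  exM : ∀ (n : ℕ) (E : ExCat.{u}) (A : SubP E) (y : Ks (n + 1) (mono E A)),
    bd n E A y = 0 ↔ ∃ x, Kc (n + 1) (cstM E A) x = y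
  exA : ∀ (n : ℕ) (E : ExCat.{u}) (A : SubP E) (a : Kn n (E.sub A)),
    Kmap n (E := E.sub A) (E' := E) (E.incl' A) a = 0 ↔ ∃ y, bd n E A y = a
  surj : ∀ (E : ExCat.{u}) (A : SubP E), Surjective (Kc 0 (cstM E A))
  nat : ∀ (n : ℕ) {E E' : ExCat.{u}} (F : ExFun E E') (A : SubP E) (A' : SubP E')
    (h : F.Maps A A') (y : Ks (n + 1) (mono E A)),
    Kmap n (E := E.sub A) (E' := E'.sub A') (F.sub h) (bd n E A y) =
      bd n E' A' (Ksmap (n + 1) (monoF F h) y)

/-- **Lesm** (core: LES). The long exact sequence of a pair `A ≤ E`. -/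
def St_Lesm : Prop := ∃ bd : ∀ (n : ℕ) (E : ExCat.{u}) (A : SubP E),
    Ks (n + 1) (mono E A) →+ Kn n (E.sub A), LesmH bd

/-- the localization sequence, with boundary maps `bd` -/
structure LocH (bd : ∀ (n : ℕ) {EB EC : ExCat.{u}} (D : LocD EB EC),
    Kn (n + 1) EC →+ Kn n (EB.sub D.A)) : Prop where
  exB : ∀ (n : ℕ) {EB EC : ExCat.{u}} (D : LocD EB EC) (x : Kn n EB),
    Kmap n (E := EB) (E' := EC) D.LF x = 0 ↔
      ∃ a, Kmap n (E := EB.sub D.A) (E' := EB) (EB.incl' D.A) a = x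
  exC : ∀ (n : ℕ) {EB EC : ExCat.{u}} (D : LocD EB EC) (y : Kn (n + 1) EC),
    bd n D y = 0 ↔ ∃ x, Kmap (n + 1) (E := EB) (E' := EC) D.LF x = y
  exA : ∀ (n : ℕ) {EB EC : ExCat.{u}} (D : LocD EB EC) (a : Kn n (EB.sub D.A)),
    Kmap n (E := EB.sub D.A) (E' := EB) (EB.incl' D.A) a = 0 ↔ ∃ y, bd n D y = a
  surj : ∀ {EB EC : ExCat.{u}} (D : LocD EB EC), Surjective (Kmap 0 (E := EB) (E' := EC) D.LF)
  nat : ∀ (n : ℕ) {EB EC EB' EC' : ExCat.{u}} (D : LocD EB EC) (D' : LocD EB' EC')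
    (F : ExFun EB EB') (G : ExFun EC EC') (h : F.Maps D.A D'.A),
    Nonempty ((D.LF.comp G).F ≅ (F.comp D'.LF).F) → ∀ y : Kn (n + 1) EC,
    Kmap n (E := EB.sub D.A) (E' := EB'.sub D'.A) (F.sub h) (bd n D y) =
      bd n D' (Kmap (n + 1) (E := EC) (E' := EC') G y)

/-- **LocK** (helper94). The localization sequence for the K-groups. needs: Spr, NI, Lesm, Lc -/
def St_LocK : Prop := ∃ bd : ∀ (n : ℕ) {EB EC : ExCat.{u}} (D : LocD EB EC),
    Kn (n + 1) EC →+ Kn n (EB.sub D.A), LocH bd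

/-- **DevK** (helper94). Devissage for the K-groups. needs: Spr, Dev -/
def St_DevK : Prop := ∀ {E E' : ExCat.{u}} (D : DevD E E') (n : ℕ),
  Bijective (Kmap n (E := E) (E' := E') D.F)

/-- **ResK** (helper94). Resolution for the K-groups. needs: Spr, Res -/
def St_ResK : Prop := ∀ (E : ExCat.{u}) (A : SubP E), ResH E.P A.P → ∀ n : ℕ,
  Bijective (Kmap n (E := E.sub A) (E' := E) (E.incl' A))

end Pool.Agent.KQ
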