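import Pool.Agent.KQ.AddE
import Pool.Agent.KQ.Core
import Pool.Agent.KQ.StEx

/-!
# KQ: strong additivity for `EE`, equivalences are strong (statements of StEx)
-/

set_option autoImplicit false

noncomputable section

namespace Pool.Agent.KQ

open CategoryTheory CategoryTheory.Limits

universe u

theorem thm_EEs : St_EEs.{u} := fun E A B =>
  EE_strong E A B all_StrHt thm_Str23 all_StrRow all_StrCol

theorem thm_EqvS : St_EqvS.{u} := fun e => equivStrong all_StrHt e

end Pool.Agent.KQ
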