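import Pool.Agent.KQ.StEx

/-!
# KQ: additivity for S-diagrams with conditions over a cut index set
-/

set_option autoImplicit false

noncomputable section

namespace Pool.Agent.KQ

open CategoryTheory CategoryTheory.Limits Function

universe u

/-! ### exact sequences -/

theorem Cut_zero {I : Type} [Preorder I] {E : ExCat.{u}} {D : Ar I ⥤ E.C}
    (h : ∀ i : I, IsZero (D.obj (ar i i le_rfl))) (q : Ar I) (hq : q.1.1 = q.1.2) :
    IsZero (D.obj q) := by
  obtain ⟨⟨a, b⟩, hab⟩ := q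
  have hq' : a = b := hq
  subst hq'
  exact h a

theorem Cut_id {I : Type} [Preorder I] {E : ExCat.{u}} (D : Ar I ⥤ E.C) (p : Ar I) (h : p ≤ p) :
    IsIso (D.map (homOfLE h)) := by
  have h1 : homOfLE h = 𝟙 p := rfl
  rw [h1, D.map_id]
  infer_instance

theorem Cut_ses {I : Type} [PartialOrder I] {E : ExCat.{u}} {D : Ar I ⥤ E.C}
    (hD : (E.SP I).Q D) (c : I) (q p r : Ar I) (hqp : q ≤ p) (hpr : p ≤ r)
    (hi : (q.1.1 = p.1.1 ∧ r.1.1 = c) ∨ (q.1.1 = c ∧ r.1.1 = p.1.1))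
    (hj : (q.1.2 = p.1.2 ∧ r.1.2 = c) ∨ (q.1.2 = c ∧ r.1.2 = p.1.2)) :
    SES (D.map (homOfLE hqp)) (D.map (homOfLE hpr)) := by
  obtain ⟨⟨i, j⟩, hij⟩ := p
  obtain ⟨⟨i', j'⟩, hij'⟩ := q
  obtain ⟨⟨i'', j''⟩, hij''⟩ := r
  change (i' = i ∧ i'' = c) ∨ (i' = c ∧ i'' = i) at hi
  change (j' = j ∧ j'' = c) ∨ (j' = c ∧ j'' = j) at hj
  rcases hi with ⟨e1, e2⟩ | ⟨e1, e2⟩ <;> rcases hj with ⟨e3, e4⟩ | ⟨e3, e4⟩
  · subst e1 e2 e3
    subst e4
    have h1 := Cut_id D _ hqp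
    exact ses_id_left _ (hD.2.1 _) _
  · subst e1 e2
    subst e3 e4
    exact hD.2.2 _ _ _ hij' hij''
  · have a1 : i' ≤ i := hqp.1
    have a2 : j ≤ j'' := hpr.2
    have a3 : i ≤ j := hij
    have a4 : c ≤ i := e1 ▸ a1
    have a5 : j ≤ c := e4 ▸ a2
    have b1 : i = c := le_antisymm (a3.trans a5) a4
    have b2 : j = c := le_antisymm a5 (a4.trans a3)
    exact ses_of_isZero _ _ (Cut_zero hD.2.1 _ (e1.trans (b2.symm.trans e3.symm)))
      (Cut_zero hD.2.1 _ (b1.trans b2.symm)) (Cut_zero hD.2.1 _ (e2.trans (b1.trans e4.symm)))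
  · subst e1 e2
    subst e3 e4
    have h1 := Cut_id D _ hpr
    exact ses_id_right _ (hD.2.1 _) _

theorem Cut_isoL {C : Type (u + 1)} [Category.{u} C] [Abelian C] {X Y Z : C} {f : X ⟶ Y}
    {g : Y ⟶ Z} (h : SES f g) (hZ : IsZero Z) : IsIso f := by
  obtain ⟨x, hx⟩ := h.lift (𝟙 Y) (hZ.eq_of_tgt _ _)
  have := h.mono
  exact ⟨x, by rw [← cancel_mono f, Category.assoc, hx, Category.comp_id, Category.id_comp], hx⟩

theorem Cut_isoR {C : Type (u + 1)} [Category.{u} C] [Abelian C] {X Y Z : C} {f : X ⟶ Y}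
    {g : Y ⟶ Z} (h : SES f g) (hX : IsZero X) : IsIso g := by
  obtain ⟨x, hx⟩ := h.desc (𝟙 Y) (hX.eq_of_src _ _)
  have := h.epi
  exact ⟨x, hx, by rw [← cancel_epi g, ← Category.assoc, hx, Category.comp_id, Category.id_comp]⟩

/-! ### the cut -/

section cut

variable {I L U : Type} [PartialOrder I] [Preorder L] [Preorder U] (c : Cut I L U)

theorem Cut_lc : c.l (c.l' c.c) = c.c := by
  rcases c.cut c.c with h | h
  · exact h.1
  · exact h.1

theorem Cut_uc : c.u (c.u' c.c) = c.c := by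
  rcases c.cut c.c with h | h
  · exact h.2
  · exact h.2

theorem Cut_lu (i : I) : c.l (c.l' (c.u (c.u' i))) = c.c := by
  rcases c.cut i with h | h
  · rw [h.2, Cut_lc]
  · rw [h.2, h.1]

theorem Cut_ul (i : I) : c.u (c.u' (c.l (c.l' i))) = c.c := by
  rcases c.cut i with h | h
  · rw [h.1, h.2]
  · rw [h.1, Cut_uc]

theorem Cut_lu' (i : I) : c.l' (c.u (c.u' i)) = c.l' c.c := by
  rw [← c.ll (c.l' (c.u (c.u' i))), Cut_lu]

theorem Cut_ul' (i : I) : c.u' (c.l (c.l' i)) = c.u' c.c := by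
  rw [← c.uu (c.u' (c.l (c.l' i))), Cut_ul]

end cut

/-! ### functors -/

section

variable (E : ExCat.{u}) {I V : Type} [PartialOrder I] [Preorder V] (A : Ar I → SubP E)
  (A₀ : SubP E)

/-- composition with `v'` -/
def Cut_back (v' : I →o V) (h3 : ∀ p : Ar I, v' p.1.1 = v' p.1.2 ∨ ∀ X, A₀.P X → (A p).P X) :
    ExFun ((E.sub A₀).S V) (E.SX I A) :=
  E.pre (J := Ar I) (J' := Ar V) (E.SA I A) ⟨fun D => ((E.sub A₀).SP V).Q D,
    fun D hD j => A₀.le _ (hD.1 j), ((E.sub A₀).SP V).iso, ((E.sub A₀).SP V).zero,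
    ((E.sub A₀).SP V).ext⟩ (Ar.map v') fun D hD =>
    ⟨⟨fun x => A₀.le _ (hD.1 _), fun i => hD.2.1 (v' i), fun i j k hij hjk =>
      hD.2.2 (v' i) (v' j) (v' k) (v'.monotone hij) (v'.monotone hjk)⟩, fun p => by
      rcases h3 p with h | h
      · exact (A p).zero _ (Cut_zero (E := E) hD.2.1 (Ar.map v' p) h)
      · exact h _ (hD.1 _)⟩

/-- the diagrams which vanish on the image of `f` -/
def Cut_sub (f : I →o I) : SubP (E.SX I A) where
  P := fun D => (E.SX I A).P D ∧ ∀ p, IsZero (Functor.obj (show Ar I ⥤ E.C from D) (Ar.map f p))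
  le := fun _ h => h.1
  iso := fun {X Y} e h => ⟨(E.SX I A).iso e h.1, fun p => (h.2 p).of_iso
    (Iso.app (show (show Ar I ⥤ E.C from X) ≅ (show Ar I ⥤ E.C from Y) from e) _).symm⟩
  zero := fun X h => ⟨(E.SX I A).zero X h, fun _ => (isZero_functor _).1 h _⟩
  ext := fun f g h hX hZ => ⟨(E.SX I A).ext f g h hX.1 hZ.1, fun p =>
    ((ses_functor f g).1 h _).isZero_mid (hX.2 p) (hZ.2 p)⟩

variable {E A A₀}

theorem Cut_comp (v : V →o I) (v' : I →o V) (hv : ∀ a, v' (v a) = a)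
    (h1 : ∀ p X, (A (Ar.map v p)).P X → A₀.P X)
    (h3 : ∀ p : Ar I, v' p.1.1 = v' p.1.2 ∨ ∀ X, A₀.P X → (A p).P X) :
    (Cut_back E A A₀ v' h3).comp (E.SXtoS A₀ A v h1) = ExFun.id _ := by
  have h2 : v'.comp v = OrderHom.id := OrderHom.ext _ _ (funext hv)
  have h4 : (Cut_back E A A₀ v' h3).comp (E.SXtoS A₀ A v h1) = (E.sub A₀).Smap (v'.comp v) := rfl
  rw [h4, h2]
  rfl

/-- one half -/
theorem Cut_half (hHt : St_StrHt.{u + 1}) (v : V →o I) (v' : I →o V) (hv : ∀ a, v' (v a) = a)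
    (h1 : ∀ p X, (A (Ar.map v p)).P X → A₀.P X)
    (h3 : ∀ p : Ar I, v' p.1.1 = v' p.1.2 ∨ ∀ X, A₀.P X → (A p).P X) (A' : SubP (E.SX I A))
    (hA' : ∀ D : ((E.sub A₀).S V).Ob, A'.P ((Cut_back E A A₀ v' h3).F.obj D).obj)
    (e : ((((E.SX I A).incl' A').comp (E.SXtoS A₀ A v h1)).comp
      ((Cut_back E A A₀ v' h3).toSub A' hA')).F ≅ (ExFun.id ((E.SX I A).sub A')).F) :
    SSt.Strong (((E.SX I A).incl' A').comp (E.SXtoS A₀ A v h1)).oS := by
  refine hHt.2.1 _ ((Cut_back E A A₀ v' h3).toSub A' hA').oS ?_ ?_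
  · have h6 := natStrEq hHt e
    rw [ExFun.oS_comp, ExFun.oS_id] at h6
    exact h6
  · have h5 : ((Cut_back E A A₀ v' h3).toSub A' hA').comp
        (((E.SX I A).incl' A').comp (E.SXtoS A₀ A v h1)) = ExFun.id _ :=
      Cut_comp v v' hv h1 h3
    rw [← ExFun.oS_comp, h5, ExFun.oS_id]
    intro Φ n
    rfl

end

/-! ### the transformations -/

section

variable {E : ExCat.{u}} {I V : Type} [PartialOrder I] [Preorder V]

/-- the morphism from the front part -/
def Cut_α (D : Ar I ⥤ E.C) (v : V →o I) (v' : I →o V) (h : ∀ i, v (v' i) ≤ i) :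
    (Ar.map v').monotone.functor ⋙ (Ar.map v).monotone.functor ⋙ D ⟶ D where
  app p := D.map (homOfLE (show Ar.map v (Ar.map v' p) ≤ p from ⟨h _, h _⟩))
  naturality p q f := by
    change D.map _ ≫ D.map _ = D.map _ ≫ D.map _
    rw [← D.map_comp, ← D.map_comp]
    rfl

/-- the morphism to the back part -/
def Cut_β (D : Ar I ⥤ E.C) (v : V →o I) (v' : I →o V) (h : ∀ i, i ≤ v (v' i)) :
    D ⟶ (Ar.map v').monotone.functor ⋙ (Ar.map v).monotone.functor ⋙ D where
  app p := D.map (homOfLE (show p ≤ Ar.map v (Ar.map v' p) from ⟨h _, h _⟩))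
  naturality p q f := by
    change D.map _ ≫ D.map _ = D.map _ ≫ D.map _
    rw [← D.map_comp, ← D.map_comp]
    rfl

end

theorem thm_Cut (hSpl : St_Spl.{u}) (hHt : St_StrHt.{u + 1}) (h23 : St_Str23.{u + 1})
    (hProd : St_StrProd.{u + 1}) : St_Cut.{u} := by
  intro E I L U _ _ _ c A A₁ A₂ h1 h2 h3 h4
  let R := E.SX I A
  let φ : ExFun R R := (E.SXtoS A₁ A c.l h1).comp (Cut_back E A A₁ c.l' h3)
  let ψ : ExFun R R := (E.SXtoS A₂ A c.u h2).comp (Cut_back E A A₂ c.u' h4)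
  let A' : SubP R := Cut_sub E A (c.u.comp c.u')
  let B' : SubP R := Cut_sub E A (c.l.comp c.l')
  -- the exact sequences
  have hses : ∀ (D : Ar I ⥤ E.C), (E.SP I).Q D → ∀ p : Ar I,
      SES ((Cut_α D c.l c.l' c.low).app p) ((Cut_β D c.u c.u' c.high).app p) := fun D hD p =>
    Cut_ses hD c.c _ _ _ _ _ (c.cut p.1.1) (c.cut p.1.2)
  let cf : ExFun.Conf3 φ (ExFun.id R) ψ :=
    { α :=
        { app := fun D => ObjectProperty.homMk (Cut_α D.obj c.l c.l' c.low)
          naturality := fun D D' τ => by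
            apply ObjectProperty.hom_ext
            apply NatTrans.ext
            funext p
            exact (NatTrans.naturality τ.hom _).symm }
      β :=
        { app := fun D => ObjectProperty.homMk (Cut_β D.obj c.u c.u' c.high)
          naturality := fun D D' τ => by
            apply ObjectProperty.hom_ext
            apply NatTrans.ext
            funext p
            exact (NatTrans.naturality τ.hom _).symm }
      ses := fun D => (ses_functor _ _).2 fun p => hses D.obj D.property.1 p }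
  have hA : ∀ X : R.Ob, A'.P (φ.F.obj X).obj := fun X => ⟨(φ.F.obj X).property, fun p =>
    Cut_zero X.property.1.2.1 _ ((Cut_lu c _).trans (Cut_lu c _).symm)⟩
  have hB : ∀ X : R.Ob, B'.P (ψ.F.obj X).obj := fun X => ⟨(ψ.F.obj X).property, fun p =>
    Cut_zero X.property.1.2.1 _ ((Cut_ul c _).trans (Cut_ul c _).symm)⟩
  have hs := hSpl R φ ψ cf A' B' hA hB (fun X h => (isZero_functor _).2 fun p => h.2 p)
    fun X h => (isZero_functor _).2 fun p => h.2 p
  -- the two equivalences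
  have hA' : ∀ D : ((E.sub A₁).S L).Ob, A'.P ((Cut_back E A A₁ c.l' h3).F.obj D).obj := fun D =>
    ⟨((Cut_back E A A₁ c.l' h3).F.obj D).property, fun p =>
      Cut_zero (E := E) D.property.2.1 _ ((Cut_lu' c _).trans (Cut_lu' c _).symm)⟩
  have hB' : ∀ D : ((E.sub A₂).S U).Ob, B'.P ((Cut_back E A A₂ c.u' h4).F.obj D).obj := fun D =>
    ⟨((Cut_back E A A₂ c.u' h4).F.obj D).property, fun p =>
      Cut_zero (E := E) D.property.2.1 _ ((Cut_ul' c _).trans (Cut_ul' c _).symm)⟩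
  have hl : SSt.Strong ((R.incl' A').comp (E.SXtoS A₁ A c.l h1)).oS := by
    have hi : ∀ (D : (R.sub A').Ob) (p : Ar I), IsIso ((Cut_α D.obj c.l c.l' c.low).app p) :=
      fun D p => Cut_isoL (hses D.obj D.property.1.1 p) (D.property.2 p)
    have hi' : ∀ D : (R.sub A').Ob, IsIso (Cut_α D.obj c.l c.l' c.low) := fun D => by
      have := hi D
      exact NatIso.isIso_of_isIso_app _
    refine Cut_half hHt c.l c.l' c.ll h1 h3 A' hA' (NatIso.ofComponents (fun D =>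
      ObjectProperty.isoMk _ (@asIso _ _ _ _ (Cut_α D.obj c.l c.l' c.low) (hi' D))) ?_)
    intro D D' τ
    apply ObjectProperty.hom_ext
    apply NatTrans.ext
    funext p
    exact (NatTrans.naturality τ.hom _).symm
  have hu : SSt.Strong ((R.incl' B').comp (E.SXtoS A₂ A c.u h2)).oS := by
    have hi : ∀ (D : (R.sub B').Ob) (p : Ar I), IsIso ((Cut_β D.obj c.u c.u' c.high).app p) :=
      fun D p => Cut_isoR (hses D.obj D.property.1.1 p) (D.property.2 p)
    have hi' : ∀ D : (R.sub B').Ob, IsIso (Cut_β D.obj c.u c.u' c.high) := fun D => by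
      have := hi D
      exact NatIso.isIso_of_isIso_app _
    refine Cut_half hHt c.u c.u' c.uu h2 h4 B' hB' (NatIso.ofComponents (fun D =>
      ObjectProperty.isoMk _ (@asIso _ _ _ _ (Cut_β D.obj c.u c.u' c.high) (hi' D))) ?_).symm
    intro D D' τ
    apply ObjectProperty.hom_ext
    apply NatTrans.ext
    funext p
    exact (NatTrans.naturality τ.hom _).symm
  have hfin := h23.1 _ _ hs (hProd _ _ hl hu)
  have e1 : E.SXtoS A₁ A c.l h1 = ((φ.toSub A' hA).comp ((R.incl' A').comp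
      (E.SXtoS A₁ A c.l h1))) := by
    have e2 : ((φ.toSub A' hA).comp ((R.incl' A').comp (E.SXtoS A₁ A c.l h1))) =
      (E.SXtoS A₁ A c.l h1).comp ((Cut_back E A A₁ c.l' h3).comp (E.SXtoS A₁ A c.l h1)) := rfl
    rw [e2, Cut_comp c.l c.l' c.ll h1 h3]
    rfl
  have e3 : E.SXtoS A₂ A c.u h2 = ((ψ.toSub B' hB).comp ((R.incl' B').comp
      (E.SXtoS A₂ A c.u h2))) := by
    have e2 : ((ψ.toSub B' hB).comp ((R.incl' B').comp (E.SXtoS A₂ A c.u h2))) =
      (E.SXtoS A₂ A c.u h2).comp ((Cut_back E A A₂ c.u' h4).comp (E.SXtoS A₂ A c.u h2)) := rfl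
    rw [e2, Cut_comp c.u c.u' c.uu h2 h4]
    rfl
  rw [e1, e3]
  exact hfin

end Pool.Agent.KQ
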