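import Pool.Agent.KQ.StEx
import Pool.Agent.KQ.SP
import Pool.Agent.KQ.SH

/-!
# KQ: the cut of `relS` and `relT` (proof of `St_CutK`)
-/

set_option autoImplicit false
set_option linter.unusedVariables false

noncomputable section

namespace Pool.Agent.KQ

open CategoryTheory CategoryTheory.Limits Function

universe u

/-- `⊥ ↦ 0`, `i ↦ 1` -/
def CutK_lB (p : ℕ) : WithBot (Fin (p + 1)) →o Fin 2 where
  toFun
    | none => 0
    | some _ => 1
  monotone' := by
    intro a b h
    cases a with
    | bot => exact Fin.zero_le _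
    | coe a =>
      cases b with
      | bot => exact absurd h (WithBot.not_coe_le_bot a)
      | coe b => exact le_rfl

/-- `⊥ ↦ 0`, `i ↦ i` -/
def CutK_uB (p : ℕ) : WithBot (Fin (p + 1)) →o Fin (p + 1) where
  toFun
    | none => 0
    | some i => i
  monotone' := by
    intro a b h
    cases a with
    | bot => exact Fin.zero_le _
    | coe a =>
      cases b with
      | bot => exact absurd h (WithBot.not_coe_le_bot a)
      | coe b => exact WithBot.coe_le_coe.1 h

/-- the cut of `⊥ ∪ [p]` at `0` -/
def CutK_B (p : ℕ) : Cut (WithBot (Fin (p + 1))) (Fin 2) (Fin (p + 1)) where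
  l := lB p
  l' := CutK_lB p
  u := coeB (Fin (p + 1))
  u' := CutK_uB p
  c := ((0 : Fin (p + 1)) : WithBot (Fin (p + 1)))
  ll a := by
    fin_cases a
    · rfl
    · rfl
  uu a := rfl
  low i := by
    cases i with
    | bot => exact bot_le
    | coe a => exact WithBot.coe_le_coe.2 (Fin.zero_le a)
  high i := by
    cases i with
    | bot => exact bot_le
    | coe a => exact le_rfl
  cut i := by
    cases i with
    | bot => exact Or.inl ⟨rfl, rfl⟩
    | coe a => exact Or.inr ⟨rfl, rfl⟩

/-- `⊤ ↦ p`, `i ↦ i` -/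
def CutK_lT (p : ℕ) : WithTop (Fin (p + 1)) →o Fin (p + 1) where
  toFun
    | none => Fin.last p
    | some i => i
  monotone' := by
    intro a b h
    cases b with
    | top => exact Fin.le_last _
    | coe b =>
      cases a with
      | top => exact absurd h (WithTop.not_top_le_coe b)
      | coe a => exact WithTop.coe_le_coe.1 h

/-- `⊤ ↦ 1`, `i ↦ 0` -/
def CutK_uT (p : ℕ) : WithTop (Fin (p + 1)) →o Fin 2 where
  toFun
    | none => 1
    | some _ => 0
  monotone' := by
    intro a b h
    cases b with
    | top => exact Fin.le_last _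
    | coe b =>
      cases a with
      | top => exact absurd h (WithTop.not_top_le_coe b)
      | coe a => exact le_rfl

/-- the cut of `[p] ∪ ⊤` at `p` -/
def CutK_T (p : ℕ) : Cut (WithTop (Fin (p + 1))) (Fin (p + 1)) (Fin 2) where
  l := coeT (Fin (p + 1))
  l' := CutK_lT p
  u := uT p
  u' := CutK_uT p
  c := ((Fin.last p : Fin (p + 1)) : WithTop (Fin (p + 1)))
  ll a := rfl
  uu a := by
    fin_cases a
    · rfl
    · rfl
  low i := by
    cases i with
    | top => exact le_top
    | coe a => exact le_rfl
  high i := by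
    cases i with
    | top => exact le_rfl
    | coe a => exact WithTop.coe_le_coe.2 (Fin.le_last a)
  cut i := by
    cases i with
    | top => exact Or.inr ⟨rfl, rfl⟩
    | coe a => exact Or.inl ⟨rfl, rfl⟩

theorem CutK_strongS (hCut : St_Cut.{u}) (E : ExCat.{u}) (A : SubP E) (p : ℕ) :
    SSt.Strong (pairS (tS E A p) (E.relSr A (Fin (p + 1)))) := by
  refine hCut E (CutK_B p) (condS A (Fin (p + 1))) (SubP.top E) A
    (fun _ _ h => (condS A _ _).le _ h) (fun _ _ h => h) ?_ ?_
  · rintro ⟨⟨i, j⟩, hij⟩
    cases i with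
    | bot => exact Or.inr fun X h => h
    | coe i =>
      cases j with
      | bot => exact absurd hij (WithBot.not_coe_le_bot i)
      | coe j => exact Or.inl rfl
  · rintro ⟨⟨i, j⟩, hij⟩
    refine Or.inr fun X h => ?_
    cases i with
    | bot => exact A.le _ h
    | coe i => exact h

theorem CutK_strongT (hCut : St_Cut.{u}) (E : ExCat.{u}) (A : SubP E) (p : ℕ) :
    SSt.Strong (pairS (E.relTr A (Fin (p + 1))) (tT E A p)) := by
  refine hCut E (CutK_T p) (condT A (Fin (p + 1))) A (SubP.top E)
    (fun _ _ h => h) (fun _ _ h => (condT A _ _).le _ h) ?_ ?_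
  · rintro ⟨⟨i, j⟩, hij⟩
    refine Or.inr fun X h => ?_
    cases j with
    | top => exact A.le _ h
    | coe j => exact h
  · rintro ⟨⟨i, j⟩, hij⟩
    cases j with
    | top => exact Or.inr fun X h => h
    | coe j =>
      cases i with
      | top => exact absurd hij (WithTop.not_top_le_coe j)
      | coe i => exact Or.inl rfl

theorem thm_CutK (hCut : St_Cut.{u}) (hSPR : St_SPR2.{u}) : St_CutK.{u} := by
  intro E A k p hk
  refine ⟨hSPR _ _ (CutK_strongS hCut E A p) k hk, hSPR _ _ ?_ k hk⟩
  exact thm_Str23.1 (pairS (E.relTr A (Fin (p + 1))) (tT E A p)) (SP_swap _ _)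
    (CutK_strongT hCut E A p) (SP_bij _ (SP_swap_bij _ _))

end Pool.Agent.KQ
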