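import Pool.Agent.KQ.Equi

/-!
# KQ, module Ev: `S_1 E` is equivalent to `E`
-/

set_option autoImplicit false
set_option linter.unusedVariables false

noncomputable section

namespace Pool.Agent.KQ

open CategoryTheory CategoryTheory.Limits Function
open scoped ZeroObject

universe u

/-- the pair `(0, 1)` -/
def Ev_m : Ar (Fin 2) := ar (0 : Fin 2) 1 (by decide)

theorem Ev_cases (x : Ar (Fin 2)) : (∃ i, x = ar i i le_rfl) ∨ x = Ev_m := by
  obtain ⟨⟨i, j⟩, h⟩ := x
  fin_cases i <;> fin_cases j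
  · exact Or.inl ⟨0, rfl⟩
  · exact Or.inr rfl
  · exact absurd h (by decide)
  · exact Or.inl ⟨1, rfl⟩

/-- the index of a pair in the chain `(0, 0) ≤ (0, 1) ≤ (1, 1)` -/
def Ev_idx : Ar (Fin 2) →o Fin 3 where
  toFun x := ⟨x.1.1.val + x.1.2.val, by
    have h1 := x.1.1.isLt
    have h2 := x.1.2.isLt
    omega⟩
  monotone' x y h := by
    have h1 : x.1.1.val ≤ y.1.1.val := h.1
    have h2 : x.1.2.val ≤ y.1.2.val := h.2
    exact Nat.add_le_add h1 h2

section

variable {C : Type*} [Category C] [Abelian C]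

/-- the diagram `0 → V → 0` -/
def Ev_D (V : C) : Ar (Fin 2) ⥤ C :=
  Ev_idx.monotone.functor ⋙ ComposableArrows.mk₂ (0 : (0 : C) ⟶ V) (0 : V ⟶ (0 : C))

theorem Ev_D_zero (V : C) (i : Fin 2) : IsZero ((Ev_D V).obj (ar i i le_rfl)) := by
  fin_cases i
  · exact isZero_zero C
  · exact isZero_zero C

theorem Ev_ses (D : Ar (Fin 2) ⥤ C) (hD : ∀ i, IsZero (D.obj (ar i i le_rfl))) (i j k : Fin 2)
    (hij : i ≤ j) (hjk : j ≤ k) :
    SES (D.map (arHom hij (hij.trans hjk) le_rfl hjk))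
      (D.map (arHom (hij.trans hjk) hjk hij le_rfl)) := by
  have h : i = j ∨ j = k := by omega
  rcases h with rfl | rfl
  · have h1 : arHom (hij.trans hjk) hjk hij le_rfl = 𝟙 (ar i k hjk) := Subsingleton.elim _ _
    rw [h1, D.map_id]
    exact ses_id_right (𝟙 _) (hD i) _
  · have h1 : arHom hij (hij.trans hjk) le_rfl hjk = 𝟙 (ar i j hij) := Subsingleton.elim _ _
    rw [h1, D.map_id]
    exact ses_id_left (𝟙 _) (hD j) _

open Classical in
/-- the extension of a map of the middle terms -/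
def Ev_ext (D D' : Ar (Fin 2) ⥤ C) (hD : ∀ i, IsZero (D.obj (ar i i le_rfl)))
    (hD' : ∀ i, IsZero (D'.obj (ar i i le_rfl))) (b : D.obj Ev_m ⟶ D'.obj Ev_m) : D ⟶ D' where
  app x := if h : x = Ev_m then D.map (eqToHom h) ≫ b ≫ D'.map (eqToHom h.symm) else 0
  naturality x y f := by
    rcases Ev_cases x with ⟨i, rfl⟩ | rfl
    · exact (hD i).eq_of_src _ _
    · rcases Ev_cases y with ⟨i, rfl⟩ | rfl
      · exact (hD' i).eq_of_tgt _ _
      · have h1 : f = 𝟙 Ev_m := Subsingleton.elim _ _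
        rw [h1]
        simp

theorem Ev_ext_app (D D' : Ar (Fin 2) ⥤ C) (hD : ∀ i, IsZero (D.obj (ar i i le_rfl)))
    (hD' : ∀ i, IsZero (D'.obj (ar i i le_rfl))) (b : D.obj Ev_m ⟶ D'.obj Ev_m) :
    (Ev_ext D D' hD hD' b).app Ev_m = b := by
  unfold Ev_ext
  simp

end

theorem thm_Ev : St_Ev.{u} := by
  intro E
  refine thm_Equi (E.ev (ar (0 : Fin 2) 1 (by decide))) (fun X Y => ⟨fun f g h => ?_, fun b => ?_⟩)
    (fun V => ?_) (fun {X Y Z} f g h => ?_)
  · have h1 : f.hom.app Ev_m = g.hom.app Ev_m := congrArg InducedCategory.Hom.hom h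
    apply ObjectProperty.hom_ext
    apply NatTrans.ext
    funext x
    rcases Ev_cases x with ⟨i, rfl⟩ | rfl
    · exact (X.property.2.1 i).eq_of_src _ _
    · exact h1
  · refine ⟨ObjectProperty.homMk (Ev_ext X.obj Y.obj X.property.2.1 Y.property.2.1 b.hom), ?_⟩
    apply ObjectProperty.hom_ext
    exact Ev_ext_app X.obj Y.obj X.property.2.1 Y.property.2.1 b.hom
  · refine ⟨⟨Ev_D V.obj, fun x => ?_, Ev_D_zero V.obj, Ev_ses _ (Ev_D_zero V.obj)⟩,
      ⟨Iso.refl V⟩⟩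
    rcases Ev_cases x with ⟨i, rfl⟩ | rfl
    · exact E.zero _ (Ev_D_zero V.obj i)
    · exact V.property
  · have h1 : SES (f.hom.app Ev_m) (g.hom.app Ev_m) := h
    refine (ses_functor f.hom g.hom).2 fun x => ?_
    rcases Ev_cases x with ⟨i, rfl⟩ | rfl
    · exact ses_of_isZero _ _ (X.property.2.1 i) (Y.property.2.1 i) (Z.property.2.1 i)
    · exact h1

end Pool.Agent.KQ
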