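import Pool.Agent.KQ.StEx

/-!
# KQ Con: `relS E E` and `relT E E` are contractible
-/

set_option autoImplicit false

noncomputable section

namespace Pool.Agent.KQ

open CategoryTheory CategoryTheory.Limits Function

universe u

theorem Con_condS {E : ExCat.{u}} {I : Type} [Preorder I] (x : Ar (WithBot I)) :
    condS (SubP.top E) I x = SubP.top E := by
  obtain ⟨⟨i, j⟩, h⟩ := x
  cases i <;> rfl

theorem Con_condT {E : ExCat.{u}} {I : Type} [Preorder I] (x : Ar (WithTop I)) :
    condT (SubP.top E) I x = SubP.top E := by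
  obtain ⟨⟨i, j⟩, h⟩ := x
  cases j <;> rfl

/-- precomposition with a monotone map of the extended index sets -/
def Con_fS (E : ExCat.{u}) {I J : Type} [Preorder I] [Preorder J] (f : WithBot I →o WithBot J) :
    ExFun (E.relS (SubP.top E) J) (E.relS (SubP.top E) I) :=
  E.SXmap (condS (SubP.top E) I) (condS (SubP.top E) J) f fun x X h => by
    rw [Con_condS] at h ⊢
    exact h

/-- precomposition with a monotone map of the extended index sets -/
def Con_fT (E : ExCat.{u}) {I J : Type} [Preorder I] [Preorder J] (f : WithTop I →o WithTop J) :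
    ExFun (E.relT (SubP.top E) J) (E.relT (SubP.top E) I) :=
  E.SXmap (condT (SubP.top E) I) (condT (SubP.top E) J) f fun x X h => by
    rw [Con_condT] at h ⊢
    exact h

theorem Con_fS_comp (E : ExCat.{u}) {I J K : Type} [Preorder I] [Preorder J] [Preorder K]
    (f : WithBot I →o WithBot J) (g : WithBot J →o WithBot K) :
    (Con_fS E g).comp (Con_fS E f) = Con_fS E (g.comp f) := rfl

theorem Con_fT_comp (E : ExCat.{u}) {I J K : Type} [Preorder I] [Preorder J] [Preorder K]
    (f : WithTop I →o WithTop J) (g : WithTop J →o WithTop K) :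
    (Con_fT E g).comp (Con_fT E f) = Con_fT E (g.comp f) := rfl

/-- `⊥ ↦ ⊥`, `j ↦ j` if `α j`, `⊥` otherwise -/
def Con_cB {n : ℕ} (α : Fin (n + 1) →o Bool) :
    WithBot (Fin (n + 1)) →o WithBot (Fin (n + 1)) where
  toFun x := WithBot.recBotCoe (C := fun _ => WithBot (Fin (n + 1))) ⊥
    (fun j => if α j = true then (j : WithBot (Fin (n + 1))) else ⊥) x
  monotone' := by
    intro x y h
    induction x using WithBot.recBotCoe with
    | bot => exact bot_le
    | coe i =>
      induction y using WithBot.recBotCoe with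
      | bot => exact absurd h (by simp)
      | coe j =>
        have hij : i ≤ j := WithBot.coe_le_coe.1 h
        change (if α i = true then (i : WithBot (Fin (n + 1))) else ⊥) ≤
          (if α j = true then (j : WithBot (Fin (n + 1))) else ⊥)
        by_cases hi : α i = true
        · have hj : α j = true := by
            have h1 : α i ≤ α j := α.monotone hij
            rw [hi] at h1
            exact top_le_iff.1 h1
          rw [if_pos hi, if_pos hj]
          exact h
        · rw [if_neg hi]
          exact bot_le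

/-- `⊤ ↦ ⊤`, `j ↦ ⊤` if `α j`, `j` otherwise -/
def Con_cT {n : ℕ} (α : Fin (n + 1) →o Bool) :
    WithTop (Fin (n + 1)) →o WithTop (Fin (n + 1)) where
  toFun x := WithTop.recTopCoe (C := fun _ => WithTop (Fin (n + 1))) ⊤
    (fun j => if α j = true then ⊤ else (j : WithTop (Fin (n + 1)))) x
  monotone' := by
    intro x y h
    induction y using WithTop.recTopCoe with
    | top => exact le_top
    | coe j =>
      induction x using WithTop.recTopCoe with
      | top => exact absurd h (by simp)
      | coe i =>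
        have hij : i ≤ j := WithTop.coe_le_coe.1 h
        change (if α i = true then ⊤ else (i : WithTop (Fin (n + 1)))) ≤
          (if α j = true then ⊤ else (j : WithTop (Fin (n + 1))))
        by_cases hj : α j = true
        · rw [if_pos hj]
          exact le_top
        · have hi : ¬ α i = true := by
            intro hi
            have h1 : α i ≤ α j := α.monotone hij
            rw [hi] at h1
            exact hj (top_le_iff.1 h1)
          rw [if_neg hi, if_neg hj]
          exact h

theorem Con_cB_nat {m n : ℕ} (θ : Mo m n) (α : Fin (n + 1) →o Bool) :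
    (wb θ).comp (Con_cB (α.comp θ)) = (Con_cB α).comp (wb θ) := by
  apply OrderHom.ext
  funext x
  induction x using WithBot.recBotCoe with
  | bot => rfl
  | coe i =>
    change WithBot.map θ (if α (θ i) = true then (i : WithBot (Fin (m + 1))) else ⊥) =
      (if α (θ i) = true then ((θ i : Fin (n + 1)) : WithBot (Fin (n + 1))) else ⊥)
    split_ifs <;> rfl

theorem Con_cT_nat {m n : ℕ} (θ : Mo m n) (α : Fin (n + 1) →o Bool) :
    (wt θ).comp (Con_cT (α.comp θ)) = (Con_cT α).comp (wt θ) := by
  apply OrderHom.ext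
  funext x
  induction x using WithTop.recTopCoe with
  | top => rfl
  | coe i =>
    change WithTop.map θ (if α (θ i) = true then ⊤ else (i : WithTop (Fin (m + 1)))) =
      (if α (θ i) = true then ⊤ else ((θ i : Fin (n + 1)) : WithTop (Fin (n + 1))))
    split_ifs <;> rfl

theorem Con_cB_true {n : ℕ} (α : Fin (n + 1) →o Bool) (h : ∀ i, α i = true) :
    Con_cB α = OrderHom.id := by
  apply OrderHom.ext
  funext x
  induction x using WithBot.recBotCoe with
  | bot => rfl
  | coe i => exact if_pos (h i)

theorem Con_cT_false {n : ℕ} (α : Fin (n + 1) →o Bool) (h : ∀ i, α i = false) :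
    Con_cT α = OrderHom.id := by
  apply OrderHom.ext
  funext x
  induction x using WithTop.recTopCoe with
  | top => rfl
  | coe i => exact if_neg (by rw [h i]; exact Bool.false_ne_true)

theorem Con_cB_false {n : ℕ} (i : WithBot (Fin (n + 1))) :
    Con_cB (OrderHom.const (Fin (n + 1)) false) i = ⊥ := by
  induction i using WithBot.recBotCoe with
  | bot => rfl
  | coe i =>
    change (if false = true then (i : WithBot (Fin (n + 1))) else ⊥) = ⊥
    rw [if_neg Bool.false_ne_true]

theorem Con_cT_true {n : ℕ} (i : WithTop (Fin (n + 1))) :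
    Con_cT (OrderHom.const (Fin (n + 1)) true) i = ⊤ := by
  induction i using WithTop.recTopCoe with
  | top => rfl
  | coe i =>
    change (if true = true then ⊤ else (i : WithTop (Fin (n + 1)))) = ⊤
    rw [if_pos rfl]

theorem Con_cst {n : ℕ} (b : Bool) (α : Fin (n + 1) →o Bool) (h : ∀ i, α i = b) :
    α = OrderHom.const _ b := OrderHom.ext _ _ (funext h)

theorem Con_S_nat (E : ExCat.{u}) {m n : ℕ} (θ : Mo m n) (α : Fin (n + 1) →o Bool) :
    (relS E (SubP.top E)).map θ ≫ Con_fS E (Con_cB (α.comp θ)) =
      Con_fS E (Con_cB α) ≫ (relS E (SubP.top E)).map θ := by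
  change (Con_fS E (wb θ)).comp (Con_fS E (Con_cB (α.comp θ))) =
    (Con_fS E (Con_cB α)).comp (Con_fS E (wb θ))
  rw [Con_fS_comp, Con_fS_comp, Con_cB_nat]

theorem Con_T_nat (E : ExCat.{u}) {m n : ℕ} (θ : Mo m n) (α : Fin (n + 1) →o Bool) :
    (relT E (SubP.top E)).map θ ≫ Con_fT E (Con_cT (α.comp θ)) =
      Con_fT E (Con_cT α) ≫ (relT E (SubP.top E)).map θ := by
  change (Con_fT E (wt θ)).comp (Con_fT E (Con_cT (α.comp θ))) =
    (Con_fT E (Con_cT α)).comp (Con_fT E (wt θ))
  rw [Con_fT_comp, Con_fT_comp, Con_cT_nat]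

/-- **Con.** -/
theorem thm_Con : St_Con.{u} := by
  intro E
  refine ⟨⟨⟨fun n => Con_fS E (Con_cB (OrderHom.const _ false)), fun θ =>
    Con_S_nat E θ (OrderHom.const _ false)⟩, ?_, ⟨⟨fun n α => Con_fS E (Con_cB α),
      fun θ α => Con_S_nat E θ α, ?_, ?_⟩⟩⟩, ⟨⟨fun n => Con_fT E (Con_cT (OrderHom.const _ true)),
      fun θ => Con_T_nat E θ (OrderHom.const _ true)⟩, ?_, ⟨⟨fun n α => Con_fT E (Con_cT α),
      fun θ α => Con_T_nat E θ α, ?_, ?_⟩⟩⟩⟩
  · intro n X
    refine (isZero_functor _).2 fun x => ?_
    obtain ⟨⟨i, j⟩, hij⟩ := x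
    have hi := Con_cB_false i
    have hj := Con_cB_false j
    have h0 := X.property.1.2.1 (⊥ : WithBot (Fin (n + 1)))
    change IsZero (X.obj.obj (Ar.map (Con_cB (OrderHom.const (Fin (n + 1)) false)) ⟨(i, j), hij⟩))
    rw [show Ar.map (Con_cB (OrderHom.const (Fin (n + 1)) false)) ⟨(i, j), hij⟩ =
      ar (⊥ : WithBot (Fin (n + 1))) ⊥ le_rfl from Subtype.ext (Prod.ext hi hj)]
    exact h0
  · intro n α h
    rw [Con_cst false α h]
  · intro n α h
    rw [Con_cB_true α h]
    rfl
  · intro n X
    refine (isZero_functor _).2 fun x => ?_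
    obtain ⟨⟨i, j⟩, hij⟩ := x
    have hi := Con_cT_true i
    have hj := Con_cT_true j
    have h0 := X.property.1.2.1 (⊤ : WithTop (Fin (n + 1)))
    change IsZero (X.obj.obj (Ar.map (Con_cT (OrderHom.const (Fin (n + 1)) true)) ⟨(i, j), hij⟩))
    rw [show Ar.map (Con_cT (OrderHom.const (Fin (n + 1)) true)) ⟨(i, j), hij⟩ =
      ar (⊤ : WithTop (Fin (n + 1))) ⊤ le_rfl from Subtype.ext (Prod.ext hi hj)]
    exact h0
  · intro n α h
    rw [Con_cT_false α h]
    rfl
  · intro n α h
    rw [Con_cst true α h]

end Pool.Agent.KQ
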