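import Pool.Agent.KQ.Equi

/-!
# KQ, module Iso: the constant chains are equivalences onto the chains of isomorphisms
-/

set_option autoImplicit false
set_option linter.unusedVariables false

noncomputable section

namespace Pool.Agent.KQ

open CategoryTheory CategoryTheory.Limits Function

universe u

theorem Iso_left {C : Type*} [Category C] [Abelian C] {X Y Z : C} {f : X ⟶ Y} {g : Y ⟶ Z}
    (h : SES f g) (hZ : IsZero Z) : IsIso f := by
  obtain ⟨x, hx⟩ := h.lift (𝟙 Y) (hZ.eq_of_tgt _ _)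
  have := h.mono
  exact ⟨x, by rw [← cancel_mono f, Category.assoc, hx, Category.comp_id, Category.id_comp], hx⟩

theorem Iso_right {C : Type*} [Category C] [Abelian C] {X Y Z : C} {f : X ⟶ Y} {g : Y ⟶ Z}
    (h : SES f g) (hX : IsZero X) : IsIso g := by
  obtain ⟨x, hx⟩ := h.desc (𝟙 Y) (hX.eq_of_src _ _)
  have := h.epi
  exact ⟨x, hx, by rw [← cancel_epi g, ← Category.assoc, hx, Category.comp_id, Category.id_comp]⟩

/-- a chain of isomorphisms is a constant chain -/
def Iso_cst {C : Type*} [Category C] {m : ℕ} (D : Fin (m + 1) ⥤ C)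
    (h : ∀ j, IsIso (D.map (homOfLE (Fin.zero_le j)))) :
    (Functor.const (Fin (m + 1))).obj (D.obj 0) ≅ D :=
  NatIso.ofComponents (fun j => @asIso _ _ _ _ (D.map (homOfLE (Fin.zero_le j))) (h j))
    fun {i j} f => by
      change 𝟙 _ ≫ D.map _ = D.map _ ≫ D.map _
      rw [Category.id_comp, ← D.map_comp]
      rfl

theorem Iso_app {C : Type*} [Category C] {m : ℕ} {X Y : C}
    (τ : (Functor.const (Fin (m + 1))).obj X ⟶ (Functor.const (Fin (m + 1))).obj Y)
    (j : Fin (m + 1)) : τ.app j = τ.app 0 := by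
  have h := τ.naturality (homOfLE (Fin.zero_le j))
  exact (Category.id_comp (X := X) (Y := Y) (τ.app j)).symm.trans
    (h.trans (Category.comp_id (X := X) (Y := Y) (τ.app 0)))

theorem thm_Iso : St_Iso.{u} := by
  intro E m
  refine ⟨thm_Equi _ (fun X Y => ⟨fun f g h => ?_, fun f => ?_⟩) (fun Y => ?_) fun f g h => ?_,
    thm_Equi _ (fun X Y => ⟨fun f g h => ?_, fun f => ?_⟩) (fun Y => ?_) fun f g h => ?_⟩
  · apply ObjectProperty.hom_ext
    have h1 := congrArg InducedCategory.Hom.hom h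
    exact congrArg (fun τ => NatTrans.app τ 0) h1
  · refine ⟨ObjectProperty.homMk (f.hom.app 0), ?_⟩
    apply ObjectProperty.hom_ext
    apply NatTrans.ext
    funext j
    exact (Iso_app (X := X.obj) (Y := Y.obj) f.hom j).symm
  · refine ⟨⟨Y.obj.obj 0, Y.property.1 0⟩, ⟨(ObjectProperty.fullyFaithfulι _).preimageIso
      (Iso_cst Y.obj fun j => ?_)⟩⟩
    obtain ⟨Z, g, hZ, hg⟩ := Y.property.2 0 j (Fin.zero_le j)
    exact Iso_left hg hZ
  · exact (ses_functor _ _).1 h 0
  · apply ObjectProperty.hom_ext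
    have h1 := congrArg InducedCategory.Hom.hom h
    exact congrArg (fun τ => NatTrans.app τ 0) h1
  · refine ⟨ObjectProperty.homMk (f.hom.app 0), ?_⟩
    apply ObjectProperty.hom_ext
    apply NatTrans.ext
    funext j
    exact (Iso_app (X := X.obj) (Y := Y.obj) f.hom j).symm
  · refine ⟨⟨Y.obj.obj 0, Y.property.1 0⟩, ⟨(ObjectProperty.fullyFaithfulι _).preimageIso
      (Iso_cst Y.obj fun j => ?_)⟩⟩
    obtain ⟨Z, g, hZ, hg⟩ := Y.property.2 0 j (Fin.zero_le j)
    exact Iso_right hg hZ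
  · exact (ses_functor _ _).1 h 0

end Pool.Agent.KQ
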