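import Pool.Agent.KQ.NatIso

/-!
# KQ: simplicially naturally isomorphic maps of simplicial exact categories are homotopic
-/

set_option autoImplicit false
set_option linter.unusedVariables false

noncomputable section

namespace Pool.Agent.KQ

open CategoryTheory CategoryTheory.Limits

universe u v w

section

variable {E₀ E E' E'' : ExCat.{u}}

/-- mixing and precomposition -/
theorem ExFun.mix_pre {F G : ExFun E E'} (e : F.F ≅ G.F) (H : ExFun E₀ E) (I : Type) [Preorder I]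
    (α : I →o Bool) : (H.S I).comp (ExFun.mix e I α) =
      ExFun.mix (F := H.comp F) (G := H.comp G) (Functor.isoWhiskerLeft H.F e) I α := rfl

theorem cond_obj (K : ExFun E' E'') (b : Bool) (X Y : E'.Ob) (h : E'.P (cond b Y.obj X.obj)) :
    (K.F.obj ⟨cond b Y.obj X.obj, h⟩).obj = cond b (K.F.obj Y).obj (K.F.obj X).obj := by
  cases b <;> rfl

theorem cond_map (K : ExFun E' E'') (b b' : Bool) {X Y X' Y' : E'.Ob} (φ : X ≅ Y) (φ' : X' ≅ Y')
    (f : X ⟶ X') (h : E'.P (cond b Y.obj X.obj)) (h' : E'.P (cond b' Y'.obj X'.obj)) :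
    HEq (K.F.map (X := ⟨cond b Y.obj X.obj, h⟩) (Y := ⟨cond b' Y'.obj X'.obj, h'⟩)
      (ObjectProperty.homMk ((mixIso (E'.P.ι.mapIso φ) b).inv ≫ f.hom ≫
        (mixIso (E'.P.ι.mapIso φ') b').hom))).hom
      ((mixIso (E''.P.ι.mapIso (K.F.mapIso φ)) b).inv ≫ (K.F.map f).hom ≫
        (mixIso (E''.P.ι.mapIso (K.F.mapIso φ')) b').hom) := by
  cases b <;> cases b' <;> refine heq_of_eq ?_
  · change (K.F.map (ObjectProperty.homMk (𝟙 _ ≫ f.hom ≫ 𝟙 _))).hom =
      𝟙 _ ≫ (K.F.map f).hom ≫ 𝟙 _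
    rw [Category.id_comp, Category.comp_id]
    erw [Category.id_comp, Category.comp_id]
    rfl
  · change (K.F.map (ObjectProperty.homMk (𝟙 _ ≫ f.hom ≫ φ'.hom.hom))).hom =
      𝟙 _ ≫ (K.F.map f).hom ≫ (K.F.map φ'.hom).hom
    rw [Category.id_comp]
    erw [Category.id_comp]
    exact congrArg InducedCategory.Hom.hom (K.F.map_comp f φ'.hom)
  · change (K.F.map (ObjectProperty.homMk (φ.inv.hom ≫ f.hom ≫ 𝟙 _))).hom =
      (K.F.map φ.inv).hom ≫ (K.F.map f).hom ≫ 𝟙 _
    rw [Category.comp_id]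
    erw [Category.comp_id]
    exact congrArg InducedCategory.Hom.hom (K.F.map_comp φ.inv f)
  · change (K.F.map (ObjectProperty.homMk (φ.inv.hom ≫ f.hom ≫ φ'.hom.hom))).hom =
      (K.F.map φ.inv).hom ≫ (K.F.map f).hom ≫ (K.F.map φ'.hom).hom
    refine (congrArg InducedCategory.Hom.hom (K.F.map_comp φ.inv (f ≫ φ'.hom))).trans ?_
    exact congrArg (fun x => (K.F.map φ.inv).hom ≫ x)
      (congrArg InducedCategory.Hom.hom (K.F.map_comp f φ'.hom))

theorem ExFun.mix_post_obj {F G : ExFun E E'} (e : F.F ≅ G.F) (K : ExFun E' E'') (I : Type)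
    [Preorder I] (α : I →o Bool) (D : (E.S I).Ob) : (K.S I).F.obj (mixObj e α D) =
      mixObj (F := F.comp K) (G := G.comp K) (Functor.isoWhiskerRight e K.F) α D := by
  apply ObjectProperty.FullSubcategory.ext
  refine functor_eq (K := Ar I) (fun q => ?_) fun q q' f => ?_
  · exact cond_obj K (α q.1.2) (F.F.obj ((E.lift D.obj ((E.SP I).pt _ D.property)).obj q))
      (G.F.obj ((E.lift D.obj ((E.SP I).pt _ D.property)).obj q)) _
  · exact cond_map K (α q.1.2) (α q'.1.2)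
      (e.app ((E.lift D.obj ((E.SP I).pt _ D.property)).obj q))
      (e.app ((E.lift D.obj ((E.SP I).pt _ D.property)).obj q'))
      (F.F.map ((E.lift D.obj ((E.SP I).pt _ D.property)).map f)) _ _

/-- mixing and postcomposition -/
theorem ExFun.mix_post {F G : ExFun E E'} (e : F.F ≅ G.F) (K : ExFun E' E'') (I : Type)
    [Preorder I] (α : I →o Bool) : (ExFun.mix e I α).comp (K.S I) =
      ExFun.mix (F := F.comp K) (G := G.comp K) (Functor.isoWhiskerRight e K.F) I α := by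
  have h0 := ExFun.mix_post_obj e K I α
  apply ExFun.ext'
  refine CategoryTheory.Functor.hext (fun D => h0 D) fun D D' f => ?_
  refine full_heq (h0 D) (h0 D') _ _ ?_
  refine nt_heq (congrArg ObjectProperty.FullSubcategory.obj (h0 D))
    (congrArg ObjectProperty.FullSubcategory.obj (h0 D')) _ _ fun q => ?_
  exact cond_map K (α q.1.2) (α q.1.2)
      (e.app ((E.lift D.obj ((E.SP I).pt _ D.property)).obj q))
      (e.app ((E.lift D'.obj ((E.SP I).pt _ D'.property)).obj q))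
      (F.F.map (X := (E.lift D.obj ((E.SP I).pt _ D.property)).obj q)
        (Y := (E.lift D'.obj ((E.SP I).pt _ D'.property)).obj q)
        (ObjectProperty.homMk (f.hom.app q))) _ _

theorem ExFun.mix_congr {F G F' G' : ExFun E E'} (e : F.F ≅ G.F) (e' : F'.F ≅ G'.F)
    (hF : F = F') (hG : G = G') (h : ∀ X, HEq (e.hom.app X) (e'.hom.app X)) (I : Type)
    [Preorder I] (α : I →o Bool) : ExFun.mix e I α = ExFun.mix e' I α := by
  subst hF hG
  obtain rfl : e = e' := by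
    apply Iso.ext
    apply NatTrans.ext
    funext X
    exact eq_of_heq (h X)
  rfl

end

/-- SIMPLICIALLY NATURALLY ISOMORPHIC MAPS ARE HOMOTOPIC, for the S-construction -/
def natHtpyD {X Y : SOb ExCat.{u}} {f g : X ⟶ Y} (e : ∀ m, ExFun.F (f.app m) ≅ ExFun.F (g.app m))
    (he : ∀ {m n : ℕ} (θ : Mo m n) (x : (X.obj n).Ob),
      HEq ((e m).hom.app ((ExFun.F (X.map θ)).obj x)) ((ExFun.F (Y.map θ)).map ((e n).hom.app x))) :
    SOb.Htpy (SD.map f) (SD.map g) where
  h n α := ExFun.mix (e n) (Fin (n + 1)) α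
  nat {m n} θ α := by
    have h1 : (ExFun.S (X.map θ) (Fin (n + 1))).comp (ExFun.mix (e m) (Fin (n + 1)) α) =
        (ExFun.mix (e n) (Fin (n + 1)) α).comp (ExFun.S (Y.map θ) (Fin (n + 1))) := by
      rw [ExFun.mix_pre, ExFun.mix_post]
      exact ExFun.mix_congr _ _ (f.nat θ) (g.nat θ) (fun x => he θ x) (Fin (n + 1)) α
    change ((ExFun.S (X.map θ) (Fin (n + 1))).comp ((X.obj m).Smap θ)).comp
        (ExFun.mix (e m) (Fin (m + 1)) (α.comp θ)) =
      (ExFun.mix (e n) (Fin (n + 1)) α).comp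
        ((ExFun.S (Y.map θ) (Fin (n + 1))).comp ((Y.obj m).Smap θ))
    rw [ExFun.comp_assoc, ExFun.mix_nat, ← ExFun.comp_assoc, h1]
    rfl
  h0 n α hα := ExFun.mix_false (e n) α hα
  h1 n α hα := ExFun.mix_true (e n) α hα

/-- objects of homotopic maps -/
def SOb.Htpy.obS {X Y : SOb ExCat.{u}} {f g : X ⟶ Y} (H : SOb.Htpy f g) :
    SSt.Htpy (Pool.Agent.KQ.obS.map f) (Pool.Agent.KQ.obS.map g) where
  h n α x := (ExFun.F (H.h n α)).obj x
  nat {m n} θ α x := congrArg (fun G : X.obj n ⟶ Y.obj m => (ExFun.F G).obj x) (H.nat θ α)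
  h0 n α x hα := by
    rw [H.h0 n α hα]
    rfl
  h1 n α x hα := by
    rw [H.h1 n α hα]
    rfl

/-- the same homomorphisms of homotopy groups, for `ext (dS Sd Ψ)` -/
theorem natPiD (h1 : St_Htpy.{w}) {X Y : SOb ExCat.{u}} {f g : X ⟶ Y}
    (e : ∀ m, ExFun.F (f.app m) ≅ ExFun.F (g.app m))
    (he : ∀ {m n : ℕ} (θ : Mo m n) (x : (X.obj n).Ob),
      HEq ((e m).hom.app ((ExFun.F (X.map θ)).obj x)) ((ExFun.F (Y.map θ)).map ((e n).hom.app x)))
    (Ψ : ExCat.{u} ⥤ SGp.{w}) (n : ℕ) :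
    SGp.PiMap ((ext Ψ).map (SD.map f)) n = SGp.PiMap ((ext Ψ).map (SD.map g)) n :=
  h1 _ _ ⟨(natHtpyD e he).ext Ψ⟩ n

end Pool.Agent.KQ
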