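import Pool.Agent.KQ.StEx
import Pool.Agent.KQ.Core
import Pool.Agent.KQ.NatIsoS

/-!
# KQ: K-groups: natural isomorphisms, equivalences (architect helper33)
-/

set_option autoImplicit false
set_option linter.unusedVariables false

noncomputable section

namespace Pool.Agent.KQ

open CategoryTheory CategoryTheory.Limits Function

universe u

/-! ### one more S-construction -/

/-- `DKs (k + 1) X` is `DKs k (n ↦ S_n X_n)` -/
def sdIso (k : ℕ) : DKs.{u} (k + 1) ≅ SD ⋙ DKs k :=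
  NatIso.ofComponents (fun X => SGp.isoMk (fun _ => MulEquiv.refl _) fun {m n} f x => by
    change ((DK k).obj ((X.obj m).S (Fin (m + 1)))).map f
        (((DK k).map ((sdot (X.obj m)).map f)).app n
          (((DK k).map ((Sd.map (X.map f)).app n)).app n x)) =
      ((DK k).obj ((X.obj m).S (Fin (m + 1)))).map f
        (((DK k).map ((Sd.map (X.map f)).app n ≫ (sdot (X.obj m)).map f)).app n x)
    rw [(DK k).map_comp]
    rfl) fun {X Y} f => SGp.hom_ext fun n x => rfl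

/-- homotopy groups of isomorphic maps -/
theorem weq_congr {G H G' H' : SGp.{u}} {f : G ⟶ H} {f' : G' ⟶ H'} (a : G ≅ G') (b : H ≅ H')
    (h : f ≫ b.hom = a.hom ≫ f') : SGp.Weq f ↔ SGp.Weq f' := by
  have h1 : ∀ n x, SGp.PiMap b.hom n (SGp.PiMap f n x) = SGp.PiMap f' n (SGp.PiMap a.hom n x) :=
    fun n x => SGp.PiMap_sq h n x
  have ha : ∀ n, Bijective (SGp.PiMap a.hom n) := fun n => (SGp.PiEquiv a n).bijective
  have hb : ∀ n, Bijective (SGp.PiMap b.hom n) := fun n => (SGp.PiEquiv b n).bijective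
  constructor
  · intro hf n
    have h2 : SGp.PiMap f' n ∘ SGp.PiMap a.hom n = SGp.PiMap b.hom n ∘ SGp.PiMap f n :=
      funext fun x => (h1 n x).symm
    exact (Bijective.of_comp_iff _ (ha n)).1 (h2 ▸ (hb n).comp (hf n))
  · intro hf n
    have h2 : SGp.PiMap f' n ∘ SGp.PiMap a.hom n = SGp.PiMap b.hom n ∘ SGp.PiMap f n :=
      funext fun x => (h1 n x).symm
    exact (Bijective.of_comp_iff' (hb n) _).1 (h2 ▸ (hf n).comp (ha n))

theorem weq_natIso {C : Type*} [Category C] {Ψ Ψ' : C ⥤ SGp.{u}} (e : Ψ ≅ Ψ') {X Y : C}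
    (f : X ⟶ Y) : SGp.Weq (Ψ.map f) ↔ SGp.Weq (Ψ'.map f) :=
  weq_congr (e.app X) (e.app Y) (e.hom.naturality f)

theorem pi_natIso {C : Type*} [Category C] {Ψ Ψ' : C ⥤ SGp.{u}} (e : Ψ ≅ Ψ') {X Y : C}
    {f g : X ⟶ Y} (n : ℕ) (h : SGp.PiMap (Ψ'.map f) n = SGp.PiMap (Ψ'.map g) n) :
    SGp.PiMap (Ψ.map f) n = SGp.PiMap (Ψ.map g) n := by
  apply MonoidHom.ext
  intro x
  apply (SGp.PiEquiv (e.app Y) n).injective
  change SGp.PiMap (e.hom.app Y) n (SGp.PiMap (Ψ.map f) n x) =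
    SGp.PiMap (e.hom.app Y) n (SGp.PiMap (Ψ.map g) n x)
  rw [SGp.PiMap_sq (e.hom.naturality f) n x, SGp.PiMap_sq (e.hom.naturality g) n x, h]

/-- SPREAD, step -/
theorem weq_DKs_succ (k : ℕ) {X Y : SOb ExCat.{u}} (f : X ⟶ Y) :
    SGp.Weq ((DKs (k + 1)).map f) ↔ SGp.Weq ((DKs k).map (SD.map f)) := weq_natIso (sdIso k) f

theorem weq_DKs_const (k : ℕ) {E E' : ExCat.{u}} (f : E ⟶ E') :
    SGp.Weq ((DK k).map f) ↔ SGp.Weq ((DKs k).map (SOb.constF.map f)) :=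
  weq_natIso (extConst (DK k)) f

/-! ### K-groups -/

theorem Kmap_bij {E E' : ExCat.{u}} (f : E ⟶ E') (h : ∀ k, 1 ≤ k → SGp.Weq ((DK k).map f))
    (n : ℕ) : Bijective (Kmap n f) := h (n + 3) (by omega) (2 * n + 2 + 1)

theorem Ksmap_bij {X Y : SOb ExCat.{u}} (f : X ⟶ Y) (h : ∀ k, 1 ≤ k → SGp.Weq ((DKs k).map f))
    (n : ℕ) : Bijective (Ksmap n f) := h (n + 3) (by omega) (2 * n + 2 + 1)

/-- naturally isomorphic functors agree on K-groups -/
theorem Kmap_ni {E E' : ExCat.{u}} {F G : E ⟶ E'} (e : ExFun.F F ≅ ExFun.F G) (n : ℕ) :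
    Kmap n F = Kmap n G := by
  apply AddMonoidHom.ext
  intro x
  exact DFunLike.congr_fun (natPi thm_Htpy e (DK (n + 2)) (2 * n + 2 + 1)) x

/-- equivalences induce weak equivalences of the F-models -/
theorem DK_equiv {E E' : ExCat.{u}} (W : ExEquiv E E') (k : ℕ) (hk : 1 ≤ k) :
    SGp.Weq ((DK k).map (X := E) (Y := E') W.fwd) := by
  obtain ⟨k, rfl⟩ := Nat.exists_eq_add_of_le' hk
  exact equivWeq thm_Htpy W (DK k)

theorem Kmap_equiv {E E' : ExCat.{u}} (W : ExEquiv E E') (n : ℕ) :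
    Bijective (Kmap n (E := E) (E' := E') W.fwd) :=
  Kmap_bij _ (fun k hk => DK_equiv W k hk) n

/-- weak equivalences on the rows -/
theorem DKs_rows {X Y : SOb ExCat.{u}} (f : X ⟶ Y) (k : ℕ)
    (h : ∀ m, SGp.Weq ((DK k).map (f.app m))) : SGp.Weq ((DKs k).map f) :=
  all_RealW ((SOb.mapF (DK k)).map f) h

/-- levelwise equivalences -/
theorem DKs_equiv {X Y : SOb ExCat.{u}} (f : X ⟶ Y)
    (h : ∀ m, ∃ e : ExEquiv (X.obj m) (Y.obj m), e.fwd = f.app m) (k : ℕ) (hk : 1 ≤ k) :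
    SGp.Weq ((DKs k).map f) := by
  refine DKs_rows f k fun m => ?_
  obtain ⟨e, he⟩ := h m
  rw [← he]
  exact DK_equiv e k hk

theorem Ksmap_equiv {X Y : SOb ExCat.{u}} (f : X ⟶ Y)
    (h : ∀ m, ∃ e : ExEquiv (X.obj m) (Y.obj m), e.fwd = f.app m) (n : ℕ) :
    Bijective (Ksmap n f) := Ksmap_bij f (fun k hk => DKs_equiv f h k hk) n

/-- simplicially naturally isomorphic maps agree on K-groups -/
theorem Ksmap_ni {X Y : SOb ExCat.{u}} {f g : X ⟶ Y}
    (e : ∀ m, ExFun.F (f.app m) ≅ ExFun.F (g.app m))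
    (he : ∀ {m n : ℕ} (θ : Mo m n) (x : (X.obj n).Ob),
      HEq ((e m).hom.app ((ExFun.F (X.map θ)).obj x)) ((ExFun.F (Y.map θ)).map ((e n).hom.app x)))
    (n : ℕ) : Ksmap n f = Ksmap n g := by
  apply AddMonoidHom.ext
  intro x
  exact DFunLike.congr_fun (pi_natIso (sdIso (n + 2)) (2 * n + 2 + 1)
    (natPiD thm_Htpy e he (DK (n + 2)) (2 * n + 2 + 1))) x

/-- SPREAD for K-groups -/
theorem Ksmap_spread (h : St_SPR.{u}) {X Y : SOb ExCat.{u}} (f : X ⟶ Y)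
    (hf : SSt.Strong (obS.map (SD.map f))) (n : ℕ) : Bijective (Ksmap n f) :=
  Ksmap_bij f (fun k hk => h f hf k hk) n

/-- SPREAD for the K-groups of exact categories -/
theorem Kmap_spread (h : St_SPR.{u}) {E E' : ExCat.{u}} (f : E ⟶ E')
    (hf : SSt.Strong (obS.map (Sd.map f))) (n : ℕ) : Bijective (Kmap n f) := by
  refine Kmap_bij f (fun k hk => ?_) n
  rw [weq_DKs_const]
  refine h _ ?_ k hk
  exact hf

end Pool.Agent.KQ
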