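import Pool.Agent.KQ.DEx2
import Pool.Agent.KQ.Ses2

/-!
# KQ: exact categories, more definitions

* maps of pairs: `ExFun.sub`, `ExFun.SX`, `relSF`, `relTF`;
* chains of monomorphisms with cokernel in `A`, of epimorphisms with kernel in `A`: `mono E A`,
  `epi E A`, the constant chains `cstM`, `cstE`, the comparison with `relS`, `relT`;
* `E.EE A B`: the conflations `a → e → b` with `a` in `A`, `b` in `B`.
-/

set_option autoImplicit false
set_option linter.unusedVariables false

noncomputable section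

namespace Pool.Agent.KQ

open CategoryTheory CategoryTheory.Limits
open scoped ZeroObject

universe u

/-! ### Maps of pairs -/

/-- `F` maps objects of `A` to objects of `A'` -/
def ExFun.Maps {E E' : ExCat.{u}} (F : ExFun E E') (A : SubP E) (A' : SubP E') : Prop :=
  ∀ X : E.Ob, A.P X.obj → A'.P (F.F.obj X).obj

theorem ExFun.maps_top {E E' : ExCat.{u}} (F : ExFun E E') (A : SubP E) :
    F.Maps A (SubP.top E') := fun X _ => (F.F.obj X).property

/-- the functor of the subcategories -/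
def ExFun.sub {E E' : ExCat.{u}} (F : ExFun E E') {A : SubP E} {A' : SubP E'}
    (h : F.Maps A A') : ExFun (E.sub A) (E'.sub A') where
  F :=
    { obj := fun X => ⟨(F.F.obj ⟨X.obj, A.le _ X.property⟩).obj, h _ X.property⟩
      map := fun {X Y} f => ObjectProperty.homMk (F.F.map (X := ⟨X.obj, A.le _ X.property⟩)
        (Y := ⟨Y.obj, A.le _ Y.property⟩) (ObjectProperty.homMk f.hom)).hom
      map_id := fun X => by
        apply ObjectProperty.hom_ext
        have h1 := congrArg InducedCategory.Hom.hom (F.F.map_id ⟨X.obj, A.le _ X.property⟩)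
        exact h1
      map_comp := fun {X Y Z} f g => by
        apply ObjectProperty.hom_ext
        have h1 := congrArg InducedCategory.Hom.hom (F.F.map_comp
          (X := ⟨X.obj, A.le _ X.property⟩) (Y := ⟨Y.obj, A.le _ Y.property⟩)
          (Z := ⟨Z.obj, A.le _ Z.property⟩) (ObjectProperty.homMk f.hom)
          (ObjectProperty.homMk g.hom))
        exact h1 }
  add {X Y} f g := by
    apply ObjectProperty.hom_ext
    have h1 := congrArg InducedCategory.Hom.hom (F.add (X := ⟨X.obj, A.le _ X.property⟩)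
      (Y := ⟨Y.obj, A.le _ Y.property⟩) (ObjectProperty.homMk f.hom) (ObjectProperty.homMk g.hom))
    exact h1
  exact {X Y Z} f g h := F.exact (X := ⟨X.obj, A.le _ X.property⟩)
    (Y := ⟨Y.obj, A.le _ Y.property⟩) (Z := ⟨Z.obj, A.le _ Z.property⟩)
    (ObjectProperty.homMk f.hom) (ObjectProperty.homMk g.hom) h

/-- an exact functor on the S-diagrams with conditions -/
def ExFun.SX {E E' : ExCat.{u}} (F : ExFun E E') (I : Type) [Preorder I] (A : Ar I → SubP E)
    (A' : Ar I → SubP E') (h : ∀ x, F.Maps (A x) (A' x)) : ExFun (E.SX I A) (E'.SX I A') :=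
  F.diag (Ar I) (E.SA I A) (E'.SA I A') fun D hD => ⟨⟨fun x => (F.F.obj _).property,
    fun i => F.isZero (X := (E.lift D hD.1.1).obj (ar i i le_rfl)) (hD.1.2.1 i),
    fun i j k hij hjk => F.exact (X := (E.lift D hD.1.1).obj (ar i j hij))
        (Y := (E.lift D hD.1.1).obj (ar i k (hij.trans hjk)))
        (Z := (E.lift D hD.1.1).obj (ar j k hjk)) ((E.lift D hD.1.1).map _)
        ((E.lift D hD.1.1).map _) (hD.1.2.2 i j k hij hjk)⟩,
    fun x => h x ((E.lift D hD.1.1).obj x) (hD.2 x)⟩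

theorem condS_maps {E E' : ExCat.{u}} {F : ExFun E E'} {A : SubP E} {A' : SubP E'}
    (h : F.Maps A A') {I : Type} [Preorder I] (x : Ar (WithBot I)) :
    F.Maps (condS A I x) (condS A' I x) := by
  obtain ⟨⟨i, j⟩, h'⟩ := x
  cases i
  · exact F.maps_top _
  · exact h

theorem condT_maps {E E' : ExCat.{u}} {F : ExFun E E'} {A : SubP E} {A' : SubP E'}
    (h : F.Maps A A') {I : Type} [Preorder I] (x : Ar (WithTop I)) :
    F.Maps (condT A I x) (condT A' I x) := by
  obtain ⟨⟨i, j⟩, h'⟩ := x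
  cases j
  · exact F.maps_top _
  · exact h

/-- a map of pairs on `relS` -/
def relSF {E E' : ExCat.{u}} (F : ExFun E E') {A : SubP E} {A' : SubP E'} (h : F.Maps A A') :
    relS E A ⟶ relS E' A' :=
  ⟨fun m => F.SX _ (condS A _) (condS A' _) (condS_maps h), fun _ => rfl⟩

/-- a map of pairs on `relT` -/
def relTF {E E' : ExCat.{u}} (F : ExFun E E') {A : SubP E} {A' : SubP E'} (h : F.Maps A A') :
    relT E A ⟶ relT E' A' :=
  ⟨fun m => F.SX _ (condT A _) (condT A' _) (condT_maps h), fun _ => rfl⟩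

theorem relSF_relSr {E E' : ExCat.{u}} (F : ExFun E E') {A : SubP E} {A' : SubP E'}
    (h : F.Maps A A') : relSF F h ≫ relSr E' A' = relSr E A ≫ Sd.map (F.sub h) := rfl

theorem relTF_relTr {E E' : ExCat.{u}} (F : ExFun E E') {A : SubP E} {A' : SubP E'}
    (h : F.Maps A A') : relTF F h ≫ relTr E' A' = relTr E A ≫ Sd.map (F.sub h) := rfl

/-! ### Chains -/

/-- chains of monomorphisms with cokernel in `A` -/
def ExCat.monoP (E : ExCat.{u}) (A : SubP E) (I : Type) [Preorder I] : DProp E I where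
  Q := fun D => (∀ i, E.P (D.obj i)) ∧ ∀ (i j : I) (h : i ≤ j), ∃ (Z : E.C) (g : D.obj j ⟶ Z),
    A.P Z ∧ SES (D.map (homOfLE h)) g
  pt := fun _ h => h.1
  iso := fun {D D'} e h => ⟨fun x => E.iso (e.app x) (h.1 x), fun i j hij => by
    obtain ⟨Z, g, hZ, hg⟩ := h.2 i j hij
    refine ⟨Z, (e.app j).inv ≫ g, hZ, ses_of_iso hg (e.app i) (e.app j) (Iso.refl Z)
      (e.hom.naturality _).symm ?_⟩
    simp⟩
  zero := fun D h => ⟨fun x => E.zero _ (h x), fun i j hij => ⟨D.obj j, 𝟙 _, A.zero _ (h j),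
    ses_of_isZero _ _ (h _) (h _) (h _)⟩⟩
  ext := fun {X Y Z} f g h hX hZ => by
    refine ⟨fun x => E.ext _ _ (h x) (hX.1 x) (hZ.1 x), fun i j hij => ?_⟩
    obtain ⟨U, u, hU, hu⟩ := hX.2 i j hij
    obtain ⟨W, w, hW, hw⟩ := hZ.2 i j hij
    have := hu.mono
    have := hw.mono
    have hm : Mono (Y.map (homOfLE hij)) := mono_mid (h i) (h j) (X.map (homOfLE hij)) _
      (Z.map (homOfLE hij)) (f.naturality _).symm (g.naturality _).symm
    have s := ses_cokernel (Y.map (homOfLE hij))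
    obtain ⟨a, ha⟩ := hu.desc (f.app j ≫ cokernel.π (Y.map (homOfLE hij))) (by
      rw [← Category.assoc, f.naturality, Category.assoc, s.w, comp_zero])
    obtain ⟨b, hb⟩ := s.desc (g.app j ≫ w) (by
      rw [← Category.assoc, g.naturality, Category.assoc, hw.w, comp_zero])
    refine ⟨_, _, A.ext a b ?_ hU hW, s⟩
    exact nine_bot (h i) (h j) hu s hw (f.naturality _) ha (g.naturality _) hb

/-- chains of epimorphisms with kernel in `A` -/
def ExCat.epiP (E : ExCat.{u}) (A : SubP E) (I : Type) [Preorder I] : DProp E I where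
  Q := fun D => (∀ i, E.P (D.obj i)) ∧ ∀ (i j : I) (h : i ≤ j), ∃ (Z : E.C) (g : Z ⟶ D.obj i),
    A.P Z ∧ SES g (D.map (homOfLE h))
  pt := fun _ h => h.1
  iso := fun {D D'} e h => ⟨fun x => E.iso (e.app x) (h.1 x), fun i j hij => by
    obtain ⟨Z, g, hZ, hg⟩ := h.2 i j hij
    refine ⟨Z, g ≫ (e.app i).hom, hZ, ses_of_iso hg (Iso.refl Z) (e.app i) (e.app j) ?_
      (e.hom.naturality _).symm⟩
    simp⟩
  zero := fun D h => ⟨fun x => E.zero _ (h x), fun i j hij => ⟨D.obj i, 𝟙 _, A.zero _ (h i),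
    ses_of_isZero _ _ (h _) (h _) (h _)⟩⟩
  ext := fun {X Y Z} f g h hX hZ => by
    refine ⟨fun x => E.ext _ _ (h x) (hX.1 x) (hZ.1 x), fun i j hij => ?_⟩
    obtain ⟨U, u, hU, hu⟩ := hX.2 i j hij
    obtain ⟨W, w, hW, hw⟩ := hZ.2 i j hij
    have := hu.epi
    have := hw.epi
    have hm : Epi (Y.map (homOfLE hij)) := epi_mid (h i) (h j) (X.map (homOfLE hij)) _
      (Z.map (homOfLE hij)) (f.naturality _).symm (g.naturality _).symm
    have s := ses_kernel (Y.map (homOfLE hij))
    obtain ⟨a, ha⟩ := s.lift (u ≫ f.app i) (by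
      rw [Category.assoc, ← f.naturality, ← Category.assoc, hu.w, zero_comp])
    obtain ⟨b, hb⟩ := hw.lift (kernel.ι (Y.map (homOfLE hij)) ≫ g.app i) (by
      rw [Category.assoc, ← g.naturality, ← Category.assoc, s.w, zero_comp])
    refine ⟨_, _, A.ext a b ?_ hU hW, s⟩
    exact nine_top (h i) (h j) hu s hw ha.symm (f.naturality _) hb.symm (g.naturality _)

/-- the exact category of the chains of monomorphisms with cokernel in `A` -/
def ExCat.mono (E : ExCat.{u}) (A : SubP E) (I : Type) [Preorder I] : ExCat.{u} :=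
  E.diag I (E.monoP A I)

/-- the exact category of the chains of epimorphisms with kernel in `A` -/
def ExCat.epi (E : ExCat.{u}) (A : SubP E) (I : Type) [Preorder I] : ExCat.{u} :=
  E.diag I (E.epiP A I)

/-- operators -/
def ExCat.monomap (E : ExCat.{u}) (A : SubP E) {I J : Type} [Preorder I] [Preorder J]
    (f : I →o J) : ExFun (E.mono A J) (E.mono A I) :=
  E.pre (E.monoP A I) (E.monoP A J) f fun _ h => ⟨fun i => h.1 _, fun i j hij =>
    h.2 (f i) (f j) (f.monotone hij)⟩

/-- operators -/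
def ExCat.epimap (E : ExCat.{u}) (A : SubP E) {I J : Type} [Preorder I] [Preorder J]
    (f : I →o J) : ExFun (E.epi A J) (E.epi A I) :=
  E.pre (E.epiP A I) (E.epiP A J) f fun _ h => ⟨fun i => h.1 _, fun i j hij =>
    h.2 (f i) (f j) (f.monotone hij)⟩

/-- the simplicial exact category of the chains of monomorphisms with cokernel in `A` -/
def mono (E : ExCat.{u}) (A : SubP E) : SOb ExCat.{u} :=
  ⟨fun m => E.mono A (Fin (m + 1)), fun f => E.monomap A f, fun _ => rfl, fun _ _ => rfl⟩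

/-- the simplicial exact category of the chains of epimorphisms with kernel in `A` -/
def epi (E : ExCat.{u}) (A : SubP E) : SOb ExCat.{u} :=
  ⟨fun m => E.epi A (Fin (m + 1)), fun f => E.epimap A f, fun _ => rfl, fun _ _ => rfl⟩

/-- an exact functor on the chains -/
def ExFun.mono {E E' : ExCat.{u}} (F : ExFun E E') {A : SubP E} {A' : SubP E'}
    (h : F.Maps A A') (I : Type) [Preorder I] : ExFun (E.mono A I) (E'.mono A' I) :=
  F.diag I (E.monoP A I) (E'.monoP A' I) fun D hD => ⟨fun x => (F.F.obj _).property,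
    fun i j hij => by
      obtain ⟨Z, g, hZ, hg⟩ := hD.2 i j hij
      exact ⟨_, (F.F.map (X := (E.lift D hD.1).obj j) (Y := ⟨Z, A.le _ hZ⟩)
        (ObjectProperty.homMk g)).hom, h ⟨Z, A.le _ hZ⟩ hZ, F.exact
        (X := (E.lift D hD.1).obj i) (Y := (E.lift D hD.1).obj j) (Z := ⟨Z, A.le _ hZ⟩)
        ((E.lift D hD.1).map (homOfLE hij)) (ObjectProperty.homMk g) hg⟩⟩

/-- an exact functor on the chains -/
def ExFun.epi {E E' : ExCat.{u}} (F : ExFun E E') {A : SubP E} {A' : SubP E'}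
    (h : F.Maps A A') (I : Type) [Preorder I] : ExFun (E.epi A I) (E'.epi A' I) :=
  F.diag I (E.epiP A I) (E'.epiP A' I) fun D hD => ⟨fun x => (F.F.obj _).property,
    fun i j hij => by
      obtain ⟨Z, g, hZ, hg⟩ := hD.2 i j hij
      exact ⟨_, (F.F.map (X := ⟨Z, A.le _ hZ⟩) (Y := (E.lift D hD.1).obj i)
        (ObjectProperty.homMk g)).hom, h ⟨Z, A.le _ hZ⟩ hZ, F.exact
        (X := ⟨Z, A.le _ hZ⟩) (Y := (E.lift D hD.1).obj i) (Z := (E.lift D hD.1).obj j)
        (ObjectProperty.homMk g) ((E.lift D hD.1).map (homOfLE hij)) hg⟩⟩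

/-- a map of pairs on `mono` -/
def monoF {E E' : ExCat.{u}} (F : ExFun E E') {A : SubP E} {A' : SubP E'} (h : F.Maps A A') :
    mono E A ⟶ mono E' A' := ⟨fun m => F.mono h _, fun _ => rfl⟩

/-- a map of pairs on `epi` -/
def epiF {E E' : ExCat.{u}} (F : ExFun E E') {A : SubP E} {A' : SubP E'} (h : F.Maps A A') :
    epi E A ⟶ epi E' A' := ⟨fun m => F.epi h _, fun _ => rfl⟩

/-- constant chains -/
def ExCat.cstM (E : ExCat.{u}) (A : SubP E) (I : Type) [Preorder I] : ExFun E (E.mono A I) where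
  F :=
    { obj := fun X => ⟨(Functor.const I).obj X.obj, fun _ => X.property, fun i j h =>
        ⟨0, 0, A.zero _ (isZero_zero _), ses_id_left (𝟙 X.obj) (isZero_zero _) _⟩⟩
      map := fun f => ObjectProperty.homMk ((Functor.const I).map f.hom)
      map_id := fun _ => rfl
      map_comp := fun _ _ => rfl }
  add _ _ := rfl
  exact {X Y Z} f g hc := (ses_functor _ _).2 fun j => hc

/-- constant chains -/
def ExCat.cstE (E : ExCat.{u}) (A : SubP E) (I : Type) [Preorder I] : ExFun E (E.epi A I) where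
  F :=
    { obj := fun X => ⟨(Functor.const I).obj X.obj, fun _ => X.property, fun i j h =>
        ⟨0, 0, A.zero _ (isZero_zero _), ses_id_right (𝟙 X.obj) (isZero_zero _) _⟩⟩
      map := fun f => ObjectProperty.homMk ((Functor.const I).map f.hom)
      map_id := fun _ => rfl
      map_comp := fun _ _ => rfl }
  add _ _ := rfl
  exact {X Y Z} f g hc := (ses_functor _ _).2 fun j => hc

/-- constant chains -/
def cstM (E : ExCat.{u}) (A : SubP E) : SOb.const E ⟶ mono E A :=
  ⟨fun m => E.cstM A (Fin (m + 1)), fun _ => rfl⟩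

/-- constant chains -/
def cstE (E : ExCat.{u}) (A : SubP E) : SOb.const E ⟶ epi E A :=
  ⟨fun m => E.cstE A (Fin (m + 1)), fun _ => rfl⟩

/-- `i ↦ (⊥, i)` -/
def arB (I : Type) [Preorder I] : I →o Ar (WithBot I) :=
  ⟨fun i => ar ⊥ (i : WithBot I) bot_le, fun _ _ h => ⟨le_rfl, WithBot.coe_le_coe.2 h⟩⟩

/-- `i ↦ (i, ⊤)` -/
def arT (I : Type) [Preorder I] : I →o Ar (WithTop I) :=
  ⟨fun i => ar (i : WithTop I) ⊤ le_top, fun _ _ h => ⟨WithTop.coe_le_coe.2 h, le_rfl⟩⟩

/-- from `relS` to the chains of monomorphisms -/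
def ExCat.relSm (E : ExCat.{u}) (A : SubP E) (I : Type) [Preorder I] :
    ExFun (E.relS A I) (E.mono A I) :=
  E.pre (E.monoP A I) (E.SA (WithBot I) (condS A I)) (arB I) fun D hD =>
    ⟨fun i => hD.1.1 _, fun i j h => ⟨_, _, hD.2 (ar (i : WithBot I) (j : WithBot I)
      (WithBot.coe_le_coe.2 h)), hD.1.2.2 ⊥ (i : WithBot I) (j : WithBot I) bot_le
      (WithBot.coe_le_coe.2 h)⟩⟩

/-- from `relT` to the chains of epimorphisms -/
def ExCat.relTe (E : ExCat.{u}) (A : SubP E) (I : Type) [Preorder I] :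
    ExFun (E.relT A I) (E.epi A I) :=
  E.pre (E.epiP A I) (E.SA (WithTop I) (condT A I)) (arT I) fun D hD =>
    ⟨fun i => hD.1.1 _, fun i j h => ⟨_, _, hD.2 (ar (i : WithTop I) (j : WithTop I)
      (WithTop.coe_le_coe.2 h)), hD.1.2.2 (i : WithTop I) (j : WithTop I) ⊤
      (WithTop.coe_le_coe.2 h) le_top⟩⟩

/-- from `relS` to the chains of monomorphisms -/
def relSm (E : ExCat.{u}) (A : SubP E) : relS E A ⟶ mono E A :=
  ⟨fun m => E.relSm A (Fin (m + 1)), fun _ => rfl⟩

/-- from `relT` to the chains of epimorphisms -/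
def relTe (E : ExCat.{u}) (A : SubP E) : relT E A ⟶ epi E A :=
  ⟨fun m => E.relTe A (Fin (m + 1)), fun _ => rfl⟩

theorem relSF_relSm {E E' : ExCat.{u}} (F : ExFun E E') {A : SubP E} {A' : SubP E'}
    (h : F.Maps A A') : relSF F h ≫ relSm E' A' = relSm E A ≫ monoF F h := rfl

theorem relTF_relTe {E E' : ExCat.{u}} (F : ExFun E E') {A : SubP E} {A' : SubP E'}
    (h : F.Maps A A') : relTF F h ≫ relTe E' A' = relTe E A ≫ epiF F h := rfl

end Pool.Agent.KQ
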