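import Pool.Agent.KQ.DKn
import Pool.Agent.KQ.DEx3

/-!
# KQ: the long exact sequence of a subcategory: final form (architect helper33)
-/

set_option autoImplicit false
set_option linter.unusedVariables false

noncomputable section

namespace Pool.Agent.KQ

open CategoryTheory CategoryTheory.Limits Function

universe u

/-- `⋯ → K_(n+1) E → K_(n+1) (R E A) → K_n A → K_n E → ⋯ → K_0 E → K_0 (R E A) → 0` is exact, natural
for exact functors of pairs; here `R E A` is a simplicial exact category with a map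
`c E A : E → R E A`, natural in the pair `(E, A)`. -/
structure IsLES (R : ∀ (E : ExCat.{u}), SubP E → SOb ExCat.{u})
    (c : ∀ (E : ExCat.{u}) (A : SubP E), SOb.const E ⟶ R E A)
    (RF : ∀ {E E' : ExCat.{u}} (F : ExFun E E') {A : SubP E} {A' : SubP E'}, F.Maps A A' →
      (R E A ⟶ R E' A'))
    (bd : ∀ (E : ExCat.{u}) (A : SubP E) (n : ℕ), Ks (n + 1) (R E A) →+ Kn n (E.sub A)) :
    Prop where
  exR : ∀ (E : ExCat.{u}) (A : SubP E) (n : ℕ) (x : Ks (n + 1) (R E A)),
    bd E A n x = 0 ↔ ∃ y : Kn (n + 1) E, Kc (n + 1) (c E A) y = x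
  exE : ∀ (E : ExCat.{u}) (A : SubP E) (n : ℕ) (y : Kn n E),
    Kc n (c E A) y = 0 ↔ ∃ z : Kn n (E.sub A), Kmap n (E := E.sub A) (E' := E) (E.incl' A) z = y
  exA : ∀ (E : ExCat.{u}) (A : SubP E) (n : ℕ) (z : Kn n (E.sub A)),
    Kmap n (E := E.sub A) (E' := E) (E.incl' A) z = 0 ↔ ∃ x, bd E A n x = z
  onto : ∀ (E : ExCat.{u}) (A : SubP E), Surjective (Kc 0 (c E A))
  nat : ∀ {E E' : ExCat.{u}} (F : ExFun E E') {A : SubP E} {A' : SubP E'} (h : F.Maps A A')
    (n : ℕ) (x : Ks (n + 1) (R E A)), bd E' A' n (Ksmap (n + 1) (RF F h) x) =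
      Kmap n (E := E.sub A) (E' := E'.sub A') (F.sub h) (bd E A n x)

/-- the long exact sequence for chains of monomorphisms with cokernel in `A` -/
def St_LESM : Prop := ∃ bd, IsLES.{u} mono cstM monoF bd

/-- the long exact sequence for chains of epimorphisms with kernel in `A` -/
def St_LESE : Prop := ∃ bd, IsLES.{u} epi cstE epiF bd

end Pool.Agent.KQ
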