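import Pool.Agent.KQ.KnD
import Pool.Agent.KQ.SPR2
import Pool.Agent.KQ.ExA
import Pool.Agent.KQ.StLES

/-!
# KQ: the long exact sequences for chains of monomorphisms, epimorphisms (architect helper33)
-/

set_option autoImplicit false
set_option linter.unusedVariables false

noncomputable section

namespace Pool.Agent.KQ

open CategoryTheory CategoryTheory.Limits Function

universe u

/-- the pull-back of a diagram along a constant map is constant -/
theorem cst_pull {K J : Type} [Preorder K] [Preorder J] {C : Type (u + 1)} [Category.{u} C]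
    (φ : K →o J) (j : J) (h : ∀ i, φ i = j) (D : J ⥤ C) :
    φ.monotone.functor ⋙ D = (Functor.const K).obj (D.obj j) :=
  CategoryTheory.Functor.ext (fun i => congrArg D.obj (h i)) fun i i' f => by
    change D.map (φ.monotone.functor.map f) = _
    rw [Subsingleton.elim (φ.monotone.functor.map f) (eqToHom ((h i).trans (h i').symm)),
      eqToHom_map]
    simp

theorem full_ext {C : Type (u + 1)} [Category.{u} C] {P : ObjectProperty C}
    {X X' : P.FullSubcategory} (h : X.obj = X'.obj) : X = X' := by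
  cases X
  cases X'
  cases h
  rfl

/-- `S_1 E → relS → mono` is evaluation, then constant chains -/
theorem relSj_relSm (E : ExCat.{u}) (A : SubP E) :
    relSj E A ≫ relSm E A = SOb.constF.map (show (E.S (Fin 2) : ExCat.{u}) ⟶ E from E.ev1) ≫
      cstM E A := by
  apply SOb.hom_ext
  intro m
  apply ExFun.ext'
  have h : ∀ i, (Ar.map (cB (Fin (m + 1)))).comp (arB (Fin (m + 1))) i =
      ar (0 : Fin 2) 1 (by decide) := fun i => rfl
  refine CategoryTheory.Functor.hext (fun D => ?_) fun D D' τ => ?_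
  · exact full_ext (cst_pull _ _ h D.obj)
  · refine full_heq (full_ext (cst_pull _ _ h D.obj)) (full_ext (cst_pull _ _ h D'.obj)) _ _ ?_
    exact nt_heq (cst_pull _ _ h D.obj) (cst_pull _ _ h D'.obj) _ _ fun q => HEq.rfl

/-- `S_1 E → relT → epi` is evaluation, then constant chains -/
theorem relTj_relTe (E : ExCat.{u}) (A : SubP E) :
    relTj E A ≫ relTe E A = SOb.constF.map (show (E.S (Fin 2) : ExCat.{u}) ⟶ E from E.ev1) ≫
      cstE E A := by
  apply SOb.hom_ext
  intro m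
  apply ExFun.ext'
  have h : ∀ i, (Ar.map (cT (Fin (m + 1)))).comp (arT (Fin (m + 1))) i =
      ar (0 : Fin 2) 1 (by decide) := fun i => rfl
  refine CategoryTheory.Functor.hext (fun D => ?_) fun D D' τ => ?_
  · exact full_ext (cst_pull _ _ h D.obj)
  · refine full_heq (full_ext (cst_pull _ _ h D.obj)) (full_ext (cst_pull _ _ h D'.obj)) _ _ ?_
    exact nt_heq (cst_pull _ _ h D.obj) (cst_pull _ _ h D'.obj) _ _ fun q => HEq.rfl

namespace RelC

variable (T : RelC.{u})

/-- `Kj` in terms of `S_1 E` -/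
theorem Kj_ev (n : ℕ) (E : ExCat.{u}) (A : SubP E) (y : Kn n (E.S (Fin 2))) :
    T.Kj n E A (Kmap n (E := E.S (Fin 2)) (E' := E) E.ev1 y) = Kc n (T.j E A) y := by
  have h1 : T.evE E (n + 3) (by omega) (2 * n + 2 + 1)
      (SGp.PiEquiv (cstK (n + 3) (E.S (Fin 2))) (2 * n + 2 + 1) (Additive.toMul y)) =
      SGp.PiMap ((DK (n + 3)).map (X := E.S (Fin 2)) (Y := E) E.ev1) (2 * n + 2 + 1)
        (Additive.toMul y) := by
    change SGp.PiMap _ _ ((SGp.PiEquiv (cstK (n + 3) (E.S (Fin 2))) (2 * n + 2 + 1)).symm _) = _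
    rw [MulEquiv.symm_apply_apply]
  change SGp.PiMap ((DKs (n + 3)).map (T.j E A)) (2 * n + 2 + 1)
    ((T.evE E (n + 3) (by omega) (2 * n + 2 + 1)).symm (SGp.PiMap ((DK (n + 3)).map
      (X := E.S (Fin 2)) (Y := E) E.ev1) (2 * n + 2 + 1) (Additive.toMul y))) = _
  rw [← h1, MulEquiv.symm_apply_apply]
  rfl

end RelC

/-- the passage to another relative construction -/
theorem les_of_relC (T : RelC.{u}) (R : ∀ (E : ExCat.{u}), SubP E → SOb ExCat.{u})
    (c : ∀ (E : ExCat.{u}) (A : SubP E), SOb.const E ⟶ R E A)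
    (RF : ∀ {E E' : ExCat.{u}} (F : ExFun E E') {A : SubP E} {A' : SubP E'}, F.Maps A A' →
      (R E A ⟶ R E' A'))
    (t : ∀ (E : ExCat.{u}) (A : SubP E), T.R E A ⟶ R E A)
    (ht : ∀ (E : ExCat.{u}) (A : SubP E) (n : ℕ), Bijective (Ksmap n (t E A)))
    (htj : ∀ (E : ExCat.{u}) (A : SubP E), T.j E A ≫ t E A =
      SOb.constF.map (show (E.S (Fin 2) : ExCat.{u}) ⟶ E from E.ev1) ≫ c E A)
    (htn : ∀ {E E' : ExCat.{u}} (F : ExFun E E') {A : SubP E} {A' : SubP E'} (h : F.Maps A A'),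
      T.RF F h ≫ t E' A' = t E A ≫ RF F h)
    (hZ : ∀ (E : ExCat.{u}) (x : ((DK 4).obj E).Pi 3), x = 1) : ∃ bd, IsLES.{u} R c RF bd := by
  let Φ : ∀ (E : ExCat.{u}) (A : SubP E) (n : ℕ), Ks n (T.R E A) ≃+ Ks n (R E A) :=
    fun E A n => AddEquiv.ofBijective (Ksmap n (t E A)) (ht E A n)
  have hΦ : ∀ (E : ExCat.{u}) (A : SubP E) (n : ℕ) (y : Kn n E),
      Φ E A n (T.Kj n E A y) = Kc n (c E A) y := by
    intro E A n y
    obtain ⟨z, hz⟩ := (T.ev E (n + 3) (by omega) (2 * n + 2 + 1)).2 (Additive.toMul y)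
    have hz' : Kmap n (E := E.S (Fin 2)) (E' := E) E.ev1 (Additive.ofMul z) = y :=
      congrArg Additive.ofMul hz
    rw [← hz', T.Kj_ev]
    change Ksmap n (t E A) (Ksmap n (T.j E A) (KnEquiv n _ (Additive.ofMul z))) =
      Ksmap n (c E A) (KnEquiv n E (Kmap n (E := E.S (Fin 2)) (E' := E) E.ev1 (Additive.ofMul z)))
    refine (Ksmap_comp n _ _ _).symm.trans ((congrArg (fun f => Ksmap n f
      (KnEquiv n (E.S (Fin 2)) (Additive.ofMul z))) (htj E A)).trans
      ((Ksmap_comp n (SOb.constF.map (show (E.S (Fin 2) : ExCat.{u}) ⟶ E from E.ev1)) (c E A)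
        _).trans ?_))
    exact congrArg (Ksmap n (c E A)) (KnEquiv_nat n (E := E.S (Fin 2)) (E' := E) E.ev1 _).symm
  have hj : ∀ (E : ExCat.{u}) (A : SubP E) (n : ℕ) (x : Ks n (R E A)) (y : Kn n E),
      T.Kj n E A y = (Φ E A n).symm x ↔ Kc n (c E A) y = x := by
    intro E A n x y
    rw [AddEquiv.eq_symm_apply, hΦ]
  refine ⟨fun E A n => (T.Kbd n E A).comp (Φ E A (n + 1)).symm.toAddMonoidHom, ?_⟩
  constructor
  · intro E A n x
    refine (T.exR n E A ((Φ E A (n + 1)).symm x)).trans ?_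
    exact exists_congr fun y => hj E A (n + 1) x y
  · intro E A n y
    rw [← T.exE n E A y, ← hΦ, map_eq_zero_iff (Φ E A n) (Φ E A n).injective]
  · intro E A n z
    refine (T.exA n E A z).trans ⟨?_, ?_⟩
    · rintro ⟨y, hy⟩
      refine ⟨Φ E A (n + 1) y, ?_⟩
      change T.Kbd n E A ((Φ E A (n + 1)).symm (Φ E A (n + 1) y)) = z
      rw [AddEquiv.symm_apply_apply, hy]
    · rintro ⟨x, hx⟩
      exact ⟨_, hx⟩
  · intro E A x
    obtain ⟨y, hy⟩ := T.onto hZ E A ((Φ E A 0).symm x)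
    exact ⟨y, (hj E A 0 x y).1 hy⟩
  · intro E E' F A A' h n x
    obtain ⟨y, rfl⟩ := (Φ E A (n + 1)).surjective x
    change T.Kbd n E' A' ((Φ E' A' (n + 1)).symm (Ksmap (n + 1) (RF F h) (Ksmap (n + 1) (t E A) y))) =
      Kmap n (E := E.sub A) (E' := E'.sub A') (F.sub h)
        (T.Kbd n E A ((Φ E A (n + 1)).symm (Φ E A (n + 1) y)))
    rw [AddEquiv.symm_apply_apply, ← Ksmap_comp, ← htn F h, Ksmap_comp]
    change T.Kbd n E' A' ((Φ E' A' (n + 1)).symm (Φ E' A' (n + 1) (Ksmap (n + 1) (T.RF F h) y))) = _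
    rw [AddEquiv.symm_apply_apply]
    exact T.Kbd_nat n F h y

/-- `π_3 (DK 4 E) = 1` -/
theorem pi3 (E : ExCat.{u}) (x : ((DK 4).obj E).Pi 3) : x = 1 :=
  (all_Low Sd ZcE SPR2.zc (obF ⋙ cF) (fun E hE n x => by
    have hs : Subsingleton ((obF.{u}.obj E).X) := by
      refine ⟨fun a b => ?_⟩
      induction a using Quot.ind
      induction b using Quot.ind
      exact Quot.sound ⟨hE _, hE _⟩
    have h1 : (MonoidHom.id (Fr (obF.{u}.obj E))) = 1 := Fr.hom_ext fun y => by
      rw [Subsingleton.elim y (obF.{u}.obj E).point]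
      exact Fr.of_point _
    exact DFunLike.congr_fun h1 x) 4 E).2 3 (by omega) x

theorem thm_LESM (hZ : St_Zero.{u}) (hE : St_Ev.{u}) (hCut : St_CutK.{u}) (hC : St_Con.{u})
    (hM : St_RelM.{u}) : St_LESM.{u} :=
  les_of_relC (relSC hZ hE hCut hC) mono cstM monoF relSm
    (fun E A n => Ksmap_equiv _ (fun m => (hM E A (Fin (m + 1))).1) n) relSj_relSm
    (fun F _ _ h => relSF_relSm F h) pi3

theorem thm_LESE (hZ : St_Zero.{u}) (hE : St_Ev.{u}) (hCut : St_CutK.{u}) (hC : St_Con.{u})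
    (hM : St_RelM.{u}) : St_LESE.{u} :=
  les_of_relC (relTC hZ hE hCut hC) epi cstE epiF relTe
    (fun E A n => Ksmap_equiv _ (fun m => (hM E A (Fin (m + 1))).2) n) relTj_relTe
    (fun F _ _ h => relTF_relTe F h) pi3

end Pool.Agent.KQ
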