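import Pool.Agent.KQ.DSA
import Pool.Agent.KQ.DEx3

/-!
# KQ: devissage, resolution, localization: data and chain categories

Architect helper94.
* `ExFun.obS F`: the map of simplicial sets `n ↦ ob S_n F`;
* `RadD P B`: a functorial quotient `η : K → σ K` (for example `K → K / I K`) which is a quotient in `B`;
* `DevD E E'`: the data for devissage, a full exact functor `E → E'` with image `B`;
* `ResH E A`: the hypotheses of the resolution theorem for `A : SubP E`;
* `LocD EB EC`: the data for localization, an exact functor `L` with a right adjoint `R`;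
* `LocD.A`: the subproperty of the objects killed by `L`;
* `ArP E`: properties of morphisms which define chain categories `ArP.ch`, `ArP.sx : SOb ExCat`:
  `LocD.WW` (morphisms in `EB.P` inverted by `L`), `isoW E` (isomorphisms);
* `LocD.toW : mono EB D.A ⟶ D.WW.sx`, `LocD.toIso : D.WW.sx ⟶ (isoW EC).sx`, `cstI`: constant chains;
* `biS`: the bisimplicial set `(l, n) ↦ ob S_n X_l` of a simplicial exact category.
-/

set_option autoImplicit false

noncomputable section

namespace Pool.Agent.KQ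

open CategoryTheory CategoryTheory.Limits
open scoped ZeroObject

universe u v

/-- the map of simplicial sets `n ↦ ob S_n F` -/
def ExFun.obS {E E' : ExCat.{u}} (F : ExFun E E') : SdS E.P ⟶ SdS E'.P :=
  ⟨fun n D => (F.S (Fin (n + 1))).F.obj D, fun _ _ => rfl⟩

theorem ExFun.obS_id (E : ExCat.{u}) : (ExFun.id E).obS = 𝟙 _ := rfl

theorem ExFun.obS_comp {E E' E'' : ExCat.{u}} (F : ExFun E E') (G : ExFun E' E'') :
    (F.comp G).obS = F.obS ≫ G.obS := rfl

theorem ExCat.obS_incl' (E : ExCat.{u}) (A : SubP E) : (E.incl' A).obS = SdS.incl A.le := rfl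

/-! ### devissage -/

section

variable {C : Type u} [Category.{v} C] [Abelian C]

/-- the kernel of `η` as a functor (`K ↦ I K`) -/
def radF {σ : C ⥤ C} (η : 𝟭 C ⟶ σ) : C ⥤ C where
  obj K := kernel (η.app K)
  map f := kernel.map (η.app _) (η.app _) f (σ.map f) (η.naturality f).symm
  map_id K := by
    rw [← cancel_mono (kernel.ι (η.app K))]
    simp
  map_comp {X Y Z} f g := by
    rw [← cancel_mono (kernel.ι (η.app Z))]
    simp

/-- the inclusion `r K → K` -/
def radι {σ : C ⥤ C} (η : 𝟭 C ⟶ σ) : radF η ⟶ 𝟭 C where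
  app K := kernel.ι (η.app K)
  naturality X Y f := by simp [radF]

/-- the iterated kernel `r^n K` (`I^n K`) -/
def radN {σ : C ⥤ C} (η : 𝟭 C ⟶ σ) : ℕ → (C ⥤ C)
  | 0 => 𝟭 C
  | n + 1 => radN η n ⋙ radF η

/-- Functorial quotients `η : K → σ K` in `B`, for `K` in `P`. -/
structure RadD (P B : ObjectProperty C) where
  σ : C ⥤ C
  η : 𝟭 C ⟶ σ
  epi : ∀ K, P K → Epi (η.app K)
  mem : ∀ K, P K → B (σ.obj K)
  map_epi : ∀ {K K' : C} (f : K ⟶ K'), P K → P K' → Epi f → Epi ((radF η).map f)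
  nil : ∀ K, P K → ∃ n : ℕ, IsZero ((radN η n).obj K)

/-- the closure properties for devissage -/
structure DevC (P B : ObjectProperty C) : Prop where
  isoP : IsoC P
  extP : ExtC P
  zerP : ZerC P
  subP : SubC P
  quoP : QuoC P
  le : ∀ X, B X → P X
  isoB : IsoC B
  zerB : ZerC B
  subB : SubC B
  quoB : QuoC B
  sumB : SumC B

end

/-- The data for devissage. -/
structure DevD (E E' : ExCat.{u}) where
  F : ExFun E E'
  full : ∀ {X Y : E.Ob} (g : F.F.obj X ⟶ F.F.obj Y), ∃ f : X ⟶ Y, F.F.map f = g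
  faithful : ∀ {X Y : E.Ob} (f f' : X ⟶ Y), F.F.map f = F.F.map f' → f = f'
  refl : ∀ {X Y Z : E.Ob} (f : X ⟶ Y) (g : Y ⟶ Z), E'.Conf (F.F.map f) (F.F.map g) → E.Conf f g
  B : ObjectProperty E'.C
  img : ∀ X, B X ↔ ∃ Y : E.Ob, Nonempty ((F.F.obj Y).obj ≅ X)
  cl : DevC E'.P B
  rad : RadD E'.P B

/-! ### resolution -/

/-- The hypotheses of the resolution theorem. -/
structure ResH {C : Type u} [Category.{v} C] [Abelian C] (P A : ObjectProperty C) : Prop where
  isoP : IsoC P
  extP : ExtC P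
  zerP : ZerC P
  le : ∀ X, A X → P X
  isoA : IsoC A
  extA : ExtC A
  zerA : ZerC A
  /-- closed under kernels of epimorphisms -/
  ker : ∀ {X Y Z : C} (f : X ⟶ Y) (g : Y ⟶ Z), SES f g → P X → A Y → A Z → A X
  /-- every object has a resolution of length one -/
  cov : ∀ M, P M → ∃ (P₁ P₀ : C) (f : P₁ ⟶ P₀) (g : P₀ ⟶ M), SES f g ∧ A P₁ ∧ A P₀

/-! ### localization -/

/-- The data for localization. -/
structure LocD (EB EC : ExCat.{u}) where
  L : EB.C ⥤ EC.C
  R : EC.C ⥤ EB.C
  adj : L ⊣ R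
  [add : L.Additive]
  [lim : PreservesFiniteLimits L]
  [counit : IsIso adj.counit]
  subB : SubC EB.P
  quoB : QuoC EB.P
  subC : SubC EC.P
  quoC : QuoC EC.P
  mapP : ∀ X, EB.P X → EC.P (L.obj X)
  lift : ∀ c, EC.P c → ∃ (b : EB.C) (m : b ⟶ R.obj c), Mono m ∧ EB.P b ∧
    IsIso (L.map m ≫ adj.counit.app c)
  ar : ∀ (b K : EB.C) (k : K ⟶ b), Mono k → EB.P b → IsZero (L.obj K) →
    ∃ (b' : EB.C) (m : b' ⟶ b), Mono m ∧ IsZero (L.obj (cokernel m)) ∧
      ∀ (T : EB.C) (x : T ⟶ K) (y : T ⟶ b'), x ≫ k = y ≫ m → x ≫ k = 0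

attribute [instance] LocD.add LocD.lim LocD.counit

section loc

variable {EB EC : ExCat.{u}} (D : LocD EB EC)

instance LocD.colim : PreservesColimits D.L := D.adj.leftAdjoint_preservesColimits

/-- `L` preserves short exact sequences -/
theorem LocD.ses {X Y Z : EB.C} {f : X ⟶ Y} {g : Y ⟶ Z} (h : SES f g) :
    SES (D.L.map f) (D.L.map g) := by
  obtain ⟨w, h⟩ := h
  exact ⟨_, h.map_of_exact D.L⟩

/-- `L` as an exact functor -/
def LocD.LF : ExFun EB EC := ExFun.ofFunctor D.L D.mapP fun _ _ _ _ _ h => D.ses h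

/-- the objects killed by `L` -/
def LocD.A : SubP EB where
  P := fun X => EB.P X ∧ IsZero (D.L.obj X)
  le := fun _ h => h.1
  iso := fun e h => ⟨EB.iso e h.1, h.2.of_iso (D.L.mapIso e).symm⟩
  zero := fun X h => ⟨EB.zero X h, D.L.map_isZero h⟩
  ext := fun f g h hX hZ => ⟨EB.ext f g h hX.1 hZ.1, (D.ses h).isZero_mid hX.2 hZ.2⟩

end loc

/-- Properties of morphisms `f : X ⟶ Y` of an exact category which define exact categories of chains -/
structure ArP (E : ExCat.{u}) where
  /-- the property -/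
  W : MorphismProperty E.C
  iso : ∀ {X Y X' Y' : E.C} (f : X ⟶ Y) (f' : X' ⟶ Y') (a : X ≅ X') (b : Y ≅ Y'),
    f ≫ b.hom = a.hom ≫ f' → W f → W f'
  zero : ∀ {X Y : E.C} (f : X ⟶ Y), IsZero X → IsZero Y → W f
  ext : ∀ {X X' X'' Y Y' Y'' : E.C} (i : X' ⟶ X) (p : X ⟶ X'') (j : Y' ⟶ Y) (q : Y ⟶ Y'')
    (f' : X' ⟶ Y') (f : X ⟶ Y) (f'' : X'' ⟶ Y''), SES i p → SES j q → i ≫ f = f' ≫ j →
    p ≫ f'' = f ≫ q → W f' → W f'' → W f

/-- the chains (functors on `J`) in `E` with all morphisms in `W` -/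
def ArP.Q {E : ExCat.{u}} (W : ArP E) (J : Type) [Preorder J] : DProp E J where
  Q := fun D => (∀ j, E.P (D.obj j)) ∧ ∀ {i j : J} (f : i ⟶ j), W.W (D.map f)
  pt := fun _ h => h.1
  iso := fun e h => ⟨fun j => E.iso (e.app j) (h.1 j), fun f =>
    W.iso _ _ (e.app _) (e.app _) (e.hom.naturality f) (h.2 f)⟩
  zero := fun D h => ⟨fun j => E.zero _ (h j), fun f => W.zero _ (h _) (h _)⟩
  ext := fun f g h hX hZ => ⟨fun j => E.ext _ _ (h j) (hX.1 j) (hZ.1 j), fun {i j} φ =>
    W.ext _ _ _ _ _ _ _ (h i) (h j) (f.naturality φ).symm (g.naturality φ).symm (hX.2 φ) (hZ.2 φ)⟩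

/-- the exact category of chains -/
def ArP.ch {E : ExCat.{u}} (W : ArP E) (J : Type) [Preorder J] : ExCat.{u} := E.diag J (W.Q J)

/-- the simplicial exact category of chains -/
def ArP.sx {E : ExCat.{u}} (W : ArP E) : SOb ExCat.{u} where
  obj := fun m => W.ch (Fin (m + 1))
  map := fun φ => E.pre (W.Q _) (W.Q _) φ fun _ h => ⟨fun _ => h.1 _, fun _ => h.2 _⟩
  map_id := fun _ => rfl
  map_comp := fun _ _ => rfl

/-- isomorphisms -/
def isoW (E : ExCat.{u}) : ArP E where
  W := fun _ _ f => IsIso f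
  iso := fun f f' a b h hf => by
    have h1 : f' = a.inv ≫ f ≫ b.hom := by rw [h, Iso.inv_hom_id_assoc]
    have h2 : IsIso f := hf
    rw [h1]
    infer_instance
  zero := fun f hX hY => ⟨0, hX.eq_of_src _ _, hY.eq_of_src _ _⟩
  ext := fun i p j q f' f f'' h h' e e' hf hf'' => by
    have h1 : IsIso f' := hf
    have h2 : IsIso f'' := hf''
    have h3 : Mono f := mono_mid h h' f' f f'' e e'
    have h4 : Epi f := epi_mid h h' f' f f'' e e'
    exact isIso_of_mono_of_epi f

/-- morphisms inverted by `L` -/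
def LocD.WW {EB EC : ExCat.{u}} (D : LocD EB EC) : ArP EB where
  W := fun _ _ f => IsIso (D.L.map f)
  iso := fun f f' a b h hf => (isoW EC).iso (D.L.map f) (D.L.map f') (D.L.mapIso a)
    (D.L.mapIso b) (by
      change D.L.map f ≫ D.L.map b.hom = D.L.map a.hom ≫ D.L.map f'
      rw [← D.L.map_comp, h, D.L.map_comp]) hf
  zero := fun f hX hY => (isoW EC).zero _ (D.L.map_isZero hX) (D.L.map_isZero hY)
  ext := fun i p j q f' f f'' h h' e e' hf hf'' =>
    (isoW EC).ext (D.L.map i) (D.L.map p) (D.L.map j) (D.L.map q) (D.L.map f') (D.L.map f)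
      (D.L.map f'') (D.ses h) (D.ses h') (by rw [← D.L.map_comp, e, D.L.map_comp])
      (by rw [← D.L.map_comp, e', D.L.map_comp]) hf hf''

/-! ### bisimplicial sets, maps of chain categories -/

/-- the simplicial set `n ↦ ob S_n E`, as a functor -/
def oSF : ExCat.{u} ⥤ SSt.{u + 1} where
  obj E := SdS E.P
  map F := ExFun.obS F

/-- the bisimplicial set `(l, n) ↦ ob S_n X_l` -/
def biS : SOb ExCat.{u} ⥤ SOb SSt.{u + 1} := SOb.mapF oSF

/-- its diagonal is `n ↦ ob S_n X_n` -/
theorem diag_biS {X Y : SOb ExCat.{u}} (F : X ⟶ Y) :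
    SSt.diagF.map (biS.map F) = obS.map (SD.map F) := rfl

/-- the map of chain categories given by an exact functor -/
def ArP.mapF {E E' : ExCat.{u}} (F : ExFun E E') (W : ArP E) (W' : ArP E')
    (h : ∀ {X Y : E.Ob} (f : X ⟶ Y), W.W f.hom → W'.W (F.F.map f).hom) : W.sx ⟶ W'.sx where
  app := fun m => F.diag (Fin (m + 1)) (W.Q _) (W'.Q _) fun D hD =>
    ⟨fun j => (F.F.obj _).property, fun f => h ((E.lift D hD.1).map f) (hD.2 f)⟩
  nat := fun _ => rfl

section loc2

variable {EB EC : ExCat.{u}} (D : LocD EB EC)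

theorem LocD.ses_inv {X Y Z : EB.C} {f : X ⟶ Y} {g : Y ⟶ Z} (hg : SES f g)
    (hZ : IsZero (D.L.obj Z)) : IsIso (D.L.map f) := by
  have h1 := D.ses hg
  have m : Mono (D.L.map f) := h1.mono
  have e : Epi (D.L.map f) := by
    rw [epi_iff_surjective_up_to_refinements]
    intro A y
    obtain ⟨x, hx⟩ := h1.lift y (hZ.eq_of_tgt _ _)
    exact ⟨A, 𝟙 A, inferInstance, x, by simpa using hx.symm⟩
  exact isIso_of_mono_of_epi (D.L.map f)

/-- chains of monomorphisms with cokernel in `D.A` are inverted by `L` -/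
theorem LocD.mono_le {J : Type} [Preorder J] (X : J ⥤ EB.C) (h : (EB.monoP D.A J).Q X) :
    (D.WW.Q J).Q X := ⟨h.1, fun {i j} f => by
  obtain ⟨Z, g, hZ, hg⟩ := h.2 i j (leOfHom f)
  exact D.ses_inv hg hZ.2⟩

/-- monomorphisms with cokernel killed by `L` are inverted by `L` -/
def LocD.toW : mono EB D.A ⟶ D.WW.sx where
  app := fun m => (ExFun.id EB).diag (Fin (m + 1)) (EB.monoP D.A _) (D.WW.Q _) fun X hX =>
    D.mono_le X hX
  nat := fun _ => rfl

/-- from the chains inverted by `L` to the chains of isomorphisms -/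
def LocD.toIso : D.WW.sx ⟶ (isoW EC).sx := ArP.mapF D.LF _ _ fun _ h => h

/-- the constant chains, as chains of isomorphisms -/
def ExCat.cstI (E : ExCat.{u}) (I : Type) [Preorder I] : ExFun E ((isoW E).ch I) where
  F :=
    { obj := fun X => ⟨(Functor.const I).obj X.obj, fun _ => X.property, fun _ =>
        inferInstanceAs (IsIso (𝟙 X.obj))⟩
      map := fun f => ObjectProperty.homMk ((Functor.const I).map f.hom)
      map_id := fun _ => rfl
      map_comp := fun _ _ => rfl }
  add _ _ := rfl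
  exact {X Y Z} f g hc := (ses_functor _ _).2 fun j => hc

/-- the constant chains, as chains of isomorphisms -/
def cstI (E : ExCat.{u}) : SOb.const E ⟶ (isoW E).sx :=
  ⟨fun m => E.cstI (Fin (m + 1)), fun _ => rfl⟩

theorem heq_sub {C : Type*} [Category C] {P : ObjectProperty C} {X X' Y Y' : P.FullSubcategory}
    (hX : X = X') (hY : Y = Y') (f : X ⟶ Y) (f' : X' ⟶ Y') (h : HEq f.hom f'.hom) : HEq f f' := by
  subst hX
  subst hY
  exact heq_of_eq (ObjectProperty.hom_ext _ (eq_of_heq h))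

theorem heq_nat {J : Type*} [Category J] {C : Type*} [Category C] {X X' Y Y' : J ⥤ C}
    (hX : X = X') (hY : Y = Y') (f : X ⟶ Y) (f' : X' ⟶ Y') (h : ∀ j, HEq (f.app j) (f'.app j)) :
    HEq f f' := by
  subst hX
  subst hY
  exact heq_of_eq (NatTrans.ext (funext fun j => eq_of_heq (h j)))

theorem LocD.const_L (J : Type) [Preorder J] (X : EB.C) :
    (Functor.const J).obj X ⋙ D.L = (Functor.const J).obj (D.L.obj X) :=
  CategoryTheory.Functor.ext (fun _ => rfl) fun i j f => by simp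

/-- the commutative square -/
theorem LocD.sq : cstM EB D.A ≫ D.toW ≫ D.toIso =
    (SOb.constF.map (X := EB) (Y := EC) D.LF) ≫ cstI EC := by
  apply SOb.hom_ext
  intro m
  apply ExFun.ext'
  have ho : ∀ X : EB.Ob, (ExFun.F ((cstM EB D.A ≫ D.toW ≫ D.toIso).app m)).obj X =
      (ExFun.F (((SOb.constF.map (X := EB) (Y := EC) D.LF) ≫ cstI EC).app m)).obj X := fun X =>
    ObjectProperty.FullSubcategory.ext (D.const_L (Fin (m + 1)) X.obj)
  refine Functor.hext ho fun X Y f => ?_
  refine heq_sub (ho X) (ho Y) _ _ (heq_nat (D.const_L (Fin (m + 1)) X.obj)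
    (D.const_L (Fin (m + 1)) Y.obj) _ _ fun j => ?_)
  exact HEq.rfl

end loc2

/-! ### the categories of S-diagrams for localization -/

/-- pointwise morphisms in `W` -/
def pwW {C : Type u} [Category.{v} C] (W : MorphismProperty C) (J : Type) [Category.{0} J] :
    MorphismProperty (J ⥤ C) := fun _ _ f => ∀ j, W (f.app j)

instance {C : Type u} [Category.{v} C] (W : MorphismProperty C) [W.IsMultiplicative] (J : Type)
    [Category.{0} J] : (pwW W J).IsMultiplicative where
  id_mem _ _ := W.id_mem _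
  comp_mem _ _ h h' j := W.comp_mem _ _ (h j) (h' j)

/-- the morphisms inverted by `L` -/
def invW {C : Type u} [Category.{v} C] {C' : Type u} [Category.{v} C'] (L : C ⥤ C') :
    MorphismProperty C := fun _ _ f => IsIso (L.map f)

instance {C : Type u} [Category.{v} C] {C' : Type u} [Category.{v} C'] (L : C ⥤ C') :
    (invW L).IsMultiplicative where
  id_mem X := by
    change IsIso (L.map (𝟙 X))
    infer_instance
  comp_mem f g h h' := by
    have h1 : IsIso (L.map f) := h
    have h2 : IsIso (L.map g) := h'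
    change IsIso (L.map (f ≫ g))
    rw [L.map_comp]
    infer_instance

/-- the category of the objects with `P`, and the morphisms in `W` -/
structure PWo (X : Type u) [Category.{v} X] (P : ObjectProperty X) (W : MorphismProperty X) :
    Type u where
  obj : X
  property : P obj

/-- its category structure, for multiplicative `W` -/
instance {X : Type u} [Category.{v} X] {P : ObjectProperty X} {W : MorphismProperty X}
    [W.IsMultiplicative] : Category.{v} (PWo X P W) where
  Hom x y := {f : x.obj ⟶ y.obj // W f}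
  id x := ⟨𝟙 _, W.id_mem _⟩
  comp f g := ⟨f.1 ≫ g.1, W.comp_mem _ _ f.2 g.2⟩

/-- a functor between such categories -/
def PWo.mapF {X Y : Type u} [Category.{v} X] [Category.{v} Y] {P : ObjectProperty X}
    {W : MorphismProperty X} [W.IsMultiplicative] {P' : ObjectProperty Y} {W' : MorphismProperty Y}
    [W'.IsMultiplicative] (F : X ⥤ Y) (hP : ∀ x, P x → P' (F.obj x))
    (hW : ∀ {x y : X} (f : x ⟶ y), P x → P y → W f → W' (F.map f)) :
    PWo X P W ⥤ PWo Y P' W' where
  obj x := ⟨F.obj x.obj, hP _ x.property⟩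
  map {x y} f := ⟨F.map f.1, hW f.1 x.property y.property f.2⟩
  map_id _ := Subtype.ext (F.map_id _)
  map_comp _ _ := Subtype.ext (F.map_comp _ _)

theorem LocD.SQ_map {EB EC : ExCat.{u}} (D : LocD EB EC) {I : Type} [Preorder I]
    {X : Ar I ⥤ EB.C} (h : SQ EB.P I X) : SQ EC.P I (X ⋙ D.L) :=
  ⟨fun x => D.mapP _ (h.1 x), fun i => D.L.map_isZero (h.2.1 i), fun i j k hij hjk =>
    D.ses (h.2.2 i j k hij hjk)⟩

/-- S-diagrams in `EB.P`, with the morphisms inverted by `L` -/
abbrev LocD.XB {EB EC : ExCat.{u}} (D : LocD EB EC) (I : Type) [Preorder I] : Type (u + 1) :=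
  PWo (Ar I ⥤ EB.C) (SQ EB.P I) (pwW (invW D.L) (Ar I))

/-- S-diagrams in `EC.P`, with the isomorphisms -/
abbrev XC (EC : ExCat.{u}) (I : Type) [Preorder I] : Type (u + 1) :=
  PWo (Ar I ⥤ EC.C) (SQ EC.P I) (pwW (invW (𝟭 EC.C)) (Ar I))

/-- the functor given by `L` -/
def LocD.LS {EB EC : ExCat.{u}} (D : LocD EB EC) (I : Type) [Preorder I] : D.XB I ⥤ XC EC I :=
  PWo.mapF ((Functor.whiskeringRight _ _ _).obj D.L) (fun _ h => D.SQ_map h) fun _ _ _ h j => h j

end Pool.Agent.KQ
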