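import Pool.Agent.KQ.StEx
import Pool.Agent.KQ.Core
import Pool.Agent.KQ.SPR2
import Pool.Agent.KQ.DLoc

/-!
# KQ: SPREAD: maps that are strong on the objects of `S_n X_n` are weak equivalences on all `D_k`
-/

set_option autoImplicit false
set_option linter.unusedVariables false

noncomputable section

namespace Pool.Agent.KQ

open CategoryTheory CategoryTheory.Limits Function

universe u

namespace SPR

/-- transport of weak equivalences along isomorphisms -/
theorem weq_of_sq {G H G' H' : SGp.{u}} (e : G ≅ G') (e' : H ≅ H') (f : G ⟶ H) (f' : G' ⟶ H')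
    (h : f ≫ e'.hom = e.hom ≫ f') (hf : SGp.Weq f') : SGp.Weq f := by
  have h1 : f = e.hom ≫ f' ≫ e'.inv :=
    ((Iso.eq_comp_inv e').2 h).trans (Category.assoc _ _ _)
  rw [h1]
  exact SGp.weq_of_conn fun c => ((SGp.weq_of_iso e).conn c).comp
    ((hf.conn c).comp ((SGp.weq_of_iso e'.symm).conn c))

/-- `S_p X`, as a simplicial object in `p` -/
def Rr : SOb ExCat.{u} ⥤ SOb (SOb ExCat.{u}) where
  obj X := ⟨fun p => (SOb.mapF (SF (Fin (p + 1)))).obj X,
    fun θ => ⟨fun n => (X.obj n).Smap θ, fun _ => rfl⟩, fun _ => rfl, fun _ _ => rfl⟩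
  map f := ⟨fun p => (SOb.mapF (SF (Fin (p + 1)))).map f, fun _ => rfl⟩

/-- functoriality on elements -/
theorem map_comp_app {C : Type*} [Category C] (D : C ⥤ SGp.{u}) {A A₁ A₂ B : C} (f : A ⟶ A₁)
    (g : A₁ ⟶ B) (f' : A ⟶ A₂) (g' : A₂ ⟶ B) (h : f ≫ g = f' ≫ g') (n : ℕ)
    (x : (D.obj A).obj n) :
    (D.map g).app n ((D.map f).app n x) = (D.map g').app n ((D.map f').app n x) := by
  have h1 := congrArg (fun e : D.obj A ⟶ D.obj B => e.app n x)
    ((D.map_comp f g).symm.trans ((congrArg D.map h).trans (D.map_comp f' g')))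
  exact h1

/-- `D_(k+1)(X)` is the diagonal of `p ↦ D_k(S_p X)` -/
def isoR (k : ℕ) (X : SOb ExCat.{u}) :
    (DKs (k + 1)).obj X ≅ SGp.diagF.obj ((SOb.mapF (DKs k)).obj (Rr.obj X)) :=
  SGp.isoMk (fun _ => MulEquiv.refl _) fun {m n} θ x => by
    have h1 := map_comp_app (DK k) (A := (X.obj n).S (Fin (n + 1)))
      (A₁ := (X.obj m).S (Fin (n + 1))) (A₂ := (X.obj n).S (Fin (m + 1)))
      (B := (X.obj m).S (Fin (m + 1))) ((X.map θ).S (Fin (n + 1))) ((X.obj m).Smap θ)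
      ((X.obj n).Smap θ) ((X.map θ).S (Fin (m + 1))) rfl n x
    exact congrArg (((DK k).obj ((X.obj m).S (Fin (m + 1)))).map θ) h1

theorem isoR_nat (k : ℕ) {X Y : SOb ExCat.{u}} (f : X ⟶ Y) :
    (DKs (k + 1)).map f ≫ (isoR k Y).hom =
      (isoR k X).hom ≫ SGp.diagF.map ((SOb.mapF (DKs k)).map (Rr.map f)) :=
  SGp.hom_ext fun n x => rfl

/-- `D_1(X)` is the free simplicial group on the pointed sets of objects of `S_n X_n` -/
def isoB (X : SOb ExCat.{u}) :
    (DKs 1).obj X ≅ frF.obj ((SOb.mapF obF).obj (SD.obj X)) :=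
  SGp.isoMk (fun _ => MulEquiv.refl _) fun {m n} θ x => by
    change Fr.map (obF.map ((Sd.obj (X.obj m)).map θ))
      (Fr.map (obF.map ((Sd.map (X.map θ)).app n)) x) =
      Fr.map (obF.map ((Sd.map (X.map θ)).app n ≫ (Sd.obj (X.obj m)).map θ)) x
    rw [obF.map_comp, Fr.map_comp]
    rfl

theorem isoB_nat {X Y : SOb ExCat.{u}} (f : X ⟶ Y) :
    (DKs 1).map f ≫ (isoB Y).hom = (isoB X).hom ≫ frF.map ((SOb.mapF obF).map (SD.map f)) :=
  SGp.hom_ext fun n x => rfl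

/-- the case `k = 1` -/
theorem base (hZ : St_ZQ.{u}) {X Y : SOb ExCat.{u}} (f : X ⟶ Y)
    (h : SSt.Strong (obS.map (SD.map f))) : SGp.Weq ((DKs 1).map f) := by
  have h1 : SSt.Strong (obS.map (SD.map f) ≫ zq (SD.obj Y)) := thm_Str23.1 _ _ h (hZ Y)
  have h2 : zq (SD.obj X) ≫ undF.map ((SOb.mapF obF).map (SD.map f)) =
      obS.map (SD.map f) ≫ zq (SD.obj Y) := rfl
  rw [← h2] at h1
  exact weq_of_sq (isoB X) (isoB Y) _ _ (isoB_nat f)
    (thm_StrFr _ (thm_Str23.2.1 _ _ (hZ X) h1))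

/-- the spines of the objects of `S_n S_p X_n` -/
def sp (X : SOb ExCat.{u}) (p : ℕ) :
    obS.obj (SD.obj ((SOb.mapF (SF (Fin (p + 1)))).obj X)) ⟶ (obS.obj (SD.obj X)).pow p :=
  ⟨fun n x => (spine (X.obj n) p).app n x, fun _ _ => rfl⟩

/-- the bisimplicial set of the powers of `ob S_n X_m` -/
def pw (X : SOb ExCat.{u}) (p : ℕ) : SOb SSt.{u + 1} where
  obj m := (X.obj m).oS.pow p
  map θ := SSt.powMap ((biS.obj X).map θ) p
  map_id m := by
    rw [(biS.obj X).map_id]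
    rfl
  map_comp f g := by
    rw [(biS.obj X).map_comp]
    rfl

/-- the spines as a map of bisimplicial sets -/
def spB (X : SOb ExCat.{u}) (p : ℕ) :
    biS.obj ((SOb.mapF (SF (Fin (p + 1)))).obj X) ⟶ pw X p :=
  ⟨fun m => spine (X.obj m) p, fun _ => rfl⟩

theorem sp_strong (hSp : St_Spine.{u}) (X : SOb ExCat.{u}) (p : ℕ) : SSt.Strong (sp X p) := by
  have h1 : SSt.Strong (SSt.diagF.map (spB X p)) := all_StrRow _ fun m => hSp (X.obj m) p
  exact h1

/-- the maps of the `S_p X` -/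
theorem step (hSp : St_Spine.{u}) {X Y : SOb ExCat.{u}} (f : X ⟶ Y)
    (h : SSt.Strong (obS.map (SD.map f))) (p : ℕ) :
    SSt.Strong (obS.map (SD.map ((SOb.mapF (SF (Fin (p + 1)))).map f))) := by
  have h1 : SSt.Strong (sp X p ≫ SSt.powMap (obS.map (SD.map f)) p) :=
    thm_Str23.1 _ _ (sp_strong hSp X p) (SPR2.pow_strong _ h p)
  have h2 : obS.map (SD.map ((SOb.mapF (SF (Fin (p + 1)))).map f)) ≫ sp Y p =
      sp X p ≫ SSt.powMap (obS.map (SD.map f)) p := rfl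
  rw [← h2] at h1
  exact thm_Str23.2.2.1 _ _ (sp_strong hSp Y p) h1

theorem main (hZ : St_ZQ.{u}) (hSp : St_Spine.{u}) (k : ℕ) : ∀ {X Y : SOb ExCat.{u}} (f : X ⟶ Y),
    SSt.Strong (obS.map (SD.map f)) → SGp.Weq ((DKs (k + 1)).map f) := by
  induction k with
  | zero => exact fun f h => base hZ f h
  | succ k ih =>
    intro X Y f h
    exact weq_of_sq (isoR (k + 1) X) (isoR (k + 1) Y) _ _ (isoR_nat (k + 1) f)
      (all_RealW _ fun p => ih _ (step hSp f h p))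

end SPR

/-- SPREAD for maps of simplicial exact categories. -/
theorem thm_SPR (hZ : St_ZQ.{u}) (hSp : St_Spine.{u}) : St_SPR.{u} := by
  intro X Y f h k hk
  obtain ⟨k, rfl⟩ : ∃ k', k = k' + 1 := ⟨k - 1, by omega⟩
  exact SPR.main hZ hSp k f h

end Pool.Agent.KQ
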