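import Pool.Agent.KQ.StEx

/-!
# KQ: the spine map `ob S.(S_p E) → (ob S. E)^p` is strong
-/

set_option autoImplicit false

noncomputable section

namespace Pool.Agent.KQ

open CategoryTheory CategoryTheory.Limits Function
open scoped ZeroObject

universe u

theorem Spine_iso (hH : St_StrHt.{u}) {X Y : SSt.{u}} (f : X ⟶ Y) (g : Y ⟶ X)
    (h : f ≫ g = 𝟙 X) (h' : g ≫ f = 𝟙 Y) : SSt.Strong f :=
  hH.2.1 f g (by rw [h]; intro Φ n; rfl) (by rw [h']; intro Φ n; rfl)

/-! ### the case `p = 0` -/

/-- the constant functor with value a zero object -/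
def Spine_cst (E : ExCat.{u}) (Z : E.Ob) (hZ : IsZero Z) : ExFun E E where
  F := (Functor.const E.Ob).obj Z
  add f g := hZ.eq_of_src _ _
  exact f g _ := ses_of_isZero _ _ ((E.isZero_iff Z).1 hZ) ((E.isZero_iff Z).1 hZ)
    ((E.isZero_iff Z).1 hZ)

/-- an exact category in which all objects are zero objects -/
theorem Spine_contr (hH : St_StrHt.{u + 1}) (E : ExCat.{u}) (h : ∀ X : E.Ob, IsZero X) :
    SSt.Contr E.oS := by
  let Z : E.Ob := E.zo
  let G : ExFun E E := Spine_cst E Z (h Z)
  let e : G.F ≅ (ExFun.id E).F := NatIso.ofComponents (fun X => (h Z).iso (h X)) fun f =>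
    (h Z).eq_of_src _ _
  have h1 : SSt.StrEq G.oS (ExFun.id E).oS := natStrEq hH e
  let x : SSt.const PUnit.{u + 2} ⟶ E.oS :=
    ⟨fun n _ => (G.S (Fin (n + 1))).F.obj (E.S (Fin (n + 1))).zo, fun _ _ => rfl⟩
  exact hH.2.2 E.oS x h1

theorem Spine_zero (E : ExCat.{u}) (X : (E.S (Fin 1)).Ob) : IsZero X := by
  rw [ExCat.isZero_iff]
  refine (isZero_functor _).2 fun x => ?_
  obtain ⟨⟨i, j⟩, hij⟩ := x
  have h1 : i = 0 := Subsingleton.elim (α := Fin 1) _ _
  have h2 : j = 0 := Subsingleton.elim (α := Fin 1) _ _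
  subst h1 h2
  exact X.property.2.1 0

/-! ### the cut of `Fin (p + 2)` -/

/-- the cut at `p` -/
def Spine_cut (p : ℕ) : Cut (Fin (p + 2)) (Fin (p + 1)) (Fin 2) where
  l := ⟨Fin.castSucc, Fin.strictMono_castSucc.monotone⟩
  l' := sg (Fin.last p)
  u := ⟨fun i => if i = 0 then (Fin.last p).castSucc else Fin.last (p + 1), by
    intro i j h
    fin_cases i <;> fin_cases j <;> simp_all [Fin.le_last]⟩
  u' := ⟨fun i => if i = Fin.last (p + 1) then 1 else 0, by
    intro i j h
    change (if i = Fin.last (p + 1) then (1 : Fin 2) else 0) ≤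
      if j = Fin.last (p + 1) then 1 else 0
    by_cases hi : i = Fin.last (p + 1)
    · have hj : j = Fin.last (p + 1) := le_antisymm (Fin.le_last j) (hi ▸ h)
      rw [if_pos hi, if_pos hj]
    · rw [if_neg hi]
      exact Fin.zero_le _⟩
  c := (Fin.last p).castSucc
  ll a := by
    change Fin.predAbove (Fin.last p) a.castSucc = a
    rw [Fin.predAbove_of_le_castSucc _ _ (Fin.castSucc_le_castSucc_iff.2 (Fin.le_last a))]
    exact Fin.castPred_castSucc
  uu a := by
    fin_cases a
    · change (if (Fin.last p).castSucc = Fin.last (p + 1) then (1 : Fin 2) else 0) = 0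
      rw [if_neg (Fin.castSucc_ne_last _)]
    · change (if Fin.last (p + 1) = Fin.last (p + 1) then (1 : Fin 2) else 0) = 1
      rw [if_pos rfl]
  low i := by
    change (Fin.predAbove (Fin.last p) i).castSucc ≤ i
    refine Fin.lastCases ?_ (fun i => ?_) i
    · exact Fin.le_last _
    · rw [Fin.predAbove_of_le_castSucc _ _ (Fin.castSucc_le_castSucc_iff.2 (Fin.le_last i)),
        Fin.castPred_castSucc]
  high i := by
    change i ≤ if (if i = Fin.last (p + 1) then (1 : Fin 2) else 0) = 0 then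
      (Fin.last p).castSucc else Fin.last (p + 1)
    by_cases hi : i = Fin.last (p + 1)
    · rw [if_pos hi, if_neg (by decide)]
      exact Fin.le_last _
    · rw [if_neg hi, if_pos rfl]
      have := Fin.val_lt_last hi
      exact Fin.le_def.2 (by simpa using Nat.le_of_lt_succ this)
  cut i := by
    change ((Fin.predAbove (Fin.last p) i).castSucc = i ∧
      (if (if i = Fin.last (p + 1) then (1 : Fin 2) else 0) = 0 then (Fin.last p).castSucc
        else Fin.last (p + 1)) = (Fin.last p).castSucc) ∨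
      ((Fin.predAbove (Fin.last p) i).castSucc = (Fin.last p).castSucc ∧
      (if (if i = Fin.last (p + 1) then (1 : Fin 2) else 0) = 0 then (Fin.last p).castSucc
        else Fin.last (p + 1)) = i)
    refine Fin.lastCases ?_ (fun i => ?_) i
    · right
      rw [if_pos rfl, if_neg (by decide)]
      refine ⟨?_, rfl⟩
      rw [Fin.predAbove_last_apply]
      simp
    · left
      rw [if_neg (Fin.castSucc_ne_last _), if_pos rfl]
      refine ⟨?_, rfl⟩
      rw [Fin.predAbove_of_le_castSucc _ _ (Fin.castSucc_le_castSucc_iff.2 (Fin.le_last i)),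
        Fin.castPred_castSucc]

/-! ### the step -/

/-- `E.S I` as a category of S-diagrams with conditions -/
def Spine_j (E : ExCat.{u}) (I : Type) [Preorder I] :
    ExFun (E.S I) (E.SX I fun _ => SubP.top E) where
  F :=
    { obj := fun D => ⟨D.obj, D.property, D.property.1⟩
      map := fun f => ObjectProperty.homMk f.hom
      map_id := fun _ => rfl
      map_comp := fun _ _ => rfl }
  add _ _ := rfl
  exact _ _ h := h

/-- its inverse -/
def Spine_j' (E : ExCat.{u}) (I : Type) [Preorder I] :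
    ExFun (E.SX I fun _ => SubP.top E) (E.S I) where
  F :=
    { obj := fun D => ⟨D.obj, D.property.1⟩
      map := fun f => ObjectProperty.homMk f.hom
      map_id := fun _ => rfl
      map_comp := fun _ _ => rfl }
  add _ _ := rfl
  exact _ _ h := h

/-- the last factor -/
def Spine_last (X : SSt.{u}) (p : ℕ) : X.pow (p + 1) ⟶ (X.pow p).prod X :=
  ⟨fun _ z => (fun i => z i.castSucc, z (Fin.last p)), fun _ _ => rfl⟩

/-- its inverse -/
def Spine_snoc (X : SSt.{u}) (p : ℕ) : (X.pow p).prod X ⟶ X.pow (p + 1) :=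
  ⟨fun n z => Fin.snoc (α := fun _ => X.obj n) z.1 z.2, fun {m n} θ z => by
    change Fin.snoc (α := fun _ => X.obj m) (fun i => X.map θ (z.1 i)) (X.map θ z.2) =
      fun i => X.map θ (Fin.snoc (α := fun _ => X.obj n) z.1 z.2 i)
    funext i
    refine Fin.lastCases ?_ (fun i => ?_) i
    · rw [Fin.snoc_last, Fin.snoc_last]
    · rw [Fin.snoc_castSucc, Fin.snoc_castSucc]⟩

theorem Spine_last_strong (hH : St_StrHt.{u}) (X : SSt.{u}) (p : ℕ) :
    SSt.Strong (Spine_last X p) := by
  refine Spine_iso hH _ (Spine_snoc X p) ?_ ?_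
  · refine SSt.hom_ext fun n z => ?_
    change Fin.snoc (α := fun _ => X.obj n) (fun i => z i.castSucc) (z (Fin.last p)) = z
    funext i
    refine Fin.lastCases ?_ (fun i => ?_) i
    · rw [Fin.snoc_last]
    · rw [Fin.snoc_castSucc]
  · refine SSt.hom_ext fun n z => ?_
    refine Prod.ext ?_ ?_
    · change (fun i : Fin p => (Fin.snoc (α := fun _ => X.obj n) z.1 z.2 :
        Fin (p + 1) → X.obj n) i.castSucc) = z.1
      funext i
      rw [Fin.snoc_castSucc]
    · change (Fin.snoc (α := fun _ => X.obj n) z.1 z.2 : Fin (p + 1) → X.obj n)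
        (Fin.last p) = z.2
      rw [Fin.snoc_last]

theorem thm_Spine (hH : St_StrHt.{u + 1}) (h23 : St_Str23.{u + 1}) (hP : St_StrProd.{u + 1})
    (hCut : St_Cut.{u}) (hEv : St_Ev.{u}) : St_Spine.{u} := by
  intro E p
  induction p with
  | zero =>
    have h1 : SSt.Contr (E.S (Fin 1)).oS := Spine_contr hH _ (Spine_zero E)
    have h2 : SSt.Strong (E.oS.pow 0).toPt := by
      refine Spine_iso hH _ ⟨fun _ _ i => i.elim0, fun _ _ => funext fun i => i.elim0⟩ ?_ ?_
      · exact SSt.hom_ext fun n z => funext fun i => i.elim0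
      · exact SSt.hom_ext fun n z => rfl
    exact h23.2.2.1 (spine E 0) (E.oS.pow 0).toPt h2 h1
  | succ p ih =>
    have h1 : SSt.Strong (Spine_j E (Fin (p + 2))).oS :=
      Spine_iso hH _ (Spine_j' E (Fin (p + 2))).oS rfl rfl
    have h2 := hCut E (Spine_cut p) (fun _ => SubP.top E) (SubP.top E) (SubP.top E)
      (fun _ _ h => h) (fun _ _ h => h) (fun _ => Or.inr fun _ h => h)
      (fun _ => Or.inr fun _ h => h)
    obtain ⟨e, he⟩ := hEv E
    have h3 : SSt.Strong (E.ev (ar (0 : Fin 2) 1 (by decide))).oS := by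
      rw [← he]
      exact equivStrong hH e
    have h4 : SSt.Strong (SSt.prodMap (spine E p) (E.ev (ar (0 : Fin 2) 1 (by decide))).oS) :=
      hP _ _ ih h3
    have h5 : SSt.Strong ((Spine_j E (Fin (p + 2))).oS ≫
        pairS (E.SXtoS (SubP.top E) (fun _ => SubP.top E) (Spine_cut p).l fun _ _ h => h)
          (E.SXtoS (SubP.top E) (fun _ => SubP.top E) (Spine_cut p).u fun _ _ h => h)) :=
      h23.1 _ _ h1 h2
    have h6 := h23.1 _ _ h5 h4
    refine h23.2.2.1 (spine E (p + 1)) (Spine_last E.oS p) (Spine_last_strong hH _ _) ?_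
    exact h6

end Pool.Agent.KQ
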