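import Pool.Agent.KQ.StEx

/-!
# KQ, module Spl: a decomposition of the identity functor gives a strong map
-/

set_option autoImplicit false
set_option linter.unusedVariables false

noncomputable section

namespace Pool.Agent.KQ

open CategoryTheory CategoryTheory.Limits Function

universe u

section

variable {C : Type*} [Category C] [Abelian C]

/-- a morphism of short exact sequences is determined by its middle component -/
private theorem Spl_ext {S S' : ShortComplex C} (h : SES S.f S.g) (h' : SES S'.f S'.g)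
    (m m' : S ⟶ S') (e : m.τ₂ = m'.τ₂) : m = m' := by
  have := h'.mono
  have := h.epi
  apply ShortComplex.hom_ext
  · rw [← cancel_mono S'.f, m.comm₁₂, m'.comm₁₂, e]
  · exact e
  · rw [← cancel_epi S.g, ← m.comm₂₃, ← m'.comm₂₃, e]

/-- the morphism of short exact sequences given by its middle component -/
private def SplHom {S S' : ShortComplex C} (h : SES S.f S.g) (h' : SES S'.f S'.g)
    (t : S.X₂ ⟶ S'.X₂) (w : S.f ≫ t ≫ S'.g = 0) : S ⟶ S' where
  τ₁ := Classical.choose (h'.lift (S.f ≫ t) (by rw [Category.assoc, w]))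
  τ₂ := t
  τ₃ := Classical.choose (h.desc (t ≫ S'.g) w)
  comm₁₂ := Classical.choose_spec (h'.lift (S.f ≫ t) (by rw [Category.assoc, w]))
  comm₂₃ := (Classical.choose_spec (h.desc (t ≫ S'.g) w)).symm

end

section

variable {R : ExCat.{u}} {φ ψ : ExFun R R} (c : ExFun.Conf3 φ (ExFun.id R) ψ) (A B : SubP R)
  (hA : ∀ X, A.P (φ.F.obj X).obj) (hB : ∀ X, B.P (ψ.F.obj X).obj)

/-- the conflation `a → e → b` -/
private def SplS (S : (R.EE A B).Ob) : ShortComplex R.C := S.obj

/-- the object `a` -/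
private def Spla (S : (R.EE A B).Ob) : R.Ob := ⟨(SplS A B S).X₁, A.le _ S.property.1⟩

/-- the object `e` -/
private def Sple (S : (R.EE A B).Ob) : R.Ob := ⟨(SplS A B S).X₂, S.property.2.1⟩

/-- the object `b` -/
private def Splb (S : (R.EE A B).Ob) : R.Ob := ⟨(SplS A B S).X₃, B.le _ S.property.2.2.1⟩

/-- the conflation `φ e → e → ψ e` -/
private def SplT (S : (R.EE A B).Ob) : ShortComplex R.C :=
  ShortComplex.mk (c.α.app (Sple A B S)).hom (c.β.app (Sple A B S)).hom (c.ses (Sple A B S)).w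

private theorem SplS_ses (S : (R.EE A B).Ob) : SES (SplS A B S).f (SplS A B S).g :=
  S.property.2.2.2

private theorem SplT_ses (S : (R.EE A B).Ob) : SES (SplT c A B S).f (SplT c A B S).g :=
  c.ses (Sple A B S)

private theorem Spl_w1 (hb : ∀ X : R.Ob, B.P X.obj → IsZero (φ.F.obj X).obj)
    (S : (R.EE A B).Ob) : (SplT c A B S).f ≫ 𝟙 (SplS A B S).X₂ ≫ (SplS A B S).g = 0 := by
  have h1 := congrArg InducedCategory.Hom.hom (c.α.naturality (X := Sple A B S)
    (Y := Splb A B S) (ObjectProperty.homMk (SplS A B S).g))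
  have h2 : (SplT c A B S).f ≫ (SplS A B S).g =
    (φ.F.map (X := Sple A B S) (Y := Splb A B S) (ObjectProperty.homMk (SplS A B S).g)).hom ≫
      (c.α.app (Splb A B S)).hom := h1.symm
  have h3 : (c.α.app (Splb A B S)).hom = 0 := (hb (Splb A B S) S.property.2.2.1).eq_of_src _ 0
  have h4 : (SplT c A B S).f ≫ 𝟙 (SplS A B S).X₂ ≫ (SplS A B S).g =
      (SplT c A B S).f ≫ (SplS A B S).g :=
    congrArg (fun k : (SplS A B S).X₂ ⟶ (SplS A B S).X₃ => (SplT c A B S).f ≫ k)
      (Category.id_comp (SplS A B S).g)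
  refine h4.trans (h2.trans ?_)
  rw [h3]
  exact comp_zero

private theorem Spl_w2 (ha : ∀ X : R.Ob, A.P X.obj → IsZero (ψ.F.obj X).obj)
    (S : (R.EE A B).Ob) : (SplS A B S).f ≫ 𝟙 (SplS A B S).X₂ ≫ (SplT c A B S).g = 0 := by
  have h1 := congrArg InducedCategory.Hom.hom (c.β.naturality (X := Spla A B S)
    (Y := Sple A B S) (ObjectProperty.homMk (SplS A B S).f))
  have h2 : (SplS A B S).f ≫ (SplT c A B S).g = (c.β.app (Spla A B S)).hom ≫
    (ψ.F.map (X := Spla A B S) (Y := Sple A B S) (ObjectProperty.homMk (SplS A B S).f)).hom := h1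
  have h3 : (c.β.app (Spla A B S)).hom = 0 := (ha (Spla A B S) S.property.1).eq_of_tgt _ 0
  have h4 : (SplS A B S).f ≫ 𝟙 (SplS A B S).X₂ ≫ (SplT c A B S).g =
      (SplS A B S).f ≫ (SplT c A B S).g :=
    congrArg (fun k : (SplT c A B S).X₂ ⟶ (SplT c A B S).X₃ => (SplS A B S).f ≫ k)
      (Category.id_comp (SplT c A B S).g)
  refine h4.trans (h2.trans ?_)
  rw [h3]
  exact zero_comp

/-- `EEe ≫ T ≅ id` -/
private def SplIso (ha : ∀ X : R.Ob, A.P X.obj → IsZero (ψ.F.obj X).obj)
    (hb : ∀ X : R.Ob, B.P X.obj → IsZero (φ.F.obj X).obj) :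
    (R.EEe A B).F ⋙ (c.toEE A B hA hB).F ≅ 𝟭 (R.EE A B).Ob :=
  NatIso.ofComponents (fun S =>
    { hom := ObjectProperty.homMk (SplHom (SplT_ses c A B S) (SplS_ses A B S)
        (𝟙 (SplS A B S).X₂) (Spl_w1 c A B hb S))
      inv := ObjectProperty.homMk (SplHom (SplS_ses A B S) (SplT_ses c A B S)
        (𝟙 (SplS A B S).X₂) (Spl_w2 c A B ha S))
      hom_inv_id := by
        apply ObjectProperty.hom_ext
        exact Spl_ext (SplT_ses c A B S) (SplT_ses c A B S) _ _ (Category.id_comp _)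
      inv_hom_id := by
        apply ObjectProperty.hom_ext
        exact Spl_ext (SplS_ses A B S) (SplS_ses A B S) _ _ (Category.id_comp _) })
    fun {S S'} f => by
      apply ObjectProperty.hom_ext
      refine Spl_ext (SplT_ses c A B S) (SplS_ses A B S') _ _ ?_
      exact (Category.comp_id (ShortComplex.Hom.τ₂ f.hom)).trans
        (Category.id_comp (ShortComplex.Hom.τ₂ f.hom)).symm

end

theorem thm_Spl (h1 : St_StrHt.{u + 1}) (h2 : St_Str23.{u + 1}) (h3 : St_StrRow.{u + 1})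
    (h4 : St_StrCol.{u + 1}) : St_Spl.{u} := by
  intro R φ ψ c A B hA hB ha hb
  have h5 : SSt.Strong (c.toEE A B hA hB).oS :=
    equivStrong h1 (⟨c.toEE A B hA hB, R.EEe A B, Iso.refl _, SplIso c A B hA hB ha hb⟩ :
      ExEquiv R (R.EE A B))
  have h6 : pairS (φ.toSub A hA) (ψ.toSub B hB) = (c.toEE A B hA hB).oS ≫ EE.ab R A B := rfl
  rw [h6]
  exact h2.1 _ _ h5 (EE_strong R A B h1 h2 h3 h4)

end Pool.Agent.KQ
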