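import Pool.Agent.KQ.StEx

/-!
# KQ: functors with zero values induce trivial homomorphisms
-/

set_option autoImplicit false

noncomputable section

namespace Pool.Agent.KQ

open CategoryTheory CategoryTheory.Limits Function

universe u

private theorem Zero_S {E E' : ExCat.{u}} (F : ExFun E E') (h : ExFun.IsZ F) (I : Type)
    [Preorder I] : ExFun.IsZ (F.S I) := fun _ =>
  (isZero_functor _).2 fun _ => h _

private theorem Zero_fr {E E' : ExCat.{u}} (F : ExFun E E') (h : ExFun.IsZ F)
    (x : Fr E.obP) : Fr.map F.obP x = 1 := by
  have e : Fr.map F.obP = 1 := Fr.hom_ext fun y => by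
    rw [Fr.map_of, MonoidHom.one_apply, ← Fr.of_point]
    induction y using Quot.ind with
    | mk X => exact congrArg (Fr.of E'.obP) (Quot.sound ⟨h X, isZero_zero _⟩)
  rw [e, MonoidHom.one_apply]

theorem thm_Zero : St_Zero.{u} := by
  intro k
  induction k with
  | zero =>
    intro E E' F h n x
    exact Zero_fr F h x
  | succ k ih =>
    intro E E' F h n x
    exact ih (ExFun.S F (Fin (n + 1))) (Zero_S F h _) n x

end Pool.Agent.KQ
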