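import Pool.Agent.KQ.ZQ
import Pool.Agent.KQ.Ev
import Pool.Agent.KQ.Spl
import Pool.Agent.KQ.Cut
import Pool.Agent.KQ.Spine
import Pool.Agent.KQ.SPR
import Pool.Agent.KQ.CutK
import Pool.Agent.KQ.ExCon
import Pool.Agent.KQ.Iso
import Pool.Agent.KQ.Zero
import Pool.Agent.KQ.LESM
import Pool.Agent.KQ.AddF

/-!
# KQ: exact categories: the theorems of StEx without hypotheses (architect helper33)

`thm_RelM` and `thm_ADD` are in `ExAll2`.
-/

set_option autoImplicit false

namespace Pool.Agent.KQ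

open CategoryTheory CategoryTheory.Limits Function

universe u

theorem all_ZQ : St_ZQ.{u} := thm_ZQ all_StrHt all_StrPair

theorem all_Spl : St_Spl.{u} := thm_Spl all_StrHt thm_Str23 all_StrRow all_StrCol

theorem all_Cut : St_Cut.{u} := thm_Cut all_Spl all_StrHt thm_Str23 all_StrProd

theorem all_Spine : St_Spine.{u} := thm_Spine all_StrHt thm_Str23 all_StrProd all_Cut thm_Ev

/-- **SPREAD** -/
theorem all_SPR : St_SPR.{u} := thm_SPR all_ZQ all_Spine

theorem all_SPR2 : St_SPR2.{u} := thm_SPR2 all_ZQ all_Spine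

theorem all_CutK : St_CutK.{u} := thm_CutK all_Cut all_SPR2

end Pool.Agent.KQ
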