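import Pool.Agent.KQ.LocK
import Pool.Agent.KQ.StLES
import Pool.Agent.KQ.ExA

/-!
# KQ: the hypotheses of `LocK` from the statements of the core
-/

set_option autoImplicit false
set_option maxHeartbeats 400000

noncomputable section

namespace Pool.Agent.KQ

open CategoryTheory CategoryTheory.Limits Function

universe u

theorem lesm_of (h : St_LESM.{u}) : St_Lesm.{u} := by
  obtain ⟨bd, hb⟩ := h
  exact ⟨fun n E A => bd E A n, fun n E A x => hb.exE E A n x, fun n E A y => hb.exR E A n y,
    fun n E A a => hb.exA E A n a, fun E A => hb.onto E A,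
    fun n {E E'} F A A' h y => (hb.nat F h n y).symm⟩

theorem spr_of (h : St_SPR.{u}) : St_Spr.{u} := fun {X Y} F hF n => Ksmap_spread h F hF n

theorem thm_NI : St_NI.{u} := fun {X Y f g} e he n => Ksmap_ni e he n

end Pool.Agent.KQ
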