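import Pool.Agent.KQ.AllSA
import Pool.Agent.KQ.ExAll
import Pool.Agent.KQ.LocK2

/-!
# KQ: devissage, resolution for the K-groups, without hypotheses (helper94)
-/

set_option autoImplicit false

namespace Pool.Agent.KQ

universe u

theorem all_Spr : St_Spr.{u} := spr_of all_SPR

/-- DEVISSAGE for `K_n` -/
theorem all_DevK : St_DevK.{u} := thm_DevK all_Spr all_Dev

/-- RESOLUTION for `K_n` -/
theorem all_ResK : St_ResK.{u} := thm_ResK all_Spr all_Res

end Pool.Agent.KQ
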