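import Pool.Agent.KQ.AddDefs

/-!
# KQ: strong additivity: the homotopies of the J-direction, and of pairs
-/

set_option autoImplicit false
set_option linter.unusedVariables false

noncomputable section

namespace Pool.Agent.KQ

open CategoryTheory CategoryTheory.Limits

universe u

section

variable {I J : Type} [Preorder I] [Preorder J]

/-- the retraction of the join on `I`, `J` goes to the last element -/
def Jn.toL (top : I) (ht : ∀ i, i ≤ top) : Jn I J →o I where
  toFun
    | Jn.l i => i
    | Jn.r _ => top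
  monotone' := by
    rintro (i | j) (i' | j') h
    · exact h
    · exact ht i
    · exact absurd h id
    · exact le_rfl

/-- identity on `I`, the elements `j` with `θ j = false` go to the last element of `I` -/
def Jn.kR (top : I) (ht : ∀ i, i ≤ top) (θ : J →o Bool) : Jn I J →o Jn I J where
  toFun
    | Jn.l i => Jn.l i
    | Jn.r j => cond (θ j) (Jn.r j) (Jn.l top)
  monotone' := by
    rintro (i | j) (i' | j') h
    · exact h
    · change Jn.l i ≤ cond (θ j') (Jn.r j') (Jn.l top)
      cases θ j'
      · exact ht i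
      · trivial
    · exact absurd h id
    · change cond (θ j) (Jn.r j) (Jn.l top) ≤ cond (θ j') (Jn.r j') (Jn.l top)
      have h1 : θ j ≤ θ j' := θ.monotone h
      cases h2 : θ j <;> cases h3 : θ j'
      · exact le_refl (Jn.l top)
      · trivial
      · rw [h2, h3] at h1
        exact absurd h1 (by decide)
      · exact h

/-- the elements `i` with `θ i = true` go to the first element of `J` -/
def Jn.kL (bot : J) (hb : ∀ j, bot ≤ j) (θ : I →o Bool) : Jn I J →o Jn I J where
  toFun
    | Jn.l i => cond (θ i) (Jn.r bot) (Jn.l i)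
    | Jn.r j => Jn.r j
  monotone' := by
    rintro (i | j) (i' | j') h
    · change cond (θ i) (Jn.r bot) (Jn.l i) ≤ cond (θ i') (Jn.r bot) (Jn.l i')
      have h1 : θ i ≤ θ i' := θ.monotone h
      cases h2 : θ i <;> cases h3 : θ i'
      · exact h
      · trivial
      · rw [h2, h3] at h1
        exact absurd h1 (by decide)
      · exact le_refl (Jn.r bot)
    · change cond (θ i) (Jn.r bot) (Jn.l i) ≤ Jn.r j'
      cases θ i
      · trivial
      · exact hb j'
    · exact absurd h id
    · exact h

/-- the map which sends `I` to the first element of `J` -/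
def Jn.cb (bot : J) (hb : ∀ j, bot ≤ j) : Jn I J →o Jn I J where
  toFun
    | Jn.l _ => Jn.r bot
    | Jn.r j => Jn.r j
  monotone' := by
    rintro (i | j) (i' | j') h
    · exact le_refl (Jn.r bot)
    · exact hb j'
    · exact absurd h id
    · exact h

end

section

variable {E : ExCat.{u}} {A B : SubP E} {I J : Type} [Preorder I] [Preorder J]

/-- the section of `TT.toExt` -/
def Ext.toTT (J : Type) [Preorder J] (top : I) (ht : ∀ i, i ≤ top) (t : Ext E A B I) :
    TT E A B I J where
  x := ((E.sub A).Smap (Jn.toL top ht)).F.obj t.a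
  e := t.e
  b := t.b
  α := t.α
  β := t.β
  ses := t.ses

theorem Ext.toTT_toExt (J : Type) [Preorder J] (top : I) (ht : ∀ i, i ≤ top)
    (t : Ext E A B I) : (t.toTT J top ht).toExt = t := rfl

end

section

variable (E : ExCat.{u}) (A B : SubP E) (I J : Type) [Preorder I] [Preorder J]

/-- the section of `tR` -/
def sR (top : I) (ht : ∀ i, i ≤ top) : SSt.const (Ext E A B I) ⟶ TR E A B I where
  app n t := t.toTT (Fin (n + 1)) top ht
  nat {m n} f t := by
    refine TT.ext_heq ?_ rfl rfl (fun q => HEq.rfl) (fun q => HEq.rfl)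
    change ((E.sub A).Smap _).F.obj t.a =
      ((E.sub A).Smap ((Jn.toL top ht).comp (Jn.map OrderHom.id f))).F.obj t.a
    congr 3
    ext x
    cases x <;> rfl

/-- the homotopy from `tR ≫ sR` to the identity -/
def hR (top : I) (ht : ∀ i, i ≤ top) : SSt.Htpy (tR E A B I ≫ sR E A B I top ht) (𝟙 _) where
  h n θ t := ⟨((E.sub A).Smap (Jn.kR top ht θ)).F.obj t.x, t.e, t.b, t.α, t.β, t.ses⟩
  nat {m n} θ α t := by
    refine TT.ext_heq ?_ rfl rfl (fun q => HEq.rfl) (fun q => HEq.rfl)
    change ((E.sub A).Smap ((Jn.map OrderHom.id θ).comp (Jn.kR top ht (α.comp θ)))).F.obj t.x =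
      ((E.sub A).Smap ((Jn.kR top ht α).comp (Jn.map OrderHom.id θ))).F.obj t.x
    congr 3
    ext x
    rcases x with i | j
    · rfl
    · change Jn.map OrderHom.id θ (cond (α (θ j)) (Jn.r j) (Jn.l top)) =
        cond (α (θ j)) (Jn.r (θ j)) (Jn.l top)
      cases α (θ j) <;> rfl
  h0 n α t hα := by
    refine TT.ext_heq ?_ rfl rfl (fun q => HEq.rfl) (fun q => HEq.rfl)
    change ((E.sub A).Smap (Jn.kR top ht α)).F.obj t.x =
      ((E.sub A).Smap (Jn.L.comp (Jn.toL top ht))).F.obj t.x
    congr 3
    ext x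
    rcases x with i | j
    · rfl
    · change cond (α j) (Jn.r j) (Jn.l top) = Jn.l top
      rw [hα]
      rfl
  h1 n α t hα := by
    refine TT.ext_heq ?_ rfl rfl (fun q => HEq.rfl) (fun q => HEq.rfl)
    change ((E.sub A).Smap (Jn.kR top ht α)).F.obj t.x = ((E.sub A).Smap OrderHom.id).F.obj t.x
    congr 3
    ext x
    rcases x with i | j
    · rfl
    · change cond (α j) (Jn.r j) (Jn.l top) = Jn.r j
      rw [hα]
      rfl

theorem sR_tR (top : I) (ht : ∀ i, i ≤ top) : sR E A B I top ht ≫ tR E A B I = 𝟙 _ := rfl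

/-- the section of `pR` -/
def spR (top : I) (ht : ∀ i, i ≤ top) :
    SSt.const (((E.sub A).S I).Ob × ((E.sub B).S I).Ob) ⟶ PR E A B I where
  app n t := (((E.sub A).Smap (Jn.toL top ht)).F.obj t.1, t.2)
  nat {m n} f t := by
    refine Prod.ext ?_ rfl
    change ((E.sub A).Smap _).F.obj t.1 =
      ((E.sub A).Smap ((Jn.toL top ht).comp (Jn.map OrderHom.id f))).F.obj t.1
    congr 3
    ext x
    cases x <;> rfl

/-- the homotopy from `pR ≫ spR` to the identity -/
def hpR (top : I) (ht : ∀ i, i ≤ top) : SSt.Htpy (pR E A B I ≫ spR E A B I top ht) (𝟙 _) where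
  h n θ t := (((E.sub A).Smap (Jn.kR top ht θ)).F.obj t.1, t.2)
  nat {m n} θ α t := by
    refine Prod.ext ?_ rfl
    change ((E.sub A).Smap ((Jn.map OrderHom.id θ).comp (Jn.kR top ht (α.comp θ)))).F.obj t.1 =
      ((E.sub A).Smap ((Jn.kR top ht α).comp (Jn.map OrderHom.id θ))).F.obj t.1
    congr 3
    ext x
    rcases x with i | j
    · rfl
    · change Jn.map OrderHom.id θ (cond (α (θ j)) (Jn.r j) (Jn.l top)) =
        cond (α (θ j)) (Jn.r (θ j)) (Jn.l top)
      cases α (θ j) <;> rfl
  h0 n α t hα := by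
    refine Prod.ext ?_ rfl
    change ((E.sub A).Smap (Jn.kR top ht α)).F.obj t.1 =
      ((E.sub A).Smap (Jn.L.comp (Jn.toL top ht))).F.obj t.1
    congr 3
    ext x
    rcases x with i | j
    · rfl
    · change cond (α j) (Jn.r j) (Jn.l top) = Jn.l top
      rw [hα]
      rfl
  h1 n α t hα := by
    refine Prod.ext ?_ rfl
    change ((E.sub A).Smap (Jn.kR top ht α)).F.obj t.1 = ((E.sub A).Smap OrderHom.id).F.obj t.1
    congr 3
    ext x
    rcases x with i | j
    · rfl
    · change cond (α j) (Jn.r j) (Jn.l top) = Jn.r j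
      rw [hα]
      rfl

theorem spR_pR (top : I) (ht : ∀ i, i ≤ top) : spR E A B I top ht ≫ pR E A B I = 𝟙 _ := rfl

end

end Pool.Agent.KQ
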