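import Pool.Agent.KQ.AddA

/-!
# KQ: strong additivity: the homotopies of the I-direction
-/

set_option autoImplicit false
set_option linter.unusedVariables false

noncomputable section

namespace Pool.Agent.KQ

open CategoryTheory CategoryTheory.Limits

universe u

/-! ### mixing two isomorphic diagrams -/

section mix

variable {K : Type} [Preorder K] {C : Type (u + 1)} [Category.{u} C]

/-- the isomorphisms of `MixD` -/
def mixIso {X Y : C} (e : X ≅ Y) : (b : Bool) → (X ≅ cond b Y X)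
  | false => Iso.refl X
  | true => e

/-- the diagram `D q` if `τ q = false`, `D' q` if `τ q = true` -/
def MixD (D : K ⥤ C) (D' : K → C) (φ : ∀ q, D.obj q ≅ D' q) (τ : K → Bool) : K ⥤ C :=
  D.copyObj (fun q => cond (τ q) (D' q) (D.obj q)) fun q => mixIso (φ q) (τ q)

/-- it is isomorphic to `D` -/
def MixI (D : K ⥤ C) (D' : K → C) (φ : ∀ q, D.obj q ≅ D' q) (τ : K → Bool) :
    D ≅ MixD D D' φ τ := D.isoCopyObj _ _

theorem functor_eq {F G : K ⥤ C} (h : ∀ q, F.obj q = G.obj q)
    (h' : ∀ (q q' : K) (f : q ⟶ q'), HEq (F.map f) (G.map f)) : F = G :=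
  Functor.hext h fun q q' f => h' q q' f

theorem MixD_false (D : K ⥤ C) (D' : K → C) (φ : ∀ q, D.obj q ≅ D' q) :
    MixD D D' φ (fun _ => false) = D := by
  refine functor_eq (fun _ => rfl) fun q q' f => heq_of_eq ?_
  change 𝟙 _ ≫ D.map f ≫ 𝟙 _ = D.map f
  rw [Category.id_comp, Category.comp_id]

theorem MixD_true (D D' : K ⥤ C) (φ : D ≅ D') :
    MixD D D'.obj (fun q => φ.app q) (fun _ => true) = D' := by
  refine functor_eq (fun _ => rfl) fun q q' f => heq_of_eq ?_
  change φ.inv.app q ≫ D.map f ≫ φ.hom.app q' = D'.map f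
  rw [φ.hom.naturality, ← Category.assoc, Iso.inv_hom_id_app, Category.id_comp]

end mix

section

variable {E : ExCat.{u}} {A B : SubP E} {I J I' J' : Type} [Preorder I] [Preorder J]
  [Preorder I'] [Preorder J']

theorem SP_iso {K : Type} [Preorder K] {X Y : Ar K ⥤ E.C} (e : X ≅ Y) (h : (E.SP K).Q X) :
    (E.SP K).Q Y := (E.SP K).iso e h

/-- replace `e` by an isomorphic diagram -/
def TT.repl (t : TT E A B I J) (D : Ar I ⥤ E.C) (φ : (show Ar I ⥤ E.C from t.e.obj) ≅ D) :
    TT E A B I J where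
  x := t.x
  e := ⟨D, SP_iso φ t.e.property⟩
  b := t.b
  α := t.α ≫ φ.hom
  β := φ.inv ≫ t.β
  ses q := ses_of_iso (t.ses q) (Iso.refl _) (φ.app q) (Iso.refl _)
    (by
      change 𝟙 _ ≫ t.α.app q ≫ φ.hom.app q = t.α.app q ≫ φ.hom.app q
      rw [Category.id_comp])
    (by
      change φ.hom.app q ≫ φ.inv.app q ≫ t.β.app q = t.β.app q ≫ 𝟙 _
      rw [Iso.hom_inv_id_app_assoc, Category.comp_id])

/-- mix `e` with an isomorphic diagram -/
def TT.mix (t : TT E A B I J) (D : Ar I → E.C) (φ : ∀ q, t.e.obj.obj q ≅ D q)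
    (τ : I →o Bool) : TT E A B I J :=
  t.repl (MixD t.e.obj D φ fun q => τ q.1.2) (MixI t.e.obj D φ fun q => τ q.1.2)

theorem TT.mix_false (t : TT E A B I J) (D : Ar I → E.C) (φ : ∀ q, t.e.obj.obj q ≅ D q)
    (τ : I →o Bool) (h : ∀ i, τ i = false) : t.mix D φ τ = t := by
  obtain rfl : τ = ⟨fun _ => false, fun _ _ _ => le_rfl⟩ := OrderHom.ext _ _ (funext h)
  refine TT.ext_heq rfl ?_ rfl (fun q => heq_of_eq ?_) (fun q => heq_of_eq ?_)
  · have h1 := MixD_false (K := Ar I) t.e.obj D φ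
    obtain ⟨x, e, b, α, β, ses⟩ := t
    obtain ⟨e, he⟩ := e
    change (⟨MixD (K := Ar I) e D φ fun _ => false, _⟩ : (E.S I).Ob) = ⟨e, he⟩
    congr 1
  · exact Category.comp_id _
  · exact Category.id_comp _

theorem TT.mix_true (t : TT E A B I J) (D : Ar I ⥤ E.C)
    (φ : (show Ar I ⥤ E.C from t.e.obj) ≅ D) (τ : I →o Bool) (h : ∀ i, τ i = true) :
    t.mix D.obj (fun q => φ.app q) τ = t.repl D φ := by
  obtain rfl : τ = ⟨fun _ => true, fun _ _ _ => le_rfl⟩ := OrderHom.ext _ _ (funext h)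
  refine TT.ext_heq rfl ?_ rfl (fun q => HEq.rfl) (fun q => HEq.rfl)
  have h1 := MixD_true (K := Ar I) t.e.obj D φ
  change (⟨MixD (K := Ar I) t.e.obj D.obj (fun q => φ.app q) fun _ => true, _⟩ : (E.S I).Ob) =
    ⟨D, _⟩
  congr 1

theorem TT.mix_map (t : TT E A B I J) (D : Ar I → E.C) (φ : ∀ q, t.e.obj.obj q ≅ D q)
    (τ : I →o Bool) (f : I' →o I) (g : J' →o J) :
    (t.mix D φ τ).map f g =
      (t.map f g).mix (fun q => D (Ar.map f q)) (fun q => φ (Ar.map f q)) (τ.comp f) := rfl

theorem TT.push_congr (t : TT E A B I J) (p : I' →o I) {c c' : Jn I' J' →o Jn I J} (hc : c = c')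
    (h : ∀ i, Jn.l (p i) ≤ c (Jn.l i)) :
    t.push p c h = t.push p c' (fun i => by rw [← hc]; exact h i) := by
  subst hc
  rfl

end

section

variable (E : ExCat.{u}) (A B : SubP E) (J : Type) [Preorder J] (bot : J) (hb : ∀ j, bot ≤ j)

theorem Jn.kL_le {I : Type} [Preorder I] (θ : I →o Bool) (i : I) :
    Jn.l i ≤ Jn.kL bot hb θ (Jn.l i) := by
  change Jn.l i ≤ cond (θ i) (Jn.r bot) (Jn.l i)
  cases θ i
  · exact le_refl (Jn.l i)
  · trivial

/-- push out along identities -/
def G0T : TL E A B J ⟶ TL E A B J where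
  app m t := t.push OrderHom.id OrderHom.id (fun i => le_refl (Jn.l i))
  nat f t := rfl

/-- push out along the map to the first element of `J` -/
def G1T : TL E A B J ⟶ TL E A B J where
  app m t := t.push OrderHom.id (Jn.cb bot hb) (fun i => trivial)
  nat {m n} f t := by
    refine TT.push_congr t f (c := (Jn.map f OrderHom.id).comp (Jn.cb bot hb))
      (c' := (Jn.cb bot hb).comp (Jn.map f OrderHom.id)) ?_ (fun i => trivial)
    ext x
    cases x <;> rfl

/-- the homotopy from `G0T` to `G1T` -/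
def h2T : SSt.Htpy (G0T E A B J) (G1T E A B J bot hb) where
  h m θ t := t.push OrderHom.id (Jn.kL bot hb θ) (Jn.kL_le J bot hb θ)
  nat {m n} θ α t := by
    refine TT.push_congr t θ (c := (Jn.map θ OrderHom.id).comp (Jn.kL bot hb (α.comp θ)))
      (c' := (Jn.kL bot hb α).comp (Jn.map θ OrderHom.id)) ?_
      (fun i => (Jn.map θ (OrderHom.id : J →o J)).monotone (Jn.kL_le J bot hb (α.comp θ) i))
    ext x
    rcases x with i | j
    · change Jn.map θ OrderHom.id (cond (α (θ i)) (Jn.r bot) (Jn.l i)) =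
        cond (α (θ i)) (Jn.r bot) (Jn.l (θ i))
      cases α (θ i) <;> rfl
    · rfl
  h0 n α t hα := by
    refine TT.push_congr t _ ?_ _
    ext x
    rcases x with i | j
    · change cond (α i) (Jn.r bot) (Jn.l i) = Jn.l i
      rw [hα]
      rfl
    · rfl
  h1 n α t hα := by
    refine TT.push_congr t _ ?_ _
    ext x
    rcases x with i | j
    · change cond (α i) (Jn.r bot) (Jn.l i) = Jn.r bot
      rw [hα]
      rfl
    · rfl

/-- the section of `piL` up to homotopy -/
def gamT : PL E A B J ⟶ TL E A B J where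
  app m t := 
    { x := ((E.sub A).Smap (Jn.cb bot hb)).F.obj t.1
      e := ⟨t.2.obj, SP_sub B t.2.property⟩
      b := t.2
      α := 0
      β := 𝟙 _
      ses := fun q => by
        have h1 := t.1.property.2.1 (Jn.r bot)
        change SES (0 : t.1.obj.obj _ ⟶ t.2.obj.obj q) (𝟙 (t.2.obj.obj q))
        exact ses_id_right (𝟙 _) h1 _ }
  nat {m n} f t := by
    refine TT.ext_heq ?_ rfl rfl (fun q => ?_) (fun q => HEq.rfl)
    · change ((E.sub A).Smap ((Jn.map f OrderHom.id).comp (Jn.cb bot hb))).F.obj t.1 =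
        ((E.sub A).Smap ((Jn.cb bot hb).comp (Jn.map f OrderHom.id))).F.obj t.1
      congr 3
      ext x
      cases x <;> rfl
    · exact HEq.rfl

/-- a short exact sequence with zero first term -/
def isoOfSES {C : Type (u + 1)} [Category.{u} C] [Abelian C] {X Y Z : C} {f : X ⟶ Y} {g : Y ⟶ Z}
    (h : SES f g) (hX : IsZero X) : Y ≅ Z :=
  haveI : Mono g := by
    rw [Preadditive.mono_iff_cancel_zero]
    intro T y hy
    obtain ⟨x, hx⟩ := h.lift y hy
    rw [← hx, hX.eq_of_tgt x 0, zero_comp]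
  haveI : Epi g := h.epi
  haveI : IsIso g := isIso_of_mono_of_epi g
  asIso g

theorem isoOfSES_hom {C : Type (u + 1)} [Category.{u} C] [Abelian C] {X Y Z : C} {f : X ⟶ Y}
    {g : Y ⟶ Z} (h : SES f g) (hX : IsZero X) : (isoOfSES h hX).hom = g := rfl

/-- the isomorphism of the pushout along an identity -/
def isoPO {C : Type (u + 1)} [Category.{u} C] [Abelian C] {X Y Z : C} (f : X ⟶ Y) (g : X ⟶ Z)
    (h : IsIso g) : Y ≅ pushout f g :=
  haveI := h
  asIso (pushout.inl f g)

theorem isoPO_hom {C : Type (u + 1)} [Category.{u} C] [Abelian C] {X Y Z : C} (f : X ⟶ Y)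
    (g : X ⟶ Z) (h : IsIso g) : (isoPO f g h).hom = pushout.inl f g := rfl

/-- the isomorphism from `e` to the pushout along identities -/
def phi0 {I : Type} [Preorder I] (t : TT E A B I J) :
    (show Ar I ⥤ E.C from t.e.obj) ≅
      t.pushE OrderHom.id ((OrderHom.id : Jn I J →o Jn I J).comp Jn.L)
        (fun i => le_refl (Jn.l i)) :=
  NatIso.ofComponents (fun q => isoPO _ _ (by
      change IsIso (t.x.obj.map (𝟙 _))
      rw [t.x.obj.map_id]
      infer_instance)) (by
    intro q q' f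
    exact (PO.inl (Functor.whiskerLeft (Ar.map OrderHom.id).monotone.functor t.α)
      (cTr t.x.obj OrderHom.id (OrderHom.id.comp Jn.L) (fun i => le_refl (Jn.l i)))).naturality f)

/-- the isomorphism from the pushout along the map to zero objects to `b` -/
def phi1 {I : Type} [Preorder I] (t : TT E A B I J) :
    t.pushE OrderHom.id ((Jn.cb bot hb : Jn I J →o Jn I J).comp Jn.L) (fun i => trivial) ≅
      (show Ar I ⥤ E.C from t.b.obj) :=
  NatIso.ofComponents (fun q => isoOfSES (t.push_ses OrderHom.id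
      ((Jn.cb bot hb : Jn I J →o Jn I J).comp Jn.L) (fun i => trivial) q)
      (t.x.property.2.1 (Jn.r bot))) (by
    intro q q' f
    exact (t.pushβ OrderHom.id ((Jn.cb bot hb : Jn I J →o Jn I J).comp Jn.L)
      (fun i => trivial)).naturality f)

/-- the homotopy from the identity to `G0T` -/
def h1T : SSt.Htpy (𝟙 (TL E A B J)) (G0T E A B J) where
  h m θ t := t.mix (t.pushE OrderHom.id ((OrderHom.id : Jn _ J →o Jn _ J).comp Jn.L)
    (fun i => le_refl (Jn.l i))).obj (fun q => (phi0 E A B J t).app q) θ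
  nat {m n} θ α t := rfl
  h0 n α t hα := t.mix_false _ _ α hα
  h1 n α t hα := by
    refine (t.mix_true _ (phi0 E A B J t) α hα).trans ?_
    refine TT.ext_heq rfl rfl rfl (fun q => heq_of_eq ?_) (fun q => heq_of_eq ?_)
    · change t.α.app q ≫ pushout.inl (t.α.app q) (t.x.obj.map (𝟙 _)) =
        pushout.inr (t.α.app q) (t.x.obj.map (𝟙 _))
      rw [pushout.condition, t.x.obj.map_id]
      exact Category.id_comp _
    · have h2 : (phi0 E A B J t).hom.app q ≫ (t.pushβ OrderHom.id
          ((OrderHom.id : Jn _ J →o Jn _ J).comp Jn.L) (fun i => le_refl (Jn.l i))).app q =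
          t.β.app q := pushout.inl_desc _ _ _
      exact (Iso.inv_comp_eq ((phi0 E A B J t).app q)).2 h2.symm

/-- the homotopy from `G1T` to `piL ≫ gamT` -/
def h3T : SSt.Htpy (G1T E A B J bot hb) (piL E A B J ≫ gamT E A B J bot hb) where
  h m θ t := (t.push OrderHom.id (Jn.cb bot hb) (fun i => trivial)).mix
    (show Ar _ ⥤ E.C from t.b.obj).obj (fun q => (phi1 E A B J bot hb t).app q) θ
  nat {m n} θ α t := by
    refine TT.ext_heq ?_ rfl rfl (fun q => HEq.rfl) (fun q => HEq.rfl)
    change ((E.sub A).Smap ((Jn.map θ OrderHom.id).comp (Jn.cb bot hb))).F.obj t.x =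
      ((E.sub A).Smap ((Jn.cb bot hb).comp (Jn.map θ OrderHom.id))).F.obj t.x
    congr 3
    ext x
    cases x <;> rfl
  h0 n α t hα := TT.mix_false _ _ _ α hα
  h1 n α t hα := by
    refine (TT.mix_true (t.push OrderHom.id (Jn.cb bot hb) (fun i => trivial)) _
      (phi1 E A B J bot hb t) α hα).trans ?_
    refine TT.ext_heq rfl rfl rfl (fun q => heq_of_eq ?_) (fun q => heq_of_eq ?_)
    · exact (t.x.property.2.1 (Jn.r bot)).eq_of_src _ _
    · exact (phi1 E A B J bot hb t).inv_hom_id_app q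

/-- the homotopy from the identity to `gamT ≫ piL` -/
def h4T : SSt.Htpy (𝟙 (PL E A B J)) (gamT E A B J bot hb ≫ piL E A B J) where
  h m θ t := (((E.sub A).Smap (Jn.kL bot hb θ)).F.obj t.1, t.2)
  nat {m n} θ α t := by
    refine Prod.ext ?_ rfl
    change ((E.sub A).Smap ((Jn.map θ OrderHom.id).comp (Jn.kL bot hb (α.comp θ)))).F.obj t.1 =
      ((E.sub A).Smap ((Jn.kL bot hb α).comp (Jn.map θ OrderHom.id))).F.obj t.1
    congr 3
    ext x
    rcases x with i | j
    · change Jn.map θ OrderHom.id (cond (α (θ i)) (Jn.r bot) (Jn.l i)) =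
        cond (α (θ i)) (Jn.r bot) (Jn.l (θ i))
      cases α (θ i) <;> rfl
    · rfl
  h0 n α t hα := by
    refine Prod.ext ?_ rfl
    change ((E.sub A).Smap (Jn.kL bot hb α)).F.obj t.1 = ((E.sub A).Smap OrderHom.id).F.obj t.1
    congr 3
    ext x
    rcases x with i | j
    · change cond (α i) (Jn.r bot) (Jn.l i) = Jn.l i
      rw [hα]
      rfl
    · rfl
  h1 n α t hα := by
    refine Prod.ext ?_ rfl
    change ((E.sub A).Smap (Jn.kL bot hb α)).F.obj t.1 =
      ((E.sub A).Smap (Jn.cb bot hb)).F.obj t.1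
    congr 3
    ext x
    rcases x with i | j
    · change cond (α i) (Jn.r bot) (Jn.l i) = Jn.r bot
      rw [hα]
      rfl
    · rfl

end

end Pool.Agent.KQ
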