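import Pool.Agent.KQ.AddB
import Pool.Agent.KQ.StStr

/-!
# KQ: strong additivity: the theorem
-/

set_option autoImplicit false
set_option linter.unusedVariables false

noncomputable section

namespace Pool.Agent.KQ

open CategoryTheory CategoryTheory.Limits

universe u

/-! ### constant directions -/

/-- a simplicial set as a bisimplicial set, constant in the inner direction -/
def SSt.cB : SSt.{u} ⥤ SOb SSt.{u} where
  obj X :=
    { obj := fun m => SSt.const (X.obj m)
      map := fun θ => ⟨fun _ => X.map θ, fun _ _ => rfl⟩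
      map_id := fun n => SSt.hom_ext fun _ x => X.map_id n x
      map_comp := fun f g => SSt.hom_ext fun _ x => X.map_comp f g x }
  map {X Y} f := ⟨fun m => ⟨fun _ => f.app m, fun _ _ => rfl⟩,
    fun θ => SSt.hom_ext fun _ x => f.nat θ x⟩

/-! ### the bisimplicial sets -/

section

variable (E : ExCat.{u}) (A B : SubP E)

/-- `TT` as a bisimplicial set -/
def TB : SOb SSt.{u + 1} where
  obj m := TR E A B (Fin (m + 1))
  map {m m'} θ := ⟨fun n t => t.map θ OrderHom.id, fun {n n'} η t => by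
    change (t.map OrderHom.id η).map θ OrderHom.id = (t.map θ OrderHom.id).map OrderHom.id η
    rw [TT.map_map, TT.map_map]
    rfl⟩
  map_id m := SSt.hom_ext fun n t => t.map_id_id
  map_comp f g := SSt.hom_ext fun n t => (t.map_map g OrderHom.id f OrderHom.id).symm

/-- `PP` as a bisimplicial set -/
def PB : SOb SSt.{u + 1} where
  obj m := PR E A B (Fin (m + 1))
  map {m m'} θ := ⟨fun n t => t.map θ OrderHom.id, fun {n n'} η t => by
    change (t.map OrderHom.id η).map θ OrderHom.id = (t.map θ OrderHom.id).map OrderHom.id η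
    rw [PP.map_map, PP.map_map]
    rfl⟩
  map_id m := SSt.hom_ext fun n t => t.map_id_id
  map_comp f g := SSt.hom_ext fun n t => (t.map_map g OrderHom.id f OrderHom.id).symm

/-- forget `e` -/
def piB : TB E A B ⟶ PB E A B := ⟨fun m => ⟨fun n t => t.toPP, fun _ _ => rfl⟩, fun θ => rfl⟩

/-- forget `J` -/
def tB : TB E A B ⟶ SSt.cB.obj (ExtS E A B) := ⟨fun m => tR E A B (Fin (m + 1)), fun θ => rfl⟩

/-- forget `J` -/
def pB : PB E A B ⟶ SSt.cB.obj ((E.sub A).oS.prod (E.sub B).oS) :=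
  ⟨fun m => pR E A B (Fin (m + 1)), fun θ => rfl⟩

theorem piL_strong (h1 : St_StrHt.{u + 1}) (J : Type) [Preorder J] (bot : J)
    (hb : ∀ j, bot ≤ j) : SSt.Strong (piL E A B J) := by
  refine h1.2.1 (piL E A B J) (gamT E A B J bot hb) ?_ ?_
  · intro Φ n
    exact ((h1.1 _ _ ⟨h1T E A B J⟩ Φ n).trans ((h1.1 _ _ ⟨h2T E A B J bot hb⟩ Φ n).trans
      (h1.1 _ _ ⟨h3T E A B J bot hb⟩ Φ n))).symm
  · intro Φ n
    exact (h1.1 _ _ ⟨h4T E A B J bot hb⟩ Φ n).symm

theorem tR_strong (h1 : St_StrHt.{u + 1}) (I : Type) [Preorder I] (top : I)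
    (ht : ∀ i, i ≤ top) : SSt.Strong (tR E A B I) := by
  refine h1.2.1 (tR E A B I) (sR E A B I top ht) (h1.1 _ _ ⟨hR E A B I top ht⟩) ?_
  intro Φ n
  rw [sR_tR]

theorem pR_strong (h1 : St_StrHt.{u + 1}) (I : Type) [Preorder I] (top : I)
    (ht : ∀ i, i ≤ top) : SSt.Strong (pR E A B I) := by
  refine h1.2.1 (pR E A B I) (spR E A B I top ht) (h1.1 _ _ ⟨hpR E A B I top ht⟩) ?_
  intro Φ n
  rw [spR_pR]

/-- STRONG ADDITIVITY (McCarthy): the simplicial set of conflations of S-diagrams with outer terms in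
`A` and `B` is strongly equivalent to the product. -/
theorem extAB_strong (h1 : St_StrHt.{u + 1}) (h2 : St_Str23.{u + 1}) (h3 : St_StrRow.{u + 1})
    (h4 : St_StrCol.{u + 1}) : SSt.Strong (extAB E A B) := by
  have hτ : SSt.Strong (SSt.diagF.map (tB E A B)) := h3 _ fun m =>
    tR_strong E A B h1 (Fin (m + 1)) (Fin.last m) Fin.le_last
  have hρ : SSt.Strong (SSt.diagF.map (pB E A B)) := h3 _ fun m =>
    pR_strong E A B h1 (Fin (m + 1)) (Fin.last m) Fin.le_last
  have hπ : SSt.Strong (SSt.diagF.map (piB E A B)) := h4 _ fun n =>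
    piL_strong E A B h1 (Fin (n + 1)) 0 Fin.zero_le
  have hc : SSt.Strong (SSt.diagF.map (piB E A B) ≫ SSt.diagF.map (pB E A B)) := h2.1 _ _ hπ hρ
  let τ' : SSt.diag (TB E A B) ⟶ ExtS E A B := SSt.diagF.map (tB E A B)
  let ρ' : SSt.diag (PB E A B) ⟶ (E.sub A).oS.prod (E.sub B).oS := SSt.diagF.map (pB E A B)
  have he : τ' ≫ extAB E A B = SSt.diagF.map (piB E A B) ≫ ρ' := rfl
  refine h2.2.1 τ' (extAB E A B) hτ ?_
  rw [he]
  exact hc

end

end Pool.Agent.KQ
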