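import Pool.Agent.KQ.DEx
import Pool.Agent.KQ.DSG

/-!
# KQ: strong additivity (McCarthy): definitions (architect helper83)

* `Jn I J`: the join of two preorders.
* `Ext E A B I`: conflations `a ⟶ e ⟶ b` of S-diagrams over `I`, `a` in `A`, `e` in `E`, `b` in `B`.
* `TT E A B I J`: such conflations, with an extension `x` of `a` to the join `Jn I J`.
* `TT.push t p c`: push out along `x (p i, p k) ⟶ x (c i, c k)`.
* `Mix`: the homotopy given by a natural isomorphism of diagrams.
-/

set_option autoImplicit false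
set_option linter.unusedVariables false

noncomputable section

namespace Pool.Agent.KQ

open CategoryTheory CategoryTheory.Limits

universe u

/-! ### joins -/

/-- the join of two preorders: the elements of `I` are below those of `J` -/
inductive Jn (I J : Type) : Type
  | l (i : I) : Jn I J
  | r (j : J) : Jn I J

namespace Jn

/-- the order of the join -/
def le {I J : Type} [Preorder I] [Preorder J] : Jn I J → Jn I J → Prop
  | l i, l i' => i ≤ i'
  | l _, r _ => True
  | r _, l _ => False
  | r j, r j' => j ≤ j'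

instance {I J : Type} [Preorder I] [Preorder J] : Preorder (Jn I J) where
  le := le
  le_refl x := by
    cases x
    · exact le_refl (α := I) _
    · exact le_refl (α := J) _
  le_trans x y z h h' := by
    cases x <;> cases y <;> cases z
    · exact le_trans (α := I) h h'
    · trivial
    · exact absurd h' id
    · trivial
    · exact absurd h id
    · exact absurd h id
    · exact absurd h' id
    · exact le_trans (α := J) h h'

variable {I J I' J' : Type} [Preorder I] [Preorder J] [Preorder I'] [Preorder J']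

/-- the inclusion of `I` -/
def L : I →o Jn I J := ⟨l, fun _ _ h => h⟩

/-- the inclusion of `J` -/
def R : J →o Jn I J := ⟨r, fun _ _ h => h⟩

/-- functoriality of the join -/
def map (f : I' →o I) (g : J' →o J) : Jn I' J' →o Jn I J where
  toFun
    | l i => l (f i)
    | r j => r (g j)
  monotone' := by
    rintro (i | j) (i' | j') h
    · exact f.monotone h
    · trivial
    · exact absurd h id
    · exact g.monotone h

end Jn

/-! ### conflations of S-diagrams -/

section

variable (E : ExCat.{u}) (A B : SubP E) (I J : Type) [Preorder I] [Preorder J]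

/-- conflations `a ⟶ e ⟶ b` of S-diagrams over `I`, `a` in `A`, `e` in `E`, `b` in `B` -/
structure Ext where
  a : ((E.sub A).S I).Ob
  e : (E.S I).Ob
  b : ((E.sub B).S I).Ob
  α : (show Ar I ⥤ E.C from a.obj) ⟶ (show Ar I ⥤ E.C from e.obj)
  β : (show Ar I ⥤ E.C from e.obj) ⟶ (show Ar I ⥤ E.C from b.obj)
  ses : ∀ q : Ar I, SES (α.app q) (β.app q)

/-- conflations `x|I ⟶ e ⟶ b` of S-diagrams over `I`, with `x` in `A` over the join of `I` and `J` -/
structure TT where
  x : ((E.sub A).S (Jn I J)).Ob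
  e : (E.S I).Ob
  b : ((E.sub B).S I).Ob
  α : (Ar.map (Jn.L (I := I) (J := J))).monotone.functor ⋙ (show Ar (Jn I J) ⥤ E.C from x.obj) ⟶
    (show Ar I ⥤ E.C from e.obj)
  β : (show Ar I ⥤ E.C from e.obj) ⟶ (show Ar I ⥤ E.C from b.obj)
  ses : ∀ q : Ar I, SES (α.app q) (β.app q)

end

section

variable {E : ExCat.{u}} {A B : SubP E} {I J I' J' I'' : Type} [Preorder I] [Preorder J]
  [Preorder I'] [Preorder J'] [Preorder I'']

/-- the operators of `Ext` -/
def Ext.map (f : I' →o I) (t : Ext E A B I) : Ext E A B I' where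
  a := ((E.sub A).Smap f).F.obj t.a
  e := (E.Smap f).F.obj t.e
  b := ((E.sub B).Smap f).F.obj t.b
  α := Functor.whiskerLeft (Ar.map f).monotone.functor t.α
  β := Functor.whiskerLeft (Ar.map f).monotone.functor t.β
  ses q := t.ses (Ar.map f q)

/-- the operators of `TT` -/
def TT.map (f : I' →o I) (g : J' →o J) (t : TT E A B I J) : TT E A B I' J' where
  x := ((E.sub A).Smap (Jn.map f g)).F.obj t.x
  e := (E.Smap f).F.obj t.e
  b := ((E.sub B).Smap f).F.obj t.b
  α := Functor.whiskerLeft (Ar.map f).monotone.functor t.α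
  β := Functor.whiskerLeft (Ar.map f).monotone.functor t.β
  ses q := t.ses (Ar.map f q)

/-- forget `J` -/
def TT.toExt (t : TT E A B I J) : Ext E A B I where
  a := ((E.sub A).Smap Jn.L).F.obj t.x
  e := t.e
  b := t.b
  α := t.α
  β := t.β
  ses := t.ses

theorem TT.toExt_map (f : I' →o I) (g : J' →o J) (t : TT E A B I J) :
    (t.map f g).toExt = t.toExt.map f := rfl

theorem Ext.map_map (f : I' →o I) (g : I'' →o I') (t : Ext E A B I) :
    (t.map f).map g = t.map (f.comp g) := rfl

/-! ### pushouts -/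

/-- pointwise pushout of diagrams -/
def PO {K : Type} [Preorder K] {C : Type (u + 1)} [Category.{u} C] [Abelian C]
    {X Y Z : K ⥤ C} (α : X ⟶ Y) (γ : X ⟶ Z) : K ⥤ C where
  obj q := pushout (α.app q) (γ.app q)
  map {q q'} h := pushout.desc (Y.map h ≫ pushout.inl (α.app q') (γ.app q'))
    (Z.map h ≫ pushout.inr (α.app q') (γ.app q')) (by
      rw [← Category.assoc, ← α.naturality, Category.assoc, pushout.condition, ← Category.assoc,
        γ.naturality, Category.assoc])
  map_id q := by
    apply pushout.hom_ext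
    · rw [pushout.inl_desc, Y.map_id, Category.id_comp, Category.comp_id]
    · rw [pushout.inr_desc, Z.map_id, Category.id_comp, Category.comp_id]
  map_comp f g := by
    apply pushout.hom_ext
    · rw [pushout.inl_desc, pushout.inl_desc_assoc, Category.assoc, pushout.inl_desc, Y.map_comp,
        Category.assoc]
    · rw [pushout.inr_desc, pushout.inr_desc_assoc, Category.assoc, pushout.inr_desc, Z.map_comp,
        Category.assoc]

/-- the inclusion of `Y` -/
def PO.inl {K : Type} [Preorder K] {C : Type (u + 1)} [Category.{u} C] [Abelian C]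
    {X Y Z : K ⥤ C} (α : X ⟶ Y) (γ : X ⟶ Z) : Y ⟶ PO α γ where
  app q := pushout.inl (α.app q) (γ.app q)
  naturality q q' f := (pushout.inl_desc _ _ _).symm

/-- the inclusion of `Z` -/
def PO.inr {K : Type} [Preorder K] {C : Type (u + 1)} [Category.{u} C] [Abelian C]
    {X Y Z : K ⥤ C} (α : X ⟶ Y) (γ : X ⟶ Z) : Z ⟶ PO α γ where
  app q := pushout.inr (α.app q) (γ.app q)
  naturality q q' f := (pushout.inr_desc _ _ _).symm

/-- the map to the cokernel -/
def PO.toCok {K : Type} [Preorder K] {C : Type (u + 1)} [Category.{u} C] [Abelian C]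
    {X Y Z W : K ⥤ C} (α : X ⟶ Y) (γ : X ⟶ Z) (β : Y ⟶ W) (h : ∀ q, α.app q ≫ β.app q = 0) :
    PO α γ ⟶ W where
  app q := pushout.desc (β.app q) 0 (by rw [h, comp_zero])
  naturality q q' f := by
    apply pushout.hom_ext
    · change pushout.inl _ _ ≫ pushout.desc _ _ _ ≫ pushout.desc _ _ _ =
        pushout.inl _ _ ≫ pushout.desc _ _ _ ≫ _
      rw [pushout.inl_desc_assoc, pushout.inl_desc_assoc, Category.assoc, pushout.inl_desc,
        β.naturality]
    · change pushout.inr _ _ ≫ pushout.desc _ _ _ ≫ pushout.desc _ _ _ =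
        pushout.inr _ _ ≫ pushout.desc _ _ _ ≫ _
      rw [pushout.inr_desc_assoc, pushout.inr_desc_assoc, Category.assoc, pushout.inr_desc,
        comp_zero, zero_comp]

/-- the pushout of a short exact sequence is short exact -/
theorem PO.ses {C : Type (u + 1)} [Category.{u} C] [Abelian C] {X Y Z W : C} (α : X ⟶ Y)
    (γ : X ⟶ Z) (β : Y ⟶ W) (h : SES α β) (w : α ≫ β = γ ≫ 0) :
    SES (pushout.inr α γ) (pushout.desc β 0 w : pushout α γ ⟶ W) := by
  have hm := h.mono
  have he := h.epi
  have hw : pushout.inr α γ ≫ (pushout.desc β 0 w : pushout α γ ⟶ W) = 0 :=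
    pushout.inr_desc _ _ _
  have h1 : pushout.inl α γ ≫ (pushout.desc β 0 w : pushout α γ ⟶ W) = β :=
    pushout.inl_desc _ _ _
  have hepi : Epi (pushout.desc β 0 w : pushout α γ ⟶ W) := epi_of_epi_fac h1
  refine ⟨hw, ShortComplex.ShortExact.mk' ?_ ?_ hepi⟩
  · refine ShortComplex.exact_of_g_is_cokernel _ ?_
    refine CokernelCofork.IsColimit.ofπ _ _ (fun {T} y hy =>
      (h.desc (pushout.inl α γ ≫ y) (by
        rw [pushout.condition_assoc]
        change pushout.inr α γ ≫ y = 0 at hy
        rw [hy, comp_zero])).choose) (fun {T} y hy => ?_) (fun {T} y hy m hm' => ?_)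
    · have h2 := (h.desc (pushout.inl α γ ≫ y) (by
        rw [pushout.condition_assoc]
        change pushout.inr α γ ≫ y = 0 at hy
        rw [hy, comp_zero])).choose_spec
      apply pushout.hom_ext
      · change pushout.inl α γ ≫ pushout.desc β 0 w ≫ _ = _
        rw [pushout.inl_desc_assoc, h2]
      · change pushout.inr α γ ≫ pushout.desc β 0 w ≫ _ = _
        rw [pushout.inr_desc_assoc, zero_comp]
        exact hy.symm
    · have h2 := (h.desc (pushout.inl α γ ≫ y) (by
        rw [pushout.condition_assoc]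
        change pushout.inr α γ ≫ y = 0 at hy
        rw [hy, comp_zero])).choose_spec
      rw [← cancel_epi β, h2, ← hm']
      change β ≫ m = pushout.inl α γ ≫ pushout.desc β 0 w ≫ m
      rw [pushout.inl_desc_assoc]
  · change Mono (pushout.inr α γ)
    infer_instance

/-- the transformation `x (l (p i), l (p k)) ⟶ x (c i, c k)` -/
def cTr {C : Type (u + 1)} [Category.{u} C] (x : Ar (Jn I J) ⥤ C) (p : I' →o I)
    (c : I' →o Jn I J) (h : ∀ i, Jn.l (p i) ≤ c i) :
    (Ar.map p).monotone.functor ⋙ (Ar.map (Jn.L (I := I) (J := J))).monotone.functor ⋙ x ⟶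
      (Ar.map c).monotone.functor ⋙ x where
  app q := x.map (homOfLE ⟨h q.1.1, h q.1.2⟩)
  naturality q q' f := by
    change x.map _ ≫ x.map _ = x.map _ ≫ x.map _
    rw [← x.map_comp, ← x.map_comp]
    rfl

/-- a diagram which is an extension of S-diagrams is an S-diagram -/
theorem SP_of_ext {K : Type} [Preorder K] {X Z : Ar K ⥤ E.C} (hX : (E.SP K).Q X)
    (hZ : (E.SP K).Q Z) (Y : Ar K ⥤ E.C) (f : X ⟶ Y) (g : Y ⟶ Z)
    (h : ∀ q, SES (f.app q) (g.app q)) : (E.SP K).Q Y := (E.SP K).ext f g h hX hZ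

theorem SP_sub {K : Type} [Preorder K] (A : SubP E) {X : Ar K ⥤ E.C} (h : ((E.sub A).SP K).Q X) :
    (E.SP K).Q X := ⟨fun x => A.le _ (h.1 x), h.2⟩

section push

variable (t : TT E A B I J) (p : I' →o I) (c : I' →o Jn I J) (h : ∀ i, Jn.l (p i) ≤ c i)

/-- the middle term of `TT.push` -/
def TT.pushE : Ar I' ⥤ E.C :=
  PO (Functor.whiskerLeft (Ar.map p).monotone.functor t.α) (cTr t.x.obj p c h)

/-- the quotient map of `TT.push` -/
def TT.pushβ : t.pushE p c h ⟶ (Ar.map p).monotone.functor ⋙ (show Ar I ⥤ E.C from t.b.obj) :=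
  PO.toCok _ _ (Functor.whiskerLeft (Ar.map p).monotone.functor t.β) fun q => (t.ses _).w

/-- the inclusion of `TT.push` -/
def TT.pushα : (Ar.map c).monotone.functor ⋙ (show Ar (Jn I J) ⥤ E.C from t.x.obj) ⟶
    t.pushE p c h :=
  PO.inr _ _

theorem TT.push_ses (q : Ar I') : SES ((t.pushα p c h).app q) ((t.pushβ p c h).app q) :=
  PO.ses _ _ _ (t.ses (Ar.map p q)) _

theorem TT.pushE_mem : (E.SP I').Q (t.pushE p c h) :=
  SP_of_ext (SP_sub A ((((E.sub A).Smap c).F.obj t.x).property))
    (SP_sub B ((((E.sub B).Smap p).F.obj t.b).property)) _ (t.pushα p c h) (t.pushβ p c h)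
    (t.push_ses p c h)

end push

/-- `TT.push`: restrict `x` along `c`, push out along `x (p i, p k) ⟶ x (c i, c k)`, restrict `b`
along `p` -/
def TT.push (t : TT E A B I J) (p : I' →o I) (c : Jn I' J' →o Jn I J)
    (h : ∀ i, Jn.l (p i) ≤ c (Jn.l i)) : TT E A B I' J' where
  x := ((E.sub A).Smap c).F.obj t.x
  e := ⟨t.pushE p (c.comp Jn.L) h, t.pushE_mem p (c.comp Jn.L) h⟩
  b := ((E.sub B).Smap p).F.obj t.b
  α := t.pushα p (c.comp Jn.L) h
  β := t.pushβ p (c.comp Jn.L) h
  ses := t.push_ses p (c.comp Jn.L) h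

theorem TT.push_map {J'' : Type} [Preorder J''] (t : TT E A B I J) (p : I' →o I)
    (c : Jn I' J' →o Jn I J) (h : ∀ i, Jn.l (p i) ≤ c (Jn.l i)) (f : I'' →o I')
    (g : J'' →o J') :
    (t.push p c h).map f g = t.push (p.comp f) (c.comp (Jn.map f g)) (fun i => h (f i)) := rfl

theorem TT.map_push {J'' : Type} [Preorder J''] (t : TT E A B I J) (f : I'' →o I)
    (g : J'' →o J) (p : I' →o I'') (c : Jn I' J' →o Jn I'' J'')
    (h : ∀ i, Jn.l (p i) ≤ c (Jn.l i)) :
    (t.map f g).push p c h =
      t.push (f.comp p) ((Jn.map f g).comp c) (fun i => (Jn.map f g).monotone (h i)) := rfl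

theorem TT.ext_heq {t t' : TT E A B I J} (hx : t.x = t'.x) (he : t.e = t'.e) (hb : t.b = t'.b)
    (hα : ∀ q, HEq (t.α.app q) (t'.α.app q)) (hβ : ∀ q, HEq (t.β.app q) (t'.β.app q)) : t = t' := by
  obtain ⟨x, e, b, α, β, ses⟩ := t
  obtain ⟨x', e', b', α', β', ses'⟩ := t'
  dsimp only at hx he hb
  subst hx he hb
  have h1 : α = α' := NatTrans.ext (funext fun q => eq_of_heq (hα q))
  have h2 : β = β' := NatTrans.ext (funext fun q => eq_of_heq (hβ q))
  subst h1 h2
  rfl

theorem Ext.ext_heq {t t' : Ext E A B I} (ha : t.a = t'.a) (he : t.e = t'.e) (hb : t.b = t'.b)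
    (hα : ∀ q, HEq (t.α.app q) (t'.α.app q)) (hβ : ∀ q, HEq (t.β.app q) (t'.β.app q)) : t = t' := by
  obtain ⟨x, e, b, α, β, ses⟩ := t
  obtain ⟨x', e', b', α', β', ses'⟩ := t'
  dsimp only at ha he hb
  subst ha he hb
  have h1 : α = α' := NatTrans.ext (funext fun q => eq_of_heq (hα q))
  have h2 : β = β' := NatTrans.ext (funext fun q => eq_of_heq (hβ q))
  subst h1 h2
  rfl

theorem Jn.map_id_id : Jn.map (OrderHom.id : I →o I) (OrderHom.id : J →o J) = OrderHom.id := by
  ext x
  cases x <;> rfl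

theorem Jn.map_comp {I'' J'' : Type} [Preorder I''] [Preorder J''] (f : I' →o I) (g : J' →o J)
    (f' : I'' →o I') (g' : J'' →o J') :
    (Jn.map f g).comp (Jn.map f' g') = Jn.map (f.comp f') (g.comp g') := by
  ext x
  cases x <;> rfl

theorem TT.map_id_id (t : TT E A B I J) :
    t.map (OrderHom.id : I →o I) (OrderHom.id : J →o J) = t := by
  refine TT.ext_heq ?_ rfl rfl (fun q => HEq.rfl) (fun q => HEq.rfl)
  change ((E.sub A).Smap (Jn.map OrderHom.id OrderHom.id)).F.obj t.x = t.x
  rw [Jn.map_id_id]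
  rfl

theorem TT.map_map {J'' : Type} [Preorder J''] (t : TT E A B I J) (f : I' →o I) (g : J' →o J)
    (f' : I'' →o I') (g' : J'' →o J') :
    (t.map f g).map f' g' = t.map (f.comp f') (g.comp g') := by
  refine TT.ext_heq ?_ rfl rfl (fun q => HEq.rfl) (fun q => HEq.rfl)
  change ((E.sub A).Smap ((Jn.map f g).comp (Jn.map f' g'))).F.obj t.x =
    ((E.sub A).Smap (Jn.map (f.comp f') (g.comp g'))).F.obj t.x
  rw [Jn.map_comp]

end

/-! ### the simplicial sets -/

/-- the objects of the S-construction, a simplicial set -/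
def ExCat.oS (E : ExCat.{u}) : SSt.{u + 1} where
  obj n := (E.S (Fin (n + 1))).Ob
  map f := (E.Smap f).F.obj
  map_id _ _ := rfl
  map_comp _ _ _ := rfl

section

variable (E : ExCat.{u}) (A B : SubP E) (I J : Type) [Preorder I] [Preorder J]

/-- the conflations of S-diagrams, a simplicial set -/
def ExtS : SSt.{u + 1} where
  obj n := Ext E A B (Fin (n + 1))
  map f t := t.map f
  map_id _ _ := rfl
  map_comp _ _ _ := rfl

/-- `TT` for fixed `J` -/
def TL : SSt.{u + 1} where
  obj m := TT E A B (Fin (m + 1)) J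
  map f t := t.map f OrderHom.id
  map_id _ t := t.map_id_id
  map_comp f g t := (t.map_map g OrderHom.id f OrderHom.id).symm

/-- `TT` for fixed `I` -/
def TR : SSt.{u + 1} where
  obj n := TT E A B I (Fin (n + 1))
  map f t := t.map OrderHom.id f
  map_id _ t := t.map_id_id
  map_comp f g t := (t.map_map OrderHom.id g OrderHom.id f).symm

/-- the pairs `(x, b)`: `x` in `A` over the join of `I` and `J`, `b` in `B` over `I` -/
def PP : Type (u + 1) := ((E.sub A).S (Jn I J)).Ob × ((E.sub B).S I).Ob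

end

section

variable {E : ExCat.{u}} {A B : SubP E} {I J I' J' I'' : Type} [Preorder I] [Preorder J]
  [Preorder I'] [Preorder J'] [Preorder I'']

/-- the operators of `PP` -/
def PP.map (f : I' →o I) (g : J' →o J) (t : PP E A B I J) : PP E A B I' J' :=
  (((E.sub A).Smap (Jn.map f g)).F.obj t.1, ((E.sub B).Smap f).F.obj t.2)

theorem PP.map_id_id (t : PP E A B I J) :
    t.map (OrderHom.id : I →o I) (OrderHom.id : J →o J) = t := by
  change (((E.sub A).Smap (Jn.map OrderHom.id OrderHom.id)).F.obj t.1, t.2) = t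
  rw [Jn.map_id_id]
  rfl

theorem PP.map_map {J'' : Type} [Preorder J''] (t : PP E A B I J) (f : I' →o I) (g : J' →o J)
    (f' : I'' →o I') (g' : J'' →o J') :
    (t.map f g).map f' g' = t.map (f.comp f') (g.comp g') := by
  change (((E.sub A).Smap ((Jn.map f g).comp (Jn.map f' g'))).F.obj t.1, _) =
    (((E.sub A).Smap (Jn.map (f.comp f') (g.comp g'))).F.obj t.1, _)
  rw [Jn.map_comp]
  rfl

/-- forget `e` -/
def TT.toPP (t : TT E A B I J) : PP E A B I J := (t.x, t.b)

theorem TT.toPP_map (f : I' →o I) (g : J' →o J) (t : TT E A B I J) :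
    (t.map f g).toPP = t.toPP.map f g := rfl

end

section

variable (E : ExCat.{u}) (A B : SubP E) (I J : Type) [Preorder I] [Preorder J]

/-- `PP` for fixed `J` -/
def PL : SSt.{u + 1} where
  obj m := PP E A B (Fin (m + 1)) J
  map f t := t.map f OrderHom.id
  map_id _ t := t.map_id_id
  map_comp f g t := (t.map_map g OrderHom.id f OrderHom.id).symm

/-- `PP` for fixed `I` -/
def PR : SSt.{u + 1} where
  obj n := PP E A B I (Fin (n + 1))
  map f t := t.map OrderHom.id f
  map_id _ t := t.map_id_id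
  map_comp f g t := (t.map_map OrderHom.id g OrderHom.id f).symm

/-- forget `e`, for fixed `J` -/
def piL : TL E A B J ⟶ PL E A B J := ⟨fun _ t => t.toPP, fun _ _ => rfl⟩

/-- forget `J`, for fixed `I` -/
def tR : TR E A B I ⟶ SSt.const (Ext E A B I) := ⟨fun _ t => t.toExt, fun _ _ => rfl⟩

/-- forget `J`, for fixed `I` -/
def pR : PR E A B I ⟶ SSt.const (((E.sub A).S I).Ob × ((E.sub B).S I).Ob) :=
  ⟨fun _ t => (((E.sub A).Smap Jn.L).F.obj t.1, t.2), fun _ _ => rfl⟩

/-- the outer terms of a conflation -/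
def extAB : ExtS E A B ⟶ (E.sub A).oS.prod (E.sub B).oS := ⟨fun _ t => (t.a, t.b), fun _ _ => rfl⟩

end

end Pool.Agent.KQ
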