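import Pool.Agent.KQ.StSA

/-!
# KQ, CtA: Theorem A for nerves

The bisimplicial set of the triples `(x : [p] ⥤ X, y : [q] ⥤ Y, g : F x_p ⟶ y_0)`.
-/

set_option autoImplicit false
set_option linter.unusedVariables false

noncomputable section

namespace Pool.Agent.KQ

open CategoryTheory CategoryTheory.Limits Function

universe u v w

namespace CtA

/-! ### retracts of contractible simplicial sets -/

theorem contr_of_retract (h23 : St_Str23.{w}) {A B : SSt.{w}} (i : A ⟶ B) (r : B ⟶ A)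
    (h : i ≫ r = 𝟙 A) (hB : SSt.Contr B) : SSt.Contr A := by
  refine h23.2.2.2.1 A.toPt B.toPt i r (𝟙 _) (𝟙 _) ?_ ?_ ?_ ?_ hB
  · intro Φ n
    rw [h]
  · intro Φ n
    rfl
  · intro Φ n
    rfl
  · intro Φ n
    rfl

/-! ### the bisimplicial set of triples -/

section

variable {X Y : Type u} [Category.{v} X] [Category.{v} Y]

/-- the triples -/
structure Tr (F : X ⥤ Y) (p q : ℕ) : Type (max u v) where
  x : Fin (p + 1) ⥤ X
  y : Fin (q + 1) ⥤ Y
  g : F.obj (x.obj (Fin.last p)) ⟶ y.obj 0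

theorem Tr.congr {F : X ⥤ Y} {p q : ℕ} {x : Fin (p + 1) ⥤ X} {y : Fin (q + 1) ⥤ Y}
    {g g' : F.obj (x.obj (Fin.last p)) ⟶ y.obj 0} (h : g = g') :
    (⟨x, y, g⟩ : Tr F p q) = ⟨x, y, g'⟩ := by
  rw [h]

/-- the operators -/
def Tr.op {F : X ⥤ Y} {p q p' q' : ℕ} (t : Tr F p q) (θ : Mo p' p) (η : Mo q' q) :
    Tr F p' q' where
  x := θ.monotone.functor ⋙ t.x
  y := η.monotone.functor ⋙ t.y
  g := F.map (t.x.map (homOfLE (Fin.le_last (θ (Fin.last p'))))) ≫ t.g ≫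
    t.y.map (homOfLE (Fin.zero_le (η 0)))

theorem Tr.op_id {F : X ⥤ Y} {p q : ℕ} (t : Tr F p q) :
    t.op (OrderHom.id : Mo p p) (OrderHom.id : Mo q q) = t := by
  obtain ⟨x, y, g⟩ := t
  refine Tr.congr ?_
  change F.map (x.map (𝟙 _)) ≫ g ≫ y.map (𝟙 _) = g
  rw [x.map_id, F.map_id, y.map_id, Category.comp_id, Category.id_comp]

theorem Tr.op_op {F : X ⥤ Y} {p q p' q' p'' q'' : ℕ} (t : Tr F p q) (θ : Mo p' p) (η : Mo q' q)
    (θ' : Mo p'' p') (η' : Mo q'' q') :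
    (t.op θ η).op θ' η' = t.op (θ.comp θ') (η.comp η') := by
  obtain ⟨x, y, g⟩ := t
  refine Tr.congr ?_
  change F.map (x.map (θ.monotone.functor.map _)) ≫ (F.map (x.map _) ≫ g ≫ y.map _) ≫
    y.map (η.monotone.functor.map _) = F.map (x.map _) ≫ g ≫ y.map _
  rw [Category.assoc, Category.assoc, ← y.map_comp, ← F.map_comp_assoc, ← x.map_comp]
  rfl

/-- the row `p` -/
def row (F : X ⥤ Y) (p : ℕ) : SSt.{max u v} where
  obj q := Tr F p q
  map η t := t.op OrderHom.id η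
  map_id q t := t.op_id
  map_comp f g t := (t.op_op OrderHom.id g OrderHom.id f).symm

/-- the bisimplicial set -/
def T (F : X ⥤ Y) : SOb SSt.{max u v} where
  obj p := row F p
  map θ := ⟨fun q t => t.op θ OrderHom.id, fun η t =>
    (t.op_op OrderHom.id η θ OrderHom.id).trans (t.op_op θ OrderHom.id OrderHom.id η).symm⟩
  map_id p := SSt.hom_ext fun q t => t.op_id
  map_comp f g := SSt.hom_ext fun q t => (t.op_op g OrderHom.id f OrderHom.id).symm

/-- a simplicial set as a bisimplicial set, constant in the second direction -/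
def crow (N : SSt.{w}) : SOb SSt.{w} where
  obj p := SSt.const (N.obj p)
  map θ := ⟨fun _ x => N.map θ x, fun _ _ => rfl⟩
  map_id p := SSt.hom_ext fun _ x => N.map_id p x
  map_comp f g := SSt.hom_ext fun _ x => N.map_comp f g x

/-- the first component, on the row `p` -/
def rowFst (F : X ⥤ Y) (p : ℕ) : row F p ⟶ SSt.const ((Nv X).obj p) :=
  ⟨fun _ t => t.x, fun _ _ => rfl⟩

/-- the first component, as a map of bisimplicial sets -/
def fstB (F : X ⥤ Y) : T F ⟶ crow (Nv X) where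
  app p := rowFst F p
  nat _ := rfl

/-- the second component, as a map of bisimplicial sets -/
def sndB (F : X ⥤ Y) : T F ⟶ SOb.const (Nv Y) where
  app p := ⟨fun _ t => t.y, fun _ _ => rfl⟩
  nat _ := rfl

/-- the second component, on the column `q` -/
def colSnd (F : X ⥤ Y) (q : ℕ) : SSt.col (T F) q ⟶ SSt.const ((Nv Y).obj q) :=
  ⟨fun _ t => Tr.y t, fun _ _ => rfl⟩

/-- the first component -/
def pfst (F : X ⥤ Y) : SSt.diag (T F) ⟶ Nv X := ⟨fun _ t => Tr.x t, fun _ _ => rfl⟩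

/-- the second component -/
def psnd (F : X ⥤ Y) : SSt.diag (T F) ⟶ Nv Y := ⟨fun _ t => Tr.y t, fun _ _ => rfl⟩

/-! ### the fibres of the first component -/

/-- a functor to `Under z` from data -/
def mkU {J : Type} [Category.{0} J] {z : Y} (y : J ⥤ Y) (c : ∀ j, z ⟶ y.obj j)
    (hc : ∀ {i j : J} (f : i ⟶ j), c i ≫ y.map f = c j) : J ⥤ Under z where
  obj j := Under.mk (c j)
  map f := Under.homMk (y.map f) (hc f)
  map_id j := by
    apply Under.UnderMorphism.ext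
    exact y.map_id j
  map_comp f g := by
    apply Under.UnderMorphism.ext
    exact y.map_comp f g

theorem mkU_congr {J : Type} [Category.{0} J] {z : Y} {y : J ⥤ Y} {c c' : ∀ j, z ⟶ y.obj j}
    (h : ∀ j, c j = c' j) (hc : ∀ {i j : J} (f : i ⟶ j), c i ≫ y.map f = c j)
    (hc' : ∀ {i j : J} (f : i ⟶ j), c' i ≫ y.map f = c' j) :
    mkU y c hc = mkU y c' hc' := by
  have : c = c' := funext h
  subst this
  rfl

/-- the object of the fibre over `x` -/
def uo {F : X ⥤ Y} {p q : ℕ} (x : Fin (p + 1) ⥤ X) (t : Tr F p q) (h : t.x = x)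
    (j : Fin (q + 1)) : F.obj (x.obj (Fin.last p)) ⟶ t.y.obj j :=
  eqToHom (by rw [h]) ≫ t.g ≫ t.y.map (homOfLE (Fin.zero_le j))

theorem uo_w {F : X ⥤ Y} {p q : ℕ} (x : Fin (p + 1) ⥤ X) (t : Tr F p q) (h : t.x = x)
    {i j : Fin (q + 1)} (f : i ⟶ j) : uo x t h i ≫ t.y.map f = uo x t h j := by
  unfold uo
  rw [Category.assoc, Category.assoc, ← t.y.map_comp]
  rfl

/-- from the fibre over `x` to the nerve -/
def fibU (F : X ⥤ Y) (p : ℕ) (x : Fin (p + 1) ⥤ X) :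
    (SSt.fib (rowFst F p) x).S ⟶ Nv (Under (F.obj (x.obj (Fin.last p)))) where
  app _ t := mkU t.1.y (uo x t.1 t.2) (uo_w x t.1 t.2)
  nat {m n} η t := by
    obtain ⟨t, h⟩ := t
    refine mkU_congr (fun j => ?_) _ (fun f => uo_w x t h (η.monotone.functor.map f))
    change eqToHom _ ≫ (F.map (t.x.map (𝟙 _)) ≫ t.g ≫ t.y.map _) ≫ t.y.map _ =
      eqToHom _ ≫ t.g ≫ t.y.map _
    rw [t.x.map_id, F.map_id, Category.id_comp, Category.assoc, ← t.y.map_comp]
    rfl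

/-- from the nerve to the fibre over `x` -/
def Ufib (F : X ⥤ Y) (p : ℕ) (x : Fin (p + 1) ⥤ X) :
    Nv (Under (F.obj (x.obj (Fin.last p)))) ⟶ (SSt.fib (rowFst F p) x).S where
  app _ s := ⟨⟨x, s ⋙ Under.forget _, (s.obj 0).hom⟩, rfl⟩
  nat {m n} η s := by
    refine Subtype.ext (Tr.congr ?_)
    change (s.obj (η 0)).hom = F.map (x.map (𝟙 _)) ≫ (s.obj 0).hom ≫ (s.map _).right
    rw [x.map_id, F.map_id, Category.id_comp, Under.w]

theorem fibU_Ufib (F : X ⥤ Y) (p : ℕ) (x : Fin (p + 1) ⥤ X) : fibU F p x ≫ Ufib F p x = 𝟙 _ := by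
  refine SSt.hom_ext fun q t => ?_
  obtain ⟨t, h⟩ := t
  change t.x = x at h
  subst h
  refine Subtype.ext (Tr.congr ?_)
  change eqToHom _ ≫ t.g ≫ t.y.map (𝟙 _) = t.g
  rw [t.y.map_id, Category.comp_id, eqToHom_refl, Category.id_comp]

/-! ### the fibres of the second component -/

/-- a functor to `CostructuredArrow F z` from data -/
def mkC {J : Type} [Category.{0} J] {F : X ⥤ Y} {z : Y} (x : J ⥤ X)
    (c : ∀ j, F.obj (x.obj j) ⟶ z) (hc : ∀ {i j : J} (f : i ⟶ j), F.map (x.map f) ≫ c j = c i) :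
    J ⥤ CostructuredArrow F z where
  obj j := CostructuredArrow.mk (c j)
  map f := CostructuredArrow.homMk (x.map f) (hc f)
  map_id j := by
    apply CostructuredArrow.hom_ext
    exact x.map_id j
  map_comp f g := by
    apply CostructuredArrow.hom_ext
    exact x.map_comp f g

theorem mkC_congr {J : Type} [Category.{0} J] {F : X ⥤ Y} {z : Y} {x : J ⥤ X}
    {c c' : ∀ j, F.obj (x.obj j) ⟶ z} (h : ∀ j, c j = c' j)
    (hc : ∀ {i j : J} (f : i ⟶ j), F.map (x.map f) ≫ c j = c i)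
    (hc' : ∀ {i j : J} (f : i ⟶ j), F.map (x.map f) ≫ c' j = c' i) :
    mkC x c hc = mkC x c' hc' := by
  have : c = c' := funext h
  subst this
  rfl

/-- the object of the fibre over `y` -/
def co {F : X ⥤ Y} {p q : ℕ} (y : Fin (q + 1) ⥤ Y) (t : Tr F p q) (h : t.y = y)
    (j : Fin (p + 1)) : F.obj (t.x.obj j) ⟶ y.obj 0 :=
  F.map (t.x.map (homOfLE (Fin.le_last j))) ≫ t.g ≫ eqToHom (by rw [h])

theorem co_w {F : X ⥤ Y} {p q : ℕ} (y : Fin (q + 1) ⥤ Y) (t : Tr F p q) (h : t.y = y)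
    {i j : Fin (p + 1)} (f : i ⟶ j) : F.map (t.x.map f) ≫ co y t h j = co y t h i := by
  unfold co
  rw [← F.map_comp_assoc, ← t.x.map_comp]
  rfl

/-- from the fibre over `y` to the nerve -/
def fibC (F : X ⥤ Y) (q : ℕ) (y : Fin (q + 1) ⥤ Y) :
    (SSt.fib (colSnd F q) y).S ⟶ Nv (CostructuredArrow F (y.obj 0)) where
  app _ t := mkC (Tr.x t.1) (co y t.1 t.2) (co_w y t.1 t.2)
  nat {m n} θ t := by
    obtain ⟨t, h⟩ := t
    refine mkC_congr (fun j => ?_) _ (fun f => co_w y t h (θ.monotone.functor.map f))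
    change F.map ((Tr.x t).map _) ≫ (F.map ((Tr.x t).map _) ≫ Tr.g t ≫
      (Tr.y t).map (𝟙 _)) ≫ eqToHom _ = F.map ((Tr.x t).map _) ≫ Tr.g t ≫ eqToHom _
    rw [(Tr.y t).map_id, Category.comp_id, Category.assoc, ← F.map_comp_assoc,
      ← (Tr.x t).map_comp]
    rfl

/-- from the nerve to the fibre over `y` -/
def Cfib (F : X ⥤ Y) (q : ℕ) (y : Fin (q + 1) ⥤ Y) :
    Nv (CostructuredArrow F (y.obj 0)) ⟶ (SSt.fib (colSnd F q) y).S where
  app p s := ⟨(⟨s ⋙ CostructuredArrow.proj _ _, y, (s.obj (Fin.last p)).hom⟩ : Tr F p q), rfl⟩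
  nat {m n} θ s := by
    refine Subtype.ext (Tr.congr ?_)
    change (s.obj (θ (Fin.last m))).hom = F.map (s.map _).left ≫ (s.obj (Fin.last n)).hom ≫
      y.map (𝟙 _)
    rw [y.map_id, Category.comp_id, CostructuredArrow.w]

theorem fibC_Cfib (F : X ⥤ Y) (q : ℕ) (y : Fin (q + 1) ⥤ Y) : fibC F q y ≫ Cfib F q y = 𝟙 _ := by
  refine SSt.hom_ext fun p t => ?_
  obtain ⟨t, h⟩ := t
  change Tr.y t = y at h
  subst h
  refine Subtype.ext (Tr.congr ?_)
  change F.map ((Tr.x t).map (𝟙 _)) ≫ Tr.g t ≫ eqToHom _ = Tr.g t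
  rw [(Tr.x t).map_id, F.map_id, Category.id_comp, eqToHom_refl, Category.comp_id]

/-! ### the projections are strong -/

theorem strong_pfst (hB : St_CtB.{max u v, v}) (hR : St_StrRow.{max u v})
    (hF : St_StrFib.{max u v}) (h23 : St_Str23.{max u v}) (F : X ⥤ Y) : SSt.Strong (pfst F) := by
  have h1 : ∀ p, SSt.Strong (rowFst F p) := by
    intro p
    refine hF.2 (rowFst F p) fun x => ?_
    refine contr_of_retract h23 (fibU F p x) (Ufib F p x) (fibU_Ufib F p x) ?_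
    exact hB.2.1 (Under.mk (𝟙 (F.obj (x.obj (Fin.last p))))) ⟨Under.mkIdInitial⟩
  have h2 := hR (fstB F) h1
  exact h2

theorem strong_psnd (hC : St_StrCol.{max u v}) (hF : St_StrFib.{max u v})
    (h23 : St_Str23.{max u v}) (F : X ⥤ Y)
    (h : ∀ y : Y, SSt.Contr (Nv (CostructuredArrow F y))) : SSt.Strong (psnd F) := by
  have h1 : ∀ q, SSt.Strong (colSnd F q) := by
    intro q
    refine hF.2 (colSnd F q) fun y => ?_
    exact contr_of_retract h23 (fibC F q y) (Cfib F q y) (fibC_Cfib F q y) (h _)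
  have h2 := hC (sndB F) h1
  exact h2

/-- the comparison with the triples of the identity -/
def cmp (F : X ⥤ Y) : SSt.diag (T F) ⟶ SSt.diag (T (𝟭 Y)) where
  app n t := (⟨Tr.x t ⋙ F, Tr.y t, Tr.g t⟩ : Tr (𝟭 Y) n n)
  nat {m n} θ t := rfl

end

end CtA

theorem thm_CtA (hB : St_CtB.{max u v, v}) (hR : St_StrRow.{max u v}) (hC : St_StrCol.{max u v})
    (hF : St_StrFib.{max u v}) (h23 : St_Str23.{max u v}) : St_CtA.{u, v} := by
  intro X Y _ _ F h
  have h1 := CtA.strong_psnd hC hF h23 F h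
  have h2 := CtA.strong_psnd hC hF h23 (𝟭 Y) fun y =>
    hB.2.2.1 (CostructuredArrow.mk (𝟙 ((𝟭 Y).obj y))) ⟨CostructuredArrow.mkIdTerminal⟩
  have h3 : SSt.Strong (CtA.cmp F) := h23.2.2.1 (CtA.cmp F) (CtA.psnd (𝟭 Y)) h2 h1
  have h4 := CtA.strong_pfst hB hR hF h23 F
  have h5 := CtA.strong_pfst hB hR hF h23 (𝟭 Y)
  have h6 : SSt.Strong (CtA.pfst F ≫ Nv.mapF F) :=
    h23.1 (CtA.cmp F) (CtA.pfst (𝟭 Y)) h3 h5
  exact h23.2.1 (CtA.pfst F) (Nv.mapF F) h4 h6

end Pool.Agent.KQ
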