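import Pool.Agent.KQ.StSA

/-!
# KQ: contractible nerves

Natural transformations, initial and terminal objects, zigzags, directed thin categories.
-/

set_option autoImplicit false

noncomputable section

namespace Pool.Agent.KQ

open CategoryTheory CategoryTheory.Limits Function

universe u v w

namespace CtB

/-! ### equality on homotopy groups -/

theorem eqSymm {X Y : SSt.{w}} {f g : X ⟶ Y} (h : SSt.StrEq f g) : SSt.StrEq g f :=
  fun Φ n => (h Φ n).symm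

theorem eqTrans {X Y : SSt.{w}} {f g k : X ⟶ Y} (h : SSt.StrEq f g) (h' : SSt.StrEq g k) :
    SSt.StrEq f k := fun Φ n => (h Φ n).trans (h' Φ n)

theorem eqComp {X Y Z : SSt.{w}} (e : X ⟶ Y) {f g : Y ⟶ Z} (h : SSt.StrEq f g) :
    SSt.StrEq (e ≫ f) (e ≫ g) := fun Φ n => by
  refine MonoidHom.ext fun x => ?_
  rw [Functor.map_comp, Functor.map_comp, SGp.PiMap_comp, SGp.PiMap_comp, h Φ n]

/-- a natural transformation gives maps equal on homotopy groups -/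
theorem eqNat (hHt : St_StrHt.{max u v}) {X Y : Type u} [Category.{v} X] [Category.{v} Y]
    {F G : X ⥤ Y} (τ : F ⟶ G) : SSt.StrEq (Nv.mapF F) (Nv.mapF G) :=
  hHt.1 _ _ ⟨Nv.htpy τ⟩

/-! ### points -/

/-- the point `x` of the nerve -/
def pt {X : Type u} [Category.{v} X] (x : X) : SSt.const PUnit.{max u v + 1} ⟶ Nv X :=
  ⟨fun _ _ => (Functor.const _).obj x, fun _ _ => rfl⟩

theorem toPt_pt {X : Type u} [Category.{v} X] (x : X) :
    SSt.toPt (Nv X) ≫ pt x = Nv.mapF ((Functor.const X).obj x) := rfl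

theorem contr (hHt : St_StrHt.{max u v}) {X : Type u} [Category.{v} X] (x : X)
    (h : SSt.StrEq (Nv.mapF ((Functor.const X).obj x)) (Nv.mapF (𝟭 X))) : SSt.Contr (Nv X) := by
  rw [Nv.mapF_id, ← toPt_pt] at h
  exact hHt.2.2 (Nv X) (pt x) h

/-! ### directed thin categories -/

section dir

variable {X : Type u} [Category.{v} X]

/-- the chains all of whose objects have a morphism to `c` -/
def sub (c : X) : SubS (Nv X) where
  s n := {x : Fin (n + 1) ⥤ X | ∀ i, Nonempty (x.obj i ⟶ c)}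
  map_mem θ _ h i := h (θ i)

/-- the natural transformation to the constant diagram -/
def toC (hX : ∀ a b : X, Subsingleton (a ⟶ b)) {d : X} {n : ℕ} (x : Fin (n + 1) ⥤ X)
    (h : ∀ i, Nonempty (x.obj i ⟶ d)) : x ⟶ (Functor.const (Fin (n + 1))).obj d where
  app i := (h i).some
  naturality _ _ _ := (hX _ _).elim _ _

/-- the homotopy -/
def ht (hX : ∀ a b : X, Subsingleton (a ⟶ b)) {c d : X} (h : Nonempty (c ⟶ d)) :
    SSt.Htpy (sub c).ι ((sub c).ι ≫ Nv.mapF ((Functor.const X).obj d)) where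
  h _ α x := mix (toC hX x.1 fun i => ⟨(x.2 i).some ≫ h.some⟩) α
  nat _ _ _ := rfl
  h0 _ α _ h := mix_false _ α h
  h1 _ α _ h := mix_true _ α h

end dir

end CtB

theorem thm_CtB (hHt : St_StrHt.{max u v}) (hU : St_StrUnion.{max u v}) : St_CtB.{u, v} := by
  refine ⟨?_, ?_, ?_, ?_, ?_⟩
  · intro X Y _ _ F G h h'
    have h1 : SSt.StrEq (Nv.mapF F ≫ Nv.mapF G) (𝟙 (Nv X)) := by
      rw [← Nv.mapF_comp, ← Nv.mapF_id]
      rcases h with ⟨⟨τ⟩⟩ | ⟨⟨τ⟩⟩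
      · exact CtB.eqSymm (CtB.eqNat hHt τ)
      · exact CtB.eqNat hHt τ
    have h2 : SSt.StrEq (Nv.mapF G ≫ Nv.mapF F) (𝟙 (Nv Y)) := by
      rw [← Nv.mapF_comp, ← Nv.mapF_id]
      rcases h' with ⟨⟨τ⟩⟩ | ⟨⟨τ⟩⟩
      · exact CtB.eqSymm (CtB.eqNat hHt τ)
      · exact CtB.eqNat hHt τ
    exact hHt.2.1 (Nv.mapF F) (Nv.mapF G) h1 h2
  · rintro X _ x ⟨hx⟩
    exact CtB.contr hHt x (CtB.eqNat hHt
      { app := fun y => hx.to y
        naturality := fun _ _ _ => hx.hom_ext _ _ })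
  · rintro X _ x ⟨hx⟩
    exact CtB.contr hHt x (CtB.eqSymm (CtB.eqNat hHt
      { app := fun y => hx.from y
        naturality := fun _ _ _ => hx.hom_ext _ _ }))
  · rintro X _ G c ⟨τ⟩ ⟨τ'⟩
    exact CtB.contr hHt c (CtB.eqTrans (CtB.eqSymm (CtB.eqNat hHt τ')) (CtB.eqNat hHt τ))
  · intro X _ hne hX hdir
    obtain ⟨c₀⟩ := hne
    have : Nonempty (ULift.{v} X) := ⟨⟨c₀⟩⟩
    refine CtB.contr hHt c₀ (CtB.eqSymm ?_)
    refine hU.1 (J := ULift.{v} X) (fun c => CtB.sub c.down) ?_ ?_ _ _ ?_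
    · rintro ⟨i⟩ ⟨j⟩
      obtain ⟨k, ⟨f⟩, ⟨g⟩⟩ := hdir i j
      refine ⟨⟨k⟩, fun n x hx l => ?_⟩
      rcases hx with hx | hx
      · exact ⟨(hx l).some ≫ f⟩
      · exact ⟨(hx l).some ≫ g⟩
    · intro n (x : Fin (n + 1) ⥤ X)
      exact ⟨⟨x.obj (Fin.last n)⟩, fun i => ⟨x.map (homOfLE (Fin.le_last i))⟩⟩
    · rintro ⟨c⟩
      obtain ⟨d, f, ⟨g⟩⟩ := hdir c c₀
      have h1 : SSt.StrEq (CtB.sub c).ι ((CtB.sub c).ι ≫ Nv.mapF ((Functor.const X).obj d)) :=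
        hHt.1 _ _ ⟨CtB.ht hX f⟩
      have h2 : SSt.StrEq (Nv.mapF ((Functor.const X).obj c₀)) (Nv.mapF ((Functor.const X).obj d)) :=
        CtB.eqNat hHt ((Functor.const X).map g)
      exact CtB.eqTrans h1 (CtB.eqComp _ (CtB.eqSymm h2))

end Pool.Agent.KQ
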