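import Pool.Agent.KQ.StSA

/-!
# KQ: chains with objects in `P` and morphisms in `W` as a nerve
-/

set_option autoImplicit false

noncomputable section

namespace Pool.Agent.KQ

open CategoryTheory CategoryTheory.Limits Function
open scoped ZeroObject

universe u v

namespace CtP

/-- an isomorphism of simplicial sets is strong -/
theorem strong_of_inv (hH : St_StrHt.{u}) {X Y : SSt.{u}} (f : X ⟶ Y) (g : Y ⟶ X)
    (h : f ≫ g = 𝟙 X) (h' : g ≫ f = 𝟙 Y) : SSt.Strong f :=
  hH.2.1 f g (fun Φ n => by rw [h]) (fun Φ n => by rw [h'])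

section

variable {X : Type u} [Category.{v} X] (P : ObjectProperty X) (W : MorphismProperty X)
  [W.IsMultiplicative]

/-- the forgetful functor -/
def fg : PWo X P W ⥤ X where
  obj x := x.obj
  map f := f.1
  map_id _ := rfl
  map_comp _ _ := rfl

/-- functors to `PWo` as chains -/
def fwd : Nv (PWo X P W) ⟶ NvP X P W where
  app _ x := ⟨x ⋙ fg P W, fun i => (x.obj i).property, fun f => (x.map f).2⟩
  nat _ _ := rfl

/-- chains as functors to `PWo` -/
def bwd : NvP X P W ⟶ Nv (PWo X P W) where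
  app _ x :=
    { obj := fun i => ⟨x.1.obj i, x.2.1 i⟩
      map := fun f => ⟨x.1.map f, x.2.2 f⟩
      map_id := fun i => Subtype.ext (x.1.map_id i)
      map_comp := fun f g => Subtype.ext (x.1.map_comp f g) }
  nat _ _ := rfl

theorem fwd_bwd : fwd P W ≫ bwd P W = 𝟙 _ := rfl

theorem bwd_fwd : bwd P W ≫ fwd P W = 𝟙 _ := rfl

end

theorem square {X Y : Type u} [Category.{v} X] [Category.{v} Y] (P : ObjectProperty X)
    (W : MorphismProperty X) [W.IsMultiplicative] (P' : ObjectProperty Y)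
    (W' : MorphismProperty Y) [W'.IsMultiplicative] (F : X ⥤ Y) (hP : ∀ x, P x → P' (F.obj x))
    (hW : ∀ {x y : X} (f : x ⟶ y), P x → P y → W f → W' (F.map f)) :
    (NvP.mapF F hP hW : NvP X P W ⟶ NvP Y P' W') ≫ bwd P' W' =
      bwd P W ≫ Nv.mapF (PWo.mapF F hP hW : PWo X P W ⥤ PWo Y P' W') := rfl

end CtP

/-- **CtP** -/
theorem thm_CtP (hH : St_StrHt.{max u v}) (h23 : St_Str23.{max u v}) : St_CtP.{u, v} := by
  refine ⟨fun {X} _ P W _ h => ?_, fun {X Y} _ _ P W _ P' W' _ F hP hW h => ?_⟩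
  · exact h23.1 _ _ (CtP.strong_of_inv hH _ _ (CtP.bwd_fwd P W) (CtP.fwd_bwd P W)) h
  · refine h23.2.2.1 _ (CtP.bwd P' W') (CtP.strong_of_inv hH _ _ (CtP.bwd_fwd P' W')
      (CtP.fwd_bwd P' W')) ?_
    rw [CtP.square]
    exact h23.1 _ _ (CtP.strong_of_inv hH _ _ (CtP.bwd_fwd P W) (CtP.fwd_bwd P W)) h

end Pool.Agent.KQ
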