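import Pool.Agent.KQ.StSA

/-!
# KQ: devissage in one S-direction

Assembly of `St_Eqv` (for the functor onto its essential image `B`), of Theorem A for one S-direction
(`St_SA`) and of the contractibility of the chains (`St_DvC`), for `B` in `E'.P`.
-/

set_option autoImplicit false

namespace Pool.Agent.KQ

open CategoryTheory CategoryTheory.Limits Function

universe u v

/-- the closure properties for `St_SA` follow from those for devissage -/
theorem Dev.saH {C : Type u} [Category.{v} C] [Abelian C] {P B : ObjectProperty C}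
    (h : DevC P B) : SaH P B where
  isoP := h.isoP
  extP := h.extP
  le := h.le
  isoB := h.isoB
  zerB := h.zerB

theorem Dev.comp {E E' : ExCat.{u}} (F : ExFun E E') (B : ObjectProperty E'.C)
    (h : ∀ Y : E.Ob, B (F.F.obj Y).obj) (hle : ∀ X, B X → E'.P X) :
    F.obSB B h ≫ SdS.incl hle = F.obS := by
  refine SSt.hom_ext fun n D => ?_
  refine ObjectProperty.FullSubcategory.ext ?_
  exact rfl

theorem Dev.strong (h23 : St_Str23.{u + 1}) {E E' : ExCat.{u}} (F : ExFun E E')
    (B : ObjectProperty E'.C) (h : ∀ Y : E.Ob, B (F.F.obj Y).obj) (hle : ∀ X, B X → E'.P X)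
    (h1 : SSt.Strong (F.obSB B h)) (h2 : SSt.Strong (SdS.incl hle)) : SSt.Strong F.obS := by
  rw [← Dev.comp F B h hle]
  exact h23.1 _ _ h1 h2

/-- the functor onto the essential image -/
theorem Dev.image (hEqv : St_Eqv.{u}) {E E' : ExCat.{u}} (D : DevD E E') :
    SSt.Strong (D.F.obSB D.B fun Y => (D.img _).2 ⟨Y, ⟨Iso.refl _⟩⟩) :=
  hEqv D.F D.full D.faithful D.refl D.B D.img

/-- the inclusion of the essential image -/
theorem Dev.incl (hSA : St_SA.{u + 1, u}) (hDvC : St_DvC.{u + 1, u}) {E E' : ExCat.{u}}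
    (D : DevD E E') : SSt.Strong (SdS.incl D.cl.le) :=
  hSA E'.P D.B (Dev.saH D.cl) fun M hM => hDvC E'.P D.B D.cl D.rad M hM

/-- **Dev.** Devissage in one S-direction -/
theorem thm_Dev (hEqv : St_Eqv.{u}) (hSA : St_SA.{u + 1, u}) (hDvC : St_DvC.{u + 1, u})
    (h23 : St_Str23.{u + 1}) : St_Dev.{u} := by
  intro E E' D
  exact Dev.strong h23 D.F D.B _ D.cl.le (Dev.image hEqv D) (Dev.incl hSA hDvC D)

end Pool.Agent.KQ
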