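import Pool.Agent.KQ.StSA

/-!
# KQ: devissage: the chains over `M` are contractible

Module DvC: `thm_DvC : St_StrHt → St_StrUnion → St_DvC`.
-/

set_option autoImplicit false

noncomputable section

namespace Pool.Agent.KQ.DvC

open CategoryTheory CategoryTheory.Limits Function
open scoped ZeroObject

universe u v w

/-! ### equality on homotopy groups -/

theorem StrEq.trans {X Y : SSt.{w}} {f g h : X ⟶ Y} (h1 : SSt.StrEq f g) (h2 : SSt.StrEq g h) :
    SSt.StrEq f h := fun Φ n => (h1 Φ n).trans (h2 Φ n)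

theorem StrEq.symm {X Y : SSt.{w}} {f g : X ⟶ Y} (h1 : SSt.StrEq f g) : SSt.StrEq g f :=
  fun Φ n => (h1 Φ n).symm

theorem StrEq.comp_left {X Y Z : SSt.{w}} (k : X ⟶ Y) {f g : Y ⟶ Z} (h : SSt.StrEq f g) :
    SSt.StrEq (k ≫ f) (k ≫ g) := fun Φ n => by
  apply MonoidHom.ext
  intro x
  rw [Φ.ap.map_comp, Φ.ap.map_comp, SGp.PiMap_comp, SGp.PiMap_comp, h Φ n]

section

variable {C : Type u} [Category.{v} C] [Abelian C]

/-! ### two facts about kernels -/

/-- the kernel of `p ≫ g` maps onto the kernel of `g` if `p` is epi -/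
theorem epi_ker {X Y T : C} (p : X ⟶ Y) [Epi p] (f : X ⟶ T) (g : Y ⟶ T)
    (w : f ≫ 𝟙 T = p ≫ g) : Epi (kernel.map f g p (𝟙 T) w) := by
  rw [epi_iff_surjective_up_to_refinements]
  intro A y
  obtain ⟨A', a, ha, x, hx⟩ := surjective_up_to_refinements_of_epi p (y ≫ kernel.ι g)
  have h1 : x ≫ f = 0 := by
    have h2 : x ≫ f = x ≫ p ≫ g := by rw [← w, Category.comp_id]
    rw [h2, ← Category.assoc, ← hx, Category.assoc, Category.assoc, kernel.condition, comp_zero,
      comp_zero]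
  refine ⟨A', a, ha, kernel.lift f x h1, ?_⟩
  rw [← cancel_mono (kernel.ι g)]
  simp only [Category.assoc, kernel.lift_ι]
  rw [hx]
  simp

theorem quo_ker {P : ObjectProperty C} (hq : QuoC P) {X Y T : C} (p : X ⟶ Y) (hp : Epi p)
    (f : X ⟶ T) (g : Y ⟶ T) (w : p ≫ g = f) (h : P (kernel f)) : P (kernel g) := by
  have w' : f ≫ 𝟙 T = p ≫ g := by rw [Category.comp_id, w]
  have := epi_ker p f g w'
  exact hq (kernel.map f g p (𝟙 T) w') h

/-- The kernel of `g` is a quotient of the sum of the kernel of `f` and `S'`. -/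
theorem key {B : ObjectProperty C} (hq : QuoC B) (hs : SumC B) {N N' Q S S' : C} (f : N ⟶ N')
    (a : S ⟶ N) (a' : S' ⟶ N') (s : S ⟶ S') [Epi s] (h : a ≫ f = s ≫ a') (p : N ⟶ Q) [Epi p]
    (g : Q ⟶ cokernel a') (hg : p ≫ g = f ≫ cokernel.π a') (hL : B (kernel f)) {W : C} (e : S ⟶ W)
    [Epi e] (t : W ⟶ Q) (ht : e ≫ t = a ≫ p) (hW : B W) : B (kernel g) := by
  have w1 : (kernel.ι f ≫ p) ≫ g = 0 := by
    rw [Category.assoc, hg, ← Category.assoc, kernel.condition, zero_comp]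
  have w2 : t ≫ g = 0 := by
    rw [← cancel_epi e, ← Category.assoc, ht, Category.assoc, hg, ← Category.assoc, h,
      Category.assoc, cokernel.condition, comp_zero, comp_zero]
  have w3 : biprod.desc (kernel.ι f ≫ p) t ≫ g = 0 := by
    apply biprod.hom_ext'
    · rw [biprod.inl_desc_assoc, w1, comp_zero]
    · rw [biprod.inr_desc_assoc, w2, comp_zero]
  have h1 : Epi (kernel.lift g _ w3) := by
    rw [epi_iff_surjective_up_to_refinements]
    intro A y
    obtain ⟨A1, a1, ha1, x, hx⟩ := surjective_up_to_refinements_of_epi p (y ≫ kernel.ι g)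
    have h2 : (x ≫ f) ≫ cokernel.π a' = 0 := by
      rw [Category.assoc, ← hg, ← Category.assoc, ← hx, Category.assoc, Category.assoc,
        kernel.condition, comp_zero, comp_zero]
    have hex : (ShortComplex.mk a' (cokernel.π a') (cokernel.condition a')).Exact :=
      ShortComplex.exact_cokernel a'
    rw [ShortComplex.exact_iff_exact_up_to_refinements] at hex
    obtain ⟨A2, a2, ha2, k', hk'⟩ := hex (x ≫ f) h2
    change a2 ≫ x ≫ f = k' ≫ a' at hk'
    obtain ⟨A3, a3, ha3, k, hk⟩ := surjective_up_to_refinements_of_epi s k'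
    have h3 : (a3 ≫ a2 ≫ x - k ≫ a) ≫ f = 0 := by
      rw [Preadditive.sub_comp, Category.assoc, Category.assoc, Category.assoc, hk', h,
        ← Category.assoc, hk, Category.assoc, sub_self]
    refine ⟨A3, a3 ≫ a2 ≫ a1, inferInstance, biprod.lift (kernel.lift f _ h3) (k ≫ e), ?_⟩
    rw [← cancel_mono (kernel.ι g)]
    simp only [Category.assoc, kernel.lift_ι]
    rw [biprod.lift_desc, kernel.lift_ι_assoc, Category.assoc, ht, Preadditive.sub_comp, hx]
    simp only [Category.assoc]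
    abel
  exact hq (kernel.lift g _ w3) (hs _ _ hL hW)

/-! ### the functors `R_j` -/

/-- the inclusion of `r^(j+1) K` in `r^j K` -/
def r1 {σ : C ⥤ C} (η : 𝟭 C ⟶ σ) (j : ℕ) (K : C) : (radN η (j + 1)).obj K ⟶ (radN η j).obj K :=
  kernel.ι (η.app ((radN η j).obj K))

theorem r1_mono {σ : C ⥤ C} (η : 𝟭 C ⟶ σ) (j : ℕ) (K : C) : Mono (r1 η j K) :=
  (inferInstance : Mono (kernel.ι (η.app ((radN η j).obj K))))

theorem r1_nat {σ : C ⥤ C} (η : 𝟭 C ⟶ σ) (j : ℕ) {K K' : C} (f : K ⟶ K') :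
    (radN η (j + 1)).map f ≫ r1 η j K' = r1 η j K ≫ (radN η j).map f :=
  (radι η).naturality ((radN η j).map f)

/-- the inclusion of `r^j K` in `K` -/
def rι {σ : C ⥤ C} (η : 𝟭 C ⟶ σ) : ∀ (j : ℕ) (K : C), (radN η j).obj K ⟶ K
  | 0, K => 𝟙 K
  | j + 1, K => r1 η j K ≫ rι η j K

theorem rι_nat {σ : C ⥤ C} (η : 𝟭 C ⟶ σ) (j : ℕ) {K K' : C} (f : K ⟶ K') :
    (radN η j).map f ≫ rι η j K' = rι η j K ≫ f := by
  induction j with
  | zero =>
    change f ≫ 𝟙 K' = 𝟙 K ≫ f
    rw [Category.comp_id, Category.id_comp]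
  | succ j ih =>
    change (radN η (j + 1)).map f ≫ r1 η j K' ≫ rι η j K' = (r1 η j K ≫ rι η j K) ≫ f
    rw [← Category.assoc, r1_nat, Category.assoc, ih, Category.assoc]

theorem rι_mono {σ : C ⥤ C} (η : 𝟭 C ⟶ σ) (j : ℕ) (K : C) : Mono (rι η j K) := by
  induction j with
  | zero =>
    change Mono (𝟙 K)
    infer_instance
  | succ j ih =>
    have := r1_mono η j K
    change Mono (r1 η j K ≫ rι η j K)
    infer_instance

variable {M : C}

/-- the map of kernels -/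
def km {N N' : Over M} (f : N ⟶ N') : kernel N.hom ⟶ kernel N'.hom :=
  kernel.map N.hom N'.hom f.left (𝟙 M) (by rw [Over.w f, Category.comp_id])

theorem km_ι {N N' : Over M} (f : N ⟶ N') : km f ≫ kernel.ι N'.hom = kernel.ι N.hom ≫ f.left :=
  kernel.lift_ι _ _ _

theorem km_id (N : Over M) : km (𝟙 N) = 𝟙 _ := by
  rw [← cancel_mono (kernel.ι N.hom), km_ι, Category.id_comp]
  exact Category.comp_id _

theorem km_comp {N N' N'' : Over M} (f : N ⟶ N') (g : N' ⟶ N'') : km (f ≫ g) = km f ≫ km g := by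
  rw [← cancel_mono (kernel.ι N''.hom), km_ι, Category.assoc, km_ι, ← Category.assoc, km_ι,
    Category.assoc]
  rfl

variable {σ : C ⥤ C} (η : 𝟭 C ⟶ σ)

/-- the inclusion of `r^j K` in `N` -/
def aj (j : ℕ) (N : Over M) : (radN η j).obj (kernel N.hom) ⟶ N.left :=
  rι η j (kernel N.hom) ≫ kernel.ι N.hom

theorem aj_w (j : ℕ) (N : Over M) : aj η j N ≫ N.hom = 0 := by
  rw [aj, Category.assoc, kernel.condition, comp_zero]

theorem aj_nat (j : ℕ) {N N' : Over M} (f : N ⟶ N') :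
    aj η j N ≫ f.left = (radN η j).map (km f) ≫ aj η j N' := by
  rw [aj, aj, ← Category.assoc, rι_nat, Category.assoc, Category.assoc, km_ι]

theorem aj_succ (j : ℕ) (N : Over M) : r1 η j (kernel N.hom) ≫ aj η j N = aj η (j + 1) N := by
  change r1 η j (kernel N.hom) ≫ rι η j _ ≫ kernel.ι N.hom =
    (r1 η j (kernel N.hom) ≫ rι η j _) ≫ kernel.ι N.hom
  rw [Category.assoc]

/-- `N / r^j K` -/
def cj (j : ℕ) (N : Over M) : C := cokernel (aj η j N)

/-- the projection -/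
def cp (j : ℕ) (N : Over M) : N.left ⟶ cj η j N := cokernel.π (aj η j N)

theorem cp_epi (j : ℕ) (N : Over M) : Epi (cp η j N) :=
  (inferInstance : Epi (cokernel.π (aj η j N)))

theorem cp_w (j : ℕ) (N : Over M) : aj η j N ≫ cp η j N = 0 := cokernel.condition _

/-- the map to `M` -/
def ch (j : ℕ) (N : Over M) : cj η j N ⟶ M := cokernel.desc (aj η j N) N.hom (aj_w η j N)

theorem cp_ch (j : ℕ) (N : Over M) : cp η j N ≫ ch η j N = N.hom := cokernel.π_desc _ _ _

/-- the map of quotients -/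
def cm (j : ℕ) {N N' : Over M} (f : N ⟶ N') : cj η j N ⟶ cj η j N' :=
  cokernel.desc (aj η j N) (f.left ≫ cp η j N') (by
    rw [← Category.assoc, aj_nat, Category.assoc, cp_w, comp_zero])

theorem cp_cm (j : ℕ) {N N' : Over M} (f : N ⟶ N') :
    cp η j N ≫ cm η j f = f.left ≫ cp η j N' := cokernel.π_desc _ _ _

/-- the map from `N / r^(j+1) K` to `N / r^j K` -/
def cq (j : ℕ) (N : Over M) : cj η (j + 1) N ⟶ cj η j N :=
  cokernel.desc (aj η (j + 1) N) (cp η j N) (by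
    rw [← aj_succ, Category.assoc, cp_w, comp_zero])

theorem cp_cq (j : ℕ) (N : Over M) : cp η (j + 1) N ≫ cq η j N = cp η j N :=
  cokernel.π_desc _ _ _

theorem cp_cancel (j : ℕ) {N : Over M} {Z : C} {f g : cj η j N ⟶ Z}
    (h : cp η j N ≫ f = cp η j N ≫ g) : f = g := by
  have := cp_epi η j N
  exact (cancel_epi _).1 h

/-- the functor `N ↦ N / r^j K` -/
def Rj (M : C) (j : ℕ) : Over M ⥤ Over M where
  obj N := Over.mk (ch η j N)
  map {N N'} f := Over.homMk (cm η j f) (cp_cancel η j (by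
    change cp η j N ≫ cm η j f ≫ ch η j N' = cp η j N ≫ ch η j N
    rw [cp_ch, ← Category.assoc, cp_cm, Category.assoc, cp_ch, Over.w]))
  map_id N := Over.OverMorphism.ext (cp_cancel η j (by
    change cp η j N ≫ cm η j (𝟙 N) = cp η j N ≫ 𝟙 _
    rw [cp_cm, Category.comp_id]
    exact Category.id_comp _))
  map_comp {X Y Z} f g := Over.OverMorphism.ext (cp_cancel η j (by
    change cp η j X ≫ cm η j (f ≫ g) = cp η j X ≫ cm η j f ≫ cm η j g
    rw [cp_cm, ← Category.assoc, cp_cm, Category.assoc, cp_cm, ← Category.assoc]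
    rfl))

/-- the projection `N → N / r^j K` -/
def pj (M : C) (j : ℕ) : 𝟭 (Over M) ⟶ Rj η M j where
  app N := Over.homMk (cp η j N) (cp_ch η j N)
  naturality {X Y} f := Over.OverMorphism.ext (cp_cm η j f).symm

/-- the projection `N / r^(j+1) K → N / r^j K` -/
def qj (M : C) (j : ℕ) : Rj η M (j + 1) ⟶ Rj η M j where
  app N := Over.homMk (cq η j N) (cp_cancel η (j + 1) (by
    change cp η (j + 1) N ≫ cq η j N ≫ ch η j N = cp η (j + 1) N ≫ ch η (j + 1) N
    rw [← Category.assoc, cp_cq, cp_ch, cp_ch]))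
  naturality {X Y} f := Over.OverMorphism.ext (cp_cancel η (j + 1) (by
    change cp η (j + 1) X ≫ cm η (j + 1) f ≫ cq η j Y = cp η (j + 1) X ≫ cq η j X ≫ cm η j f
    rw [← Category.assoc, cp_cm, Category.assoc, cp_cq, ← Category.assoc, cp_cq, cp_cm]))

/-- the morphism to `𝟙 M` -/
def tj (M : C) (j : ℕ) : Rj η M j ⟶ (Functor.const (Over M)).obj (Over.mk (𝟙 M)) where
  app N := Over.homMk (ch η j N) (Category.comp_id _)
  naturality {X Y} f := Over.OverMorphism.ext (by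
    change cm η j f ≫ ch η j Y = ch η j X ≫ 𝟙 M
    rw [Category.comp_id]
    exact Over.w ((Rj η M j).map f))

/-! ### the properties -/

variable {P B : ObjectProperty C}

theorem epi_comp' {X Y Z : C} {f : X ⟶ Y} {g : Y ⟶ Z} (hf : Epi f) (hg : Epi g) :
    Epi (f ≫ g) := by
  infer_instance

theorem FMo_R (H : DevC P B) (j : ℕ) (N : Over M) (hN : FMo P M N) :
    FMo P M ((Rj η M j).obj N) := by
  obtain ⟨h1, h2⟩ := hN
  have e2 : Epi (cp η j N ≫ ch η j N) := by
    rw [cp_ch]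
    exact h1
  refine ⟨?_, ?_⟩
  · change Epi (ch η j N)
    exact epi_of_epi (cp η j N) (ch η j N)
  · exact quo_ker H.quoP (cp η j N) (cp_epi η j N) N.hom (ch η j N) (cp_ch η j N) h2

theorem mem_r (H : DevC P B) (j : ℕ) {K : C} (hK : P K) : P ((radN η j).obj K) := by
  have := rι_mono η j K
  exact H.subP (rι η j K) hK

theorem epi_K {N N' : Over M} (f : N ⟶ N') (hf : Epi f.left) : Epi (km f) :=
  epi_ker f.left N.hom N'.hom (by rw [Over.w f, Category.comp_id])

theorem epi_r (H : DevC P B) (R : RadD P B) (j : ℕ) {K K' : C} (f : K ⟶ K') (hK : P K)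
    (hK' : P K') (hf : Epi f) : Epi ((radN R.η j).map f) := by
  induction j with
  | zero => exact hf
  | succ j ih => exact R.map_epi _ (mem_r R.η H j hK) (mem_r R.η H j hK') ih

/-- the morphisms `R_j f` -/
theorem FMw_R (H : DevC P B) (R : RadD P B) (j : ℕ) {N N' : Over M} (f : N ⟶ N')
    (hN : FMo P M N) (hN' : FMo P M N') (hf : FMw B M f) : FMw B M ((Rj R.η M j).map f) := by
  obtain ⟨h1, h2⟩ := hf
  have e0 := cp_epi R.η j N
  have e1 := cp_cm R.η j f
  have e2 : Epi (cp R.η j N ≫ cm R.η j f) := by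
    rw [e1]
    exact epi_comp' h1 (cp_epi R.η j N')
  have e3 := epi_r H R j (km f) hN.2 hN'.2 (epi_K f h1)
  refine ⟨epi_of_epi (cp R.η j N) (cm R.η j f), ?_⟩
  refine key H.quoB H.sumB f.left (aj R.η j N) (aj R.η j N')
    ((radN R.η j).map (km f)) (aj_nat R.η j f) (cp R.η j N)
    (cm R.η j f) e1 h2 (W := 0) 0 0 ?_ (H.zerB _ (isZero_zero C))
  rw [comp_zero, cp_w]

/-- the morphisms `R_(j+1) N → R_j N'` -/
theorem FMw_q (H : DevC P B) (R : RadD P B) (j : ℕ) {N N' : Over M} (f : N ⟶ N')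
    (hN : FMo P M N) (hN' : FMo P M N') (hf : FMw B M f) :
    FMw B M ((Rj R.η M (j + 1)).map f ≫ (qj R.η M j).app N') := by
  obtain ⟨h1, h2⟩ := hf
  have e0 := cp_epi R.η (j + 1) N
  have e1 : cp R.η (j + 1) N ≫ (cm R.η (j + 1) f ≫ cq R.η j N') = f.left ≫ cp R.η j N' := by
    rw [← Category.assoc, cp_cm, Category.assoc, cp_cq]
  have e2 : Epi (cp R.η (j + 1) N ≫ (cm R.η (j + 1) f ≫ cq R.η j N')) := by
    rw [e1]
    exact epi_comp' h1 (cp_epi R.η j N')
  have e3 := epi_r H R j (km f) hN.2 hN'.2 (epi_K f h1)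
  refine ⟨epi_of_epi (cp R.η (j + 1) N) (cm R.η (j + 1) f ≫ cq R.η j N'), ?_⟩
  have hP : P ((radN R.η j).obj (kernel N.hom)) := mem_r R.η H j hN.2
  have e4 : Epi (R.η.app ((radN R.η j).obj (kernel N.hom))) := R.epi _ hP
  have w : kernel.ι (R.η.app ((radN R.η j).obj (kernel N.hom))) ≫
      (aj R.η j N ≫ cp R.η (j + 1) N) = 0 := by
    change r1 R.η j (kernel N.hom) ≫ aj R.η j N ≫ cp R.η (j + 1) N = 0
    rw [← Category.assoc, aj_succ, cp_w]
  exact key H.quoB H.sumB f.left (aj R.η j N) (aj R.η j N')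
    ((radN R.η j).map (km f)) (aj_nat R.η j f) (cp R.η (j + 1) N)
    (cm R.η (j + 1) f ≫ cq R.η j N') e1 h2
    (R.η.app ((radN R.η j).obj (kernel N.hom)))
    (Abelian.epiDesc (R.η.app ((radN R.η j).obj (kernel N.hom)))
      (aj R.η j N ≫ cp R.η (j + 1) N) w)
    (Abelian.comp_epiDesc _ _ _) (R.mem _ hP)

/-- `R_0 N → M` is mono -/
theorem ch_mono (N : Over M) : Mono (ch η 0 N) := by
  rw [Preadditive.mono_iff_cancel_zero]
  intro A y hy
  have e0 := cp_epi η 0 N
  obtain ⟨A1, a1, ha1, x, hx⟩ := surjective_up_to_refinements_of_epi (cp η 0 N) y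
  have h1 : x ≫ N.hom = 0 := by
    rw [← cp_ch η 0, ← Category.assoc, ← hx, Category.assoc, hy, comp_zero]
  obtain ⟨l, h2⟩ : ∃ l : A1 ⟶ (radN η 0).obj (kernel N.hom), x = l ≫ aj η 0 N := by
    refine ⟨kernel.lift N.hom x h1, ?_⟩
    change x = kernel.lift N.hom x h1 ≫ 𝟙 _ ≫ kernel.ι N.hom
    rw [Category.id_comp, kernel.lift_ι]
  rw [← cancel_epi a1, hx, h2, Category.assoc, cp_w, comp_zero, comp_zero]

/-- the morphisms `R_0 N → M` -/
theorem FMw_t (H : DevC P B) {N N' : Over M} (f : N ⟶ N')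
    (hN : FMo P M N) : FMw B M ((Rj η M 0).map f ≫ (tj η M 0).app N') := by
  have e1 : ((Rj η M 0).map f ≫ (tj η M 0).app N').left = ch η 0 N :=
    Over.w ((Rj η M 0).map f)
  have e2 : Epi (ch η 0 N) := (FMo_R η H 0 N hN).1
  have e3 := ch_mono η N
  change Epi ((Rj η M 0).map f ≫ (tj η M 0).app N').left ∧
    B (kernel ((Rj η M 0).map f ≫ (tj η M 0).app N').left)
  rw [e1]
  exact ⟨e2, H.zerB _ ((isZero_zero C).of_iso (kernel.ofMono (ch η 0 N)))⟩

/-- the morphisms `N → R_j N'`, `r^j K' = 0` -/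
theorem FMw_p (H : DevC P B) (j : ℕ) {N N' : Over M} (f : N ⟶ N') (hf : FMw B M f)
    (h0 : IsZero ((radN η j).obj (kernel N'.hom))) :
    FMw B M (f ≫ (pj η M j).app N') := by
  obtain ⟨h1, h2⟩ := hf
  have e1 : Mono (cp η j N') := by
    have h3 : aj η j N' = 0 := h0.eq_of_src _ _
    change Mono (cokernel.π (aj η j N'))
    rw [Preadditive.mono_iff_cancel_zero]
    intro A y hy
    have hex : (ShortComplex.mk (aj η j N') (cokernel.π (aj η j N'))
      (cokernel.condition (aj η j N'))).Exact := ShortComplex.exact_cokernel (aj η j N')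
    rw [ShortComplex.exact_iff_exact_up_to_refinements] at hex
    obtain ⟨A2, a2, ha2, k', hk'⟩ := hex y hy
    change a2 ≫ y = k' ≫ aj η j N' at hk'
    rw [← cancel_epi a2, hk', h3, comp_zero, comp_zero]
  refine ⟨epi_comp' h1 (cp_epi η j N'), ?_⟩
  exact H.isoB (kernelCompMono f.left (cp η j N')).symm h2

end

/-! ### the contraction -/

section

variable {C : Type u} [Category.{v} C] [Abelian C] {P B : ObjectProperty C}

theorem FMo_one (H : DevC P B) (M : C) : FMo P M (Over.mk (𝟙 M)) :=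
  ⟨(inferInstance : Epi (𝟙 M)), H.zerP _ ((isZero_zero C).of_iso (kernel.ofMono (𝟙 M)))⟩

theorem FMw_id (H : DevC P B) {M : C} (N : Over M) : FMw B M (𝟙 N) :=
  ⟨(inferInstance : Epi (𝟙 N.left)),
    H.zerB _ ((isZero_zero C).of_iso (kernel.ofMono (𝟙 N.left)))⟩

/-- `R_j` on the chains -/
def RM (H : DevC P B) (R : RadD P B) (M : C) (j : ℕ) : FM P B M ⟶ FM P B M :=
  NvP.mapF (Rj R.η M j) (fun N hN => FMo_R R.η H j N hN) fun f hN hN' hf =>
    FMw_R H R j f hN hN' hf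

/-- the constant map -/
def cM (H : DevC P B) (M : C) : FM P B M ⟶ FM P B M :=
  NvP.mapF ((Functor.const (Over M)).obj (Over.mk (𝟙 M))) (fun _ _ => FMo_one H M)
    fun _ _ _ _ => FMw_id H _

theorem RM_succ (H : DevC P B) (R : RadD P B) (M : C) (j : ℕ) :
    Nonempty (SSt.Htpy (RM H R M (j + 1)) (RM H R M j)) :=
  ⟨NvP.htpy _ _ _ _ (qj R.η M j) fun f hN hN' hf => FMw_q H R j f hN hN' hf⟩

theorem RM_zero (H : DevC P B) (R : RadD P B) (M : C) :
    Nonempty (SSt.Htpy (RM H R M 0) (cM H M)) :=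
  ⟨NvP.htpy _ _ _ (fun _ _ _ _ => FMw_id H _) (tj R.η M 0) fun f hN _ _ => FMw_t R.η H f hN⟩

/-- the chains with `r^n K = 0` -/
def An (R : RadD P B) (M : C) (n : ℕ) : SubS (FM P B M) where
  s _ := {x | ∀ i, IsZero ((radN R.η n).obj (kernel (x.1.obj i).hom))}
  map_mem θ _ h i := h (θ i)

/-- the objects with `r^n K = 0` -/
def Fo (R : RadD P B) (M : C) (n : ℕ) : ObjectProperty (Over M) := fun N =>
  FMo P M N ∧ IsZero ((radN R.η n).obj (kernel N.hom))

/-- from `An` to the chains with objects in `Fo` -/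
def An.to (R : RadD P B) (M : C) (n : ℕ) : (An R M n).S ⟶ NvP (Over M) (Fo R M n) (FMw B M) :=
  ⟨fun _ x => ⟨x.1.1, fun i => ⟨x.1.2.1 i, x.2 i⟩, x.1.2.2⟩, fun _ _ => rfl⟩

theorem An_htpy (H : DevC P B) (R : RadD P B) (M : C) (n : ℕ) :
    Nonempty (SSt.Htpy
      (NvP.mapF (𝟭 (Over M)) (fun _ hN => hN.1) fun _ _ _ hf => hf :
        NvP (Over M) (Fo R M n) (FMw B M) ⟶ FM P B M)
      (NvP.mapF (Rj R.η M n) (fun N hN => FMo_R R.η H n N hN.1) fun f hN hN' hf =>
        FMw_R H R n f hN.1 hN'.1 hf)) :=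
  ⟨NvP.htpy _ _ _ _ (pj R.η M n) fun f _ hN' hf => FMw_p R.η H n f hf hN'.2⟩

theorem zero_succ {σ : C ⥤ C} (η : 𝟭 C ⟶ σ) (n : ℕ) (K : C) (h : IsZero ((radN η n).obj K)) :
    IsZero ((radN η (n + 1)).obj K) := by
  have := r1_mono η n K
  exact h.of_mono (r1 η n K)

theorem zero_le {σ : C ⥤ C} (η : 𝟭 C ⟶ σ) {n m : ℕ} (hnm : n ≤ m) (K : C)
    (h : IsZero ((radN η n).obj K)) : IsZero ((radN η m).obj K) := by
  induction hnm with
  | refl => exact h
  | step _ ih => exact zero_succ η _ K ih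

end

end Pool.Agent.KQ.DvC

namespace Pool.Agent.KQ

open CategoryTheory CategoryTheory.Limits Function

universe u v

/-- **DvC**. -/
theorem thm_DvC (hH : St_StrHt.{max u v}) (hU : St_StrUnion.{max u v}) : St_DvC.{u, v} := by
  intro C _ _ P B H R M _
  have hR : ∀ j, SSt.StrEq (DvC.RM H R M j) (DvC.cM H M) := by
    intro j
    induction j with
    | zero => exact hH.1 _ _ (DvC.RM_zero H R M)
    | succ j ih => exact DvC.StrEq.trans (hH.1 _ _ (DvC.RM_succ H R M j)) ih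
  have h1 : SSt.StrEq (𝟙 (FM P B M)) (DvC.cM H M) := by
    refine hU.1 (J := ULift.{max u v} ℕ) (fun n => DvC.An R M n.down) ?_ ?_ _ _ ?_
    · intro i j
      refine ⟨⟨max i.down j.down⟩, fun n x hx k => ?_⟩
      rcases hx with hx | hx
      · exact DvC.zero_le R.η (le_max_left _ _) _ (hx k)
      · exact DvC.zero_le R.η (le_max_right _ _) _ (hx k)
    · intro n x
      choose f hf using fun i : Fin (n + 1) => R.nil _ (x.2.1 i).2
      refine ⟨⟨Finset.univ.sup f⟩, fun i => ?_⟩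
      exact DvC.zero_le R.η (Finset.le_sup (Finset.mem_univ i)) _ (hf i)
    · intro j
      have h2 := DvC.StrEq.comp_left (DvC.An.to R M j.down) (hH.1 _ _ (DvC.An_htpy H R M j.down))
      have h3 := DvC.StrEq.comp_left (DvC.An R M j.down).ι (hR j.down)
      exact DvC.StrEq.trans h2 h3
  refine hH.2.2 (FM P B M) ⟨fun n _ => ⟨(Functor.const _).obj (Over.mk (𝟙 M)),
    fun _ => DvC.FMo_one H M, fun _ => DvC.FMw_id H _⟩, fun _ _ => rfl⟩ ?_
  exact DvC.StrEq.symm h1

end Pool.Agent.KQ
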