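import Pool.Agent.KQ.StSA

/-!
# KQ: fully faithful exact functors which reflect conflations (helper82)

Architect helper94; statement and proof `St_Eqv` in `Pool/Agent/KQ/StSA.lean`.
-/

set_option autoImplicit false
set_option linter.unusedVariables false

noncomputable section

namespace Pool.Agent.KQ

open CategoryTheory CategoryTheory.Limits Function

universe u v

namespace Eqv

variable {E E' : ExCat.{u}} (F : ExFun E E') (B : ObjectProperty E'.C)

/-- the hypotheses -/
structure Dt : Prop where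
  full : ∀ {X Y : E.Ob} (g : F.F.obj X ⟶ F.F.obj Y), ∃ f : X ⟶ Y, F.F.map f = g
  faith : ∀ {X Y : E.Ob} (f f' : X ⟶ Y), F.F.map f = F.F.map f' → f = f'
  refl : ∀ {X Y Z : E.Ob} (f : X ⟶ Y) (g : Y ⟶ Z),
    E'.Conf (F.F.map f) (F.F.map g) → E.Conf f g
  im : ∀ X, B X ↔ ∃ Y : E.Ob, Nonempty ((F.F.obj Y).obj ≅ X)

variable {F B} (H : Dt F B)

include H in
theorem isoB : IsoC B := fun {X Y} e hX => by
  obtain ⟨Z, ⟨i⟩⟩ := (H.im X).1 hX
  exact (H.im Y).2 ⟨Z, ⟨i.trans e⟩⟩

/-- the chosen preimage -/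
def cY (X : E'.C) (hX : B X) : E.Ob := Classical.choose ((H.im X).1 hX)

/-- the chosen isomorphism -/
def cI (X : E'.C) (hX : B X) : (F.F.obj (cY H X hX)).obj ≅ X :=
  Classical.choice (Classical.choose_spec ((H.im X).1 hX))

/-- the preimage of a morphism -/
def pre {X Y : E.Ob} (g : (F.F.obj X).obj ⟶ (F.F.obj Y).obj) : X ⟶ Y :=
  Classical.choose (H.full (ObjectProperty.homMk g))

theorem map_pre {X Y : E.Ob} (g : (F.F.obj X).obj ⟶ (F.F.obj Y).obj) :
    (F.F.map (pre H g)).hom = g :=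
  congrArg InducedCategory.Hom.hom (Classical.choose_spec (H.full (ObjectProperty.homMk g)))

include H in
theorem hom_ext' {X Y : E.Ob} {f g : X ⟶ Y} (h : (F.F.map f).hom = (F.F.map g).hom) : f = g :=
  H.faith f g (ObjectProperty.hom_ext _ h)

theorem map_comp_hom {X Y Z : E.Ob} (f : X ⟶ Y) (g : Y ⟶ Z) :
    (F.F.map (f ≫ g)).hom = (F.F.map f).hom ≫ (F.F.map g).hom :=
  congrArg InducedCategory.Hom.hom (F.F.map_comp f g)

section

variable {J : Type} [Preorder J]

/-- the chosen preimage of a diagram -/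
def psi (D : J ⥤ E'.C) (hD : ∀ j, B (D.obj j)) : J ⥤ E.Ob where
  obj j := cY H (D.obj j) (hD j)
  map {i j} f := pre H ((cI H (D.obj i) (hD i)).hom ≫ D.map f ≫ (cI H (D.obj j) (hD j)).inv)
  map_id j := by
    apply hom_ext' H
    rw [map_pre, F.F.map_id, D.map_id, Category.id_comp, Iso.hom_inv_id]
    rfl
  map_comp {i j k} f g := by
    apply hom_ext' H
    rw [map_pre, F.F.map_comp, ObjectProperty.FullSubcategory.comp_hom, map_pre, map_pre,
      D.map_comp]
    simp

/-- the isomorphism -/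
def psiI (D : J ⥤ E'.C) (hD : ∀ j, B (D.obj j)) : psi H D hD ⋙ F.F ⋙ E'.P.ι ≅ D :=
  NatIso.ofComponents (fun j => cI H (D.obj j) (hD j)) fun {i j} f => by
    change (F.F.map (pre H ((cI H (D.obj i) (hD i)).hom ≫ D.map f ≫
      (cI H (D.obj j) (hD j)).inv))).hom ≫ (cI H (D.obj j) (hD j)).hom =
      (cI H (D.obj i) (hD i)).hom ≫ D.map f
    rw [map_pre]
    simp

/-- the preimage of an isomorphism -/
def preI {X Y : E.Ob} (e : (F.F.obj X).obj ≅ (F.F.obj Y).obj) : X.obj ≅ Y.obj where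
  hom := (pre H e.hom).hom
  inv := (pre H e.inv).hom
  hom_inv_id := by
    have h : pre H e.hom ≫ pre H e.inv = 𝟙 X := by
      apply hom_ext' H
      rw [F.F.map_comp, ObjectProperty.FullSubcategory.comp_hom, map_pre, map_pre, F.F.map_id,
        Iso.hom_inv_id]
      rfl
    exact congrArg InducedCategory.Hom.hom h
  inv_hom_id := by
    have h : pre H e.inv ≫ pre H e.hom = 𝟙 Y := by
      apply hom_ext' H
      rw [F.F.map_comp, ObjectProperty.FullSubcategory.comp_hom, map_pre, map_pre, F.F.map_id,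
        Iso.inv_hom_id]
      rfl
    exact congrArg InducedCategory.Hom.hom h

/-- the isomorphism for diagrams in `E` -/
def phiI (D : J ⥤ E.C) (hD : ∀ j, E.P (D.obj j)) (hB : ∀ j, B ((F.onD D hD).obj j)) :
    psi H (F.onD D hD) hB ⋙ E.P.ι ≅ D :=
  NatIso.ofComponents (fun j => preI H (X := cY H ((F.onD D hD).obj j) (hB j))
    (Y := (E.lift D hD).obj j) (cI H ((F.onD D hD).obj j) (hB j))) fun {i j} f => by
    have h : (psi H (F.onD D hD) hB).map f ≫ pre H (X := cY H ((F.onD D hD).obj j) (hB j))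
      (Y := (E.lift D hD).obj j) (cI H ((F.onD D hD).obj j) (hB j)).hom =
      pre H (X := cY H ((F.onD D hD).obj i) (hB i)) (Y := (E.lift D hD).obj i)
        (cI H ((F.onD D hD).obj i) (hB i)).hom ≫ (E.lift D hD).map f := by
      apply hom_ext' H
      have e1 := map_pre H (X := cY H ((F.onD D hD).obj j) (hB j)) (Y := (E.lift D hD).obj j)
        (cI H ((F.onD D hD).obj j) (hB j)).hom
      have e2 := map_pre H (X := cY H ((F.onD D hD).obj i) (hB i)) (Y := (E.lift D hD).obj i)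
        (cI H ((F.onD D hD).obj i) (hB i)).hom
      refine (map_comp_hom _ _).trans (Eq.trans ?_ (map_comp_hom _ _).symm)
      exact (congrArg (fun g => (F.F.map ((psi H (F.onD D hD) hB).map f)).hom ≫ g) e1).trans
        (((psiI H (F.onD D hD) hB).hom.naturality f).trans
          (congrArg (fun g => g ≫ (F.F.map ((E.lift D hD).map f)).hom) e2).symm)
    exact congrArg InducedCategory.Hom.hom h

end

theorem isZ {X : E.Ob} (h : IsZero (F.F.obj X).obj) (H : Dt F B) : IsZero X.obj := by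
  rw [← E.isZero_iff, IsZero.iff_id_eq_zero]
  apply hom_ext' H
  exact h.eq_of_src _ _

theorem psi_SQ {I : Type} [Preorder I] (D : Ar I ⥤ E'.C) (hD : SQ B I D) :
    SQ E.P I (psi H D hD.1 ⋙ E.P.ι) := by
  refine ⟨fun x => (cY H (D.obj x) (hD.1 x)).property, fun i => ?_, fun i j k hij hjk => ?_⟩
  · exact isZ ((hD.2.1 i).of_iso (cI H _ (hD.1 _))) H
  · refine H.refl ((psi H D hD.1).map _) ((psi H D hD.1).map _) ?_
    exact ses_of_iso (hD.2.2 i j k hij hjk) (cI H _ (hD.1 _)).symm (cI H _ (hD.1 _)).symm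
      (cI H _ (hD.1 _)).symm
      ((psiI H D hD.1).inv.naturality _).symm ((psiI H D hD.1).inv.naturality _).symm

/-- the inverse map -/
def inv : SdS B ⟶ SdS E.P :=
  ⟨fun n D => ⟨psi H D.obj D.property.1 ⋙ E.P.ι, psi_SQ H D.obj D.property⟩, fun _ _ => rfl⟩

/-- the first homotopy -/
def h1 (hB : ∀ Y : E.Ob, B (F.F.obj Y).obj) : SSt.Htpy (F.obSB B hB ≫ inv H) (𝟙 (SdS E.P)) where
  h n α D := ⟨mixS (phiI H D.obj D.property.1 (fun j => hB _)) (fun x => α x.1.2),
    SQ.of_iso (fun e h => E.iso e h) (mixSI (phiI H D.obj D.property.1 (fun j => hB _))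
      (fun x => α x.1.2)) (psi_SQ H _ (((F.obSB B hB).app n D).property))⟩
  nat _ _ _ := rfl
  h0 n α D h := ObjectProperty.FullSubcategory.ext (mixS_false _ _ fun x => h _)
  h1 n α D h := ObjectProperty.FullSubcategory.ext (mixS_true _ _ fun x => h _)

/-- the second homotopy -/
def h2 (hB : ∀ Y : E.Ob, B (F.F.obj Y).obj) : SSt.Htpy (inv H ≫ F.obSB B hB) (𝟙 (SdS B)) where
  h n α D := ⟨mixS (psiI H D.obj D.property.1) (fun x => α x.1.2),
    SQ.of_iso (isoB H) (mixSI (psiI H D.obj D.property.1) (fun x => α x.1.2))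
      ((F.obSB B hB).app n ((inv H).app n D)).property⟩
  nat _ _ _ := rfl
  h0 n α D h := ObjectProperty.FullSubcategory.ext (mixS_false _ _ fun x => h _)
  h1 n α D h := ObjectProperty.FullSubcategory.ext (mixS_true _ _ fun x => h _)

end Eqv

theorem thm_Eqv (hH : St_StrHt.{u + 1}) : St_Eqv.{u} := by
  intro E E' F hfull hfaith hrefl B h
  have H : Eqv.Dt F B := ⟨hfull, hfaith, hrefl, h⟩
  exact hH.2.1 _ (Eqv.inv H) (hH.1 _ _ ⟨Eqv.h1 H _⟩) (hH.1 _ _ ⟨Eqv.h2 H _⟩)

end Pool.Agent.KQ
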