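import Pool.Agent.KQ.StSA

/-!
# KQ: chains of monomorphisms resolve the chains of morphisms inverted by `L`
-/

set_option autoImplicit false

noncomputable section

namespace Pool.Agent.KQ

open CategoryTheory CategoryTheory.Limits Function
open scoped ZeroObject

universe u

namespace LcV

/-! ### finite products -/

theorem prod_mem {E : ExCat.{u}} (A : SubP E) (n : ℕ) (F : Fin n → E.C) (h : ∀ j, A.P (F j)) :
    A.P (∏ᶜ F) := by
  induction n with
  | zero =>
    apply A.zero
    rw [IsZero.iff_id_eq_zero]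
    exact Pi.hom_ext _ _ fun j => j.elim0
  | succ n ih =>
    refine A.ext (X := ∏ᶜ fun j : Fin n => F j.succ) (Y := ∏ᶜ F) (Z := F 0)
      (Pi.lift fun j => Fin.cases (motive := fun j => (∏ᶜ fun j : Fin n => F j.succ) ⟶ F j) 0
        (fun j => Pi.π (fun j : Fin n => F j.succ) j) j) (Pi.π F 0) ?_ (ih _ fun j => h _) (h 0)
    rw [ses_iff]
    refine ⟨?_, ?_, ?_, fun T y hy => ?_⟩
    · rw [Pi.lift_π]
      rfl
    · apply mono_of_zero
      intro T y hy
      apply Pi.hom_ext
      intro j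
      have h1 := congrArg (fun t => t ≫ Pi.π F j.succ) hy
      simp only [Category.assoc, Pi.lift_π, zero_comp] at h1
      rw [zero_comp]
      exact h1
    · apply epi_of_zero
      intro T y hy
      have h1 : (Pi.lift fun j => Fin.cases (motive := fun j => F 0 ⟶ F j) (𝟙 (F 0))
          (fun j => 0) j) ≫ Pi.π F 0 = 𝟙 (F 0) := by
        rw [Pi.lift_π]
        rfl
      rw [← Category.id_comp y, ← h1, Category.assoc, hy, comp_zero]
    · refine ⟨Pi.lift fun j => y ≫ Pi.π F j.succ, ?_⟩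
      apply Pi.hom_ext
      intro j
      rw [Category.assoc, Pi.lift_π]
      refine Fin.cases ?_ (fun j => ?_) j
      · change _ ≫ 0 = _
        rw [hy, comp_zero]
      · change _ ≫ Pi.π (fun j : Fin n => F j.succ) j = _
        rw [Pi.lift_π]

/-! ### zero objects -/

section

variable {C : Type*} [Category C] [Abelian C]

theorem isZero_right {X Y Z : C} {f : X ⟶ Y} {g : Y ⟶ Z} (h : SES f g) (hf : IsIso f) :
    IsZero Z := by
  have h1 : g = 0 := by rw [← cancel_epi f, h.w, comp_zero]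
  have := h.epi
  rw [IsZero.iff_id_eq_zero, ← cancel_epi g, h1, zero_comp, zero_comp]

theorem isZero_mono {X Y Z : C} (f : X ⟶ Y) (g : Y ⟶ Z) (hf : Mono f) (hg : Mono g)
    (h : f ≫ g = 0) : IsZero X := by
  have h1 : f = 0 := by rw [← cancel_mono g, h, zero_comp]
  rw [IsZero.iff_id_eq_zero, ← cancel_mono f, h1, comp_zero, comp_zero]

theorem isZero_sub {X Y : C} (f : X ⟶ Y) (hf : Mono f) (hY : IsZero Y) : IsZero X := by
  rw [IsZero.iff_id_eq_zero, ← cancel_mono f]
  exact hY.eq_of_tgt _ _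

end

/-! ### chains -/

variable {EB EC : ExCat.{u}} (D : LocD EB EC)

theorem A_of_mono {J : Type} [Preorder J] (X : J ⥤ EB.C) (h : (D.WW.Q J).Q X)
    (hm : ∀ (i j : J) (f : i ⟶ j), Mono (X.map f)) : (EB.monoP D.A J).Q X := by
  refine ⟨h.1, fun i j hij => ?_⟩
  have := hm i j (homOfLE hij)
  have s := ses_cokernel (X.map (homOfLE hij))
  exact ⟨_, _, ⟨D.quoB (cokernel.π _) (h.1 j), isZero_right (D.ses s) (h.2 (homOfLE hij))⟩, s⟩

theorem mono_of_A {J : Type} [Preorder J] (X : J ⥤ EB.C) (h : (EB.monoP D.A J).Q X)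
    (i j : J) (f : i ⟶ j) : Mono (X.map f) := by
  obtain ⟨Z, g, -, hg⟩ := h.2 i j (leOfHom f)
  exact hg.mono

/-- the quotients -/
theorem quots {l : ℕ} (M : Fin (l + 1) ⥤ EB.C) (hM : (D.WW.Q (Fin (l + 1))).Q M)
    (j : Fin (l + 1)) : ∃ (Q : EB.C) (q : M.obj j ⟶ Q), D.A.P Q ∧ ∀ (T : EB.C)
      (x : T ⟶ M.obj j), x ≫ M.map (homOfLE (Fin.le_last j)) = 0 → x ≫ q = 0 → x = 0 := by
  let r := M.map (homOfLE (Fin.le_last j))
  have hz : IsZero (D.L.obj (kernel r)) := by
    have h1 : IsIso (D.L.map r) := hM.2 _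
    refine isZero_mono (D.L.map (kernel.ι r)) (D.L.map r) inferInstance inferInstance ?_
    rw [← D.L.map_comp, kernel.condition, D.L.map_zero]
  obtain ⟨b', m, hm, hz', hx⟩ := D.ar (M.obj j) (kernel r) (kernel.ι r) inferInstance (hM.1 j) hz
  refine ⟨cokernel m, cokernel.π m, ⟨D.quoB (cokernel.π m) (hM.1 j), hz'⟩, fun T x h1 h2 => ?_⟩
  obtain ⟨y, hy⟩ := (ses_cokernel m).lift x h2
  have h3 := hx T (kernel.lift r x h1) y (by rw [kernel.lift_ι, hy])
  rwa [kernel.lift_ι] at h3

/-- the functor `i ↦ ∏_(j ≥ i) Q j` -/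
def E' {l : ℕ} (Q : Fin (l + 1) → EB.C) : Fin (l + 1) ⥤ EB.C where
  obj i := ∏ᶜ fun j : {j : Fin (l + 1) // i ≤ j} => Q j.1
  map {i k} f := Pi.lift fun j : {j : Fin (l + 1) // k ≤ j} =>
    Pi.π (fun j : {j : Fin (l + 1) // i ≤ j} => Q j.1) ⟨j.1, (leOfHom f).trans j.2⟩
  map_id i := by
    apply Pi.hom_ext
    intro j
    rw [Pi.lift_π, Category.id_comp]
  map_comp f g := by
    apply Pi.hom_ext
    intro j
    rw [Pi.lift_π, Category.assoc, Pi.lift_π, Pi.lift_π]

/-- the component `i` -/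
def pr {l : ℕ} (Q : Fin (l + 1) → EB.C) (i : Fin (l + 1)) : (E' Q).obj i ⟶ Q i :=
  Pi.π (fun j : {j : Fin (l + 1) // i ≤ j} => Q j.1) ⟨i, le_rfl⟩

/-- the projection from the constant functor -/
def b' {l : ℕ} (Q : Fin (l + 1) → EB.C) : (Functor.const (Fin (l + 1))).obj (∏ᶜ Q) ⟶ E' Q where
  app i := Pi.lift fun j => Pi.π Q j.1
  naturality i k f := by
    apply Pi.hom_ext
    intro j
    change (𝟙 _ ≫ Pi.lift _) ≫ _ = (Pi.lift _ ≫ Pi.lift _) ≫ _
    rw [Category.id_comp, Pi.lift_π, Category.assoc, Pi.lift_π, Pi.lift_π]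

theorem b'_epi {l : ℕ} (Q : Fin (l + 1) → EB.C) : Epi (b' Q) := by
  have h : ∀ i, Epi ((b' Q).app i) := by
    intro i
    apply epi_of_zero
    intro T y hy
    have h1 : (Pi.lift fun j => if h : i ≤ j then
        Pi.π (fun j : {j : Fin (l + 1) // i ≤ j} => Q j.1) ⟨j, h⟩ else 0) ≫ (b' Q).app i =
        𝟙 (∏ᶜ fun j : {j : Fin (l + 1) // i ≤ j} => Q j.1) := by
      apply Pi.hom_ext
      intro j
      change (Pi.lift _ ≫ Pi.lift _) ≫ _ = _
      rw [Category.assoc, Pi.lift_π, Pi.lift_π, dif_pos j.2, Category.id_comp]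
    rw [← Category.id_comp y]
    refine (congrArg (fun t => t ≫ y) h1.symm).trans ?_
    rw [Category.assoc, hy, comp_zero]
    rfl
  exact NatTrans.epi_of_epi_app _

/-- the morphism from `M` -/
def a' {l : ℕ} (M : Fin (l + 1) ⥤ EB.C) (Q : Fin (l + 1) → EB.C) (q : ∀ j, M.obj j ⟶ Q j) :
    M ⟶ E' Q where
  app i := Pi.lift fun j => M.map (homOfLE j.2) ≫ q j.1
  naturality i k f := by
    apply Pi.hom_ext
    intro j
    change (_ ≫ Pi.lift _) ≫ _ = (Pi.lift _ ≫ Pi.lift _) ≫ _
    rw [Category.assoc, Pi.lift_π, Category.assoc, Pi.lift_π, Pi.lift_π, ← Category.assoc,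
      ← M.map_comp]
    rfl

theorem cov {l : ℕ} (M : Fin (l + 1) ⥤ EB.C) (hM : (D.WW.Q (Fin (l + 1))).Q M) :
    ∃ (P₁ P₀ : Fin (l + 1) ⥤ EB.C) (f : P₁ ⟶ P₀) (g : P₀ ⟶ M), SES f g ∧
      (EB.monoP D.A (Fin (l + 1))).Q P₁ ∧ (EB.monoP D.A (Fin (l + 1))).Q P₀ := by
  choose Q q hQ hq using quots D M hM
  have hAQ : D.A.P (∏ᶜ Q) := prod_mem D.A _ Q hQ
  let a := a' M Q q
  let b := b' Q
  have hb : Epi b := b'_epi Q
  let g : pullback a b ⟶ M := pullback.fst a b
  let s : pullback a b ⟶ (Functor.const (Fin (l + 1))).obj (∏ᶜ Q) := pullback.snd a b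
  have hg : Epi g := inferInstance
  have hses : SES (kernel.ι g) g := ses_kernel g
  -- the kernel embeds in the constant functor
  have hmono : Mono (kernel.ι g ≫ s) := by
    apply mono_of_zero
    intro T y hy
    rw [← cancel_mono (kernel.ι g), zero_comp]
    apply pullback.hom_ext
    · change (y ≫ kernel.ι g) ≫ g = 0 ≫ g
      rw [Category.assoc, kernel.condition, comp_zero, zero_comp]
    · change (y ≫ kernel.ι g) ≫ s = 0 ≫ s
      rw [Category.assoc, hy, zero_comp]
  have hmono' : ∀ i, Mono ((kernel.ι g ≫ s).app i) := fun i => inferInstance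
  have h1 : (D.WW.Q (Fin (l + 1))).Q (kernel g) := by
    have hz : ∀ i, IsZero (D.L.obj ((kernel g).obj i)) := by
      intro i
      have := hmono' i
      exact isZero_sub (D.L.map ((kernel.ι g ≫ s).app i)) inferInstance hAQ.2
    refine ⟨fun i => ?_, fun {i j} f => ⟨0, (hz i).eq_of_src _ _, (hz j).eq_of_src _ _⟩⟩
    have := hmono' i
    exact D.subB ((kernel.ι g ≫ s).app i) hAQ.1
  have h2 : (D.WW.Q (Fin (l + 1))).Q (pullback a b) :=
    (D.WW.Q _).ext (kernel.ι g) g ((ses_functor _ _).1 hses) h1 hM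
  refine ⟨kernel g, pullback a b, kernel.ι g, g, hses, A_of_mono D _ h1 fun i j f => ?_,
    A_of_mono D _ h2 fun i j f => ?_⟩
  · have h3 : (kernel g).map f ≫ (kernel.ι g ≫ s).app j = (kernel.ι g ≫ s).app i := by
      rw [(kernel.ι g ≫ s).naturality f]
      exact Category.comp_id _
    have h4 : Mono ((kernel g).map f ≫ (kernel.ι g ≫ s).app j) := by
      rw [h3]
      exact hmono' i
    exact mono_of_mono _ ((kernel.ι g ≫ s).app j)
  · -- the pullback embeds in the sum
    have hm : Mono (biprod.lift g s) := by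
      apply mono_of_zero
      intro T y hy
      apply pullback.hom_ext
      · change y ≫ g = 0 ≫ g
        rw [← biprod.lift_fst g s, ← Category.assoc, hy, zero_comp, zero_comp]
      · change y ≫ s = 0 ≫ s
        rw [← biprod.lift_snd g s, ← Category.assoc, hy, zero_comp, zero_comp]
    have hm' : Mono ((biprod.lift g s).app i) := inferInstance
    have joint : ∀ {T : EB.C} (x : T ⟶ (pullback a b).obj i), x ≫ g.app i = 0 →
        x ≫ s.app i = 0 → x = 0 := by
      intro T x hx hx'
      rw [← cancel_mono ((biprod.lift g s).app i), zero_comp, biprod.lift_eq]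
      change x ≫ (g.app i ≫ _ + s.app i ≫ _) = 0
      rw [Preadditive.comp_add, ← Category.assoc, ← Category.assoc, hx, hx', zero_comp, zero_comp,
        add_zero]
    apply mono_of_zero
    intro T x hx
    have e1 : x ≫ s.app i = 0 := by
      have h3 : (pullback a b).map f ≫ s.app j = s.app i := by
        rw [s.naturality f]
        exact Category.comp_id _
      rw [← h3, ← Category.assoc, hx, zero_comp]
    have e2 : (x ≫ g.app i) ≫ M.map f = 0 := by
      rw [Category.assoc, ← g.naturality f, ← Category.assoc, hx, zero_comp]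
    refine joint x ?_ e1
    apply hq i
    · have h3 : (homOfLE (Fin.le_last i) : i ⟶ Fin.last l) = f ≫ homOfLE (Fin.le_last j) := rfl
      rw [h3, M.map_comp, ← Category.assoc, e2, zero_comp]
    · have h3 : g.app i ≫ a.app i = s.app i ≫ b.app i :=
        congrArg (fun t : pullback a b ⟶ E' Q => t.app i) pullback.condition
      have h4 : a.app i ≫ pr Q i = q i := by
        change Pi.lift _ ≫ Pi.π _ _ = _
        rw [Pi.lift_π]
        have h5 : M.map (homOfLE (le_refl i)) = 𝟙 _ := M.map_id i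
        rw [h5, Category.id_comp]
      rw [← h4, Category.assoc, ← Category.assoc (g.app i), h3, ← Category.assoc, ← Category.assoc,
        e1, zero_comp, zero_comp]

end LcV

theorem thm_LcV : St_LcV.{u} := by
  intro EB EC D l
  exact
    { isoP := fun e h => (D.WW.Q _).iso e h
      extP := fun f g h hX hZ => (D.WW.Q _).ext f g ((ses_functor f g).1 h) hX hZ
      zerP := fun X h => (D.WW.Q _).zero X ((isZero_functor X).1 h)
      le := fun X h => D.mono_le X h
      isoA := fun e h => (EB.monoP D.A _).iso e h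
      extA := fun f g h hX hZ => (EB.monoP D.A _).ext f g ((ses_functor f g).1 h) hX hZ
      zerA := fun X h => (EB.monoP D.A _).zero X ((isZero_functor X).1 h)
      ker := fun {X Y Z} f g h hX hY _ => by
        refine LcV.A_of_mono D X hX fun i j φ => ?_
        have h1 := LcV.mono_of_A D Y hY i j φ
        have h2 : Mono (f.app i) := ((ses_functor f g).1 h i).mono
        have h3 : Mono (X.map φ ≫ f.app j) := by
          rw [f.naturality φ]
          infer_instance
        exact mono_of_mono _ (f.app j)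
      cov := fun M hM => LcV.cov D M hM }

end Pool.Agent.KQ
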