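import Pool.Agent.KQ.StSA

/-!
# KQ: resolution in one S-direction
-/

set_option autoImplicit false

noncomputable section

namespace Pool.Agent.KQ

universe u v

theorem thm_Res (hSA : St_SA.{u, v}) (hRsC : St_RsC.{u, v}) : St_Res.{u, v} := by
  intro C _ _ P A H
  exact hSA P A ⟨H.isoP, H.extP, H.le, H.isoA, H.zerA⟩ (hRsC P A H)

end Pool.Agent.KQ
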