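import Pool.Agent.KQ.StSA

/-!
# KQ, module RsC: resolution, the chains over `M` are contractible (helper22)
-/

set_option autoImplicit false

noncomputable section

namespace Pool.Agent.KQ

open CategoryTheory CategoryTheory.Limits Function
open scoped ZeroObject

universe u v

namespace RsC

section ab

variable {C : Type u} [Category.{v} C] [Abelian C]

/-- epimorphisms with kernel in `A` -/
def W (A : ObjectProperty C) {X Y : C} (f : X ⟶ Y) : Prop := Epi f ∧ A (kernel f)

theorem ker_of_ses {A : ObjectProperty C} (hI : IsoC A) {K X Y : C} {k : K ⟶ X} {f : X ⟶ Y}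
    (h : SES k f) (hK : A K) : A (kernel f) := by
  have := h.mono
  obtain ⟨x, hx⟩ := h.lift (kernel.ι f) (kernel.condition f)
  refine hI (X := K) ⟨kernel.lift f k h.w, x, ?_, ?_⟩ hK
  · rw [← cancel_mono k, Category.assoc, hx, kernel.lift_ι, Category.id_comp]
  · rw [← cancel_mono (kernel.ι f), Category.assoc, kernel.lift_ι, hx, Category.id_comp]

theorem W_of_ses {A : ObjectProperty C} (hI : IsoC A) {K X Y : C} {k : K ⟶ X} {f : X ⟶ Y}
    (h : SES k f) (hK : A K) : W A f := ⟨h.epi, ker_of_ses hI h hK⟩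

theorem ses_comp {X Y Z : C} (f : X ⟶ Y) (g : Y ⟶ Z) [Epi f] :
    SES (kernel.lift (f ≫ g) (kernel.ι f) (by rw [kernel.condition_assoc, zero_comp]))
      (kernel.lift g (kernel.ι (f ≫ g) ≫ f) (by rw [Category.assoc, kernel.condition])) := by
  rw [ses_iff]
  refine ⟨?_, ?_, ?_, ?_⟩
  · rw [← cancel_mono (kernel.ι g), Category.assoc, kernel.lift_ι, kernel.lift_ι_assoc,
      kernel.condition, zero_comp]
  · have h : Mono (kernel.lift (f ≫ g) (kernel.ι f)
        (by rw [kernel.condition_assoc, zero_comp]) ≫ kernel.ι (f ≫ g)) := by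
      rw [kernel.lift_ι]
      infer_instance
    exact mono_of_mono _ (kernel.ι (f ≫ g))
  · rw [epi_iff_surjective_up_to_refinements]
    intro T y
    obtain ⟨T', π, hπ, x, hx⟩ := surjective_up_to_refinements_of_epi f (y ≫ kernel.ι g)
    refine ⟨T', π, hπ, kernel.lift (f ≫ g) x ?_, ?_⟩
    · rw [← Category.assoc, ← hx, Category.assoc, Category.assoc, kernel.condition, comp_zero,
        comp_zero]
    · rw [← cancel_mono (kernel.ι g), Category.assoc, Category.assoc, kernel.lift_ι,
        kernel.lift_ι_assoc, hx]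
  · intro T y hy
    have h1 : (y ≫ kernel.ι (f ≫ g)) ≫ f = 0 := by
      have h2 := congrArg (fun z => z ≫ kernel.ι g) hy
      simp only [Category.assoc, kernel.lift_ι, zero_comp] at h2
      rw [Category.assoc, h2]
    refine ⟨kernel.lift f (y ≫ kernel.ι (f ≫ g)) h1, ?_⟩
    rw [← cancel_mono (kernel.ι (f ≫ g)), Category.assoc, kernel.lift_ι, kernel.lift_ι]

theorem W_comp {A : ObjectProperty C} (hE : ExtC A) {X Y Z : C} (f : X ⟶ Y) (g : Y ⟶ Z)
    (hf : W A f) (hg : W A g) : W A (f ≫ g) := by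
  have h1 : Epi f := hf.1
  have h2 : Epi g := hg.1
  exact ⟨epi_comp f g, hE _ _ (ses_comp f g) hf.2 hg.2⟩

theorem W_id {A : ObjectProperty C} (hZ : ZerC A) (X : C) : W A (𝟙 X) :=
  ⟨inferInstance, hZ _ (isZero_kernel_of_mono (𝟙 X))⟩

theorem ses_pb {T X Y Z : C} {p : T ⟶ X} {q : T ⟶ Y} {f : X ⟶ Z} {g : Y ⟶ Z}
    (h : IsPullback p q f g) [Epi g] :
    SES (h.lift 0 (kernel.ι g) (by rw [zero_comp, kernel.condition])) p := by
  rw [ses_iff]
  refine ⟨h.lift_fst _ _ _, ?_, ?_, ?_⟩
  · have h1 : Mono (h.lift 0 (kernel.ι g) (by rw [zero_comp, kernel.condition]) ≫ q) := by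
      rw [h.lift_snd]
      infer_instance
    exact mono_of_mono _ q
  · rw [epi_iff_surjective_up_to_refinements]
    intro S y
    obtain ⟨S', π, hπ, x, hx⟩ := surjective_up_to_refinements_of_epi g (y ≫ f)
    refine ⟨S', π, hπ, h.lift (π ≫ y) x (by rw [Category.assoc, hx]), ?_⟩
    rw [h.lift_fst]
  · intro S y hy
    have h1 : (y ≫ q) ≫ g = 0 := by
      rw [Category.assoc, ← h.w, ← Category.assoc, hy, zero_comp]
    refine ⟨kernel.lift g (y ≫ q) h1, h.hom_ext ?_ ?_⟩
    · rw [Category.assoc, h.lift_fst, comp_zero, hy]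
    · rw [Category.assoc, h.lift_snd, kernel.lift_ι]

theorem W_pb {A : ObjectProperty C} (hI : IsoC A) {T X Y Z : C} {p : T ⟶ X} {q : T ⟶ Y}
    {f : X ⟶ Z} {g : Y ⟶ Z} (h : IsPullback p q f g) (hg : W A g) : W A p := by
  have := hg.1
  exact W_of_ses hI (ses_pb h) hg.2

/-- the claim -/
theorem claim {P A : ObjectProperty C} (H : ResH P A) {Q N M : C} (g : Q ⟶ N) (n : N ⟶ M)
    (hg : W A g) (hQ : A Q) (hn : Epi n) (hK : P (kernel n)) (hM : P M) : W A (g ≫ n) := by
  have h1 : Epi g := hg.1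
  have h2 : Epi (g ≫ n) := epi_comp g n
  refine ⟨h2, ?_⟩
  have hK' : P (kernel (g ≫ n)) := H.extP _ _ (ses_comp g n) (H.le _ hg.2) hK
  obtain ⟨P₁, P₀, f₀, p₀, hs, hP₁, hP₀⟩ := H.cov M hM
  have h3 : Epi p₀ := hs.epi
  have hpb : IsPullback (pullback.fst (g ≫ n) p₀) (pullback.snd (g ≫ n) p₀) (g ≫ n) p₀ :=
    IsPullback.of_hasPullback _ _
  have h4 : W A (pullback.fst (g ≫ n) p₀) := W_pb H.isoA hpb (W_of_ses H.isoA hs hP₁)
  have h5 : Epi (pullback.fst (g ≫ n) p₀) := h4.1
  have h6 : A (pullback (g ≫ n) p₀) := H.extA _ _ (ses_kernel (pullback.fst (g ≫ n) p₀)) h4.2 hQ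
  exact H.ker _ _ (ses_pb hpb.flip) hK' h6 hP₀

end ab

section ov

variable {C : Type u} [Category.{v} C] [Abelian C] {P A : ObjectProperty C} {M : C}

theorem mult (H : ResH P A) (M : C) : (FMw A M).IsMultiplicative where
  id_mem X := W_id H.zerA X.left
  comp_mem f g hf hg := W_comp H.extA f.left g.left hf hg

variable (P A M) [(FMw A M).IsMultiplicative]

/-- the category `𝓕°` -/
abbrev F0 : Type (max u v) := PWo (Over M) (FMo A M) (FMw A M)

/-- the category `𝓕` -/
abbrev F1 : Type (max u v) := PWo (Over M) (FMo P M) (FMw A M)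

variable {P A}

/-- the inclusion -/
def inc (H : ResH P A) : F0 A M ⥤ F1 P A M :=
  PWo.mapF (𝟭 (Over M)) (fun _ hx => ⟨hx.1, H.le _ hx.2⟩) fun _ _ _ h => h

variable {M}

/-- the terminal object of `𝓕°` -/
def tO (H : ResH P A) (M : C) [(FMw A M).IsMultiplicative] : F0 A M :=
  ⟨Over.mk (𝟙 M), (W_id H.zerA M).1, (W_id H.zerA M).2⟩

theorem tO_terminal (H : ResH P A) (M : C) [(FMw A M).IsMultiplicative] :
    Nonempty (IsTerminal (tO H M)) := by
  refine ⟨IsTerminal.ofUniqueHom (fun X => ⟨Over.homMk X.obj.hom (Category.comp_id _), ?_⟩) ?_⟩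
  · exact ⟨X.property.1, X.property.2⟩
  · intro X m
    apply Subtype.ext
    apply Over.OverMorphism.ext
    have h := Over.w m.1
    change m.1.left = X.obj.hom
    rw [← h]
    exact (Category.comp_id _).symm

/-! ### the comma category -/

section comma

variable (H : ResH P A) (y : F1 P A M) {Q : C} (g : Q ⟶ y.obj.left) (hg : W A g)

/-- the object `N'` -/
abbrev xO (X : CostructuredArrow (inc M H) y) : C := X.left.obj.left

/-- the morphism `N' ⟶ M` -/
abbrev xM (X : CostructuredArrow (inc M H) y) : xO H y X ⟶ M := X.left.obj.hom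

/-- the morphism `N' ⟶ N` -/
def xH (X : CostructuredArrow (inc M H) y) : xO H y X ⟶ y.obj.left := X.hom.1.left

/-- the morphism `N' ⟶ N''` -/
def xF {X X' : CostructuredArrow (inc M H) y} (φ : X ⟶ X') : xO H y X ⟶ xO H y X' :=
  φ.left.1.left

theorem xH_W (X : CostructuredArrow (inc M H) y) : W A (xH H y X) := X.hom.2

theorem xF_W {X X' : CostructuredArrow (inc M H) y} (φ : X ⟶ X') : W A (xF H y φ) := φ.left.2

theorem xH_w (X : CostructuredArrow (inc M H) y) : xH H y X ≫ y.obj.hom = xM H y X :=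
  Over.w X.hom.1

theorem xF_w {X X' : CostructuredArrow (inc M H) y} (φ : X ⟶ X') :
    xF H y φ ≫ xM H y X' = xM H y X := Over.w φ.left.1

theorem w_left {X X' : CostructuredArrow (inc M H) y} (φ : X ⟶ X') :
    xF H y φ ≫ xH H y X' = xH H y X := by
  have h := CostructuredArrow.w φ
  have h1 := congrArg (fun z => z.1.left) h
  exact h1

theorem xF_id (X : CostructuredArrow (inc M H) y) : xF H y (𝟙 X) = 𝟙 _ := rfl

theorem xF_comp {X X' X'' : CostructuredArrow (inc M H) y} (φ : X ⟶ X') (ψ : X' ⟶ X'') :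
    xF H y (φ ≫ ψ) = xF H y φ ≫ xF H y ψ := rfl

/-- the object `N' ×_N Q` -/
abbrev pO (X : CostructuredArrow (inc M H) y) : C := pullback (xH H y X) g

/-- the projection to `N'` -/
abbrev p1 (X : CostructuredArrow (inc M H) y) : pO H y g X ⟶ xO H y X :=
  pullback.fst (xH H y X) g

/-- the projection to `Q` -/
abbrev p2 (X : CostructuredArrow (inc M H) y) : pO H y g X ⟶ Q :=
  pullback.snd (xH H y X) g

theorem p_pb (X : CostructuredArrow (inc M H) y) :
    IsPullback (p1 H y g X) (p2 H y g X) (xH H y X) g := IsPullback.of_hasPullback _ _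

/-- the underlying object of `G N'` -/
def gO (X : CostructuredArrow (inc M H) y) : Over M := Over.mk (p1 H y g X ≫ xM H y X)

/-- the projection `G N' → N'` -/
def gP (X : CostructuredArrow (inc M H) y) : gO H y g X ⟶ X.left.obj :=
  Over.homMk (p1 H y g X) rfl

include hg in
theorem p1_W (X : CostructuredArrow (inc M H) y) : W A (p1 H y g X) :=
  W_pb H.isoA (p_pb H y g X) hg

theorem p2_W (X : CostructuredArrow (inc M H) y) : W A (p2 H y g X) :=
  W_pb H.isoA (p_pb H y g X).flip (xH_W H y X)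

/-- `G N'` as an object of `𝓕°` -/
def gF (X : CostructuredArrow (inc M H) y) : F0 A M :=
  ⟨gO H y g X, W_comp H.extA (p1 H y g X) (xM H y X) (p1_W H y g hg X) X.left.property⟩

/-- the projection as a morphism of `𝓕°` -/
def gPF (X : CostructuredArrow (inc M H) y) : gF H y g hg X ⟶ X.left :=
  ⟨gP H y g X, p1_W H y g hg X⟩

/-- `G` on objects -/
def gC (X : CostructuredArrow (inc M H) y) : CostructuredArrow (inc M H) y :=
  CostructuredArrow.mk ((inc M H).map (gPF H y g hg X) ≫ X.hom)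

/-- `G` on morphisms, in `C` -/
def gM {X X' : CostructuredArrow (inc M H) y} (φ : X ⟶ X') : pO H y g X ⟶ pO H y g X' :=
  pullback.lift (p1 H y g X ≫ xF H y φ) (p2 H y g X) (by
    rw [Category.assoc, w_left]
    exact pullback.condition)

theorem gM_fst {X X' : CostructuredArrow (inc M H) y} (φ : X ⟶ X') :
    gM H y g φ ≫ p1 H y g X' = p1 H y g X ≫ xF H y φ :=
  pullback.lift_fst _ _ _

theorem gM_snd {X X' : CostructuredArrow (inc M H) y} (φ : X ⟶ X') :
    gM H y g φ ≫ p2 H y g X' = p2 H y g X :=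
  pullback.lift_snd _ _ _

theorem gM_W {X X' : CostructuredArrow (inc M H) y} (φ : X ⟶ X') : W A (gM H y g φ) := by
  have h1 : IsPullback (gM H y g φ) (p1 H y g X) (p1 H y g X') (xF H y φ) := by
    have h2 := p_pb H y g X'
    have h3 : IsPullback (p1 H y g X) (gM H y g φ ≫ p2 H y g X')
        (xF H y φ ≫ xH H y X') g := by
      rw [gM_snd, w_left]
      exact p_pb H y g X
    exact (IsPullback.of_right h3.flip (gM_fst H y g φ) h2.flip)
  exact W_pb H.isoA h1 (xF_W H y φ)

/-- `G` on morphisms, in `Over M` -/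
def gMO {X X' : CostructuredArrow (inc M H) y} (φ : X ⟶ X') : gO H y g X ⟶ gO H y g X' :=
  Over.homMk (gM H y g φ) (by
    change gM H y g φ ≫ p1 H y g X' ≫ xM H y X' = p1 H y g X ≫ xM H y X
    rw [← Category.assoc, gM_fst, Category.assoc, xF_w])

/-- `G` on morphisms, in `𝓕°` -/
def gMF {X X' : CostructuredArrow (inc M H) y} (φ : X ⟶ X') :
    gF H y g hg X ⟶ gF H y g hg X' := ⟨gMO H y g φ, gM_W H y g φ⟩

theorem gMF_gPF {X X' : CostructuredArrow (inc M H) y} (φ : X ⟶ X') :
    gMF H y g hg φ ≫ gPF H y g hg X' = gPF H y g hg X ≫ φ.left := by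
  apply Subtype.ext
  apply Over.OverMorphism.ext
  exact gM_fst H y g φ

/-- the functor `G` -/
def G : CostructuredArrow (inc M H) y ⥤ CostructuredArrow (inc M H) y where
  obj X := gC H y g hg X
  map {X X'} φ := CostructuredArrow.homMk (gMF H y g hg φ) (by
    change (inc M H).map (gMF H y g hg φ) ≫ (inc M H).map (gPF H y g hg X') ≫ X'.hom =
      (inc M H).map (gPF H y g hg X) ≫ X.hom
    rw [← Category.assoc, ← Functor.map_comp, gMF_gPF, Functor.map_comp, Category.assoc,
      CostructuredArrow.w])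
  map_id X := by
    apply CostructuredArrow.hom_ext
    apply Subtype.ext
    apply Over.OverMorphism.ext
    change gM H y g (𝟙 X) = 𝟙 _
    apply pullback.hom_ext
    · rw [Category.id_comp]
      refine (gM_fst H y g (𝟙 X)).trans ?_
      rw [xF_id, Category.comp_id]
    · rw [Category.id_comp]
      exact gM_snd H y g (𝟙 X)
  map_comp {X X' X''} φ ψ := by
    apply CostructuredArrow.hom_ext
    apply Subtype.ext
    apply Over.OverMorphism.ext
    change gM H y g (φ ≫ ψ) = gM H y g φ ≫ gM H y g ψ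
    apply pullback.hom_ext
    · refine (gM_fst H y g (φ ≫ ψ)).trans ?_
      rw [xF_comp, Category.assoc]
      refine Eq.trans ?_ (congrArg (fun z => gM H y g φ ≫ z) (gM_fst H y g ψ).symm)
      rw [← Category.assoc, ← Category.assoc]
      exact congrArg (fun z => z ≫ xF H y ψ) (gM_fst H y g φ).symm
    · refine (gM_snd H y g (φ ≫ ψ)).trans ?_
      rw [Category.assoc]
      refine Eq.trans ?_ (congrArg (fun z => gM H y g φ ≫ z) (gM_snd H y g ψ).symm)
      exact (gM_snd H y g φ).symm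

/-- the natural transformation to the identity -/
def GtoId : G H y g hg ⟶ 𝟭 _ where
  app X := CostructuredArrow.homMk (gPF H y g hg X) rfl
  naturality X X' φ := by
    apply CostructuredArrow.hom_ext
    exact gMF_gPF H y g hg φ

variable (hgM : W A (g ≫ y.obj.hom))

/-- the object `Q` -/
def cF0 : F0 A M := ⟨Over.mk (g ≫ y.obj.hom), hgM⟩

/-- the object `Q → N` -/
def cO : CostructuredArrow (inc M H) y :=
  CostructuredArrow.mk (Y := cF0 y g hgM)
    (⟨Over.homMk g rfl, hg⟩ : (inc M H).obj (cF0 y g hgM) ⟶ y)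

/-- the projection `G N' → Q` -/
def gS (X : CostructuredArrow (inc M H) y) : gO H y g X ⟶ Over.mk (g ≫ y.obj.hom) :=
  Over.homMk (p2 H y g X) (by
    change p2 H y g X ≫ g ≫ y.obj.hom = p1 H y g X ≫ xM H y X
    rw [← xH_w, ← Category.assoc, ← Category.assoc, ← (p_pb H y g X).w])

/-- the projection `G N' → Q` in `𝓕°` -/
def gSF (X : CostructuredArrow (inc M H) y) : gF H y g hg X ⟶ cF0 y g hgM :=
  ⟨gS H y g X, p2_W H y g X⟩

/-- the natural transformation to the constant functor -/
def GtoC : G H y g hg ⟶ (Functor.const _).obj (cO H y g hg hgM) where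
  app X := CostructuredArrow.homMk (gSF H y g hg hgM X) (by
    apply Subtype.ext
    apply Over.OverMorphism.ext
    exact (p_pb H y g X).w.symm)
  naturality X X' φ := by
    apply CostructuredArrow.hom_ext
    apply Subtype.ext
    apply Over.OverMorphism.ext
    change gM H y g φ ≫ p2 H y g X' = p2 H y g X ≫ 𝟙 _
    rw [gM_snd, Category.comp_id]

end comma

end ov

end RsC

open RsC in
/-- **RsC** -/
theorem thm_RsC (hA : St_CtA.{max u v, v}) (hB : St_CtB.{max u v, v})
    (hP : St_CtP.{max u v, v}) (h23 : St_Str23.{max u v}) : St_RsC.{u, v} := by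
  intro C _ _ P A H M hM
  have inst := mult H M
  refine hP.1 (FMo P M) (FMw A M) ?_
  have h0 : SSt.Contr (Nv (F0 A M)) := hB.2.2.1 (tO H M) (tO_terminal H M)
  have h1 : SSt.Strong (Nv.mapF (inc M H)) := by
    refine hA (inc M H) fun y => ?_
    have hep : Epi y.obj.hom := y.property.1
    have hN : P y.obj.left := H.extP _ _ (ses_kernel y.obj.hom) y.property.2 hM
    obtain ⟨Q₁, Q, f, g, hs, hQ₁, hQ⟩ := H.cov _ hN
    have hg : W A g := W_of_ses H.isoA hs hQ₁
    have hgM : W A (g ≫ y.obj.hom) := claim H g y.obj.hom hg hQ hep y.property.2 hM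
    exact hB.2.2.2.1 (G H y g hg) (cO H y g hg hgM) ⟨GtoId H y g hg⟩ ⟨GtoC H y g hg hgM⟩
  exact h23.2.1 (Nv.mapF (inc M H)) (Nv (F1 P A M)).toPt h1 h0

end Pool.Agent.KQ
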