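import Pool.Agent.KQ.StSA

/-!
# KQ, module SA: Theorem A for one S-direction

`thm_SA (hf : St_SAf) (hc : St_SAc) (hR : St_StrRow) (hC : St_StrCol) (h2 : St_Str23) : St_SA`.
-/

set_option autoImplicit false

noncomputable section

namespace Pool.Agent.KQ

open CategoryTheory CategoryTheory.Limits Function
open scoped ZeroObject

universe u v

namespace SA

/-- the bisimplicial set `(l, q) ↦ X_l` -/
def cst (X : SSt.{u}) : SOb SSt.{u} where
  obj l := SSt.const (X.obj l)
  map θ := ⟨fun _ x => X.map θ x, fun _ _ => rfl⟩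
  map_id l := SSt.hom_ext fun _ x => X.map_id l x
  map_comp θ η := SSt.hom_ext fun _ x => X.map_comp θ η x

theorem cst_diag (X : SSt.{u}) : SSt.diag (cst X) = X := rfl

theorem const_diag (X : SSt.{u}) : SSt.diag (SOb.const X) = X := rfl

section

variable {C : Type u} [Category.{v} C] [Abelian C] (P B : ObjectProperty C)

/-- the projection to the front part -/
def fr : TS P B ⟶ cst (SdS B) where
  app l := TSl.front P B l
  nat _ := SSt.hom_ext fun _ _ => rfl

/-- the projection to the back part -/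
def bk : TS P B ⟶ SOb.const (SdS P) where
  app l := TSl.back P B l
  nat _ := SSt.hom_ext fun _ _ => rfl

/-- the inclusion -/
def inc (h : ∀ X, B X → P X) : TS P B ⟶ TS P P where
  app l := TSl.incl h l
  nat _ := SSt.hom_ext fun _ _ => rfl

/-- the diagonal of the projection to the front part -/
def dfr : SSt.diag (TS P B) ⟶ SdS B := SSt.diagF.map (fr P B)

/-- the diagonal of the projection to the back part -/
def dbk : SSt.diag (TS P B) ⟶ SdS P := SSt.diagF.map (bk P B)

/-- the diagonal of the inclusion -/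
def dinc (h : ∀ X, B X → P X) : SSt.diag (TS P B) ⟶ SSt.diag (TS P P) := SSt.diagF.map (inc P B h)

theorem dinc_dbk (h : ∀ X, B X → P X) : dinc P B h ≫ dbk P P = dbk P B := rfl

theorem dinc_dfr (h : ∀ X, B X → P X) : dinc P B h ≫ dfr P P = dfr P B ≫ SdS.incl h := rfl

end

end SA

/-- SA. -/
theorem thm_SA (hf : St_SAf.{u, v}) (hc : St_SAc.{u, v}) (hR : St_StrRow.{max u v})
    (hC : St_StrCol.{max u v}) (h2 : St_Str23.{max u v}) : St_SA.{u, v} := by
  intro C _ _ P B H hM
  have f1 : SSt.Strong (SA.dfr P B) := hR (SA.fr P B) (hf P B H.le).1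
  have f2 : SSt.Strong (SA.dfr P P) := hR (SA.fr P P) (hf P P fun _ h => h).1
  have b1 : SSt.Strong (SA.dbk P B) := hC (SA.bk P B) (hc P B H hM)
  have b2 : SSt.Strong (SA.dbk P P) := hC (SA.bk P P) (hf P P fun _ h => h).2
  have i1 : SSt.Strong (SA.dinc P B H.le) := by
    refine h2.2.2.1 (SA.dinc P B H.le) (SA.dbk P P) b2 ?_
    rw [SA.dinc_dbk]
    exact b1
  refine h2.2.1 (SA.dfr P B) (SdS.incl H.le) f1 ?_
  rw [← SA.dinc_dfr]
  exact h2.1 _ _ i1 f2

end Pool.Agent.KQ
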