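import Pool.Agent.KQ.StSA

/-!
# KQ SAc: the projection to the back part is strong if the chains are contractible

`TSq.back P B q` is a retract up to homotopy of the projection of the sum over the S-diagrams `c` of
the simplicial sets of chains over `c (0, last)`: a T-diagram gives its back part and the chain
`D (l i, r last) ⟶ D (r 0, r last)`; conversely a chain is glued to the last column of `c`, and the
T-diagram consists of the kernels of the maps of the glued chain of epimorphisms.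
-/

set_option autoImplicit false
set_option linter.unusedSectionVars false
set_option linter.unusedVariables false

noncomputable section

namespace Pool.Agent.KQ

open CategoryTheory CategoryTheory.Limits Function
open scoped ZeroObject

universe u v

namespace SAc

section ses

variable {C : Type u} [Category.{v} C] [Abelian C]

/-- the first object of a short exact sequence is the kernel -/
def sk {X Y Z : C} (f : X ⟶ Y) (g : Y ⟶ Z) (h : SES f g) : X ≅ kernel g where
  hom := kernel.lift g f h.w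
  inv := (h.lift (kernel.ι g) (kernel.condition g)).choose
  hom_inv_id := by
    have := h.mono
    rw [← cancel_mono f, Category.assoc, (h.lift (kernel.ι g) (kernel.condition g)).choose_spec,
      kernel.lift_ι, Category.id_comp]
  inv_hom_id := by
    rw [← cancel_mono (kernel.ι g), Category.assoc, kernel.lift_ι,
      (h.lift (kernel.ι g) (kernel.condition g)).choose_spec, Category.id_comp]

theorem sk_ι {X Y Z : C} (f : X ⟶ Y) (g : Y ⟶ Z) (h : SES f g) :
    (sk f g h).hom ≫ kernel.ι g = f := kernel.lift_ι _ _ _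

/-- kernels of composed epimorphisms -/
theorem ker_ses {X Y Z : C} (g : X ⟶ Y) (h : Y ⟶ Z) (k : X ⟶ Z) (hk : g ≫ h = k) [Epi g]
    (a : kernel g ⟶ kernel k) (ha : a ≫ kernel.ι k = kernel.ι g) (b : kernel k ⟶ kernel h)
    (hb : b ≫ kernel.ι h = kernel.ι k ≫ g) : SES a b := by
  rw [ses_iff]
  refine ⟨?_, ?_, ?_, ?_⟩
  · rw [← cancel_mono (kernel.ι h), Category.assoc, hb, reassoc_of% ha, kernel.condition,
      zero_comp]
  · have : Mono (a ≫ kernel.ι k) := by
      rw [ha]
      infer_instance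
    exact mono_of_mono a (kernel.ι k)
  · rw [epi_iff_surjective_up_to_refinements]
    intro A y
    obtain ⟨A', π, hπ, x, hx⟩ := surjective_up_to_refinements_of_epi g (y ≫ kernel.ι h)
    refine ⟨A', π, hπ, kernel.lift k x ?_, ?_⟩
    · rw [← hk, ← Category.assoc, ← hx, Category.assoc, Category.assoc, kernel.condition,
        comp_zero, comp_zero]
    · rw [← cancel_mono (kernel.ι h), Category.assoc, Category.assoc, hb, kernel.lift_ι_assoc, hx]
  · intro A y hy
    have h1 : (y ≫ kernel.ι k) ≫ g = 0 := by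
      rw [Category.assoc, ← hb, reassoc_of% hy, zero_comp]
    refine ⟨kernel.lift g (y ≫ kernel.ι k) h1, ?_⟩
    rw [← cancel_mono (kernel.ι k), Category.assoc, ha, kernel.lift_ι]

end ses

/-! ### the S-diagram of the kernels of a chain -/

section kerD

variable {C : Type u} [Category.{v} C] [Abelian C] {I : Type} [Preorder I]

/-- the kernels of the maps of a chain -/
def kerD (Y : I ⥤ C) : Ar I ⥤ C where
  obj x := kernel (Y.map (homOfLE x.2))
  map {x y} f := kernel.map (Y.map (homOfLE x.2)) (Y.map (homOfLE y.2))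
    (Y.map (homOfLE (leOfHom f).1)) (Y.map (homOfLE (leOfHom f).2)) (by
      rw [← Y.map_comp, ← Y.map_comp]
      rfl)
  map_id x := by
    rw [← cancel_mono (kernel.ι _), kernel.lift_ι, Category.id_comp]
    exact (congrArg (fun e => kernel.ι (Y.map (homOfLE x.2)) ≫ e) (Y.map_id x.1.1)).trans
      (Category.comp_id _)
  map_comp {x y z} f g := by
    rw [← cancel_mono (kernel.ι _), kernel.lift_ι, Category.assoc, kernel.lift_ι,
      kernel.lift_ι_assoc, Category.assoc, ← Y.map_comp]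
    rfl

theorem kerD_ι (Y : I ⥤ C) {x y : Ar I} (f : x ⟶ y) :
    (kerD Y).map f ≫ kernel.ι (Y.map (homOfLE y.2)) =
      kernel.ι (Y.map (homOfLE x.2)) ≫ Y.map (homOfLE (leOfHom f).1) := kernel.lift_ι _ _ _

theorem kerD_SQ {P : ObjectProperty C} (Y : I ⥤ C) (hY : ∀ {i j : I} (f : i ⟶ j), Epi (Y.map f))
    (hP : ∀ x, P ((kerD Y).obj x)) : SQ P I (kerD Y) := by
  refine ⟨hP, fun i => ?_, fun i j k hij hjk => ?_⟩
  · exact isZero_kernel_of_mono (Y.map (𝟙 i))
  · have := hY (homOfLE hij)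
    refine ker_ses (Y.map (homOfLE hij)) (Y.map (homOfLE hjk)) (Y.map (homOfLE (hij.trans hjk)))
      (by rw [← Y.map_comp]; rfl) _ ?_ _ ?_
    · refine (kerD_ι Y _).trans ?_
      exact (congrArg (fun e => kernel.ι (Y.map (homOfLE hij)) ≫ e) (Y.map_id i)).trans
        (Category.comp_id _)
    · exact kerD_ι Y _

/-- the last column of an S-diagram -/
def col (c : Ar I ⥤ C) (t : I) (ht : ∀ i, i ≤ t) : I ⥤ C where
  obj i := c.obj (ar i t (ht i))
  map {i j} f := c.map (arHom (ht i) (ht j) (leOfHom f) le_rfl)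
  map_id i := c.map_id _
  map_comp f g := by
    rw [← c.map_comp]
    rfl

/-- an S-diagram consists of the kernels of the maps of the last column -/
def kapI {P : ObjectProperty C} (c : Ar I ⥤ C) (hc : SQ P I c) (t : I) (ht : ∀ i, i ≤ t) :
    c ≅ kerD (col c t ht) :=
  NatIso.ofComponents (fun x => sk (c.map (arHom x.2 (ht x.1.1) le_rfl (ht x.1.2)))
    ((col c t ht).map (homOfLE x.2)) (hc.2.2 x.1.1 x.1.2 t x.2 (ht x.1.2))) fun {x y} f => by
    refine (cancel_mono (kernel.ι ((col c t ht).map (homOfLE y.2)))).1 ?_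
    refine (Category.assoc _ _ _).trans (Eq.trans ?_ (Category.assoc _ _ _).symm)
    refine (congrArg (fun e => c.map f ≫ e) (sk_ι _ _ _)).trans ?_
    refine Eq.trans ?_ (congrArg (fun e => (sk (c.map (arHom x.2 (ht x.1.1) le_rfl (ht x.1.2)))
      ((col c t ht).map (homOfLE x.2)) (hc.2.2 x.1.1 x.1.2 t x.2 (ht x.1.2))).hom ≫ e)
      (kerD_ι (col c t ht) f)).symm
    refine Eq.trans ?_ (Category.assoc _ _ _)
    refine Eq.trans ?_ (congrArg (fun e => e ≫ (col c t ht).map (homOfLE (leOfHom f).1))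
      (sk_ι _ _ _)).symm
    exact (c.map_comp _ _).symm.trans (c.map_comp (arHom x.2 (ht x.1.1) le_rfl (ht x.1.2))
      (arHom (ht x.1.1) (ht y.1.1) (leOfHom f).1 le_rfl))

/-- the same for a chain equal to the last column -/
def kI {P : ObjectProperty C} (c : Ar I ⥤ C) (hc : SQ P I c) (t : I) (ht : ∀ i, i ≤ t)
    (Z : I ⥤ C) (h : Z = col c t ht) : c ≅ kerD Z := h ▸ kapI c hc t ht

end kerD

/-! ### copies of diagrams -/

theorem copyS_eq {C : Type u} [Category.{v} C] {J : Type} [Category.{0} J] {D K : J ⥤ C}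
    (e : D ≅ K) (τ : ∀ j, Σ X : C, D.obj j ≅ X) (σ : ∀ j, Σ X : C, K.obj j ≅ X)
    (h : ∀ j, τ j = ⟨(σ j).1, e.app j ≪≫ (σ j).2⟩) : copyS D τ = copyS K σ := by
  have h1 : τ = fun j => ⟨(σ j).1, e.app j ≪≫ (σ j).2⟩ := funext h
  subst h1
  refine CategoryTheory.Functor.hext (fun _ => rfl) fun i j f => heq_of_eq ?_
  simp only [copyS, Iso.trans_inv, Iso.app_inv, Category.assoc, Iso.trans_hom, Iso.app_hom,
    NatTrans.naturality_assoc, Iso.inv_hom_id_app_assoc]

/-! ### the T-diagram of a glued chain -/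

section glue

variable {C : Type u} [Category.{v} C] [Abelian C] {I J : Type} [Preorder I] [Preorder J]

/-- the kernels of the maps of a chain, with a given back part: the objects -/
def sig {P : ObjectProperty C} (c : Ar J ⥤ C) (hc : SQ P J c) (t : J) (ht : ∀ j, j ≤ t)
    (Y : Jo I J ⥤ C) (h : (Jo.inr I J).monotone.functor ⋙ Y = col c t ht) :
    ∀ x : Ar (Jo I J), Σ X : C, (kerD Y).obj x ≅ X
  | ⟨(.l i, y), hy⟩ => ⟨(kerD Y).obj ⟨(.l i, y), hy⟩, Iso.refl _⟩
  | ⟨(.r i, .r j), hij⟩ => ⟨c.obj (ar i j hij), (kI c hc t ht _ h).symm.app (ar i j hij)⟩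
  | ⟨(.r _, .l _), hy⟩ => False.elim hy

/-- the kernels of the maps of a chain, with a given back part -/
def psi {P : ObjectProperty C} (c : Ar J ⥤ C) (hc : SQ P J c) (t : J) (ht : ∀ j, j ≤ t)
    (Y : Jo I J ⥤ C) (h : (Jo.inr I J).monotone.functor ⋙ Y = col c t ht) : Ar (Jo I J) ⥤ C :=
  copyS (kerD Y) (sig c hc t ht Y h)

theorem psi_congr {P : ObjectProperty C} (c : Ar J ⥤ C) (hc : SQ P J c) (t : J)
    (ht : ∀ j, j ≤ t) {Y Y' : Jo I J ⥤ C} (e : Y = Y')
    (h : (Jo.inr I J).monotone.functor ⋙ Y = col c t ht)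
    (h' : (Jo.inr I J).monotone.functor ⋙ Y' = col c t ht) :
    psi c hc t ht Y h = psi c hc t ht Y' h' := by
  subst e
  rfl

theorem psi_back {P : ObjectProperty C} (c : Ar J ⥤ C) (hc : SQ P J c) (t : J) (ht : ∀ j, j ≤ t)
    (Y : Jo I J ⥤ C) (h : (Jo.inr I J).monotone.functor ⋙ Y = col c t ht) :
    arF (Jo.inr I J) ⋙ psi c hc t ht Y h = c :=
  copyS_iso (kI c hc t ht _ h).symm

theorem psi_nat {P : ObjectProperty C} (c : Ar J ⥤ C) (hc : SQ P J c) (t : J) (ht : ∀ j, j ≤ t)
    (Y : Jo I J ⥤ C) (h : (Jo.inr I J).monotone.functor ⋙ Y = col c t ht) {I' : Type}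
    [Preorder I'] (θ : I' →o I) :
    psi c hc t ht ((Jo.map θ (OrderHom.id : J →o J)).monotone.functor ⋙ Y) h =
      arF (Jo.map θ (OrderHom.id : J →o J)) ⋙ psi c hc t ht Y h := by
  have h1 : sig c hc t ht ((Jo.map θ (OrderHom.id : J →o J)).monotone.functor ⋙ Y) h =
      fun x => sig c hc t ht Y h ((arF (Jo.map θ (OrderHom.id : J →o J))).obj x) := by
    funext x
    obtain ⟨⟨a | a, b | b⟩, hab⟩ := x
    · rfl
    · rfl
    · exact False.elim hab
    · rfl
  exact congrArg (copyS _) h1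

/-- the objects of the glued chain -/
def gO {Z : J ⥤ C} {j0 : J} (N : I ⥤ Over (Z.obj j0)) : Jo I J → C
  | .l i => (N.obj i).left
  | .r j => Z.obj j

/-- the morphisms of the glued chain -/
def gM {Z : J ⥤ C} {j0 : J} (h0 : ∀ j, j0 ≤ j) (N : I ⥤ Over (Z.obj j0)) :
    ∀ x y : Jo I J, x ≤ y → (gO N x ⟶ gO N y)
  | .l _, .l _, h => (N.map (homOfLE h)).left
  | .l i, .r j, _ => (N.obj i).hom ≫ Z.map (homOfLE (h0 j))
  | .r _, .r _, h => Z.map (homOfLE h)
  | .r _, .l _, h => False.elim h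

/-- a chain over the first object of `Z`, glued to `Z` -/
def glue {Z : J ⥤ C} {j0 : J} (h0 : ∀ j, j0 ≤ j) (N : I ⥤ Over (Z.obj j0)) : Jo I J ⥤ C where
  obj := gO N
  map {x y} f := gM h0 N x y (leOfHom f)
  map_id x := by
    cases x with
    | l i => exact congrArg (fun e : N.obj i ⟶ N.obj i => e.left) (N.map_id i)
    | r j => exact Z.map_id j
  map_comp {x y z} f g := by
    obtain ⟨⟨f⟩⟩ := f
    obtain ⟨⟨g⟩⟩ := g
    obtain a | a := x <;> obtain b | b := y <;> obtain c | c := z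
    · exact congrArg (fun e : N.obj a ⟶ N.obj c => e.left) (N.map_comp (homOfLE f) (homOfLE g))
    · change (N.obj a).hom ≫ Z.map (homOfLE (h0 c)) =
        (N.map (homOfLE f)).left ≫ (N.obj b).hom ≫ Z.map (homOfLE (h0 c))
      rw [Over.w_assoc]
    · exact False.elim g
    · change (N.obj a).hom ≫ Z.map (homOfLE (h0 c)) =
        ((N.obj a).hom ≫ Z.map (homOfLE (h0 b))) ≫ Z.map (homOfLE g)
      rw [Category.assoc, ← Z.map_comp]
      rfl
    · exact False.elim f
    · exact False.elim f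
    · exact False.elim g
    · exact Z.map_comp (homOfLE f) (homOfLE g)

theorem glue_nat {Z : J ⥤ C} {j0 : J} (h0 : ∀ j, j0 ≤ j) (N : I ⥤ Over (Z.obj j0)) {I' : Type}
    [Preorder I'] (θ : I' →o I) : glue h0 (θ.monotone.functor ⋙ N) =
      (Jo.map θ (OrderHom.id : J →o J)).monotone.functor ⋙ glue h0 N := by
  refine CategoryTheory.Functor.hext (fun x => by cases x <;> rfl) fun x y f => ?_
  obtain ⟨⟨f⟩⟩ := f
  obtain a | a := x <;> obtain b | b := y
  · rfl
  · rfl
  · exact False.elim f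
  · rfl

/-- the maps of the glued chain are epi -/
theorem glue_epi {Z : J ⥤ C} {j0 : J} (h0 : ∀ j, j0 ≤ j) (N : I ⥤ Over (Z.obj j0))
    (hZ : ∀ {i j : J} (f : i ⟶ j), Epi (Z.map f)) (hN : ∀ i, Epi (N.obj i).hom)
    (hN' : ∀ {i j : I} (f : i ⟶ j), Epi (N.map f).left) {x y : Jo I J} (f : x ⟶ y) :
    Epi ((glue h0 N).map f) := by
  obtain ⟨⟨f⟩⟩ := f
  obtain a | a := x <;> obtain b | b := y
  · exact hN' _
  · have h1 := hN a
    have h2 := hZ (homOfLE (h0 b))
    exact epi_comp (N.obj a).hom (Z.map (homOfLE (h0 b)))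
  · exact False.elim f
  · exact hZ _

theorem col_epi {P : ObjectProperty C} (c : Ar J ⥤ C) (hc : SQ P J c) (t : J)
    (ht : ∀ j, j ≤ t) {i j : J} (f : i ⟶ j) : Epi ((col c t ht).map f) :=
  (hc.2.2 i j t (leOfHom f) (ht j)).epi

/-- the T-diagram of a chain over `c (0, last)` -/
theorem psi_TQ {P B : ObjectProperty C} (H : SaH P B) (c : Ar J ⥤ C) (hc : SQ P J c) (t : J)
    (ht : ∀ j, j ≤ t) {j0 : J} (h0 : ∀ j, j0 ≤ j) (N : I ⥤ Over ((col c t ht).obj j0))
    (hN : ∀ i, FMo P _ (N.obj i)) (hN' : ∀ {i j : I} (f : i ⟶ j), FMw B _ (N.map f)) :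
    TQ P B I J (psi c hc t ht (glue h0 N) rfl) := by
  have hB : ∀ x : Ar I, B ((kerD (glue h0 N)).obj (Ar.map (Jo.inl I J) x)) := fun x =>
    (hN' (homOfLE x.2)).2
  have hE : ∀ {x y : Jo I J} (f : x ⟶ y), Epi ((glue h0 N).map f) :=
    glue_epi h0 N (col_epi c hc t ht) (fun i => (hN i).1) fun f => (hN' f).1
  refine TQ.of_iso H.isoP H.isoB (copyI _ _) ⟨kerD_SQ (glue h0 N) hE ?_, hB⟩
  intro x
  obtain ⟨⟨a | a, b | b⟩, hab⟩ := x
  · exact H.le _ (hB ⟨(a, b), hab⟩)
  · have h1 := (hN a).1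
    refine H.extP (X := kernel (N.obj a).hom) (Y := kernel ((N.obj a).hom ≫
      (col c t ht).map (homOfLE (h0 b)))) (Z := kernel ((col c t ht).map (homOfLE (h0 b))))
      (kernel.lift _ (kernel.ι _) (by rw [kernel.condition_assoc, zero_comp]))
      (kernel.lift _ (kernel.ι _ ≫ (N.obj a).hom) (by rw [Category.assoc, kernel.condition]))
      (ker_ses (N.obj a).hom ((col c t ht).map (homOfLE (h0 b))) _ rfl _ (kernel.lift_ι _ _ _) _
        (kernel.lift_ι _ _ _)) (hN a).2 ?_
    exact H.isoP ((kapI c hc t ht).app (ar j0 b (h0 b))) (hc.1 _)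
  · exact False.elim hab
  · exact H.isoP ((kapI c hc t ht).app (ar a b hab)) (hc.1 _)

/-! ### the chain of a T-diagram -/

/-- every object of the ordinal sum is before the last object of the back part -/
theorem jo_le (t : J) (ht : ∀ j, j ≤ t) : ∀ x : Jo I J, x ≤ Jo.r t
  | .l _ => trivial
  | .r j => ht j

/-- the chain of a T-diagram -/
def chn (D : Ar (Jo I J) ⥤ C) (t : J) (ht : ∀ j, j ≤ t) (j0 : J) :
    I ⥤ Over ((col (arF (Jo.inr I J) ⋙ D) t ht).obj j0) where
  obj i := Over.mk (D.map (arHom (i := Jo.l i) (j := Jo.r t) (i' := Jo.r j0) (j' := Jo.r t)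
    trivial (ht j0) trivial (le_refl t)))
  map {i j} f := Over.homMk (D.map (arHom (i := Jo.l i) (j := Jo.r t) (i' := Jo.l j)
    (j' := Jo.r t) trivial trivial (leOfHom f) (le_refl t))) (by
      refine (D.map_comp _ _).symm.trans ?_
      rfl)
  map_id i := by
    ext
    exact D.map_id _
  map_comp f g := by
    ext
    exact D.map_comp _ _

theorem chn_nat (D : Ar (Jo I J) ⥤ C) (t : J) (ht : ∀ j, j ≤ t) (j0 : J) {I' : Type}
    [Preorder I'] (θ : I' →o I) :
    chn (arF (Jo.map θ (OrderHom.id : J →o J)) ⋙ D) t ht j0 =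
      θ.monotone.functor ⋙ chn D t ht j0 := rfl

theorem glue_chn (D : Ar (Jo I J) ⥤ C) (t : J) (ht : ∀ j, j ≤ t) (j0 : J) (h0 : ∀ j, j0 ≤ j) :
    glue h0 (chn D t ht j0) = col D (Jo.r t) (jo_le t ht) := by
  refine CategoryTheory.Functor.hext (fun x => by cases x <;> rfl) fun x y f => ?_
  obtain ⟨⟨f⟩⟩ := f
  obtain a | a := x <;> obtain b | b := y
  · rfl
  · exact heq_of_eq (D.map_comp _ _).symm
  · exact False.elim f
  · rfl

theorem chn_FM {P B : ObjectProperty C} (H : SaH P B) {D : Ar (Jo I J) ⥤ C}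
    (hD : TQ P B I J D) (t : J) (ht : ∀ j, j ≤ t) (j0 : J) :
    (∀ i, FMo P _ ((chn D t ht j0).obj i)) ∧
      ∀ {i j : I} (f : i ⟶ j), FMw B _ ((chn D t ht j0).map f) := by
  refine ⟨fun i => ?_, fun {i j} f => ?_⟩
  · have h := hD.1.2.2 (Jo.l i) (Jo.r j0) (Jo.r t) trivial (ht j0)
    exact ⟨h.epi, H.isoP (sk _ _ h) (hD.1.1 _)⟩
  · have h := hD.1.2.2 (Jo.l i) (Jo.l j) (Jo.r t) (leOfHom f) trivial
    exact ⟨h.epi, H.isoB (sk _ _ h) (hD.2 (ar i j (leOfHom f)))⟩

/-! ### the homotopy -/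

/-- where the diagram of kernels is used -/
def bt (α : I → Bool) : Ar (Jo I J) → Bool
  | ⟨(.l i, _), _⟩ => α i
  | ⟨(.r _, _), _⟩ => false

theorem bt_nat (α : I → Bool) {I' : Type} [Preorder I'] (θ : I' →o I) :
    (bt (fun i => α (θ i)) : Ar (Jo I' J) → Bool) =
      fun x => bt α ((arF (Jo.map θ (OrderHom.id : J →o J))).obj x) := by
  funext x
  obtain ⟨⟨a | a, b⟩, hab⟩ := x <;> rfl

theorem bt_false (α : I → Bool) (h : ∀ i, α i = false) (x : Ar (Jo I J)) : bt α x = false := by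
  obtain ⟨⟨a | a, b⟩, hab⟩ := x
  · exact h a
  · rfl

/-- the homotopy: the diagram of the kernels of the last column, where `α` is `true` -/
def hty {P : ObjectProperty C} (D : Ar (Jo I J) ⥤ C) (hD : SQ P (Jo I J) D) (t : J)
    (ht : ∀ j, j ≤ t) (α : I → Bool) : Ar (Jo I J) ⥤ C :=
  mixS (kapI D hD (Jo.r t) (jo_le t ht)) (bt α)

theorem hty_nat {P : ObjectProperty C} (D : Ar (Jo I J) ⥤ C) (hD : SQ P (Jo I J) D) (t : J)
    (ht : ∀ j, j ≤ t) (α : I → Bool) {I' : Type} [Preorder I'] (θ : I' →o I) :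
    hty (arF (Jo.map θ (OrderHom.id : J →o J)) ⋙ D) (hD.comp _) t ht (fun i => α (θ i)) =
      arF (Jo.map θ (OrderHom.id : J →o J)) ⋙ hty D hD t ht α := by
  unfold hty
  rw [bt_nat]
  rfl

theorem hty_true {P : ObjectProperty C} (D : Ar (Jo I J) ⥤ C) (hD : SQ P (Jo I J) D) (t : J)
    (ht : ∀ j, j ≤ t) (j0 : J) (h0 : ∀ j, j0 ≤ j) (α : I → Bool) (h : ∀ i, α i = true) :
    hty D hD t ht α = psi (arF (Jo.inr I J) ⋙ D) (hD.comp _) t ht
      (glue h0 (chn D t ht j0)) rfl := by
  refine Eq.trans ?_ (psi_congr (arF (Jo.inr I J) ⋙ D) (hD.comp _) t ht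
    (glue_chn D t ht j0 h0).symm rfl rfl)
  refine copyS_eq (kapI D hD (Jo.r t) (jo_le t ht)) _ _ fun x => ?_
  obtain ⟨⟨a | a, b | b⟩, hab⟩ := x
  · change mixI _ (α a) = _
    rw [h a]
    exact congrArg _ (Iso.trans_refl _).symm
  · change mixI _ (α a) = _
    rw [h a]
    exact congrArg _ (Iso.trans_refl _).symm
  · exact False.elim hab
  · exact congrArg _ (Iso.self_symm_id _).symm

end glue

/-! ### the sum of the chains -/

section main

variable {C : Type u} [Category.{v} C] [Abelian C] (P B : ObjectProperty C) (q : ℕ)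

/-- the chains over `c (0, last)`, for all `c` -/
def SM : SSt.{max u v} :=
  SSt.sum fun c : (SdS P).obj q =>
    FM P B ((col c.obj (Fin.last q) Fin.le_last).obj (0 : Fin (q + 1)))

/-- the projection of the sum -/
def proj : SM P B q ⟶ SSt.const ((SdS P).obj q) := ⟨fun _ x => x.1, fun _ _ => rfl⟩

variable {P B}

/-- a T-diagram gives its back part and its chain -/
def phi (H : SaH P B) : TSq P B q ⟶ SM P B q :=
  ⟨fun l D => ⟨⟨arF (Jo.inr _ _) ⋙ D.obj, D.property.1.comp _⟩,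
    chn D.obj (Fin.last q) Fin.le_last 0, chn_FM H D.property (Fin.last q) Fin.le_last 0⟩,
    fun _ _ => rfl⟩

/-- a chain gives a T-diagram -/
def psiM (H : SaH P B) : SM P B q ⟶ TSq P B q :=
  ⟨fun l x => ⟨psi x.1.obj x.1.property (Fin.last q) Fin.le_last (glue Fin.zero_le x.2.1) rfl,
    psi_TQ H x.1.obj x.1.property (Fin.last q) Fin.le_last Fin.zero_le x.2.1 x.2.2.1 x.2.2.2⟩,
    fun {m n} θ x => by
    apply ObjectProperty.FullSubcategory.ext
    exact (psi_congr x.1.obj x.1.property (Fin.last q) Fin.le_last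
      (glue_nat Fin.zero_le x.2.1 θ) rfl rfl).trans
      (psi_nat x.1.obj x.1.property (Fin.last q) Fin.le_last (glue Fin.zero_le x.2.1) rfl θ)⟩

theorem phi_proj (H : SaH P B) : phi q H ≫ proj P B q = TSq.back P B q := rfl

theorem psi_bk (H : SaH P B) : psiM q H ≫ TSq.back P B q = proj P B q := by
  apply SSt.hom_ext
  intro n x
  apply ObjectProperty.FullSubcategory.ext
  exact psi_back x.1.obj x.1.property (Fin.last q) Fin.le_last (glue Fin.zero_le x.2.1) rfl

/-- the homotopy -/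
def hot (H : SaH P B) : SSt.Htpy (𝟙 (TSq P B q)) (phi q H ≫ psiM q H) where
  h l α D := ⟨hty D.obj D.property.1 (Fin.last q) Fin.le_last α,
    TQ.of_iso H.isoP H.isoB (copyI _ _) D.property⟩
  nat {m n} θ α D := by
    apply ObjectProperty.FullSubcategory.ext
    exact hty_nat D.obj D.property.1 (Fin.last q) Fin.le_last α θ
  h0 l α D h := by
    apply ObjectProperty.FullSubcategory.ext
    exact mixS_false _ _ (bt_false α h)
  h1 l α D h := by
    apply ObjectProperty.FullSubcategory.ext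
    exact hty_true D.obj D.property.1 (Fin.last q) Fin.le_last 0 Fin.zero_le α h

end main

/-! ### the fibres of a sum -/

section fib

variable {J : Type u} (X : J → SSt.{u})

/-- the projection of a sum -/
def sproj : SSt.sum X ⟶ SSt.const J := ⟨fun _ x => x.1, fun _ _ => rfl⟩

/-- the fibre of a sum: to the summand -/
def fibTo (j : J) : (SSt.fib (sproj X) j).S ⟶ X j :=
  ⟨fun n x => cast (congrArg (fun i => (X i).obj n) x.2) x.1.2, fun {m n} θ x => by
    obtain ⟨⟨i, x⟩, h⟩ := x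
    change i = j at h
    subst h
    rfl⟩

/-- the fibre of a sum: from the summand -/
def fibFrom (j : J) : X j ⟶ (SSt.fib (sproj X) j).S :=
  ⟨fun n x => ⟨⟨j, x⟩, rfl⟩, fun _ _ => rfl⟩

theorem fib_contr (hH : St_StrHt.{u}) (h23 : St_Str23.{u}) (j : J) (h : SSt.Contr (X j)) :
    SSt.Contr (SSt.fib (sproj X) j).S := by
  have h1 : fibTo X j ≫ fibFrom X j = 𝟙 _ := by
    apply SSt.hom_ext
    intro n x
    obtain ⟨⟨i, x⟩, h⟩ := x
    change i = j at h
    subst h
    rfl
  have h2 : fibFrom X j ≫ fibTo X j = 𝟙 _ := rfl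
  have h3 : SSt.Strong (fibTo X j) := hH.2.1 (fibTo X j) (fibFrom X j) (fun Φ n => by rw [h1])
    fun Φ n => by rw [h2]
  exact h23.1 (fibTo X j) (X j).toPt h3 h

end fib

end SAc

/-- **SAc** -/
theorem thm_SAc (hF : St_StrFib.{max u v}) (hH : St_StrHt.{max u v}) (h23 : St_Str23.{max u v}) :
    St_SAc.{u, v} := by
  intro C _ _ P B H hM q
  have h1 : SSt.Strong (SAc.proj P B q) := hF.2 (SAc.proj P B q) fun c =>
    SAc.fib_contr _ hH h23 c (hM _ (c.property.1 _))
  refine h23.2.2.2.1 (TSq.back P B q) (SAc.proj P B q) (SAc.phi q H) (SAc.psiM q H) (𝟙 _) (𝟙 _)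
    ?_ ?_ ?_ ?_ h1
  · intro Φ n
    exact (hH.1 _ _ ⟨SAc.hot q H⟩ Φ n).symm
  · intro Φ n
    rfl
  · intro Φ n
    rfl
  · intro Φ n
    rw [SAc.psi_bk]
    rfl

end Pool.Agent.KQ
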