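import Pool.Agent.KQ.StSA

/-!
# KQ, module SAf: the projections of the S-diagrams over an ordinal sum

`thm_SAf (h : St_StrHt) : St_SAf`.
-/

set_option autoImplicit false

noncomputable section

namespace Pool.Agent.KQ

open CategoryTheory CategoryTheory.Limits Function
open scoped ZeroObject

universe u v

namespace SAf

/-! ### monotone maps -/

section



/-- the retraction of the ordinal sum to the front part, `r j ↦ a`, `a` the last element -/
def psi {I : Type} [Preorder I] (J : Type) [Preorder J] (a : I) (ha : ∀ i, i ≤ a) : Jo I J →o I where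
  toFun x := match x with
    | .l i => i
    | .r _ => a
  monotone' x y h := by
    cases x with
    | l i =>
      cases y with
      | l i' => exact h
      | r j' => exact ha i
    | r j =>
      cases y with
      | l i' => exact h.elim
      | r j' => exact le_rfl

/-- the retraction of the ordinal sum to the back part, `l i ↦ a`, `a` the first element -/
def psi' (I : Type) [Preorder I] {J : Type} [Preorder J] (a : J) (ha : ∀ j, a ≤ j) : Jo I J →o J where
  toFun x := match x with
    | .l _ => a
    | .r j => j
  monotone' x y h := by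
    cases x with
    | l i =>
      cases y with
      | l i' => exact le_rfl
      | r j' => exact ha j'
    | r j =>
      cases y with
      | l i' => exact h.elim
      | r j' => exact h

/-- the value `r j` or `l a` -/
def ch {I J : Type} (a : I) (j : J) : Bool → Jo I J
  | true => .r j
  | false => .l a

/-- `l i ↦ l i`, `r j ↦ r j` if `α j` and `r j ↦ l a` otherwise -/
def phi {I J : Type} [Preorder I] [Preorder J] (a : I) (ha : ∀ i, i ≤ a) (α : J →o Bool) :
    Jo I J →o Jo I J where
  toFun x := match x with
    | .l i => .l i
    | .r j => ch a j (α j)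
  monotone' x y h := by
    cases x with
    | l i =>
      cases y with
      | l i' => exact h
      | r j' =>
        change Jo.l i ≤ ch a j' (α j')
        cases α j'
        · exact ha i
        · trivial
    | r j =>
      cases y with
      | l i' => exact h.elim
      | r j' =>
        have h1 : α j ≤ α j' := α.monotone h
        change ch a j (α j) ≤ ch a j' (α j')
        revert h1
        cases α j <;> cases α j' <;> intro h1
        · exact le_refl a
        · trivial
        · exact absurd h1 (by decide)
        · exact h

/-- the value `l i` or `r a` -/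
def ch' {I J : Type} (a : J) (i : I) : Bool → Jo I J
  | true => .r a
  | false => .l i

/-- `r j ↦ r j`, `l i ↦ r a` if `α i` and `l i ↦ l i` otherwise -/
def phi' {I J : Type} [Preorder I] [Preorder J] (a : J) (ha : ∀ j, a ≤ j) (α : I →o Bool) :
    Jo I J →o Jo I J where
  toFun x := match x with
    | .l i => ch' a i (α i)
    | .r j => .r j
  monotone' x y h := by
    cases x with
    | l i =>
      cases y with
      | l i' =>
        have h1 : α i ≤ α i' := α.monotone h
        change ch' a i (α i) ≤ ch' a i' (α i')
        revert h1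
        cases α i <;> cases α i' <;> intro h1
        · exact h
        · trivial
        · exact absurd h1 (by decide)
        · exact le_refl a
      | r j' =>
        change ch' a i (α i) ≤ Jo.r j'
        cases α i
        · trivial
        · exact ha j'
    | r j =>
      cases y with
      | l i' => exact h.elim
      | r j' => exact h

end

section

variable {C : Type u} [Category.{v} C] [Abelian C] (P B : ObjectProperty C)

/-- the section of the projection to the front part -/
def sec (h : ∀ X, B X → P X) (l : ℕ) : SSt.const ((SdS B).obj l) ⟶ TSl P B l where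
  app q b := ⟨arF (psi (Fin (q + 1)) (Fin.last l) Fin.le_last) ⋙ b.obj,
    (b.property.comp _).mono h, fun x => b.property.1 x⟩
  nat {m n} θ b := by
    apply ObjectProperty.FullSubcategory.ext
    refine arF_congr (f := psi (Fin (m + 1)) (Fin.last l) Fin.le_last)
      (g := (psi (Fin (n + 1)) (Fin.last l) Fin.le_last).comp (Jo.map OrderHom.id θ)) ?_ b.obj
    apply OrderHom.ext
    funext x
    cases x <;> rfl

theorem sec_front (h : ∀ X, B X → P X) (l : ℕ) : sec P B h l ≫ TSl.front P B l = 𝟙 _ := rfl

/-- the homotopy -/
def hty (h : ∀ X, B X → P X) (l : ℕ) : SSt.Htpy (TSl.front P B l ≫ sec P B h l) (𝟙 _) where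
  h n α D := ⟨arF (phi (Fin.last l) Fin.le_last α) ⋙ D.obj, D.property.1.comp _,
    fun x => D.property.2 x⟩
  nat {m n} θ α D := by
    apply ObjectProperty.FullSubcategory.ext
    refine arF_congr
      (f := (Jo.map OrderHom.id θ).comp (phi (Fin.last l) Fin.le_last (α.comp θ)))
      (g := (phi (Fin.last l) Fin.le_last α).comp (Jo.map OrderHom.id θ)) ?_ D.obj
    apply OrderHom.ext
    funext x
    cases x with
    | l i => rfl
    | r j =>
      change Jo.map OrderHom.id θ (ch (Fin.last l) j (α (θ j))) = ch (Fin.last l) (θ j) (α (θ j))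
      cases α (θ j) <;> rfl
  h0 n α D hα := by
    apply ObjectProperty.FullSubcategory.ext
    refine arF_congr
      (f := phi (Fin.last l) Fin.le_last α)
      (g := (Jo.inl _ _).comp (psi (Fin (n + 1)) (Fin.last l) Fin.le_last)) ?_ D.obj
    apply OrderHom.ext
    funext x
    cases x with
    | l i => rfl
    | r j =>
      change ch (Fin.last l) j (α j) = _
      rw [hα j]
      rfl
  h1 n α D hα := by
    apply ObjectProperty.FullSubcategory.ext
    refine arF_congr
      (f := phi (Fin.last l) Fin.le_last α) (g := OrderHom.id) ?_ D.obj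
    apply OrderHom.ext
    funext x
    cases x with
    | l i => rfl
    | r j =>
      change ch (Fin.last l) j (α j) = _
      rw [hα j]
      rfl

/-- the section of the projection to the back part -/
def sec' (q : ℕ) : SSt.const ((SdS P).obj q) ⟶ TSq P P q where
  app l b := ⟨arF (psi' (Fin (l + 1)) (0 : Fin (q + 1)) Fin.zero_le) ⋙ b.obj,
    b.property.comp _, fun x => b.property.1 _⟩
  nat {m n} θ b := by
    apply ObjectProperty.FullSubcategory.ext
    refine arF_congr (f := psi' (Fin (m + 1)) (0 : Fin (q + 1)) Fin.zero_le)
      (g := (psi' (Fin (n + 1)) (0 : Fin (q + 1)) Fin.zero_le).comp (Jo.map θ OrderHom.id)) ?_ b.obj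
    apply OrderHom.ext
    funext x
    cases x <;> rfl

theorem sec'_back (q : ℕ) : sec' P q ≫ TSq.back P P q = 𝟙 _ := rfl

/-- the homotopy -/
def hty' (q : ℕ) : SSt.Htpy (𝟙 _) (TSq.back P P q ≫ sec' P q) where
  h n α D := ⟨arF (phi' (0 : Fin (q + 1)) Fin.zero_le α) ⋙ D.obj, D.property.1.comp _,
    fun x => D.property.1.1 _⟩
  nat {m n} θ α D := by
    apply ObjectProperty.FullSubcategory.ext
    refine arF_congr
      (f := (Jo.map θ OrderHom.id).comp (phi' (0 : Fin (q + 1)) Fin.zero_le (α.comp θ)))
      (g := (phi' (0 : Fin (q + 1)) Fin.zero_le α).comp (Jo.map θ OrderHom.id)) ?_ D.obj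
    apply OrderHom.ext
    funext x
    cases x with
    | l i =>
      change Jo.map θ OrderHom.id (ch' (0 : Fin (q + 1)) i (α (θ i))) =
        ch' (0 : Fin (q + 1)) (θ i) (α (θ i))
      cases α (θ i) <;> rfl
    | r j => rfl
  h0 n α D hα := by
    apply ObjectProperty.FullSubcategory.ext
    refine arF_congr
      (f := phi' (0 : Fin (q + 1)) Fin.zero_le α) (g := OrderHom.id) ?_ D.obj
    apply OrderHom.ext
    funext x
    cases x with
    | l i =>
      change ch' (0 : Fin (q + 1)) i (α i) = _
      rw [hα i]
      rfl
    | r j => rfl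
  h1 n α D hα := by
    apply ObjectProperty.FullSubcategory.ext
    refine arF_congr
      (f := phi' (0 : Fin (q + 1)) Fin.zero_le α)
      (g := (Jo.inr _ _).comp (psi' (Fin (n + 1)) (0 : Fin (q + 1)) Fin.zero_le)) ?_ D.obj
    apply OrderHom.ext
    funext x
    cases x with
    | l i =>
      change ch' (0 : Fin (q + 1)) i (α i) = _
      rw [hα i]
      rfl
    | r j => rfl

end

end SAf

/-- SAf. -/
theorem thm_SAf (hS : St_StrHt.{max u v}) : St_SAf.{u, v} := by
  intro C _ _ P B h
  refine ⟨fun l => ?_, fun q => ?_⟩
  · refine hS.2.1 (TSl.front P B l) (SAf.sec P B h l) (hS.1 _ _ ⟨SAf.hty P B h l⟩) ?_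
    rw [SAf.sec_front]
    exact fun _ _ => rfl
  · refine hS.2.1 (TSq.back P P q) (SAf.sec' P q) ?_ ?_
    · exact fun Φ n => (hS.1 _ _ ⟨SAf.hty' P q⟩ Φ n).symm
    · rw [SAf.sec'_back]
      exact fun _ _ => rfl

end Pool.Agent.KQ
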