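import Pool.Agent.KQ.Core
import Pool.Agent.KQ.CtB
import Pool.Agent.KQ.CtA
import Pool.Agent.KQ.CtP
import Pool.Agent.KQ.SAf
import Pool.Agent.KQ.SAc
import Pool.Agent.KQ.SA
import Pool.Agent.KQ.DvC
import Pool.Agent.KQ.Dev
import Pool.Agent.KQ.Eqv
import Pool.Agent.KQ.RsC
import Pool.Agent.KQ.Res
import Pool.Agent.KQ.LcV

/-!
# KQ: devissage, resolution as strong maps, without hypotheses (helper94)
-/

set_option autoImplicit false

namespace Pool.Agent.KQ

universe u v

theorem all_CtB : St_CtB.{u, v} := thm_CtB all_StrHt thm_StrUnion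

theorem all_CtA : St_CtA.{u, v} := thm_CtA all_CtB all_StrRow all_StrCol all_StrFib thm_Str23

theorem all_CtP : St_CtP.{u, v} := thm_CtP all_StrHt thm_Str23

theorem all_SAf : St_SAf.{u, v} := thm_SAf all_StrHt

theorem all_SAc : St_SAc.{u, v} := thm_SAc all_StrFib all_StrHt thm_Str23

theorem all_SA : St_SA.{u, v} := thm_SA all_SAf all_SAc all_StrRow all_StrCol thm_Str23

theorem all_DvC : St_DvC.{u, v} := thm_DvC all_StrHt thm_StrUnion

theorem all_Eqv : St_Eqv.{u} := thm_Eqv all_StrHt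

/-- DEVISSAGE -/
theorem all_Dev : St_Dev.{u} := thm_Dev all_Eqv all_SA all_DvC thm_Str23

theorem all_RsC : St_RsC.{u, v} := thm_RsC all_CtA all_CtB all_CtP thm_Str23

/-- RESOLUTION -/
theorem all_Res : St_Res.{u, v} := thm_Res all_SA all_RsC

end Pool.Agent.KQ
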