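import Pool.Agent.KQ.DSA

/-!
# KQ: replacing the objects of a diagram by isomorphic objects

`copyS D σ`: the diagram with the objects `(σ j).1`, `(σ j).2 : D.obj j ≅ (σ j).1`, and the conjugated
morphisms. `mixS e β`: the objects of `D` where `β j = false`, of `D'` where `β j = true`, for an
isomorphism `e : D ≅ D'` and ANY function `β : J → Bool`.
-/

set_option autoImplicit false

namespace Pool.Agent.KQ

open CategoryTheory CategoryTheory.Limits

universe u v w w'

variable {C : Type u} [Category.{v} C] {J : Type w} [Category.{w'} J]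

/-- the diagram with the objects `(σ j).1` and the conjugated morphisms -/
def copyS (D : J ⥤ C) (σ : ∀ j, Σ X : C, D.obj j ≅ X) : J ⥤ C where
  obj j := (σ j).1
  map {i j} f := (σ i).2.inv ≫ D.map f ≫ (σ j).2.hom
  map_id j := by simp
  map_comp f g := by simp

/-- the isomorphism with the original diagram -/
def copyI (D : J ⥤ C) (σ : ∀ j, Σ X : C, D.obj j ≅ X) : D ≅ copyS D σ :=
  NatIso.ofComponents (fun j => (σ j).2) fun f => by simp [copyS]

theorem copyS_refl (D : J ⥤ C) : copyS D (fun j => ⟨D.obj j, Iso.refl _⟩) = D := by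
  refine CategoryTheory.Functor.ext (fun _ => rfl) fun i j f => ?_
  simp [copyS]

theorem copyS_iso {D D' : J ⥤ C} (e : D ≅ D') :
    copyS D (fun j => ⟨D'.obj j, e.app j⟩) = D' := by
  refine CategoryTheory.Functor.ext (fun _ => rfl) fun i j f => ?_
  simp [copyS]

theorem copyS_comp (D : J ⥤ C) (σ : ∀ j, Σ X : C, D.obj j ≅ X) {K : Type w} [Category.{w'} K]
    (G : K ⥤ J) : G ⋙ copyS D σ = copyS (G ⋙ D) (fun k => σ (G.obj k)) := rfl

/-- the choice of `X` or `Y` with the isomorphism from `X` -/
def mixI {X Y : C} (e : X ≅ Y) : Bool → Σ Z : C, X ≅ Z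
  | false => ⟨X, Iso.refl X⟩
  | true => ⟨Y, e⟩

/-- the diagram with the objects of `D` where `β` is `false` and those of `D'` where `β` is `true` -/
def mixS {D D' : J ⥤ C} (e : D ≅ D') (β : J → Bool) : J ⥤ C :=
  copyS D fun j => mixI (e.app j) (β j)

/-- isomorphic to `D` -/
def mixSI {D D' : J ⥤ C} (e : D ≅ D') (β : J → Bool) : D ≅ mixS e β := copyI _ _

theorem mixS_false {D D' : J ⥤ C} (e : D ≅ D') (β : J → Bool) (h : ∀ j, β j = false) :
    mixS e β = D := by
  have h1 : β = fun _ => false := funext h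
  subst h1
  exact copyS_refl D

theorem mixS_true {D D' : J ⥤ C} (e : D ≅ D') (β : J → Bool) (h : ∀ j, β j = true) :
    mixS e β = D' := by
  have h1 : β = fun _ => true := funext h
  subst h1
  exact copyS_iso e

theorem mixS_comp {D D' : J ⥤ C} (e : D ≅ D') (β : J → Bool) {K : Type w} [Category.{w'} K]
    (G : K ⥤ J) : G ⋙ mixS e β = mixS (Functor.isoWhiskerLeft G e) (fun k => β (G.obj k)) := rfl

/-- S-diagrams are invariant under isomorphisms -/
theorem SQ.of_iso {C : Type u} [Category.{v} C] [Abelian C] {P : ObjectProperty C} (hP : IsoC P)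
    {I : Type} [Preorder I] {D D' : Ar I ⥤ C} (e : D ≅ D') (h : SQ P I D) : SQ P I D' :=
  ⟨fun x => hP (e.app x) (h.1 x), fun i => (h.2.1 i).of_iso (e.app _).symm,
    fun i j k hij hjk => ses_of_iso (h.2.2 i j k hij hjk) (e.app _) (e.app _) (e.app _)
      (e.hom.naturality _).symm (e.hom.naturality _).symm⟩

/-- T-diagrams are invariant under isomorphisms -/
theorem TQ.of_iso {C : Type u} [Category.{v} C] [Abelian C] {P B : ObjectProperty C} (hP : IsoC P)
    (hB : IsoC B) {I J : Type} [Preorder I] [Preorder J] {D D' : Ar (Jo I J) ⥤ C} (e : D ≅ D')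
    (h : TQ P B I J D) : TQ P B I J D' :=
  ⟨h.1.of_iso hP e, fun x => hB (e.app _) (h.2 x)⟩

end Pool.Agent.KQ
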