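import Pool.Agent.KQ.DSG

/-!
# KQ: nerves of categories: definitions

Architect helper94. `Nv C`: the nerve (functors `[n] ⥤ C`), `Nv.mapF F`; `mix τ α`: the functor which
is `X` where `α` is `false` and `Y` where `α` is `true`, `τ : X ⟶ Y`, `α` monotone; `NvP C W`: the
chains all of whose morphisms are in the property `W`.
-/

set_option autoImplicit false

namespace Pool.Agent.KQ

open CategoryTheory CategoryTheory.Limits

universe u v u' v' w

/-- the nerve of a category: functors `[n] ⥤ C` -/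
def Nv (C : Type u) [Category.{v} C] : SSt.{max u v} where
  obj n := Fin (n + 1) ⥤ C
  map f x := f.monotone.functor ⋙ x
  map_id _ _ := rfl
  map_comp _ _ _ := rfl

/-- the map of nerves given by a functor -/
def Nv.mapF {C D : Type u} [Category.{v} C] [Category.{v} D] (F : C ⥤ D) : Nv C ⟶ Nv D :=
  ⟨fun _ x => x ⋙ F, fun _ _ => rfl⟩

theorem Nv.mapF_id (C : Type u) [Category.{v} C] : Nv.mapF (𝟭 C) = 𝟙 (Nv C) := rfl

theorem Nv.mapF_comp {C D E : Type u} [Category.{v} C] [Category.{v} D] [Category.{v} E]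
    (F : C ⥤ D) (G : D ⥤ E) : Nv.mapF (F ⋙ G) = Nv.mapF F ≫ Nv.mapF G := rfl

/-! ### mixing two functors on a preorder -/

section mix

variable {D : Type u} [Category.{v} D]

/-- the object `X` or `Y` -/
def mixO (X Y : D) : Bool → D
  | false => X
  | true => Y

/-- the morphism of a mixed functor -/
def mixM {X X' Y Y' : D} (f : X ⟶ X') (g : Y ⟶ Y') (τ' : X' ⟶ Y') :
    ∀ a b : Bool, a ≤ b → (mixO X Y a ⟶ mixO X' Y' b)
  | false, false, _ => f
  | false, true, _ => f ≫ τ'
  | true, true, _ => g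
  | true, false, h => absurd h (by decide)

theorem mixM_id {X Y : D} (τ : X ⟶ Y) (a : Bool) : mixM (𝟙 X) (𝟙 Y) τ a a le_rfl = 𝟙 _ := by
  cases a <;> rfl

theorem mixM_comp {X X' X'' Y Y' Y'' : D} (f : X ⟶ X') (g : Y ⟶ Y') (τ' : X' ⟶ Y')
    (f' : X' ⟶ X'') (g' : Y' ⟶ Y'') (τ'' : X'' ⟶ Y'') (h : f' ≫ τ'' = τ' ≫ g') (a b c : Bool)
    (hab : a ≤ b) (hbc : b ≤ c) :
    mixM (f ≫ f') (g ≫ g') τ'' a c (hab.trans hbc) = mixM f g τ' a b hab ≫ mixM f' g' τ'' b c hbc := by
  cases a <;> cases b <;> cases c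
  · rfl
  · change (f ≫ f') ≫ τ'' = f ≫ f' ≫ τ''
    rw [Category.assoc]
  · exact absurd hbc (by decide)
  · change (f ≫ f') ≫ τ'' = (f ≫ τ') ≫ g'
    rw [Category.assoc, Category.assoc, h]
  · exact absurd hab (by decide)
  · exact absurd hab (by decide)
  · exact absurd hbc (by decide)
  · rfl

/-- the functor which is `X` where `α` is `false` and `Y` where `α` is `true` -/
def mix {J : Type w} [Preorder J] {X Y : J ⥤ D} (τ : X ⟶ Y) (α : J →o Bool) : J ⥤ D where
  obj j := mixO (X.obj j) (Y.obj j) (α j)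
  map {i j} f := mixM (X.map f) (Y.map f) (τ.app j) (α i) (α j) (α.monotone (leOfHom f))
  map_id j := by
    rw [X.map_id, Y.map_id]
    exact mixM_id _ _
  map_comp {i j k} f g := by
    rw [X.map_comp, Y.map_comp]
    exact mixM_comp _ _ _ _ _ _ (τ.naturality g) _ _ _ _ _

theorem mix_comp {J J' : Type w} [Preorder J] [Preorder J'] {X Y : J ⥤ D} (τ : X ⟶ Y)
    (α : J →o Bool) (φ : J' →o J) :
    mix (Functor.whiskerLeft φ.monotone.functor τ) (α.comp φ) = φ.monotone.functor ⋙ mix τ α := rfl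

theorem mix_false {J : Type w} [Preorder J] {X Y : J ⥤ D} (τ : X ⟶ Y) (α : J →o Bool)
    (h : ∀ j, α j = false) : mix τ α = X := by
  have h1 : α = ⟨fun _ => false, fun _ _ _ => le_rfl⟩ := OrderHom.ext _ _ (funext h)
  subst h1
  rfl

theorem mix_true {J : Type w} [Preorder J] {X Y : J ⥤ D} (τ : X ⟶ Y) (α : J →o Bool)
    (h : ∀ j, α j = true) : mix τ α = Y := by
  have h1 : α = ⟨fun _ => true, fun _ _ _ => le_rfl⟩ := OrderHom.ext _ _ (funext h)
  subst h1
  rfl

end mix

/-- the homotopy of nerves given by a natural transformation -/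
def Nv.htpy {C D : Type u} [Category.{v} C] [Category.{v} D] {F G : C ⥤ D} (τ : F ⟶ G) :
    SSt.Htpy (Nv.mapF F) (Nv.mapF G) where
  h _ α x := mix (Functor.whiskerLeft x τ) α
  nat _ _ _ := rfl
  h0 _ α x h := mix_false _ α h
  h1 _ α x h := mix_true _ α h

/-! ### chains with morphisms in a property -/

/-- the chains all of whose morphisms have the property `W` and all of whose objects have the
property `P` -/
def NvP (C : Type u) [Category.{v} C] (P : ObjectProperty C) (W : MorphismProperty C) :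
    SSt.{max u v} where
  obj n := {x : Fin (n + 1) ⥤ C // (∀ i, P (x.obj i)) ∧ ∀ {i j : Fin (n + 1)} (f : i ⟶ j), W (x.map f)}
  map f x := ⟨f.monotone.functor ⋙ x.1, fun i => x.2.1 _, fun _ => x.2.2 _⟩
  map_id _ _ := rfl
  map_comp _ _ _ := rfl

/-- a functor which respects the properties gives a map -/
def NvP.mapF {C D : Type u} [Category.{v} C] [Category.{v} D] {P : ObjectProperty C}
    {W : MorphismProperty C} {P' : ObjectProperty D} {W' : MorphismProperty D} (F : C ⥤ D)
    (hP : ∀ X, P X → P' (F.obj X)) (hW : ∀ {X Y : C} (f : X ⟶ Y), P X → P Y → W f → W' (F.map f)) :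
    NvP C P W ⟶ NvP D P' W' :=
  ⟨fun _ x => ⟨x.1 ⋙ F, fun i => hP _ (x.2.1 i), fun f => hW _ (x.2.1 _) (x.2.1 _) (x.2.2 f)⟩,
    fun _ _ => rfl⟩

/-- the homotopy given by a natural transformation all of whose mixed morphisms have the property -/
def NvP.htpy {C D : Type u} [Category.{v} C] [Category.{v} D] {P : ObjectProperty C}
    {W : MorphismProperty C} {P' : ObjectProperty D} {W' : MorphismProperty D} {F G : C ⥤ D}
    (hF : ∀ X, P X → P' (F.obj X)) (hFW : ∀ {X Y : C} (f : X ⟶ Y), P X → P Y → W f → W' (F.map f))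
    (hG : ∀ X, P X → P' (G.obj X)) (hGW : ∀ {X Y : C} (f : X ⟶ Y), P X → P Y → W f → W' (G.map f))
    (τ : F ⟶ G) (hτ : ∀ {X Y : C} (f : X ⟶ Y), P X → P Y → W f → W' (F.map f ≫ τ.app Y)) :
    SSt.Htpy (NvP.mapF F hF hFW : NvP C P W ⟶ NvP D P' W') (NvP.mapF G hG hGW) where
  h _ α x := ⟨mix (Functor.whiskerLeft x.1 τ) α, fun i => by
      change P' (mixO _ _ (α i))
      cases α i
      · exact hF _ (x.2.1 i)
      · exact hG _ (x.2.1 i), fun {i j} f => by
      change W' (mixM _ _ _ (α i) (α j) (α.monotone (leOfHom f)))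
      generalize α.monotone (leOfHom f) = h
      revert h
      cases α i <;> cases α j <;> intro h
      · exact hFW _ (x.2.1 _) (x.2.1 _) (x.2.2 f)
      · exact hτ _ (x.2.1 _) (x.2.1 _) (x.2.2 f)
      · exact absurd h (by decide)
      · exact hGW _ (x.2.1 _) (x.2.1 _) (x.2.2 f)⟩
  nat _ _ _ := rfl
  h0 _ α x h := Subtype.ext (mix_false _ α h)
  h1 _ α x h := Subtype.ext (mix_true _ α h)

end Pool.Agent.KQ
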