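import Pool.Agent.KQ.Ses

/-!
# KQ: exact categories and the S-construction: definitions

Library KQ (the groups `K'_n` of Quillen and Waldhausen); exact categories: architect helper33.

* `ExCat.{u}`: a full subcategory `P`, closed under extensions, of an abelian category
  `C : Type (u + 1)`, `Category.{u} C`; the conflations are the short exact sequences with terms in `P`.
* `ExFun E E'`: additive functors of the full subcategories which preserve conflations; strict
  composition `ExFun.comp`.
* `E.diag J Q`: diagrams `J ⥤ E.C`, `J` a preorder, with a property `Q` (`DProp`).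
* `Ar I`: the pairs `i ≤ j`; `E.S I`: the S-construction over the preorder `I` (`S_m E` for
  `I = Fin (m + 1)`); `E.Smap f : ExFun (E.S J) (E.S I)` for monotone `f : I →o J`;
  `F.S I : ExFun (E.S I) (E'.S I)`.
-/

set_option autoImplicit false
set_option linter.unusedVariables false

noncomputable section

namespace Pool.Agent.KQ

open CategoryTheory CategoryTheory.Limits
open scoped ZeroObject

universe u

/-! ### Exact categories -/

/-- A (small enough) exact category: the full subcategory `P`, closed under isomorphisms, zero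
objects and extensions, of an abelian category `C`. -/
structure ExCat : Type (u + 2) where
  /-- the ambient abelian category -/
  C : Type (u + 1)
  /-- category structure -/
  cat : Category.{u} C
  /-- abelian -/
  ab : Abelian C
  /-- the objects of the exact category -/
  P : ObjectProperty C
  iso : ∀ {X Y : C}, (X ≅ Y) → P X → P Y
  zero : ∀ X : C, IsZero X → P X
  ext : ∀ {X Y Z : C} (f : X ⟶ Y) (g : Y ⟶ Z), SES f g → P X → P Z → P Y

attribute [instance] ExCat.cat ExCat.ab

/-- the objects, a full subcategory -/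
abbrev ExCat.Ob (E : ExCat.{u}) : Type (u + 1) := E.P.FullSubcategory

/-- conflations -/
def ExCat.Conf (E : ExCat.{u}) {X Y Z : E.Ob} (f : X ⟶ Y) (g : Y ⟶ Z) : Prop :=
  SES f.hom g.hom

/-- Exact functors. -/
structure ExFun (E E' : ExCat.{u}) where
  /-- the functor -/
  F : E.Ob ⥤ E'.Ob
  add : ∀ {X Y : E.Ob} (f g : X ⟶ Y), F.map (f + g) = F.map f + F.map g
  exact : ∀ {X Y Z : E.Ob} (f : X ⟶ Y) (g : Y ⟶ Z), E.Conf f g → E'.Conf (F.map f) (F.map g)

@[ext] theorem ExFun.ext' {E E' : ExCat.{u}} {F G : ExFun E E'} (h : F.F = G.F) : F = G := by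
  cases F
  cases G
  cases h
  rfl

/-- the identity -/
def ExFun.id (E : ExCat.{u}) : ExFun E E := ⟨𝟭 _, fun _ _ => rfl, fun _ _ h => h⟩

/-- composition: first `F`, then `G` -/
def ExFun.comp {E E' E'' : ExCat.{u}} (F : ExFun E E') (G : ExFun E' E'') : ExFun E E'' where
  F := F.F ⋙ G.F
  add f g := by
    change G.F.map (F.F.map (f + g)) = G.F.map (F.F.map f) + G.F.map (F.F.map g)
    rw [F.add, G.add]
  exact f g h := G.exact _ _ (F.exact _ _ h)

theorem ExFun.comp_id {E E' : ExCat.{u}} (F : ExFun E E') : F.comp (ExFun.id E') = F := rfl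

theorem ExFun.id_comp {E E' : ExCat.{u}} (F : ExFun E E') : (ExFun.id E).comp F = F := rfl

theorem ExFun.comp_assoc {E E' E'' E''' : ExCat.{u}} (F : ExFun E E') (G : ExFun E' E'')
    (H : ExFun E'' E''') : (F.comp G).comp H = F.comp (G.comp H) := rfl

/-- the exact functor given by a functor of the ambient categories -/
def ExFun.ofFunctor {E E' : ExCat.{u}} (F : E.C ⥤ E'.C) [F.Additive]
    (hP : ∀ X, E.P X → E'.P (F.obj X))
    (hF : ∀ {X Y Z : E.C} (f : X ⟶ Y) (g : Y ⟶ Z), E.P X → E.P Y → E.P Z → SES f g →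
      SES (F.map f) (F.map g)) : ExFun E E' where
  F :=
    { obj := fun X => ⟨F.obj X.obj, hP _ X.property⟩
      map := fun f => ObjectProperty.homMk (F.map f.hom)
      map_id := fun X => by
        apply ObjectProperty.hom_ext
        exact F.map_id _
      map_comp := fun f g => by
        apply ObjectProperty.hom_ext
        exact F.map_comp _ _ }
  add f g := by
    apply ObjectProperty.hom_ext
    exact F.map_add
  exact {X Y Z} f g h := by
    exact hF f.hom g.hom X.property Y.property Z.property h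

/-! ### Diagrams -/

/-- Properties of diagrams in an exact category which define an exact category of diagrams. -/
structure DProp (E : ExCat.{u}) (J : Type) [Preorder J] where
  /-- the property -/
  Q : ObjectProperty (J ⥤ E.C)
  pt : ∀ D, Q D → ∀ j, E.P (D.obj j)
  iso : ∀ {D D' : J ⥤ E.C}, (D ≅ D') → Q D → Q D'
  zero : ∀ D : J ⥤ E.C, (∀ j, IsZero (D.obj j)) → Q D
  ext : ∀ {X Y Z : J ⥤ E.C} (f : X ⟶ Y) (g : Y ⟶ Z), (∀ j, SES (f.app j) (g.app j)) → Q X → Q Z →
    Q Y

/-- the exact category of diagrams with the property `Q`; the conflations are the pointwise ones -/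
def ExCat.diag (E : ExCat.{u}) (J : Type) [Preorder J] (Q : DProp E J) : ExCat.{u} where
  C := J ⥤ E.C
  cat := inferInstance
  ab := inferInstance
  P := Q.Q
  iso := Q.iso
  zero := fun X h => Q.zero X ((isZero_functor X).1 h)
  ext := fun f g h => Q.ext f g ((ses_functor f g).1 h)

/-- precomposition with a monotone map -/
def ExCat.pre (E : ExCat.{u}) {J J' : Type} [Preorder J] [Preorder J'] (Q : DProp E J)
    (Q' : DProp E J') (φ : J →o J') (h : ∀ D, Q'.Q D → Q.Q (φ.monotone.functor ⋙ D)) :
    ExFun (E.diag J' Q') (E.diag J Q) where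
  F :=
    { obj := fun D => ⟨φ.monotone.functor ⋙ D.obj, h _ D.property⟩
      map := fun τ => ObjectProperty.homMk (Functor.whiskerLeft φ.monotone.functor τ.hom)
      map_id := fun _ => rfl
      map_comp := fun _ _ => rfl }
  add _ _ := rfl
  exact {X Y Z} f g hc := (ses_functor _ _).2 fun j => (ses_functor f.hom g.hom).1 hc (φ j)

/-- the diagram in the exact category given by a diagram in the ambient category -/
def ExCat.lift (E : ExCat.{u}) {J : Type} [Preorder J] (D : J ⥤ E.C) (h : ∀ j, E.P (D.obj j)) :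
    J ⥤ E.Ob where
  obj j := ⟨D.obj j, h j⟩
  map f := ObjectProperty.homMk (D.map f)
  map_id j := by
    apply ObjectProperty.hom_ext
    exact D.map_id j
  map_comp f g := by
    apply ObjectProperty.hom_ext
    exact D.map_comp f g

/-- the image of a diagram under an exact functor -/
def ExFun.onD {E E' : ExCat.{u}} (F : ExFun E E') {J : Type} [Preorder J] (D : J ⥤ E.C)
    (h : ∀ j, E.P (D.obj j)) : J ⥤ E'.C := E.lift D h ⋙ F.F ⋙ E'.P.ι

/-- the image of a morphism of diagrams under an exact functor -/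
def ExFun.onH {E E' : ExCat.{u}} (F : ExFun E E') {J : Type} [Preorder J] {D D' : J ⥤ E.C}
    (h : ∀ j, E.P (D.obj j)) (h' : ∀ j, E.P (D'.obj j)) (τ : D ⟶ D') :
    F.onD D h ⟶ F.onD D' h' where
  app j := (F.F.map (X := (E.lift D h).obj j) (Y := (E.lift D' h').obj j)
    (ObjectProperty.homMk (τ.app j))).hom
  naturality j j' f := by
    change (F.F.map ((E.lift D h).map f)).hom ≫ (F.F.map _).hom =
      (F.F.map _).hom ≫ (F.F.map ((E.lift D' h').map f)).hom
    rw [← ObjectProperty.FullSubcategory.comp_hom, ← ObjectProperty.FullSubcategory.comp_hom,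
      ← F.F.map_comp, ← F.F.map_comp]
    congr 2
    apply ObjectProperty.hom_ext
    exact τ.naturality f

/-- The functor of exact categories of diagrams given by an exact functor. -/
def ExFun.diag {E E' : ExCat.{u}} (F : ExFun E E') (J : Type) [Preorder J] (Q : DProp E J)
    (Q' : DProp E' J) (h : ∀ D (hD : Q.Q D), Q'.Q (F.onD D (Q.pt D hD))) :
    ExFun (E.diag J Q) (E'.diag J Q') where
  F :=
    { obj := fun D => ⟨F.onD D.obj (Q.pt _ D.property), h _ D.property⟩
      map := fun {D D'} τ => ObjectProperty.homMk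
        (F.onH (Q.pt _ D.property) (Q.pt _ D'.property) τ.hom)
      map_id := fun D => by
        apply ObjectProperty.hom_ext
        apply NatTrans.ext
        funext j
        have h1 := congrArg InducedCategory.Hom.hom
          (F.F.map_id ((E.lift D.obj (Q.pt _ D.property)).obj j))
        exact h1
      map_comp := fun {D D' D''} τ σ => by
        apply ObjectProperty.hom_ext
        apply NatTrans.ext
        funext j
        exact congrArg InducedCategory.Hom.hom (F.F.map_comp
          (X := (E.lift D.obj (Q.pt _ D.property)).obj j)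
          (Y := (E.lift D'.obj (Q.pt _ D'.property)).obj j)
          (Z := (E.lift D''.obj (Q.pt _ D''.property)).obj j)
          (ObjectProperty.homMk (τ.hom.app j)) (ObjectProperty.homMk (σ.hom.app j))) }
  add {D D'} τ σ := by
    apply ObjectProperty.hom_ext
    apply NatTrans.ext
    funext j
    exact congrArg InducedCategory.Hom.hom (F.add
      (X := (E.lift D.obj (Q.pt _ D.property)).obj j)
      (Y := (E.lift D'.obj (Q.pt _ D'.property)).obj j)
      (ObjectProperty.homMk (τ.hom.app j)) (ObjectProperty.homMk (σ.hom.app j)))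
  exact {X Y Z} f g hc := (ses_functor _ _).2 fun j =>
    F.exact (X := (E.lift X.obj (Q.pt _ X.property)).obj j)
      (Y := (E.lift Y.obj (Q.pt _ Y.property)).obj j)
      (Z := (E.lift Z.obj (Q.pt _ Z.property)).obj j)
      (ObjectProperty.homMk (f.hom.app j)) (ObjectProperty.homMk (g.hom.app j))
      ((ses_functor f.hom g.hom).1 hc j)

/-! ### Zero objects -/

theorem ExCat.isZero_iff (E : ExCat.{u}) (X : E.Ob) : IsZero X ↔ IsZero X.obj := by
  constructor
  · intro h
    rw [IsZero.iff_id_eq_zero]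
    have h1 : 𝟙 X = 0 := h.eq_of_src _ _
    exact congrArg InducedCategory.Hom.hom h1
  · intro h
    rw [IsZero.iff_id_eq_zero]
    apply ObjectProperty.hom_ext
    exact h.eq_of_src _ _

theorem ExFun.map_zero {E E' : ExCat.{u}} (F : ExFun E E') {X Y : E.Ob} :
    F.F.map (0 : X ⟶ Y) = 0 := by
  have h := F.add (0 : X ⟶ Y) 0
  rw [add_zero] at h
  exact left_eq_add.1 h

theorem ExFun.isZero {E E' : ExCat.{u}} (F : ExFun E E') {X : E.Ob} (h : IsZero X.obj) :
    IsZero (F.F.obj X).obj := by
  rw [← E'.isZero_iff, IsZero.iff_id_eq_zero, ← F.F.map_id]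
  have h1 : 𝟙 X = 0 := ((E.isZero_iff X).2 h).eq_of_src _ _
  rw [h1, F.map_zero]

/-! ### The S-construction -/

/-- the pairs `i ≤ j` in `I` -/
def Ar (I : Type) [Preorder I] : Type := {p : I × I // p.1 ≤ p.2}

instance (I : Type) [Preorder I] : Preorder (Ar I) :=
  inferInstanceAs (Preorder {p : I × I // p.1 ≤ p.2})

/-- the pair `(i, j)` -/
def ar {I : Type} [Preorder I] (i j : I) (h : i ≤ j) : Ar I := ⟨(i, j), h⟩

/-- the morphism `(i, j) ⟶ (i', j')` -/
def arHom {I : Type} [Preorder I] {i j i' j' : I} (h : i ≤ j) (h' : i' ≤ j') (h1 : i ≤ i')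
    (h2 : j ≤ j') : ar i j h ⟶ ar i' j' h' :=
  homOfLE (show (ar i j h).1 ≤ (ar i' j' h').1 from ⟨h1, h2⟩)

/-- monotone maps act on pairs -/
def Ar.map {I J : Type} [Preorder I] [Preorder J] (f : I →o J) : Ar I →o Ar J :=
  ⟨fun p => ⟨(f p.1.1, f p.1.2), f.monotone p.2⟩, fun _ _ h => ⟨f.monotone h.1, f.monotone h.2⟩⟩

/-- the diagrams of the S-construction: `D(i, i) = 0` and `D(i, j) ⟶ D(i, k) ⟶ D(j, k)` is a
conflation for `i ≤ j ≤ k` -/
def ExCat.SP (E : ExCat.{u}) (I : Type) [Preorder I] : DProp E (Ar I) where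
  Q := fun D => (∀ x, E.P (D.obj x)) ∧ (∀ i : I, IsZero (D.obj (ar i i le_rfl))) ∧
    ∀ (i j k : I) (hij : i ≤ j) (hjk : j ≤ k),
      SES (D.map (arHom hij (hij.trans hjk) le_rfl hjk)) (D.map (arHom (hij.trans hjk) hjk hij le_rfl))
  pt := fun _ h => h.1
  iso := fun {D D'} e h => ⟨fun x => E.iso (e.app x) (h.1 x),
    fun i => (h.2.1 i).of_iso (e.app _).symm, fun i j k hij hjk =>
      ses_of_iso (h.2.2 i j k hij hjk) (e.app _) (e.app _) (e.app _)
        (e.hom.naturality _).symm (e.hom.naturality _).symm⟩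
  zero := fun D h => ⟨fun x => E.zero _ (h x), fun i => h _, fun i j k hij hjk =>
    ses_of_isZero _ _ (h _) (h _) (h _)⟩
  ext := fun {X Y Z} f g h hX hZ => by
    refine ⟨fun x => E.ext _ _ (h x) (hX.1 x) (hZ.1 x),
      fun i => (h _).isZero_mid (hX.2.1 i) (hZ.2.1 i), fun i j k hij hjk => ?_⟩
    refine nine_mid (h _) (h _) (h _) (hX.2.2 i j k hij hjk) (hZ.2.2 i j k hij hjk) ?_
      (f.naturality _) (f.naturality _) (g.naturality _) (g.naturality _)
    have h1 : IsZero (Y.obj (ar j j le_rfl)) := (h _).isZero_mid (hX.2.1 j) (hZ.2.1 j)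
    have h2 : arHom hij (hij.trans hjk) le_rfl hjk ≫ arHom (hij.trans hjk) hjk hij le_rfl =
      arHom hij le_rfl hij le_rfl ≫ arHom le_rfl hjk le_rfl hjk := rfl
    rw [← Y.map_comp, h2, Y.map_comp, h1.eq_of_src (Y.map (arHom le_rfl hjk le_rfl hjk)) 0,
      comp_zero]

/-- the S-construction of `E` over the preorder `I` -/
def ExCat.S (E : ExCat.{u}) (I : Type) [Preorder I] : ExCat.{u} := E.diag (Ar I) (E.SP I)

/-- the operators of the S-construction -/
def ExCat.Smap (E : ExCat.{u}) {I J : Type} [Preorder I] [Preorder J] (f : I →o J) :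
    ExFun (E.S J) (E.S I) :=
  E.pre (E.SP I) (E.SP J) (Ar.map f) fun _ h => ⟨fun x => h.1 _, fun i => h.2.1 (f i),
    fun i j k hij hjk => h.2.2 (f i) (f j) (f k) (f.monotone hij) (f.monotone hjk)⟩

/-- the S-construction of an exact functor -/
def ExFun.S {E E' : ExCat.{u}} (F : ExFun E E') (I : Type) [Preorder I] :
    ExFun (E.S I) (E'.S I) :=
  F.diag (Ar I) (E.SP I) (E'.SP I) fun D h => ⟨fun x => (F.F.obj _).property,
    fun i => F.isZero (X := (E.lift D h.1).obj (ar i i le_rfl)) (h.2.1 i), fun i j k hij hjk =>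
      F.exact (X := (E.lift D h.1).obj (ar i j hij))
        (Y := (E.lift D h.1).obj (ar i k (hij.trans hjk)))
        (Z := (E.lift D h.1).obj (ar j k hjk)) ((E.lift D h.1).map _) ((E.lift D h.1).map _)
        (h.2.2 i j k hij hjk)⟩

theorem ExCat.Smap_id (E : ExCat.{u}) (I : Type) [Preorder I] :
    E.Smap (OrderHom.id : I →o I) = ExFun.id _ := rfl

theorem ExCat.Smap_comp (E : ExCat.{u}) {I J K : Type} [Preorder I] [Preorder J] [Preorder K]
    (f : I →o J) (g : J →o K) : E.Smap (g.comp f) = (E.Smap g).comp (E.Smap f) := rfl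

theorem ExFun.S_id (E : ExCat.{u}) (I : Type) [Preorder I] :
    (ExFun.id E).S I = ExFun.id (E.S I) := rfl

theorem ExFun.S_comp {E E' E'' : ExCat.{u}} (F : ExFun E E') (G : ExFun E' E'') (I : Type)
    [Preorder I] : (F.comp G).S I = (F.S I).comp (G.S I) := rfl

theorem ExFun.S_Smap {E E' : ExCat.{u}} (F : ExFun E E') {I J : Type} [Preorder I] [Preorder J]
    (f : I →o J) : (E.Smap f).comp (F.S I) = (F.S J).comp (E'.Smap f) := rfl

/-! ### Objects as a pointed set -/

/-- two objects are identified if both are zero objects -/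
def ExCat.zrel (E : ExCat.{u}) (X Y : E.Ob) : Prop := IsZero X.obj ∧ IsZero Y.obj

/-- the set of objects, all zero objects identified -/
def ExCat.ob (E : ExCat.{u}) : Type (u + 1) := Quot E.zrel

/-- a zero object -/
def ExCat.zo (E : ExCat.{u}) : E.Ob := ⟨0, E.zero _ (isZero_zero _)⟩

/-- the pointed set of objects, the base point is the class of the zero objects -/
def ExCat.obP (E : ExCat.{u}) : Pointed.{u + 1} := ⟨E.ob, Quot.mk _ E.zo⟩

/-- the map of pointed sets given by an exact functor -/
def ExFun.obP {E E' : ExCat.{u}} (F : ExFun E E') : E.obP ⟶ E'.obP where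
  toFun := Quot.map F.F.obj fun _ _ h => ⟨F.isZero h.1, F.isZero h.2⟩
  map_point := Quot.sound ⟨F.isZero (isZero_zero _), isZero_zero _⟩

theorem ExFun.obP_id (E : ExCat.{u}) : (ExFun.id E).obP = 𝟙 _ := by
  apply Pointed.Hom.ext
  funext x
  induction x using Quot.ind
  rfl

theorem ExFun.obP_comp {E E' E'' : ExCat.{u}} (F : ExFun E E') (G : ExFun E' E'') :
    (F.comp G).obP = F.obP ≫ G.obP := by
  apply Pointed.Hom.ext
  funext x
  induction x using Quot.ind
  rfl

/-! ### Subcategories, S-diagrams with conditions -/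

/-- Subproperties of the property `E.P`, closed under isomorphisms, zero objects and extensions. -/
structure SubP (E : ExCat.{u}) where
  /-- the property -/
  P : ObjectProperty E.C
  le : ∀ X, P X → E.P X
  iso : ∀ {X Y : E.C}, (X ≅ Y) → P X → P Y
  zero : ∀ X : E.C, IsZero X → P X
  ext : ∀ {X Y Z : E.C} (f : X ⟶ Y) (g : Y ⟶ Z), SES f g → P X → P Z → P Y

/-- the whole category as a subproperty -/
def SubP.top (E : ExCat.{u}) : SubP E := ⟨E.P, fun _ h => h, E.iso, E.zero, E.ext⟩

/-- the zero objects as a subproperty -/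
def SubP.bot (E : ExCat.{u}) : SubP E :=
  ⟨fun X => IsZero X, fun _ h => E.zero _ h, fun e h => h.of_iso e.symm, fun _ h => h,
    fun _ _ h hX hZ => h.isZero_mid hX hZ⟩

/-- the exact subcategory given by a subproperty -/
def ExCat.sub (E : ExCat.{u}) (A : SubP E) : ExCat.{u} where
  C := E.C
  cat := inferInstance
  ab := inferInstance
  P := A.P
  iso := A.iso
  zero := A.zero
  ext := A.ext

/-- inclusions of subcategories -/
def ExCat.incl (E : ExCat.{u}) (A B : SubP E) (h : ∀ X, A.P X → B.P X) :
    ExFun (E.sub A) (E.sub B) where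
  F :=
    { obj := fun X => ⟨X.obj, h _ X.property⟩
      map := fun f => ObjectProperty.homMk f.hom
      map_id := fun _ => rfl
      map_comp := fun _ _ => rfl }
  add _ _ := rfl
  exact _ _ hc := hc

/-- the inclusion of a subcategory in the whole category -/
def ExCat.incl' (E : ExCat.{u}) (A : SubP E) : ExFun (E.sub A) E where
  F :=
    { obj := fun X => ⟨X.obj, A.le _ X.property⟩
      map := fun f => ObjectProperty.homMk f.hom
      map_id := fun _ => rfl
      map_comp := fun _ _ => rfl }
  add _ _ := rfl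
  exact _ _ hc := hc

/-- the S-diagrams `D` with `D(i, j)` in `A (i, j)` -/
def ExCat.SA (E : ExCat.{u}) (I : Type) [Preorder I] (A : Ar I → SubP E) : DProp E (Ar I) where
  Q := fun D => (E.SP I).Q D ∧ ∀ x, (A x).P (D.obj x)
  pt := fun _ h => h.1.1
  iso := fun e h => ⟨(E.SP I).iso e h.1, fun x => (A x).iso (e.app x) (h.2 x)⟩
  zero := fun D h => ⟨(E.SP I).zero D h, fun x => (A x).zero _ (h x)⟩
  ext := fun f g h hX hZ => ⟨(E.SP I).ext f g h hX.1 hZ.1, fun x => (A x).ext _ _ (h x) (hX.2 x)
    (hZ.2 x)⟩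

/-- the exact category of S-diagrams `D` with `D(i, j)` in `A (i, j)` -/
def ExCat.SX (E : ExCat.{u}) (I : Type) [Preorder I] (A : Ar I → SubP E) : ExCat.{u} :=
  E.diag (Ar I) (E.SA I A)

/-- the operators of the S-construction with conditions -/
def ExCat.SXmap (E : ExCat.{u}) {I J : Type} [Preorder I] [Preorder J] (A : Ar I → SubP E)
    (B : Ar J → SubP E) (f : I →o J) (h : ∀ x X, (B (Ar.map f x)).P X → (A x).P X) :
    ExFun (E.SX J B) (E.SX I A) :=
  E.pre (E.SA I A) (E.SA J B) (Ar.map f) fun _ hD => ⟨⟨fun x => hD.1.1 _, fun i => hD.1.2.1 (f i),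
    fun i j k hij hjk => hD.1.2.2 (f i) (f j) (f k) (f.monotone hij) (f.monotone hjk)⟩,
    fun x => h x _ (hD.2 _)⟩

/-- from S-diagrams with conditions to S-diagrams of a subcategory -/
def ExCat.SXtoS (E : ExCat.{u}) {I J : Type} [Preorder I] [Preorder J] (A : SubP E)
    (B : Ar J → SubP E) (f : I →o J) (h : ∀ x X, (B (Ar.map f x)).P X → A.P X) :
    ExFun (E.SX J B) ((E.sub A).S I) :=
  E.pre (J := Ar I) (J' := Ar J) ⟨fun D => ((E.sub A).SP I).Q D, fun D hD j => A.le _ (hD.1 j),
    ((E.sub A).SP I).iso, ((E.sub A).SP I).zero, ((E.sub A).SP I).ext⟩ (E.SA J B) (Ar.map f)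
    fun _ hD => ⟨fun x => h x _ (hD.2 _), fun i => hD.1.2.1 (f i),
    fun i j k hij hjk => hD.1.2.2 (f i) (f j) (f k) (f.monotone hij) (f.monotone hjk)⟩

end Pool.Agent.KQ
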