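import Pool.Agent.KQ.DK

/-!
# KQ: the objects `S_1 E` and the maps from `S_1 E` to `relS`, `relT`
-/

set_option autoImplicit false
set_option linter.unusedVariables false

noncomputable section

namespace Pool.Agent.KQ

open CategoryTheory CategoryTheory.Limits Function
open scoped ZeroObject

universe u

/-! ### the objects `S_1 E` -/

/-- evaluation at `(0, 1)` -/
def ExCat.ev1 (E : ExCat.{u}) : ExFun (E.S (Fin 2)) E where
  F :=
    { obj := fun D => ⟨D.obj.obj (ar (0 : Fin 2) (1 : Fin 2) (by decide)), D.property.1 _⟩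
      map := fun τ => ObjectProperty.homMk (τ.hom.app _)
      map_id := fun _ => rfl
      map_comp := fun _ _ => rfl }
  add _ _ := rfl
  exact f g h := (ses_functor _ _).1 h _

/-- evaluation at `(0, 1)`, natural in the exact category -/
def evF : SF.{u} (Fin 2) ⟶ 𝟭 ExCat.{u} where
  app E := E.ev1
  naturality E E' F := rfl

/-- `⊥ ↦ 0`, `i ↦ 1` -/
def cB (I : Type) [Preorder I] : WithBot I →o Fin 2 where
  toFun := fun x => match x with
    | none => 0
    | some _ => 1
  monotone' := fun x y h => by
    cases x with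
    | bot => exact Fin.zero_le _
    | coe x =>
      cases y with
      | bot => exact absurd h (by simp)
      | coe y => exact le_rfl

/-- `i ↦ 0`, `⊤ ↦ 1` -/
def cT (I : Type) [Preorder I] : WithTop I →o Fin 2 where
  toFun := fun x => match x with
    | none => 1
    | some _ => 0
  monotone' := fun x y h => by
    cases x with
    | top =>
      cases y with
      | top => exact le_rfl
      | coe y => exact absurd h (by simp)
    | coe x => exact Fin.zero_le _

/-- the objects `0 → X → ... → X` (constant, quotients `0`) of `relS` -/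
def ExCat.relSj (E : ExCat.{u}) (A : SubP E) (I : Type) [Preorder I] :
    ExFun (E.S (Fin 2)) (E.relS A I) :=
  E.pre (E.SA (WithBot I) (condS A I)) (E.SP (Fin 2)) (Ar.map (cB I)) fun D h =>
    ⟨⟨fun x => h.1 _, fun i => h.2.1 (cB I i), fun i j k hij hjk =>
      h.2.2 (cB I i) (cB I j) (cB I k) ((cB I).monotone hij) ((cB I).monotone hjk)⟩,
      fun x => by
        obtain ⟨⟨i, j⟩, hx⟩ := x
        cases i with
        | bot => exact h.1 _
        | coe i =>
          cases j with
          | bot => exact absurd hx (by simp)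
          | coe j => exact A.zero _ (h.2.1 1)⟩

/-- the objects `X = ... = X → X` (constant, kernels `0`) of `relT` -/
def ExCat.relTj (E : ExCat.{u}) (A : SubP E) (I : Type) [Preorder I] :
    ExFun (E.S (Fin 2)) (E.relT A I) :=
  E.pre (E.SA (WithTop I) (condT A I)) (E.SP (Fin 2)) (Ar.map (cT I)) fun D h =>
    ⟨⟨fun x => h.1 _, fun i => h.2.1 (cT I i), fun i j k hij hjk =>
      h.2.2 (cT I i) (cT I j) (cT I k) ((cT I).monotone hij) ((cT I).monotone hjk)⟩,
      fun x => by
        obtain ⟨⟨i, j⟩, hx⟩ := x
        cases j with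
        | top => exact h.1 _
        | coe j =>
          cases i with
          | top => exact absurd hx (by simp)
          | coe i => exact A.zero _ (h.2.1 0)⟩

theorem ExCat.pre_congr (E : ExCat.{u}) {J J' : Type} [Preorder J] [Preorder J'] (Q : DProp E J)
    (Q' : DProp E J') {φ ψ : J →o J'} (e : φ = ψ)
    (h : ∀ D, Q'.Q D → Q.Q (φ.monotone.functor ⋙ D))
    (h' : ∀ D, Q'.Q D → Q.Q (ψ.monotone.functor ⋙ D)) : E.pre Q Q' φ h = E.pre Q Q' ψ h' := by
  subst e
  rfl

theorem cB_wb {I J : Type} [Preorder I] [Preorder J] (f : I →o J) :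
    (cB J).comp (wb f) = cB I := by
  apply OrderHom.ext
  funext x
  cases x <;> rfl

theorem cT_wt {I J : Type} [Preorder I] [Preorder J] (f : I →o J) :
    (cT J).comp (wt f) = cT I := by
  apply OrderHom.ext
  funext x
  cases x <;> rfl

/-- the map from the constant simplicial exact category `S_1 E` to `relS` -/
def relSj (E : ExCat.{u}) (A : SubP E) : SOb.const (E.S (Fin 2)) ⟶ relS E A where
  app m := E.relSj A (Fin (m + 1))
  nat {m n} f := by
    have h1 : (Ar.map ((cB (Fin (n + 1))).comp (wb f))) = Ar.map (cB (Fin (m + 1))) := by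
      rw [cB_wb]
    exact (E.pre_congr (E.SA (WithBot (Fin (m + 1))) (condS A (Fin (m + 1)))) (E.SP (Fin 2)) h1
      (fun D hD => ((E.relSmap A f).F.obj ((E.relSj A (Fin (n + 1))).F.obj ⟨D, hD⟩)).property)
      (fun D hD => ((E.relSj A (Fin (m + 1))).F.obj ⟨D, hD⟩).property)).symm

/-- the map from the constant simplicial exact category `S_1 E` to `relT` -/
def relTj (E : ExCat.{u}) (A : SubP E) : SOb.const (E.S (Fin 2)) ⟶ relT E A where
  app m := E.relTj A (Fin (m + 1))
  nat {m n} f := by
    have h1 : (Ar.map ((cT (Fin (n + 1))).comp (wt f))) = Ar.map (cT (Fin (m + 1))) := by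
      rw [cT_wt]
    exact (E.pre_congr (E.SA (WithTop (Fin (m + 1))) (condT A (Fin (m + 1)))) (E.SP (Fin 2)) h1
      (fun D hD => ((E.relTmap A f).F.obj ((E.relTj A (Fin (n + 1))).F.obj ⟨D, hD⟩)).property)
      (fun D hD => ((E.relTj A (Fin (m + 1))).F.obj ⟨D, hD⟩).property)).symm

/-- naturality for maps of pairs -/
theorem relSj_nat {E E' : ExCat.{u}} (F : ExFun E E') {A : SubP E} {A' : SubP E'}
    (h : F.Maps A A') : relSj E A ≫ relSF F h = SOb.constF.map (F.S (Fin 2)) ≫ relSj E' A' := rfl

/-- naturality for maps of pairs -/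
theorem relTj_nat {E E' : ExCat.{u}} (F : ExFun E E') {A : SubP E} {A' : SubP E'}
    (h : F.Maps A A') : relTj E A ≫ relTF F h = SOb.constF.map (F.S (Fin 2)) ≫ relTj E' A' := rfl

/-- `E ↦ relS E E` -/
def relTop : ExCat.{u} ⥤ SOb ExCat.{u} where
  obj E := relS E (SubP.top E)
  map F := relSF F (F.maps_top _)

end Pool.Agent.KQ
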