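import Pool.Agent.KQ.DEx2
import Pool.Agent.KQ.DCat

/-!
# KQ: Theorem A for one S-direction: definitions

Architect helper94. `C` abelian, `P`, `B` properties of objects.
* `SQ P I`: the S-diagrams over `I` with entries in `P` (`(E.SP I).Q = SQ E.P I` by `rfl`);
* `SdS P`: the simplicial set `n ↦ ob S_n P`;
* `Jo I J`: the ordinal sum; `TQ P B I J`: the S-diagrams over `Jo I J` with entries in `P` and front
  part (over `I`) in `B`; `TS P B`: the bisimplicial set `(l, q) ↦ TQ P B [l] [q]`, `TS' P B` the same with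
  the directions exchanged;
* `FM P B M`: the chains `N_0 → … → N_l → M` of epimorphisms, with kernels of `N_i → M` in `P` and kernels of
  `N_i → N_j` in `B`.
-/

set_option autoImplicit false

noncomputable section

namespace Pool.Agent.KQ

open CategoryTheory CategoryTheory.Limits
open scoped ZeroObject

universe u v

/-! ### ordinal sums -/

/-- the ordinal sum: `I` before `J` -/
inductive Jo (I J : Type) : Type
  | l : I → Jo I J
  | r : J → Jo I J

/-- the order of the ordinal sum -/
def Jo.le {I J : Type} [Preorder I] [Preorder J] : Jo I J → Jo I J → Prop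
  | .l i, .l i' => i ≤ i'
  | .l _, .r _ => True
  | .r _, .l _ => False
  | .r j, .r j' => j ≤ j'

instance (I J : Type) [Preorder I] [Preorder J] : Preorder (Jo I J) where
  le := Jo.le
  le_refl x := by cases x <;> exact le_rfl
  le_trans x y z h h' := by
    cases x <;> cases y <;> cases z <;> first | exact le_trans h h' | trivial | exact h.elim |
      exact h'.elim

/-- the inclusion of the front part -/
def Jo.inl (I J : Type) [Preorder I] [Preorder J] : I →o Jo I J := ⟨.l, fun _ _ h => h⟩

/-- the inclusion of the back part -/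
def Jo.inr (I J : Type) [Preorder I] [Preorder J] : J →o Jo I J := ⟨.r, fun _ _ h => h⟩

/-- monotone maps of ordinal sums -/
def Jo.map {I J I' J' : Type} [Preorder I] [Preorder J] [Preorder I'] [Preorder J'] (f : I →o I')
    (g : J →o J') : Jo I J →o Jo I' J' where
  toFun x := match x with
    | .l i => .l (f i)
    | .r j => .r (g j)
  monotone' x y h := by
    cases x <;> cases y <;> first | exact f.monotone h | exact g.monotone h | trivial | exact h.elim

theorem Jo.map_id (I J : Type) [Preorder I] [Preorder J] :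
    Jo.map (OrderHom.id : I →o I) (OrderHom.id : J →o J) = OrderHom.id := by
  apply OrderHom.ext
  funext x
  cases x <;> rfl

theorem Jo.map_comp {I J I' J' I'' J'' : Type} [Preorder I] [Preorder J] [Preorder I'] [Preorder J']
    [Preorder I''] [Preorder J''] (f : I →o I') (g : J →o J') (f' : I' →o I'') (g' : J' →o J'') :
    Jo.map (f'.comp f) (g'.comp g) = (Jo.map f' g').comp (Jo.map f g) := by
  apply OrderHom.ext
  funext x
  cases x <;> rfl

/-! ### S-diagrams -/

section

variable {C : Type u} [Category.{v} C] [Abelian C]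

/-- the S-diagrams over `I` with entries in `P` -/
def SQ (P : ObjectProperty C) (I : Type) [Preorder I] : ObjectProperty (Ar I ⥤ C) := fun D =>
  (∀ x, P (D.obj x)) ∧ (∀ i : I, IsZero (D.obj (ar i i le_rfl))) ∧
    ∀ (i j k : I) (hij : i ≤ j) (hjk : j ≤ k),
      SES (D.map (arHom hij (hij.trans hjk) le_rfl hjk)) (D.map (arHom (hij.trans hjk) hjk hij le_rfl))

/-- the action of monotone maps -/
abbrev arF {I J : Type} [Preorder I] [Preorder J] (f : I →o J) : Ar I ⥤ Ar J :=
  (Ar.map f).monotone.functor

theorem SQ.comp {P : ObjectProperty C} {I J : Type} [Preorder I] [Preorder J] (f : I →o J)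
    {D : Ar J ⥤ C} (h : SQ P J D) : SQ P I (arF f ⋙ D) :=
  ⟨fun x => h.1 _, fun i => h.2.1 (f i), fun i j k hij hjk =>
    h.2.2 (f i) (f j) (f k) (f.monotone hij) (f.monotone hjk)⟩

theorem SQ.mono {P Q : ObjectProperty C} (hPQ : ∀ X, P X → Q X) {I : Type} [Preorder I]
    {D : Ar I ⥤ C} (h : SQ P I D) : SQ Q I D := ⟨fun x => hPQ _ (h.1 x), h.2.1, h.2.2⟩

/-- the simplicial set `n ↦ ob S_n P` -/
def SdS (P : ObjectProperty C) : SSt.{max u v} where
  obj n := (SQ P (Fin (n + 1))).FullSubcategory
  map f D := ⟨arF f ⋙ D.obj, D.property.comp f⟩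
  map_id _ _ := rfl
  map_comp _ _ _ := rfl

/-- the inclusion for `P ≤ Q` -/
def SdS.incl {P Q : ObjectProperty C} (h : ∀ X, P X → Q X) : SdS P ⟶ SdS Q :=
  ⟨fun _ D => ⟨D.obj, D.property.mono h⟩, fun _ _ => rfl⟩

/-- the S-diagrams over `Jo I J` with entries in `P` and front part in `B` -/
def TQ (P B : ObjectProperty C) (I J : Type) [Preorder I] [Preorder J] :
    ObjectProperty (Ar (Jo I J) ⥤ C) := fun D =>
  SQ P (Jo I J) D ∧ ∀ x : Ar I, B (D.obj (Ar.map (Jo.inl I J) x))

theorem TQ.comp {P B : ObjectProperty C} {I J I' J' : Type} [Preorder I] [Preorder J] [Preorder I']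
    [Preorder J'] (f : I →o I') (g : J →o J') {D : Ar (Jo I' J') ⥤ C} (h : TQ P B I' J' D) :
    TQ P B I J (arF (Jo.map f g) ⋙ D) := ⟨h.1.comp _, fun x => h.2 (Ar.map f x)⟩

theorem arF_id (I : Type) [Preorder I] (D : Ar I ⥤ C) : arF (OrderHom.id : I →o I) ⋙ D = D := rfl

theorem arF_congr {I J : Type} [Preorder I] [Preorder J] {f g : I →o J} (h : f = g)
    (D : Ar J ⥤ C) : arF f ⋙ D = arF g ⋙ D := by
  subst h
  rfl

/-- for fixed `l`: the simplicial set `q ↦ TQ P B [l] [q]` -/
def TSl (P B : ObjectProperty C) (l : ℕ) : SSt.{max u v} where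
  obj q := (TQ P B (Fin (l + 1)) (Fin (q + 1))).FullSubcategory
  map g D := ⟨arF (Jo.map OrderHom.id g) ⋙ D.obj, D.property.comp _ _⟩
  map_id q D := by
    apply ObjectProperty.FullSubcategory.ext
    exact arF_congr (Jo.map_id _ _) D.obj
  map_comp f g D := by
    apply ObjectProperty.FullSubcategory.ext
    exact arF_congr (Jo.map_comp OrderHom.id f OrderHom.id g) D.obj

/-- for fixed `q`: the simplicial set `l ↦ TQ P B [l] [q]` -/
def TSq (P B : ObjectProperty C) (q : ℕ) : SSt.{max u v} where
  obj l := (TQ P B (Fin (l + 1)) (Fin (q + 1))).FullSubcategory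
  map f D := ⟨arF (Jo.map f OrderHom.id) ⋙ D.obj, D.property.comp _ _⟩
  map_id l D := by
    apply ObjectProperty.FullSubcategory.ext
    exact arF_congr (Jo.map_id _ _) D.obj
  map_comp f g D := by
    apply ObjectProperty.FullSubcategory.ext
    exact arF_congr (Jo.map_comp f OrderHom.id g OrderHom.id) D.obj

/-- the bisimplicial set `(l, q) ↦ TQ P B [l] [q]` -/
def TS (P B : ObjectProperty C) : SOb SSt.{max u v} where
  obj l := TSl P B l
  map f := ⟨fun q D => ⟨arF (Jo.map f OrderHom.id) ⋙ D.obj, D.property.comp _ _⟩, fun g D => by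
    apply ObjectProperty.FullSubcategory.ext
    exact ((arF_congr (Jo.map_comp f OrderHom.id OrderHom.id g) D.obj).symm.trans
      (arF_congr (Jo.map_comp OrderHom.id g f OrderHom.id) D.obj))⟩
  map_id l := by
    apply SSt.hom_ext
    intro q D
    apply ObjectProperty.FullSubcategory.ext
    exact arF_congr (Jo.map_id _ _) D.obj
  map_comp f g := by
    apply SSt.hom_ext
    intro q D
    apply ObjectProperty.FullSubcategory.ext
    exact arF_congr (Jo.map_comp f OrderHom.id g OrderHom.id) D.obj

/-- the same with the directions exchanged -/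
def TS' (P B : ObjectProperty C) : SOb SSt.{max u v} where
  obj q := TSq P B q
  map g := ⟨fun l D => ⟨arF (Jo.map OrderHom.id g) ⋙ D.obj, D.property.comp _ _⟩, fun f D => by
    apply ObjectProperty.FullSubcategory.ext
    exact ((arF_congr (Jo.map_comp OrderHom.id g f OrderHom.id) D.obj).symm.trans
      (arF_congr (Jo.map_comp f OrderHom.id OrderHom.id g) D.obj))⟩
  map_id l := by
    apply SSt.hom_ext
    intro q D
    apply ObjectProperty.FullSubcategory.ext
    exact arF_congr (Jo.map_id _ _) D.obj
  map_comp f g := by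
    apply SSt.hom_ext
    intro q D
    apply ObjectProperty.FullSubcategory.ext
    exact arF_congr (Jo.map_comp OrderHom.id f OrderHom.id g) D.obj

/-- the inclusion for `B ≤ B'` -/
def TSl.incl {P B B' : ObjectProperty C} (h : ∀ X, B X → B' X) (l : ℕ) :
    TSl P B l ⟶ TSl P B' l :=
  ⟨fun _ D => ⟨D.obj, D.property.1, fun x => h _ (D.property.2 x)⟩, fun _ _ => rfl⟩

/-- the projection to the front part -/
def TSl.front (P B : ObjectProperty C) (l : ℕ) : TSl P B l ⟶ SSt.const ((SdS B).obj l) :=
  ⟨fun q D => ⟨arF (Jo.inl _ _) ⋙ D.obj, fun x => D.property.2 x,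
    (D.property.1.comp (Jo.inl _ _)).2.1, (D.property.1.comp (Jo.inl _ _)).2.2⟩, fun _ _ => rfl⟩

/-- the projection to the back part -/
def TSl.back (P B : ObjectProperty C) (l : ℕ) : TSl P B l ⟶ SdS P :=
  ⟨fun q D => ⟨arF (Jo.inr _ _) ⋙ D.obj, D.property.1.comp _⟩, fun _ _ => rfl⟩

/-- the projection to the back part, for fixed `q` -/
def TSq.back (P B : ObjectProperty C) (q : ℕ) : TSq P B q ⟶ SSt.const ((SdS P).obj q) :=
  ⟨fun l D => ⟨arF (Jo.inr _ _) ⋙ D.obj, D.property.1.comp _⟩, fun _ _ => rfl⟩

/-! ### chains of epimorphisms over an object -/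

/-- `N ⟶ M` is epi with kernel in `P` -/
def FMo (P : ObjectProperty C) (M : C) : ObjectProperty (Over M) := fun N =>
  Epi N.hom ∧ P (kernel N.hom)

/-- epimorphisms with kernel in `B` -/
def FMw (B : ObjectProperty C) (M : C) : MorphismProperty (Over M) := fun _ _ f =>
  Epi f.left ∧ B (kernel f.left)

/-- the chains of epimorphisms `N_0 → … → N_l → M` with kernels of `N_i → M` in `P` and kernels of
`N_i → N_j` in `B` -/
def FM (P B : ObjectProperty C) (M : C) : SSt.{max u v} := NvP (Over M) (FMo P M) (FMw B M)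

/-- closed under isomorphisms -/
def IsoC (P : ObjectProperty C) : Prop := ∀ {X Y : C}, (X ≅ Y) → P X → P Y

/-- closed under extensions -/
def ExtC (P : ObjectProperty C) : Prop :=
  ∀ {X Y Z : C} (f : X ⟶ Y) (g : Y ⟶ Z), SES f g → P X → P Z → P Y

/-- closed under subobjects -/
def SubC (P : ObjectProperty C) : Prop := ∀ {X Y : C} (f : X ⟶ Y) [Mono f], P Y → P X

/-- closed under quotients -/
def QuoC (P : ObjectProperty C) : Prop := ∀ {X Y : C} (f : X ⟶ Y) [Epi f], P X → P Y

/-- contains the zero objects -/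
def ZerC (P : ObjectProperty C) : Prop := ∀ X : C, IsZero X → P X

/-- closed under sums -/
def SumC (P : ObjectProperty C) : Prop := ∀ X Y : C, P X → P Y → P (X ⊞ Y)

end

theorem SP_eq_SQ (E : ExCat.{u}) (I : Type) [Preorder I] : (E.SP I).Q = SQ E.P I := rfl

end Pool.Agent.KQ
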