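import Pool.Agent.KQ.StEx

/-!
# KQ, module Equi: a fully faithful, essentially surjective exact functor which reflects conflations
is an equivalence of exact categories
-/

set_option autoImplicit false
set_option linter.unusedVariables false

noncomputable section

namespace Pool.Agent.KQ

open CategoryTheory CategoryTheory.Limits Function

universe u

theorem thm_Equi : St_Equi.{u} := by
  intro E E' F hb hs hr
  have hfull : F.F.Full := ⟨fun f => by
    obtain ⟨g, hg⟩ := (hb _ _).2 f
    exact ⟨g, hg⟩⟩
  have hfaith : F.F.Faithful := ⟨fun h => (hb _ _).1 h⟩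
  have hess : F.F.EssSurj := ⟨fun Y => hs Y⟩
  have heq : F.F.IsEquivalence := {}
  have hadd : F.F.Additive := ⟨fun {X Y f g} => F.add f g⟩
  let e := F.F.asEquivalence
  have hfe : e.functor.Additive := hadd
  have hie : e.inverse.Additive := inferInstance
  refine ⟨⟨F, ⟨e.inverse, fun f g => e.inverse.map_add, fun {X Y Z} f g h => ?_⟩, e.unitIso,
    e.counitIso⟩, rfl⟩
  apply hr
  refine ses_of_iso (show SES f.hom g.hom from h) (E'.P.ι.mapIso (e.counitIso.app X).symm)
    (E'.P.ι.mapIso (e.counitIso.app Y).symm) (E'.P.ι.mapIso (e.counitIso.app Z).symm) ?_ ?_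
  · exact congrArg InducedCategory.Hom.hom (e.counitIso.inv.naturality f).symm
  · exact congrArg InducedCategory.Hom.hom (e.counitIso.inv.naturality g).symm

end Pool.Agent.KQ
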