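import Pool.Agent.KQ.BD
import Pool.Agent.KQ.StSG

/-!
# KQ: fibration sequences of simplicial groups, in a range

`SGp.Fib c j f`: `f : G ⟶ H` is onto, `j : A ⟶ G` maps to the kernel of `f`, and `A → ker f` is
`c`-connected. Long exact sequence; rows ⇒ diagonal.
-/

set_option autoImplicit false

namespace Pool.Agent.KQ

open CategoryTheory Function

universe u v w

variable {A G H : SGp.{u}}

/-- a homomorphism with trivial composition, as a homomorphism to the kernel -/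
def SGp.kerLift (j : A ⟶ G) (f : G ⟶ H) (h : ∀ n x, f.app n (j.app n x) = 1) :
    A ⟶ SGp.ker f :=
  ⟨fun n => (j.app n).codRestrict _ (h n), fun θ x => Subtype.ext (j.nat θ x)⟩

theorem SGp.kerLift_ι (j : A ⟶ G) (f : G ⟶ H) (h : ∀ n x, f.app n (j.app n x) = 1) :
    SGp.kerLift j f h ≫ SGp.kerι f = j := rfl

/-- fibration sequences in a range -/
structure SGp.Fib (c : ℕ) (j : A ⟶ G) (f : G ⟶ H) : Prop where
  surj : ∀ n, Surjective (f.app n)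
  comp : ∀ n x, f.app n (j.app n x) = 1
  conn : SGp.Conn c (SGp.kerLift j f comp)

/-- the boundary map of a surjection -/
noncomputable def SGp.bdK (f : G ⟶ H) (hf : ∀ n, Surjective (f.app n)) (n : ℕ) :
    H.Pi (n + 1) →* (SGp.ker f).Pi n := (thm_Bd f hf n).choose

theorem SGp.bdK_isBd (f : G ⟶ H) (hf : ∀ n, Surjective (f.app n)) (n : ℕ) :
    SGp.IsBd f n (SGp.bdK f hf n) := (thm_Bd f hf n).choose_spec.1

theorem SGp.bdK_exH (f : G ⟶ H) (hf : ∀ n, Surjective (f.app n)) (n : ℕ) (y : H.Pi (n + 1)) :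
    SGp.bdK f hf n y = 1 ↔ ∃ x, SGp.PiMap f (n + 1) x = y := (thm_Bd f hf n).choose_spec.2.1 y

theorem SGp.bdK_exK (f : G ⟶ H) (hf : ∀ n, Surjective (f.app n)) (n : ℕ)
    (z : (SGp.ker f).Pi n) : SGp.PiMap (SGp.kerι f) n z = 1 ↔ ∃ y, SGp.bdK f hf n y = z :=
  (thm_Bd f hf n).choose_spec.2.2 z

/-- the inverse of the comparison on `π_n`, `n < c` -/
noncomputable def SGp.Fib.inv {c : ℕ} {j : A ⟶ G} {f : G ⟶ H} (h : SGp.Fib c j f) {n : ℕ}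
    (hn : n < c) : (SGp.ker f).Pi n ≃* A.Pi n :=
  (MulEquiv.ofBijective (SGp.PiMap (SGp.kerLift j f h.comp) n) (h.conn.1 n hn)).symm

theorem SGp.Fib.inv_spec {c : ℕ} {j : A ⟶ G} {f : G ⟶ H} (h : SGp.Fib c j f) {n : ℕ}
    (hn : n < c) (z : (SGp.ker f).Pi n) :
    SGp.PiMap (SGp.kerLift j f h.comp) n (h.inv hn z) = z :=
  MulEquiv.apply_symm_apply
    (MulEquiv.ofBijective (SGp.PiMap (SGp.kerLift j f h.comp) n) (h.conn.1 n hn)) z

theorem SGp.Fib.inv_spec' {c : ℕ} {j : A ⟶ G} {f : G ⟶ H} (h : SGp.Fib c j f) {n : ℕ}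
    (hn : n < c) (a : A.Pi n) :
    h.inv hn (SGp.PiMap (SGp.kerLift j f h.comp) n a) = a :=
  MulEquiv.symm_apply_apply
    (MulEquiv.ofBijective (SGp.PiMap (SGp.kerLift j f h.comp) n) (h.conn.1 n hn)) a

/-- the boundary map of a fibration sequence -/
noncomputable def SGp.Fib.bd {c : ℕ} {j : A ⟶ G} {f : G ⟶ H} (h : SGp.Fib c j f) {n : ℕ}
    (hn : n < c) : H.Pi (n + 1) →* A.Pi n :=
  (h.inv hn).toMonoidHom.comp (SGp.bdK f h.surj n)

theorem SGp.Fib.bd_spec {c : ℕ} {j : A ⟶ G} {f : G ⟶ H} (h : SGp.Fib c j f) {n : ℕ}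
    (hn : n < c) (y : H.Pi (n + 1)) :
    SGp.PiMap (SGp.kerLift j f h.comp) n (h.bd hn y) = SGp.bdK f h.surj n y :=
  h.inv_spec hn _

theorem SGp.PiMap_factor {c : ℕ} {j : A ⟶ G} {f : G ⟶ H} (h : SGp.Fib c j f) (n : ℕ)
    (a : A.Pi n) : SGp.PiMap j n a =
      SGp.PiMap (SGp.kerι f) n (SGp.PiMap (SGp.kerLift j f h.comp) n a) := by
  rw [← SGp.PiMap_comp]
  rfl

/-- exactness at `G`, for `n ≤ c` -/
theorem SGp.Fib.exG {c : ℕ} {j : A ⟶ G} {f : G ⟶ H} (h : SGp.Fib c j f) {n : ℕ} (hn : n ≤ c)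
    (x : G.Pi n) : SGp.PiMap f n x = 1 ↔ ∃ a, SGp.PiMap j n a = x := by
  have hs : Surjective (SGp.PiMap (SGp.kerLift j f h.comp) n) := by
    rcases hn.lt_or_eq with h1 | rfl
    · exact (h.conn.1 n h1).2
    · exact h.conn.2
  rw [(thm_Bd0 f h.surj).1 n x]
  constructor
  · rintro ⟨z, rfl⟩
    obtain ⟨a, rfl⟩ := hs z
    exact ⟨a, SGp.PiMap_factor h n a⟩
  · rintro ⟨a, rfl⟩
    exact ⟨_, (SGp.PiMap_factor h n a).symm⟩

/-- exactness at `H` -/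
theorem SGp.Fib.exH {c : ℕ} {j : A ⟶ G} {f : G ⟶ H} (h : SGp.Fib c j f) {n : ℕ} (hn : n < c)
    (y : H.Pi (n + 1)) : h.bd hn y = 1 ↔ ∃ x, SGp.PiMap f (n + 1) x = y := by
  rw [← SGp.bdK_exH f h.surj n y]
  exact (map_eq_one_iff (h.inv hn) (h.inv hn).injective)

/-- exactness at `A` -/
theorem SGp.Fib.exA {c : ℕ} {j : A ⟶ G} {f : G ⟶ H} (h : SGp.Fib c j f) {n : ℕ} (hn : n < c)
    (a : A.Pi n) : SGp.PiMap j n a = 1 ↔ ∃ y, h.bd hn y = a := by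
  rw [SGp.PiMap_factor h, SGp.bdK_exK f h.surj n]
  constructor
  · rintro ⟨y, hy⟩
    exact ⟨y, (congrArg (h.inv hn) hy).trans (h.inv_spec' hn a)⟩
  · rintro ⟨y, rfl⟩
    exact ⟨y, (h.bd_spec hn y).symm⟩

/-- surjectivity in degree `0` -/
theorem SGp.Fib.surj0 {c : ℕ} {j : A ⟶ G} {f : G ⟶ H} (h : SGp.Fib c j f) :
    Surjective (SGp.PiMap f 0) := (thm_Bd0 f h.surj).2

/-- naturality of the boundary map -/
theorem SGp.Fib.bd_nat {A' G' H' : SGp.{u}} {c c' : ℕ} {j : A ⟶ G} {f : G ⟶ H}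
    (h : SGp.Fib c j f) {j' : A' ⟶ G'} {f' : G' ⟶ H'} (h' : SGp.Fib c' j' f') (a : A ⟶ A')
    (g : G ⟶ G') (b : H ⟶ H') (h1 : j ≫ g = a ≫ j') (h2 : f ≫ b = g ≫ f') {n : ℕ} (hn : n < c)
    (hn' : n < c') (y : H.Pi (n + 1)) :
    h'.bd hn' (SGp.PiMap b (n + 1) y) = SGp.PiMap a n (h.bd hn y) := by
  have e1 : SGp.kerLift j f h.comp ≫ SGp.kerMap g b h2 = a ≫ SGp.kerLift j' f' h'.comp :=
    SGp.hom_ext fun n x => Subtype.ext (congrArg (fun e : A ⟶ G' => e.app n x) h1)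
  apply (h'.conn.1 n hn').1
  have a1 := h'.bd_spec hn' (SGp.PiMap b (n + 1) y)
  have a2 := thm_BdNat g b h2 n _ _ h.surj (SGp.bdK_isBd f h.surj n)
    (SGp.bdK_isBd f' h'.surj n) y
  have a3 : SGp.PiMap (SGp.kerLift j' f' h'.comp) n (SGp.PiMap a n (h.bd hn y)) =
      SGp.PiMap (SGp.kerMap g b h2) n
        (SGp.PiMap (SGp.kerLift j f h.comp) n (h.bd hn y)) := by
    rw [← SGp.PiMap_comp, ← SGp.PiMap_comp, e1]
  have a4 := congrArg (SGp.PiMap (SGp.kerMap g b h2) n) (h.bd_spec hn y)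
  exact a1.trans (a2.trans (a4.symm.trans a3.symm))

/-- a smaller range -/
theorem SGp.Conn.mono {c c' : ℕ} (hc : c' ≤ c) {f : G ⟶ H} (h : SGp.Conn c f) :
    SGp.Conn c' f := by
  refine ⟨fun j hj => h.1 j (hj.trans_le hc), ?_⟩
  rcases hc.lt_or_eq with h1 | rfl
  · exact (h.1 c' h1).2
  · exact h.2

/-- a smaller range -/
theorem SGp.Fib.mono {c c' : ℕ} (hc : c' ≤ c) {j : A ⟶ G} {f : G ⟶ H} (h : SGp.Fib c j f) :
    SGp.Fib c' j f := ⟨h.surj, h.comp, h.conn.mono hc⟩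

theorem SGp.Weq.conn {f : G ⟶ H} (h : SGp.Weq f) (c : ℕ) : SGp.Conn c f :=
  ⟨fun j _ => h j, (h c).2⟩

theorem SGp.weq_of_conn {f : G ⟶ H} (h : ∀ c, SGp.Conn c f) : SGp.Weq f :=
  fun j => (h (j + 1)).1 j (Nat.lt_succ_self j)

theorem SGp.Conn.comp {K : SGp.{u}} {c : ℕ} {f : G ⟶ H} {g : H ⟶ K} (hf : SGp.Conn c f)
    (hg : SGp.Conn c g) : SGp.Conn c (f ≫ g) := by
  have e : ∀ j, (SGp.PiMap (f ≫ g) j : G.Pi j → K.Pi j) = SGp.PiMap g j ∘ SGp.PiMap f j :=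
    fun j => funext fun x => SGp.PiMap_comp f g j x
  refine ⟨fun j hj => ?_, ?_⟩
  · rw [e]
    exact (hg.1 j hj).comp (hf.1 j hj)
  · rw [e]
    exact hg.2.comp hf.2

/-- an isomorphism of simplicial groups is bijective on homotopy groups -/
theorem SGp.weq_of_iso (e : G ≅ H) : SGp.Weq e.hom := by
  intro j
  refine bijective_iff_has_inverse.2 ⟨SGp.PiMap e.inv j, fun x => ?_, fun x => ?_⟩
  · rw [← SGp.PiMap_comp, e.hom_inv_id, SGp.PiMap_id]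
  · rw [← SGp.PiMap_comp, e.inv_hom_id, SGp.PiMap_id]

/-- the inverse of `kerDiag` -/
def kerDiagInv {G H : SOb SGp.{u}} (f : G ⟶ H) : SGp.ker (SGp.diagF.map f) ⟶ SGp.diag (kerB f) :=
  ⟨fun _ => MonoidHom.id _, fun _ _ => rfl⟩

/-- `kerDiag` is an isomorphism -/
def kerDiagIso {G H : SOb SGp.{u}} (f : G ⟶ H) :
    SGp.diag (kerB f) ≅ SGp.ker (SGp.diagF.map f) := ⟨kerDiag f, kerDiagInv f, rfl, rfl⟩

/-- Rows ⇒ diagonal: if all rows are fibration sequences, then so is the diagonal. -/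
theorem SGp.Fib.diag (hReal : St_Real.{u}) {c : ℕ} {A G H : SOb SGp.{u}} (j : A ⟶ G)
    (f : G ⟶ H) (h : ∀ m, SGp.Fib c (j.app m) (f.app m)) :
    SGp.Fib c (SGp.diagF.map j) (SGp.diagF.map f) := by
  have hc : ∀ n x, (SGp.diagF.map f).app n ((SGp.diagF.map j).app n x) = 1 :=
    fun n x => (h n).comp n x
  let l : A ⟶ kerB f := ⟨fun m => SGp.kerLift (j.app m) (f.app m) (h m).comp, fun {m n} θ =>
    SGp.hom_ext fun k x => Subtype.ext
      (congrArg (fun e : A.obj n ⟶ G.obj m => e.app k x) (j.nat θ))⟩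
  have h1 : SGp.Conn c (SGp.diagF.map l) := hReal c l fun m => (h m).conn
  have h2 : SGp.Conn c (SGp.diagF.map l ≫ (kerDiagIso f).hom) :=
    h1.comp ((SGp.weq_of_iso (kerDiagIso f)).conn c)
  have h3 : SGp.diagF.map l ≫ (kerDiagIso f).hom =
      SGp.kerLift (SGp.diagF.map j) (SGp.diagF.map f) hc :=
    SGp.hom_ext fun n x => Subtype.ext rfl
  rw [h3] at h2
  exact ⟨fun n => (h n).surj n, hc, h2⟩

/-- a split surjection with a comparison map -/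
theorem SGp.Fib.of_split {c : ℕ} {j : A ⟶ G} {f : G ⟶ H} (s : H ⟶ G) (hs : s ≫ f = 𝟙 H)
    (h1 : ∀ n x, f.app n (j.app n x) = 1)
    (h2 : ∀ n < c, ∀ a b : A.Pi n, SGp.PiMap j n a = SGp.PiMap j n b → a = b)
    (h3 : ∀ n ≤ c, ∀ x : G.Pi n, SGp.PiMap f n x = 1 → ∃ a, SGp.PiMap j n a = x) :
    SGp.Fib c j f := by
  have hf : ∀ n, Surjective (f.app n) := fun n y =>
    ⟨s.app n y, congrArg (fun e : H ⟶ H => e.app n y) hs⟩
  have e : ∀ n (a : A.Pi n), SGp.PiMap j n a =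
      SGp.PiMap (SGp.kerι f) n (SGp.PiMap (SGp.kerLift j f h1) n a) := fun n a => by
    rw [← SGp.PiMap_comp]
    rfl
  have h4 : ∀ n ≤ c, Surjective (SGp.PiMap (SGp.kerLift j f h1) n) := fun n hn z => by
    have h5 : SGp.PiMap f n (SGp.PiMap (SGp.kerι f) n z) = 1 :=
      ((thm_Split f s hs n).2 _).2 ⟨z, rfl⟩
    obtain ⟨a, ha⟩ := h3 n hn _ h5
    refine ⟨a, (thm_Split f s hs n).1 ?_⟩
    rw [← e, ha]
  refine ⟨hf, h1, fun n hn => ⟨fun a b hab => h2 n hn a b ?_, h4 n hn.le⟩, h4 c le_rfl⟩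
  rw [e, e, hab]

end Pool.Agent.KQ
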