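import Pool.Agent.KQ.Core
import Pool.Agent.KQ.DKn
import Pool.Agent.KQ.StEx
import Pool.Agent.KQ.NatIso

/-!
# KQ: fibration sequences of simplicial exact categories

`LData A R Q j q`: `j : SOb.const A ⟶ R`, `q : R ⟶ Q`, in every degree `R_p` is `A × Q_p` for the
`F`-models in the stable range. Then `DKs k` gives a fibration sequence in the range `2k - 1`.
-/

set_option autoImplicit false
set_option linter.unusedVariables false

noncomputable section

namespace Pool.Agent.KQ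

open CategoryTheory CategoryTheory.Limits Function

universe u

/-! ### products -/

/-- the homotopy groups of a product: an element is determined by its components -/
theorem SGp.prod_pi_ext {X Y : SGp.{u}} {G : SGp.{u}} (f : G ⟶ X) (g : G ⟶ Y) (n : ℕ)
    (x : G.Pi n) (h1 : SGp.PiMap f n x = 1) (h2 : SGp.PiMap g n x = 1) :
    SGp.PiMap (SGp.lift f g) n x = 1 := by
  obtain ⟨x, rfl⟩ := G.cls_surj n x
  rw [SGp.PiMap_cls, SGp.cls_eq_one, SGp.mem_B] at h1 h2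
  rw [SGp.PiMap_cls, SGp.cls_eq_one, SGp.mem_B]
  obtain ⟨a, ha, ha'⟩ := h1
  obtain ⟨b, hb, hb'⟩ := h2
  exact ⟨(a, b), fun i => Prod.ext (ha i) (hb i), Prod.ext ha' hb'⟩

theorem SGp.PiMap_one {G H : SGp.{u}} (f : G ⟶ H) (h : ∀ n x, f.app n x = 1) (n : ℕ)
    (x : G.Pi n) : SGp.PiMap f n x = 1 := by
  obtain ⟨x, rfl⟩ := G.cls_surj n x
  rw [SGp.PiMap_cls, SGp.cls_eq_one]
  change f.app n x.1 ∈ _
  rw [h]
  exact one_mem _

/-- an object which is a product in the stable range -/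
theorem fib_of_prod {A G H : SGp.{u}} {d : ℕ} (j : A ⟶ G) (f : G ⟶ H) (s : H ⟶ G) (t : G ⟶ A)
    (hs : s ≫ f = 𝟙 H) (ht : j ≫ t = 𝟙 A) (h1 : ∀ n x, f.app n (j.app n x) = 1)
    (hc : SGp.Conn d (SGp.lift t f)) (c : ℕ) (hcd : c < d) : SGp.Fib c j f := by
  have e1 : ∀ n (a : A.Pi n), SGp.PiMap t n (SGp.PiMap j n a) = a := fun n a => by
    rw [← SGp.PiMap_comp, ht, SGp.PiMap_id]
  have e2 : ∀ n (a : A.Pi n), SGp.PiMap f n (SGp.PiMap j n a) = 1 := fun n a => by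
    rw [← SGp.PiMap_comp]
    exact SGp.PiMap_one _ h1 n a
  refine SGp.Fib.of_split s hs h1 (fun n hn a b hab => ?_) fun n hn x hx => ?_
  · rw [← e1 n a, hab, e1]
  · refine ⟨SGp.PiMap t n x, ?_⟩
    have h2 : SGp.PiMap (SGp.lift t f) n
        (SGp.PiMap j n (SGp.PiMap t n x) * x⁻¹) = 1 := by
      refine SGp.prod_pi_ext t f n _ ?_ ?_
      · rw [map_mul, map_inv, e1, mul_inv_cancel]
      · rw [map_mul, map_inv, e2, hx, one_mul, inv_one]
    have h3 := (hc.1 n (by omega)).1 (h2.trans (map_one _).symm)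
    exact mul_inv_eq_one.1 h3

/-- the boundary map of a fibration sequence with trivial total space -/
theorem SGp.Fib.bd_bij {A G H : SGp.{u}} {c : ℕ} {j : A ⟶ G} {f : G ⟶ H} (h : SGp.Fib c j f)
    {n : ℕ} (hn : n < c) (h1 : ∀ x : G.Pi n, x = 1) (h2 : ∀ x : G.Pi (n + 1), x = 1) :
    Bijective (h.bd hn) := by
  refine ⟨?_, fun a => (h.exA hn a).1 (h1 _)⟩
  rw [injective_iff_map_eq_one]
  intro y hy
  obtain ⟨x, rfl⟩ := (h.exH hn y).1 hy
  rw [h2 x, map_one]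

/-! ### fibration sequences of simplicial exact categories -/

/-- the data in every degree -/
structure LData {A : ExCat.{u}} {R Q : SOb ExCat.{u}} (j : SOb.const A ⟶ R) (q : R ⟶ Q) :
    Prop where
  zero : ∀ p, ExFun.IsZ ((show A ⟶ R.obj p from j.app p) ≫ q.app p)
  sec : ∀ p, ∃ s : Q.obj p ⟶ R.obj p, s ≫ q.app p = 𝟙 _
  ret : ∀ p, ∃ t : R.obj p ⟶ A, (show A ⟶ R.obj p from j.app p) ≫ t = 𝟙 _ ∧
    ∀ k, 1 ≤ k → SGp.Conn (2 * k) (SGp.lift ((DK k).map t) ((DK k).map (q.app p)))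

/-- the fibration sequence -/
theorem LData.fib (hZ : St_Zero.{u}) {A : ExCat.{u}} {R Q : SOb ExCat.{u}}
    {j : SOb.const A ⟶ R} {q : R ⟶ Q} (L : LData j q) (k c : ℕ) (hk : 1 ≤ k) (hc : c < 2 * k) :
    SGp.Fib c ((DKs k).map j) ((DKs k).map q) := by
  refine SGp.Fib.diagF ((SOb.mapF (DK k)).map j) ((SOb.mapF (DK k)).map q) fun p => ?_
  obtain ⟨s, hs⟩ := L.sec p
  obtain ⟨t, ht, hc2⟩ := L.ret p
  refine fib_of_prod (d := 2 * k) ((DK k).map (j.app p)) ((DK k).map (q.app p)) ((DK k).map s)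
    ((DK k).map t) ?_ ?_ (fun n x => ?_) (hc2 k hk) c hc
  · rw [← (DK k).map_comp, hs, (DK k).map_id]
  · exact ((DK k).map_comp _ _).symm.trans ((congrArg (DK k).map ht).trans ((DK k).map_id _))
  · have h1 := hZ k ((show A ⟶ R.obj p from j.app p) ≫ q.app p) (L.zero p) n x
    rw [(DK k).map_comp] at h1
    exact h1

end Pool.Agent.KQ
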