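import Pool.Agent.KQ.KnA

/-!
# KQ: stabilisation and the exact sequence of a relative S-construction

`RelC`: functorial relative constructions `R E A` (instances: `relS`, `relT`). `RelC.stab`:
`π_(i+1) (DK (k+1) E) ≅ π_i (DK k E)`. `RelC.Kj`, `RelC.Kbd`: the long exact sequence
`K_n(A) → K_n(E) → K_n(R E A) → K_(n-1)(A) → K_(n-1)(E)`.
-/

set_option autoImplicit false
set_option linter.unusedVariables false

noncomputable section

namespace Pool.Agent.KQ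

open CategoryTheory CategoryTheory.Limits Function

universe u

/-- functorial relative constructions -/
structure RelC where
  R : ∀ (E : ExCat.{u}), SubP E → SOb ExCat.{u}
  RF : ∀ {E E' : ExCat.{u}} (F : ExFun E E') {A : SubP E} {A' : SubP E'}, F.Maps A A' →
    (R E A ⟶ R E' A')
  j : ∀ (E : ExCat.{u}) (A : SubP E), SOb.const (E.S (Fin 2)) ⟶ R E A
  q : ∀ (E : ExCat.{u}) (A : SubP E), R E A ⟶ Sd.obj (E.sub A)
  j_nat : ∀ {E E' : ExCat.{u}} (F : ExFun E E') {A : SubP E} {A' : SubP E'}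
    (h : F.Maps A A'), j E A ≫ RF F h = SOb.constF.map (F.S (Fin 2)) ≫ j E' A'
  q_nat : ∀ {E E' : ExCat.{u}} (F : ExFun E E') {A : SubP E} {A' : SubP E'}
    (h : F.Maps A A'), RF F h ≫ q E' A' = q E A ≫ Sd.map (F.sub h)
  fib : ∀ (E : ExCat.{u}) (A : SubP E) (k c : ℕ), 1 ≤ k → c < 2 * k →
    SGp.Fib c ((DKs k).map (j E A)) ((DKs k).map (q E A))
  con : ∀ (E : ExCat.{u}) (k i : ℕ) (x : ((DKs k).obj (R E (SubP.top E))).Pi i), x = 1
  ev : ∀ (E : ExCat.{u}) (k : ℕ), 1 ≤ k → SGp.Weq ((DK k).map (X := E.S (Fin 2)) (Y := E) E.ev1)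

variable (T : RelC.{u})

namespace RelC

/-- the identification `π_i (DKs k (const (S_1 E))) ≅ π_i (DK k E)` -/
def evE (E : ExCat.{u}) (k : ℕ) (hk : 1 ≤ k) (i : ℕ) :
    ((DKs k).obj (SOb.const (E.S (Fin 2)))).Pi i ≃* ((DK k).obj E).Pi i :=
  (SGp.PiEquiv (cstK k (E.S (Fin 2))) i).symm.trans
    (MulEquiv.ofBijective (SGp.PiMap ((DK k).map (X := E.S (Fin 2)) (Y := E) E.ev1) i)
      (T.ev E k hk i))

theorem evE_nat {E E' : ExCat.{u}} (F : E ⟶ E') (k : ℕ) (hk : 1 ≤ k) (i : ℕ)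
    (x : ((DKs k).obj (SOb.const (E.S (Fin 2)))).Pi i) :
    T.evE E' k hk i (SGp.PiMap ((DKs k).map (SOb.constF.map ((SF (Fin 2)).map F))) i x) =
      SGp.PiMap ((DK k).map F) i (T.evE E k hk i x) := by
  obtain ⟨y, rfl⟩ := (SGp.PiEquiv (cstK k (E.S (Fin 2))) i).surjective x
  have h1 : SGp.PiMap ((DKs k).map (SOb.constF.map ((SF (Fin 2)).map F))) i
      (SGp.PiEquiv (cstK k (E.S (Fin 2))) i y) = SGp.PiEquiv (cstK k (E'.S (Fin 2))) i
      (SGp.PiMap ((DK k).map ((SF (Fin 2)).map F)) i y) :=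
    (SGp.PiMap_sq ((extConst (DK k)).hom.naturality ((SF (Fin 2)).map F)) i y).symm
  rw [h1]
  have h2 : T.evE E' k hk i (SGp.PiEquiv (cstK k (E'.S (Fin 2))) i
      (SGp.PiMap ((DK k).map ((SF (Fin 2)).map F)) i y)) =
      SGp.PiMap ((DK k).map (evF.app E')) i
        (SGp.PiMap ((DK k).map ((SF (Fin 2)).map F)) i y) := by
    change SGp.PiMap _ i ((SGp.PiEquiv (cstK k (E'.S (Fin 2))) i).symm _) = _
    rw [MulEquiv.symm_apply_apply]
    rfl
  have h3 : T.evE E k hk i (SGp.PiEquiv (cstK k (E.S (Fin 2))) i y) =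
      SGp.PiMap ((DK k).map (evF.app E)) i y := by
    change SGp.PiMap _ i ((SGp.PiEquiv (cstK k (E.S (Fin 2))) i).symm _) = _
    rw [MulEquiv.symm_apply_apply]
    rfl
  rw [h2, h3]
  refine SGp.PiMap_sq ?_ i y
  exact ((DK k).map_comp ((SF (Fin 2)).map F) (evF.app E')).symm.trans
    ((congrArg (DK k).map (evF.naturality F)).trans ((DK k).map_comp (evF.app E) F))

/-- the boundary map, with values in `DK k E` -/
def bd0 (E : ExCat.{u}) (A : SubP E) (k : ℕ) (hk : 1 ≤ k) (i : ℕ) (hi : i + 1 < 2 * k) :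
    ((DK (k + 1)).obj (E.sub A)).Pi (i + 1) →* ((DK k).obj E).Pi i :=
  (T.evE E k hk i).toMonoidHom.comp ((T.fib E A k (i + 1) hk hi).bd (Nat.lt_succ_self i))

/-- naturality -/
theorem bd0_nat {E E' : ExCat.{u}} (F : E ⟶ E') {A : SubP E} {A' : SubP E'}
    (h : ExFun.Maps F A A') (k : ℕ) (hk : 1 ≤ k) (i : ℕ) (hi : i + 1 < 2 * k)
    (x : ((DK (k + 1)).obj (E.sub A)).Pi (i + 1)) :
    T.bd0 E' A' k hk i hi (SGp.PiMap ((DK (k + 1)).map (X := E.sub A) (Y := E'.sub A')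
      (ExFun.sub F h)) (i + 1) x) = SGp.PiMap ((DK k).map F) i (T.bd0 E A k hk i hi x) := by
  change T.evE E' k hk i ((T.fib E' A' k (i + 1) hk hi).bd (Nat.lt_succ_self i) _) =
    SGp.PiMap ((DK k).map F) i (T.evE E k hk i _)
  rw [← T.evE_nat F k hk i]
  congr 1
  refine (T.fib E A k (i + 1) hk hi).bd_nat (T.fib E' A' k (i + 1) hk hi)
    ((DKs k).map (SOb.constF.map ((SF (Fin 2)).map F))) ((DKs k).map (T.RF F h))
    ((DKs k).map (Sd.map (X := E.sub A) (Y := E'.sub A') (ExFun.sub F h))) ?_ ?_ _ _ x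
  · exact ((DKs k).map_comp _ _).symm.trans
      ((congrArg (DKs k).map (T.j_nat F h)).trans ((DKs k).map_comp _ _))
  · exact ((DKs k).map_comp _ _).symm.trans
      ((congrArg (DKs k).map (T.q_nat F h).symm).trans ((DKs k).map_comp _ _))

/-- stabilisation -/
def stab (E : ExCat.{u}) (k : ℕ) (hk : 1 ≤ k) (i : ℕ) (hi : i + 1 < 2 * k) :
    ((DK (k + 1)).obj E).Pi (i + 1) →* ((DK k).obj E).Pi i :=
  T.bd0 E (SubP.top E) k hk i hi

theorem stab_nat {E E' : ExCat.{u}} (F : E ⟶ E') (k : ℕ) (hk : 1 ≤ k) (i : ℕ)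
    (hi : i + 1 < 2 * k) (x : ((DK (k + 1)).obj E).Pi (i + 1)) :
    T.stab E' k hk i hi (SGp.PiMap ((DK (k + 1)).map F) (i + 1) x) =
      SGp.PiMap ((DK k).map F) i (T.stab E k hk i hi x) :=
  T.bd0_nat F (A := SubP.top E) (A' := SubP.top E') (ExFun.maps_top F _) k hk i hi x

theorem bd0_eq (E : ExCat.{u}) (A : SubP E) (k : ℕ) (hk : 1 ≤ k) (i : ℕ) (hi : i + 1 < 2 * k)
    (x : ((DK (k + 1)).obj (E.sub A)).Pi (i + 1)) :
    T.bd0 E A k hk i hi x = T.stab E k hk i hi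
      (SGp.PiMap ((DK (k + 1)).map (X := E.sub A) (Y := E) (E.incl' A)) (i + 1) x) := by
  have h := T.bd0_nat (𝟙 E) (A := A) (A' := SubP.top E) (ExFun.maps_top (𝟙 E) _) k hk i hi x
  rw [(DK k).map_id, SGp.PiMap_id] at h
  exact h.symm

theorem stab_bij (E : ExCat.{u}) (k : ℕ) (hk : 1 ≤ k) (i : ℕ) (hi : i + 1 < 2 * k) :
    Bijective (T.stab E k hk i hi) := by
  exact (T.evE E k hk i).bijective.comp
    ((T.fib E (SubP.top E) k (i + 1) hk hi).bd_bij (Nat.lt_succ_self i) (T.con E k i)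
      (T.con E k (i + 1)))

/-- stabilisation, as an equivalence -/
def stabE (E : ExCat.{u}) (k : ℕ) (hk : 1 ≤ k) (i : ℕ) (hi : i + 1 < 2 * k) :
    ((DK (k + 1)).obj E).Pi (i + 1) ≃* ((DK k).obj E).Pi i :=
  MulEquiv.ofBijective (T.stab E k hk i hi) (T.stab_bij E k hk i hi)

/-- stabilisation twice -/
def stab2 (n : ℕ) (E : ExCat.{u}) : ((DK (n + 5)).obj E).Pi (2 * n + 2 + 1 + 1 + 1) ≃*
    ((DK (n + 3)).obj E).Pi (2 * n + 2 + 1) :=
  (T.stabE E (n + 4) (by omega) (2 * n + 2 + 1 + 1) (by omega)).trans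
    (T.stabE E (n + 3) (by omega) (2 * n + 2 + 1) (by omega))

theorem stab2_nat (n : ℕ) {E E' : ExCat.{u}} (F : E ⟶ E')
    (x : ((DK (n + 5)).obj E).Pi (2 * n + 2 + 1 + 1 + 1)) :
    T.stab2 n E' (SGp.PiMap ((DK (n + 5)).map F) (2 * n + 2 + 1 + 1 + 1) x) =
      SGp.PiMap ((DK (n + 3)).map F) (2 * n + 2 + 1) (T.stab2 n E x) := by
  have h1 := T.stab_nat F (n + 4) (by omega) (2 * n + 2 + 1 + 1) (by omega) x
  have h2 := T.stab_nat F (n + 3) (by omega) (2 * n + 2 + 1) (by omega)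
    (T.stab E (n + 4) (by omega) (2 * n + 2 + 1 + 1) (by omega) x)
  exact (congrArg (T.stab E' (n + 3) (by omega) (2 * n + 2 + 1) (by omega)) h1).trans h2

theorem stab2_incl (n : ℕ) (E : ExCat.{u}) (A : SubP E)
    (x : ((DK (n + 5)).obj (E.sub A)).Pi (2 * n + 2 + 1 + 1 + 1)) :
    SGp.PiMap ((DK (n + 3)).map (X := E.sub A) (Y := E) (E.incl' A)) (2 * n + 2 + 1)
      (T.stab2 n (E.sub A) x) = T.stab E (n + 3) (by omega) (2 * n + 2 + 1) (by omega)
        (T.bd0 E A (n + 4) (by omega) (2 * n + 2 + 1 + 1) (by omega) x) := by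
  rw [← T.stab2_nat, T.bd0_eq]
  rfl

end RelC

end Pool.Agent.KQ
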