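import Pool.Agent.KQ.KnB

/-!
# KQ: the exact sequence of a relative S-construction

`K_(n+1)(E) → K_(n+1)(R E A) → K_n(A) → K_n(E) → K_n(R E A)`, exact, natural; `K_0(E) → K_0(R E A)` is
onto.
-/

set_option autoImplicit false
set_option linter.unusedVariables false

noncomputable section

namespace Pool.Agent.KQ

open CategoryTheory CategoryTheory.Limits Function

universe u

variable (T : RelC.{u})

namespace RelC

/-- `K_n(E) → K_n(R E A)` -/
def Kj (n : ℕ) (E : ExCat.{u}) (A : SubP E) : Kn n E →+ Ks n (T.R E A) :=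
  MonoidHom.toAdditive ((SGp.PiMap ((DKs (n + 3)).map (T.j E A)) (2 * n + 2 + 1)).comp
    (T.evE E (n + 3) (by omega) (2 * n + 2 + 1)).symm.toMonoidHom)

/-- `K_(n+1)(R E A) → K_n(A)` -/
def Kbd (n : ℕ) (E : ExCat.{u}) (A : SubP E) : Ks (n + 1) (T.R E A) →+ Kn n (E.sub A) :=
  MonoidHom.toAdditive ((T.stab2 n (E.sub A)).toMonoidHom.comp
    (SGp.PiMap ((DKs (n + 4)).map (T.q E A)) (2 * n + 2 + 1 + 1 + 1)))

/-- exactness at `K_n(E)` -/
theorem exE (n : ℕ) (E : ExCat.{u}) (A : SubP E) (x : Kn n E) :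
    T.Kj n E A x = 0 ↔ ∃ a : Kn n (E.sub A), Kmap n (E := E.sub A) (E' := E) (E.incl' A) a = x := by
  have hF := T.fib E A (n + 3) (2 * n + 2 + 1 + 1) (by omega) (by omega)
  have h1 := hF.exA (Nat.lt_succ_self _)
    ((T.evE E (n + 3) (by omega) (2 * n + 2 + 1)).symm (Additive.toMul x))
  refine Iff.trans (Iff.trans Iff.rfl h1) ⟨?_, ?_⟩
  · rintro ⟨b, hb⟩
    refine ⟨Additive.ofMul (T.stab (E.sub A) (n + 3) (by omega) (2 * n + 2 + 1) (by omega) b), ?_⟩
    change Additive.ofMul (SGp.PiMap ((DK (n + 3)).map (X := E.sub A) (Y := E) (E.incl' A))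
      (2 * n + 2 + 1) (T.stab (E.sub A) (n + 3) (by omega) (2 * n + 2 + 1) (by omega) b)) = x
    rw [← T.stab_nat, ← T.bd0_eq]
    change Additive.ofMul (T.evE E (n + 3) (by omega) (2 * n + 2 + 1) (hF.bd _ b)) = x
    rw [hb, MulEquiv.apply_symm_apply]
    rfl
  · rintro ⟨a, rfl⟩
    obtain ⟨b, hb⟩ := (T.stab_bij (E.sub A) (n + 3) (by omega) (2 * n + 2 + 1) (by omega)).2
      (Additive.toMul a)
    refine ⟨b, ?_⟩
    rw [MulEquiv.eq_symm_apply]
    change T.bd0 E A (n + 3) (by omega) (2 * n + 2 + 1) (by omega) b =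
      SGp.PiMap ((DK (n + 3)).map (X := E.sub A) (Y := E) (E.incl' A)) (2 * n + 2 + 1)
        (Additive.toMul a)
    rw [← hb, ← T.stab_nat, T.bd0_eq]

/-- exactness at `K_(n+1)(R E A)` -/
theorem exR (n : ℕ) (E : ExCat.{u}) (A : SubP E) (y : Ks (n + 1) (T.R E A)) :
    T.Kbd n E A y = 0 ↔ ∃ x : Kn (n + 1) E, T.Kj (n + 1) E A x = y := by
  have hF := T.fib E A (n + 4) (2 * n + 2 + 1 + 1 + 1) (by omega) (by omega)
  have h1 := hF.exG le_rfl (Additive.toMul y)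
  have h2 : T.Kbd n E A y = 0 ↔ SGp.PiMap ((DKs (n + 4)).map (T.q E A)) (2 * n + 2 + 1 + 1 + 1)
      (Additive.toMul y) = 1 :=
    map_eq_one_iff (T.stab2 n (E.sub A)) (T.stab2 n (E.sub A)).injective
  refine h2.trans (h1.trans ⟨?_, ?_⟩)
  · rintro ⟨a, ha⟩
    refine ⟨Additive.ofMul (T.evE E (n + 4) (by omega) (2 * n + 2 + 1 + 1 + 1) a), ?_⟩
    change SGp.PiMap ((DKs (n + 4)).map (T.j E A)) (2 * n + 2 + 1 + 1 + 1)
      ((T.evE E (n + 4) (by omega) (2 * n + 2 + 1 + 1 + 1)).symm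
        (T.evE E (n + 4) (by omega) (2 * n + 2 + 1 + 1 + 1) a)) = Additive.toMul y
    rw [MulEquiv.symm_apply_apply, ha]
  · rintro ⟨x, rfl⟩
    exact ⟨(T.evE E (n + 4) (by omega) (2 * n + 2 + 1 + 1 + 1)).symm (Additive.toMul x), rfl⟩

/-- exactness at `K_n(A)` -/
theorem exA (n : ℕ) (E : ExCat.{u}) (A : SubP E) (a : Kn n (E.sub A)) :
    Kmap n (E := E.sub A) (E' := E) (E.incl' A) a = 0 ↔
      ∃ y : Ks (n + 1) (T.R E A), T.Kbd n E A y = a := by
  have hF := T.fib E A (n + 4) (2 * n + 2 + 1 + 1 + 1) (by omega) (by omega)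
  obtain ⟨b, hb⟩ := (T.stab2 n (E.sub A)).surjective (Additive.toMul a)
  have h1 : Kmap n (E := E.sub A) (E' := E) (E.incl' A) a = 0 ↔
      hF.bd (Nat.lt_succ_self (2 * n + 2 + 1 + 1)) b = 1 := by
    have h3 : Kmap n (E := E.sub A) (E' := E) (E.incl' A) a = 0 ↔
        SGp.PiMap ((DK (n + 3)).map (X := E.sub A) (Y := E) (E.incl' A)) (2 * n + 2 + 1)
          (Additive.toMul a) = 1 := Iff.rfl
    rw [h3, ← hb, T.stab2_incl]
    refine (map_eq_one_iff (T.stabE E (n + 3) (by omega) (2 * n + 2 + 1) (by omega))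
      (T.stabE E (n + 3) (by omega) (2 * n + 2 + 1) (by omega)).injective).trans ?_
    exact map_eq_one_iff (T.evE E (n + 4) (by omega) (2 * n + 2 + 1 + 1))
      (T.evE E (n + 4) (by omega) (2 * n + 2 + 1 + 1)).injective
  refine h1.trans ((hF.exH (Nat.lt_succ_self (2 * n + 2 + 1 + 1)) b).trans ⟨?_, ?_⟩)
  · rintro ⟨x, hx⟩
    exact ⟨Additive.ofMul x, (congrArg (fun z => Additive.ofMul (T.stab2 n (E.sub A) z)) hx).trans
      (congrArg Additive.ofMul hb)⟩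
  · rintro ⟨y, hy⟩
    refine ⟨Additive.toMul y, (T.stab2 n (E.sub A)).injective ?_⟩
    rw [hb]
    exact congrArg Additive.toMul hy

/-- `K_0(E) → K_0(R E A)` is onto -/
theorem onto (hZ : ∀ (E : ExCat.{u}) (x : ((DK 4).obj E).Pi 3), x = 1) (E : ExCat.{u})
    (A : SubP E) : Surjective (T.Kj 0 E A) := by
  intro y
  have hF := T.fib E A 3 4 (by omega) (by omega)
  obtain ⟨a, ha⟩ := (hF.exG (n := 3) (by omega) (Additive.toMul y)).1 (hZ (E.sub A) _)
  refine ⟨Additive.ofMul (T.evE E 3 (by omega) 3 a), ?_⟩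
  change SGp.PiMap ((DKs 3).map (T.j E A)) 3
      ((T.evE E 3 (by omega) 3).symm (T.evE E 3 (by omega) 3 a)) = Additive.toMul y
  rw [MulEquiv.symm_apply_apply, ha]

/-- naturality of `Kj` -/
theorem Kj_nat (n : ℕ) {E E' : ExCat.{u}} (F : E ⟶ E') {A : SubP E} {A' : SubP E'}
    (h : ExFun.Maps F A A') (x : Kn n E) :
    T.Kj n E' A' (Kmap n F x) = Ksmap n (T.RF F h) (T.Kj n E A x) := by
  change SGp.PiMap ((DKs (n + 3)).map (T.j E' A')) (2 * n + 2 + 1)
      ((T.evE E' (n + 3) (by omega) (2 * n + 2 + 1)).symm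
        (SGp.PiMap ((DK (n + 3)).map F) (2 * n + 2 + 1) (Additive.toMul x))) =
    SGp.PiMap ((DKs (n + 3)).map (T.RF F h)) (2 * n + 2 + 1)
      (SGp.PiMap ((DKs (n + 3)).map (T.j E A)) (2 * n + 2 + 1)
        ((T.evE E (n + 3) (by omega) (2 * n + 2 + 1)).symm (Additive.toMul x)))
  obtain ⟨y, hy⟩ := (T.evE E (n + 3) (by omega) (2 * n + 2 + 1)).surjective (Additive.toMul x)
  rw [← hy, MulEquiv.symm_apply_apply, ← T.evE_nat F (n + 3) (by omega) (2 * n + 2 + 1) y,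
    MulEquiv.symm_apply_apply]
  refine SGp.PiMap_sq ?_ _ y
  exact ((DKs (n + 3)).map_comp _ _).symm.trans
      ((congrArg (DKs (n + 3)).map (T.j_nat F h).symm).trans ((DKs (n + 3)).map_comp _ _))

/-- naturality of the boundary map -/
theorem Kbd_nat (n : ℕ) {E E' : ExCat.{u}} (F : E ⟶ E') {A : SubP E} {A' : SubP E'}
    (h : ExFun.Maps F A A') (x : Ks (n + 1) (T.R E A)) :
    T.Kbd n E' A' (Ksmap (n + 1) (T.RF F h) x) =
      Kmap n (E := E.sub A) (E' := E'.sub A') (ExFun.sub F h) (T.Kbd n E A x) := by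
  have h1 : SGp.PiMap ((DKs (n + 4)).map (T.q E' A')) (2 * n + 2 + 1 + 1 + 1)
      (SGp.PiMap ((DKs (n + 4)).map (T.RF F h)) (2 * n + 2 + 1 + 1 + 1) (Additive.toMul x)) =
      SGp.PiMap ((DK (n + 5)).map (X := E.sub A) (Y := E'.sub A') (ExFun.sub F h))
        (2 * n + 2 + 1 + 1 + 1)
      (SGp.PiMap ((DKs (n + 4)).map (T.q E A)) (2 * n + 2 + 1 + 1 + 1) (Additive.toMul x)) := by
    refine SGp.PiMap_sq (g' := (DKs (n + 4)).map (Sd.map (X := E.sub A) (Y := E'.sub A')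
      (ExFun.sub F h))) ?_ _ _
    exact ((DKs (n + 4)).map_comp _ _).symm.trans
      ((congrArg (DKs (n + 4)).map (T.q_nat F h)).trans ((DKs (n + 4)).map_comp _ _))
  exact (congrArg (fun z => Additive.ofMul (T.stab2 n (E'.sub A') z)) h1).trans
    (congrArg Additive.ofMul (T.stab2_nat n (E := E.sub A) (E' := E'.sub A') (ExFun.sub F h) _))

end RelC

end Pool.Agent.KQ
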