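import Pool.Agent.KQ.KnC

/-!
# KQ: the relative S-constructions `relS`, `relT` as instances of `RelC`
-/

set_option autoImplicit false
set_option linter.unusedVariables false

noncomputable section

namespace Pool.Agent.KQ

open CategoryTheory CategoryTheory.Limits Function

universe u

/-! ### `LData` for `relS` -/

/-- `⊥ ↦ 0`, `i ↦ i` -/
def uB (p : ℕ) : WithBot (Fin (p + 1)) →o Fin (p + 1) where
  toFun := fun x => match x with
    | none => 0
    | some i => i
  monotone' := fun x y h => by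
    cases x with
    | bot => exact Fin.zero_le _
    | coe x =>
      cases y with
      | bot => exact absurd h (by simp)
      | coe y => exact WithBot.coe_le_coe.1 h

/-- `⊤ ↦ p`, `i ↦ i` -/
def lT (p : ℕ) : WithTop (Fin (p + 1)) →o Fin (p + 1) where
  toFun := fun x => match x with
    | none => Fin.last p
    | some i => i
  monotone' := fun x y h => by
    cases y with
    | top => exact Fin.le_last _
    | coe y =>
      cases x with
      | top => exact absurd h (by simp)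
      | coe x => exact WithTop.coe_le_coe.1 h

/-- S-diagrams of a subcategory, as diagrams of the big category -/
def subSP (E : ExCat.{u}) (A : SubP E) (I : Type) [Preorder I] : DProp E (Ar I) :=
  ⟨fun D => ((E.sub A).SP I).Q D, fun D hD j => A.le _ (hD.1 j),
    ((E.sub A).SP I).iso, ((E.sub A).SP I).zero, ((E.sub A).SP I).ext⟩

/-- the section of `relSr` -/
def ExCat.relSs (E : ExCat.{u}) (A : SubP E) (p : ℕ) :
    ExFun ((E.sub A).S (Fin (p + 1))) (E.relS A (Fin (p + 1))) :=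
  E.pre (E.SA (WithBot (Fin (p + 1))) (condS A (Fin (p + 1)))) (subSP E A (Fin (p + 1)))
    (Ar.map (uB p)) fun D h =>
    ⟨⟨fun x => A.le _ (h.1 _), fun i => h.2.1 (uB p i), fun i j k hij hjk =>
      h.2.2 (uB p i) (uB p j) (uB p k) ((uB p).monotone hij) ((uB p).monotone hjk)⟩,
      fun x => by
        obtain ⟨⟨i, j⟩, hx⟩ := x
        cases i with
        | bot => exact A.le _ (h.1 _)
        | coe i => exact h.1 _⟩

/-- the section of `relTr` -/
def ExCat.relTs (E : ExCat.{u}) (A : SubP E) (p : ℕ) :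
    ExFun ((E.sub A).S (Fin (p + 1))) (E.relT A (Fin (p + 1))) :=
  E.pre (E.SA (WithTop (Fin (p + 1))) (condT A (Fin (p + 1)))) (subSP E A (Fin (p + 1)))
    (Ar.map (lT p)) fun D h =>
    ⟨⟨fun x => A.le _ (h.1 _), fun i => h.2.1 (lT p i), fun i j k hij hjk =>
      h.2.2 (lT p i) (lT p j) (lT p k) ((lT p).monotone hij) ((lT p).monotone hjk)⟩,
      fun x => by
        obtain ⟨⟨i, j⟩, hx⟩ := x
        cases j with
        | top => exact A.le _ (h.1 _)
        | coe j => exact h.1 _⟩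

theorem uB_coeB (p : ℕ) : (uB p).comp (coeB (Fin (p + 1))) = OrderHom.id := rfl

theorem lT_coeT (p : ℕ) : (lT p).comp (coeT (Fin (p + 1))) = OrderHom.id := rfl

theorem relSs_relSr (E : ExCat.{u}) (A : SubP E) (p : ℕ) :
    (E.relSs A p).comp (E.relSr A (Fin (p + 1))) = ExFun.id _ := rfl

theorem relTs_relTr (E : ExCat.{u}) (A : SubP E) (p : ℕ) :
    (E.relTs A p).comp (E.relTr A (Fin (p + 1))) = ExFun.id _ := rfl

theorem cB_lB (p : ℕ) : (cB (Fin (p + 1))).comp (lB p) = OrderHom.id := by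
  apply OrderHom.ext
  funext x
  fin_cases x <;> rfl

theorem cT_uT (p : ℕ) : (cT (Fin (p + 1))).comp (uT p) = OrderHom.id := by
  apply OrderHom.ext
  funext x
  fin_cases x <;> rfl

theorem relSj_tS (E : ExCat.{u}) (A : SubP E) (p : ℕ) :
    (E.relSj A (Fin (p + 1))).comp (tS E A p) = ExFun.id (E.S (Fin 2)) := by
  have h1 : Ar.map ((cB (Fin (p + 1))).comp (lB p)) = OrderHom.id := by rw [cB_lB]; rfl
  exact E.pre_congr (E.SP (Fin 2)) (E.SP (Fin 2)) h1
    (fun D hD => ((tS E A p).F.obj ((E.relSj A (Fin (p + 1))).F.obj ⟨D, hD⟩)).property)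
    (fun D hD => hD)

theorem relTj_tT (E : ExCat.{u}) (A : SubP E) (p : ℕ) :
    (E.relTj A (Fin (p + 1))).comp (tT E A p) = ExFun.id (E.S (Fin 2)) := by
  have h1 : Ar.map ((cT (Fin (p + 1))).comp (uT p)) = OrderHom.id := by rw [cT_uT]; rfl
  exact E.pre_congr (E.SP (Fin 2)) (E.SP (Fin 2)) h1
    (fun D hD => ((tT E A p).F.obj ((E.relTj A (Fin (p + 1))).F.obj ⟨D, hD⟩)).property)
    (fun D hD => hD)

/-- the data for `relS` -/
theorem relS_ldata (hCut : St_CutK.{u}) (E : ExCat.{u}) (A : SubP E) :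
    LData (relSj E A) (relSr E A) where
  zero p X := by
    refine (isZero_functor _).2 fun x => ?_
    exact X.property.2.1 1
  sec p := ⟨E.relSs A p, relSs_relSr E A p⟩
  ret p := ⟨tS E A p, relSj_tS E A p, fun k hk => (hCut E A k p hk).1⟩

/-- the data for `relT` -/
theorem relT_ldata (hCut : St_CutK.{u}) (E : ExCat.{u}) (A : SubP E) :
    LData (relTj E A) (relTr E A) where
  zero p X := by
    refine (isZero_functor _).2 fun x => ?_
    exact X.property.2.1 0
  sec p := ⟨E.relTs A p, relTs_relTr E A p⟩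
  ret p := ⟨tT E A p, relTj_tT E A p, fun k hk => (hCut E A k p hk).2⟩

/-! ### contractions -/

/-- a simplicial exact category whose identity is homotopic to a map with zero values -/
theorem pi_of_zero (hZ : St_Zero.{u}) {X : SOb ExCat.{u}} (g : X ⟶ X)
    (hg : ∀ n, ExFun.IsZ (g.app n)) (k : ℕ)
    (h : ∀ i, SGp.PiMap ((DKs k).map g) i = SGp.PiMap ((DKs k).map (𝟙 X)) i) (i : ℕ)
    (x : ((DKs k).obj X).Pi i) : x = 1 := by
  have h1 : SGp.PiMap ((DKs k).map g) i x = 1 :=
    SGp.PiMap_one _ (fun n y => hZ k (g.app n) (hg n) n y) i x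
  rw [h i, (DKs k).map_id, SGp.PiMap_id] at h1
  exact h1

theorem relS_con (hZ : St_Zero.{u}) (hC : St_Con.{u}) (E : ExCat.{u}) (k i : ℕ)
    (x : ((DKs k).obj (relS E (SubP.top E))).Pi i) : x = 1 := by
  obtain ⟨g, hg, ⟨H⟩⟩ := (hC E).1
  exact pi_of_zero hZ g hg k (fun i => thm_Htpy _ _ ⟨H.ext (DK k)⟩ i) i x

theorem relT_con (hZ : St_Zero.{u}) (hC : St_Con.{u}) (E : ExCat.{u}) (k i : ℕ)
    (x : ((DKs k).obj (relT E (SubP.top E))).Pi i) : x = 1 := by
  obtain ⟨g, hg, ⟨H⟩⟩ := (hC E).2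
  exact pi_of_zero hZ g hg k (fun i => (thm_Htpy _ _ ⟨H.ext (DK k)⟩ i).symm) i x

/-- evaluation `S_1 E → E` -/
theorem ev1_weq (hE : St_Ev.{u}) (E : ExCat.{u}) (k : ℕ) (hk : 1 ≤ k) :
    SGp.Weq ((DK k).map (X := E.S (Fin 2)) (Y := E) E.ev1) := by
  obtain ⟨e, he⟩ := hE E
  obtain ⟨k, rfl⟩ : ∃ k', k = k' + 1 := ⟨k - 1, by omega⟩
  have h1 := equivWeq thm_Htpy e (DK k)
  rw [he] at h1
  exact h1

/-! ### the instances -/

/-- `relS` -/
def relSC (hZ : St_Zero.{u}) (hE : St_Ev.{u}) (hCut : St_CutK.{u}) (hC : St_Con.{u}) :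
    RelC.{u} where
  R := relS
  RF {_ _} F {_ _} h := relSF F h
  j := relSj
  q := relSr
  j_nat {_ _} F {_ _} h := relSj_nat F h
  q_nat {_ _} F {_ _} h := relSF_relSr F h
  fib E A k c hk hc := (relS_ldata hCut E A).fib hZ k c hk hc
  con := relS_con hZ hC
  ev := ev1_weq hE

/-- `relT` -/
def relTC (hZ : St_Zero.{u}) (hE : St_Ev.{u}) (hCut : St_CutK.{u}) (hC : St_Con.{u}) :
    RelC.{u} where
  R := relT
  RF {_ _} F {_ _} h := relTF F h
  j := relTj
  q := relTr
  j_nat {_ _} F {_ _} h := relTj_nat F h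
  q_nat {_ _} F {_ _} h := relTF_relTr F h
  fib E A k c hk hc := (relT_ldata hCut E A).fib hZ k c hk hc
  con := relT_con hZ hC
  ev := ev1_weq hE

end Pool.Agent.KQ
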