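import Pool.Agent.KQ.KnD
import Pool.Agent.KQ.SPR2

/-!
# KQ: low homotopy groups of `DK k E`
-/

set_option autoImplicit false
set_option linter.unusedVariables false

noncomputable section

namespace Pool.Agent.KQ

open CategoryTheory CategoryTheory.Limits Function

universe u

/-- the free group of a point is trivial -/
theorem Fr.eq_one {X : Pointed.{u}} (h : Subsingleton X.X) (x : Fr X) : x = 1 := by
  have h1 : MonoidHom.id (Fr X) = 1 := Fr.hom_ext fun y => by
    change Fr.of X y = 1
    rw [Subsingleton.elim y X.point, Fr.of_point]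
  exact DFunLike.congr_fun h1 x

/-- `π_j (DK k E) = 0` for `j < k` -/
theorem DK_low (k : ℕ) (E : ExCat.{u}) : SGp.Triv k ((DK k).obj E) :=
  (all_Low Sd ZcE SPR2.zc (obF ⋙ cF)
    (fun E hE n x => Fr.eq_one (X := obF.obj E) (SPR2.sub E hE) x) k E).2

theorem DK_low3 (E : ExCat.{u}) (x : ((DK 4).obj E).Pi 3) : x = 1 :=
  DK_low 4 E 3 (by omega) x

end Pool.Agent.KQ
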