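import Pool.Agent.KQ.StLocK

/-!
# KQ, modules LocK, DevK, ResK: localization, devissage, resolution for the K-groups
-/

set_option autoImplicit false
set_option maxHeartbeats 400000

noncomputable section

namespace Pool.Agent.KQ

open CategoryTheory CategoryTheory.Limits Function
open scoped ZeroObject

universe u

namespace LocK

theorem Kc_comp (n : ℕ) {E : ExCat.{u}} {X Y : SOb ExCat.{u}} (F : SOb.const E ⟶ X) (G : X ⟶ Y)
    (x : Kn n E) : Ksmap n G (Kc n F x) = Kc n (F ≫ G) x :=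
  (Ksmap_comp n F G (cstKn n E x)).symm

theorem Kc_map (n : ℕ) {E E' : ExCat.{u}} {X : SOb ExCat.{u}} (G : E ⟶ E')
    (F : SOb.const E' ⟶ X) (x : Kn n E) :
    Kc n F (Kmap n G x) = Kc n (SOb.constF.map G ≫ F) x := by
  change Ksmap n F (KnEquiv n E' (Kmap n G x)) = _
  rw [KnEquiv_nat]
  exact (Ksmap_comp n (SOb.constF.map G) F (cstKn n E x)).symm

section

variable {EB EC : ExCat.{u}} (D : LocD EB EC)

/-- from the chains of monomorphisms to the chains of isomorphisms -/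
def toI : mono EB D.A ⟶ (isoW EC).sx := D.toW ≫ D.toIso

theorem toI_bij (hS : St_Spr.{u}) (hL : St_Lc.{u}) (n : ℕ) : Bijective (Ksmap n (toI D)) := by
  have h1 := hS D.toW (hL D).1 n
  have h2 := hS D.toIso (hL D).2.1 n
  have h3 : (Ksmap n (toI D) : _ → _) = Ksmap n D.toIso ∘ Ksmap n D.toW := by
    funext x
    exact Ksmap_comp n D.toW D.toIso x
  rw [h3]
  exact h2.comp h1

include D in
theorem cst_bij (hS : St_Spr.{u}) (hL : St_Lc.{u}) (n : ℕ) : Bijective (Kc n (cstI EC)) :=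
  (hS (cstI EC) (hL D).2.2 n).comp (KnEquiv n EC).bijective

theorem sq (n : ℕ) (x : Kn n EB) : Ksmap n (toI D) (Kc n (cstM EB D.A) x) =
    Kc n (cstI EC) (Kmap n (E := EB) (E' := EC) D.LF x) := by
  rw [Kc_comp, Kc_map]
  exact congrArg (fun F => Kc n F x) D.sq

end

/-- exact functors preserve isomorphisms -/
theorem isIso_map {E E' : ExCat.{u}} (G : ExFun E E') {X Y : E.Ob} (f : X ⟶ Y)
    (h : IsIso f.hom) : IsIso (G.F.map f).hom := by
  have h1 : IsIso f := by
    refine ⟨ObjectProperty.homMk (inv f.hom), ?_, ?_⟩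
    · apply ObjectProperty.hom_ext
      exact IsIso.hom_inv_id f.hom
    · apply ObjectProperty.hom_ext
      exact IsIso.inv_hom_id f.hom
  have h2 : IsIso (G.F.map f) := inferInstance
  exact ⟨(inv (G.F.map f)).hom, congrArg InducedCategory.Hom.hom (IsIso.hom_inv_id (G.F.map f)),
    congrArg InducedCategory.Hom.hom (IsIso.inv_hom_id (G.F.map f))⟩

/-- the map of the chains of isomorphisms -/
def isoF {E E' : ExCat.{u}} (G : ExFun E E') : (isoW E).sx ⟶ (isoW E').sx :=
  ArP.mapF G _ _ fun f h => isIso_map G f h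

theorem const_eq {E E' : ExCat.{u}} (G : ExFun E E') (J : Type) [Preorder J] (X : E.Ob)
    (h : ∀ j, E.P (((Functor.const J).obj X.obj).obj j)) :
    G.onD ((Functor.const J).obj X.obj) h = (Functor.const J).obj (G.F.obj X).obj :=
  CategoryTheory.Functor.ext (fun _ => rfl) fun i j f => by
    change (G.F.map (𝟙 X)).hom = 𝟙 _ ≫ 𝟙 _ ≫ 𝟙 _
    rw [G.F.map_id]
    simp

theorem cst_sq {E E' : ExCat.{u}} (G : ExFun E E') : cstI E ≫ isoF G =
    SOb.constF.map (X := E) (Y := E') G ≫ cstI E' := by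
  apply SOb.hom_ext
  intro m
  apply ExFun.ext'
  have ho : ∀ X : E.Ob, (ExFun.F ((cstI E ≫ isoF G).app m)).obj X =
      (ExFun.F ((SOb.constF.map (X := E) (Y := E') G ≫ cstI E').app m)).obj X := fun X =>
    ObjectProperty.FullSubcategory.ext (const_eq G (Fin (m + 1)) X fun _ => X.property)
  refine Functor.hext ho fun X Y f => ?_
  refine heq_sub (ho X) (ho Y) _ _ (heq_nat (const_eq G (Fin (m + 1)) X fun _ => X.property)
    (const_eq G (Fin (m + 1)) Y fun _ => Y.property) _ _ fun j => ?_)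
  exact HEq.rfl

theorem cst_nat {E E' : ExCat.{u}} (G : ExFun E E') (n : ℕ) (x : Kn n E) :
    Ksmap n (isoF G) (Kc n (cstI E) x) = Kc n (cstI E') (Kmap n (E := E) (E' := E') G x) := by
  rw [Kc_comp, Kc_map]
  exact congrArg (fun F => Kc n F x) (cst_sq G)

section nat

variable {EB EC EB' EC' : ExCat.{u}} (D : LocD EB EC) (D' : LocD EB' EC') (F : ExFun EB EB')
  (G : ExFun EC EC') (h : F.Maps D.A D'.A) (e : (D.LF.comp G).F ≅ (F.comp D'.LF).F)

/-- the isomorphism of chains -/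
def chI (m : ℕ) : ExFun.F ((toI D ≫ isoF G).app m) ≅ ExFun.F ((monoF F h ≫ toI D').app m) :=
  NatIso.ofComponents (fun X => ObjectProperty.isoMk _
    (NatIso.ofComponents (fun j => (EC'.P.ι.mapIso (e.app ((EB.lift X.obj X.property.1).obj j))))
      fun {i j} f => congrArg InducedCategory.Hom.hom
        (e.hom.naturality ((EB.lift X.obj X.property.1).map f)))) fun {X Y} f => by
    apply ObjectProperty.hom_ext
    apply NatTrans.ext
    funext j
    exact congrArg InducedCategory.Hom.hom (e.hom.naturality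
      (X := (EB.lift X.obj X.property.1).obj j) (Y := (EB.lift Y.obj Y.property.1).obj j)
      (ObjectProperty.homMk (f.hom.app j)))

include e in
theorem nat_sq (hN : St_NI.{u}) (n : ℕ) (y : Ks n (mono EB D.A)) :
    Ksmap n (isoF G) (Ksmap n (toI D) y) = Ksmap n (toI D') (Ksmap n (monoF F h) y) := by
  rw [← Ksmap_comp, ← Ksmap_comp]
  have h1 := hN (f := toI D ≫ isoF G) (g := monoF F h ≫ toI D') (chI D D' F G h e)
    (fun {m n} θ x => HEq.rfl) n
  rw [h1]

end nat

end LocK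

/-- **LocK** -/
theorem thm_LocK (hS : St_Spr.{u}) (hN : St_NI.{u}) (hE : St_Lesm.{u}) (hL : St_Lc.{u}) :
    St_LocK.{u} := by
  obtain ⟨b, hb⟩ := hE
  refine ⟨fun n {EB EC} D => (b n EB D.A).comp
    ((AddEquiv.ofBijective (Ksmap (n + 1) (LocK.toI D)) (LocK.toI_bij D hS hL (n + 1))).symm
      |>.toAddMonoidHom.comp (Kc (n + 1) (cstI EC))), ?_⟩
  have key : ∀ (n : ℕ) {EB EC : ExCat.{u}} (D : LocD EB EC) (y : Kn (n + 1) EC)
      (z : Ks (n + 1) (mono EB D.A)), Ksmap (n + 1) (LocK.toI D) z = Kc (n + 1) (cstI EC) y →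
      (AddEquiv.ofBijective (Ksmap (n + 1) (LocK.toI D)) (LocK.toI_bij D hS hL (n + 1))).symm
        (Kc (n + 1) (cstI EC) y) = z := by
    intro n EB EC D y z hz
    rw [AddEquiv.symm_apply_eq]
    exact hz.symm
  have ex : ∀ (n : ℕ) {EB EC : ExCat.{u}} (D : LocD EB EC) (y : Kn (n + 1) EC),
      ∃ z : Ks (n + 1) (mono EB D.A), Ksmap (n + 1) (LocK.toI D) z = Kc (n + 1) (cstI EC) y :=
    fun n EB EC D y => (LocK.toI_bij D hS hL (n + 1)).2 _
  have ex' : ∀ (n : ℕ) {EB EC : ExCat.{u}} (D : LocD EB EC) (z : Ks (n + 1) (mono EB D.A)),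
      ∃ y : Kn (n + 1) EC, Ksmap (n + 1) (LocK.toI D) z = Kc (n + 1) (cstI EC) y :=
    fun n EB EC D z => by
      obtain ⟨y, hy⟩ := (LocK.cst_bij D hS hL (n + 1)).2 (Ksmap (n + 1) (LocK.toI D) z)
      exact ⟨y, hy.symm⟩
  refine ⟨?_, ?_, ?_, ?_, ?_⟩
  · intro n EB EC D x
    rw [← hb.exE n EB D.A x]
    constructor
    · intro hx
      apply (LocK.toI_bij D hS hL n).1
      rw [LocK.sq, hx, map_zero, map_zero]
    · intro hx
      apply (LocK.cst_bij D hS hL n).1
      rw [← LocK.sq, hx, map_zero, map_zero]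
  · intro n EB EC D y
    obtain ⟨z, hz⟩ := ex n D y
    change b n EB D.A ((AddEquiv.ofBijective _ (LocK.toI_bij D hS hL (n + 1))).symm _) = 0 ↔ _
    rw [key n D y z hz, hb.exM n EB D.A z]
    constructor
    · rintro ⟨x, rfl⟩
      refine ⟨x, (LocK.cst_bij D hS hL (n + 1)).1 ?_⟩
      rw [← hz, LocK.sq]
    · rintro ⟨x, rfl⟩
      refine ⟨x, (LocK.toI_bij D hS hL (n + 1)).1 ?_⟩
      rw [hz, LocK.sq]
  · intro n EB EC D a
    rw [hb.exA n EB D.A a]
    constructor
    · rintro ⟨z, rfl⟩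
      obtain ⟨y, hy⟩ := ex' n D z
      refine ⟨y, ?_⟩
      change b n EB D.A ((AddEquiv.ofBijective _ (LocK.toI_bij D hS hL (n + 1))).symm _) = _
      rw [key n D y z hy]
    · rintro ⟨y, rfl⟩
      exact ⟨_, rfl⟩
  · intro EB EC D y
    obtain ⟨z, hz⟩ := (LocK.toI_bij D hS hL 0).2 (Kc 0 (cstI EC) y)
    obtain ⟨x, rfl⟩ := hb.surj EB D.A z
    refine ⟨x, (LocK.cst_bij D hS hL 0).1 ?_⟩
    rw [← hz, LocK.sq]
  · rintro n EB EC EB' EC' D D' F G h ⟨e⟩ y
    obtain ⟨z, hz⟩ := ex n D y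
    change Kmap n _ (b n EB D.A ((AddEquiv.ofBijective _ (LocK.toI_bij D hS hL (n + 1))).symm _)) =
      b n EB' D'.A ((AddEquiv.ofBijective _ (LocK.toI_bij D' hS hL (n + 1))).symm _)
    rw [key n D y z hz, hb.nat n F D.A D'.A h z]
    congr 1
    symm
    apply key
    rw [← LocK.nat_sq D D' F G h e hN, hz]
    exact LocK.cst_nat G (n + 1) y

/-- **DevK** -/
theorem thm_DevK (hS : St_Spr.{u}) (hD : St_Dev.{u}) : St_DevK.{u} := by
  intro E E' D n
  have h1 : SSt.Strong (obS.map (SD.map (SOb.constF.map (X := E) (Y := E') D.F))) := hD D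
  have h2 := hS (SOb.constF.map (X := E) (Y := E') D.F) h1 n
  have h3 : (Ksmap n (SOb.constF.map (X := E) (Y := E') D.F) : _ → _) ∘ KnEquiv n E =
      KnEquiv n E' ∘ Kmap n (E := E) (E' := E') D.F := by
    funext x
    exact (KnEquiv_nat n (E := E) (E' := E') D.F x).symm
  have h4 : Bijective (KnEquiv n E' ∘ Kmap n (E := E) (E' := E') D.F) := by
    rw [← h3]
    exact h2.comp (KnEquiv n E).bijective
  exact (Bijective.of_comp_iff' (KnEquiv n E').bijective _).1 h4

/-- **ResK** -/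
theorem thm_ResK (hS : St_Spr.{u}) (hR : St_Res.{u + 1, u}) : St_ResK.{u} := by
  intro E A H n
  have h1 : SSt.Strong (obS.map (SD.map (SOb.constF.map (X := E.sub A) (Y := E)
    (E.incl' A)))) := hR E.P A.P H
  have h2 := hS (SOb.constF.map (X := E.sub A) (Y := E) (E.incl' A)) h1 n
  have h3 : (Ksmap n (SOb.constF.map (X := E.sub A) (Y := E) (E.incl' A)) : _ → _) ∘
      KnEquiv n (E.sub A) = KnEquiv n E ∘ Kmap n (E := E.sub A) (E' := E) (E.incl' A) := by
    funext x
    exact (KnEquiv_nat n (E := E.sub A) (E' := E) (E.incl' A) x).symm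
  have h4 : Bijective (KnEquiv n E ∘ Kmap n (E := E.sub A) (E' := E) (E.incl' A)) := by
    rw [← h3]
    exact h2.comp (KnEquiv n (E.sub A)).bijective
  exact (Bijective.of_comp_iff' (KnEquiv n E).bijective _).1 h4

end Pool.Agent.KQ
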