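import Mathlib

/-!
# KQ: short exact sequences in abelian categories, in functor categories; the nine lemma
-/

set_option autoImplicit false

namespace Pool.Agent.KQ

open CategoryTheory CategoryTheory.Limits

section ses

variable {C : Type*} [Category C] [Abelian C]

/-- `0 ⟶ X ⟶ Y ⟶ Z ⟶ 0` is exact -/
def SES {X Y Z : C} (f : X ⟶ Y) (g : Y ⟶ Z) : Prop :=
  ∃ w : f ≫ g = 0, (ShortComplex.mk f g w).ShortExact

theorem ses_iff {X Y Z : C} (f : X ⟶ Y) (g : Y ⟶ Z) : SES f g ↔ f ≫ g = 0 ∧ Mono f ∧ Epi g ∧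
    ∀ (A : C) (y : A ⟶ Y), y ≫ g = 0 → ∃ x : A ⟶ X, x ≫ f = y := by
  constructor
  · rintro ⟨w, h⟩
    refine ⟨w, h.mono_f, h.epi_g, fun A y hy => ?_⟩
    have := h.mono_f
    exact ⟨h.exact.lift y hy, h.exact.lift_f y hy⟩
  · rintro ⟨w, h1, h2, h3⟩
    refine ⟨w, ?_⟩
    have : Mono (ShortComplex.mk f g w).f := h1
    have : Epi (ShortComplex.mk f g w).g := h2
    refine ShortComplex.ShortExact.mk' ?_ h1 h2
    rw [ShortComplex.exact_iff_exact_up_to_refinements]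
    intro A y hy
    obtain ⟨x, hx⟩ := h3 A y hy
    exact ⟨A, 𝟙 A, inferInstance, x, by simpa using hx.symm⟩

theorem SES.w {X Y Z : C} {f : X ⟶ Y} {g : Y ⟶ Z} (h : SES f g) : f ≫ g = 0 := h.1

theorem SES.mono {X Y Z : C} {f : X ⟶ Y} {g : Y ⟶ Z} (h : SES f g) : Mono f := h.2.mono_f

theorem SES.epi {X Y Z : C} {f : X ⟶ Y} {g : Y ⟶ Z} (h : SES f g) : Epi g := h.2.epi_g

theorem SES.lift {X Y Z : C} {f : X ⟶ Y} {g : Y ⟶ Z} (h : SES f g) {A : C} (y : A ⟶ Y)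
    (hy : y ≫ g = 0) : ∃ x : A ⟶ X, x ≫ f = y := ((ses_iff f g).1 h).2.2.2 A y hy

theorem SES.desc {X Y Z : C} {f : X ⟶ Y} {g : Y ⟶ Z} (h : SES f g) {A : C} (y : Y ⟶ A)
    (hy : f ≫ y = 0) : ∃ x : Z ⟶ A, g ≫ x = y := by
  obtain ⟨w, h⟩ := h
  have := h.epi_g
  exact ⟨h.exact.desc y hy, h.exact.g_desc y hy⟩

theorem ses_of_iso {X Y Z X' Y' Z' : C} {f : X ⟶ Y} {g : Y ⟶ Z} {f' : X' ⟶ Y'} {g' : Y' ⟶ Z'}
    (h : SES f g) (a : X ≅ X') (b : Y ≅ Y') (c : Z ≅ Z') (h1 : a.hom ≫ f' = f ≫ b.hom)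
    (h2 : b.hom ≫ g' = g ≫ c.hom) : SES f' g' := by
  obtain ⟨w, h⟩ := h
  have w' : f' ≫ g' = 0 := by
    have : a.hom ≫ f' ≫ g' = 0 := by
      rw [reassoc_of% h1, h2, reassoc_of% w, zero_comp]
    rw [← cancel_epi a.hom, this, comp_zero]
  exact ⟨w', ShortComplex.shortExact_of_iso
    (ShortComplex.isoMk a b c h1 h2 : ShortComplex.mk f g w ≅ ShortComplex.mk f' g' w') h⟩

theorem ses_of_isZero {X Y Z : C} (f : X ⟶ Y) (g : Y ⟶ Z) (hX : IsZero X) (hY : IsZero Y)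
    (hZ : IsZero Z) : SES f g := by
  rw [ses_iff]
  refine ⟨hX.eq_of_src _ _, ⟨fun _ _ _ => hX.eq_of_tgt _ _⟩, ⟨fun _ _ _ => hZ.eq_of_src _ _⟩,
    fun A y _ => ⟨0, hY.eq_of_tgt _ _⟩⟩

theorem ses_id_left {X Y : C} (f : X ⟶ Y) [IsIso f] {Z : C} (hZ : IsZero Z) (g : Y ⟶ Z) :
    SES f g := by
  rw [ses_iff]
  exact ⟨hZ.eq_of_tgt _ _, inferInstance, ⟨fun _ _ _ => hZ.eq_of_src _ _⟩,
    fun A y _ => ⟨y ≫ inv f, by simp⟩⟩

theorem ses_id_right {Y Z : C} (g : Y ⟶ Z) [IsIso g] {X : C} (hX : IsZero X) (f : X ⟶ Y) :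
    SES f g := by
  rw [ses_iff]
  refine ⟨hX.eq_of_src _ _, ⟨fun _ _ _ => hX.eq_of_tgt _ _⟩, inferInstance, fun A y hy => ⟨0, ?_⟩⟩
  have : y = 0 := by rw [← cancel_mono g, hy, zero_comp]
  rw [this, zero_comp]

theorem SES.isZero_mid {X Y Z : C} {f : X ⟶ Y} {g : Y ⟶ Z} (h : SES f g) (hX : IsZero X)
    (hZ : IsZero Z) : IsZero Y := by
  rw [IsZero.iff_id_eq_zero]
  obtain ⟨x, hx⟩ := h.lift (𝟙 Y) (hZ.eq_of_tgt _ _)
  rw [← hx, hX.eq_of_src f 0, comp_zero]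

end ses

section functor

variable {J : Type*} [Category J] {C : Type*} [Category C] [Abelian C]

theorem ses_functor {X Y Z : J ⥤ C} (f : X ⟶ Y) (g : Y ⟶ Z) :
    SES f g ↔ ∀ j, SES (f.app j) (g.app j) := by
  constructor
  · rintro ⟨w, h⟩ j
    have h1 := h.map_of_exact ((evaluation J C).obj j)
    exact ⟨congrArg (fun τ : X ⟶ Z => τ.app j) w, h1⟩
  · intro h
    have w : f ≫ g = 0 := by
      ext j
      exact (h j).w
    have h1 : ∀ j, Mono (f.app j) := fun j => (h j).mono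
    have h2 : ∀ j, Epi (g.app j) := fun j => (h j).epi
    refine ⟨w, ShortComplex.ShortExact.mk' ?_ (NatTrans.mono_of_mono_app f)
      (NatTrans.epi_of_epi_app g)⟩
    rw [ShortComplex.exact_iff_isZero_homology]
    rw [Functor.isZero_iff]
    intro j
    have h3 : ((ShortComplex.mk f g w).map ((evaluation J C).obj j)).Exact := (h j).2.exact
    rw [ShortComplex.exact_iff_isZero_homology] at h3
    exact h3.of_iso ((ShortComplex.mk f g w).mapHomologyIso ((evaluation J C).obj j)).symm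

theorem isZero_functor (X : J ⥤ C) : IsZero X ↔ ∀ j, IsZero (X.obj j) := Functor.isZero_iff X

end functor

section nine

variable {C : Type*} [Category C] [Abelian C]

/-- **Nine lemma** (middle row): columns short exact, outer rows short exact, the composition in the
middle row zero. -/
theorem nine_mid {X₁ X₂ X₃ Y₁ Y₂ Y₃ Z₁ Z₂ Z₃ : C} {a : X₁ ⟶ X₂} {a' : X₂ ⟶ X₃} {b : Y₁ ⟶ Y₂}
    {b' : Y₂ ⟶ Y₃} {c : Z₁ ⟶ Z₂} {c' : Z₂ ⟶ Z₃} {u₁ : X₁ ⟶ Y₁} {v₁ : Y₁ ⟶ Z₁} {u₂ : X₂ ⟶ Y₂}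
    {v₂ : Y₂ ⟶ Z₂} {u₃ : X₃ ⟶ Y₃} {v₃ : Y₃ ⟶ Z₃} (s₁ : SES u₁ v₁) (s₂ : SES u₂ v₂)
    (s₃ : SES u₃ v₃) (ra : SES a a') (rc : SES c c') (hb : b ≫ b' = 0) (h1 : a ≫ u₂ = u₁ ≫ b)
    (h2 : a' ≫ u₃ = u₂ ≫ b') (h3 : b ≫ v₂ = v₁ ≫ c) (h4 : b' ≫ v₃ = v₂ ≫ c') : SES b b' := by
  have := s₁.mono
  have := s₂.mono
  have := s₃.mono
  have := s₁.epi
  have := s₂.epi
  have := s₃.epi
  have := ra.mono
  have := ra.epi
  have := rc.mono
  have := rc.epi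
  -- monomorphism
  have hm : ∀ {A : C} (y : A ⟶ Y₁), y ≫ b = 0 → y = 0 := by
    intro A y hy
    have e1 : y ≫ v₁ = 0 := by
      rw [← cancel_mono c, Category.assoc, ← h3, reassoc_of% hy, zero_comp, zero_comp]
    obtain ⟨x, hx⟩ := s₁.lift y e1
    have e2 : x = 0 := by
      rw [← cancel_mono a, ← cancel_mono u₂, Category.assoc, h1, reassoc_of% hx, hy, zero_comp,
        zero_comp]
    rw [← hx, e2, zero_comp]
  have hmono : Mono b := ⟨fun y y' h => by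
    have := hm (y - y') (by rw [Preadditive.sub_comp, h, sub_self])
    exact sub_eq_zero.1 this⟩
  -- epimorphism
  have he : ∀ {A : C} (y : Y₃ ⟶ A), b' ≫ y = 0 → y = 0 := by
    intro A y hy
    have e1 : u₃ ≫ y = 0 := by
      rw [← cancel_epi a', reassoc_of% h2, hy, comp_zero, comp_zero]
    obtain ⟨x, hx⟩ := s₃.desc y e1
    have e2 : x = 0 := by
      rw [← cancel_epi c', ← cancel_epi v₂]
      have : v₂ ≫ c' ≫ x = b' ≫ y := by rw [← reassoc_of% h4, hx]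
      rw [this, hy, comp_zero, comp_zero]
    rw [← hx, e2, comp_zero]
  have hepi : Epi b' := ⟨fun y y' h => by
    have := he (y - y') (by rw [Preadditive.comp_sub, h, sub_self])
    exact sub_eq_zero.1 this⟩
  refine ⟨hb, ShortComplex.ShortExact.mk' ?_ hmono hepi⟩
  rw [ShortComplex.exact_iff_exact_up_to_refinements]
  intro A y hy
  change y ≫ b' = 0 at hy
  -- `y ≫ v₂` is in the image of `c`
  obtain ⟨z, hz⟩ := rc.lift (y ≫ v₂) (by rw [Category.assoc, ← h4, reassoc_of% hy, zero_comp])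
  -- lift `z` to `Y₁`
  obtain ⟨A', π, hπ, y₁, hy₁⟩ := surjective_up_to_refinements_of_epi v₁ z
  have e1 : (π ≫ y - y₁ ≫ b) ≫ v₂ = 0 := by
    rw [Preadditive.sub_comp, Category.assoc, Category.assoc, h3, ← hz, reassoc_of% hy₁, sub_self]
  obtain ⟨x, hx⟩ := s₂.lift _ e1
  have e2 : x ≫ a' = 0 := by
    rw [← cancel_mono u₃, Category.assoc, h2, reassoc_of% hx, Preadditive.sub_comp,
      Category.assoc, Category.assoc, hy, hb, comp_zero, comp_zero, sub_zero, zero_comp]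
  obtain ⟨x₁, hx₁⟩ := ra.lift x e2
  refine ⟨A', π, hπ, y₁ + x₁ ≫ u₁, ?_⟩
  change π ≫ y = (y₁ + x₁ ≫ u₁) ≫ b
  rw [Preadditive.add_comp, Category.assoc, ← h1, reassoc_of% hx₁, hx]
  abel

end nine

end Pool.Agent.KQ
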