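import Pool.Agent.KQ.DLoc
import Pool.Agent.KQ.Cpy
import Pool.Agent.KQ.StStr

/-!
# KQ: nerves, Theorem A, devissage, resolution, localization: statements

Architect helper94. Module `X` proves `theorem thm_X (h.. : St_..) : St_X` in `Pool/Agent/KQ/X.lean`,
namespace `Pool.Agent.KQ`; the hypotheses may be the statements listed after `needs`. Auxiliary lemmas in
a sub-namespace with the name of the file. Read `DSG.lean`, `DCat.lean`, `DSA.lean`, `DLoc.lean`,
`Cpy.lean` (all short) first; `StStr.lean` for the properties of strong maps.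
-/

set_option autoImplicit false

noncomputable section

namespace Pool.Agent.KQ

open CategoryTheory CategoryTheory.Limits Function
open scoped ZeroObject

universe u v

/-! ## Categories -/

/-- **CtB** (1.5 h). Nerves: (1) natural transformations (in any two directions) make a functor
strong; (2) initial and (3) terminal objects; (4) zigzag `𝟭 ⟵ G ⟶ const c`; (5) nonempty directed
thin categories.

Proof. `Nv.htpy` (a natural transformation is a homotopy) and `St_StrHt`; `StrEq` is an equivalence
relation compatible with composition (from the definition, functoriality of `Φ.ap.map` and `PiMap`).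
(3): `𝟭 ⟶ const c`. (5) `St_StrUnion` (first part) with `A c` = the chains all of whose objects have a
morphism to `c`, `e = 𝟙`, `e'` = the constant map to `c₀`: on `A c`, with `c ⟶ d`, `c₀ ⟶ d`: the inclusion is
homotopic to the constant map `d` (`mix`), and this to the constant map `c₀`. needs: StrHt, StrUnion -/
def St_CtB : Prop :=
  (∀ {X Y : Type u} [Category.{v} X] [Category.{v} Y] (F : X ⥤ Y) (G : Y ⥤ X),
    Nonempty (𝟭 X ⟶ F ⋙ G) ∨ Nonempty (F ⋙ G ⟶ 𝟭 X) →
    Nonempty (𝟭 Y ⟶ G ⋙ F) ∨ Nonempty (G ⋙ F ⟶ 𝟭 Y) → SSt.Strong (Nv.mapF F)) ∧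
  (∀ {X : Type u} [Category.{v} X] (x : X), Nonempty (IsInitial x) → SSt.Contr (Nv X)) ∧
  (∀ {X : Type u} [Category.{v} X] (x : X), Nonempty (IsTerminal x) → SSt.Contr (Nv X)) ∧
  (∀ {X : Type u} [Category.{v} X] (G : X ⥤ X) (c : X), Nonempty (G ⟶ 𝟭 X) →
    Nonempty (G ⟶ (Functor.const X).obj c) → SSt.Contr (Nv X)) ∧
  (∀ {X : Type u} [Category.{v} X] [Nonempty X], (∀ a b : X, Subsingleton (a ⟶ b)) →
    (∀ a b : X, ∃ c, Nonempty (a ⟶ c) ∧ Nonempty (b ⟶ c)) → SSt.Contr (Nv X))

/-- **CtA** (2.5 h). Theorem A (in the form: all categories over the objects of the target are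
contractible).

Proof. For `F : X ⥤ Y` let `T_{p,q}` be the set of the triples `x : [p] ⥤ X`, `y : [q] ⥤ Y`,
`g : F x_p ⟶ y_0`, a bisimplicial set (`(θ, η)`: `x θ`, `y η`, `F (x_{θ p'} ⟶ x_p) ≫ g ≫ (y_0 ⟶ y_{η 0})`).
(i) For fixed `p` the map to the set of the `x` is strong: the fibre over `x` is the nerve of
`Under (F x_p)` (or `StructuredArrow`), which has an initial object (`St_CtB`; the isomorphism of the
fibre with the nerve is elementary: `y` with `g` is a functor to `Under`), `St_StrFib`.
(ii) For fixed `q` the map to the set of the `y` is strong: the fibre over `y` is the nerve of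
`CostructuredArrow F y_0`. So `diag T → Nv X` and `diag T → Nv Y` are strong (`St_StrRow`, `St_StrCol`).
(iii) The same for `𝟭 Y` instead of `F` (terminal objects), and `T(F) → T(𝟭)`, `(x, y, g) ↦ (F x, y, g)`.
The two squares commute strictly; `St_Str23`. needs: CtB, StrRow, StrCol, StrFib, StrHt, Str23 -/
def St_CtA : Prop := ∀ {X Y : Type u} [Category.{v} X] [Category.{v} Y] (F : X ⥤ Y),
  (∀ y : Y, SSt.Contr (Nv (CostructuredArrow F y))) → SSt.Strong (Nv.mapF F)

/-! ## Theorem A for one S-direction -/

section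

variable {C : Type u} [Category.{v} C] [Abelian C]

/-- the closure properties for `St_SA` -/
structure SaH (P B : ObjectProperty C) : Prop where
  isoP : IsoC P
  extP : ExtC P
  le : ∀ X, B X → P X
  isoB : IsoC B
  zerB : ZerC B

end

/-- **SAf** (1.5 h). The projection to the front part is strong (fixed `l`), and for `B = P` the
projection to the back part is strong (fixed `q`).

Proof. (1) Section: `b ↦ b ∘ ψ`, `ψ : Jo I J → I`, `ψ (l i) = i`, `ψ (r j) = last` (entries in `B ≤ P`).
Homotopy `H_α(D) = D ∘ φ_α`, `φ_α : Jo I J → Jo I J`, `l i ↦ l i`, `r j ↦ r j` if `α j = true`,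
`r j ↦ l (last)` if `α j = false`. All equalities of functors are `arF_congr` or `rfl`.
(2) Section `c ↦ c ∘ ψ'`, `ψ' (l i) = 0`, `ψ' (r j) = j`; homotopy with `φ_α`: `r j ↦ r j`, `l i ↦ l i` if
`α i = false`, `l i ↦ r 0` if `α i = true`. needs: StrHt -/
def St_SAf : Prop := ∀ {C : Type u} [Category.{v} C] [Abelian C] (P B : ObjectProperty C),
  (∀ X, B X → P X) →
    (∀ l, SSt.Strong (TSl.front P B l)) ∧ ∀ q, SSt.Strong (TSq.back P P q)

/-- **SAc** (4 h). If the chains over every object of `P` are contractible, then for fixed `q` the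
projection to the back part is strong.

Proof. `St_StrFib` (2): we need that the fibre over `c : SdS P` in degree `q` is contractible. It is
homotopy equivalent to `FM P B M`, `M = c (0, last)`. (a) `fib → FM`: `D ↦ (i ↦ D(l i, r last) ⟶ D(r 0, r last) = M)`
(kernels: the `SES` of `D`; the identification with `M` by the equality `back D = c`, use `eqToHom` or better:
define the map on the `D` with any isomorphism; or replace `SSt.fib` by the isomorphic simplicial set of pairs).
(b) `FM → fib`: for a functor `N : [l] ⥤ Over M` let `Y : Jo [l] [q] ⥤ C` be the glued chain `Y (l i) = N_i`,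
`Y (r j) = c(j, last)` (maps `N_i ⟶ M = c(0, last) ⟶ c(j, last)`); all its maps are epi; `K(Y)(x, y) = kernel (Y_x ⟶ Y_y)`
(a functor on `Ar`, strictly compatible with monotone maps; `kernel.map`); it satisfies the exactness
`K(Y)(x,y) → K(Y)(x,z) → K(Y)(y,z)` (kernels of composed epimorphisms) and `K(Y)(x,x) = 0`; then `copyS` with
`c(i, j)` on the back part (`c(i,j) → c(i,last) → c(j,last)` is a `SES`) gives `D` with back part `c`. Entries in
`P`: `K(Y)(l i, l j)` in `B ≤ P`; `K(Y)(l i, r j)` is an extension of `c(0, j)` by the kernel of `N_i ⟶ M`.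
(c) Both compositions are homotopic to the identity: in `FM` by `mix` for the isomorphism
`K(Y)(l i, r last) ≅ N_i` over `M` (kernel of a map to a zero object); on the fibre by `mixS e β` with
`β (x, y) = true` iff `x = l i` and `α i = true` (so nothing changes on the back part), `e` the isomorphism
of S-diagrams `D ≅ K(chain of D)` (`D(x,y)` is the kernel of `D(x,last) → D(y,last)`), which is the identity on the back
part. Everything is strictly natural in `l` because all objects depend only on the values at the indices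
involved. needs: StrFib, StrHt, Str23 -/
def St_SAc : Prop := ∀ {C : Type u} [Category.{v} C] [Abelian C] (P B : ObjectProperty C),
  SaH P B → (∀ M, P M → SSt.Contr (FM P B M)) → ∀ q, SSt.Strong (TSq.back P B q)

/-- **SA** (1.5 h). Theorem A for one S-direction.

Proof. `diag (TS P B) → SdS B` (front) is strong by `St_SAf` (1) and `St_StrRow` (the target as the
bisimplicial set constant in `q`, whose diagonal is `SdS B`), `diag (TS P B) → SdS P` (back) by `St_SAc` and
`St_StrCol` (the column `q` of `TS P B` is `TSq P B q`, up to `rfl`). The same for `B = P` (`St_SAf`). The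
inclusion `TS P B → TS P P` is compatible with the back parts: strong by `St_Str23`; it is compatible
with the inclusion `SdS B → SdS P` of the front parts. needs: SAf, SAc, StrRow, StrCol, Str23 -/
def St_SA : Prop := ∀ {C : Type u} [Category.{v} C] [Abelian C] (P B : ObjectProperty C)
  (H : SaH P B), (∀ M, P M → SSt.Contr (FM P B M)) → SSt.Strong (SdS.incl H.le)

/-! ## Devissage -/

/-- **DvC** (3.5 h). Devissage: the chains over `M` are contractible.

Proof. For `N ⟶ M` in `Over M` with kernel `K` let `R_j N = coker (r^j K → K → N)`, `r^j = radN η j`, `→ M`: a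
functor `R_j : Over M ⥤ Over M` (on all of `Over M`), with natural transformations
`𝟭 ⟶ R_j`, `R_(j+1) ⟶ R_j` (`r^(j+1) K ≤ r^j K` by `radι`), `R_0 ⟶ const (𝟙 M)`. Facts for chains in `FM`: for
`f : N ⟶ N'` epi with kernel `L` in `B`: `K → K'` is epi with kernel `L`, `r^j K → r^j K'` is epi (`map_epi`; all
`r^j K` are in `P` by `subP`), so the kernel of `N → R_j N'` is `r^j K + L`. Hence the kernel of `R_j N → R_j N'` is a
quotient of `L`, and the kernel of `R_(j+1) N → R_j N'` is a quotient of the sum of `L` and
`r^j K / r^(j+1) K = σ (r^j K)`, so in `B` (`quoB`, `sumB`). (Prove once: if `X → Z`, `Y → Z` are jointly epi and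
`X`, `Y` in `B` then `Z` in `B`.) So `NvP.htpy` gives homotopies `R_(j+1) ≃ R_j` and `R_0 ≃ const` on `FM P B M`. Let
`A n` be the simplicial subset of the chains with `r^n` of all kernels zero: on it `𝟭 ⟶ R_n` gives a
homotopy between `R_n` and the inclusion (kernel of `N → R_n N' = N'` is `L`). `St_StrUnion` (first part,
`e = 𝟙`, `e'` = constant map to `𝟙 M`) and `St_StrHt` (3). needs: StrHt, StrUnion -/
def St_DvC : Prop := ∀ {C : Type u} [Category.{v} C] [Abelian C] (P B : ObjectProperty C),
  DevC P B → RadD P B → ∀ M, P M → SSt.Contr (FM P B M)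

/-- **Dev** (0.5 h). Devissage in one S-direction.

Proof. `St_Eqv` for `F : E → B`, `St_SA` and `St_DvC` for `B ≤ E'.P`; the composition of
`SdS E.P → SdS B → SdS E'.P` is `F.obS` (`rfl`). needs: Eqv, SA, DvC, Str23 -/
def St_Dev : Prop := ∀ {E E' : ExCat.{u}} (D : DevD E E'), SSt.Strong D.F.obS

/-! ## Equivalences -/

/-- `D ↦ F D`, with values in the diagrams with entries in `B` -/
def ExFun.obSB {E E' : ExCat.{u}} (F : ExFun E E') (B : ObjectProperty E'.C)
    (h : ∀ Y : E.Ob, B (F.F.obj Y).obj) : SdS E.P ⟶ SdS B :=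
  ⟨fun n D => ⟨((F.S (Fin (n + 1))).F.obj D).obj, fun x => h _,
    ((F.S (Fin (n + 1))).F.obj D).property.2.1, ((F.S (Fin (n + 1))).F.obj D).property.2.2⟩,
    fun _ _ => rfl⟩

/-- **Eqv** (2 h). Fully faithful exact functors which reflect conflations are strong onto the
essential image.

Proof. For `X` with `B X` choose `Y_X : E.Ob` and `ε_X : (F Y_X).obj ≅ X`. For a diagram `D` with
entries in `B` let `ψ D : J ⥤ E.Ob`, `j ↦ Y_(D j)`, morphisms by fullness (`ε ≫ D f ≫ ε⁻¹`), functorial by
faithfulness. It is an S-diagram (`refl`, `ses_of_iso`; zero objects by faithfulness). The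
compositions are isomorphic to the identity; homotopies by `mixS e (fun x => α x.1.2)`; `St_StrHt` (2).
needs: StrHt -/
def St_Eqv : Prop := ∀ {E E' : ExCat.{u}} (F : ExFun E E'),
  (∀ {X Y : E.Ob} (g : F.F.obj X ⟶ F.F.obj Y), ∃ f : X ⟶ Y, F.F.map f = g) →
  (∀ {X Y : E.Ob} (f f' : X ⟶ Y), F.F.map f = F.F.map f' → f = f') →
  (∀ {X Y Z : E.Ob} (f : X ⟶ Y) (g : Y ⟶ Z), E'.Conf (F.F.map f) (F.F.map g) → E.Conf f g) →
  ∀ (B : ObjectProperty E'.C) (h : ∀ X, B X ↔ ∃ Y : E.Ob, Nonempty ((F.F.obj Y).obj ≅ X)),
    SSt.Strong (F.obSB B fun Y => (h _).2 ⟨Y, ⟨Iso.refl _⟩⟩)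

/-! ## Resolution -/

/-- **RsC** (4 h). Resolution: the chains over `M` are contractible.

Proof. `FM P A M` is the nerve of the category `𝓕`: objects `N ⟶ M` epi with kernel in `P`, morphisms
over `M` epi with kernel in `A` (closed under composition by `extA`, `isoA`; contains identities by `zerA`); its
simplices are functors to `Over M` with conditions (isomorphism with `Nv 𝓕` by `rfl`-type arguments). Let
`𝓕°` be the full subcategory of the objects with kernel in `A`: the object `𝟙 M` is terminal, so `Nv 𝓕°` is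
contractible (`St_CtB`). `St_CtA` for `𝓕° ⥤ 𝓕`: let `N` in `𝓕` with kernel `K`. `N` is in `P` (`extP`), let `Q → N` be
epi with kernel in `A`, `Q` in `A` (`cov`). Claim: `K' = ker (Q → M)` is in `A`. It is in `P` (extension of `K` by
`ker (Q → N)`). Let `P₁ → P₀ → M` be as in `cov`, `F = Q ×_M P₀`: `F → Q` is epi with kernel `≅ P₁`, so `F` is in `A`;
`F → P₀` is epi with kernel `≅ K'`, so `K'` is in `A` (`ker`). So `Q → N` is an object of the comma category over
`N`. The comma category (objects `N' → N` in `𝓕`, `N'` in `𝓕°`) is contracted by `𝟭 ⟵ G ⟶ const Q`,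
`G N' = N' ×_N Q`: kernel of `G N' → N'` is `≅ ker (Q → N)`, kernel of `G N' → Q` is `≅ ker (N' → N)`, the kernel of
`G N' → M` is an extension of `ker (N' → M)` by `ker (Q → N)`: in `A`; and for a morphism `N' → N''` the
kernel of `G N' → G N''` is `≅ ker (N' → N'')`. `St_CtB` (4). needs: CtA, CtB, Str23, StrHt -/
def St_RsC : Prop := ∀ {C : Type u} [Category.{v} C] [Abelian C] (P A : ObjectProperty C),
  ResH P A → ∀ M, P M → SSt.Contr (FM P A M)

/-- **Res** (0.3 h). Resolution in one S-direction. needs: SA, RsC -/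
def St_Res : Prop := ∀ {C : Type u} [Category.{v} C] [Abelian C] (P A : ObjectProperty C)
  (H : ResH P A), SSt.Strong (SdS.incl H.le)

/-! ## Localization -/

/-- **LcV** (3 h). The chains of monomorphisms with cokernel in `A` resolve the chains of morphisms
inverted by `L`.

Proof. In the abelian category `Fin (l + 1) ⥤ EB.C` (kernels, cokernels, exactness pointwise:
`ses_functor`). `P` = chains in `EB.P` inverted by `L`, `A` = chains of monomorphisms with cokernel killed
by `L` (these are inverted by `L`, `D.mono_le`). Closure under isomorphisms, extensions, zero objects: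
the fields of `D.WW.Q`, `EB.monoP`. `ker`: `X → Y → Z` pointwise exact, `Y` a chain of monomorphisms: so is `X`; `X` is inverted by
`L` (it is in `P`), so the cokernels are killed by `L`, and they are in `EB.P` by `quoB`. `cov`: for
`M^0 → … → M^l` let `K_i = ker (M^i → M^l)` (killed by `L`) and `b'_i ≤ M^i` as in `D.ar`,
`Q_i = M^i / b'_i` (killed by `L`, in `EB.P`). `P₀^i = M^i ⊕ ⨁_(j < i) Q_j`, the map
`P₀^i → P₀^(i+1)` is `(M^i → M^(i+1), M^i → Q_i)` on `M^i` and the identity on the `Q_j`: mono because
`ker (M^i → M^(i+1)) ∩ b'_i = 0`; inverted by `L` because `L(Q_j) = 0`. The projection `P₀ → M` is a natural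
epimorphism; its kernel is in `P` (pointwise kernel `⨁ Q_j`, killed by `L`) and is a chain of monomorphisms.
(To construct the chain `P₀` use a closed formula, for example
`P₀^i = M^i ⊕ ⨁_(j : Fin (l+1)) (if j < i then Q_j else 0)`, or: induction on `l`; or the image-free variant
`P₀^i = M^i ⊕ ∏_(j < i)` as a functor in `i`: the map for `i ≤ k` is `M^i → M^k` and, for `i ≤ j < k`, `M^i → M^j → Q_j`;
the identity for `j < i`.) needs: nothing -/
def St_LcV : Prop := ∀ {EB EC : ExCat.{u}} (D : LocD EB EC) (l : ℕ),
  ResH (D.WW.Q (Fin (l + 1))).Q (EB.monoP D.A (Fin (l + 1))).Q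

/-- **CtP** (0.7 h). Chains with objects in `P` and morphisms in the multiplicative `W` are the nerve of
`PWo`: the evident maps of simplicial sets are inverse to each other (`rfl` up to extensionality), so
strong. (1) contractibility; (2) strong maps. needs: StrHt, Str23 -/
def St_CtP : Prop :=
  (∀ {X : Type u} [Category.{v} X] (P : ObjectProperty X) (W : MorphismProperty X)
    [W.IsMultiplicative], SSt.Contr (Nv (PWo X P W)) → SSt.Contr (NvP X P W)) ∧
  ∀ {X Y : Type u} [Category.{v} X] [Category.{v} Y] (P : ObjectProperty X)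
    (W : MorphismProperty X) [W.IsMultiplicative] (P' : ObjectProperty Y) (W' : MorphismProperty Y)
    [W'.IsMultiplicative] (F : X ⥤ Y) (hP : ∀ x, P x → P' (F.obj x))
    (hW : ∀ {x y : X} (f : x ⟶ y), P x → P y → W f → W' (F.map f)),
    SSt.Strong (Nv.mapF (PWo.mapF F hP hW : PWo X P W ⥤ PWo Y P' W')) →
      SSt.Strong (NvP.mapF F hP hW : NvP X P W ⟶ NvP Y P' W')

/-- **LcC** (4 h). The comma categories for localization are contractible.

Proof. Let `c` be an S-diagram over `[m]` in `EC.P`. The comma category `𝒦`: S-diagrams `b` in `EB.P` with an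
isomorphism `L b ≅ c`; equivalently (adjunction, pointwise) with `b ⟶ R c`. Let `E = R (c(0,last))` and let `Lat`
be the set of the subobjects `Λ` of `E` in `EB.P` with `L Λ ⟶ L E ≅ c(0,last)` an isomorphism (a thin category with
the morphisms `Λ ⟶ Λ'` over `E`, homs in `Type u`: a full or induced subcategory of `MonoOver E`; directed:
`Λ ⊔ Λ'` is a quotient of `Λ ⊞ Λ'` (closed under `EB.P`: sums are extensions, `quoB`); nonempty: `D.lift`). So
`Nv Lat` is contractible (`St_CtB` (5)). For `Λ` in `Lat` let `flag Λ (i, j)` be the image of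
`Λ ⊓ R c(0, j) → R c(0,j) → R c(i, j)`, a subdiagram of `R c` (`R c(0,j) ≤ E` as `R` preserves
monomorphisms), a functor of `Λ`. It is an S-diagram with entries in `EB.P` (subquotients of `Λ`):
`flag (i,j) → flag (i,k)` is mono since `R c(i,j) → R c(i,k)` is; `flag (i,k) → flag (j,k)` is epi as both are images
of `Λ ⊓ R c(0,k)`; exact in the middle: if `y : Λ ⊓ R c(0,k)` maps to zero in `R c(j,k)`, then it is in
`R c(0,j)` by left exactness of `R`. `L (flag Λ) ⟶ L R c ≅ c` is an isomorphism: at `(0,last)` by the choice of `Λ`, at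
`(0,j)` because `L` preserves the fibre product `Λ ⊓ R c(0,j)`, at `(i,j)` because `L` preserves images
and `c(0,j) → c(i,j)` is epi. So `flag : Lat ⥤ 𝒦`. Conversely `(b, g) ↦` the image of `b(0,last) ⟶ E`, in `Lat`
(quotient of `b(0,last)`; `L` of it is between `c(0,last)` and `L E`): `𝒦 ⥤ Lat`. There are natural
transformations `𝟭 ⟶ flag (image)` (the map `b ⟶ R c` factors through the flag; the factorization of a mono is
unique) and `𝟭 ⟶ image (flag)` (equality). `St_CtB` (1). needs: CtB, Str23 -/
def St_LcC : Prop := ∀ {EB EC : ExCat.{u}} (D : LocD EB EC) (m : ℕ)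
  (c : XC EC (Fin (m + 1))), SSt.Contr (Nv (CostructuredArrow (D.LS (Fin (m + 1))) c))

/-- **LcW** (1.5 h). From the chains inverted by `L` to the chains of isomorphisms.

Proof. The column `m`: `l ↦ ` S-diagrams over `[m]` of chains over `[l]` = chains of S-diagrams
(`Functor.flip`): isomorphic to `NvP (Ar [m] ⥤ EB.C) (SQ EB.P) (pwW (invW L))`; the same for `EC`. `St_CtP`,
`St_CtA`, `St_LcC`; `SES` in `Fin (l + 1) ⥤ EB.C` is pointwise (`ses_functor`, `isZero_functor`).
needs: CtA, CtP, LcC, Str23, StrHt -/
def St_LcW : Prop := ∀ {EB EC : ExCat.{u}} (D : LocD EB EC) (m : ℕ),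
  SSt.Strong (SSt.colMap (biS.map D.toIso) m)

/-- **LcI** (1 h). Constant chains. `St_Eqv` for the functor `E ⥤ (isoW E).ch (Fin (l + 1))`, `X ↦ const X`:
fully faithful (a natural transformation of constant functors is determined at `0`), reflects
conflations, essentially surjective (a chain of isomorphisms is isomorphic to the constant
chain `D 0`). needs: Eqv, Str23 -/
def St_LcI : Prop := ∀ (E : ExCat.{u}) (l : ℕ), SSt.Strong (E.cstI (Fin (l + 1))).obS

/-- **Lc** (0.5 h). Localization in terms of strong maps of bisimplicial sets: `D.toW` (`St_LcV`,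
`St_Res`, rows), `D.toIso` (`St_LcW`, columns), `cstI EC` (`St_LcI`, rows).
needs: LcV, Res, LcW, LcI, StrRow, StrCol -/
def St_Lc : Prop := ∀ {EB EC : ExCat.{u}} (D : LocD EB EC),
  SSt.Strong (SSt.diagF.map (biS.map D.toW)) ∧ SSt.Strong (SSt.diagF.map (biS.map D.toIso)) ∧
    SSt.Strong (SSt.diagF.map (biS.map (cstI EC)))

end Pool.Agent.KQ
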